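import Pool.Agent.KS6_10.Bound

/-!
# Completely multiplicative functions and their inverses
-/

set_option autoImplicit false
set_option linter.unusedVariables false

namespace Pool.Agent.KS6_10

open Finset ArithmeticFunction
open scoped ArithmeticFunction ArithmeticFunction.Moebius ArithmeticFunction.zeta

/-- the completely multiplicative function with the values `v p` -/
noncomputable def cmul (v : ℕ → ℂ) : ArithmeticFunction ℂ :=
  ⟨fun n => if n = 0 then 0 else n.factorization.prod fun p k => v p ^ k, by simp⟩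

theorem cmul_apply (v : ℕ → ℂ) {n : ℕ} (hn : n ≠ 0) : cmul v n = n.factorization.prod fun p k => v p ^ k := by
  show (if n = 0 then 0 else _) = _
  rw [if_neg hn]

theorem cmul_one (v : ℕ → ℂ) : cmul v 1 = 1 := by
  rw [cmul_apply v one_ne_zero]
  simp

theorem cmul_mul (v : ℕ → ℂ) (m n : ℕ) : cmul v (m * n) = cmul v m * cmul v n := by
  rcases eq_or_ne m 0 with hm | hm
  · rw [hm]; simp
  rcases eq_or_ne n 0 with hn | hn
  · rw [hn]; simp
  rw [cmul_apply v (mul_ne_zero hm hn), cmul_apply v hm, cmul_apply v hn, Nat.factorization_mul hm hn,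
    Finsupp.prod_add_index']
  · intro a; simp
  · intro a k l; rw [pow_add]

theorem cmul_prime_pow (v : ℕ → ℂ) {p : ℕ} (hp : p.Prime) (k : ℕ) : cmul v (p ^ k) = v p ^ k := by
  rw [cmul_apply v (pow_ne_zero k hp.ne_zero), hp.factorization_pow]
  simp

theorem cmul_prime (v : ℕ → ℂ) {p : ℕ} (hp : p.Prime) : cmul v p = v p := by
  have := cmul_prime_pow v hp 1
  rwa [pow_one, pow_one] at this

theorem cmul_isMul (v : ℕ → ℂ) : (cmul v).IsMultiplicative := ⟨cmul_one v, fun {m n} _ => cmul_mul v m n⟩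

/-- the squarefree inverse -/
noncomputable def sfi (v : ℕ → ℂ) : ArithmeticFunction ℂ := ((μ : ArithmeticFunction ℤ) : ArithmeticFunction ℂ).pmul (cmul v)

theorem sfi_apply (v : ℕ → ℂ) (n : ℕ) : sfi v n = (μ n : ℂ) * cmul v n := by
  unfold sfi
  rw [pmul_apply, intCoe_apply]

theorem sfi_mul (v : ℕ → ℂ) : sfi v * cmul v = 1 := by
  ext n
  rw [ArithmeticFunction.mul_apply]
  have h1 : ∑ x ∈ n.divisorsAntidiagonal, sfi v x.1 * cmul v x.2 = (∑ x ∈ n.divisorsAntidiagonal, ((μ x.1 : ℤ) : ℂ)) * cmul v n := by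
    rw [sum_mul]
    refine sum_congr rfl fun x hx => ?_
    rw [sfi_apply, mul_assoc, ← cmul_mul, (Nat.mem_divisorsAntidiagonal.1 hx).1]
  rw [h1]
  have h2 : ∑ x ∈ n.divisorsAntidiagonal, ((μ x.1 : ℤ) : ℂ) = (1 : ArithmeticFunction ℂ) n := by
    rw [← coe_moebius_mul_coe_zeta, ArithmeticFunction.mul_apply]
    refine sum_congr rfl fun x hx => ?_
    have hx2 : x.2 ≠ 0 := by
      intro h0
      have := (Nat.mem_divisorsAntidiagonal.1 hx)
      rw [h0, mul_zero] at this
      exact this.2 this.1.symm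
    rw [intCoe_apply, natCoe_apply, zeta_apply, if_neg hx2]
    simp
  rw [h2, one_apply]
  split_ifs with h
  · rw [h, cmul_one, one_mul]
  · rw [zero_mul]

theorem cmul_sfi (v : ℕ → ℂ) : cmul v * sfi v = 1 := by rw [mul_comm]; exact sfi_mul v

theorem sfi_isMul (v : ℕ → ℂ) : (sfi v).IsMultiplicative := by
  unfold sfi
  exact (isMultiplicative_moebius.intCast).pmul (cmul_isMul v)

theorem norm_cmul_le {v : ℕ → ℂ} (hv : ∀ p, p.Prime → ‖v p‖ ≤ p) (n : ℕ) : ‖cmul v n‖ ≤ n := by
  induction n using Nat.recOnMul with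
  | zero => simp
  | one => rw [cmul_one]; simp
  | prime p hp => rw [cmul_prime v hp]; exact hv p hp
  | mul m n hm hn =>
    rw [cmul_mul, norm_mul, Nat.cast_mul]
    exact mul_le_mul hm hn (norm_nonneg _) (Nat.cast_nonneg m)

theorem norm_sfi_le {v : ℕ → ℂ} (hv : ∀ p, p.Prime → ‖v p‖ ≤ p) (n : ℕ) : ‖sfi v n‖ ≤ n := by
  rw [sfi_apply, norm_mul]
  have h1 : ‖((μ n : ℤ) : ℂ)‖ ≤ 1 := by
    rw [Complex.norm_intCast]
    exact_mod_cast abs_moebius_le_one
  calc _ ≤ 1 * (n:ℝ) := mul_le_mul h1 (norm_cmul_le hv n) (norm_nonneg _) zero_le_one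
    _ = n := one_mul _

/-- the value of a Dirichlet convolution at a prime power -/
theorem conv_prime_pow (f g : ArithmeticFunction ℂ) {p : ℕ} (hp : p.Prime) (k : ℕ) :
    (f * g) (p ^ k) = ∑ i ∈ range (k + 1), f (p ^ i) * g (p ^ (k - i)) := by
  rw [ArithmeticFunction.mul_apply, Nat.sum_divisorsAntidiagonal (fun i j => f i * g j), Nat.divisors_prime_pow hp, sum_map]
  refine sum_congr rfl fun i hi => ?_
  have hi' : i ≤ k := by have := mem_range.1 hi; omega
  simp only [Function.Embedding.coeFn_mk]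
  rw [Nat.pow_div hi' hp.pos]

end Pool.Agent.KS6_10
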