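import Pool.Agent.KS6_10.Conv

/-!
# Splitting the coefficients: the integrals along the ray
-/

set_option autoImplicit false
set_option linter.unusedVariables false

namespace Pool.Agent.KS6_10

open Complex Set MeasureTheory Filter Topology
open scoped ComplexConjugate ENNReal ArithmeticFunction

theorem image_mul_Ioi {l a : ℝ} (hl : 0 < l) : (fun x : ℝ => l * x) '' Ioi a = Ioi (l * a) := by
  ext y
  constructor
  · rintro ⟨x, hx, rfl⟩
    exact mul_lt_mul_of_pos_left hx hl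
  · intro hy
    have hy' : l * a < y := hy
    refine ⟨l⁻¹ * y, ?_, ?_⟩
    · show a < l⁻¹ * y
      rw [inv_mul_eq_div, lt_div_iff₀ hl, mul_comm]
      exact hy'
    · simp only
      rw [mul_inv_cancel_left₀ hl.ne']

theorem lint_mul {l a : ℝ} (hl : 0 < l) (g : ℝ → ℝ≥0∞) :
    ∫⁻ y in Ioi (l * a), g y = ∫⁻ x in Ioi a, ENNReal.ofReal l * g (l * x) := by
  rw [← image_mul_Ioi hl, lintegral_image_eq_lintegral_abs_deriv_mul (f' := fun x => l) measurableSet_Ioi]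
  · refine setLIntegral_congr_fun measurableSet_Ioi fun x hx => ?_
    simp only [abs_of_pos hl]
  · intro x hx
    have := (hasDerivAt_id x).const_mul l
    rw [mul_one] at this
    exact this.hasDerivWithinAt
  · intro x _ y _ h
    exact mul_left_cancel₀ hl.ne' h

theorem J_le {g b : ArithmeticFunction ℂ} (hb : ∀ m, ‖b m‖ ≤ m)
    (hg : Summable fun l : ℕ => ‖g l‖ * (l : ℝ) ^ (-(5 / 4 : ℝ))) {G : ℂ → ℂ}
    (hG : ∀ z : ℂ, 0 < z.re → HasSum (fun n : ℕ => (g * b) n * Complex.exp (-(2 * Real.pi * n * z))) (G z))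
    {w : ℂ} (hw : 0 < w.re) {r : ℝ} (hr : 0 < r) {σ : ℝ} (hσ : 5 / 4 ≤ σ) :
    ∫⁻ v in Ioi r, ENNReal.ofReal (v ^ (σ - 1)) * ‖G (w * v)‖ₑ ≤
      ENNReal.ofReal (∑' l : ℕ, ‖g l‖ * (l : ℝ) ^ (-(5 / 4 : ℝ))) *
        ∫⁻ v in Ioi r, ENNReal.ofReal (v ^ (σ - 1)) * ‖Bs b (w * v)‖ₑ := by
  -- pointwise
  have h1 : ∀ v ∈ Ioi r, ENNReal.ofReal (v ^ (σ - 1)) * ‖G (w * v)‖ₑ ≤
      ∑' l : ℕ, ENNReal.ofReal (v ^ (σ - 1)) * (‖g l‖ₑ * ‖Bs b (l * (w * v))‖ₑ) := by
    intro v hv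
    have hv' : r < v := hv
    have hz : 0 < (w * v).re := by rw [Complex.re_mul_ofReal]; exact mul_pos hw (by linarith)
    obtain ⟨e1, e2⟩ := expand hb hg hz
    have e3 := (hG _ hz).unique e1
    rw [ENNReal.tsum_mul_left, e3]
    gcongr
    have e4 : ‖∑' l : ℕ, g l * Bs b (l * (w * v))‖ₑ ≤ ∑' l : ℕ, ‖g l * Bs b (l * (w * v))‖ₑ := by
      exact enorm_tsum_le_tsum_enorm
    refine e4.trans (le_of_eq ?_)
    refine tsum_congr fun l => ?_
    rw [enorm_mul]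
  refine (setLIntegral_mono' measurableSet_Ioi h1).trans ?_
  rw [lintegral_tsum]
  · -- termwise
    have h2 : ∀ l : ℕ, ∫⁻ v in Ioi r, ENNReal.ofReal (v ^ (σ - 1)) * (‖g l‖ₑ * ‖Bs b (l * (w * v))‖ₑ) ≤
        ENNReal.ofReal (‖g l‖ * (l : ℝ) ^ (-(5 / 4 : ℝ))) * ∫⁻ v in Ioi r, ENNReal.ofReal (v ^ (σ - 1)) * ‖Bs b (w * v)‖ₑ := by
      intro l
      rcases Nat.eq_zero_or_pos l with hl | hl
      · rw [hl]; simp
      have hl0 : (0:ℝ) < l := by exact_mod_cast hl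
      have hl1 : (1:ℝ) ≤ l := by exact_mod_cast hl
      have e1 : ∫⁻ v in Ioi r, ENNReal.ofReal (v ^ (σ - 1)) * ‖Bs b (w * v)‖ₑ ≥
          ∫⁻ v in Ioi ((l:ℝ) * r), ENNReal.ofReal (v ^ (σ - 1)) * ‖Bs b (w * v)‖ₑ := by
        refine lintegral_mono_set (Ioi_subset_Ioi ?_)
        exact le_mul_of_one_le_left hr.le hl1
      refine le_trans ?_ (mul_le_mul' le_rfl e1)
      rw [lint_mul hl0, ← lintegral_const_mul' _ _ ENNReal.ofReal_ne_top]
      refine setLIntegral_mono' measurableSet_Ioi fun v hv => ?_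
      have hv' : r < v := hv
      have hv0 : 0 < v := by linarith
      have e2 : w * (((l:ℝ) * v : ℝ) : ℂ) = l * (w * v) := by push_cast; ring
      rw [e2, ← ofReal_norm (g l)]
      generalize ‖Bs b (↑l * (w * ↑v))‖ₑ = K
      rw [← mul_assoc, ← mul_assoc, ← mul_assoc, ← ENNReal.ofReal_mul (by positivity),
        ← ENNReal.ofReal_mul (by positivity), ← ENNReal.ofReal_mul (by positivity)]
      refine mul_le_mul' (ENNReal.ofReal_le_ofReal ?_) le_rfl
      rw [Real.mul_rpow hl0.le hv0.le]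
      have e3 : (1:ℝ) ≤ (l : ℝ) ^ (-(5 / 4 : ℝ)) * l * (l:ℝ) ^ (σ - 1) := by
        nth_rewrite 2 [← Real.rpow_one (l:ℝ)]
        rw [← Real.rpow_add hl0, ← Real.rpow_add hl0]
        exact Real.one_le_rpow hl1 (by linarith)
      have e4 : 0 ≤ v ^ (σ - 1) * ‖g l‖ := by positivity
      calc v ^ (σ - 1) * ‖g l‖ = (v ^ (σ - 1) * ‖g l‖) * 1 := (mul_one _).symm
        _ ≤ (v ^ (σ - 1) * ‖g l‖) * ((l : ℝ) ^ (-(5 / 4 : ℝ)) * l * (l:ℝ) ^ (σ - 1)) := mul_le_mul_of_nonneg_left e3 e4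
        _ = _ := by ring
    refine (ENNReal.tsum_le_tsum h2).trans ?_
    rw [ENNReal.tsum_mul_right, ENNReal.ofReal_tsum_of_nonneg (fun l => by positivity) hg]
  · intro l
    rcases Nat.eq_zero_or_pos l with hl | hl
    · rw [hl]; simp
    have hl0 : (0:ℝ) < l := by exact_mod_cast hl
    have hlw : 0 < ((l:ℂ) * w).re := by rw [← Complex.ofReal_natCast, Complex.re_ofReal_mul]; positivity
    have hc : ContinuousOn (fun v : ℝ => Bs b (l * (w * v))) (Ioi r) := by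
      have := (Bs_cont hb hlw).mono (Ioi_subset_Ioi hr.le)
      refine this.congr fun v _ => ?_
      simp only [mul_assoc]
    have hm : AEMeasurable (fun v : ℝ => Bs b (l * (w * v))) (volume.restrict (Ioi r)) := hc.aemeasurable measurableSet_Ioi
    have hm2 : Measurable fun v : ℝ => ENNReal.ofReal (v ^ (σ - 1)) := (measurable_id.pow_const _).ennreal_ofReal
    exact hm2.aemeasurable.mul (hm.enorm.const_mul _)

end Pool.Agent.KS6_10
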