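import Pool.Agent.KS6_10.Val
import Pool.Agent.KS6_10.Conv2

/-!
# Dyadic blocks of the rotated theta series, on average over the box
-/

set_option autoImplicit false
set_option linter.unusedVariables false

namespace Pool.Agent.KS6_10

open Finset ArithmeticFunction
open scoped ArithmeticFunction ArithmeticFunction.Moebius

/-- dyadic block of the series `B` -/
noncomputable def blk (j : ℕ) (a b : ℤ) (z : ℂ) : ℂ :=
  ∑ m ∈ dy j, sfi (vS a b) m * Complex.exp (-(2 * Real.pi * m * z))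

theorem blk_ls (ε : ℝ) (hε : 0 < ε) : ∃ C : ℝ, 1 ≤ C ∧ ∀ (X U : ℝ) (j : ℕ) (z : ℂ), 1 ≤ X → 1 ≤ U →
    U ≤ X → ((2:ℝ) ^ (j + 1)) ^ 2 ≤ U * X → 0 < z.re →
    ∑ ab ∈ bxA X ×ˢ bxB X, ‖blk j ab.1 ab.2 z‖ ≤
      C * X ^ (5 / 6 + ε) * U ^ (3 / 2 : ℝ) * ((2:ℝ) ^ (j + 1)) ^ (4 / 3 : ℝ) * Real.exp (-(Real.pi * 2 ^ (j + 1) * z.re)) := by
  obtain ⟨C, hC, h⟩ := l1_block ε hε
  refine ⟨C, hC, fun X U j z hX hU hUX hN hz => ?_⟩
  have hpi := Real.pi_pos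
  have hN0 : (0:ℝ) < (2:ℝ) ^ (j + 1) := by positivity
  have h1 := h X U (2 ^ (j + 1)) (dy j) (fun m => (μ m : ℂ) * (Real.sqrt m : ℂ) * Complex.exp (-(2 * Real.pi * m * z)))
    (Real.sqrt ((2:ℝ) ^ (j + 1)) * Real.exp (-(Real.pi * 2 ^ (j + 1) * z.re))) hX hU hUX (Nat.one_le_two_pow)
    (by push_cast; exact hN) (fun n hn => by
      obtain ⟨⟨h2, h3⟩, h4, h5⟩ := mem_dy.1 hn
      exact ⟨h3.le, cop6_odd h5, h4⟩) (by positivity) (fun n hn => by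
      obtain ⟨⟨h2, h3⟩, h4, h5⟩ := mem_dy.1 hn
      have h2' : (2:ℝ) ^ j ≤ n := by exact_mod_cast h2
      have h3' : (n:ℝ) ≤ (2:ℝ) ^ (j + 1) := by exact_mod_cast h3.le
      rw [norm_mul, norm_mul, norm_term, Complex.norm_real, Real.norm_of_nonneg (Real.sqrt_nonneg _)]
      have e1 : Real.sqrt n ≤ Real.sqrt ((2:ℝ) ^ (j + 1)) := Real.sqrt_le_sqrt h3'
      have e2 : Real.exp (-(2 * Real.pi * z.re) * n) ≤ Real.exp (-(Real.pi * 2 ^ (j + 1) * z.re)) := by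
        rw [Real.exp_le_exp]
        have e3 : Real.pi * 2 ^ (j + 1) * z.re = (2 * Real.pi * z.re) * 2 ^ j := by ring
        have e4 : (2 * Real.pi * z.re) * 2 ^ j ≤ (2 * Real.pi * z.re) * n := mul_le_mul_of_nonneg_left h2' (by positivity)
        linarith
      calc ‖((μ n : ℤ) : ℂ)‖ * Real.sqrt n * Real.exp (-(2 * Real.pi * z.re) * n)
          ≤ 1 * Real.sqrt ((2:ℝ) ^ (j + 1)) * Real.exp (-(Real.pi * 2 ^ (j + 1) * z.re)) := by
            gcongr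
            exact norm_moeb_le n
        _ = _ := by ring)
  have h2 : ∀ ab : ℤ × ℤ, blk j ab.1 ab.2 z =
      ∑ n ∈ dy j, (μ n : ℂ) * (Real.sqrt n : ℂ) * Complex.exp (-(2 * Real.pi * n * z)) * ((SS n ab.1 ab.2 : ℂ) / (Real.sqrt n : ℂ)) := fun ab => by
    unfold blk
    refine sum_congr rfl fun n hn => ?_
    obtain ⟨⟨h2, h3⟩, h4, h5⟩ := mem_dy.1 hn
    have hn0 : 0 < n := lt_of_lt_of_le (by positivity) h2
    have hs : (Real.sqrt n : ℂ) ≠ 0 := by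
      have : 0 < Real.sqrt n := Real.sqrt_pos.2 (by exact_mod_cast hn0)
      exact_mod_cast this.ne'
    rw [sfi_vS_val ⟨h4, h5⟩]
    field_simp
  simp only [h2]
  refine h1.trans (le_of_eq ?_)
  push_cast
  have e5 : ((2:ℝ) ^ (j + 1)) ^ (4 / 3 : ℝ) = ((2:ℝ) ^ (j + 1)) ^ (5 / 6 : ℝ) * Real.sqrt ((2:ℝ) ^ (j + 1)) := by
    rw [Real.sqrt_eq_rpow, ← Real.rpow_add hN0]
    norm_num
  rw [e5]
  ring

theorem blk_triv (X : ℝ) (hX : 1 ≤ X) (j : ℕ) (z : ℂ) (hz : 0 < z.re) :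
    ∑ ab ∈ bxA X ×ˢ bxB X, ‖blk j ab.1 ab.2 z‖ ≤
      9 * X ^ (5 / 6 : ℝ) * ((2:ℝ) ^ (j + 1)) ^ 2 * Real.exp (-(Real.pi * 2 ^ (j + 1) * z.re)) := by
  have hpi := Real.pi_pos
  have h1 : ∀ ab : ℤ × ℤ, ‖blk j ab.1 ab.2 z‖ ≤ ((2:ℝ) ^ (j + 1)) ^ 2 * Real.exp (-(Real.pi * 2 ^ (j + 1) * z.re)) := fun ab => by
    unfold blk
    refine (norm_sum_le _ _).trans ?_
    have hcard : ((dy j).card : ℝ) ≤ (2:ℝ) ^ (j + 1) := by
      have : (dy j).card ≤ 2 ^ (j + 1) := by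
        unfold dy
        refine (card_filter_le _ _).trans ?_
        rw [Nat.card_Ico]
        exact Nat.sub_le _ _
      exact_mod_cast this
    calc ∑ m ∈ dy j, ‖sfi (vS ab.1 ab.2) m * Complex.exp (-(2 * Real.pi * m * z))‖
        ≤ ∑ m ∈ dy j, (2:ℝ) ^ (j + 1) * Real.exp (-(Real.pi * 2 ^ (j + 1) * z.re)) := by
          refine sum_le_sum fun n hn => ?_
          obtain ⟨⟨h2, h3⟩, h4, h5⟩ := mem_dy.1 hn
          have h2' : (2:ℝ) ^ j ≤ n := by exact_mod_cast h2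
          have h3' : (n:ℝ) ≤ (2:ℝ) ^ (j + 1) := by exact_mod_cast h3.le
          rw [norm_mul, norm_term]
          have e2 : Real.exp (-(2 * Real.pi * z.re) * n) ≤ Real.exp (-(Real.pi * 2 ^ (j + 1) * z.re)) := by
            rw [Real.exp_le_exp]
            have e3 : Real.pi * 2 ^ (j + 1) * z.re = (2 * Real.pi * z.re) * 2 ^ j := by ring
            have e4 : (2 * Real.pi * z.re) * 2 ^ j ≤ (2 * Real.pi * z.re) * n := mul_le_mul_of_nonneg_left h2' (by positivity)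
            linarith
          exact mul_le_mul ((sfi_vS_le _ _ n).trans h3') e2 (Real.exp_pos _).le (by positivity)
      _ = (dy j).card * ((2:ℝ) ^ (j + 1) * Real.exp (-(Real.pi * 2 ^ (j + 1) * z.re))) := by rw [sum_const, nsmul_eq_mul]
      _ ≤ (2:ℝ) ^ (j + 1) * ((2:ℝ) ^ (j + 1) * Real.exp (-(Real.pi * 2 ^ (j + 1) * z.re))) :=
          mul_le_mul_of_nonneg_right hcard (by positivity)
      _ = _ := by ring
  calc _ ≤ ∑ ab ∈ bxA X ×ˢ bxB X, ((2:ℝ) ^ (j + 1)) ^ 2 * Real.exp (-(Real.pi * 2 ^ (j + 1) * z.re)) := sum_le_sum fun ab _ => h1 ab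
    _ = ((bxA X ×ˢ bxB X).card : ℝ) * (((2:ℝ) ^ (j + 1)) ^ 2 * Real.exp (-(Real.pi * 2 ^ (j + 1) * z.re))) := by rw [sum_const, nsmul_eq_mul]
    _ ≤ (9 * X ^ (5 / 6 : ℝ)) * (((2:ℝ) ^ (j + 1)) ^ 2 * Real.exp (-(Real.pi * 2 ^ (j + 1) * z.re))) :=
        mul_le_mul_of_nonneg_right (box_card hX) (by positivity)
    _ = _ := by ring

theorem rpow_exp {A c : ℝ} (hA : 0 < A) (hc : 0 < c) {x : ℝ} (hx : 0 ≤ x) : x ^ A ≤ (A / c) ^ A * Real.exp (c * x) := by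
  have h1 : c * x / A ≤ Real.exp (c * x / A) := by
    have := Real.add_one_le_exp (c * x / A)
    linarith
  have h2 : (c * x / A) ^ A ≤ Real.exp (c * x) := by
    calc (c * x / A) ^ A ≤ (Real.exp (c * x / A)) ^ A := Real.rpow_le_rpow (by positivity) h1 hA.le
      _ = Real.exp (c * x) := by
          rw [← Real.exp_mul]
          congr 1
          field_simp
  calc x ^ A = (A / c) ^ A * (c * x / A) ^ A := by
        rw [← Real.mul_rpow (by positivity) (by positivity)]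
        congr 1
        field_simp
    _ ≤ _ := mul_le_mul_of_nonneg_left h2 (by positivity)

end Pool.Agent.KS6_10
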