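import Pool.Agent.KS6_10.BSum1

/-!
# Dyadic blocks of the rotated theta series, on average over the box: uniform form
-/

set_option autoImplicit false
set_option linter.unusedVariables false

namespace Pool.Agent.KS6_10

open Finset ArithmeticFunction
open scoped ArithmeticFunction ArithmeticFunction.Moebius

/-- the lower end of the integration -/
noncomputable def r0 (X : ℝ) : ℝ := 1 / Real.sqrt (1928448 * X)

theorem sqrt_C0 : Real.sqrt 1928448 ≤ 1400 := by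
  rw [Real.sqrt_le_left (by norm_num)]
  norm_num

theorem r0_ge {X : ℝ} (hX : 1 ≤ X) : 1 / 1400 * X ^ (-(1 / 2 : ℝ)) ≤ r0 X := by
  unfold r0
  rw [Real.sqrt_mul (by norm_num), Real.rpow_neg (by linarith), ← Real.sqrt_eq_rpow]
  have h1 := sqrt_C0
  have h2 : 0 < Real.sqrt 1928448 := Real.sqrt_pos.2 (by norm_num)
  have h3 : 0 < Real.sqrt X := Real.sqrt_pos.2 (by linarith)
  rw [one_div, one_div, ← mul_inv]
  exact inv_anti₀ (by positivity) (mul_le_mul_of_nonneg_right h1 h3.le)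

/-- the arithmetic of the tail -/
theorem tail_bound (κ : ℝ) (hκ : 0 < κ) : ∃ C : ℝ, 0 < C ∧ ∀ (X P x : ℝ), 1 ≤ X → 1 ≤ P → X ^ (1 + 4 * κ) < P ^ 2 →
    1 / 2300 * X ^ (-(1 / 2 + κ)) ≤ x → P ^ 2 * Real.exp (-(Real.pi * P * x)) ≤
      C * P ^ (4 / 3 - κ) * Real.exp (-(Real.pi / 2 * P * x)) := by
  have hpi := Real.pi_pos
  have hpi3 := Real.pi_gt_three
  set ν : ℝ := 2 * κ / (1 + 4 * κ) with hν
  have hν0 : 0 < ν := by positivity
  set A : ℝ := (2 / 3 + κ) / ν with hA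
  have hA0 : 0 < A := by positivity
  refine ⟨(A / (1 / 2300)) ^ A, by positivity, fun X P x hX hP hXP hx => ?_⟩
  have hX0 : 0 < X := by linarith
  have hP0 : 0 < P := by linarith
  -- P x ≥ c P^ν
  have h1 : X ^ (1 / 2 + κ) ≤ P ^ ((1 + 2 * κ) / (1 + 4 * κ)) := by
    have e1 : X ^ (1 / 2 + κ) = (X ^ (1 + 4 * κ)) ^ ((1 / 2 + κ) / (1 + 4 * κ)) := by
      rw [← Real.rpow_mul hX0.le]
      congr 1
      field_simp
    have e2 : P ^ ((1 + 2 * κ) / (1 + 4 * κ)) = (P ^ 2) ^ ((1 / 2 + κ) / (1 + 4 * κ)) := by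
      rw [← Real.rpow_natCast P 2, ← Real.rpow_mul hP0.le]
      congr 1
      push_cast
      field_simp
    rw [e1, e2]
    exact Real.rpow_le_rpow (by positivity) hXP.le (by positivity)
  have h2 : P ^ ν ≤ P * X ^ (-(1 / 2 + κ)) := by
    rw [Real.rpow_neg hX0.le, ← div_eq_mul_inv, le_div_iff₀ (by positivity)]
    calc P ^ ν * X ^ (1 / 2 + κ) ≤ P ^ ν * P ^ ((1 + 2 * κ) / (1 + 4 * κ)) := mul_le_mul_of_nonneg_left h1 (by positivity)
      _ = P := by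
          rw [← Real.rpow_add hP0]
          have : ν + (1 + 2 * κ) / (1 + 4 * κ) = 1 := by rw [hν]; field_simp; ring
          rw [this, Real.rpow_one]
  have h3 : 1 / 2300 * P ^ ν ≤ Real.pi / 2 * P * x := by
    have h4 : 1 / 2300 * P ^ ν ≤ P * x := by
      calc 1 / 2300 * P ^ ν ≤ 1 / 2300 * (P * X ^ (-(1 / 2 + κ))) := mul_le_mul_of_nonneg_left h2 (by norm_num)
        _ = P * (1 / 2300 * X ^ (-(1 / 2 + κ))) := by ring
        _ ≤ P * x := mul_le_mul_of_nonneg_left hx hP0.le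
    have h5 : 0 ≤ P * x := le_trans (by positivity) h4
    have h6 : P * x ≤ Real.pi / 2 * (P * x) := le_mul_of_one_le_left h5 (by linarith)
    linarith
  have h4 : P ^ (2 / 3 + κ) ≤ (A / (1 / 2300)) ^ A * Real.exp (Real.pi / 2 * P * x) := by
    have e1 : P ^ (2 / 3 + κ) = (P ^ ν) ^ A := by
      rw [← Real.rpow_mul hP0.le]
      congr 1
      rw [hA]
      field_simp
    rw [e1]
    refine (rpow_exp hA0 (by norm_num : (0:ℝ) < 1 / 2300) (by positivity)).trans ?_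
    exact mul_le_mul_of_nonneg_left (Real.exp_le_exp.2 h3) (by positivity)
  have e2 : P ^ 2 = P ^ (4 / 3 - κ) * P ^ (2 / 3 + κ) := by
    rw [← Real.rpow_add hP0, ← Real.rpow_natCast P 2]
    congr 1
    push_cast
    ring
  have e3 : Real.exp (-(Real.pi * P * x)) = Real.exp (-(Real.pi / 2 * P * x)) * Real.exp (-(Real.pi / 2 * P * x)) := by
    rw [← Real.exp_add]
    congr 1
    ring
  have e4 : Real.exp (Real.pi / 2 * P * x) * Real.exp (-(Real.pi / 2 * P * x)) = 1 := by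
    rw [← Real.exp_add, add_neg_cancel, Real.exp_zero]
  rw [e2, e3]
  calc P ^ (4 / 3 - κ) * P ^ (2 / 3 + κ) * (Real.exp (-(Real.pi / 2 * P * x)) * Real.exp (-(Real.pi / 2 * P * x)))
      ≤ P ^ (4 / 3 - κ) * ((A / (1 / 2300)) ^ A * Real.exp (Real.pi / 2 * P * x)) * (Real.exp (-(Real.pi / 2 * P * x)) * Real.exp (-(Real.pi / 2 * P * x))) := by
        gcongr
    _ = (A / (1 / 2300)) ^ A * P ^ (4 / 3 - κ) * (Real.exp (Real.pi / 2 * P * x) * Real.exp (-(Real.pi / 2 * P * x))) * Real.exp (-(Real.pi / 2 * P * x)) := by ring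
    _ = _ := by rw [e4, mul_one]

/-- **uniform bound for the blocks** -/
theorem blk_unif (κ : ℝ) (hκ : 0 < κ) (hκ1 : κ ≤ 1 / 4) : ∃ C : ℝ, 0 < C ∧ ∀ (X : ℝ) (j : ℕ) (z : ℂ), 1 ≤ X →
    1 / 2300 * X ^ (-(1 / 2 + κ)) ≤ z.re →
    ∑ ab ∈ bxA X ×ˢ bxB X, ‖blk j ab.1 ab.2 z‖ ≤
      C * X ^ (5 / 6 + 8 * κ) * ((2:ℝ) ^ (j + 1)) ^ (4 / 3 - κ) * Real.exp (-(Real.pi / 2 * 2 ^ (j + 1) * z.re)) := by
  obtain ⟨C1, hC1, h1⟩ := blk_ls κ hκ
  obtain ⟨C2, hC2, h2⟩ := tail_bound κ hκ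
  refine ⟨C1 + 9 * C2, by positivity, fun X j z hX hz => ?_⟩
  have hpi := Real.pi_pos
  have hX0 : 0 < X := by linarith
  have hzp : 0 < z.re := lt_of_lt_of_le (by positivity) hz
  set P : ℝ := (2:ℝ) ^ (j + 1) with hP
  have hP0 : 0 < P := by positivity
  have hP1 : 1 ≤ P := one_le_pow₀ (by norm_num)
  have hU1 : 1 ≤ X ^ (4 * κ) := Real.one_le_rpow hX (by positivity)
  have hUX : X ^ (4 * κ) ≤ X := by
    calc X ^ (4 * κ) ≤ X ^ (1:ℝ) := Real.rpow_le_rpow_of_exponent_le hX (by linarith)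
      _ = X := Real.rpow_one X
  have hUXe : X ^ (4 * κ) * X = X ^ (1 + 4 * κ) := by
    rw [add_comm, Real.rpow_add hX0, Real.rpow_one]
  rcases le_or_gt (P ^ 2) (X ^ (1 + 4 * κ)) with hle | hgt
  · have h3 := h1 X (X ^ (4 * κ)) j z hX hU1 hUX (by rw [hUXe]; exact hle) hzp
    refine h3.trans ?_
    have e1 : (X ^ (4 * κ)) ^ (3 / 2 : ℝ) = X ^ (6 * κ) := by
      rw [← Real.rpow_mul hX0.le]; congr 1; ring
    have e2 : P ^ κ ≤ X ^ κ := by
      have hPX : P ≤ X := by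
        have : P ^ 2 ≤ X ^ 2 := by
          refine hle.trans ?_
          rw [← Real.rpow_natCast X 2]
          exact Real.rpow_le_rpow_of_exponent_le hX (by push_cast; linarith)
        exact le_of_pow_le_pow_left₀ (by norm_num) hX0.le this
      exact Real.rpow_le_rpow hP0.le hPX hκ.le
    have e3 : P ^ (4 / 3 : ℝ) = P ^ (4 / 3 - κ) * P ^ κ := by
      rw [← Real.rpow_add hP0]; congr 1; ring
    have e4 : X ^ (5 / 6 + κ) * X ^ (6 * κ) * X ^ κ = X ^ (5 / 6 + 8 * κ) := by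
      rw [← Real.rpow_add hX0, ← Real.rpow_add hX0]; congr 1; ring
    have e5 : Real.exp (-(Real.pi * P * z.re)) ≤ Real.exp (-(Real.pi / 2 * P * z.re)) := by
      rw [Real.exp_le_exp]
      have : 0 ≤ Real.pi / 2 * P * z.re := by positivity
      linarith
    rw [e1, e3]
    calc C1 * X ^ (5 / 6 + κ) * X ^ (6 * κ) * (P ^ (4 / 3 - κ) * P ^ κ) * Real.exp (-(Real.pi * P * z.re))
        ≤ C1 * X ^ (5 / 6 + κ) * X ^ (6 * κ) * (P ^ (4 / 3 - κ) * X ^ κ) * Real.exp (-(Real.pi / 2 * P * z.re)) := by gcongr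
      _ = C1 * (X ^ (5 / 6 + κ) * X ^ (6 * κ) * X ^ κ) * P ^ (4 / 3 - κ) * Real.exp (-(Real.pi / 2 * P * z.re)) := by ring
      _ = C1 * X ^ (5 / 6 + 8 * κ) * P ^ (4 / 3 - κ) * Real.exp (-(Real.pi / 2 * P * z.re)) := by rw [e4]
      _ ≤ _ := by
          gcongr
          linarith
  · have h3 := blk_triv X hX j z hzp
    refine h3.trans ?_
    have h4 := h2 X P z.re hX hP1 hgt hz
    have e1 : X ^ (5 / 6 : ℝ) ≤ X ^ (5 / 6 + 8 * κ) := Real.rpow_le_rpow_of_exponent_le hX (by linarith)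
    calc 9 * X ^ (5 / 6 : ℝ) * P ^ 2 * Real.exp (-(Real.pi * P * z.re)) = 9 * X ^ (5 / 6 : ℝ) * (P ^ 2 * Real.exp (-(Real.pi * P * z.re))) := by ring
      _ ≤ 9 * X ^ (5 / 6 + 8 * κ) * (C2 * P ^ (4 / 3 - κ) * Real.exp (-(Real.pi / 2 * P * z.re))) := by gcongr
      _ = (9 * C2) * X ^ (5 / 6 + 8 * κ) * P ^ (4 / 3 - κ) * Real.exp (-(Real.pi / 2 * P * z.re)) := by ring
      _ ≤ _ := by
          gcongr
          linarith

end Pool.Agent.KS6_10
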