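import Pool.Agent.KS6_10.BSum2

/-!
# The integral of the rotated theta series, on average over the box
-/

set_option autoImplicit false
set_option linter.unusedVariables false

namespace Pool.Agent.KS6_10

open Finset ArithmeticFunction MeasureTheory Filter Topology
open scoped ArithmeticFunction ArithmeticFunction.Moebius ENNReal

theorem Bs_dyadic (a b : ℤ) {z : ℂ} (hz : 0 < z.re) :
    ‖Bs (sfi (vS a b)) z‖ₑ ≤ ∑' j : ℕ, ‖blk j a b z‖ₑ := by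
  have h1 := (Bs_hasSum (sfi_vS_le a b) hz).tendsto_sum_nat
  have h2 : Tendsto (fun J : ℕ => 2 ^ J) atTop atTop := tendsto_pow_atTop_atTop_of_one_lt (by norm_num : 1 < 2)
  have h3 := (h1.comp h2).enorm
  refine le_of_tendsto' h3 fun J => ?_
  simp only [Function.comp_apply]
  rw [sum_dyadic _ (fun n hn => by rw [(sfi_zero hn).1, zero_mul]) J]
  refine (enorm_sum_le _ _).trans ?_
  exact ENNReal.sum_le_tsum (f := fun j => ‖blk j a b z‖ₑ) _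

theorem lint_gamma {K b r : ℝ} (hK : 0 ≤ K) (hb : 0 < b) (hr : 0 ≤ r) :
    ∫⁻ u in Set.Ioi r, ENNReal.ofReal (u ^ (1 / 3 : ℝ) * (K * Real.exp (-(b * u)))) ≤
      ENNReal.ofReal (K * ((1 / b) ^ (4 / 3 : ℝ) * Real.Gamma (4 / 3))) := by
  have h1 : ∫⁻ u in Set.Ioi r, ENNReal.ofReal (u ^ (1 / 3 : ℝ) * (K * Real.exp (-(b * u)))) ≤
      ∫⁻ u in Set.Ioi 0, ENNReal.ofReal (K * (u ^ ((4 / 3 : ℝ) - 1) * Real.exp (-(b * u)))) := by
    refine (lintegral_mono_set (Set.Ioi_subset_Ioi hr)).trans (le_of_eq ?_)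
    refine setLIntegral_congr_fun measurableSet_Ioi fun u _ => ?_
    have : (4 / 3 : ℝ) - 1 = 1 / 3 := by norm_num
    rw [this]
    congr 1
    ring
  refine h1.trans ?_
  have h2 := Real.integral_rpow_mul_exp_neg_mul_Ioi (a := 4 / 3) (r := b) (by norm_num) hb
  have h3 : IntegrableOn (fun u : ℝ => K * (u ^ ((4 / 3 : ℝ) - 1) * Real.exp (-(b * u)))) (Set.Ioi 0) := by
    have := integrableOn_rpow_mul_exp_neg_mul_rpow (p := 1) (s := (4 / 3 : ℝ) - 1) (b := b) (by norm_num) (by norm_num) hb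
    refine (this.congr_fun (fun u _ => ?_) measurableSet_Ioi).const_mul K
    simp only [Real.rpow_one, neg_mul]
  rw [← ofReal_integral_eq_lintegral_ofReal h3]
  · rw [integral_const_mul, h2]
  · filter_upwards [ae_restrict_mem measurableSet_Ioi] with u hu
    have hu' : (0:ℝ) < u := hu
    show 0 ≤ K * (u ^ ((4 / 3 : ℝ) - 1) * Real.exp (-(b * u)))
    positivity

theorem two_pi_inv : 1 / 2300 ≤ 2 / Real.pi * (1 / 1400) := by
  have hpi := Real.pi_pos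
  have h := Real.pi_lt_d2
  rw [div_mul_div_comm, div_le_div_iff₀ (by norm_num) (by positivity)]
  nlinarith

/-- the angle -/
noncomputable def ang (X κ : ℝ) : ℝ := Real.pi / 2 - X ^ (-κ)

theorem ang_re {X κ : ℝ} (hX : 1 ≤ X) (hκ : 0 < κ) : 2 / Real.pi * X ^ (-κ) ≤ (rot (ang X κ)).re := by
  have hpi3 := Real.pi_gt_three
  have h1 : X ^ (-κ) ≤ 1 := Real.rpow_le_one_of_one_le_of_nonpos hX (by linarith)
  have h0 : 0 < X ^ (-κ) := Real.rpow_pos_of_pos (by linarith) _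
  unfold ang
  rw [rot_re, Real.cos_pi_div_two_sub]
  exact Real.mul_le_sin h0.le (by linarith)

/-- **the first moment of the ray integral** -/
theorem bsum (κ : ℝ) (hκ : 0 < κ) (hκ1 : κ ≤ 1 / 4) : ∃ C : ℝ, 0 < C ∧ ∀ (X : ℝ), 1 ≤ X →
    ∑ ab ∈ bxA X ×ˢ bxB X, ∫⁻ u in Set.Ioi (r0 X), ENNReal.ofReal (u ^ (1 / 3 : ℝ)) *
      ‖Bs (sfi (vS ab.1 ab.2)) (rot (ang X κ) * u)‖ₑ ≤ ENNReal.ofReal (C * X ^ (5 / 6 + 10 * κ)) := by
  obtain ⟨C, hC, hblk⟩ := blk_unif κ hκ hκ1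
  have hpi := Real.pi_pos
  set ρ : ℝ := (2:ℝ) ^ (-κ) with hρ
  have hρ0 : 0 < ρ := by positivity
  have hρ1 : ρ < 1 := Real.rpow_lt_one_of_one_lt_of_neg (by norm_num) (by linarith)
  have hΓ : 0 < Real.Gamma (4 / 3) := Real.Gamma_pos_of_pos (by norm_num)
  have hgeo : Summable fun j : ℕ => ρ ^ (j + 1) := by
    have := summable_geometric_of_lt_one hρ0.le hρ1
    exact (this.mul_left ρ).congr fun j => by rw [pow_succ]; ring
  have hgeo0 : 0 ≤ ∑' j : ℕ, ρ ^ (j + 1) := tsum_nonneg fun j => by positivity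
  refine ⟨C * Real.Gamma (4 / 3) * (∑' j : ℕ, ρ ^ (j + 1)) + 1, by positivity, fun X hX => ?_⟩
  have hX0 : 0 < X := by linarith
  have hθ0 : 0 < X ^ (-κ) := Real.rpow_pos_of_pos hX0 _
  have hre := ang_re hX hκ
  have hre0 : 0 < (rot (ang X κ)).re := lt_of_lt_of_le (by positivity) hre
  have hr0 : 1 / 1400 * X ^ (-(1 / 2 : ℝ)) ≤ r0 X := r0_ge hX
  have hr00 : 0 < r0 X := lt_of_lt_of_le (by positivity) hr0
  -- swap the finite sum and the integral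
  rw [← lintegral_finsetSum']
  swap
  · intro ab _
    have hc := (Bs_cont (sfi_vS_le ab.1 ab.2) hre0).mono (Set.Ioi_subset_Ioi hr00.le)
    have hm : AEMeasurable (fun v : ℝ => Bs (sfi (vS ab.1 ab.2)) (rot (ang X κ) * v)) (volume.restrict (Set.Ioi (r0 X))) :=
      hc.aemeasurable measurableSet_Ioi
    have hm2 : Measurable fun v : ℝ => ENNReal.ofReal (v ^ (1 / 3 : ℝ)) := (measurable_id.pow_const _).ennreal_ofReal
    exact hm2.aemeasurable.mul hm.enorm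
  -- pointwise bound
  have hpt : ∀ u ∈ Set.Ioi (r0 X), ∑ ab ∈ bxA X ×ˢ bxB X, ENNReal.ofReal (u ^ (1 / 3 : ℝ)) *
      ‖Bs (sfi (vS ab.1 ab.2)) (rot (ang X κ) * u)‖ₑ ≤
      ∑' j : ℕ, ENNReal.ofReal (u ^ (1 / 3 : ℝ) * (C * X ^ (5 / 6 + 8 * κ) * ((2:ℝ) ^ (j + 1)) ^ (4 / 3 - κ) *
        Real.exp (-((2:ℝ) ^ (j + 1) * X ^ (-κ) * u)))) := by
    intro u hu
    have hu' : r0 X < u := hu
    have hu0 : 0 < u := by linarith
    have hzre : (rot (ang X κ) * (u:ℂ)).re = (rot (ang X κ)).re * u := Complex.re_mul_ofReal _ _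
    have hz0 : 0 < (rot (ang X κ) * (u:ℂ)).re := by rw [hzre]; positivity
    have hz1 : 1 / 2300 * X ^ (-(1 / 2 + κ)) ≤ (rot (ang X κ) * (u:ℂ)).re := by
      rw [hzre]
      have e1 : X ^ (-(1 / 2 + κ)) = X ^ (-κ) * X ^ (-(1 / 2 : ℝ)) := by
        rw [← Real.rpow_add hX0]; congr 1; ring
      calc 1 / 2300 * X ^ (-(1 / 2 + κ)) ≤ (2 / Real.pi * (1 / 1400)) * (X ^ (-κ) * X ^ (-(1 / 2 : ℝ))) := by
            rw [e1]; exact mul_le_mul_of_nonneg_right two_pi_inv (by positivity)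
        _ = (2 / Real.pi * X ^ (-κ)) * (1 / 1400 * X ^ (-(1 / 2 : ℝ))) := by ring
        _ ≤ (rot (ang X κ)).re * u := mul_le_mul hre (hr0.trans hu'.le) (by positivity) hre0.le
    have h1 : ∀ j : ℕ, ∑ ab ∈ bxA X ×ˢ bxB X, ‖blk j ab.1 ab.2 (rot (ang X κ) * u)‖ₑ ≤
        ENNReal.ofReal (C * X ^ (5 / 6 + 8 * κ) * ((2:ℝ) ^ (j + 1)) ^ (4 / 3 - κ) * Real.exp (-((2:ℝ) ^ (j + 1) * X ^ (-κ) * u))) := by
      intro j
      have h2 := hblk X j (rot (ang X κ) * u) hX hz1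
      have h3 : ∑ ab ∈ bxA X ×ˢ bxB X, ‖blk j ab.1 ab.2 (rot (ang X κ) * u)‖ₑ =
          ENNReal.ofReal (∑ ab ∈ bxA X ×ˢ bxB X, ‖blk j ab.1 ab.2 (rot (ang X κ) * u)‖) := by
        rw [ENNReal.ofReal_sum_of_nonneg fun _ _ => norm_nonneg _]
        exact sum_congr rfl fun ab _ => (ofReal_norm _).symm
      rw [h3]
      refine ENNReal.ofReal_le_ofReal (h2.trans ?_)
      refine mul_le_mul_of_nonneg_left (Real.exp_le_exp.2 (neg_le_neg ?_)) (by positivity)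
      rw [hzre]
      calc (2:ℝ) ^ (j + 1) * X ^ (-κ) * u = Real.pi / 2 * 2 ^ (j + 1) * ((2 / Real.pi * X ^ (-κ)) * u) := by field_simp
        _ ≤ Real.pi / 2 * 2 ^ (j + 1) * ((rot (ang X κ)).re * u) := by gcongr
    calc ∑ ab ∈ bxA X ×ˢ bxB X, ENNReal.ofReal (u ^ (1 / 3 : ℝ)) * ‖Bs (sfi (vS ab.1 ab.2)) (rot (ang X κ) * u)‖ₑ
        ≤ ∑ ab ∈ bxA X ×ˢ bxB X, ENNReal.ofReal (u ^ (1 / 3 : ℝ)) * ∑' j : ℕ, ‖blk j ab.1 ab.2 (rot (ang X κ) * u)‖ₑ :=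
          sum_le_sum fun ab _ => mul_le_mul' le_rfl (Bs_dyadic ab.1 ab.2 hz0)
      _ = ENNReal.ofReal (u ^ (1 / 3 : ℝ)) * ∑' j : ℕ, ∑ ab ∈ bxA X ×ˢ bxB X, ‖blk j ab.1 ab.2 (rot (ang X κ) * u)‖ₑ := by
          rw [← mul_sum, Summable.tsum_finsetSum fun _ _ => ENNReal.summable]
      _ ≤ ENNReal.ofReal (u ^ (1 / 3 : ℝ)) * ∑' j : ℕ, ENNReal.ofReal (C * X ^ (5 / 6 + 8 * κ) * ((2:ℝ) ^ (j + 1)) ^ (4 / 3 - κ) * Real.exp (-((2:ℝ) ^ (j + 1) * X ^ (-κ) * u))) :=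
          mul_le_mul' le_rfl (ENNReal.tsum_le_tsum h1)
      _ = _ := by
          rw [← ENNReal.tsum_mul_left]
          refine tsum_congr fun j => ?_
          rw [← ENNReal.ofReal_mul (by positivity)]
  refine (setLIntegral_mono' measurableSet_Ioi hpt).trans ?_
  rw [lintegral_tsum fun j => by
    refine (Measurable.ennreal_ofReal ?_).aemeasurable
    exact (measurable_id.pow_const _).mul (by fun_prop)]
  have h5 : ∀ j : ℕ, ∫⁻ u in Set.Ioi (r0 X), ENNReal.ofReal (u ^ (1 / 3 : ℝ) * (C * X ^ (5 / 6 + 8 * κ) * ((2:ℝ) ^ (j + 1)) ^ (4 / 3 - κ) *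
        Real.exp (-((2:ℝ) ^ (j + 1) * X ^ (-κ) * u)))) ≤ ENNReal.ofReal (C * Real.Gamma (4 / 3) * X ^ (5 / 6 + 10 * κ) * ρ ^ (j + 1)) := by
    intro j
    set P : ℝ := (2:ℝ) ^ (j + 1) with hP
    have hP0 : 0 < P := by positivity
    refine (lint_gamma (K := C * X ^ (5 / 6 + 8 * κ) * P ^ (4 / 3 - κ)) (b := P * X ^ (-κ)) (by positivity) (by positivity) hr00.le).trans ?_
    refine ENNReal.ofReal_le_ofReal ?_
    have e1 : (1 / (P * X ^ (-κ))) ^ (4 / 3 : ℝ) = P ^ (-(4 / 3 : ℝ)) * X ^ (4 / 3 * κ) := by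
      rw [one_div, Real.inv_rpow (by positivity), Real.mul_rpow hP0.le hθ0.le, mul_inv, ← Real.rpow_neg hP0.le, ← Real.rpow_mul hX0.le,
        ← Real.rpow_neg hX0.le]
      congr 2
      ring
    have e2 : P ^ (4 / 3 - κ) * P ^ (-(4 / 3 : ℝ)) = ρ ^ (j + 1) := by
      rw [← Real.rpow_add hP0, hP, hρ, ← Real.rpow_natCast 2 (j + 1), ← Real.rpow_natCast _ (j + 1), ← Real.rpow_mul (by norm_num), ← Real.rpow_mul (by norm_num)]
      congr 1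
      ring
    have e3 : X ^ (5 / 6 + 8 * κ) * X ^ (4 / 3 * κ) ≤ X ^ (5 / 6 + 10 * κ) := by
      rw [← Real.rpow_add hX0]
      exact Real.rpow_le_rpow_of_exponent_le hX (by linarith)
    rw [e1]
    calc C * X ^ (5 / 6 + 8 * κ) * P ^ (4 / 3 - κ) * (P ^ (-(4 / 3 : ℝ)) * X ^ (4 / 3 * κ) * Real.Gamma (4 / 3))
        = C * Real.Gamma (4 / 3) * (X ^ (5 / 6 + 8 * κ) * X ^ (4 / 3 * κ)) * (P ^ (4 / 3 - κ) * P ^ (-(4 / 3 : ℝ))) := by ring
      _ ≤ C * Real.Gamma (4 / 3) * X ^ (5 / 6 + 10 * κ) * ρ ^ (j + 1) := by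
          rw [e2]; gcongr
  refine (ENNReal.tsum_le_tsum h5).trans ?_
  rw [← ENNReal.ofReal_tsum_of_nonneg (fun j => by positivity) (hgeo.mul_left _), tsum_mul_left]
  refine ENNReal.ofReal_le_ofReal ?_
  have h6 : 0 ≤ X ^ (5 / 6 + 10 * κ) := by positivity
  calc C * Real.Gamma (4 / 3) * X ^ (5 / 6 + 10 * κ) * ∑' j : ℕ, ρ ^ (j + 1)
      = (C * Real.Gamma (4 / 3) * ∑' j : ℕ, ρ ^ (j + 1)) * X ^ (5 / 6 + 10 * κ) := by ring
    _ ≤ _ := mul_le_mul_of_nonneg_right (by linarith) h6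

end Pool.Agent.KS6_10
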