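import Pool.Agent.KS6_10.DetB

/-!
# Few zeros near a point imply small values there (uniform form)
-/

set_option autoImplicit false
set_option linter.unusedVariables false

open Complex Metric Set Filter Topology

namespace Pool.Agent.KS6_10

open DH31 H370 H370.Loc

theorem backlund' {δ η A : ℝ} (hδ : 0 < δ) (hδ1 : δ ≤ 1 / 12) (hη : 0 < η) (hA1 : 1 ≤ A) :
    ∃ η' : ℝ, 0 < η' ∧ ∃ T0 : ℝ, 1 ≤ T0 ∧ ∀ T : ℝ, T0 ≤ T → ∀ f : ℂ → ℂ, Differentiable ℂ f → ∀ t β : ℝ, 1 / 2 ≤ β →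
      β ≤ 1 → (∀ z ∈ closedBall (⟨1 + δ, t⟩ : ℂ) (1 + δ - β + 3 * δ), ‖f z‖ ≤ T ^ 12) →
      (∀ z : ℂ, 1 + δ / 2 ≤ z.re → ‖f z‖ ≤ A ∧ 1 / A ≤ ‖f z‖) → (∀ z : ℂ, 1 < z.re → f z ≠ 0) →
      (∀ S : Finset ℂ, (∀ z ∈ S, z ∈ closedBall (⟨1 + δ, t⟩ : ℂ) (1 + δ - β + 2 * δ) ∧
        f z = 0) → ∑ z ∈ S, (mult f z : ℝ) ≤ η' * Real.log T) →
      ∀ z ∈ closedBall (⟨1 + δ, t⟩ : ℂ) (1 + δ - β + δ), ‖f z‖ ≤ T ^ η := by
  have hlogδ : 0 ≤ Real.log (1 / δ) := Real.log_nonneg (by rw [le_div_iff₀ hδ]; linarith)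
  have hlog2δ : 0 ≤ Real.log (2 / δ) := Real.log_nonneg (by rw [le_div_iff₀ hδ]; linarith)
  have hlogA : 0 ≤ Real.log A := Real.log_nonneg hA1
  set D : ℝ := 8 / δ ^ 2 * (12 + Real.log (1 / δ)) with hD
  have hD0 : 0 < D := by positivity
  obtain ⟨K, hK⟩ := exists_pow_lt_of_lt_one (show 0 < η / 4 / D by positivity)
    (show 1 - δ / 2 < 1 by linarith)
  have hq0 : 0 ≤ 1 - δ / 2 := by linarith
  rw [lt_div_iff₀ hD0] at hK
  set G : ℝ := K * (4 / δ) ^ K with hG
  have hG0 : 0 ≤ G := by positivity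
  set E : ℝ := Real.log (2 / δ) * (1 + 2 * G) + 1 with hE
  have hE0 : 0 < E := by positivity
  set C : ℝ := Real.log A + 2 * (2 * Real.log A + 1) * G +
    8 / δ ^ 2 * (Real.log A + 1) with hC
  have hC0 : 0 ≤ C := by positivity
  refine ⟨min 1 (η / 4 / E), lt_min one_pos (by positivity), max 10 (Real.exp (4 * C / η)), le_trans (by norm_num) (le_max_left _ _), ?_⟩
  intro T hT f hf t β hβ1 hβ2 hM hA hnz hN z hz
  set η' := min 1 (η / 4 / E) with hη'
  have hη'0 : 0 < η' := lt_min one_pos (by positivity)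
  have hη'1 : η' ≤ 1 := min_le_left _ _
  have hη'2 : η' * E ≤ η / 4 := by
    have : η' ≤ η / 4 / E := min_le_right _ _
    rwa [le_div_iff₀ hE0] at this
  have hT10 : 10 ≤ T := (le_max_left _ _).trans hT
  have hT0 : 0 < T := by linarith
  have hL : 4 * C / η ≤ Real.log T := by
    rw [Real.le_log_iff_exp_le hT0]
    exact (le_max_right _ _).trans hT
  have hL0 : 0 ≤ Real.log T := Real.log_nonneg (by linarith)
  rw [div_le_iff₀ hη] at hL
  have key := backlund_abs (f := f) (c := ⟨1 + δ, t⟩) (ϱ := 1 + δ - β) (δ := δ) (l := δ)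
    (n := η' * Real.log T) (M := T ^ 12) (A := A) (a := A) hδ (by linarith) (by linarith)
    (by linarith) hδ
    (one_le_pow₀ (by linarith)) hA1 hA1 (by positivity)
    (fun w hw => hf.analyticAt w)
    hM
    (fun w hw => (hA w (by have := (ball_re_im hw).1; linarith)).1)
    (hA _ (by simp only; linarith)).2
    (by
      intro w hw hw0
      by_contra hcon
      push Not at hcon
      have h1 : w ∈ ball (⟨1 + δ, t⟩ : ℂ) δ := by
        rw [mem_ball, dist_eq_norm]; exact hcon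
      have h2 : 1 < w.re := by
        rw [mem_ball, dist_eq_norm] at h1
        have h3 := (Complex.abs_re_le_norm (w - ⟨1 + δ, t⟩)).trans_lt h1
        simp only [Complex.sub_re] at h3
        linarith [(abs_lt.1 h3).1]
      exact hnz w h2 hw0)
    (fun S hS => hN S hS) K hz
  refine key.trans ?_
  rw [Real.log_pow]
  push_cast
  set L := Real.log T with hLdef
  have hTη : T ^ η = Real.exp (η * L) := by
    rw [Real.rpow_def_of_pos hT0, mul_comm]
  rw [hTη, ← Real.exp_log (show 0 < A by linarith), ← Real.exp_add, Real.log_exp]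
  apply Real.exp_le_exp.2
  have hp : 0 ≤ (1 - δ / 2) ^ K := by positivity
  have hp1 : (1 - δ / 2) ^ K ≤ 1 := pow_le_one₀ hq0 (by linarith)
  -- main terms
  have e1 : η' * L * Real.log (2 / δ) + 2 * (η' * L * Real.log (2 / δ)) * G ≤ η / 4 * L := by
    have : η' * L * Real.log (2 / δ) + 2 * (η' * L * Real.log (2 / δ)) * G ≤ η' * E * L := by
      have e0 : η' * E * L = η' * L * Real.log (2 / δ) + 2 * (η' * L * Real.log (2 / δ)) * G +
        η' * L := by rw [hE]; ring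
      have : 0 ≤ η' * L := by positivity
      linarith
    exact this.trans (mul_le_mul_of_nonneg_right hη'2 hL0)
  have e2 : 8 / δ ^ 2 * (12 * L + η' * L * Real.log (1 / δ)) *
      (1 - δ / 2) ^ K ≤ η / 4 * L := by
    have h1 : 12 * L + η' * L * Real.log (1 / δ) ≤ L * (12 + Real.log (1 / δ)) := by
      have a1 : η' * L * Real.log (1 / δ) ≤ 1 * L * Real.log (1 / δ) := by gcongr
      linarith
    calc 8 / δ ^ 2 * (12 * L + η' * L * Real.log (1 / δ)) *
      (1 - δ / 2) ^ K ≤ 8 / δ ^ 2 * (L * (12 + Real.log (1 / δ))) *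
      (1 - δ / 2) ^ K := by gcongr
      _ = ((1 - δ / 2) ^ K * D) * L := by rw [hD]; ring
      _ ≤ η / 4 * L := mul_le_mul_of_nonneg_right hK.le hL0
  have e3 : 8 / δ ^ 2 * (Real.log A + 1) * (1 - δ / 2) ^ K ≤ 8 / δ ^ 2 * (Real.log A + 1) :=
    mul_le_of_le_one_right (by positivity) hp1
  have e4 : 4 * (12 * L + η' * L * Real.log (1 / δ) + Real.log A + 1) / δ *
      (1 - δ / 2) ^ K * (2 / δ) = 8 / δ ^ 2 * (12 * L + η' * L * Real.log (1 / δ)) *
      (1 - δ / 2) ^ K + 8 / δ ^ 2 * (Real.log A + 1) * (1 - δ / 2) ^ K := by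
    field_simp
    ring
  rw [e4]
  have e5 : C ≤ η / 4 * L := by linarith
  rw [hC] at e5
  have e6 : 2 * (Real.log A + η' * L * Real.log (2 / δ) + Real.log A + 1) * (K * (4 / δ) ^ K) =
      2 * (2 * Real.log A + 1) * G + 2 * (η' * L * Real.log (2 / δ)) * G := by rw [hG]; ring
  rw [e6]
  linarith

end Pool.Agent.KS6_10
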