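import Pool.Agent.KS6_10.Ids

/-!
# Identities between the Dirichlet series
-/

set_option autoImplicit false
set_option linter.unusedVariables false

namespace Pool.Agent.KS6_10

open Finset ArithmeticFunction Topology Filter
open scoped ArithmeticFunction ArithmeticFunction.Moebius

/-- the coefficients `r` -/
noncomputable def rf (a b : ℤ) : ArithmeticFunction ℂ := qf a b * cmul (vA a b)

theorem rf_mul (a b : ℤ) : rf a b * sfi (vA a b) = qf a b := by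
  unfold rf
  rw [mul_assoc, cmul_sfi, mul_one]

theorem sfi_vA_le (a b : ℤ) (n : ℕ) : ‖sfi (vA a b) n‖ ≤ n := norm_sfi_le (fun p hp => vA_le hp a b) n

theorem sfi_vS_le (a b : ℤ) (n : ℕ) : ‖sfi (vS a b) n‖ ≤ n := norm_sfi_le (fun p hp => vS_le hp a b) n

theorem q_summ {a b : ℤ} (hr : Summable (fun n : ℕ => ‖rf a b n‖ * (n:ℝ) ^ (-(5 / 4 : ℝ)))) {s : ℂ} (hs : 2 < s.re) :
    LSeriesSummable (fun n => qf a b n) s ∧
      LSeries (fun n => qf a b n) s = LSeries (fun n => rf a b n) s * LSeries (fun n => sfi (vA a b) n) s := by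
  have h1 : LSeriesSummable (fun n => rf a b n) s := (lsum_of_54 hr (by linarith)).1
  have h2 : LSeriesSummable (fun n => sfi (vA a b) n) s := lsum_of_le (sfi_vA_le a b) hs
  have e := rf_mul a b
  constructor
  · have := ArithmeticFunction.LSeriesSummable_mul h1 h2
    rw [e] at this
    exact this
  · have := ArithmeticFunction.LSeries_mul' h1 h2
    rw [e] at this
    exact this

theorem Fq {a b : ℤ} (hr : Summable (fun n : ℕ => ‖rf a b n‖ * (n:ℝ) ^ (-(5 / 4 : ℝ)))) {F : ℂ → ℂ} (hF : IsLF a b F)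
    {s : ℂ} (hs : 2 < s.re) : F s * LSeries (fun n => qf a b n) s = 1 := by
  classical
  have h1 := eprod (qf_isMul a b) (q_summ hr hs).1 (s := s)
    (u := fun p => if Gd a b p then 1 - (apE a b p : ℂ) * (p : ℂ) ^ (-s) + (p : ℂ) * (p : ℂ) ^ (-2 * s) else 1) (fun p hp => by
      have e : ∀ k : ℕ, qf a b (p ^ k) = wq a b p k := mulf_prime_pow (wq_zero a b) hp
      have h2 : HasSum (fun k : ℕ => qf a b (p ^ k) * ((p:ℂ) ^ (-s)) ^ k) (∑ k ∈ range 3, qf a b (p ^ k) * ((p:ℂ) ^ (-s)) ^ k) := by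
        refine hasSum_sum_of_ne_finset_zero fun k hk => ?_
        rw [mem_range, not_lt] at hk
        rw [e]
        have k0 : k ≠ 0 := by omega
        have k1 : k ≠ 1 := by omega
        have k2 : k ≠ 2 := by omega
        unfold wq
        simp [k0, k1, k2]
      convert h2 using 1
      rw [sum_range_succ, sum_range_succ, sum_range_succ, sum_range_zero, e, e, e, cpow_two hp.ne_zero]
      unfold wq
      by_cases hg : Gd a b p
      · have hp2 : p ≠ 2 := by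
          rintro rfl
          exact hg (dvd_mul_of_dvd_left (by norm_num) _)
        simp [hg, apE_eq hp hp2]
      · simp [hg])
  have h3 := (hF.2 s (by linarith)).mul h1
  refine h3.unique ?_
  convert hasProd_one (α := ℂ) (β := ℕ) using 2 with p
  by_cases hp : p.Prime
  · by_cases hg : Gd a b p
    · rw [if_pos ⟨hp, hg⟩, if_pos hp]
      simp only [if_pos hg]
      refine inv_mul_cancel₀ ?_
      intro h0
      have hp2 : p ≠ 2 := by
        rintro rfl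
        exact hg (dvd_mul_of_dvd_left (by norm_num) _)
      have hp3 : (3:ℝ) ≤ p := by
        have := hp.two_le
        exact_mod_cast (by omega : 3 ≤ p)
      have h4 := p_mul_lt hp.two_le hs
      have h5 : ‖(apE a b p : ℂ) * (p : ℂ) ^ (-s)‖ ≤ 1 / 2 := by
        rw [norm_mul, apE_eq hp hp2]
        push_cast
        rw [norm_neg, Complex.norm_intCast]
        exact (mul_le_mul_of_nonneg_right (SS_abs_le hp a b) (norm_nonneg _)).trans h4
      have h6 : ‖(p : ℂ) * (p : ℂ) ^ (-2 * s)‖ ≤ 1 / 4 * (1 / 3) := by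
        rw [cpow_two hp.ne_zero, norm_mul, norm_pow, Complex.norm_natCast]
        have h7 : (p:ℝ) * ‖(p:ℂ) ^ (-s)‖ ^ 2 = ((p:ℝ) * ‖(p:ℂ) ^ (-s)‖) ^ 2 * (1 / p) := by
          field_simp
        rw [h7]
        have h8 : ((p:ℝ) * ‖(p:ℂ) ^ (-s)‖) ^ 2 ≤ (1 / 2) ^ 2 := pow_le_pow_left₀ (by positivity) h4 2
        have h9 : 1 / (p:ℝ) ≤ 1 / 3 := one_div_le_one_div_of_le (by norm_num) hp3
        calc ((p:ℝ) * ‖(p:ℂ) ^ (-s)‖) ^ 2 * (1 / p) ≤ (1 / 2) ^ 2 * (1 / 3) := mul_le_mul h8 h9 (by positivity) (by norm_num)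
          _ = _ := by norm_num
      have h10 : (1:ℂ) = (apE a b p : ℂ) * (p : ℂ) ^ (-s) - (p : ℂ) * (p : ℂ) ^ (-2 * s) := by linear_combination h0
      have h11 := congrArg norm h10
      rw [norm_one] at h11
      have := norm_sub_le ((apE a b p : ℂ) * (p : ℂ) ^ (-s)) ((p : ℂ) * (p : ℂ) ^ (-2 * s))
      linarith
    · rw [if_neg (fun h => hg h.2), if_pos hp]
      simp only [if_neg hg, mul_one]
  · rw [if_neg (fun h => hp h.1), if_neg hp, mul_one]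

/-- the factor of the bad primes -/
noncomputable def PP (N : ℕ) (c : ℕ → ℂ) (a b : ℤ) (s : ℂ) : ℂ :=
  ∏ p ∈ (2 * (4 * a ^ 3 + 27 * b ^ 2)).natAbs.primeFactors, (1 - c p * (p:ℂ) ^ (-s) + (if p ∣ N then 0 else (p:ℂ)) * ((p:ℂ) ^ (-s)) ^ 2)

theorem mem_pf {a b : ℤ} (hΔ : 4 * a ^ 3 + 27 * b ^ 2 ≠ 0) {p : ℕ} (hp : p.Prime) :
    p ∈ (2 * (4 * a ^ 3 + 27 * b ^ 2)).natAbs.primeFactors ↔ ¬ Gd a b p := by
  unfold Gd
  rw [not_not, Nat.mem_primeFactors, Int.natCast_dvd]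
  constructor
  · exact fun h => h.2.1
  · exact fun h => ⟨hp, h, by rw [Int.natAbs_ne_zero]; exact mul_ne_zero (by norm_num) hΔ⟩

theorem FPL2 {N : ℕ} {c : ArithmeticFunction ℂ} {a b : ℤ} (hΔ : 4 * a ^ 3 + 27 * b ^ 2 ≠ 0) (hc : Hek N c)
    (hpt : ∀ p : ℕ, p.Prime → Gd a b p → c p = (apE a b p : ℂ)) (hgd : ∀ p : ℕ, p.Prime → Gd a b p → ¬ p ∣ N)
    {F : ℂ → ℂ} (hF : IsLF a b F) {s : ℂ} (hs : 2 < s.re) : F s = PP N c a b s * LSeries (fun n => c n) s := by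
  classical
  obtain ⟨B, hB⟩ := hc.bound
  have hsum : LSeriesSummable (fun n => c n) s := by
    refine LSeriesSummable_of_le_const_mul_rpow (x := 2) hs ⟨B, fun n hn => ?_⟩
    have : ((n:ℝ)) ^ ((2:ℝ) - 1) = n := by norm_num
    rw [this]
    exact hB n
  have h1 := eprod hc.mult hsum (u := fun p => (1 - c p * (p:ℂ) ^ (-s) + (if p ∣ N then 0 else (p:ℂ)) * ((p:ℂ) ^ (-s)) ^ 2)⁻¹)
    (fun p hp => hc.local_sum hp (lt_of_le_of_lt (p_mul_lt hp.two_le hs) (by norm_num)))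
  have h2 : HasProd (fun p : ℕ => if p ∈ (2 * (4 * a ^ 3 + 27 * b ^ 2)).natAbs.primeFactors then
      (1 - c p * (p:ℂ) ^ (-s) + (if p ∣ N then 0 else (p:ℂ)) * ((p:ℂ) ^ (-s)) ^ 2) else 1) (PP N c a b s) := by
    unfold PP
    rw [← prod_congr rfl (fun p hp => if_pos hp)]
    exact hasProd_prod_of_ne_finset_one fun p hp => if_neg hp
  refine (hF.2 s (by linarith)).unique ?_
  convert h2.mul h1 using 2 with p
  by_cases hp : p.Prime
  · by_cases hg : Gd a b p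
    · rw [if_pos ⟨hp, hg⟩, if_pos hp, if_neg (fun h => (mem_pf hΔ hp).1 h hg), one_mul, hpt p hp hg, if_neg (hgd p hp hg), cpow_two hp.ne_zero]
    · rw [if_neg (fun h => hg h.2), if_pos hp, if_pos ((mem_pf hΔ hp).2 hg)]
      symm
      refine mul_inv_cancel₀ ?_
      obtain ⟨α, β, e1, e2, e3, e4⟩ := hc.roots hp
      rw [← e3, ← e4]
      have h4 := p_mul_lt hp.two_le hs
      have h5 : ∀ z : ℂ, ‖z‖ ≤ p → 1 - z * (p:ℂ) ^ (-s) ≠ 0 := fun z hz h0 => by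
        have h6 : ‖z * (p:ℂ) ^ (-s)‖ ≤ 1 / 2 := by
          rw [norm_mul]
          exact (mul_le_mul_of_nonneg_right hz (norm_nonneg _)).trans h4
        rw [← sub_eq_zero.1 h0, norm_one] at h6
        norm_num at h6
      have h7 : 1 - (α + β) * (p:ℂ) ^ (-s) + α * β * ((p:ℂ) ^ (-s)) ^ 2 = (1 - α * (p:ℂ) ^ (-s)) * (1 - β * (p:ℂ) ^ (-s)) := by ring
      rw [h7]
      exact mul_ne_zero (h5 α e1) (h5 β e2)
  · rw [if_neg (fun h => hp h.1), if_neg hp, if_neg (fun h => hp (Nat.prime_of_mem_primeFactors h)), mul_one]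

theorem PP_diff (N : ℕ) (c : ℕ → ℂ) (a b : ℤ) : Differentiable ℂ (PP N c a b) := by
  unfold PP
  refine Differentiable.fun_finsetProd fun p hp => ?_
  have hp0 : (p:ℂ) ≠ 0 := by exact_mod_cast (Nat.prime_of_mem_primeFactors hp).ne_zero
  have h1 : Differentiable ℂ fun s : ℂ => (p:ℂ) ^ (-s) := fun s =>
    DifferentiableAt.const_cpow differentiableAt_id.neg (Or.inl hp0)
  exact ((differentiable_const _).sub (h1.const_mul _)).add ((h1.pow 2).const_mul _)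

theorem FPL {N : ℕ} {c : ArithmeticFunction ℂ} {a b : ℤ} (hΔ : 4 * a ^ 3 + 27 * b ^ 2 ≠ 0) (hc : Hek N c)
    (hpt : ∀ p : ℕ, p.Prime → Gd a b p → c p = (apE a b p : ℂ)) (hgd : ∀ p : ℕ, p.Prime → Gd a b p → ¬ p ∣ N)
    {F : ℂ → ℂ} (hF : IsLF a b F) {L : ℂ → ℂ} (hL : Differentiable ℂ L) (hL2 : ∀ s : ℂ, 2 < s.re → L s = LSeries (fun n => c n) s)
    (s : ℂ) : F s = PP N c a b s * L s := by
  have h3 : F = fun s => PP N c a b s * L s := by
    refine AnalyticOnNhd.eq_of_eventuallyEq (z₀ := 3) (fun z _ => hF.1.analyticAt z)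
      (fun z _ => ((PP_diff N c a b).mul hL).analyticAt z) ?_
    have h4 : {z : ℂ | 2 < z.re} ∈ 𝓝 (3:ℂ) := (isOpen_lt continuous_const Complex.continuous_re).mem_nhds (by simp; norm_num)
    filter_upwards [h4] with z hz
    rw [FPL2 hΔ hc hpt hgd hF hz, hL2 z hz]
  exact congrFun h3 s

theorem PP_le {N : ℕ} {c : ArithmeticFunction ℂ} {a b : ℤ} (hΔ : 4 * a ^ 3 + 27 * b ^ 2 ≠ 0) (hc : Hek N c) {s : ℂ} (hs : 1 ≤ s.re) :
    ‖PP N c a b s‖ ≤ ((DD a b).divisors.card : ℝ) ^ 2 := by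
  unfold PP
  rw [norm_prod]
  have h1 : ∀ p ∈ (2 * (4 * a ^ 3 + 27 * b ^ 2)).natAbs.primeFactors,
      ‖1 - c p * (p:ℂ) ^ (-s) + (if p ∣ N then 0 else (p:ℂ)) * ((p:ℂ) ^ (-s)) ^ 2‖ ≤ 4 := fun p hp => by
    have hp' := Nat.prime_of_mem_primeFactors hp
    have hp1 : (1:ℝ) ≤ p := by exact_mod_cast hp'.one_le
    obtain ⟨α, β, e1, e2, e3, e4⟩ := hc.roots hp'
    rw [← e3, ← e4]
    have h2 : (p:ℝ) * ‖(p:ℂ) ^ (-s)‖ ≤ 1 := by
      rw [norm_ppow hp'.pos]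
      have h3 : (p:ℝ) ^ (-s.re) ≤ (p:ℝ) ^ (-1:ℝ) := Real.rpow_le_rpow_of_exponent_le hp1 (by linarith)
      rw [Real.rpow_neg_one] at h3
      calc (p:ℝ) * (p:ℝ) ^ (-s.re) ≤ p * (p:ℝ)⁻¹ := mul_le_mul_of_nonneg_left h3 (by linarith)
        _ = 1 := mul_inv_cancel₀ (by linarith)
    have h5 : ∀ z : ℂ, ‖z‖ ≤ p → ‖1 - z * (p:ℂ) ^ (-s)‖ ≤ 2 := fun z hz => by
      have h6 : ‖z * (p:ℂ) ^ (-s)‖ ≤ 1 := by
        rw [norm_mul]
        exact (mul_le_mul_of_nonneg_right hz (norm_nonneg _)).trans h2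
      have := norm_sub_le (1:ℂ) (z * (p:ℂ) ^ (-s))
      rw [norm_one] at this
      linarith
    have h7 : 1 - (α + β) * (p:ℂ) ^ (-s) + α * β * ((p:ℂ) ^ (-s)) ^ 2 = (1 - α * (p:ℂ) ^ (-s)) * (1 - β * (p:ℂ) ^ (-s)) := by ring
    rw [h7, norm_mul]
    have h8 := h5 α e1
    have h9 := h5 β e2
    calc _ ≤ (2:ℝ) * 2 := mul_le_mul h8 h9 (norm_nonneg _) (by norm_num)
      _ = 4 := by norm_num
  refine (prod_le_prod (fun p _ => norm_nonneg _) h1).trans ?_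
  rw [prod_const]
  have hDne := DD_ne hΔ
  have h2 : (2 * (4 * a ^ 3 + 27 * b ^ 2)).natAbs.primeFactors.card ≤ (DD a b).primeFactors.card := by
    refine card_le_card (Nat.primeFactors_mono ?_ hDne)
    unfold DD
    rw [Int.natAbs_dvd_natAbs]
    exact ⟨3, by ring⟩
  calc (4:ℝ) ^ (2 * (4 * a ^ 3 + 27 * b ^ 2)).natAbs.primeFactors.card ≤ (4:ℝ) ^ (DD a b).primeFactors.card := pow_le_pow_right₀ (by norm_num) h2
    _ = ((2 ^ (DD a b).primeFactors.card : ℕ) : ℝ) ^ 2 := by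
        push_cast
        rw [← pow_mul, mul_comm, pow_mul]; norm_num
    _ ≤ _ := pow_le_pow_left₀ (Nat.cast_nonneg _) (by exact_mod_cast two_pow_le_card _ hDne) 2

end Pool.Agent.KS6_10
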