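import Pool.Agent.KS6_10.LS2
import Pool.Agent.KS6_10.Ids2

/-!
# First moments of dyadic blocks over the box
-/

set_option autoImplicit false
set_option linter.unusedVariables false

namespace Pool.Agent.KS6_10

open Finset

theorem bxA_card {X : ℝ} (hX : 1 ≤ X) : ((bxA X).card : ℝ) ≤ 3 * X ^ (1 / 3 : ℝ) := by
  have h1 : (1:ℝ) ≤ X ^ (1 / 3 : ℝ) := Real.one_le_rpow hX (by norm_num)
  have h2 : (⌊X ^ (1 / 3 : ℝ)⌋₊ : ℝ) ≤ X ^ (1 / 3 : ℝ) := Nat.floor_le (by linarith)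
  unfold bxA
  rw [Int.card_Icc]
  have h3 : (((⌊X ^ (1 / 3 : ℝ)⌋₊ : ℤ) + 1 - -(⌊X ^ (1 / 3 : ℝ)⌋₊ : ℤ)).toNat : ℝ) = 2 * ⌊X ^ (1 / 3 : ℝ)⌋₊ + 1 := by
    have : ((⌊X ^ (1 / 3 : ℝ)⌋₊ : ℤ) + 1 - -(⌊X ^ (1 / 3 : ℝ)⌋₊ : ℤ)).toNat = 2 * ⌊X ^ (1 / 3 : ℝ)⌋₊ + 1 := by omega
    rw [this]; push_cast; ring
  rw [h3]
  linarith

theorem bxB_card {X : ℝ} (hX : 1 ≤ X) : ((bxB X).card : ℝ) ≤ 3 * X ^ (1 / 2 : ℝ) := by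
  have h1 : (1:ℝ) ≤ X ^ (1 / 2 : ℝ) := Real.one_le_rpow hX (by norm_num)
  have h2 : (⌊X ^ (1 / 2 : ℝ)⌋₊ : ℝ) ≤ X ^ (1 / 2 : ℝ) := Nat.floor_le (by linarith)
  unfold bxB
  rw [Int.card_Icc]
  have h3 : (((⌊X ^ (1 / 2 : ℝ)⌋₊ : ℤ) + 1 - -(⌊X ^ (1 / 2 : ℝ)⌋₊ : ℤ)).toNat : ℝ) = 2 * ⌊X ^ (1 / 2 : ℝ)⌋₊ + 1 := by
    have : ((⌊X ^ (1 / 2 : ℝ)⌋₊ : ℤ) + 1 - -(⌊X ^ (1 / 2 : ℝ)⌋₊ : ℤ)).toNat = 2 * ⌊X ^ (1 / 2 : ℝ)⌋₊ + 1 := by omega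
    rw [this]; push_cast; ring
  rw [h3]
  linarith

theorem box_card {X : ℝ} (hX : 1 ≤ X) : (((bxA X) ×ˢ (bxB X)).card : ℝ) ≤ 9 * X ^ (5 / 6 : ℝ) := by
  rw [card_product]
  push_cast
  have h1 := bxA_card hX
  have h2 := bxB_card hX
  have h3 : X ^ (5 / 6 : ℝ) = X ^ (1 / 3 : ℝ) * X ^ (1 / 2 : ℝ) := by
    rw [← Real.rpow_add (by linarith)]
    norm_num
  rw [h3]
  calc ((bxA X).card : ℝ) * (bxB X).card ≤ (3 * X ^ (1 / 3 : ℝ)) * (3 * X ^ (1 / 2 : ℝ)) :=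
        mul_le_mul h1 h2 (Nat.cast_nonneg _) (by positivity)
    _ = _ := by ring

/-- first moment of a block -/
theorem l1_block (ε : ℝ) (hε : 0 < ε) : ∃ C : ℝ, 1 ≤ C ∧ ∀ (X U : ℝ) (N : ℕ) (𝒩 : Finset ℕ) (γ : ℕ → ℂ) (G : ℝ), 1 ≤ X → 1 ≤ U →
    U ≤ X → 1 ≤ N → (N : ℝ) ^ 2 ≤ U * X → (∀ n ∈ 𝒩, n ≤ N ∧ Odd n ∧ Squarefree n) → 0 ≤ G → (∀ n ∈ 𝒩, ‖γ n‖ ≤ G) →
    ∑ ab ∈ bxA X ×ˢ bxB X, ‖∑ n ∈ 𝒩, γ n * ((SS n ab.1 ab.2 : ℂ) / (Real.sqrt n : ℂ))‖ ≤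
      C * X ^ (5 / 6 + ε) * U ^ (3 / 2 : ℝ) * (N : ℝ) ^ (5 / 6 : ℝ) * G := by
  obtain ⟨C, hC, hls⟩ := large_sieve (2 * ε) (by linarith)
  refine ⟨3 * Real.sqrt C, ?_, ?_⟩
  · have : 1 ≤ Real.sqrt C := Real.one_le_sqrt.2 hC
    linarith
  intro X U N 𝒩 γ G hX hU hUX hN hNU h𝒩 hG hγ
  have hX0 : 0 < X := by linarith
  have hU0 : 0 < U := by linarith
  have hN0 : (0:ℝ) < N := by exact_mod_cast hN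
  rcases hG.eq_or_lt with hG0 | hG0
  · have h0 : ∀ n ∈ 𝒩, γ n = 0 := fun n hn => norm_le_zero_iff.1 (by rw [hG0]; exact hγ n hn)
    have h1 : ∑ ab ∈ bxA X ×ˢ bxB X, ‖∑ n ∈ 𝒩, γ n * ((SS n ab.1 ab.2 : ℂ) / (Real.sqrt n : ℂ))‖ = 0 := by
      refine sum_eq_zero fun ab _ => ?_
      rw [sum_eq_zero fun n hn => by rw [h0 n hn, zero_mul], norm_zero]
    rw [h1, ← hG0, mul_zero]
  have hγ' : ∀ n ∈ 𝒩, ‖γ n / G‖ ≤ 1 := fun n hn => by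
    rw [norm_div, Complex.norm_real, Real.norm_of_nonneg hG0.le, div_le_one hG0]
    exact hγ n hn
  have h1 := hls X U N 𝒩 (fun n => γ n / G) hX hU hUX hN hNU h𝒩 hγ'
  rw [← sum_product' (f := fun a b => ‖∑ n ∈ 𝒩, γ n / G * ((SS n a b : ℂ) / (Real.sqrt n : ℂ))‖ ^ 2)] at h1
  set S : ℝ := ∑ ab ∈ bxA X ×ˢ bxB X, ‖∑ n ∈ 𝒩, γ n / G * ((SS n ab.1 ab.2 : ℂ) / (Real.sqrt n : ℂ))‖ with hS
  have hS0 : 0 ≤ S := sum_nonneg fun _ _ => norm_nonneg _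
  have h2 : S ^ 2 ≤ ((bxA X ×ˢ bxB X).card : ℝ) * ∑ ab ∈ bxA X ×ˢ bxB X, ‖∑ n ∈ 𝒩, γ n / G * ((SS n ab.1 ab.2 : ℂ) / (Real.sqrt n : ℂ))‖ ^ 2 :=
    sq_sum_le_card_mul_sum_sq
  have h3 : S ^ 2 ≤ (3 * Real.sqrt C * X ^ (5 / 6 + ε) * U ^ (3 / 2 : ℝ) * (N : ℝ) ^ (5 / 6 : ℝ)) ^ 2 := by
    have hbc := box_card hX
    have e1 : (X ^ (5 / 6 + ε)) ^ 2 = X ^ (5 / 6 : ℝ) * X ^ (5 / 6 + 2 * ε) := by
      rw [← Real.rpow_natCast, ← Real.rpow_mul hX0.le, ← Real.rpow_add hX0]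
      congr 1
      push_cast
      ring
    have e2 : (U ^ (3 / 2 : ℝ)) ^ 2 = U ^ 3 := by
      rw [← Real.rpow_natCast, ← Real.rpow_mul hU0.le, ← Real.rpow_natCast U 3]
      norm_num
    have e3 : ((N:ℝ) ^ (5 / 6 : ℝ)) ^ 2 = (N:ℝ) ^ (5 / 3 : ℝ) := by
      rw [← Real.rpow_natCast, ← Real.rpow_mul hN0.le]
      norm_num
    calc S ^ 2 ≤ _ := h2
      _ ≤ (9 * X ^ (5 / 6 : ℝ)) * (C * X ^ (5 / 6 + 2 * ε) * U ^ 3 * (N : ℝ) ^ (5 / 3 : ℝ)) :=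
          mul_le_mul hbc h1 (sum_nonneg fun _ _ => by positivity) (by positivity)
      _ = (3 * Real.sqrt C * X ^ (5 / 6 + ε) * U ^ (3 / 2 : ℝ) * (N : ℝ) ^ (5 / 6 : ℝ)) ^ 2 := by
          rw [mul_pow, mul_pow, mul_pow, mul_pow, e1, e2, e3, Real.sq_sqrt (by linarith)]
          ring
  have h4 : S ≤ 3 * Real.sqrt C * X ^ (5 / 6 + ε) * U ^ (3 / 2 : ℝ) * (N : ℝ) ^ (5 / 6 : ℝ) :=
    le_of_pow_le_pow_left₀ (by norm_num) (by positivity) h3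
  have h5 : ∑ ab ∈ bxA X ×ˢ bxB X, ‖∑ n ∈ 𝒩, γ n * ((SS n ab.1 ab.2 : ℂ) / (Real.sqrt n : ℂ))‖ = S * G := by
    rw [hS, sum_mul]
    refine sum_congr rfl fun ab _ => ?_
    have hGc : (G:ℂ) ≠ 0 := by exact_mod_cast hG0.ne'
    have e : ∑ n ∈ 𝒩, γ n * ((SS n ab.1 ab.2 : ℂ) / (Real.sqrt n : ℂ)) = (∑ n ∈ 𝒩, γ n / G * ((SS n ab.1 ab.2 : ℂ) / (Real.sqrt n : ℂ))) * G := by
      rw [sum_mul]
      refine sum_congr rfl fun n _ => ?_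
      field_simp
    rw [e, norm_mul, Complex.norm_real, Real.norm_of_nonneg hG0.le]
  rw [h5]
  exact mul_le_mul_of_nonneg_right h4 hG

/-- squarefree integers prime to 6 in a dyadic block -/
def dy (j : ℕ) : Finset ℕ := (Ico (2 ^ j) (2 ^ (j + 1))).filter (fun n => Squarefree n ∧ Nat.Coprime n 6)

theorem mem_dy {j n : ℕ} : n ∈ dy j ↔ (2 ^ j ≤ n ∧ n < 2 ^ (j + 1)) ∧ Squarefree n ∧ Nat.Coprime n 6 := by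
  unfold dy
  rw [mem_filter, mem_Ico]

theorem cop6_odd {n : ℕ} (h : Nat.Coprime n 6) : Odd n := by
  have h2 : Nat.Coprime n 2 := Nat.Coprime.coprime_dvd_right (by norm_num) h
  rw [← Nat.not_even_iff_odd, even_iff_two_dvd]
  intro h3
  exact absurd (Nat.dvd_gcd h3 dvd_rfl) (by rw [Nat.Coprime] at h2; rw [h2]; norm_num)

end Pool.Agent.KS6_10
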