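import Mathlib

/-! The divisor bound. -/

set_option autoImplicit false

namespace Pool.Agent.KS6_10

/-- divisor bound -/
lemma divisor_bound (n : ℕ) (hn : n ≠ 0) (δ : ℝ) (h0 : 0 < δ) (h1 : δ ≤ 1) :
    (n.divisors.card : ℝ) ≤ (n:ℝ)^δ * (2/δ)^(⌊(2:ℝ)^(1/δ)⌋₊) := by
  set B := ⌊(2:ℝ)^(1/δ)⌋₊ with hB
  have h2δ : 1 ≤ 2/δ := by rw [le_div_iff₀ h0]; linarith
  rw [Nat.card_divisors hn]
  push_cast
  have hprod : (n:ℝ)^δ = ∏ p ∈ n.primeFactors, ((p:ℝ)^(n.factorization p))^δ := by
    rw [Real.finsetProd_rpow _ _ (fun i _ => by positivity)]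
    congr 1
    have := Nat.prod_factorization_pow_eq_self hn
    conv_lhs => rw [← this]
    rw [Finsupp.prod, Nat.support_factorization]
    push_cast; rfl
  calc ∏ p ∈ n.primeFactors, ((n.factorization p : ℝ) + 1)
      ≤ ∏ p ∈ n.primeFactors, (((p:ℝ)^(n.factorization p))^δ * (if p ≤ B then 2/δ else 1)) := by
        apply Finset.prod_le_prod
        · intro p _; positivity
        · intro p hp
          have hpp := Nat.prime_of_mem_primeFactors hp
          have hp2 : (2:ℝ) ≤ p := by exact_mod_cast hpp.two_le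
          set a := n.factorization p with ha
          have e1 : ((p:ℝ)^a)^δ = ((p:ℝ)^δ)^a := by
            rw [← Real.rpow_natCast, ← Real.rpow_natCast, ← Real.rpow_mul (by positivity),
              ← Real.rpow_mul (by positivity), mul_comm]
          split_ifs with hpB
          · have e2 : 1 + a * δ / 2 ≤ ((p:ℝ)^a)^δ := by
              rw [e1]
              have e3 : 1 + δ/2 ≤ (p:ℝ)^δ := by
                calc 1 + δ/2 ≤ δ * Real.log 2 + 1 := by
                      have := Real.log_two_gt_d9
                      nlinarith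
                  _ ≤ Real.exp (δ * Real.log 2) := Real.add_one_le_exp _
                  _ = 2^δ := by rw [Real.rpow_def_of_pos (by norm_num), mul_comm]
                  _ ≤ (p:ℝ)^δ := Real.rpow_le_rpow (by norm_num) hp2 h0.le
              calc 1 + a * δ / 2 = 1 + a * (δ/2) := by ring
                _ ≤ (1 + δ/2)^a := one_add_mul_le_pow (by linarith) a
                _ ≤ _ := by gcongr
            have e4 : (0:ℝ) ≤ a := by positivity
            calc (a:ℝ) + 1 ≤ (1 + a * δ / 2) * (2/δ) := by
                  have : (1 + a * δ / 2) * (2/δ) = 2/δ + a := by field_simp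
                  rw [this]; linarith
              _ ≤ _ := by gcongr
          · rw [mul_one, e1]
            have e5 : (2:ℝ)^(1/δ) ≤ p := by
              rw [not_le, hB] at hpB
              exact (Nat.lt_of_floor_lt hpB).le
            have e6 : (2:ℝ) ≤ (p:ℝ)^δ := by
              calc (2:ℝ) = ((2:ℝ)^(1/δ))^δ := by
                    rw [← Real.rpow_mul (by norm_num), one_div, inv_mul_cancel₀ h0.ne',
                      Real.rpow_one]
                _ ≤ _ := Real.rpow_le_rpow (by positivity) e5 h0.le
            calc (a:ℝ) + 1 ≤ 2^a := by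
                  have : a + 1 ≤ 2^a := Nat.lt_two_pow_self
                  exact_mod_cast this
              _ ≤ _ := by gcongr
    _ = (n:ℝ)^δ * ∏ p ∈ n.primeFactors, (if p ≤ B then 2/δ else 1) := by
        rw [Finset.prod_mul_distrib, hprod]
    _ ≤ (n:ℝ)^δ * (2/δ)^B := by
        apply mul_le_mul_of_nonneg_left _ (by positivity)
        rw [← Finset.prod_filter, Finset.prod_const]
        apply pow_le_pow_right₀ h2δ
        calc (n.primeFactors.filter (fun p => p ≤ B)).card ≤ (Finset.Icc 1 B).card := by
              apply Finset.card_le_card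
              intro p hp
              rw [Finset.mem_filter] at hp
              rw [Finset.mem_Icc]
              exact ⟨(Nat.prime_of_mem_primeFactors hp.1).one_le, hp.2⟩
          _ = B := by simp

/-- the divisor bound in the form used below -/
theorem tau_le (ε : ℝ) (hε : 0 < ε) : ∃ C : ℝ, 1 ≤ C ∧ ∀ n : ℕ, n ≠ 0 → (n.divisors.card : ℝ) ≤ C * (n : ℝ) ^ ε := by
  set δ : ℝ := min ε 1 with hδ
  have h0 : 0 < δ := lt_min hε one_pos
  have h1 : δ ≤ 1 := min_le_right _ _
  refine ⟨(2 / δ) ^ (⌊(2:ℝ)^(1/δ)⌋₊), ?_, fun n hn => ?_⟩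
  · refine one_le_pow₀ ?_
    rw [le_div_iff₀ h0]; linarith
  · refine (divisor_bound n hn δ h0 h1).trans ?_
    rw [mul_comm]
    refine mul_le_mul_of_nonneg_left ?_ (by positivity)
    refine Real.rpow_le_rpow_of_exponent_le ?_ (min_le_left _ _)
    exact_mod_cast Nat.one_le_iff_ne_zero.2 hn

end Pool.Agent.KS6_10
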