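import Pool.Agent.KS6_10.Exp

/-!
# A finite Poisson summation formula with the Fejér kernel
-/

set_option autoImplicit false

namespace Pool.Agent.KS6_10

open Finset Complex ZMod

theorem sum_range_zmod (P : ℕ) [NeZero P] {M : Type*} [AddCommMonoid M] (G : ZMod P → M) :
    ∑ t ∈ range P, G (t : ZMod P) = ∑ x : ZMod P, G x := by
  refine sum_bij' (fun t _ => (t : ZMod P)) (fun x _ => x.val) (fun _ _ => mem_univ _)
    (fun x _ => mem_range.2 (ZMod.val_lt x)) (fun t ht => ?_) (fun x _ => ?_) (fun _ _ => rfl)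
  · exact ZMod.val_cast_of_lt (mem_range.1 ht)
  · exact ZMod.natCast_zmod_val x

theorem sum_range_mul' {M : Type*} [AddCommMonoid M] (F : ℕ → M) (q P : ℕ) :
    ∑ a ∈ range (q * P), F a = ∑ t ∈ range P, ∑ α ∈ range q, F (q * t + α) := by
  induction P with
  | zero => simp
  | succ P ih => rw [Nat.mul_succ, sum_range_add, ih, sum_range_succ]

/-- the number of pairs with a given difference -/
theorem card_diff (J : ℕ) (d : ℤ) :
    ((range J ×ˢ range J).filter (fun x : ℕ × ℕ => (x.1 : ℤ) - x.2 = d)).card = ((J : ℤ) - |d|).toNat := by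
  rcases le_total 0 d with hd | hd
  · obtain ⟨n, rfl⟩ := Int.eq_ofNat_of_zero_le hd
    have h1 : ((range J ×ˢ range J).filter (fun x : ℕ × ℕ => (x.1 : ℤ) - x.2 = (n : ℤ))) =
        (range (J - n)).image (fun t => (t + n, t)) := by
      ext ⟨x, y⟩
      simp only [mem_filter, mem_product, mem_range, mem_image, Prod.mk.injEq]
      constructor
      · rintro ⟨⟨h1, h2⟩, h3⟩
        exact ⟨y, by omega, by omega, rfl⟩
      · rintro ⟨t, ht, h1, h2⟩
        refine ⟨⟨by omega, by omega⟩, by omega⟩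
    rw [h1, card_image_of_injective _ (fun a b h => (Prod.mk.inj h).2), card_range, Nat.abs_cast]
    omega
  · obtain ⟨n, hn⟩ := Int.eq_ofNat_of_zero_le (neg_nonneg.2 hd)
    have hd' : d = -(n : ℤ) := by omega
    subst hd'
    have h1 : ((range J ×ˢ range J).filter (fun x : ℕ × ℕ => (x.1 : ℤ) - x.2 = -(n : ℤ))) =
        (range (J - n)).image (fun t => (t, t + n)) := by
      ext ⟨x, y⟩
      simp only [mem_filter, mem_product, mem_range, mem_image, Prod.mk.injEq]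
      constructor
      · rintro ⟨⟨h1, h2⟩, h3⟩
        exact ⟨x, by omega, rfl, by omega⟩
      · rintro ⟨t, ht, h1, h2⟩
        refine ⟨⟨by omega, by omega⟩, by omega⟩
    rw [h1, card_image_of_injective _ (fun a b h => (Prod.mk.inj h).1), card_range, abs_neg, Nat.abs_cast]
    omega

/-- the Fejér kernel -/
noncomputable def fk (J Q : ℕ) (a : ℤ) : ℝ := ‖∑ j ∈ range J, cexp (2 * Real.pi * I * (j * a / Q : ℝ))‖ ^ 2 / J ^ 2

theorem fk_nonneg (J Q : ℕ) (a : ℤ) : 0 ≤ fk J Q a := by unfold fk; positivity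

theorem fk_ge {J A : ℕ} (hJ : 0 < J) (hA : 0 < A) (a : ℤ) (ha : 8 * |a| ≤ A) : 1 / 2 ≤ fk J (J * A) a := by
  unfold fk
  have hJ' : (0:ℝ) < J := by exact_mod_cast hJ
  have hA' : (0:ℝ) < A := by exact_mod_cast hA
  have ha' : 8 * |(a:ℝ)| ≤ A := by exact_mod_cast ha
  have h1 : ∀ j ∈ range J, Real.sqrt 2 / 2 ≤ (cexp (2 * Real.pi * I * (j * a / (J * A : ℕ) : ℝ))).re := by
    intro j hj
    have hj' : (j : ℝ) ≤ J := by exact_mod_cast (mem_range.1 hj).le
    have e : (2 * Real.pi * I * (j * a / (J * A : ℕ) : ℝ) : ℂ) = ((2 * Real.pi * (j * a / (J * A : ℕ)) : ℝ) : ℂ) * I := by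
      push_cast; ring
    rw [e, Complex.exp_ofReal_mul_I_re, ← Real.cos_pi_div_four, ← Real.cos_abs (2 * Real.pi * (j * a / (J * A : ℕ)))]
    refine Real.cos_le_cos_of_nonneg_of_le_pi (abs_nonneg _) (by linarith [Real.pi_pos]) ?_
    have h2 : |(j : ℝ) * a / (J * A : ℕ)| ≤ 1 / 8 := by
      push_cast
      rw [abs_div, abs_mul, abs_of_nonneg (by positivity : (0:ℝ) ≤ j), abs_of_pos (by positivity : (0:ℝ) < (J:ℝ) * A),
        div_le_iff₀ (by positivity)]
      have h3 : (j : ℝ) * |(a : ℝ)| ≤ J * |(a:ℝ)| := mul_le_mul_of_nonneg_right hj' (abs_nonneg _)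
      nlinarith
    rw [abs_mul, abs_of_pos (by positivity : (0:ℝ) < 2 * Real.pi)]
    have := Real.pi_pos
    nlinarith
  have h2 : (J : ℝ) * (Real.sqrt 2 / 2) ≤ ‖∑ j ∈ range J, cexp (2 * Real.pi * I * (j * a / (J * A : ℕ) : ℝ))‖ := by
    refine le_trans ?_ (Complex.re_le_norm _)
    rw [Complex.re_sum]
    calc (J : ℝ) * (Real.sqrt 2 / 2) = ∑ j ∈ range J, (Real.sqrt 2 / 2) := by
          rw [sum_const, card_range, nsmul_eq_mul]
      _ ≤ _ := sum_le_sum h1
  rw [le_div_iff₀ (by positivity)]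
  have h3 : ((J : ℝ) * (Real.sqrt 2 / 2)) ^ 2 ≤ ‖∑ j ∈ range J, cexp (2 * Real.pi * I * (j * a / (J * A : ℕ) : ℝ))‖ ^ 2 :=
    pow_le_pow_left₀ (by positivity) h2 2
  have h4 : ((J : ℝ) * (Real.sqrt 2 / 2)) ^ 2 = 1 / 2 * J ^ 2 := by
    rw [mul_pow, div_pow, Real.sq_sqrt (by norm_num)]; ring
  linarith

theorem fk_expand (J Q : ℕ) (hJ : 0 < J) (a : ℤ) :
    (fk J Q a : ℂ) = (1 / (J : ℂ) ^ 2) * ∑ x ∈ range J ×ˢ range J, cexp (2 * Real.pi * I * (((x.1 : ℤ) - x.2 : ℤ) * a / Q)) := by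
  unfold fk
  push_cast
  rw [← Complex.mul_conj', map_sum, sum_mul_sum, ← sum_product', div_eq_mul_one_div, mul_comm]
  congr 1
  refine sum_congr rfl fun x _ => ?_
  rw [← Complex.exp_conj, ← Complex.exp_add]
  congr 1
  simp only [map_mul, map_div₀, map_ofNat, Complex.conj_ofReal, Complex.conj_I, map_natCast, map_intCast]
  ring

/-- the inner sum -/
theorem inner_sum (q P : ℕ) [NeZero q] [NeZero P] (f : ZMod q → ℂ) (d : ℤ) :
    ∑ a ∈ range (q * P), cexp (2 * Real.pi * I * (d * (a : ℤ) / ((q * P : ℕ) : ℂ))) * f (a : ZMod q) =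
      if (P : ℤ) ∣ d then (P : ℂ) * ∑ α : ZMod q, f α * ec q (((d / P : ℤ) : ZMod q) * α) else 0 := by
  have hq0 : (q : ℂ) ≠ 0 := by exact_mod_cast NeZero.ne q
  have hP0 : (P : ℂ) ≠ 0 := by exact_mod_cast NeZero.ne P
  rw [sum_range_mul']
  have e1 : ∀ t ∈ range P, ∑ α ∈ range q, cexp (2 * Real.pi * I * (d * ((q * t + α : ℕ) : ℤ) / ((q * P : ℕ) : ℂ))) *
      f ((q * t + α : ℕ) : ZMod q) =
      ec P ((d : ZMod P) * (t : ZMod P)) * ∑ α ∈ range q, cexp (2 * Real.pi * I * (d * (α : ℤ) / ((q * P : ℕ) : ℂ))) *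
      f (α : ZMod q) := by
    intro t _
    rw [mul_sum]
    refine sum_congr rfl fun α _ => ?_
    have e2 : ((d : ZMod P) * (t : ZMod P)) = ((d * t : ℤ) : ZMod P) := by push_cast; ring
    have e3 : (((q * t + α : ℕ) : ZMod q)) = (α : ZMod q) := by push_cast; rw [ZMod.natCast_self]; ring
    rw [e2, e3, ec_int, ← mul_assoc, ← Complex.exp_add]
    congr 2
    push_cast
    field_simp
    try ring
  rw [sum_congr rfl e1, ← sum_mul, sum_range_zmod P (fun x => ec P ((d : ZMod P) * x)), ec_sum]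
  by_cases hd : (P : ℤ) ∣ d
  · rw [if_pos hd, if_pos ((ZMod.intCast_zmod_eq_zero_iff_dvd d P).2 hd), ← sum_range_zmod q (fun α => f α * ec q (((d / P : ℤ) : ZMod q) * α))]
    congr 1
    refine sum_congr rfl fun α _ => ?_
    obtain ⟨h, rfl⟩ := hd
    have hP' : (P : ℤ) ≠ 0 := by exact_mod_cast NeZero.ne P
    rw [Int.mul_ediv_cancel_left _ hP', mul_comm]
    congr 1
    have e2 : ((h : ZMod q) * (α : ZMod q)) = ((h * α : ℤ) : ZMod q) := by push_cast; ring
    rw [e2, ec_int]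
    congr 1
    push_cast
    field_simp
  · rw [if_neg hd, if_neg (fun h => hd ((ZMod.intCast_zmod_eq_zero_iff_dvd d P).1 h)), zero_mul]

/-- **finite Poisson summation** -/
theorem poisson (q P J A : ℕ) [NeZero q] [NeZero P] (hJ : 0 < J) (hA : 0 < A) (hQ : J * A = q * P)
    (f : ZMod q → ℂ) (H : ℕ) (hH : q ≤ A * (H + 1)) :
    ∑ a ∈ range (J * A), (fk J (J * A) (a : ℤ) : ℂ) * f (a : ZMod q) =
      ((A : ℂ) / q) * ∑ h ∈ Icc (-(H : ℤ)) H, ((max 0 (1 - A * |(h : ℝ)| / q) : ℝ) : ℂ) *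
        ∑ α : ZMod q, f α * ec q ((h : ZMod q) * α) := by
  have hq0 : (q : ℂ) ≠ 0 := by exact_mod_cast NeZero.ne q
  have hP0 : (P : ℂ) ≠ 0 := by exact_mod_cast NeZero.ne P
  have hJ0 : (J : ℂ) ≠ 0 := by exact_mod_cast hJ.ne'
  have hA0 : (A : ℂ) ≠ 0 := by exact_mod_cast hA.ne'
  have hQ' : (J : ℂ) * A = q * P := by exact_mod_cast hQ
  set fh : ℤ → ℂ := fun h => ∑ α : ZMod q, f α * ec q ((h : ZMod q) * α) with hfh
  have step1 : ∑ a ∈ range (J * A), (fk J (J * A) (a : ℤ) : ℂ) * f (a : ZMod q) =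
      (1 / (J : ℂ) ^ 2) * ∑ x ∈ range J ×ˢ range J, if (P : ℤ) ∣ ((x.1 : ℤ) - x.2) then (P : ℂ) * fh (((x.1 : ℤ) - x.2) / P) else 0 := by
    have e1 : ∀ a ∈ range (J * A), (fk J (J * A) (a : ℤ) : ℂ) * f (a : ZMod q) =
        (1 / (J : ℂ) ^ 2) * ∑ x ∈ range J ×ˢ range J, cexp (2 * Real.pi * I * (((x.1 : ℤ) - x.2 : ℤ) * (a : ℤ) / ((q * P : ℕ) : ℂ))) * f (a : ZMod q) := by
      intro a _
      rw [fk_expand J (J * A) hJ, mul_assoc, sum_mul, hQ]
    rw [sum_congr rfl e1, ← mul_sum, sum_comm, hQ]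
    congr 1
    refine sum_congr rfl fun x _ => ?_
    rw [inner_sum]
  rw [step1]
  -- group by the difference
  have step2 : ∑ x ∈ range J ×ˢ range J, (if (P : ℤ) ∣ ((x.1 : ℤ) - x.2) then (P : ℂ) * fh (((x.1 : ℤ) - x.2) / P) else 0) =
      ∑ h ∈ Icc (-(H : ℤ)) H, (((J : ℤ) - |(P : ℤ) * h|).toNat : ℂ) * ((P : ℂ) * fh h) := by
    rw [← sum_filter]
    have hmaps : ∀ x ∈ (range J ×ˢ range J).filter (fun x : ℕ × ℕ => (P : ℤ) ∣ ((x.1 : ℤ) - x.2)),
        ((x.1 : ℤ) - x.2) / P ∈ Icc (-(H : ℤ)) H := by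
      intro x hx
      obtain ⟨h1, h2⟩ := mem_filter.1 hx
      obtain ⟨h, hh⟩ := h2
      have hP' : (P : ℤ) ≠ 0 := by exact_mod_cast NeZero.ne P
      rw [hh, Int.mul_ediv_cancel_left _ hP']
      rw [mem_product, mem_range, mem_range] at h1
      have h3 : |(P : ℤ) * h| < J := by rw [← hh, abs_lt]; constructor <;> omega
      rw [abs_mul, Nat.abs_cast] at h3
      have h4 : |h| ≤ H := by
        by_contra hc
        push Not at hc
        have hc' : (H : ℤ) + 1 ≤ |h| := hc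
        -- A * P * |h| < A * J = q P
        have h5 : (A : ℤ) * (P * |h|) < A * J := by
          have : (0 : ℤ) < A := by exact_mod_cast hA
          nlinarith
        have h6 : (A : ℤ) * J = q * P := by rw [mul_comm]; exact_mod_cast hQ
        rw [h6] at h5
        have h7 : (A : ℤ) * |h| < q := by
          have hPp : (0:ℤ) < P := by exact_mod_cast Nat.pos_of_ne_zero (NeZero.ne P)
          have : (A * |h|) * (P:ℤ) < q * P := by nlinarith
          exact lt_of_mul_lt_mul_right this hPp.le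
        have h8 : (q : ℤ) ≤ A * (H + 1) := by exact_mod_cast hH
        have : (0 : ℤ) < A := by exact_mod_cast hA
        nlinarith
      rw [mem_Icc]
      exact abs_le.1 h4
    rw [← sum_fiberwise_of_maps_to hmaps]
    refine sum_congr rfl fun h _ => ?_
    have hP' : (P : ℤ) ≠ 0 := by exact_mod_cast NeZero.ne P
    have e2 : ((range J ×ˢ range J).filter (fun x : ℕ × ℕ => (P : ℤ) ∣ ((x.1 : ℤ) - x.2))).filter
        (fun x => ((x.1 : ℤ) - x.2) / P = h) = (range J ×ˢ range J).filter (fun x : ℕ × ℕ => (x.1 : ℤ) - x.2 = P * h) := by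
      ext x
      simp only [mem_filter, and_assoc]
      constructor
      · rintro ⟨h1, ⟨t, ht⟩, h3⟩
        refine ⟨h1, ?_⟩
        rw [ht, Int.mul_ediv_cancel_left _ hP'] at h3
        rw [ht, h3]
      · rintro ⟨h1, h2⟩
        exact ⟨h1, ⟨h, h2⟩, by rw [h2, Int.mul_ediv_cancel_left _ hP']⟩
    rw [e2]
    have e3 : ∀ x ∈ (range J ×ˢ range J).filter (fun x : ℕ × ℕ => (x.1 : ℤ) - x.2 = P * h),
        (P : ℂ) * fh (((x.1 : ℤ) - x.2) / P) = (P : ℂ) * fh h := by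
      intro x hx
      rw [(mem_filter.1 hx).2, Int.mul_ediv_cancel_left _ hP']
    rw [sum_congr rfl e3, sum_const, card_diff, nsmul_eq_mul]
  rw [step2, mul_sum, mul_sum]
  refine sum_congr rfl fun h _ => ?_
  have hw : ((((J : ℤ) - |(P : ℤ) * h|).toNat : ℝ)) = P * q / A * max 0 (1 - A * |(h : ℝ)| / q) := by
    have h1 : ((((J : ℤ) - |(P : ℤ) * h|).toNat : ℝ)) = max ((J : ℝ) - P * |(h:ℝ)|) 0 := by
      have h2 : ((((J : ℤ) - |(P : ℤ) * h|).toNat : ℤ)) = max ((J : ℤ) - |(P : ℤ) * h|) 0 := Int.toNat_eq_max _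
      have h3 : ((((J : ℤ) - |(P : ℤ) * h|).toNat : ℝ)) = (((((J : ℤ) - |(P : ℤ) * h|).toNat : ℤ)) : ℝ) := by push_cast; rfl
      rw [h3, h2, abs_mul, Nat.abs_cast]
      push_cast
      rfl
    rw [h1]
    have hA' : (0:ℝ) < A := by exact_mod_cast hA
    have hq' : (0:ℝ) < q := by exact_mod_cast Nat.pos_of_ne_zero (NeZero.ne q)
    have hP' : (0:ℝ) < P := by exact_mod_cast Nat.pos_of_ne_zero (NeZero.ne P)
    have hQr : (J : ℝ) * A = q * P := by exact_mod_cast hQ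
    rw [max_comm, mul_max_of_nonneg _ _ (by positivity : (0:ℝ) ≤ P * q / A), mul_zero]
    congr 1
    field_simp
    linear_combination hQr
  have hw' : ((((J : ℤ) - |(P : ℤ) * h|).toNat : ℂ)) = (P : ℂ) * q / A * ((max 0 (1 - A * |(h : ℝ)| / q) : ℝ) : ℂ) := by
    have := congrArg (fun x : ℝ => (x : ℂ)) hw
    simp only [ofReal_natCast, ofReal_mul, ofReal_div] at this
    exact this
  rw [hw']
  have e5 : (P : ℂ) = J * A / q := by field_simp; linear_combination (-1 : ℂ) * hQ'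
  rw [e5]
  field_simp
  try ring

end Pool.Agent.KS6_10
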