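import Pool.Agent.KS6_10.Jac
import Pool.Agent.KS6_10.Fejer
import Pool.Agent.KS6_10.Div
import Pool.Graph.R_seed8.H341R2.WeilSharp

/-!
# The sums `∑ ((x³ + a x + b) / n)`: multiplicativity and the bound of Hasse and Weil
-/

set_option autoImplicit false

namespace Pool.Agent.KS6_10

open Finset

/-- `∑_{x mod n} ((x³ + a x + b) / n)` -/
def SS (n : ℕ) (a b : ℤ) : ℤ := ∑ x ∈ range n, jacobiSym ((x : ℤ) ^ 3 + a * x + b) n

theorem SS_eq (n : ℕ) [NeZero n] (a b : ℤ) : SS n a b = sz n (a : ZMod n) (b : ZMod n) := by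
  unfold SS sz
  rw [← sum_range_zmod n (fun x => jac n (x ^ 3 + (a : ZMod n) * x + (b : ZMod n)))]
  refine sum_congr rfl fun x _ => ?_
  rw [← jac_int (m := n)]
  congr 1
  push_cast
  ring

theorem SS_one (a b : ℤ) : SS 1 a b = 1 := by
  unfold SS
  simp

theorem SS_mul (g m : ℕ) (h : Nat.Coprime g m) (a b : ℤ) : SS (g * m) a b = SS g a b * SS m a b := by
  rcases Nat.eq_zero_or_pos g with rfl | hg
  · rw [Nat.coprime_zero_left] at h
    subst h
    simp [SS]
  rcases Nat.eq_zero_or_pos m with rfl | hm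
  · rw [Nat.coprime_zero_right] at h
    subst h
    simp [SS]
  have : NeZero g := ⟨hg.ne'⟩
  have : NeZero m := ⟨hm.ne'⟩
  have : NeZero (g * m) := ⟨by positivity⟩
  rw [SS_eq, SS_eq, SS_eq, sz_mul g m h]

theorem SS_periodic (n Q : ℕ) (hn : n ∣ Q) (a b s t : ℤ) : SS n (a + s * Q) (b + t * Q) = SS n a b := by
  rcases Nat.eq_zero_or_pos n with rfl | hn0
  · simp [SS]
  have : NeZero n := ⟨hn0.ne'⟩
  rw [SS_eq, SS_eq]
  have hQ : ((Q : ℤ) : ZMod n) = 0 := by
    rw [Int.cast_natCast]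
    exact (ZMod.natCast_eq_zero_iff Q n).2 hn
  push_cast at hQ ⊢
  rw [hQ]
  simp

/-- Weil's bound for cubic polynomials -/
theorem SS_prime {p : ℕ} (hp : p.Prime) (hp2 : p ≠ 2) (a b : ℤ) : |(SS p a b : ℝ)| ≤ 2 * Real.sqrt p := by
  have : Fact p.Prime := ⟨hp⟩
  have h1 : SS p a b = ∑ x : ZMod p, quadraticChar (ZMod p) (x ^ 3 + (a : ZMod p) * x + (b : ZMod p)) := by
    rw [SS_eq]
    unfold sz
    refine sum_congr rfl fun x _ => ?_
    unfold jac
    rw [← jacobiSym.legendreSym.to_jacobiSym, legendreSym]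
    congr 1
    rw [Int.cast_natCast, ZMod.natCast_zmod_val]
  have hdeg : (Polynomial.X ^ 3 + Polynomial.C (a : ZMod p) * Polynomial.X + Polynomial.C (b : ZMod p) : Polynomial (ZMod p)).natDegree = 3 := by
    compute_degree!
  have hmon : (Polynomial.X ^ 3 + Polynomial.C (a : ZMod p) * Polynomial.X + Polynomial.C (b : ZMod p) : Polynomial (ZMod p)).Monic := by
    monicity!
  have h3 : ringChar (ZMod p) ≠ 2 := by
    rw [ZMod.ringChar_zmod_n]
    exact hp2
  have h := Pool.Agent.H341R2.Sharp.weil_sharp_monic h3 hmon (by rw [hdeg]; norm_num) (by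
    intro d g hg
    rw [hg] at hdeg
    by_cases hd : d = 0
    · rw [hd, map_zero, zero_mul, Polynomial.natDegree_zero] at hdeg
      omega
    · rw [Polynomial.natDegree_C_mul hd, Polynomial.natDegree_pow] at hdeg
      omega)
  rw [hdeg, ZMod.card] at h
  simp only [Polynomial.eval_add, Polynomial.eval_mul, Polynomial.eval_pow, Polynomial.eval_X,
    Polynomial.eval_C] at h
  rw [h1]
  push_cast
  refine h.trans (le_of_eq ?_)
  norm_num

theorem SS_le (n : ℕ) (hodd : Odd n) (hsq : Squarefree n) (a b : ℤ) :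
    |(SS n a b : ℝ)| ≤ n.divisors.card * Real.sqrt n := by
  revert hodd hsq
  induction n using Nat.recOnPosPrimePosCoprime with
  | prime_pow p n hp hn =>
    intro hodd hsq
    have hn1 : n = 1 := by
      by_contra hne
      have h2 : 2 ≤ n := by omega
      have h3 : p * p ∣ p ^ n := by rw [← pow_two]; exact pow_dvd_pow p h2
      exact hp.one_lt.ne' (Nat.isUnit_iff.1 (hsq p h3))
    subst hn1
    rw [pow_one] at hodd ⊢
    have hp2 : p ≠ 2 := by rintro rfl; exact absurd hodd (by decide)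
    rw [Nat.Prime.divisors hp, card_pair hp.one_lt.ne]
    exact_mod_cast SS_prime hp hp2 a b
  | zero => intro h; exact absurd h (by decide)
  | one =>
    intro _ _
    rw [SS_one]
    simp
  | coprime x y hx hy hxy ihx ihy =>
    intro hodd hsq
    have h1 := ihx (Nat.odd_mul.1 hodd).1 (hsq.squarefree_of_dvd (dvd_mul_right _ _))
    have h2 := ihy (Nat.odd_mul.1 hodd).2 (hsq.squarefree_of_dvd (dvd_mul_left _ _))
    rw [SS_mul x y hxy, Nat.Coprime.card_divisors_mul hxy]
    push_cast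
    rw [abs_mul, Real.sqrt_mul (Nat.cast_nonneg _)]
    calc |(SS x a b : ℝ)| * |(SS y a b : ℝ)| ≤ (x.divisors.card * Real.sqrt x) * (y.divisors.card * Real.sqrt y) :=
          mul_le_mul h1 h2 (abs_nonneg _) (by positivity)
      _ = _ := by ring

end Pool.Agent.KS6_10
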