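import Pool.Agent.KS6_10.Ray4

/-!
# Splitting the coefficients: `c = g * b`
-/

set_option autoImplicit false
set_option linter.unusedVariables false

namespace Pool.Agent.KS6_10

open Complex Set MeasureTheory Filter Topology
open scoped ComplexConjugate ENNReal ArithmeticFunction

/-- `B(z) = ∑ b(m) e^{-2πmz}` -/
noncomputable def Bs (b : ℕ → ℂ) (z : ℂ) : ℂ := ∑' m : ℕ, b m * Complex.exp (-(2 * Real.pi * m * z))

theorem summ1 {b : ℕ → ℂ} (hb : ∀ m, ‖b m‖ ≤ m) {δ : ℝ} (hδ : 0 < δ) : Summable fun n : ℕ => ‖b n‖ * Real.exp (-δ * n) := by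
  refine Summable.of_nonneg_of_le (fun n => by positivity) (fun n => ?_)
    (Real.summable_pow_mul_exp_neg_nat_mul 1 hδ)
  rw [pow_one]
  exact mul_le_mul_of_nonneg_right (hb n) (Real.exp_pos _).le

theorem Bs_hasSum {b : ℕ → ℂ} (hb : ∀ m, ‖b m‖ ≤ m) {z : ℂ} (hz : 0 < z.re) :
    HasSum (fun m : ℕ => b m * Complex.exp (-(2 * Real.pi * m * z))) (Bs b z) := by
  refine Summable.hasSum (Summable.of_norm ?_)
  have hpi := Real.pi_pos
  refine (summ1 hb (by positivity : 0 < 2 * Real.pi * z.re)).congr fun n => ?_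
  rw [norm_mul, norm_term]

theorem Bs_cont {b : ℕ → ℂ} (hb : ∀ m, ‖b m‖ ≤ m) {ω : ℂ} (hω : 0 < ω.re) : ContinuousOn (fun y : ℝ => Bs b (ω * y)) (Ioi 0) := by
  intro y0 hy0
  have hy0' : 0 < y0 := hy0
  have hpi := Real.pi_pos
  have hs : 0 < 2 * Real.pi * ω.re * (y0 / 2) := by positivity
  have h1 : ContinuousOn (fun y : ℝ => Bs b (ω * y)) (Ioi (y0 / 2)) := by
    unfold Bs
    refine continuousOn_tsum (fun n => by fun_prop) (summ1 hb hs) fun n y hy => ?_
    have hy' : y0 / 2 < y := hy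
    rw [norm_mul, norm_term, Complex.re_mul_ofReal]
    refine mul_le_mul_of_nonneg_left (Real.exp_le_exp.2 ?_) (norm_nonneg _)
    refine mul_le_mul_of_nonneg_right (neg_le_neg ?_) (Nat.cast_nonneg n)
    rw [mul_assoc (2 * Real.pi) ω.re (y0/2)]
    refine mul_le_mul_of_nonneg_left (mul_le_mul_of_nonneg_left hy'.le hω.le) (by positivity)
  exact (h1.continuousAt (Ioi_mem_nhds (by linarith))).continuousWithinAt

/-- `e^{-x l} ≤ C l^{-5/4}` -/
theorem exp_le_rpow {x : ℝ} (hx : 0 < x) : ∃ C : ℝ, 0 ≤ C ∧ ∀ l : ℕ, 1 ≤ l → Real.exp (-x * l) ≤ C * (l : ℝ) ^ (-(5 / 4 : ℝ)) := by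
  refine ⟨2 / x ^ 2, by positivity, fun l hl => ?_⟩
  have hl0 : (0:ℝ) < l := by exact_mod_cast (by omega : 0 < l)
  have hl1 : (1:ℝ) ≤ l := by exact_mod_cast hl
  have h1 : (x * l) ^ 2 / 2 ≤ Real.exp (x * l) := by
    have := Real.quadratic_le_exp_of_nonneg (by positivity : 0 ≤ x * l)
    have h2 : 0 ≤ x * l := by positivity
    linarith
  have h3 : Real.exp (-x * l) ≤ 2 / (x * l) ^ 2 := by
    rw [neg_mul, Real.exp_neg, ← one_div_div, one_div]
    exact inv_anti₀ (by positivity) h1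
  refine h3.trans ?_
  have h4 : 2 / (x * l) ^ 2 = 2 / x ^ 2 * ((l:ℝ) ^ 2)⁻¹ := by field_simp
  rw [h4]
  refine mul_le_mul_of_nonneg_left ?_ (by positivity)
  rw [Real.rpow_neg hl0.le]
  refine inv_anti₀ (by positivity) ?_
  calc (l:ℝ) ^ (5 / 4 : ℝ) ≤ (l:ℝ) ^ (2:ℝ) := Real.rpow_le_rpow_of_exponent_le hl1 (by norm_num)
    _ = (l:ℝ) ^ 2 := by norm_cast

theorem expand {g b : ArithmeticFunction ℂ} (hb : ∀ m, ‖b m‖ ≤ m)
    (hg : Summable fun l : ℕ => ‖g l‖ * (l : ℝ) ^ (-(5 / 4 : ℝ))) {z : ℂ} (hz : 0 < z.re) :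
    HasSum (fun n : ℕ => (g * b) n * Complex.exp (-(2 * Real.pi * n * z))) (∑' l : ℕ, g l * Bs b (l * z)) ∧
    Summable (fun l : ℕ => g l * Bs b (l * z)) := by
  have hpi := Real.pi_pos
  have hx : 0 < Real.pi * z.re := by positivity
  obtain ⟨C, hC, hCe⟩ := exp_le_rpow hx
  set F : ℕ × ℕ → ℂ := fun p => g p.1 * (b p.2 * Complex.exp (-(2 * Real.pi * p.2 * (p.1 * z)))) with hF
  have hgs : Summable fun l : ℕ => ‖g l‖ * Real.exp (-(Real.pi * z.re) * l) := by
    refine Summable.of_nonneg_of_le (fun n => by positivity) (fun l => ?_) (hg.mul_left C)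
    rcases Nat.eq_zero_or_pos l with hl | hl
    · rw [hl]; simp
    · have := hCe l hl
      calc _ ≤ ‖g l‖ * (C * (l : ℝ) ^ (-(5 / 4 : ℝ))) := mul_le_mul_of_nonneg_left this (norm_nonneg _)
        _ = _ := by ring
  have hbs : Summable fun m : ℕ => ‖b m‖ * Real.exp (-(Real.pi * z.re) * m) := summ1 hb hx
  have hsum : Summable F := by
    refine Summable.of_norm_bounded (summable_mul_of_summable_norm (f := fun l : ℕ => ‖g l‖ * Real.exp (-(Real.pi * z.re) * l))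
      (g := fun m : ℕ => ‖b m‖ * Real.exp (-(Real.pi * z.re) * m)) hgs.norm hbs.norm) ?_
    rintro ⟨l, m⟩
    simp only [hF]
    rcases Nat.eq_zero_or_pos l with hl | hl
    · rw [hl]; simp
    rcases Nat.eq_zero_or_pos m with hm | hm
    · rw [hm]; simp
    have hl1 : (1:ℝ) ≤ l := by exact_mod_cast hl
    have hm1 : (1:ℝ) ≤ m := by exact_mod_cast hm
    have e : ((l:ℂ) * z).re = l * z.re := by
      rw [← Complex.ofReal_natCast, Complex.re_ofReal_mul]
    rw [norm_mul, norm_mul, norm_term, e]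
    have h1 : Real.exp (-(2 * Real.pi * (l * z.re)) * m) ≤ Real.exp (-(Real.pi * z.re) * l) * Real.exp (-(Real.pi * z.re) * m) := by
      rw [← Real.exp_add, Real.exp_le_exp]
      have h2 : (l:ℝ) + m ≤ 2 * (l * m) := by nlinarith [mul_nonneg (sub_nonneg.2 hl1) (sub_nonneg.2 hm1)]
      have h3 := mul_le_mul_of_nonneg_left h2 hx.le
      have e1 : -(2 * Real.pi * (l * z.re)) * m = -(Real.pi * z.re * (2 * (l * m))) := by ring
      rw [e1]
      linarith
    calc ‖g l‖ * (‖b m‖ * Real.exp (-(2 * Real.pi * (l * z.re)) * m))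
        ≤ ‖g l‖ * (‖b m‖ * (Real.exp (-(Real.pi * z.re) * l) * Real.exp (-(Real.pi * z.re) * m))) := by gcongr
      _ = _ := by ring
  have hfib : ∀ l : ℕ, HasSum (fun m : ℕ => F (l, m)) (g l * Bs b (l * z)) := fun l => by
    simp only [hF]
    rcases Nat.eq_zero_or_pos l with hl | hl
    · rw [hl]; simp
    · have e : 0 < ((l:ℂ) * z).re := by
        rw [← Complex.ofReal_natCast, Complex.re_ofReal_mul]
        have : (0:ℝ) < l := by exact_mod_cast hl
        positivity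
      exact (Bs_hasSum hb e).mul_left _
  have h1 := hsum.hasSum.prod_fiberwise hfib
  refine ⟨?_, h1.summable⟩
  rw [h1.tsum_eq]
  have h2 := hsum.hasSum.tsum_fiberwise (fun p : ℕ × ℕ => p.1 * p.2)
  have h3 : (fun n : ℕ => (g * b) n * Complex.exp (-(2 * Real.pi * n * z))) =
      fun n => ∑' p : (fun p : ℕ × ℕ => p.1 * p.2) ⁻¹' {n}, F p := by
   funext n
   rcases eq_or_ne n 0 with rfl | hn
   · have hS : (fun p : ℕ × ℕ => p.1 * p.2) ⁻¹' {0} = {0} ×ˢ univ ∪ univ ×ˢ {0} := by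
       ext
       simp
     have : ∀ p : (fun p : ℕ × ℕ => p.1 * p.2) ⁻¹' {0}, F p = 0 := by
       rintro ⟨⟨_, _⟩, hp⟩
       rcases hS ▸ hp with ⟨rfl, -⟩ | ⟨-, rfl⟩ <;> simp [hF]
     simp [this]
   · rw [show (fun p : ℕ × ℕ => p.1 * p.2) ⁻¹' {n} = n.divisorsAntidiagonal by ext; simp [hn],
       Finset.tsum_subtype' n.divisorsAntidiagonal F, ArithmeticFunction.mul_apply, Finset.sum_mul]
     refine Finset.sum_congr rfl fun p hp => ?_
     have hpn := (Nat.mem_divisorsAntidiagonal.1 hp).1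
     simp only [hF]
     rw [← hpn]
     push_cast
     rw [show (2 * (Real.pi:ℂ) * (p.1 * p.2) * z) = 2 * Real.pi * p.2 * (p.1 * z) by ring]
     ring
  rw [h3]
  exact h2

end Pool.Agent.KS6_10
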