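import Pool.Agent.KS6_10.Exp

/-!
# Counting solutions of `h³ ≡ h'³ (mod k²)`
-/

set_option autoImplicit false

namespace Pool.Agent.KS6_10

open Finset

/-- the cube roots of unity modulo `n` -/
noncomputable def rho (n : ℕ) : ℕ := Nat.card {x : ZMod n // x ^ 3 = 1}

theorem rho_mul {a b : ℕ} (h : Nat.Coprime a b) : rho (a * b) = rho a * rho b := by
  unfold rho
  rw [← Nat.card_prod]
  refine Nat.card_congr ?_
  refine ((ZMod.chineseRemainder h).toEquiv.subtypeEquiv (p := fun x => x ^ 3 = 1)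
    (q := fun y : ZMod a × ZMod b => y.1 ^ 3 = 1 ∧ y.2 ^ 3 = 1) ?_).trans
    (Equiv.subtypeProdEquivProd (p := fun x : ZMod a => x ^ 3 = 1) (q := fun x : ZMod b => x ^ 3 = 1))
  intro x
  have h1 : x ^ 3 = 1 ↔ (ZMod.chineseRemainder h x) ^ 3 = 1 := by
    rw [← map_pow, ← map_one (ZMod.chineseRemainder h), (ZMod.chineseRemainder h).injective.eq_iff]
  rw [h1, Prod.ext_iff]
  rfl

theorem rho_prime_pow {p : ℕ} (hp : p.Prime) (n : ℕ) : rho (p ^ n) ≤ 3 := by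
  have : NeZero (p ^ n) := ⟨pow_ne_zero _ hp.ne_zero⟩
  have h1 : rho (p ^ n) ≤ Nat.card {x : (ZMod (p ^ n))ˣ // x ^ 3 = 1} := by
    unfold rho
    refine Nat.card_le_card_of_injective (fun x => ⟨⟨x.1, x.1 ^ 2, by have h := x.2; linear_combination h, by have h := x.2; linear_combination h⟩,
      Units.ext (by simpa using x.2)⟩) ?_
    intro x y hxy
    have h2 := congrArg (fun z => ((z : {x : (ZMod (p ^ n))ˣ // x ^ 3 = 1}).1 : ZMod (p ^ n))) hxy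
    exact Subtype.ext h2
  refine h1.trans ?_
  by_cases hp2 : p = 2
  · subst hp2
    have h3 : ∀ x : (ZMod (2 ^ n))ˣ, x ^ 3 = 1 → x = 1 := by
      intro x hx
      have h4 : x ^ Fintype.card (ZMod (2 ^ n))ˣ = 1 := pow_card_eq_one
      rw [ZMod.card_units_eq_totient] at h4
      have h5 : Nat.Coprime 3 (Nat.totient (2 ^ n)) := by
        rcases Nat.eq_zero_or_pos n with rfl | hn
        · simp
        · rw [Nat.totient_prime_pow Nat.prime_two hn, show (2 - 1) = 1 from rfl, mul_one]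
          exact Nat.Coprime.pow_right _ (by norm_num)
      have h6 : orderOf x ∣ Nat.gcd 3 (Nat.totient (2 ^ n)) :=
        Nat.dvd_gcd (orderOf_dvd_of_pow_eq_one hx) (orderOf_dvd_of_pow_eq_one h4)
      rw [h5.gcd_eq_one, Nat.dvd_one, orderOf_eq_one_iff] at h6
      exact h6
    have h7 : Nat.card {x : (ZMod (2 ^ n))ˣ // x ^ 3 = 1} ≤ 1 := by
      rw [Finite.card_le_one_iff_subsingleton]
      exact ⟨fun x y => Subtype.ext ((h3 _ x.2).trans (h3 _ y.2).symm)⟩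
    omega
  · have := ZMod.isCyclic_units_of_prime_pow p hp hp2 n
    classical
    have h8 := IsCyclic.card_pow_eq_one_le (α := (ZMod (p ^ n))ˣ) (n := 3) (by norm_num)
    rw [Nat.card_eq_fintype_card, Fintype.card_subtype]
    exact h8

theorem rho_le (n : ℕ) (hn : n ≠ 0) : rho n ≤ n.divisors.card ^ 2 := by
  revert hn
  induction n using Nat.recOnPosPrimePosCoprime with
  | prime_pow p n hp hn =>
    intro _
    refine (rho_prime_pow hp n).trans ?_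
    rw [Nat.divisors_prime_pow hp, card_map, card_range]
    nlinarith
  | zero => intro h; exact absurd rfl h
  | one =>
    intro _
    have : rho 1 ≤ 1 := by
      unfold rho
      rw [Finite.card_le_one_iff_subsingleton]
      infer_instance
    simpa using this
  | coprime a b ha hb hab iha ihb =>
    intro _
    rw [rho_mul hab, Nat.Coprime.card_divisors_mul hab, mul_pow]
    exact Nat.mul_le_mul (iha (by omega)) (ihb (by omega))

/-- integers in a class -/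
theorem card_class (L : ℕ) (r : ℕ) (hr : 0 < r) (v : ℤ) :
    (((Icc (-(L : ℤ)) L).filter (fun x => x ≡ v [ZMOD r])).card : ℝ) ≤ (2 * L + 1) / r + 1 := by
  have h1 : Icc (-(L : ℤ)) L = Ioc (-(L : ℤ) - 1) L := by
    ext x; simp only [mem_Icc, mem_Ioc]; omega
  rw [h1]
  have hr' : (0 : ℤ) < r := by exact_mod_cast hr
  have h2 := Int.Ioc_filter_modEq_card (-(L : ℤ) - 1) L hr' v
  have hrq : (0 : ℚ) < r := by exact_mod_cast hr
  have h3 : ((((Ioc (-(L : ℤ) - 1) L).filter (fun x => x ≡ v [ZMOD r])).card : ℤ) : ℚ) ≤ (2 * L + 1) / r + 1 := by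
    rw [h2]
    push_cast
    rw [max_le_iff]
    constructor
    · have e1 := Int.floor_le (((L : ℤ) - v) / ((r : ℤ) : ℚ) : ℚ)
      have e2 := (Int.sub_one_lt_floor ((((-(L : ℤ) - 1 : ℤ) : ℚ) - v) / ((r : ℤ) : ℚ))).le
      push_cast at e1 e2 ⊢
      have e3 : ((L : ℚ) - v) / r - (-(L : ℚ) - 1 - v) / r = (2 * L + 1) / r := by
        field_simp; ring
      linarith
    · positivity
  have h4 : ((((Ioc (-(L : ℤ) - 1) L).filter (fun x => x ≡ v [ZMOD r])).card : ℚ)) ≤ (2 * L + 1) / r + 1 := by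
    exact_mod_cast h3
  have h5 := (Rat.cast_le (K := ℝ)).2 h4
  push_cast at h5
  exact h5

/-- coprime solutions -/
theorem coprime_count (L r : ℕ) (hr : 0 < r) :
    (((Icc (-(L : ℤ)) L ×ˢ Icc (-(L : ℤ)) L).filter (fun x : ℤ × ℤ => Int.gcd x.1 x.2 = 1 ∧ (r : ℤ) ∣ x.1 ^ 3 - x.2 ^ 3)).card : ℝ) ≤
      rho r * ((2 * L + 1) * ((2 * L + 1) / r + 1)) := by
  classical
  have : NeZero r := ⟨hr.ne'⟩
  set Ω : Finset (ZMod r) := univ.filter (fun x => x ^ 3 = 1) with hΩ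
  have hΩc : rho r = Ω.card := by
    unfold rho
    rw [Nat.card_eq_fintype_card, Fintype.card_subtype]
  have hsub : ((Icc (-(L : ℤ)) L ×ˢ Icc (-(L : ℤ)) L).filter (fun x : ℤ × ℤ => Int.gcd x.1 x.2 = 1 ∧ (r : ℤ) ∣ x.1 ^ 3 - x.2 ^ 3)) ⊆
      Ω.biUnion fun ω => (Icc (-(L : ℤ)) L).biUnion fun y =>
        ((Icc (-(L : ℤ)) L).filter (fun x => x ≡ (ω.val : ℤ) * y [ZMOD r])).image (fun x => (x, y)) := by
    rintro ⟨x, y⟩ hxy
    obtain ⟨h1, h2, h3⟩ := mem_filter.1 hxy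
    rw [mem_product] at h1
    simp only at h1 h2 h3
    -- `y` is a unit
    have hu : IsUnit (y : ZMod r) := by
      have h4 : Int.gcd y r = 1 := by
        by_contra hne
        obtain ⟨p, hp, hpd⟩ := Nat.exists_prime_and_dvd hne
        have hpy : (p : ℤ) ∣ y := (Int.natCast_dvd_natCast.2 hpd).trans (Int.gcd_dvd_left _ _)
        have hpr : (p : ℤ) ∣ r := (Int.natCast_dvd_natCast.2 hpd).trans (Int.gcd_dvd_right _ _)
        have hpx3 : (p : ℤ) ∣ x ^ 3 := by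
          have := (hpr.trans h3).add (hpy.trans (dvd_pow_self y (three_ne_zero)))
          simpa using this
        have hpx : (p : ℤ) ∣ x := Int.Prime.dvd_pow' hp hpx3
        have : (p : ℤ) ∣ Int.gcd x y := Int.dvd_coe_gcd hpx hpy
        rw [h2] at this
        have := Int.natCast_dvd_natCast.1 this
        exact hp.one_lt.ne' (Nat.dvd_one.1 this)
      rw [ZMod.coe_int_isUnit_iff_isCoprime, Int.isCoprime_iff_gcd_eq_one, Int.gcd_comm]
      exact h4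
    obtain ⟨u, hu⟩ := hu
    set ω : ZMod r := (x : ZMod r) * ((u⁻¹ : (ZMod r)ˣ) : ZMod r) with hω
    have h5 : (x : ZMod r) ^ 3 = (y : ZMod r) ^ 3 := by
      have := (ZMod.intCast_zmod_eq_zero_iff_dvd (x ^ 3 - y ^ 3) r).2 h3
      push_cast at this
      exact sub_eq_zero.1 this
    have h6 : ω ^ 3 = 1 := by
      rw [hω, mul_pow, h5, ← hu, ← mul_pow, Units.mul_inv, one_pow]
    have h7 : ω * (y : ZMod r) = x := by
      rw [hω, ← hu, mul_assoc, Units.inv_mul, mul_one]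
    simp only [mem_biUnion, mem_image, mem_filter]
    refine ⟨ω, by rw [hΩ, mem_filter]; exact ⟨mem_univ _, h6⟩, y, h1.2, x, ⟨h1.1, ?_⟩, rfl⟩
    rw [← ZMod.intCast_eq_intCast_iff]
    push_cast
    rw [ZMod.natCast_zmod_val, h7]
  have h1 : (((Icc (-(L : ℤ)) L ×ˢ Icc (-(L : ℤ)) L).filter (fun x : ℤ × ℤ => Int.gcd x.1 x.2 = 1 ∧ (r : ℤ) ∣ x.1 ^ 3 - x.2 ^ 3)).card : ℝ) ≤
      ∑ ω ∈ Ω, ∑ y ∈ Icc (-(L : ℤ)) L, (((Icc (-(L : ℤ)) L).filter (fun x => x ≡ (ω.val : ℤ) * y [ZMOD r])).card : ℝ) := by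
    have e1 := (card_le_card hsub).trans card_biUnion_le
    have e2 : ∀ ω ∈ Ω, ((Icc (-(L : ℤ)) L).biUnion fun y =>
        ((Icc (-(L : ℤ)) L).filter (fun x => x ≡ (ω.val : ℤ) * y [ZMOD r])).image (fun x => (x, y))).card ≤
        ∑ y ∈ Icc (-(L : ℤ)) L, ((Icc (-(L : ℤ)) L).filter (fun x => x ≡ (ω.val : ℤ) * y [ZMOD r])).card := by
      intro ω _
      exact card_biUnion_le.trans (sum_le_sum fun y _ => card_image_le)
    exact_mod_cast e1.trans (sum_le_sum e2)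
  refine h1.trans ?_
  have h2 : ∀ ω ∈ Ω, ∑ y ∈ Icc (-(L : ℤ)) L, (((Icc (-(L : ℤ)) L).filter (fun x => x ≡ (ω.val : ℤ) * y [ZMOD r])).card : ℝ) ≤
      (2 * L + 1) * ((2 * L + 1) / r + 1) := by
    intro ω _
    refine (sum_le_sum fun y _ => card_class L r hr _).trans (le_of_eq ?_)
    rw [sum_const, Int.card_Icc, nsmul_eq_mul]
    congr 1
    have : ((L : ℤ) + 1 - -(L : ℤ)).toNat = 2 * L + 1 := by omega
    rw [this]; push_cast; ring
  refine (sum_le_sum h2).trans (le_of_eq ?_)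
  rw [sum_const, nsmul_eq_mul, ← hΩc]

/-- the number of solutions of `h³ ≡ h'³ (mod k²)`, `|h|, |h'| ≤ H` -/
noncomputable def rc (k H : ℕ) : ℕ :=
  ((Icc (-(H : ℤ)) H ×ˢ Icc (-(H : ℤ)) H).filter (fun x : ℤ × ℤ => (k : ℤ) ^ 2 ∣ x.1 ^ 3 - x.2 ^ 3)).card

theorem rc_le (k H : ℕ) (hk : 0 < k) (T : ℝ) (hT : ∀ d : ℕ, d ∣ k ^ 2 → (d.divisors.card : ℝ) ≤ T) :
    (rc k H : ℝ) ≤ 1 + T ^ 2 * ∑ D ∈ Icc 1 H, (3 * ((H : ℝ) / D)) * (3 * ((H : ℝ) / D) * (Nat.gcd k (D ^ 2) : ℝ) ^ 2 / k ^ 2 + 1) := by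
  classical
  have hT0 : 0 ≤ T := (Nat.cast_nonneg _).trans (hT 1 (one_dvd _))
  -- decomposition by the gcd
  set G : ℕ → Finset (ℤ × ℤ) := fun D => (Icc (-((H / D : ℕ) : ℤ)) ((H / D : ℕ) : ℤ) ×ˢ Icc (-((H / D : ℕ) : ℤ)) ((H / D : ℕ) : ℤ)).filter
    (fun x : ℤ × ℤ => Int.gcd x.1 x.2 = 1 ∧ ((k ^ 2 / Nat.gcd (k ^ 2) (D ^ 3) : ℕ) : ℤ) ∣ x.1 ^ 3 - x.2 ^ 3) with hG
  have hsub : ((Icc (-(H : ℤ)) H ×ˢ Icc (-(H : ℤ)) H).filter (fun x : ℤ × ℤ => (k : ℤ) ^ 2 ∣ x.1 ^ 3 - x.2 ^ 3)) ⊆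
      {((0 : ℤ), (0 : ℤ))} ∪ (Icc 1 H).biUnion fun D => (G D).image (fun x => ((D : ℤ) * x.1, (D : ℤ) * x.2)) := by
    rintro ⟨x, y⟩ hxy
    obtain ⟨h1, h2⟩ := mem_filter.1 hxy
    simp only [mem_product, mem_Icc] at h1 h2
    rw [mem_union, mem_singleton]
    by_cases h0 : x = 0 ∧ y = 0
    · left; rw [h0.1, h0.2]
    right
    set D := Int.gcd x y with hD
    have hD0 : 0 < D := by
      rw [hD, Int.gcd_pos_iff]
      by_cases hx : x = 0
      · right; intro hy; exact h0 ⟨hx, hy⟩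
      · left; exact hx
    obtain ⟨x', hx'⟩ : (D : ℤ) ∣ x := Int.gcd_dvd_left _ _
    obtain ⟨y', hy'⟩ : (D : ℤ) ∣ y := Int.gcd_dvd_right _ _
    have hcop : Int.gcd x' y' = 1 := by
      have h3 : Int.gcd x y = D * Int.gcd x' y' := by
        conv_lhs => rw [hx', hy']
        rw [Int.gcd_mul_left, Int.natAbs_natCast]
      rw [← hD] at h3
      exact (Nat.eq_of_mul_eq_mul_left hD0 (by rw [mul_one]; exact h3)).symm
    have hDz : (0 : ℤ) < D := by exact_mod_cast hD0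
    have hxb : |x'| ≤ ((H / D : ℕ) : ℤ) := by
      have e1 : |x| ≤ H := abs_le.2 h1.1
      rw [hx', abs_mul, Nat.abs_cast] at e1
      push_cast
      rw [Int.le_ediv_iff_mul_le hDz, mul_comm]
      exact e1
    have hyb : |y'| ≤ ((H / D : ℕ) : ℤ) := by
      have e1 : |y| ≤ H := abs_le.2 h1.2
      rw [hy', abs_mul, Nat.abs_cast] at e1
      push_cast
      rw [Int.le_ediv_iff_mul_le hDz, mul_comm]
      exact e1
    have hDH : D ≤ H := by
      by_contra hc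
      push Not at hc
      have : H / D = 0 := Nat.div_eq_of_lt hc
      rw [this] at hxb hyb
      have ex : x' = 0 := by simpa using hxb
      have ey : y' = 0 := by simpa using hyb
      rw [ex, ey] at hcop
      simp at hcop
    rw [mem_biUnion]
    refine ⟨D, mem_Icc.2 ⟨hD0, hDH⟩, ?_⟩
    rw [mem_image]
    refine ⟨(x', y'), ?_, by simp only; rw [← hx', ← hy']⟩
    rw [hG]
    simp only [mem_filter, mem_product, mem_Icc]
    refine ⟨⟨abs_le.1 hxb, abs_le.1 hyb⟩, hcop, ?_⟩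
    -- the divisibility
    have h4 : (k : ℤ) ^ 2 ∣ (D : ℤ) ^ 3 * (x' ^ 3 - y' ^ 3) := by
      have : (D : ℤ) ^ 3 * (x' ^ 3 - y' ^ 3) = x ^ 3 - y ^ 3 := by
        conv_rhs => rw [hx', hy']
        ring
      rw [this]; exact h2
    have h5 : (k ^ 2) ∣ D ^ 3 * (x' ^ 3 - y' ^ 3).natAbs := by
      have := Int.natAbs_dvd_natAbs.2 h4
      rw [Int.natAbs_mul, Int.natAbs_pow, Int.natAbs_pow, Int.natAbs_natCast, Int.natAbs_natCast] at this
      exact this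
    have hk2 : 0 < k ^ 2 := by positivity
    have h6 : k ^ 2 / Nat.gcd (k ^ 2) (D ^ 3) ∣ (x' ^ 3 - y' ^ 3).natAbs := by
      have hg : 0 < Nat.gcd (k ^ 2) (D ^ 3) := Nat.gcd_pos_of_pos_left _ hk2
      have hc : Nat.Coprime (k ^ 2 / Nat.gcd (k ^ 2) (D ^ 3)) (D ^ 3 / Nat.gcd (k ^ 2) (D ^ 3)) := Nat.coprime_div_gcd_div_gcd hg
      have h7 : k ^ 2 / Nat.gcd (k ^ 2) (D ^ 3) ∣ (D ^ 3 / Nat.gcd (k ^ 2) (D ^ 3)) * (x' ^ 3 - y' ^ 3).natAbs := by
        obtain ⟨c, hc'⟩ := h5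
        refine ⟨c, ?_⟩
        apply Nat.eq_of_mul_eq_mul_left hg
        rw [← mul_assoc, ← mul_assoc, Nat.mul_div_cancel' (Nat.gcd_dvd_right _ _), Nat.mul_div_cancel' (Nat.gcd_dvd_left _ _)]
        exact hc'
      exact hc.dvd_of_dvd_mul_left h7
    exact Int.natCast_dvd.2 h6
  have h1 : (rc k H : ℝ) ≤ 1 + ∑ D ∈ Icc 1 H, ((G D).card : ℝ) := by
    unfold rc
    have e1 := (card_le_card hsub).trans (card_union_le _ _)
    have e2 : ((Icc 1 H).biUnion fun D => (G D).image (fun x => ((D : ℤ) * x.1, (D : ℤ) * x.2))).card ≤ ∑ D ∈ Icc 1 H, (G D).card :=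
      card_biUnion_le.trans (sum_le_sum fun D _ => card_image_le)
    rw [card_singleton] at e1
    have e3 := e1.trans (Nat.add_le_add_left e2 1)
    exact_mod_cast e3
  refine h1.trans ?_
  rw [mul_sum]
  refine add_le_add le_rfl (sum_le_sum fun D hD => ?_)
  obtain ⟨hD1, hD2⟩ := mem_Icc.1 hD
  have hk2 : 0 < k ^ 2 := by positivity
  have hg : 0 < Nat.gcd (k ^ 2) (D ^ 3) := Nat.gcd_pos_of_pos_left _ hk2
  set r := k ^ 2 / Nat.gcd (k ^ 2) (D ^ 3) with hr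
  have hr0 : 0 < r := Nat.div_pos (Nat.le_of_dvd hk2 (Nat.gcd_dvd_left _ _)) hg
  have hrd : r ∣ k ^ 2 := Nat.div_dvd_of_dvd (Nat.gcd_dvd_left _ _)
  have h2 : ((G D).card : ℝ) ≤ rho r * ((2 * ((H / D : ℕ) : ℝ) + 1) * ((2 * ((H / D : ℕ) : ℝ) + 1) / r + 1)) := coprime_count (H / D) r hr0
  refine h2.trans ?_
  have hD0 : (0:ℝ) < D := by exact_mod_cast hD1
  have hk0 : (0:ℝ) < k := by exact_mod_cast hk
  have hL : (1 : ℝ) ≤ ((H / D : ℕ) : ℝ) := by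
    have : 1 ≤ H / D := (Nat.one_le_div_iff hD1).2 hD2
    exact_mod_cast this
  have hL2 : ((H / D : ℕ) : ℝ) ≤ (H : ℝ) / D := Nat.cast_div_le
  have h3 : 2 * ((H / D : ℕ) : ℝ) + 1 ≤ 3 * ((H : ℝ) / D) := by linarith
  have h4 : (rho r : ℝ) ≤ T ^ 2 := by
    have e1 : (rho r : ℝ) ≤ ((r.divisors.card : ℕ) : ℝ) ^ 2 := by exact_mod_cast rho_le r hr0.ne'
    exact e1.trans (pow_le_pow_left₀ (Nat.cast_nonneg _) (hT r hrd) 2)
  have hr0' : (0:ℝ) < r := by exact_mod_cast hr0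
  have h5 : (1 : ℝ) / r ≤ (Nat.gcd k (D ^ 2) : ℝ) ^ 2 / k ^ 2 := by
    have e1 : r * Nat.gcd (k ^ 2) (D ^ 3) = k ^ 2 := Nat.div_mul_cancel (Nat.gcd_dvd_left _ _)
    have e2 : Nat.gcd (k ^ 2) (D ^ 3) ≤ Nat.gcd k (D ^ 2) ^ 2 := by
      refine Nat.le_of_dvd (by have := Nat.gcd_pos_of_pos_left (D ^ 2) hk; positivity) ?_
      have e3 : Nat.gcd k (D ^ 2) ^ 2 = Nat.gcd (k ^ 2) ((D ^ 2) ^ 2) := by
        rw [← Nat.pow_gcd_pow]
      rw [e3]
      refine Nat.gcd_dvd_gcd_of_dvd_right _ ?_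
      rw [← pow_mul]
      exact pow_dvd_pow D (by norm_num)
    rw [div_le_div_iff₀ hr0' (by positivity), one_mul]
    have e1' : (r : ℝ) * Nat.gcd (k ^ 2) (D ^ 3) = k ^ 2 := by exact_mod_cast e1
    have e2' : (Nat.gcd (k ^ 2) (D ^ 3) : ℝ) ≤ (Nat.gcd k (D ^ 2) : ℝ) ^ 2 := by exact_mod_cast e2
    rw [← e1', mul_comm]
    exact mul_le_mul_of_nonneg_right e2' hr0'.le
  have h6 : (2 * ((H / D : ℕ) : ℝ) + 1) / r ≤ 3 * ((H : ℝ) / D) * (Nat.gcd k (D ^ 2) : ℝ) ^ 2 / k ^ 2 := by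
    rw [div_eq_mul_one_div, mul_div_assoc]
    exact mul_le_mul h3 h5 (by positivity) (by positivity)
  have h7 : (2 * ((H / D : ℕ) : ℝ) + 1) * ((2 * ((H / D : ℕ) : ℝ) + 1) / r + 1) ≤
      3 * ((H : ℝ) / D) * (3 * ((H : ℝ) / D) * (Nat.gcd k (D ^ 2) : ℝ) ^ 2 / k ^ 2 + 1) := by
    refine mul_le_mul h3 (by linarith) (by positivity) (by positivity)
  exact mul_le_mul h4 h7 (by positivity) (by positivity)

end Pool.Agent.KS6_10
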