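import Pool.Agent.KS6_10.Count

/-!
# The sum over `k` of the square roots of the numbers of solutions
-/

set_option autoImplicit false

namespace Pool.Agent.KS6_10

open Finset

theorem sum_inv_le (n : ℕ) : ∑ k ∈ Icc 1 n, (1 : ℝ) / k ≤ 1 + Real.log n := by
  have h := harmonic_le_one_add_log n
  refine le_trans (le_of_eq ?_) h
  unfold harmonic
  push_cast
  have e0 := sum_Ico_add' (fun i : ℕ => ((i : ℝ))⁻¹) 0 n 1
  simp only [Nat.cast_add, Nat.cast_one, zero_add] at e0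
  rw [range_eq_Ico, e0]
  refine sum_congr ?_ fun i _ => one_div _
  ext i
  simp only [mem_Icc, mem_Ico]
  omega

theorem sum_gcd_le (K E : ℕ) (hE : 0 < E) :
    ∑ k ∈ Icc 1 K, (Nat.gcd k E : ℝ) / k ≤ E.divisors.card * (1 + Real.log K) := by
  classical
  have h1 : ∀ k ∈ Icc 1 K, (Nat.gcd k E : ℝ) / k ≤ ∑ e ∈ E.divisors, if e ∣ k then (e : ℝ) / k else 0 := by
    intro k hk
    have h2 : Nat.gcd k E ∈ E.divisors := Nat.mem_divisors.2 ⟨Nat.gcd_dvd_right _ _, hE.ne'⟩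
    refine le_trans ?_ (single_le_sum (f := fun e : ℕ => if e ∣ k then (e : ℝ) / k else 0) (fun e _ => ?_) h2)
    · rw [if_pos (Nat.gcd_dvd_left _ _)]
    · split_ifs <;> positivity
  refine (sum_le_sum h1).trans ?_
  rw [sum_comm]
  have h3 : ∀ e ∈ E.divisors, ∑ k ∈ Icc 1 K, (if e ∣ k then (e : ℝ) / k else 0) ≤ 1 + Real.log K := by
    intro e he
    have he0 : 0 < e := Nat.pos_of_mem_divisors he
    have he0' : (0:ℝ) < e := by exact_mod_cast he0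
    rw [← sum_filter]
    have h4 : (Icc 1 K).filter (fun k => e ∣ k) ⊆ (Icc 1 (K / e)).image (fun j => e * j) := by
      intro k hk
      obtain ⟨h5, j, rfl⟩ := mem_filter.1 hk
      obtain ⟨h6, h7⟩ := mem_Icc.1 h5
      refine mem_image.2 ⟨j, mem_Icc.2 ⟨?_, ?_⟩, rfl⟩
      · exact Nat.pos_of_ne_zero (by rintro rfl; simp at h6)
      · rw [Nat.le_div_iff_mul_le he0, mul_comm]; exact h7
    refine (sum_le_sum_of_subset_of_nonneg h4 fun _ _ _ => by positivity).trans ?_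
    rw [sum_image (fun a _ b _ h => Nat.eq_of_mul_eq_mul_left he0 h)]
    have h5 : ∀ j ∈ Icc 1 (K / e), (e : ℝ) / ((e * j : ℕ) : ℝ) = 1 / j := by
      intro j hj
      push_cast
      rw [div_mul_eq_div_div, div_self he0'.ne']
    rw [sum_congr rfl h5]
    refine (sum_inv_le _).trans ?_
    rcases Nat.eq_zero_or_pos (K / e) with h0 | h0
    · rw [h0]
      simp only [Nat.cast_zero, Real.log_zero, add_zero]
      rcases Nat.eq_zero_or_pos K with h1 | h1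
      · rw [h1]; simp
      · have : 0 ≤ Real.log K := Real.log_nonneg (by exact_mod_cast h1)
        linarith
    · have h6 : Real.log ((K / e : ℕ) : ℝ) ≤ Real.log K := by
        refine Real.log_le_log (by exact_mod_cast h0) ?_
        exact_mod_cast Nat.div_le_self K e
      linarith
  refine (sum_le_sum h3).trans (le_of_eq ?_)
  rw [sum_const, nsmul_eq_mul]

theorem sqrt_sum_sq_le {ι : Type*} (S : Finset ι) (x : ι → ℝ) (hx : ∀ i ∈ S, 0 ≤ x i) :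
    Real.sqrt (∑ i ∈ S, x i ^ 2) ≤ ∑ i ∈ S, x i := by
  have h0 : 0 ≤ ∑ i ∈ S, x i := sum_nonneg hx
  rw [Real.sqrt_le_left h0]
  exact sum_sq_le_sq_sum_of_nonneg hx

theorem sum_sqrt_rc (K H : ℕ) (T L : ℝ) (hT1 : 1 ≤ T) (hL1 : 1 ≤ L)
    (hT : ∀ d : ℕ, 0 < d → d ≤ (max K H) ^ 2 → (d.divisors.card : ℝ) ≤ T)
    (hK : 1 + Real.log K ≤ L) (hH : 1 + Real.log H ≤ L) :
    ∑ k ∈ Icc 1 K, Real.sqrt (rc k H) ≤ 9 * T ^ 2 * L ^ 2 * (K + K * Real.sqrt H + H) := by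
  have hHr : (0:ℝ) ≤ H := Nat.cast_nonneg _
  have hKr : (0:ℝ) ≤ K := Nat.cast_nonneg _
  have h1 : ∀ k ∈ Icc 1 K, Real.sqrt (rc k H) ≤ 1 + T * (3 * H * ∑ D ∈ Icc 1 H, (1 / (D:ℝ)) * ((Nat.gcd k (D ^ 2) : ℝ) / k)) +
      T * (2 * L * Real.sqrt H) := by
    intro k hk
    obtain ⟨hk1, hk2⟩ := mem_Icc.1 hk
    have hk0 : (0:ℝ) < k := by exact_mod_cast hk1
    have h2 := rc_le k H hk1 T (fun d hd => hT d (Nat.pos_of_dvd_of_pos hd (by positivity)) ((Nat.le_of_dvd (by positivity) hd).trans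
      (Nat.pow_le_pow_left (hk2.trans (le_max_left _ _)) 2)))
    have h3 : (rc k H : ℝ) ≤ 1 + (T * (3 * H * ∑ D ∈ Icc 1 H, (1 / (D:ℝ)) * ((Nat.gcd k (D ^ 2) : ℝ) / k))) ^ 2 +
        (T * (2 * L * Real.sqrt H)) ^ 2 := by
      refine h2.trans ?_
      rw [add_assoc]
      refine add_le_add le_rfl ?_
      have e1 : ∑ D ∈ Icc 1 H, (3 * ((H : ℝ) / D)) * (3 * ((H : ℝ) / D) * (Nat.gcd k (D ^ 2) : ℝ) ^ 2 / k ^ 2 + 1) =
          (3 * H) ^ 2 * ∑ D ∈ Icc 1 H, ((1 / (D:ℝ)) * ((Nat.gcd k (D ^ 2) : ℝ) / k)) ^ 2 + 3 * H * ∑ D ∈ Icc 1 H, 1 / (D : ℝ) := by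
        rw [mul_sum, mul_sum, ← sum_add_distrib]
        refine sum_congr rfl fun D hD => ?_
        have hD0 : (0:ℝ) < D := by exact_mod_cast (mem_Icc.1 hD).1
        field_simp
      rw [e1, mul_add]
      refine add_le_add ?_ ?_
      · have e6 : ∑ D ∈ Icc 1 H, ((1 / (D:ℝ)) * ((Nat.gcd k (D ^ 2) : ℝ) / k)) ^ 2 ≤
            (∑ D ∈ Icc 1 H, (1 / (D:ℝ)) * ((Nat.gcd k (D ^ 2) : ℝ) / k)) ^ 2 :=
          sum_sq_le_sq_sum_of_nonneg (f := fun D : ℕ => (1 / (D:ℝ)) * ((Nat.gcd k (D ^ 2) : ℝ) / k))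
            fun D _ => by positivity
        calc _ ≤ T ^ 2 * ((3 * (H:ℝ)) ^ 2 * (∑ D ∈ Icc 1 H, (1 / (D:ℝ)) * ((Nat.gcd k (D ^ 2) : ℝ) / k)) ^ 2) :=
              mul_le_mul_of_nonneg_left (mul_le_mul_of_nonneg_left e6 (by positivity)) (by positivity)
          _ = _ := by ring
      · rw [mul_pow, mul_pow, Real.sq_sqrt hHr]
        refine mul_le_mul_of_nonneg_left ?_ (by positivity)
        have e2 := (sum_inv_le H).trans hH
        calc 3 * (H:ℝ) * ∑ D ∈ Icc 1 H, 1 / (D : ℝ) ≤ 3 * H * L := mul_le_mul_of_nonneg_left e2 (by positivity)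
          _ ≤ (2 * L) ^ 2 * H := by
            have e3 : L ≤ L ^ 2 := by nlinarith
            have e4 : (H:ℝ) * L ≤ H * L ^ 2 := mul_le_mul_of_nonneg_left e3 hHr
            have e5 : 0 ≤ (H:ℝ) * L ^ 2 := by positivity
            nlinarith
    have hA : 0 ≤ T * (3 * H * ∑ D ∈ Icc 1 H, (1 / (D:ℝ)) * ((Nat.gcd k (D ^ 2) : ℝ) / k)) := by
      have : 0 ≤ ∑ D ∈ Icc 1 H, (1 / (D:ℝ)) * ((Nat.gcd k (D ^ 2) : ℝ) / k) := sum_nonneg fun _ _ => by positivity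
      positivity
    have hB : 0 ≤ T * (2 * L * Real.sqrt H) := by positivity
    rw [Real.sqrt_le_left (by positivity)]
    nlinarith
  refine (sum_le_sum h1).trans ?_
  rw [sum_add_distrib, sum_add_distrib, sum_const, sum_const, Nat.card_Icc, Nat.add_sub_cancel, ← mul_sum, ← mul_sum, sum_comm]
  have h4 : ∑ D ∈ Icc 1 H, ∑ k ∈ Icc 1 K, (1 / (D:ℝ)) * ((Nat.gcd k (D ^ 2) : ℝ) / k) ≤ T * L * L := by
    have h5 : ∀ D ∈ Icc 1 H, ∑ k ∈ Icc 1 K, (1 / (D:ℝ)) * ((Nat.gcd k (D ^ 2) : ℝ) / k) ≤ (1 / (D:ℝ)) * (T * L) := by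
      intro D hD
      obtain ⟨hD1, hD2⟩ := mem_Icc.1 hD
      rw [← mul_sum]
      refine mul_le_mul_of_nonneg_left ?_ (by positivity)
      refine (sum_gcd_le K (D ^ 2) (by positivity)).trans ?_
      have e1 : (((D ^ 2).divisors.card : ℕ) : ℝ) ≤ T :=
        hT _ (by positivity) (Nat.pow_le_pow_left (hD2.trans (le_max_right _ _)) 2)
      have e2 : 0 ≤ 1 + Real.log K := by
        rcases Nat.eq_zero_or_pos K with h1 | h1
        · rw [h1]; simp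
        · have : 0 ≤ Real.log K := Real.log_nonneg (by exact_mod_cast h1)
          linarith
      exact mul_le_mul e1 hK e2 (by positivity)
    refine (sum_le_sum h5).trans ?_
    rw [← sum_mul, mul_comm]
    exact mul_le_mul_of_nonneg_left ((sum_inv_le H).trans hH) (by positivity)
  have h6 : T * (3 * H * ∑ D ∈ Icc 1 H, ∑ k ∈ Icc 1 K, (1 / (D:ℝ)) * ((Nat.gcd k (D ^ 2) : ℝ) / k)) ≤ T * (3 * H * (T * L * L)) := by
    gcongr
  have hs := Real.sqrt_nonneg (H:ℝ)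
  simp only [nsmul_eq_mul, mul_one]
  have hT2 : 1 ≤ T ^ 2 := one_le_pow₀ hT1
  have hL2 : 1 ≤ L ^ 2 := one_le_pow₀ hL1
  have hTL : 1 ≤ T ^ 2 * L ^ 2 := by nlinarith
  have hTL2 : T * L ≤ T ^ 2 * L ^ 2 := by
    have : 1 ≤ T * L := by nlinarith
    nlinarith
  have e3 : (K : ℝ) ≤ 9 * T ^ 2 * L ^ 2 * K := by nlinarith
  have e4 : (K : ℝ) * (T * (2 * L * Real.sqrt H)) ≤ 9 * T ^ 2 * L ^ 2 * (K * Real.sqrt H) := by
    have : 0 ≤ (K : ℝ) * Real.sqrt H := by positivity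
    nlinarith
  have e5 : T * (3 * H * (T * L * L)) ≤ 9 * T ^ 2 * L ^ 2 * H := by
    have : 0 ≤ T ^ 2 * L ^ 2 * H := by positivity
    nlinarith
  linarith

end Pool.Agent.KS6_10
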