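import Pool.Graph.R_seed8.H31R2.DH.Back

/-!
# Detection of a zero by short Dirichlet polynomials, abstract form

The argument of the library file `H31R2.DH.Detect` for the zeta function, for a general function `f` with mollifier `g`.
-/

set_option autoImplicit false
set_option linter.unusedVariables false

open Complex Metric Set Filter Topology

namespace Pool.Agent.KS6_10

open DH31

/-- coefficients, a mollifier and the product of a function with the mollifier -/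
structure MD (Y : ℕ) (f g : ℂ → ℂ) (h : ℕ → ℂ) : Prop where
  df : Differentiable ℂ f
  dg : Differentiable ℂ g
  h0 : h 0 = 0
  h1 : h 1 = 1
  hz : ∀ n, 1 < n → n ≤ Y → h n = 0
  sum : ∀ s : ℂ, 1 < s.re → LSeriesSummable h s
  eq : ∀ s : ℂ, 1 < s.re → LSeries h s = f s * g s

/-- number of Taylor coefficients used -/
noncomputable def KK (δ η T : ℝ) : ℕ := ⌈6 * η / δ * Real.log T⌉₊ + 1

theorem ball_re_im {a t r : ℝ} {z : ℂ} (hz : z ∈ closedBall (⟨a, t⟩ : ℂ) r) :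
    a - r ≤ z.re ∧ z.re ≤ a + r ∧ |z.im - t| ≤ r := by
  rw [mem_closedBall, dist_eq_norm] at hz
  have h1 := Complex.abs_re_le_norm (z - ⟨a, t⟩)
  have h2 := Complex.abs_im_le_norm (z - ⟨a, t⟩)
  simp only [Complex.sub_re, Complex.sub_im] at h1 h2
  have h3 := abs_le.1 (h1.trans hz)
  exact ⟨by linarith [h3.1], by linarith [h3.2], h2.trans hz⟩

theorem lm_iter (f : ℕ → ℂ) (k n : ℕ) :
    (LSeries.logMul^[k] f) n = (Real.log n : ℂ) ^ k * f n := by
  induction k generalizing f with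
  | zero => simp
  | succ k ih =>
    rw [Function.iterate_succ, Function.comp_apply, ih]
    unfold LSeries.logMul
    rw [← Complex.natCast_log]
    ring

variable {Y : ℕ} {f g : ℂ → ℂ} {h : ℕ → ℂ}

theorem MD.absc (d : MD Y f g h) {s : ℂ} (hs : 1 < s.re) : LSeries.abscissaOfAbsConv h < s.re := by
  obtain ⟨x, hx1, hx2⟩ := exists_between hs
  have h1 : LSeriesSummable h (x : ℂ) := d.sum x (by simpa using hx1)
  refine (LSeriesSummable.abscissaOfAbsConv_le h1).trans_lt ?_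
  simp only [Complex.ofReal_re]
  exact_mod_cast hx2

/-- Taylor coefficients to the right of `1` -/
theorem MD.hasSum (d : MD Y f g h) (k : ℕ) {c : ℂ} (hc : 1 < c.re) :
    HasSum (fun n : ℕ => h n * (Real.log n : ℂ) ^ k * (n : ℂ) ^ (-c))
      ((-1) ^ k * (k.factorial : ℂ) * tc (fun s => f s * g s) c k) := by
  have h1 : (fun s => f s * g s) =ᶠ[𝓝 c] LSeries h := by
    have : {s : ℂ | 1 < s.re} ∈ 𝓝 c := (isOpen_lt continuous_const Complex.continuous_re).mem_nhds hc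
    filter_upwards [this] with s hs
    exact (d.eq s hs).symm
  have h2 : iteratedDeriv k (fun s => f s * g s) c =
      (-1) ^ k * LSeries (LSeries.logMul^[k] h) c := by
    rw [h1.iteratedDeriv_eq k, LSeries_iteratedDeriv k (d.absc hc)]
  have h3 : (-1) ^ k * (k.factorial : ℂ) * tc (fun s => f s * g s) c k =
      LSeries (LSeries.logMul^[k] h) c := by
    unfold tc
    rw [h2]
    have : (k.factorial : ℂ) ≠ 0 := by exact_mod_cast Nat.factorial_ne_zero k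
    have h4 : ((-1 : ℂ) ^ k) * (-1) ^ k = 1 := by rw [← mul_pow]; norm_num
    calc (-1) ^ k * (k.factorial : ℂ) * ((k.factorial : ℂ)⁻¹ * ((-1) ^ k *
        LSeries (LSeries.logMul^[k] h) c)) = ((-1) ^ k * (-1) ^ k) *
        ((k.factorial : ℂ) * (k.factorial : ℂ)⁻¹) * LSeries (LSeries.logMul^[k] h) c := by ring
      _ = _ := by rw [h4, mul_inv_cancel₀ this]; ring
  rw [h3]
  have h5 : LSeriesSummable (LSeries.logMul^[k] h) c := by
    apply LSeriesSummable_of_abscissaOfAbsConv_lt_re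
    rw [LSeries.absicssaOfAbsConv_logPowMul]
    exact d.absc hc
  have h6 := h5.LSeriesHasSum
  unfold LSeriesHasSum at h6
  convert! h6 using 1
  ext n
  rcases Nat.eq_zero_or_pos n with rfl | hn
  · simp [d.h0]
  · rw [LSeries.term_of_ne_zero (by omega), lm_iter, Complex.cpow_neg]
    ring

/-- the terms of the tail -/
theorem tail_term' {C δ : ℝ} (hδ : 0 < δ) {h : ℕ → ℂ}
    (hC : ∀ n : ℕ, 1 ≤ n → ‖h n‖ ≤ C * (n : ℝ) ^ (δ / 4 : ℝ))
    {k n : ℕ} (hn : 1 ≤ n) {ϱ : ℝ} (h0 : 0 ≤ ϱ) (h1 : ϱ ≤ 1) :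
    ‖h n‖ * (ϱ * Real.log n) ^ k / k.factorial * (n : ℝ) ^ (-(1 + δ) : ℝ) ≤
      C * (4 / δ) ^ k * (n : ℝ) ^ (-(1 + δ / 2) : ℝ) := by
  have hn1 : (1 : ℝ) ≤ n := by exact_mod_cast hn
  have hlog : 0 ≤ Real.log n := Real.log_nonneg hn1
  have e1 : (ϱ * Real.log n) ^ k / k.factorial ≤ (4 / δ) ^ k * (n : ℝ) ^ (δ / 4 : ℝ) := by
    have h2 := Real.pow_div_factorial_le_exp (ϱ * Real.log n * (δ / 4)) (by positivity) k
    have h3 : (ϱ * Real.log n) ^ k / k.factorial =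
        (4 / δ) ^ k * ((ϱ * Real.log n * (δ / 4)) ^ k / k.factorial) := by
      rw [mul_pow _ (δ / 4), div_pow, div_pow]
      field_simp
    rw [h3]
    have h4 : Real.exp (ϱ * Real.log n * (δ / 4)) ≤ (n : ℝ) ^ (δ / 4 : ℝ) := by
      rw [Real.rpow_def_of_pos (by linarith)]
      apply Real.exp_le_exp.2
      have : ϱ * Real.log n ≤ Real.log n := by nlinarith
      gcongr
    have h5 := h2.trans h4
    gcongr
  have e2 := hC n hn
  have hC0 : 0 ≤ C * (n : ℝ) ^ (δ / 4 : ℝ) := (norm_nonneg _).trans e2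
  calc ‖h n‖ * (ϱ * Real.log n) ^ k / k.factorial * (n : ℝ) ^ (-(1 + δ) : ℝ)
      = ‖h n‖ * ((ϱ * Real.log n) ^ k / k.factorial) * (n : ℝ) ^ (-(1 + δ) : ℝ) := by ring
    _ ≤ (C * (n : ℝ) ^ (δ / 4 : ℝ)) * ((4 / δ) ^ k * (n : ℝ) ^ (δ / 4 : ℝ)) *
        (n : ℝ) ^ (-(1 + δ) : ℝ) := by
        gcongr
    _ = C * (4 / δ) ^ k * ((n : ℝ) ^ (δ / 4 : ℝ) * (n : ℝ) ^ (δ / 4 : ℝ) *
        (n : ℝ) ^ (-(1 + δ) : ℝ)) := by ring
    _ = _ := by
        rw [← Real.rpow_add (by linarith), ← Real.rpow_add (by linarith)]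
        congr 2
        ring

/-- splitting of the Taylor coefficient -/
theorem split_coef' {C W δ : ℝ} (hδ : 0 < δ) (hC1 : 1 ≤ C) (d : MD Y f g h)
    (hC : ∀ n : ℕ, 1 ≤ n → ‖h n‖ ≤ C * (n : ℝ) ^ (δ / 4 : ℝ))
    (hW : HasSum (fun m : ℕ => 1 / (m : ℝ) ^ (1 + δ / 4 : ℝ)) W)
    {Z k : ℕ} (hX : 1 ≤ Y) (hXZ : Y ≤ Z) {ϱ γ : ℝ} (h0 : 0 ≤ ϱ) (h1 : ϱ ≤ 1) :
    ‖(((ϱ ^ k / k.factorial : ℝ) : ℂ)) * ((-1) ^ k * (k.factorial : ℂ) *
        tc (fun s => f s * g s) ⟨1 + δ, γ⟩ k) - (if k = 0 then 1 else 0) -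
      ((ϱ ^ k / k.factorial : ℝ) : ℂ) * ∑ n ∈ Finset.Ioc Y Z, h n * (Real.log n : ℂ) ^ k *
        (n : ℂ) ^ (-(⟨1 + δ, γ⟩ : ℂ))‖ ≤ C * (4 / δ) ^ k * W * (Z : ℝ) ^ (-(δ / 4) : ℝ) := by
  set c : ℂ := ⟨1 + δ, γ⟩ with hc
  have hs := d.hasSum k (c := c) (by simp [hc, hδ])
  set S := (-1) ^ k * (k.factorial : ℂ) * tc (fun s => f s * g s) c k with hS
  set u : ℕ → ℂ := fun n => h n * (Real.log n : ℂ) ^ k * (n : ℂ) ^ (-c) with hu
  have h2 : HasSum (fun n => u (n + (Z + 1))) (S - ∑ n ∈ Finset.range (Z + 1), u n) :=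
    (hasSum_nat_add_iff' (Z + 1)).2 hs
  have hZ1 : 1 ≤ Z := hX.trans hXZ
  -- the finite sum
  have h3 : ∑ n ∈ Finset.range (Z + 1), u n = (if k = 0 then 1 else 0) +
      ∑ n ∈ Finset.Ioc Y Z, u n := by
    have e1 : Finset.range (Z + 1) = (Finset.range (Y + 1)) ∪ (Finset.Ioc Y Z) := by
      ext n
      simp only [Finset.mem_range, Finset.mem_union, Finset.mem_Ioc]
      omega
    have e2 : Disjoint (Finset.range (Y + 1)) (Finset.Ioc Y Z) := by
      rw [Finset.disjoint_left]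
      intro n
      simp only [Finset.mem_range, Finset.mem_Ioc]
      omega
    rw [e1, Finset.sum_union e2]
    congr 1
    rw [Finset.sum_eq_single 1]
    · simp only [hu]
      rw [d.h1]
      by_cases hk : k = 0
      · simp [hk]
      · simp [hk]
    · intro n hn hn1
      simp only [Finset.mem_range] at hn
      rcases Nat.eq_zero_or_pos n with rfl | hp
      · simp [hu, d.h0]
      · simp only [hu]
        rw [d.hz n (by omega) (by omega)]
        simp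
    · intro hn
      exfalso
      apply hn
      simp only [Finset.mem_range]
      omega
  -- the tail
  have h4 : ‖(((ϱ ^ k / k.factorial : ℝ) : ℂ)) * (S - ∑ n ∈ Finset.range (Z + 1), u n)‖ ≤
      C * (4 / δ) ^ k * W * (Z : ℝ) ^ (-(δ / 4) : ℝ) := by
    have h5 := h2.mul_left (((ϱ ^ k / k.factorial : ℝ) : ℂ))
    have hW2 : HasSum (fun n : ℕ => 1 / ((n + (Z + 1) : ℕ) : ℝ) ^ (1 + δ / 4 : ℝ))
        (W - ∑ m ∈ Finset.range (Z + 1), 1 / (m : ℝ) ^ (1 + δ / 4 : ℝ)) :=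
      (hasSum_nat_add_iff' (Z + 1)).2 hW
    have hW3 := hW2.mul_left (C * (4 / δ) ^ k * (Z : ℝ) ^ (-(δ / 4) : ℝ))
    rw [← h5.tsum_eq]
    refine (tsum_of_norm_bounded hW3 ?_).trans ?_
    · intro n
      set m := n + (Z + 1) with hm
      have hm1 : 1 ≤ m := by omega
      have hmr : (1 : ℝ) ≤ m := by exact_mod_cast hm1
      have hlog : 0 ≤ Real.log m := Real.log_nonneg hmr
      have e1 := tail_term' hδ hC (k := k) hm1 h0 h1
      have e2 : ‖(((ϱ ^ k / k.factorial : ℝ) : ℂ)) * u m‖ =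
          ‖h m‖ * (ϱ * Real.log m) ^ k / k.factorial * (m : ℝ) ^ (-(1 + δ) : ℝ) := by
        simp only [hu]
        rw [norm_mul, norm_mul, norm_mul, Complex.norm_real, Real.norm_of_nonneg (by positivity),
          norm_pow, Complex.norm_real, Real.norm_of_nonneg hlog,
          Complex.norm_natCast_cpow_of_pos hm1, mul_pow]
        simp only [hc, Complex.neg_re]
        ring
      rw [e2]
      refine e1.trans ?_
      have e3 : (m : ℝ) ^ (-(1 + δ / 2) : ℝ) =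
          (m : ℝ) ^ (-(δ / 4) : ℝ) * (1 / (m : ℝ) ^ (1 + δ / 4 : ℝ)) := by
        have e7 : 1 / (m : ℝ) ^ (1 + δ / 4 : ℝ) = (m : ℝ) ^ (-(1 + δ / 4) : ℝ) := by
          rw [Real.rpow_neg (by linarith), one_div]
        rw [e7, ← Real.rpow_add (by linarith)]
        congr 1
        ring
      rw [e3]
      have e4 : (m : ℝ) ^ (-(δ / 4) : ℝ) ≤ (Z : ℝ) ^ (-(δ / 4) : ℝ) := by
        apply Real.rpow_le_rpow_of_nonpos (by exact_mod_cast hZ1) _ (by linarith)
        have : Z ≤ m := by omega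
        exact_mod_cast this
      have e5 : 0 ≤ 1 / (m : ℝ) ^ (1 + δ / 4 : ℝ) := by positivity
      calc C * (4 / δ) ^ k * ((m : ℝ) ^ (-(δ / 4) : ℝ) * (1 / (m : ℝ) ^ (1 + δ / 4 : ℝ)))
          ≤ C * (4 / δ) ^ k * ((Z : ℝ) ^ (-(δ / 4) : ℝ) * (1 / (m : ℝ) ^ (1 + δ / 4 : ℝ))) := by
            gcongr
        _ = _ := by ring
    · have e6 : W - ∑ m ∈ Finset.range (Z + 1), 1 / (m : ℝ) ^ (1 + δ / 4 : ℝ) ≤ W := by
        have : 0 ≤ ∑ m ∈ Finset.range (Z + 1), 1 / (m : ℝ) ^ (1 + δ / 4 : ℝ) :=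
          Finset.sum_nonneg fun m _ => by positivity
        linarith
      calc C * (4 / δ) ^ k * (Z : ℝ) ^ (-(δ / 4) : ℝ) *
            (W - ∑ m ∈ Finset.range (Z + 1), 1 / (m : ℝ) ^ (1 + δ / 4 : ℝ))
          ≤ C * (4 / δ) ^ k * (Z : ℝ) ^ (-(δ / 4) : ℝ) * W := by gcongr
        _ = _ := by ring
  rw [h3] at h4
  have h6 : (((ϱ ^ k / k.factorial : ℝ) : ℂ)) * S - (if k = 0 then 1 else 0) -
      ((ϱ ^ k / k.factorial : ℝ) : ℂ) * ∑ n ∈ Finset.Ioc Y Z, u n =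
      (((ϱ ^ k / k.factorial : ℝ) : ℂ)) * (S - ((if k = 0 then 1 else 0) +
      ∑ n ∈ Finset.Ioc Y Z, u n)) := by
    by_cases hk : k = 0
    · subst hk; simp; ring
    · simp only [hk, if_false]; ring
  rw [h6]
  exact h4


end Pool.Agent.KS6_10
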