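import Pool.Agent.KS6_10.Ids2

/-!
# The coefficients of the L-series, periodicity and twisting in the family of all curves
-/

set_option autoImplicit false
set_option linter.unusedVariables false

namespace Pool.Agent.KS6_10

open Finset ArithmeticFunction
open scoped ArithmeticFunction NumberTheorySymbols

/-- the Hecke recursion -/
noncomputable def hk (t q : ℂ) : ℕ → ℂ
  | 0 => 1
  | 1 => t
  | (k + 2) => t * hk t q (k + 1) - q * hk t q k

open Classical in
/-- local values of the L-series over the good primes -/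
noncomputable def wa (a b : ℤ) (p k : ℕ) : ℂ :=
  if k = 0 then 1 else if Gd a b p then hk (-(SS p a b : ℂ)) p k else 0

/-- the coefficients of the L-series over the good primes -/
noncomputable def af (a b : ℤ) : ArithmeticFunction ℂ := mulf (wa a b)

theorem wa_zero (a b : ℤ) (p : ℕ) : wa a b p 0 = 1 := by unfold wa; simp

theorem af_isMul (a b : ℤ) : (af a b).IsMultiplicative := mulf_isMul _

theorem af_pp (a b : ℤ) {p : ℕ} (hp : p.Prime) (k : ℕ) : af a b (p ^ k) = wa a b p k := mulf_prime_pow (wa_zero a b) hp k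

theorem qf_pp (a b : ℤ) {p : ℕ} (hp : p.Prime) (k : ℕ) : qf a b (p ^ k) = wq a b p k := mulf_prime_pow (wq_zero a b) hp k

theorem Gd_ne_two {a b : ℤ} {p : ℕ} (h : Gd a b p) : p ≠ 2 := by
  rintro rfl
  exact h (dvd_mul_of_dvd_left (by norm_num) _)

theorem af_mul_qf (a b : ℤ) : af a b * qf a b = 1 := by
  classical
  have hm : (af a b * qf a b).IsMultiplicative := (af_isMul a b).mul (qf_isMul a b)
  rw [(IsMultiplicative.eq_iff_eq_on_prime_powers _ hm _ isMultiplicative_one)]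
  intro p k hp
  rcases Nat.eq_zero_or_pos k with rfl | hk0
  · simp [hm.map_one]
  rw [one_apply_ne (by
    intro h
    have := Nat.one_lt_pow hk0.ne' hp.one_lt
    omega), conv_prime_pow _ _ hp]
  have e : ∀ i ∈ range (k + 1), af a b (p ^ i) * qf a b (p ^ (k - i)) = wa a b p i * wq a b p (k - i) := fun i _ => by
    rw [af_pp a b hp, qf_pp a b hp]
  rw [sum_congr rfl e]
  by_cases hg : Gd a b p
  · rcases k with _ | k
    · omega
    rcases k with _ | k
    · rw [sum_range_succ, sum_range_succ, sum_range_zero]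
      simp [wa, wq, hg, hk]
    · rw [sum_range_succ, sum_range_succ, sum_range_succ, sum_eq_zero (fun i hi => by
        have hi' := mem_range.1 hi
        have h0 : k + 1 + 1 - i ≠ 0 := by omega
        have h1 : k + 1 + 1 - i ≠ 1 := by omega
        have h2 : k + 1 + 1 - i ≠ 2 := by omega
        unfold wq
        rw [if_neg h0, if_pos hg, if_neg h1, if_neg h2, mul_zero])]
      have e0 : k + 1 + 1 - k = 2 := by omega
      have e1 : k + 1 + 1 - (k + 1) = 1 := by omega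
      have e2 : k + 1 + 1 - (k + 1 + 1) = 0 := by omega
      rw [e0, e1, e2]
      have f0 : wa a b p k = hk (-(SS p a b : ℂ)) p k := by
        unfold wa
        by_cases hk0 : k = 0
        · subst hk0; simp [hk]
        · rw [if_neg hk0, if_pos hg]
      have f1 : wa a b p (k + 1) = hk (-(SS p a b : ℂ)) p (k + 1) := by
        unfold wa
        rw [if_neg (by omega), if_pos hg]
      have f2 : wa a b p (k + 1 + 1) = hk (-(SS p a b : ℂ)) p (k + 1 + 1) := by
        unfold wa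
        rw [if_neg (by omega), if_pos hg]
      have g2 : wq a b p 2 = p := by unfold wq; simp [hg]
      have g1 : wq a b p 1 = SS p a b := by unfold wq; simp [hg]
      rw [f0, f1, f2, g2, g1, wq_zero]
      show 0 + hk (-(SS p a b : ℂ)) p k * (p:ℂ) + hk (-(SS p a b : ℂ)) p (k + 1) * (SS p a b : ℂ) +
        (-(SS p a b : ℂ) * hk (-(SS p a b : ℂ)) p (k + 1) - p * hk (-(SS p a b : ℂ)) p k) * 1 = 0
      ring
  · refine sum_eq_zero fun i hi => ?_
    have hi' := mem_range.1 hi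
    rcases Nat.eq_zero_or_pos i with rfl | hi0
    · unfold wq
      rw [if_neg (by omega), if_neg hg, mul_zero]
    · unfold wa
      rw [if_neg (by omega), if_neg hg, zero_mul]

/-- the bound of Hasse for the local values -/
theorem wa_le {p : ℕ} (hp : p.Prime) (a b : ℤ) (k : ℕ) : ‖wa a b p k‖ ≤ ((k:ℝ) + 1) * Real.sqrt p ^ k := by
  classical
  have hp0 : (0:ℝ) < p := by exact_mod_cast hp.pos
  unfold wa
  split_ifs with h0 hg
  · subst h0; simp
  · have h1 := SS_prime hp (Gd_ne_two hg) a b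
    have h2 : |(-(SS p a b : ℝ))| ≤ 2 * Real.sqrt p := by rwa [abs_neg]
    obtain ⟨α, β, e1, e2, e3, e4⟩ := roots_cx hp0 h2
    refine rec_bound (u := fun k => hk (-(SS p a b : ℂ)) p k) (α := α) (β := β) rfl ?_ (fun k => ?_) e1.le e2.le k
    · show -(SS p a b : ℂ) = α + β
      rw [e3]; push_cast; ring
    · show -(SS p a b : ℂ) * hk _ _ (k + 1) - p * hk _ _ k = _
      rw [e3, e4]; push_cast; ring
  · rw [norm_zero]; positivity

theorem wq_le {p : ℕ} (hp : p.Prime) (a b : ℤ) (k : ℕ) : ‖wq a b p k‖ ≤ ((k:ℝ) + 1) * Real.sqrt p ^ k := by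
  classical
  have hp0 : (0:ℝ) < p := by exact_mod_cast hp.pos
  unfold wq
  split_ifs with h0 hg h1 h2
  · subst h0; simp
  · subst h1
    rw [Complex.norm_intCast, pow_one]
    have := SS_prime hp (Gd_ne_two hg) a b
    push_cast
    linarith
  · subst h2
    rw [Complex.norm_natCast, Real.sq_sqrt hp0.le]
    push_cast
    nlinarith
  · rw [norm_zero]; positivity
  · rw [norm_zero]; positivity

/-- a multiplicative function bounded on prime powers -/
theorem mul_le_card {f : ArithmeticFunction ℂ} (hf : f.IsMultiplicative)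
    (h : ∀ p k : ℕ, p.Prime → ‖f (p ^ k)‖ ≤ ((k:ℝ) + 1) * Real.sqrt p ^ k) (n : ℕ) :
    ‖f n‖ ≤ (n.divisors.card : ℝ) * Real.sqrt n := by
  induction n using Nat.recOnPosPrimePosCoprime with
  | prime_pow p n hp hn =>
    rw [Nat.divisors_prime_pow hp, card_map, card_range]
    refine (h p n hp).trans (le_of_eq ?_)
    push_cast
    have e : Real.sqrt ((p:ℝ) ^ n) = Real.sqrt p ^ n := by
      rw [← Real.sqrt_sq (by positivity : (0:ℝ) ≤ Real.sqrt p ^ n)]
      congr 1
      rw [← pow_mul, mul_comm, pow_mul, Real.sq_sqrt (by positivity)]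
    rw [e]
  | zero => simp
  | one => simp [hf.map_one]
  | coprime a b ha hb hab iha ihb =>
    rw [hf.map_mul_of_coprime hab, norm_mul, hab.card_divisors_mul]
    push_cast
    rw [Real.sqrt_mul (by positivity)]
    calc ‖f a‖ * ‖f b‖ ≤ ((a.divisors.card : ℝ) * Real.sqrt a) * ((b.divisors.card : ℝ) * Real.sqrt b) :=
          mul_le_mul iha ihb (norm_nonneg _) (by positivity)
      _ = _ := by ring

theorem af_le (a b : ℤ) (n : ℕ) : ‖af a b n‖ ≤ (n.divisors.card : ℝ) * Real.sqrt n :=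
  mul_le_card (af_isMul a b) (fun p k hp => by rw [af_pp a b hp]; exact wa_le hp a b k) n

theorem qf_le (a b : ℤ) (n : ℕ) : ‖qf a b n‖ ≤ (n.divisors.card : ℝ) * Real.sqrt n :=
  mul_le_card (qf_isMul a b) (fun p k hp => by rw [qf_pp a b hp]; exact wq_le hp a b k) n

/-! ### periodicity and twisting -/

theorem Gd_congr {a b a' b' : ℤ} {p : ℕ} (ha : (p:ℤ) ∣ a' - a) (hb : (p:ℤ) ∣ b' - b) : Gd a' b' p ↔ Gd a b p := by
  unfold Gd
  rw [not_iff_not]
  refine dvd_iff_dvd_of_dvd_sub ?_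
  have e : 2 * (4 * a' ^ 3 + 27 * b' ^ 2) - 2 * (4 * a ^ 3 + 27 * b ^ 2) =
      (a' - a) * (8 * (a' ^ 2 + a' * a + a ^ 2)) + (b' - b) * (54 * (b' + b)) := by ring
  rw [e]
  exact dvd_add (ha.mul_right _) (hb.mul_right _)

theorem SS_congr {a b a' b' : ℤ} {p : ℕ} (ha : (p:ℤ) ∣ a' - a) (hb : (p:ℤ) ∣ b' - b) : SS p a' b' = SS p a b := by
  obtain ⟨s, hs⟩ := ha
  obtain ⟨t, ht⟩ := hb
  have := SS_periodic p p dvd_rfl a b s t
  rw [← this]
  congr 1 <;> linarith

theorem wa_congr {a b a' b' : ℤ} {p : ℕ} (ha : (p:ℤ) ∣ a' - a) (hb : (p:ℤ) ∣ b' - b) (k : ℕ) : wa a' b' p k = wa a b p k := by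
  classical
  unfold wa
  rw [SS_congr ha hb]
  simp only [Gd_congr ha hb]

theorem wq_congr {a b a' b' : ℤ} {p : ℕ} (ha : (p:ℤ) ∣ a' - a) (hb : (p:ℤ) ∣ b' - b) (k : ℕ) : wq a' b' p k = wq a b p k := by
  classical
  unfold wq
  rw [SS_congr ha hb]
  simp only [Gd_congr ha hb]

theorem mulf_congr {w w' : ℕ → ℕ → ℂ} {n : ℕ} (h : ∀ p k, p.Prime → p ∣ n → w' p k = w p k) : mulf w' n = mulf w n := by
  rcases Nat.eq_zero_or_pos n with rfl | hn
  · simp
  rw [mulf_apply w' hn.ne', mulf_apply w hn.ne']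
  unfold Finsupp.prod
  refine prod_congr rfl fun p hp => ?_
  rw [Nat.support_factorization] at hp
  exact h p _ (Nat.prime_of_mem_primeFactors hp) (Nat.dvd_of_mem_primeFactors hp)

theorem af_congr {a b a' b' : ℤ} {n P : ℕ} (hn : n ∣ P) (ha : (P:ℤ) ∣ a' - a) (hb : (P:ℤ) ∣ b' - b) : af a' b' n = af a b n := by
  refine mulf_congr fun p k hp hpn => ?_
  have h : (p:ℤ) ∣ P := by exact_mod_cast hpn.trans hn
  exact wa_congr (h.trans ha) (h.trans hb) k

theorem qf_congr {a b a' b' : ℤ} {n P : ℕ} (hn : n ∣ P) (ha : (P:ℤ) ∣ a' - a) (hb : (P:ℤ) ∣ b' - b) : qf a' b' n = qf a b n := by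
  refine mulf_congr fun p k hp hpn => ?_
  have h : (p:ℤ) ∣ P := by exact_mod_cast hpn.trans hn
  exact wq_congr (h.trans ha) (h.trans hb) k

theorem Gd_twist {a b g : ℤ} {p : ℕ} (hp : p.Prime) (hg : ¬ (p:ℤ) ∣ g) : Gd (a * g ^ 2) (b * g ^ 3) p ↔ Gd a b p := by
  unfold Gd
  rw [not_iff_not]
  have e : 2 * (4 * (a * g ^ 2) ^ 3 + 27 * (b * g ^ 3) ^ 2) = 2 * (4 * a ^ 3 + 27 * b ^ 2) * g ^ 6 := by ring
  rw [e]
  have hp' : Prime (p:ℤ) := Nat.prime_iff_prime_int.1 hp
  constructor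
  · intro h
    rcases hp'.dvd_or_dvd h with h1 | h1
    · exact h1
    · exact absurd (hp'.dvd_of_dvd_pow h1) hg
  · exact fun h => h.mul_right _

theorem hk_twist (χ t q : ℂ) (hχ : χ ^ 2 = 1) (k : ℕ) : hk (χ * t) q k = χ ^ k * hk t q k ∧ hk (χ * t) q (k + 1) = χ ^ (k + 1) * hk t q (k + 1) := by
  induction k with
  | zero => simp [hk]
  | succ k ih =>
    refine ⟨ih.2, ?_⟩
    show (χ * t) * hk (χ * t) q (k + 1) - q * hk (χ * t) q k = χ ^ (k + 1 + 1) * (t * hk t q (k + 1) - q * hk t q k)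
    rw [ih.1, ih.2]
    linear_combination (χ ^ k * q * hk t q k) * hχ

theorem sz_twist (m : ℕ) [NeZero m] (u : (ZMod m)ˣ) (α β : ZMod m) :
    sz m (α * (u : ZMod m) ^ 2) (β * (u : ZMod m) ^ 3) = jac m u * sz m α β := by
  unfold sz
  rw [mul_sum, ← Equiv.sum_comp (Units.mulLeft u)]
  refine sum_congr rfl fun x _ => ?_
  have e : (Units.mulLeft u x) ^ 3 + α * (u : ZMod m) ^ 2 * (Units.mulLeft u x) + β * (u : ZMod m) ^ 3 =
      (u * (u * u)) * (x ^ 3 + α * x + β) := by
    simp only [Units.mulLeft_apply]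
    ring
  rw [e, jac_mul, jac_mul, jac_mul, jac_unit u.isUnit, mul_one]

theorem SS_twist {n : ℕ} (hn : 0 < n) {g : ℤ} (hg : Int.gcd g n = 1) (a b : ℤ) :
    SS n (a * g ^ 2) (b * g ^ 3) = jacobiSym g n * SS n a b := by
  have : NeZero n := ⟨hn.ne'⟩
  rw [SS_eq, SS_eq]
  have hu : IsUnit ((g : ℤ) : ZMod n) := by
    rw [ZMod.coe_int_isUnit_iff_isCoprime]
    rw [Int.isCoprime_iff_gcd_eq_one, Int.gcd_comm]
    exact hg
  obtain ⟨u, hu⟩ := hu
  have := sz_twist n u (a : ZMod n) (b : ZMod n)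
  rw [hu, jac_int] at this
  push_cast
  exact this

theorem gcd_prime {p : ℕ} (hp : p.Prime) {g : ℤ} (hg : ¬ (p:ℤ) ∣ g) : Int.gcd g p = 1 := by
  rw [Int.gcd_comm, Int.gcd_eq_natAbs, Int.natAbs_natCast]
  rw [← Nat.coprime_iff_gcd_eq_one, hp.coprime_iff_not_dvd]
  rwa [Int.natCast_dvd] at hg

theorem wa_twist {a b g : ℤ} {p : ℕ} (hp : p.Prime) (hg : ¬ (p:ℤ) ∣ g) (k : ℕ) :
    wa (a * g ^ 2) (b * g ^ 3) p k = (jacobiSym g p : ℂ) ^ k * wa a b p k := by
  classical
  have hχ : (jacobiSym g p : ℂ) ^ 2 = 1 := by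
    have := jacobiSym.sq_one (a := g) (b := p) (gcd_prime hp hg)
    exact_mod_cast this
  unfold wa
  simp only [Gd_twist hp hg]
  split_ifs with h0 h1
  · subst h0; simp
  · rw [SS_twist hp.pos (gcd_prime hp hg)]
    push_cast
    rw [← mul_neg]
    exact (hk_twist _ _ _ hχ k).1
  · simp

theorem wq_twist {a b g : ℤ} {p : ℕ} (hp : p.Prime) (hg : ¬ (p:ℤ) ∣ g) (k : ℕ) :
    wq (a * g ^ 2) (b * g ^ 3) p k = (jacobiSym g p : ℂ) ^ k * wq a b p k := by
  classical
  have hχ : (jacobiSym g p : ℂ) ^ 2 = 1 := by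
    have := jacobiSym.sq_one (a := g) (b := p) (gcd_prime hp hg)
    exact_mod_cast this
  unfold wq
  simp only [Gd_twist hp hg]
  split_ifs with h0 h1 h2 h3
  · subst h0; simp
  · subst h2
    rw [SS_twist hp.pos (gcd_prime hp hg)]
    push_cast
    ring
  · subst h3
    rw [hχ, one_mul]
  · simp
  · simp

theorem mulf_twist {w w' : ℕ → ℕ → ℂ} (hw : ∀ p, w p 0 = 1) (hw' : ∀ p, w' p 0 = 1) {g : ℤ}
    (h : ∀ p k : ℕ, p.Prime → ¬ (p:ℤ) ∣ g → w' p k = (jacobiSym g p : ℂ) ^ k * w p k) {n : ℕ} (hg : Int.gcd g n = 1) :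
    mulf w' n = (jacobiSym g n : ℂ) * mulf w n := by
  induction n using Nat.recOnPosPrimePosCoprime with
  | prime_pow p n hp hn =>
    have hpg : ¬ (p:ℤ) ∣ g := by
      intro hd
      have h1 : (p:ℤ) ∣ Int.gcd g ((p ^ n : ℕ) : ℤ) := Int.dvd_coe_gcd hd (by push_cast; exact dvd_pow_self _ hn.ne')
      rw [hg] at h1
      have h2 : p ∣ 1 := by exact_mod_cast h1
      exact hp.one_lt.ne' (Nat.dvd_one.1 h2)
    rw [mulf_prime_pow hw' hp, mulf_prime_pow hw hp, h p n hp hpg, jacobiSym.pow_right]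
    push_cast
    ring
  | zero => simp
  | one => simp [(mulf_isMul w).map_one, (mulf_isMul w').map_one]
  | coprime a b ha hb hab iha ihb =>
    have h1 : Int.gcd g a = 1 := by
      have : Int.gcd g a ∣ Int.gcd g ((a * b : ℕ) : ℤ) := by
        push_cast
        exact Int.gcd_dvd_gcd_mul_right_right _ _ _
      rw [hg] at this
      exact Nat.dvd_one.1 this
    have h2 : Int.gcd g b = 1 := by
      have : Int.gcd g b ∣ Int.gcd g ((a * b : ℕ) : ℤ) := by
        push_cast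
        exact Int.gcd_dvd_gcd_mul_left_right _ _ _
      rw [hg] at this
      exact Nat.dvd_one.1 this
    have : NeZero a := ⟨by omega⟩
    have : NeZero b := ⟨by omega⟩
    rw [(mulf_isMul w').map_mul_of_coprime hab, (mulf_isMul w).map_mul_of_coprime hab, iha h1, ihb h2, jacobiSym.mul_right]
    push_cast
    ring

theorem af_twist {a b g : ℤ} {n : ℕ} (hg : Int.gcd g n = 1) :
    af (a * g ^ 2) (b * g ^ 3) n = (jacobiSym g n : ℂ) * af a b n :=
  mulf_twist (wa_zero a b) (wa_zero _ _) (fun p k hp hpg => wa_twist hp hpg k) hg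

theorem qf_twist {a b g : ℤ} {n : ℕ} (hg : Int.gcd g n = 1) :
    qf (a * g ^ 2) (b * g ^ 3) n = (jacobiSym g n : ℂ) * qf a b n :=
  mulf_twist (wq_zero a b) (wq_zero _ _) (fun p k hp hpg => wq_twist hp hpg k) hg

/-- the truncated coefficients of the inverse -/
noncomputable def tq (Y : ℕ) (a b : ℤ) : ArithmeticFunction ℂ := ⟨fun n => if n ≤ Y then qf a b n else 0, by simp⟩

theorem tq_apply (Y : ℕ) (a b : ℤ) (n : ℕ) : tq Y a b n = if n ≤ Y then qf a b n else 0 := rfl

/-- the coefficients of the mollified L-series -/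
noncomputable def hh (Y : ℕ) (a b : ℤ) : ArithmeticFunction ℂ := tq Y a b * af a b

theorem hh_apply (Y : ℕ) (a b : ℤ) (n : ℕ) : hh Y a b n = ∑ x ∈ n.divisorsAntidiagonal, tq Y a b x.1 * af a b x.2 := rfl

theorem hh_one {Y : ℕ} (hY : 1 ≤ Y) (a b : ℤ) : hh Y a b 1 = 1 := by
  rw [hh_apply]
  simp [tq_apply, hY, (qf_isMul a b).map_one, (af_isMul a b).map_one]

theorem hh_zero' {Y n : ℕ} (h1 : 1 < n) (hn : n ≤ Y) (a b : ℤ) : hh Y a b n = 0 := by
  have h2 : hh Y a b n = (af a b * qf a b) n := by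
    rw [mul_comm (af a b), hh_apply, ArithmeticFunction.mul_apply]
    refine sum_congr rfl fun x hx => ?_
    rw [tq_apply, if_pos]
    have := Nat.mem_divisorsAntidiagonal.1 hx
    exact (Nat.le_of_dvd (by omega) ⟨x.2, this.1.symm⟩).trans hn
  rw [h2, af_mul_qf, one_apply_ne (by omega)]

theorem hh_congr {Y : ℕ} {a b a' b' : ℤ} {n P : ℕ} (hn : n ∣ P) (ha : (P:ℤ) ∣ a' - a) (hb : (P:ℤ) ∣ b' - b) :
    hh Y a' b' n = hh Y a b n := by
  rw [hh_apply, hh_apply]
  refine sum_congr rfl fun x hx => ?_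
  have hx' := (Nat.mem_divisorsAntidiagonal.1 hx).1
  have h1 : x.1 ∣ P := (Dvd.intro _ hx').trans hn
  have h2 : x.2 ∣ P := (Dvd.intro_left _ hx').trans hn
  rw [tq_apply, tq_apply, af_congr h2 ha hb, qf_congr h1 ha hb]

theorem hh_twist {Y : ℕ} {a b g : ℤ} {n : ℕ} (hg : Int.gcd g n = 1) :
    hh Y (a * g ^ 2) (b * g ^ 3) n = (jacobiSym g n : ℂ) * hh Y a b n := by
  rcases Nat.eq_zero_or_pos n with rfl | hn
  · simp
  rw [hh_apply, hh_apply, mul_sum]
  refine sum_congr rfl fun x hx => ?_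
  have hx' := (Nat.mem_divisorsAntidiagonal.1 hx).1
  have hx1 : x.1 ≠ 0 := by rintro h; rw [h, zero_mul] at hx'; omega
  have hx2 : x.2 ≠ 0 := by rintro h; rw [h, mul_zero] at hx'; omega
  have h1 : Int.gcd g x.1 = 1 := by
    have : Int.gcd g x.1 ∣ Int.gcd g n := by
      rw [← hx']; push_cast
      exact Int.gcd_dvd_gcd_mul_right_right _ _ _
    rw [hg] at this
    exact Nat.dvd_one.1 this
  have h2 : Int.gcd g x.2 = 1 := by
    have : Int.gcd g x.2 ∣ Int.gcd g n := by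
      rw [← hx']; push_cast
      exact Int.gcd_dvd_gcd_mul_left_right _ _ _
    rw [hg] at this
    exact Nat.dvd_one.1 this
  have : NeZero x.1 := ⟨hx1⟩
  have : NeZero x.2 := ⟨hx2⟩
  rw [tq_apply, tq_apply, af_twist h2, qf_twist h1, ← hx', jacobiSym.mul_right]
  push_cast
  split_ifs <;> ring

theorem hh_le (Y : ℕ) (a b : ℤ) (n : ℕ) : ‖hh Y a b n‖ ≤ (n.divisors.card : ℝ) ^ 3 * Real.sqrt n := by
  rcases Nat.eq_zero_or_pos n with rfl | hn
  · simp
  rw [hh_apply]
  refine (norm_sum_le _ _).trans ?_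
  have key : ∀ x ∈ n.divisorsAntidiagonal, ‖tq Y a b x.1 * af a b x.2‖ ≤ (n.divisors.card : ℝ) ^ 2 * Real.sqrt n := fun x hx => by
    have hx' := (Nat.mem_divisorsAntidiagonal.1 hx).1
    have h1 : (x.1.divisors.card : ℝ) ≤ n.divisors.card := by
      exact_mod_cast card_le_card (Nat.divisors_subset_of_dvd hn.ne' (Dvd.intro _ hx'))
    have h2 : (x.2.divisors.card : ℝ) ≤ n.divisors.card := by
      exact_mod_cast card_le_card (Nat.divisors_subset_of_dvd hn.ne' (Dvd.intro_left _ hx'))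
    have h3 : ‖tq Y a b x.1‖ ≤ (x.1.divisors.card : ℝ) * Real.sqrt x.1 := by
      rw [tq_apply]
      split_ifs
      · exact qf_le a b x.1
      · rw [norm_zero]; positivity
    rw [norm_mul]
    calc ‖tq Y a b x.1‖ * ‖af a b x.2‖ ≤ ((x.1.divisors.card : ℝ) * Real.sqrt x.1) * ((x.2.divisors.card : ℝ) * Real.sqrt x.2) :=
          mul_le_mul h3 (af_le a b x.2) (norm_nonneg _) (by positivity)
      _ = ((x.1.divisors.card : ℝ) * x.2.divisors.card) * (Real.sqrt x.1 * Real.sqrt x.2) := by ring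
      _ = ((x.1.divisors.card : ℝ) * x.2.divisors.card) * Real.sqrt n := by
          rw [← Real.sqrt_mul (by positivity)]
          congr 2
          exact_mod_cast hx'
      _ ≤ ((n.divisors.card : ℝ) * n.divisors.card) * Real.sqrt n := by gcongr
      _ = _ := by ring
  refine (sum_le_sum key).trans ?_
  rw [sum_const, nsmul_eq_mul]
  have : n.divisorsAntidiagonal.card = n.divisors.card := by
    rw [← Nat.map_div_right_divisors, card_map]
  rw [this]
  exact le_of_eq (by ring)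

/-! ### the values are real -/

theorem conj_hk {t q : ℂ} (ht : (starRingEnd ℂ) t = t) (hq : (starRingEnd ℂ) q = q) (k : ℕ) :
    (starRingEnd ℂ) (hk t q k) = hk t q k ∧ (starRingEnd ℂ) (hk t q (k + 1)) = hk t q (k + 1) := by
  induction k with
  | zero => simp [hk, ht]
  | succ k ih =>
    refine ⟨ih.2, ?_⟩
    show (starRingEnd ℂ) (t * hk t q (k + 1) - q * hk t q k) = t * hk t q (k + 1) - q * hk t q k
    rw [map_sub, map_mul, map_mul, ih.1, ih.2, ht, hq]

theorem conj_mulf {w : ℕ → ℕ → ℂ} (h : ∀ p k, (starRingEnd ℂ) (w p k) = w p k) (n : ℕ) :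
    (starRingEnd ℂ) (mulf w n) = mulf w n := by
  rcases Nat.eq_zero_or_pos n with rfl | hn
  · simp
  rw [mulf_apply w hn.ne']
  unfold Finsupp.prod
  rw [map_prod]
  exact prod_congr rfl fun p _ => h p _

theorem conj_hh (Y : ℕ) (a b : ℤ) (n : ℕ) : (starRingEnd ℂ) (hh Y a b n) = hh Y a b n := by
  classical
  have h1 : ∀ n, (starRingEnd ℂ) (af a b n) = af a b n := conj_mulf fun p k => by
    unfold wa
    split_ifs
    · simp
    · exact (conj_hk (by simp) (by simp) k).1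
    · simp
  have h2 : ∀ n, (starRingEnd ℂ) (qf a b n) = qf a b n := conj_mulf fun p k => by
    unfold wq
    split_ifs <;> simp
  rw [hh_apply, map_sum]
  refine sum_congr rfl fun x _ => ?_
  rw [map_mul, h1, tq_apply]
  split_ifs
  · rw [h2]
  · simp

end Pool.Agent.KS6_10
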