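import Pool.Agent.KS6_10.BackF
import Pool.Agent.KS6_10.Tw

/-!
# The L-function of a curve as an instance of the detection method
-/

set_option autoImplicit false
set_option linter.unusedVariables false

namespace Pool.Agent.KS6_10

open Finset ArithmeticFunction Complex
open scoped ArithmeticFunction

theorem card_div_sqrt (n : ℕ) : n.divisors.card ≤ 2 * Nat.sqrt n := by
  classical
  set A := n.divisors.filter (fun d => d * d ≤ n) with hA
  set B := n.divisors.filter (fun d => ¬ d * d ≤ n) with hB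
  have h0 : A.card + B.card = n.divisors.card := Finset.card_filter_add_card_filter_not _
  have h1 : A.card ≤ Nat.sqrt n := by
    have : A ⊆ Icc 1 (Nat.sqrt n) := fun d hd => by
      rw [hA, mem_filter] at hd
      rw [mem_Icc]
      exact ⟨Nat.pos_of_mem_divisors hd.1, Nat.le_sqrt.2 hd.2⟩
    simpa using card_le_card this
  have h2 : B.card ≤ Nat.sqrt n := by
    have h3 : B.card ≤ (Icc 1 (Nat.sqrt n)).card := by
      refine card_le_card_of_injOn (fun d => n / d) (fun d hd => ?_) (fun d hd e he hde => ?_)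
      · rw [mem_coe, hB, mem_filter, not_le] at hd
        have hn : 0 < n := Nat.pos_of_ne_zero (Nat.mem_divisors.1 hd.1).2
        have hdd := Nat.mul_div_cancel' (Nat.mem_divisors.1 hd.1).1
        have hd0 := Nat.pos_of_mem_divisors hd.1
        rw [mem_coe, mem_Icc]
        show 1 ≤ n / d ∧ n / d ≤ Nat.sqrt n
        have hq0 : 0 < n / d := Nat.div_pos (Nat.divisor_le hd.1) hd0
        refine ⟨hq0, Nat.le_sqrt.2 ?_⟩
        have h4 : n / d < d := by
          by_contra hcon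
          push Not at hcon
          have : d * d ≤ d * (n / d) := Nat.mul_le_mul_left _ hcon
          omega
        calc n / d * (n / d) ≤ d * (n / d) := Nat.mul_le_mul_right _ h4.le
          _ = n := hdd
      · rw [mem_coe, hB, mem_filter, not_le] at hd he
        have hn : n ≠ 0 := (Nat.mem_divisors.1 hd.1).2
        have h5 := Nat.mul_div_cancel' (Nat.mem_divisors.1 hd.1).1
        have h6 := Nat.mul_div_cancel' (Nat.mem_divisors.1 he.1).1
        simp only at hde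
        rw [hde] at h5
        have hq0 : 0 < n / e := Nat.div_pos (Nat.divisor_le he.1) (Nat.pos_of_mem_divisors he.1)
        exact Nat.eq_of_mul_eq_mul_right hq0 (h5.trans h6.symm)
    simpa using h3
  omega

theorem card_div_sqrt_real (n : ℕ) : (n.divisors.card : ℝ) ≤ 2 * Real.sqrt n := by
  have h1 : (n.divisors.card : ℝ) ≤ 2 * (Nat.sqrt n : ℝ) := by exact_mod_cast card_div_sqrt n
  have h2 : (Nat.sqrt n : ℝ) ≤ Real.sqrt n := Real.nat_sqrt_le_real_sqrt
  linarith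

/-- uniform bounds for the L-series -/
theorem ls_bound {σ : ℝ} (hσ : 3 / 2 < σ) : ∃ A : ℝ, 1 ≤ A ∧ ∀ f : ℕ → ℂ, (∀ n, ‖f n‖ ≤ (n.divisors.card : ℝ) * Real.sqrt n) →
    ∀ s : ℂ, σ ≤ s.re → LSeriesSummable f s ∧ ‖LSeries f s‖ ≤ A := by
  obtain ⟨C, hC, hτ⟩ := tau_le ((σ - 3 / 2) / 2) (by linarith)
  have hsum : Summable (fun n : ℕ => C * (n:ℝ) ^ (-(1 + (σ - 3 / 2) / 2))) :=
    (Real.summable_nat_rpow.2 (by linarith)).mul_left C
  refine ⟨max 1 (∑' n : ℕ, C * (n:ℝ) ^ (-(1 + (σ - 3 / 2) / 2))), le_max_left _ _, fun f hf s hs => ?_⟩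
  have h1 : ∀ n, ‖LSeries.term f s n‖ ≤ C * (n:ℝ) ^ (-(1 + (σ - 3 / 2) / 2)) := fun n => by
    rw [LSeries.norm_term_eq]
    split_ifs with h
    · positivity
    · have h0 : (1:ℝ) ≤ n := by exact_mod_cast Nat.pos_of_ne_zero h
      have hn0 : (0:ℝ) < n := by linarith
      rw [div_eq_mul_inv, ← Real.rpow_neg (by positivity)]
      calc ‖f n‖ * (n:ℝ) ^ (-s.re) ≤ ((C * (n:ℝ) ^ ((σ - 3 / 2) / 2)) * (n:ℝ) ^ (1 / 2 : ℝ)) * (n:ℝ) ^ (-σ) := by
            refine mul_le_mul ((hf n).trans ?_) (Real.rpow_le_rpow_of_exponent_le h0 (by linarith)) (by positivity) (by positivity)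
            rw [Real.sqrt_eq_rpow]
            exact mul_le_mul_of_nonneg_right (hτ n h) (by positivity)
        _ = C * ((n:ℝ) ^ ((σ - 3 / 2) / 2) * (n:ℝ) ^ (1 / 2 : ℝ) * (n:ℝ) ^ (-σ)) := by ring
        _ = _ := by
            rw [← Real.rpow_add hn0, ← Real.rpow_add hn0]
            congr 2; ring
  exact ⟨Summable.of_norm_bounded hsum h1, (tsum_of_norm_bounded hsum.hasSum h1).trans (le_max_right _ _)⟩

theorem af_summ (a b : ℤ) {s : ℂ} (hs : 3 / 2 < s.re) : LSeriesSummable (fun n => af a b n) s := by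
  obtain ⟨A, hA, h⟩ := ls_bound hs
  exact (h _ (af_le a b) s le_rfl).1

theorem qf_summ (a b : ℤ) {s : ℂ} (hs : 3 / 2 < s.re) : LSeriesSummable (fun n => qf a b n) s := by
  obtain ⟨A, hA, h⟩ := ls_bound hs
  exact (h _ (qf_le a b) s le_rfl).1

theorem af_qf_one (a b : ℤ) {s : ℂ} (hs : 3 / 2 < s.re) : LSeries (fun n => af a b n) s * LSeries (fun n => qf a b n) s = 1 := by
  have h1 := ArithmeticFunction.LSeries_mul' (f := af a b) (g := qf a b) (af_summ a b hs) (qf_summ a b hs)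
  rw [af_mul_qf] at h1
  rw [← h1]
  rw [ArithmeticFunction.one_eq_delta, LSeries_delta]
  rfl

theorem Fq' {a b : ℤ} {F : ℂ → ℂ} (hF : IsLF a b F) {s : ℂ} (hs : 3 / 2 < s.re) : F s * LSeries (fun n => qf a b n) s = 1 := by
  classical
  have h1 := eprod (qf_isMul a b) (qf_summ a b hs) (s := s)
    (u := fun p => if Gd a b p then 1 - (apE a b p : ℂ) * (p : ℂ) ^ (-s) + (p : ℂ) * (p : ℂ) ^ (-2 * s) else 1) (fun p hp => by
      have e : ∀ k : ℕ, qf a b (p ^ k) = wq a b p k := mulf_prime_pow (wq_zero a b) hp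
      have h2 : HasSum (fun k : ℕ => qf a b (p ^ k) * ((p:ℂ) ^ (-s)) ^ k) (∑ k ∈ range 3, qf a b (p ^ k) * ((p:ℂ) ^ (-s)) ^ k) := by
        refine hasSum_sum_of_ne_finset_zero fun k hk => ?_
        rw [mem_range, not_lt] at hk
        rw [e]
        have k0 : k ≠ 0 := by omega
        have k1 : k ≠ 1 := by omega
        have k2 : k ≠ 2 := by omega
        unfold wq
        simp [k0, k1, k2]
      convert h2 using 1
      rw [sum_range_succ, sum_range_succ, sum_range_succ, sum_range_zero, e, e, e, cpow_two hp.ne_zero]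
      unfold wq
      by_cases hg : Gd a b p
      · have hp2 : p ≠ 2 := by
          rintro rfl
          exact hg (dvd_mul_of_dvd_left (by norm_num) _)
        simp [hg, apE_eq hp hp2]
      · simp [hg])
  have h3 := (hF.2 s hs).mul h1
  refine h3.unique ?_
  convert hasProd_one (α := ℂ) (β := ℕ) using 2 with p
  by_cases hp : p.Prime
  · by_cases hg : Gd a b p
    · rw [if_pos ⟨hp, hg⟩, if_pos hp]
      simp only [if_pos hg]
      refine inv_mul_cancel₀ ?_
      have hp0 : (0:ℝ) < p := by exact_mod_cast hp.pos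
      have hp1 : (1:ℝ) ≤ p := by exact_mod_cast hp.one_le
      have hp2 : p ≠ 2 := Gd_ne_two hg
      obtain ⟨α, β, e1, e2, e3, e4⟩ := roots_cx hp0 (SS_prime hp hp2 a b)
      -- the factor is `(1 + α x) (1 + β x)`
      have e5 : 1 - (apE a b p : ℂ) * (p : ℂ) ^ (-s) + (p : ℂ) * (p : ℂ) ^ (-2 * s) =
          (1 + α * (p : ℂ) ^ (-s)) * (1 + β * (p : ℂ) ^ (-s)) := by
        rw [cpow_two hp.ne_zero, apE_eq hp hp2]
        push_cast at e3 e4 ⊢
        linear_combination (-(p : ℂ) ^ (-s)) * e3 - ((p:ℂ) ^ (-s)) ^ 2 * e4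
      rw [e5]
      have key : ∀ γ : ℂ, ‖γ‖ = Real.sqrt p → 1 + γ * (p : ℂ) ^ (-s) ≠ 0 := fun γ hγ h0 => by
        have h4 : γ * (p : ℂ) ^ (-s) = -1 := by linear_combination h0
        have h5 := congrArg norm h4
        rw [norm_mul, hγ, norm_ppow hp.pos, norm_neg, norm_one, Real.sqrt_eq_rpow, ← Real.rpow_add hp0] at h5
        have h6 : (p:ℝ) ^ (1 / 2 + -s.re) < 1 := Real.rpow_lt_one_of_one_lt_of_neg (by exact_mod_cast hp.one_lt) (by linarith)
        linarith
      exact mul_ne_zero (key α e1) (key β e2)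
    · rw [if_neg (fun h => hg h.2), if_pos hp]
      simp only [if_neg hg, mul_one]
  · rw [if_neg (fun h => hp h.1), if_neg hp, mul_one]

theorem F_eq {a b : ℤ} {F : ℂ → ℂ} (hF : IsLF a b F) {s : ℂ} (hs : 3 / 2 < s.re) : LSeries (fun n => af a b n) s = F s := by
  have h1 := Fq' hF hs
  have h2 := af_qf_one a b hs
  have h3 : LSeries (fun n => qf a b n) s ≠ 0 := right_ne_zero_of_mul_eq_one h2
  exact mul_right_cancel₀ h3 (h2.trans h1.symm)

theorem F_ne {a b : ℤ} {F : ℂ → ℂ} (hF : IsLF a b F) {s : ℂ} (hs : 3 / 2 < s.re) : F s ≠ 0 :=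
  left_ne_zero_of_mul_eq_one (Fq' hF hs)

/-- uniform bounds to the right of the edge -/
theorem F_bounds_edge {σ : ℝ} (hσ : 3 / 2 < σ) : ∃ A : ℝ, 1 ≤ A ∧ ∀ (a b : ℤ) (F : ℂ → ℂ), IsLF a b F →
    ∀ s : ℂ, σ ≤ s.re → ‖F s‖ ≤ A ∧ 1 / A ≤ ‖F s‖ := by
  obtain ⟨A, hA, h⟩ := ls_bound hσ
  refine ⟨A, hA, fun a b F hF s hs => ?_⟩
  have hs' : 3 / 2 < s.re := by linarith
  have hA0 : 0 < A := by linarith
  refine ⟨?_, ?_⟩
  · rw [← F_eq hF hs']
    exact (h _ (af_le a b) s hs).2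
  · have h1 := congrArg norm (Fq' hF hs')
    rw [norm_mul, norm_one] at h1
    rw [div_le_iff₀ hA0, ← h1]
    exact mul_le_mul_of_nonneg_left (h _ (qf_le a b) s hs).2 (norm_nonneg _)

/-- the mollifier, shifted -/
noncomputable def gM (Y : ℕ) (a b : ℤ) (s : ℂ) : ℂ := ∑ n ∈ Icc 1 Y, qf a b n * (n:ℂ) ^ (-(s + 1 / 2))

/-- the coefficients, normalised -/
noncomputable def hN (Y : ℕ) (a b : ℤ) (n : ℕ) : ℂ := hh Y a b n * (n:ℂ) ^ (-(1 / 2) : ℂ)

theorem gM_diff (Y : ℕ) (a b : ℤ) : Differentiable ℂ (gM Y a b) := by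
  unfold gM
  refine Differentiable.fun_sum fun m hm => ?_
  rw [Finset.mem_Icc] at hm
  refine (differentiable_const _).mul ?_
  intro s
  refine DifferentiableAt.const_cpow (by fun_prop) (Or.inl ?_)
  have : m ≠ 0 := by omega
  exact_mod_cast this

theorem gM_le (Y : ℕ) (a b : ℤ) {s : ℂ} (hs : 1 / 2 ≤ s.re) : ‖gM Y a b s‖ ≤ 2 * Y := by
  unfold gM
  have key : ∀ n ∈ Icc 1 Y, ‖qf a b n * (n:ℂ) ^ (-(s + 1 / 2))‖ ≤ 2 := fun n hn => by
    rw [mem_Icc] at hn
    have hn1 : (1:ℝ) ≤ n := by exact_mod_cast hn.1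
    have hn0 : (0:ℝ) < n := by linarith
    rw [norm_mul, Complex.norm_natCast_cpow_of_pos (by omega)]
    have e : (-(s + 1 / 2)).re ≤ -1 := by
      have : ((1:ℂ) / 2).re = 1 / 2 := by norm_num
      rw [Complex.neg_re, Complex.add_re, this]; linarith
    have h1 : (n:ℝ) ^ (-(s + 1 / 2)).re ≤ (n:ℝ) ^ (-(1:ℝ)) := Real.rpow_le_rpow_of_exponent_le hn1 e
    have h2 : ‖qf a b n‖ ≤ 2 * n := by
      calc ‖qf a b n‖ ≤ (n.divisors.card : ℝ) * Real.sqrt n := qf_le a b n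
        _ ≤ (2 * Real.sqrt n) * Real.sqrt n := mul_le_mul_of_nonneg_right (card_div_sqrt_real n) (Real.sqrt_nonneg _)
        _ = 2 * n := by rw [mul_assoc, Real.mul_self_sqrt hn0.le]
    calc ‖qf a b n‖ * (n:ℝ) ^ (-(s + 1 / 2)).re ≤ (2 * n) * (n:ℝ) ^ (-(1:ℝ)) := mul_le_mul h2 h1 (by positivity) (by positivity)
      _ = 2 := by rw [Real.rpow_neg_one]; field_simp
  refine (norm_sum_le_of_le _ key).trans ?_
  rw [sum_const, Nat.card_Icc, nsmul_eq_mul]
  simp [mul_comm]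

theorem tq_term {Y : ℕ} {a b : ℤ} {n : ℕ} (hn : n ∉ Icc 1 Y) (s : ℂ) : LSeries.term (fun n => tq Y a b n) s n = 0 := by
  rcases Nat.eq_zero_or_pos n with rfl | h
  · simp
  · rw [mem_Icc] at hn
    rw [LSeries.term_of_ne_zero (by omega), tq_apply, if_neg (by omega), zero_div]

theorem tq_summ (Y : ℕ) (a b : ℤ) (s : ℂ) : LSeriesSummable (fun n => tq Y a b n) s :=
  summable_of_ne_finset_zero (s := Icc 1 Y) fun _ hn => tq_term hn s

theorem tq_ls (Y : ℕ) (a b : ℤ) (s : ℂ) : LSeries (fun n => tq Y a b n) (s + 1 / 2) = gM Y a b s := by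
  unfold LSeries gM
  rw [tsum_eq_sum (s := Icc 1 Y) fun n hn => tq_term hn _]
  refine sum_congr rfl fun n hn => ?_
  rw [mem_Icc] at hn
  rw [LSeries.term_of_ne_zero (by omega), tq_apply, if_pos hn.2, Complex.cpow_neg, div_eq_mul_inv]

theorem hN_term (Y : ℕ) (a b : ℤ) (s : ℂ) : LSeries.term (hN Y a b) s = LSeries.term (fun n => hh Y a b n) (s + 1 / 2) := by
  funext n
  rcases Nat.eq_zero_or_pos n with rfl | h
  · simp
  · have hn : (n:ℂ) ≠ 0 := by exact_mod_cast h.ne'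
    rw [LSeries.term_of_ne_zero h.ne', LSeries.term_of_ne_zero h.ne', Complex.cpow_add _ _ hn]
    unfold hN
    rw [Complex.cpow_neg]
    field_simp

theorem re_half {s : ℂ} : (s + 1 / 2).re = s.re + 1 / 2 := by
  have : ((1:ℂ) / 2).re = 1 / 2 := by norm_num
  rw [Complex.add_re, this]

theorem mdOf {Y : ℕ} (hY : 1 ≤ Y) {a b : ℤ} {F : ℂ → ℂ} (hF : IsLF a b F) :
    MD Y (fun s => F (s + 1 / 2)) (gM Y a b) (hN Y a b) where
  df := hF.1.comp (differentiable_id.add_const _)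
  dg := gM_diff Y a b
  h0 := by unfold hN; simp
  h1 := by unfold hN; rw [hh_one hY]; simp
  hz := fun n h1 hn => by unfold hN; rw [hh_zero' h1 hn, zero_mul]
  sum := fun s hs => by
    unfold LSeriesSummable
    rw [hN_term]
    exact ArithmeticFunction.LSeriesSummable_mul (tq_summ Y a b _) (af_summ a b (by rw [re_half]; linarith))
  eq := fun s hs => by
    have hs' : 3 / 2 < (s + 1 / 2).re := by rw [re_half]; linarith
    have h1 : LSeries (hN Y a b) s = LSeries (fun n => hh Y a b n) (s + 1 / 2) := by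
      unfold LSeries
      rw [hN_term]
    have h2 := ArithmeticFunction.LSeries_mul' (f := tq Y a b) (g := af a b) (tq_summ Y a b (s + 1 / 2)) (af_summ a b hs')
    rw [h1]
    show LSeries (fun n => (tq Y a b * af a b) n) (s + 1 / 2) = _
    rw [h2, tq_ls, F_eq hF hs', mul_comm]

/-- bound for the normalised coefficients -/
theorem hN_bound {ε : ℝ} (hε : 0 < ε) : ∃ C : ℝ, 1 ≤ C ∧ ∀ (Y : ℕ) (a b : ℤ) (n : ℕ), 1 ≤ n → ‖hN Y a b n‖ ≤ C * (n:ℝ) ^ ε := by
  obtain ⟨C, hC, hτ⟩ := tau_le (ε / 3) (by linarith)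
  refine ⟨C ^ 3, one_le_pow₀ hC, fun Y a b n hn => ?_⟩
  have hn1 : (1:ℝ) ≤ n := by exact_mod_cast hn
  have hn0 : (0:ℝ) < n := by linarith
  unfold hN
  rw [norm_mul, Complex.norm_natCast_cpow_of_pos (by omega)]
  have e : (-(1 / 2) : ℂ).re = -(1 / 2 : ℝ) := by norm_num
  rw [e]
  calc ‖hh Y a b n‖ * (n:ℝ) ^ (-(1 / 2 : ℝ)) ≤ ((n.divisors.card : ℝ) ^ 3 * Real.sqrt n) * (n:ℝ) ^ (-(1 / 2 : ℝ)) :=
        mul_le_mul_of_nonneg_right (hh_le Y a b n) (by positivity)
    _ = (n.divisors.card : ℝ) ^ 3 := by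
        rw [Real.sqrt_eq_rpow, mul_assoc, ← Real.rpow_add hn0]
        norm_num
    _ ≤ (C * (n:ℝ) ^ (ε / 3)) ^ 3 := pow_le_pow_left₀ (by positivity) (hτ n (by omega)) 3
    _ = _ := by
        rw [mul_pow, ← Real.rpow_natCast ((n:ℝ) ^ (ε / 3)) 3, ← Real.rpow_mul hn0.le]
        congr 2
        push_cast; ring

end Pool.Agent.KS6_10
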