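import Mathlib

/-!
# Additive characters modulo `m`: reciprocity, Chinese remainder theorem, mean squares
-/

set_option autoImplicit false

namespace Pool.Agent.KS6_10

open Finset Complex ZMod

/-- the additive character `e(x / m)` -/
noncomputable def ec (m : ℕ) [NeZero m] (x : ZMod m) : ℂ := stdAddChar x

section
variable {m : ℕ} [NeZero m]

theorem ec_int (j : ℤ) : ec m (j : ZMod m) = cexp (2 * Real.pi * I * j / m) := by
  unfold ec; exact stdAddChar_coe j

theorem ec_add (x y : ZMod m) : ec m (x + y) = ec m x * ec m y := AddChar.map_add_eq_mul _ _ _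

theorem ec_zero : ec m 0 = 1 := AddChar.map_zero_eq_one _

theorem ec_neg_mul (x : ZMod m) : ec m (-x) * ec m x = 1 := by
  rw [← ec_add, neg_add_cancel, ec_zero]

theorem norm_ec (x : ZMod m) : ‖ec m x‖ = 1 := by
  unfold ec
  rw [stdAddChar_apply]
  exact Circle.norm_coe _

theorem conj_ec (x : ZMod m) : (starRingEnd ℂ) (ec m x) = ec m (-x) := by
  have h1 := ec_neg_mul x
  have h2 : (starRingEnd ℂ) (ec m x) * ec m x = 1 := by
    rw [mul_comm, Complex.mul_conj, Complex.normSq_eq_norm_sq, norm_ec]; simp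
  have h3 : ec m x ≠ 0 := by
    intro h; rw [h, mul_zero] at h1; exact zero_ne_one h1
  exact mul_right_cancel₀ h3 (h2.trans h1.symm)

theorem ec_sum (t : ZMod m) : ∑ x : ZMod m, ec m (t * x) = if t = 0 then (m : ℂ) else 0 := by
  have h := AddChar.sum_mulShift (R := ZMod m) (R' := ℂ) (ψ := stdAddChar) t (isPrimitive_stdAddChar m)
  rw [ZMod.card] at h
  unfold ec
  rw [← Nat.cast_zero (R := ℂ), ← apply_ite (Nat.cast (R := ℂ)), ← h]
  refine sum_congr rfl fun x _ => ?_
  rw [mul_comm]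
end

/-- reciprocity for the additive characters -/
theorem reciprocity (m r : ℕ) [NeZero m] [NeZero r] (h : Nat.Coprime m r) (t : ℤ) :
    ec m (-((t : ZMod m) * (r : ZMod m)⁻¹)) =
      ec r ((t : ZMod r) * (m : ZMod r)⁻¹) * cexp (-(2 * Real.pi * I * t / (r * m))) := by
  have hm0 : (m : ℂ) ≠ 0 := by exact_mod_cast NeZero.ne m
  have hr0 : (r : ℂ) ≠ 0 := by exact_mod_cast NeZero.ne r
  -- Bezout
  set u : ℤ := Nat.gcdB m r with hu
  set v : ℤ := Nat.gcdA m r with hv
  have hb : (m : ℤ) * v + r * u = 1 := by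
    have := Nat.gcd_eq_gcd_ab m r
    rw [h.gcd_eq_one] at this
    rw [hu, hv]; push_cast at this; linarith
  have h1 : (r : ZMod m)⁻¹ = (u : ZMod m) := by
    have h2 : (r : ZMod m) * (u : ZMod m) = 1 := by
      have := congrArg (Int.cast (R := ZMod m)) hb
      push_cast at this
      rw [ZMod.natCast_self, zero_mul, zero_add] at this
      exact this
    exact ZMod.inv_eq_of_mul_eq_one _ _ _ h2
  have h3 : (m : ZMod r)⁻¹ = (v : ZMod r) := by
    have h2 : (m : ZMod r) * (v : ZMod r) = 1 := by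
      have := congrArg (Int.cast (R := ZMod r)) hb
      push_cast at this
      rw [ZMod.natCast_self, zero_mul, add_zero] at this
      exact this
    exact ZMod.inv_eq_of_mul_eq_one _ _ _ h2
  rw [h1, h3]
  have e1 : -((t : ZMod m) * (u : ZMod m)) = ((-(t * u) : ℤ) : ZMod m) := by push_cast; ring
  have e2 : ((t : ZMod r) * (v : ZMod r)) = ((t * v : ℤ) : ZMod r) := by push_cast; ring
  rw [e1, e2, ec_int, ec_int, ← Complex.exp_add]
  congr 1
  have hb' : (m : ℂ) * v + r * u = 1 := by exact_mod_cast hb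
  push_cast
  field_simp
  linear_combination (-(t : ℂ)) * hb'

/-- `e(x / (g m))` as a product -/
theorem ec_mul (g m : ℕ) [NeZero g] [NeZero m] [NeZero (g * m)] (h : Nat.Coprime g m) (x : ZMod (g * m)) :
    ec (g * m) x = ec g ((x.cast : ZMod g) * (m : ZMod g)⁻¹) * ec m ((x.cast : ZMod m) * (g : ZMod m)⁻¹) := by
  have hm0 : (m : ℂ) ≠ 0 := by exact_mod_cast NeZero.ne m
  have hg0 : (g : ℂ) ≠ 0 := by exact_mod_cast NeZero.ne g
  set u : ℤ := Nat.gcdA g m with hu
  set v : ℤ := Nat.gcdB g m with hv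
  have hb : (g : ℤ) * u + m * v = 1 := by
    have := Nat.gcd_eq_gcd_ab g m
    rw [h.gcd_eq_one] at this
    rw [hu, hv]; push_cast at this; linarith
  have h1 : (m : ZMod g)⁻¹ = (v : ZMod g) := by
    have h2 : (m : ZMod g) * (v : ZMod g) = 1 := by
      have := congrArg (Int.cast (R := ZMod g)) hb
      push_cast at this
      rw [ZMod.natCast_self, zero_mul, zero_add] at this
      exact this
    exact ZMod.inv_eq_of_mul_eq_one _ _ _ h2
  have h3 : (g : ZMod m)⁻¹ = (u : ZMod m) := by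
    have h2 : (g : ZMod m) * (u : ZMod m) = 1 := by
      have := congrArg (Int.cast (R := ZMod m)) hb
      push_cast at this
      rw [ZMod.natCast_self, zero_mul, add_zero] at this
      exact this
    exact ZMod.inv_eq_of_mul_eq_one _ _ _ h2
  obtain ⟨j, rfl⟩ := ZMod.intCast_surjective x
  rw [h1, h3]
  have e1 : (((j : ZMod (g * m)).cast : ZMod g) * (v : ZMod g)) = ((j * v : ℤ) : ZMod g) := by
    rw [ZMod.cast_intCast (dvd_mul_right g m)]; push_cast; ring
  have e2 : (((j : ZMod (g * m)).cast : ZMod m) * (u : ZMod m)) = ((j * u : ℤ) : ZMod m) := by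
    rw [ZMod.cast_intCast (dvd_mul_left m g)]; push_cast; ring
  rw [e1, e2, ec_int, ec_int, ec_int, ← Complex.exp_add]
  congr 1
  have hb' : (g : ℂ) * u + m * v = 1 := by exact_mod_cast hb
  push_cast
  field_simp
  linear_combination (-(j : ℂ)) * hb'

/-- sums over `ℤ/gm` of products -/
theorem sum_crt (g m : ℕ) [NeZero g] [NeZero m] [NeZero (g * m)] (h : Nat.Coprime g m) (F : ZMod g → ℂ) (G : ZMod m → ℂ) :
    ∑ x : ZMod (g * m), F x.cast * G x.cast = (∑ x, F x) * ∑ x, G x := by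
  rw [sum_mul_sum, ← sum_product', univ_product_univ]
  refine Fintype.sum_equiv (ZMod.chineseRemainder h).toEquiv (fun x : ZMod (g * m) => F x.cast * G x.cast)
    (fun y : ZMod g × ZMod m => F y.1 * G y.2) fun x => ?_
  have e : (ZMod.chineseRemainder h).toEquiv x = (x.cast : ZMod g × ZMod m) := rfl
  rw [e, Prod.fst_zmod_cast, Prod.snd_zmod_cast]

/-- mean squares of exponential sums -/
theorem mean_sq (r : ℕ) [NeZero r] {ι : Type*} (S : Finset ι) (Q : ι → ZMod r) (w : ι → ℂ) :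
    ∑ u : ZMod r, ‖∑ i ∈ S, w i * ec r (u * Q i)‖ ^ 2 ≤
      r * ∑ i ∈ S, ∑ j ∈ S, if Q i = Q j then ‖w i‖ * ‖w j‖ else 0 := by
  have key : ((∑ u : ZMod r, ‖∑ i ∈ S, w i * ec r (u * Q i)‖ ^ 2 : ℝ) : ℂ) =
      r * ∑ i ∈ S, ∑ j ∈ S, if Q i = Q j then w i * (starRingEnd ℂ) (w j) else 0 := by
    push_cast
    have e1 : ∀ u : ZMod r, ((‖∑ i ∈ S, w i * ec r (u * Q i)‖ : ℂ)) ^ 2 =
        ∑ i ∈ S, ∑ j ∈ S, w i * (starRingEnd ℂ) (w j) * ec r ((Q i - Q j) * u) := by
      intro u
      rw [← Complex.mul_conj', map_sum, sum_mul_sum]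
      refine sum_congr rfl fun i _ => sum_congr rfl fun j _ => ?_
      rw [map_mul, conj_ec]
      have : ec r ((Q i - Q j) * u) = ec r (u * Q i) * ec r (-(u * Q j)) := by
        rw [← ec_add]; congr 1; ring
      rw [this]; ring
    rw [sum_congr rfl fun u _ => e1 u, sum_comm, mul_sum]
    refine sum_congr rfl fun i _ => ?_
    rw [sum_comm, mul_sum]
    refine sum_congr rfl fun j _ => ?_
    rw [← mul_sum, ec_sum]
    by_cases hq : Q i = Q j
    · rw [if_pos hq, if_pos (sub_eq_zero.2 hq)]; ring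
    · rw [if_neg hq, if_neg (sub_ne_zero.2 hq)]; ring
  have h2 : (0:ℝ) ≤ ∑ u : ZMod r, ‖∑ i ∈ S, w i * ec r (u * Q i)‖ ^ 2 := sum_nonneg fun _ _ => by positivity
  have h3 : ∑ u : ZMod r, ‖∑ i ∈ S, w i * ec r (u * Q i)‖ ^ 2 =
      ‖((∑ u : ZMod r, ‖∑ i ∈ S, w i * ec r (u * Q i)‖ ^ 2 : ℝ) : ℂ)‖ := by
    rw [Complex.norm_real, Real.norm_eq_abs, abs_of_nonneg h2]
  rw [h3, key, norm_mul, Complex.norm_natCast]
  refine mul_le_mul_of_nonneg_left ?_ (Nat.cast_nonneg _)
  refine (norm_sum_le _ _).trans (sum_le_sum fun i _ => (norm_sum_le _ _).trans (sum_le_sum fun j _ => ?_))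
  split_ifs with hq
  · rw [norm_mul, RCLike.norm_conj]
  · rw [norm_zero]

end Pool.Agent.KS6_10
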