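import Pool.Agent.KS6_10.Hec

/-!
# The arithmetic functions attached to `y² = x³ + a x + b`
-/

set_option autoImplicit false
set_option linter.unusedVariables false

namespace Pool.Agent.KS6_10

open Finset ArithmeticFunction
open scoped ArithmeticFunction ArithmeticFunction.Moebius

/-- a multiplicative function with given values at prime powers -/
noncomputable def mulf (w : ℕ → ℕ → ℂ) : ArithmeticFunction ℂ :=
  ⟨fun n => if n = 0 then 0 else n.factorization.prod w, by simp⟩

theorem mulf_apply (w : ℕ → ℕ → ℂ) {n : ℕ} (hn : n ≠ 0) : mulf w n = n.factorization.prod w := by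
  show (if n = 0 then 0 else _) = _
  rw [if_neg hn]

theorem mulf_isMul (w : ℕ → ℕ → ℂ) : (mulf w).IsMultiplicative := by
  rw [IsMultiplicative.iff_ne_zero]
  refine ⟨by rw [mulf_apply w one_ne_zero]; simp, fun {m n} hm hn hmn => ?_⟩
  rw [mulf_apply w (mul_ne_zero hm hn), mulf_apply w hm, mulf_apply w hn, Nat.factorization_mul_of_coprime hmn,
    Finsupp.prod_add_index_of_disjoint]
  rw [Nat.support_factorization, Nat.support_factorization]
  exact hmn.disjoint_primeFactors

theorem mulf_prime_pow {w : ℕ → ℕ → ℂ} (hw : ∀ p, w p 0 = 1) {p : ℕ} (hp : p.Prime) (k : ℕ) : mulf w (p ^ k) = w p k := by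
  rw [mulf_apply w (pow_ne_zero k hp.ne_zero), hp.factorization_pow, Finsupp.prod_single_index (hw p)]

/-- `v(p) = ∑ ((x³+ax+b)/p)` for `p ≥ 5` -/
noncomputable def vS (a b : ℤ) (p : ℕ) : ℂ := if 5 ≤ p then (SS p a b : ℂ) else 0

/-- `-v(p)` -/
noncomputable def vA (a b : ℤ) (p : ℕ) : ℂ := -vS a b p

/-- primes of good reduction for the model -/
def Gd (a b : ℤ) (p : ℕ) : Prop := ¬ ((p : ℤ) ∣ 2 * (4 * a ^ 3 + 27 * b ^ 2))

open Classical in
/-- local values of the inverse of the L-series -/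
noncomputable def wq (a b : ℤ) (p k : ℕ) : ℂ :=
  if k = 0 then 1 else if Gd a b p then (if k = 1 then (SS p a b : ℂ) else if k = 2 then (p : ℂ) else 0) else 0

/-- the coefficients of `1/L` -/
noncomputable def qf (a b : ℤ) : ArithmeticFunction ℂ := mulf (wq a b)

/-- the bad modulus -/
def DD (a b : ℤ) : ℕ := (6 * (4 * a ^ 3 + 27 * b ^ 2)).natAbs

theorem DD_ne {a b : ℤ} (h : 4 * a ^ 3 + 27 * b ^ 2 ≠ 0) : DD a b ≠ 0 := by
  unfold DD
  rw [Int.natAbs_ne_zero]
  exact mul_ne_zero (by norm_num) h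

theorem not_dvd_DD {a b : ℤ} {p : ℕ} (hp : p.Prime) (h : ¬ p ∣ DD a b) : 5 ≤ p ∧ Gd a b p ∧ ¬ ((p:ℤ) ∣ 4 * a ^ 3 + 27 * b ^ 2) := by
  unfold DD at h
  rw [← Int.natCast_dvd] at h
  have h2 : p ≠ 2 := by
    rintro rfl
    exact h (dvd_mul_of_dvd_left (by norm_num) _)
  have h3 : p ≠ 3 := by
    rintro rfl
    exact h (dvd_mul_of_dvd_left (by norm_num) _)
  have h4 : p ≠ 4 := by rintro rfl; exact absurd hp (by decide)
  have := hp.two_le
  refine ⟨by omega, fun h5 => ?_, fun h5 => h (dvd_mul_of_dvd_right h5 _)⟩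
  rcases (Nat.prime_iff_prime_int.1 hp).dvd_or_dvd h5 with h6 | h6
  · have h7 : p ∣ 2 := by exact_mod_cast h6
    have := Nat.le_of_dvd (by norm_num) h7
    omega
  · exact h (dvd_mul_of_dvd_right h6 _)

theorem SS_abs_le {p : ℕ} (hp : p.Prime) (a b : ℤ) : |(SS p a b : ℝ)| ≤ p := by
  unfold SS
  push_cast
  refine (abs_sum_le_sum_abs _ _).trans ?_
  calc ∑ x ∈ range p, |((jacobiSym ((x : ℤ) ^ 3 + a * x + b) p : ℤ) : ℝ)| ≤ ∑ x ∈ range p, (1:ℝ) := by
        refine sum_le_sum fun x _ => ?_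
        have : |jacobiSym ((x : ℤ) ^ 3 + a * x + b) p| ≤ 1 := by
          rcases jacobiSym.trichotomy ((x : ℤ) ^ 3 + a * x + b) p with h | h | h <;> rw [h] <;> simp
        exact_mod_cast this
    _ = p := by simp

theorem vS_le {p : ℕ} (hp : p.Prime) (a b : ℤ) : ‖vS a b p‖ ≤ p := by
  unfold vS
  split_ifs
  · rw [Complex.norm_intCast]; exact SS_abs_le hp a b
  · simp

theorem vS_le' {p : ℕ} (hp : p.Prime) (a b : ℤ) : ‖vS a b p‖ ≤ 2 * Real.sqrt p := by
  unfold vS
  split_ifs with h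
  · rw [Complex.norm_intCast]; exact SS_prime hp (by omega) a b
  · simp

theorem vA_le {p : ℕ} (hp : p.Prime) (a b : ℤ) : ‖vA a b p‖ ≤ p := by
  unfold vA; rw [norm_neg]; exact vS_le hp a b

theorem vA_le' {p : ℕ} (hp : p.Prime) (a b : ℤ) : ‖vA a b p‖ ≤ 2 * Real.sqrt p := by
  unfold vA; rw [norm_neg]; exact vS_le' hp a b

theorem sum_range_succ_choose (k : ℕ) : ∑ i ∈ range (k + 1), ((i:ℝ) + 1) = ((k + 2).choose 2 : ℝ) := by
  induction k with
  | zero => simp
  | succ k ih =>
    rw [sum_range_succ, ih, Nat.choose_succ_succ' (k + 2) 1, Nat.choose_one_right]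
    push_cast
    ring

theorem wq_zero (a b : ℤ) (p : ℕ) : wq a b p 0 = 1 := by unfold wq; simp

/-- bounds for `g = c * (completely multiplicative)` -/
theorem g_sum : ∃ K : ℝ, 0 < K ∧ ∀ (N : ℕ) (c : ArithmeticFunction ℂ) (a b : ℤ), 4 * a ^ 3 + 27 * b ^ 2 ≠ 0 → Hek N c →
    (∀ p : ℕ, p.Prime → Gd a b p → c p = -(SS p a b : ℂ)) → (N : ℤ) ∣ 62208 * (4 * a ^ 3 + 27 * b ^ 2) →
    Summable (fun n : ℕ => ‖(c * cmul (vS a b)) n‖ * (n:ℝ) ^ (-(5 / 4 : ℝ))) ∧
      ∑' n : ℕ, ‖(c * cmul (vS a b)) n‖ * (n:ℝ) ^ (-(5 / 4 : ℝ)) ≤ K * ((DD a b).divisors.card : ℝ) ^ 9 := by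
  obtain ⟨K, hK, hm⟩ := mult_sum
  refine ⟨K, hK, fun N c a b hΔ hc hp1 hN => hm _ (DD a b) (DD_ne hΔ) (hc.mult.mul (cmul_isMul _)) ?_ ?_⟩
  · intro p hp _ k
    rw [conv_prime_pow _ _ hp]
    refine (norm_sum_le _ _).trans ?_
    rw [← sum_range_succ_choose, sum_mul]
    refine sum_le_sum fun i hi => ?_
    have hi' : i ≤ k := by have := mem_range.1 hi; omega
    rw [norm_mul, cmul_prime_pow _ hp, norm_pow]
    calc ‖c (p ^ i)‖ * ‖vS a b p‖ ^ (k - i) ≤ (((i:ℝ) + 1) * (p:ℝ) ^ i) * (p:ℝ) ^ (k - i) := by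
          gcongr
          · exact hc.norm_le hp i
          · exact vS_le hp a b
      _ = ((i:ℝ) + 1) * (p:ℝ) ^ k := by rw [mul_assoc, ← pow_add, Nat.add_sub_cancel' hi']
  · intro p hp hd
    obtain ⟨h5, hg, hnd⟩ := not_dvd_DD hp hd
    have hcp := hp1 p hp hg
    have hvp : vS a b p = (SS p a b : ℂ) := by unfold vS; rw [if_pos h5]
    have hpN : ¬ p ∣ N := fun h => by
      have h1 : (p:ℤ) ∣ 62208 * (4 * a ^ 3 + 27 * b ^ 2) := (Int.natCast_dvd_natCast.2 h).trans hN
      rcases (Nat.prime_iff_prime_int.1 hp).dvd_or_dvd h1 with h6 | h6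
      · have h7 : p ∣ 62208 := by exact_mod_cast h6
        have h8 : p ∣ 2 ^ 8 * 3 ^ 5 := by norm_num; exact h7
        rcases (Nat.Prime.dvd_mul hp).1 h8 with h9 | h9
        · have := (Nat.prime_dvd_prime_iff_eq hp Nat.prime_two).1 (hp.dvd_of_dvd_pow h9)
          omega
        · have := (Nat.prime_dvd_prime_iff_eq hp Nat.prime_three).1 (hp.dvd_of_dvd_pow h9)
          omega
      · exact hnd h6
    refine ⟨h5, ?_, fun k => ?_⟩
    · have := conv_prime_pow c (cmul (vS a b)) hp 1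
      rw [pow_one] at this
      rw [this, sum_range_succ, sum_range_succ, sum_range_zero]
      simp only [pow_zero, pow_one, Nat.sub_zero, Nat.sub_self]
      rw [hc.mult.map_one, cmul_one, cmul_prime _ hp, hcp, hvp]
      ring
    · rw [conv_prime_pow _ _ hp]
      refine (norm_sum_le _ _).trans ?_
      calc ∑ i ∈ range (k + 1), ‖c (p ^ i) * cmul (vS a b) (p ^ (k - i))‖ ≤ ∑ i ∈ range (k + 1), (2 * Real.sqrt p) ^ k := by
            refine sum_le_sum fun i hi => ?_
            have hi' : i ≤ k := by have := mem_range.1 hi; omega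
            rw [norm_mul, cmul_prime_pow _ hp, norm_pow]
            have e1 : ‖c p‖ ≤ 2 * Real.sqrt p := by
              rw [hcp, norm_neg, ← hvp]; exact vS_le' hp a b
            have e2 := hc.norm_le' hp hpN e1 i
            have e3 : ((i:ℝ) + 1) ≤ 2 ^ i := by
              have := Nat.lt_two_pow_self (n := i)
              exact_mod_cast this
            calc ‖c (p ^ i)‖ * ‖vS a b p‖ ^ (k - i) ≤ (2 ^ i * Real.sqrt p ^ i) * (2 * Real.sqrt p) ^ (k - i) := by
                  refine mul_le_mul (e2.trans (mul_le_mul_of_nonneg_right e3 (by positivity))) ?_ (by positivity) (by positivity)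
                  exact pow_le_pow_left₀ (norm_nonneg _) (vS_le' hp a b) _
              _ = (2 * Real.sqrt p) ^ k := by rw [← mul_pow, ← pow_add, Nat.add_sub_cancel' hi']
        _ = _ := by rw [sum_const, card_range, nsmul_eq_mul]; push_cast; ring

theorem qf_isMul (a b : ℤ) : (qf a b).IsMultiplicative := mulf_isMul _

/-- bounds for `r = q * (completely multiplicative)` -/
theorem r_sum : ∃ K : ℝ, 0 < K ∧ ∀ (a b : ℤ), 4 * a ^ 3 + 27 * b ^ 2 ≠ 0 →
    Summable (fun n : ℕ => ‖(qf a b * cmul (vA a b)) n‖ * (n:ℝ) ^ (-(5 / 4 : ℝ))) ∧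
      ∑' n : ℕ, ‖(qf a b * cmul (vA a b)) n‖ * (n:ℝ) ^ (-(5 / 4 : ℝ)) ≤ K * ((DD a b).divisors.card : ℝ) ^ 9 := by
  obtain ⟨K, hK, hm⟩ := mult_sum
  refine ⟨K, hK, fun a b hΔ => hm _ (DD a b) (DD_ne hΔ) ((mulf_isMul _).mul (cmul_isMul _)) ?_ ?_⟩
  · intro p hp _ k
    rw [conv_prime_pow _ _ hp]
    refine (norm_sum_le _ _).trans ?_
    rw [← sum_range_succ_choose, sum_mul]
    refine sum_le_sum fun i hi => ?_
    have hi' : i ≤ k := by have := mem_range.1 hi; omega
    have hp1 : (1:ℝ) ≤ p := by exact_mod_cast hp.one_le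
    have e1 : ‖qf a b (p ^ i)‖ ≤ (p:ℝ) ^ i := by
      unfold qf
      rw [mulf_prime_pow (wq_zero a b) hp]
      unfold wq
      split_ifs with h1 h2 h3 h4
      · simp [h1]
      · rw [h3, pow_one, Complex.norm_intCast]; exact SS_abs_le hp a b
      · rw [h4, Complex.norm_natCast]
        exact le_self_pow₀ hp1 (by norm_num)
      · rw [norm_zero]; positivity
      · rw [norm_zero]; positivity
    rw [norm_mul, cmul_prime_pow _ hp, norm_pow]
    calc ‖qf a b (p ^ i)‖ * ‖vA a b p‖ ^ (k - i) ≤ (p:ℝ) ^ i * (p:ℝ) ^ (k - i) := by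
          gcongr
          exact vA_le hp a b
      _ = 1 * (p:ℝ) ^ k := by rw [← pow_add, Nat.add_sub_cancel' hi', one_mul]
      _ ≤ ((i:ℝ) + 1) * (p:ℝ) ^ k := by
          refine mul_le_mul_of_nonneg_right ?_ (by positivity)
          have : (0:ℝ) ≤ i := Nat.cast_nonneg i
          linarith
  · intro p hp hd
    obtain ⟨h5, hg, hnd⟩ := not_dvd_DD hp hd
    have hvp : vS a b p = (SS p a b : ℂ) := by unfold vS; rw [if_pos h5]
    refine ⟨h5, ?_, fun k => ?_⟩
    · have := conv_prime_pow (qf a b) (cmul (vA a b)) hp 1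
      rw [pow_one] at this
      rw [this, sum_range_succ, sum_range_succ, sum_range_zero]
      simp only [pow_zero, pow_one, Nat.sub_zero, Nat.sub_self]
      have e1 : qf a b p = (SS p a b : ℂ) := by
        have := mulf_prime_pow (wq_zero a b) hp 1
        rw [pow_one] at this
        unfold qf
        rw [this]
        unfold wq
        rw [if_neg (by norm_num), if_pos hg, if_pos rfl]
      rw [(qf_isMul a b).map_one, cmul_one, cmul_prime _ hp, e1]
      unfold vA
      rw [hvp]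
      ring
    · rw [conv_prime_pow _ _ hp]
      refine (norm_sum_le _ _).trans ?_
      have hsq : (1:ℝ) ≤ Real.sqrt p := by
        rw [Real.one_le_sqrt]
        exact_mod_cast hp.one_le
      calc ∑ i ∈ range (k + 1), ‖qf a b (p ^ i) * cmul (vA a b) (p ^ (k - i))‖ ≤ ∑ i ∈ range (k + 1), (2 * Real.sqrt p) ^ k := by
            refine sum_le_sum fun i hi => ?_
            have hi' : i ≤ k := by have := mem_range.1 hi; omega
            rw [norm_mul, cmul_prime_pow _ hp, norm_pow]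
            have e1 : ‖qf a b (p ^ i)‖ ≤ (2 * Real.sqrt p) ^ i := by
              unfold qf
              rw [mulf_prime_pow (wq_zero a b) hp]
              unfold wq
              split_ifs with h1 h3 h4
              · simp [h1]
              · rw [h3, pow_one, Complex.norm_intCast]; exact SS_prime hp (by omega) a b
              · rw [h4, Complex.norm_natCast, mul_pow, Real.sq_sqrt (Nat.cast_nonneg p)]
                have : (0:ℝ) ≤ p := Nat.cast_nonneg p
                linarith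
              · rw [norm_zero]; positivity
            calc ‖qf a b (p ^ i)‖ * ‖vA a b p‖ ^ (k - i) ≤ (2 * Real.sqrt p) ^ i * (2 * Real.sqrt p) ^ (k - i) := by
                  gcongr
                  exact vA_le' hp a b
              _ = (2 * Real.sqrt p) ^ k := by rw [← pow_add, Nat.add_sub_cancel' hi']
        _ = _ := by rw [sum_const, card_range, nsmul_eq_mul]; push_cast; ring

end Pool.Agent.KS6_10
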