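import Pool.Agent.KS6_10.PBox

/-!
# High moments of short Dirichlet polynomials in the family of all curves
-/

set_option autoImplicit false
set_option linter.unusedVariables false

namespace Pool.Agent.KS6_10

open Finset

/-- the bound for the coefficients -/
noncomputable def HH (n : ℕ) : ℝ := (n.divisors.card : ℝ) ^ 3 * Real.sqrt n

theorem HH_nonneg (n : ℕ) : 0 ≤ HH n := by unfold HH; positivity

theorem box_ico {X : ℝ} (hX : 1 ≤ X) : ∃ (x y : ℤ) (L M : ℕ), bxA X = Ico x (x + L) ∧ bxB X = Ico y (y + M) ∧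
    (L:ℝ) + M ≤ 6 * X ^ (1 / 2 : ℝ) := by
  refine ⟨-(⌊X ^ (1 / 3 : ℝ)⌋₊ : ℤ), -(⌊X ^ (1 / 2 : ℝ)⌋₊ : ℤ), 2 * ⌊X ^ (1 / 3 : ℝ)⌋₊ + 1, 2 * ⌊X ^ (1 / 2 : ℝ)⌋₊ + 1, ?_, ?_, ?_⟩
  · ext z; unfold bxA; simp only [mem_Icc, mem_Ico]; omega
  · ext z; unfold bxB; simp only [mem_Icc, mem_Ico]; omega
  · have h1 : (⌊X ^ (1 / 3 : ℝ)⌋₊ : ℝ) ≤ X ^ (1 / 3 : ℝ) := Nat.floor_le (by positivity)
    have h2 : (⌊X ^ (1 / 2 : ℝ)⌋₊ : ℝ) ≤ X ^ (1 / 2 : ℝ) := Nat.floor_le (by positivity)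
    have h3 : X ^ (1 / 3 : ℝ) ≤ X ^ (1 / 2 : ℝ) := Real.rpow_le_rpow_of_exponent_le hX (by norm_num)
    have h4 : 1 ≤ X ^ (1 / 2 : ℝ) := Real.one_le_rpow hX (by norm_num)
    push_cast
    linarith

/-- the number of tuples with product `r^2` -/
theorem tuples_card {ι : Type*} [Fintype ι] [DecidableEq ι] (S : Finset ℕ) (r : ℕ) (hr : 0 < r) :
    (((Fintype.piFinset fun _ : ι => S).filter (fun x => ∏ i, x i = r ^ 2)).card : ℝ) ≤ ((r ^ 2).divisors.card : ℝ) ^ Fintype.card ι := by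
  have h1 : ((Fintype.piFinset fun _ : ι => S).filter (fun x => ∏ i, x i = r ^ 2)) ⊆ Fintype.piFinset fun _ : ι => (r ^ 2).divisors := by
    intro x hx
    rw [mem_filter] at hx
    rw [Fintype.mem_piFinset]
    intro i
    rw [Nat.mem_divisors]
    refine ⟨?_, by positivity⟩
    rw [← hx.2]
    exact dvd_prod_of_mem _ (mem_univ i)
  have h2 := card_le_card h1
  rw [Fintype.card_piFinset] at h2
  simp only [prod_const, card_univ] at h2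
  exact_mod_cast h2

/-- the sum over the tuples whose product is a square -/
theorem square_sum {ι : Type*} [Fintype ι] [DecidableEq ι] (m : ℕ) (hι : Fintype.card ι = 2 * m) (τ : ℝ) (hτ : 0 < τ) :
    ∃ C : ℝ, 0 < C ∧ ∀ Y Z : ℕ, 1 ≤ Y →
      ∑ x ∈ (Fintype.piFinset fun _ : ι => Ioc Y Z).filter (fun x => IsSquare (∏ i, x i)),
        (((∏ i, x i : ℕ) : ℝ)) ^ (-(1 / 2 + τ)) ≤ C * ((Y : ℝ) ^ m) ^ (-(τ / 2)) := by
  obtain ⟨D, hD1, hD⟩ := tau_le (τ / (4 * m + 4)) (by positivity)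
  have hsum : Summable (fun n : ℕ => (n:ℝ) ^ (-(1 + τ / 2))) := Real.summable_nat_rpow.2 (by linarith)
  set W : ℝ := ∑' n : ℕ, (n:ℝ) ^ (-(1 + τ / 2)) with hW
  have hW0 : 0 ≤ W := tsum_nonneg fun n => by positivity
  refine ⟨D ^ (2 * m) * W + 1, by positivity, fun Y Z hY => ?_⟩
  set Q := (Fintype.piFinset fun _ : ι => Ioc Y Z).filter (fun x => IsSquare (∏ i, x i)) with hQ
  set T : Finset ℕ := Icc (Y ^ m) (Z ^ m) with hT
  have hmem : ∀ x ∈ Q, ∀ i, Y < x i ∧ x i ≤ Z := fun x hx i => by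
    rw [hQ, mem_filter, Fintype.mem_piFinset] at hx
    exact mem_Ioc.1 (hx.1 i)
  have hPlow : ∀ x ∈ Q, (Y ^ m) ^ 2 ≤ ∏ i, x i := fun x hx => by
    calc (Y ^ m) ^ 2 = ∏ _i : ι, Y := by rw [prod_const, card_univ, hι]; ring
      _ ≤ _ := prod_le_prod' fun i _ => (hmem x hx i).1.le
  have hPup : ∀ x ∈ Q, ∏ i, x i ≤ (Z ^ m) ^ 2 := fun x hx => by
    calc ∏ i, x i ≤ ∏ _i : ι, Z := prod_le_prod' fun i _ => (hmem x hx i).2
      _ = _ := by rw [prod_const, card_univ, hι]; ring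
  have hsq : ∀ x ∈ Q, Nat.sqrt (∏ i, x i) ^ 2 = ∏ i, x i := fun x hx => by
    rw [hQ, mem_filter] at hx
    obtain ⟨r, hr⟩ := hx.2
    rw [hr, Nat.sqrt_eq]; ring
  have hmaps : ∀ x ∈ Q, Nat.sqrt (∏ i, x i) ∈ T := fun x hx => by
    rw [hT, mem_Icc]
    constructor
    · rw [Nat.le_sqrt']; exact hPlow x hx
    · have := Nat.sqrt_le_sqrt (hPup x hx)
      rwa [Nat.sqrt_eq'] at this
  rw [← sum_fiberwise_of_maps_to hmaps]
  have hY0 : (1:ℝ) ≤ Y := by exact_mod_cast hY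
  have hYm : (1:ℝ) ≤ (Y:ℝ) ^ m := one_le_pow₀ hY0
  have key : ∀ r ∈ T, ∑ x ∈ Q.filter (fun x => Nat.sqrt (∏ i, x i) = r), (((∏ i, x i : ℕ) : ℝ)) ^ (-(1 / 2 + τ)) ≤
      D ^ (2 * m) * ((Y : ℝ) ^ m) ^ (-(τ / 2)) * (r:ℝ) ^ (-(1 + τ / 2)) := fun r hr => by
    rw [hT, mem_Icc] at hr
    have hr1 : 1 ≤ r := le_trans (Nat.one_le_pow _ _ hY) hr.1
    have hr0 : (0:ℝ) < r := by exact_mod_cast hr1
    have hrR : (1:ℝ) ≤ r := by exact_mod_cast hr1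
    have h1 : ∀ x ∈ Q.filter (fun x => Nat.sqrt (∏ i, x i) = r), (((∏ i, x i : ℕ) : ℝ)) ^ (-(1 / 2 + τ)) = (r:ℝ) ^ (-(1 + 2 * τ)) := fun x hx => by
      rw [mem_filter] at hx
      have := hsq x hx.1
      rw [hx.2] at this
      rw [← this]
      push_cast
      rw [← Real.rpow_natCast, ← Real.rpow_mul hr0.le]
      congr 1
      push_cast
      ring
    rw [sum_congr rfl h1, sum_const, nsmul_eq_mul]
    have h2 : ((Q.filter (fun x => Nat.sqrt (∏ i, x i) = r)).card : ℝ) ≤ ((r ^ 2).divisors.card : ℝ) ^ (2 * m) := by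
      have h3 : Q.filter (fun x => Nat.sqrt (∏ i, x i) = r) ⊆ (Fintype.piFinset fun _ : ι => Ioc Y Z).filter (fun x => ∏ i, x i = r ^ 2) := by
        intro x hx
        rw [mem_filter] at hx ⊢
        have h4 := hsq x hx.1
        rw [hx.2] at h4
        have h5 := hx.1
        rw [hQ, mem_filter] at h5
        exact ⟨h5.1, h4.symm⟩
      have h4 := tuples_card (ι := ι) (Ioc Y Z) r hr1
      rw [hι] at h4
      exact le_trans (by exact_mod_cast card_le_card h3) h4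
    have h3 : ((r ^ 2).divisors.card : ℝ) ^ (2 * m) ≤ D ^ (2 * m) * (r:ℝ) ^ τ := by
      have h4 := hD (r ^ 2) (by positivity)
      calc ((r ^ 2).divisors.card : ℝ) ^ (2 * m) ≤ (D * ((r ^ 2 : ℕ) : ℝ) ^ (τ / (4 * m + 4))) ^ (2 * m) :=
            pow_le_pow_left₀ (by positivity) h4 _
        _ = D ^ (2 * m) * (r:ℝ) ^ (τ * ((4 * m) / (4 * m + 4))) := by
            rw [mul_pow]
            congr 1
            push_cast
            rw [← Real.rpow_natCast, ← Real.rpow_natCast, ← Real.rpow_mul hr0.le, ← Real.rpow_mul hr0.le]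
            congr 1
            push_cast
            field_simp
            ring
        _ ≤ D ^ (2 * m) * (r:ℝ) ^ τ := by
            refine mul_le_mul_of_nonneg_left (Real.rpow_le_rpow_of_exponent_le hrR ?_) (by positivity)
            have : (4 * (m:ℝ)) / (4 * m + 4) ≤ 1 := by rw [div_le_one (by positivity)]; linarith
            nlinarith
    have h4 : (r:ℝ) ^ (-(τ / 2)) ≤ ((Y:ℝ) ^ m) ^ (-(τ / 2)) := by
      refine Real.rpow_le_rpow_of_nonpos (by positivity) (by exact_mod_cast hr.1) (by linarith)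
    calc ((Q.filter (fun x => Nat.sqrt (∏ i, x i) = r)).card : ℝ) * (r:ℝ) ^ (-(1 + 2 * τ))
        ≤ (D ^ (2 * m) * (r:ℝ) ^ τ) * (r:ℝ) ^ (-(1 + 2 * τ)) := by
          exact mul_le_mul_of_nonneg_right (h2.trans h3) (by positivity)
      _ = D ^ (2 * m) * ((r:ℝ) ^ (-(τ / 2)) * (r:ℝ) ^ (-(1 + τ / 2))) := by
          rw [mul_assoc, ← Real.rpow_add hr0, ← Real.rpow_add hr0]
          congr 2
          ring
      _ ≤ D ^ (2 * m) * (((Y:ℝ) ^ m) ^ (-(τ / 2)) * (r:ℝ) ^ (-(1 + τ / 2))) := by gcongr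
      _ = _ := by ring
  refine (sum_le_sum key).trans ?_
  rw [← mul_sum]
  have h5 : ∑ r ∈ T, (r:ℝ) ^ (-(1 + τ / 2)) ≤ W := hsum.sum_le_tsum T (fun n _ => by positivity)
  calc D ^ (2 * m) * ((Y : ℝ) ^ m) ^ (-(τ / 2)) * ∑ r ∈ T, (r:ℝ) ^ (-(1 + τ / 2))
      ≤ D ^ (2 * m) * ((Y : ℝ) ^ m) ^ (-(τ / 2)) * W := by gcongr
    _ = (D ^ (2 * m) * W) * ((Y : ℝ) ^ m) ^ (-(τ / 2)) := by ring
    _ ≤ _ := mul_le_mul_of_nonneg_right (by linarith) (by positivity)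

/-- **high moments in the family** -/
theorem moment (m : ℕ) (τ : ℝ) (hτ : 0 < τ) (M : ℝ) (hM : 0 ≤ M) : ∃ C : ℝ, 0 < C ∧ ∀ (X : ℝ) (Y Z : ℕ) (β : ℕ → ℂ), 1 ≤ X →
    1 ≤ Y → (∀ n ∈ Ioc Y Z, ‖β n‖ * HH n ≤ M * (n : ℝ) ^ (-(1 / 2 + τ))) →
    ∑ a ∈ bxA X, ∑ b ∈ bxB X, ‖∑ n ∈ Ioc Y Z, β n * hh Y a b n‖ ^ (2 * m) ≤
      C * (X ^ (5 / 6 : ℝ) * ((Y : ℝ) ^ m) ^ (-(τ / 2)) + X ^ (1 / 2 : ℝ) * (Z : ℝ) ^ (4 * m)) := by
  classical
  have hι : Fintype.card (Fin m ⊕ Fin m) = 2 * m := by rw [Fintype.card_sum, Fintype.card_fin]; ring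
  obtain ⟨C0, hC0, hsq⟩ := square_sum (ι := Fin m ⊕ Fin m) m hι τ hτ
  refine ⟨9 * M ^ (2 * m) * C0 + 6 * M ^ (2 * m) + 1, by positivity, fun X Y Z β hX hY hβ => ?_⟩
  set S := Ioc Y Z with hS
  set γ : Fin m ⊕ Fin m → ℕ → ℂ := fun i n => Sum.elim (fun _ => β n) (fun _ => (starRingEnd ℂ) (β n)) i with hγ
  have hγn : ∀ i n, ‖γ i n‖ = ‖β n‖ := fun i n => by
    rcases i with i | i
    · rfl
    · show ‖(starRingEnd ℂ) (β n)‖ = _
      rw [Complex.norm_conj]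
  have hexp : ∀ a b : ℤ, ((‖∑ n ∈ S, β n * hh Y a b n‖ ^ (2 * m) : ℝ) : ℂ) =
      ∑ x ∈ Fintype.piFinset (fun _ : Fin m ⊕ Fin m => S), ∏ i, (γ i (x i) * hh Y a b (x i)) := fun a b => by
    have h0 := Finset.prod_univ_sum (fun _ : Fin m ⊕ Fin m => S) (fun i n => γ i n * hh Y a b n)
    rw [← h0, Fintype.prod_sum_type]
    simp only [hγ, Sum.elim_inl, Sum.elim_inr, prod_const, card_univ, Fintype.card_fin]
    have h1 : ∑ n ∈ S, (starRingEnd ℂ) (β n) * hh Y a b n = (starRingEnd ℂ) (∑ n ∈ S, β n * hh Y a b n) := by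
      rw [map_sum]
      exact sum_congr rfl fun n _ => by rw [map_mul, conj_hh]
    rw [h1, ← mul_pow, Complex.mul_conj, Complex.normSq_eq_norm_sq, pow_mul]
    push_cast
    rfl
  -- the sum over the box
  have htot : ((∑ a ∈ bxA X, ∑ b ∈ bxB X, ‖∑ n ∈ S, β n * hh Y a b n‖ ^ (2 * m) : ℝ) : ℂ) =
      ∑ x ∈ Fintype.piFinset (fun _ : Fin m ⊕ Fin m => S), (∏ i, γ i (x i)) * ∑ a ∈ bxA X, ∑ b ∈ bxB X, ∏ i, hh Y a b (x i) := by
    push_cast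
    have e1 : ∀ a ∈ bxA X, ∑ b ∈ bxB X, ((‖∑ n ∈ S, β n * hh Y a b n‖ : ℝ) : ℂ) ^ (2 * m) =
        ∑ x ∈ Fintype.piFinset (fun _ : Fin m ⊕ Fin m => S), ∑ b ∈ bxB X, (∏ i, γ i (x i)) * ∏ i, hh Y a b (x i) := fun a _ => by
      rw [sum_comm]
      refine sum_congr rfl fun b _ => ?_
      have := hexp a b
      push_cast at this
      rw [this]
      exact sum_congr rfl fun x _ => prod_mul_distrib
    rw [sum_congr rfl e1, sum_comm]
    refine sum_congr rfl fun x _ => ?_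
    rw [mul_sum]
    exact sum_congr rfl fun a _ => by rw [mul_sum]
  have hnn : 0 ≤ ∑ a ∈ bxA X, ∑ b ∈ bxB X, ‖∑ n ∈ S, β n * hh Y a b n‖ ^ (2 * m) :=
    sum_nonneg fun _ _ => sum_nonneg fun _ _ => by positivity
  have h1 : ∑ a ∈ bxA X, ∑ b ∈ bxB X, ‖∑ n ∈ S, β n * hh Y a b n‖ ^ (2 * m) ≤
      ∑ x ∈ Fintype.piFinset (fun _ : Fin m ⊕ Fin m => S), (∏ i, ‖γ i (x i)‖) * ‖∑ a ∈ bxA X, ∑ b ∈ bxB X, ∏ i, hh Y a b (x i)‖ := by
    calc _ = ‖((∑ a ∈ bxA X, ∑ b ∈ bxB X, ‖∑ n ∈ S, β n * hh Y a b n‖ ^ (2 * m) : ℝ) : ℂ)‖ := by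
          rw [Complex.norm_real, Real.norm_of_nonneg hnn]
      _ ≤ _ := by
          rw [htot]
          refine (norm_sum_le _ _).trans (le_of_eq (sum_congr rfl fun x _ => ?_))
          rw [norm_mul, norm_prod]
  refine h1.trans ?_
  obtain ⟨x0, y0, L, K, hLA, hKB, hLK⟩ := box_ico hX
  have hX0 : 0 < X := by linarith
  -- the two bounds
  have hx1 : ∀ x ∈ Fintype.piFinset (fun _ : Fin m ⊕ Fin m => S), ∀ i, Y < x i ∧ x i ≤ Z := fun x hx i => by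
    rw [Fintype.mem_piFinset] at hx
    exact mem_Ioc.1 (hx i)
  have hprod : ∀ x ∈ Fintype.piFinset (fun _ : Fin m ⊕ Fin m => S), (∏ i, ‖γ i (x i)‖) * ∏ i, HH (x i) ≤
      M ^ (2 * m) * ((∏ i, x i : ℕ) : ℝ) ^ (-(1 / 2 + τ)) := fun x hx => by
    rw [← prod_mul_distrib]
    calc ∏ i, ‖γ i (x i)‖ * HH (x i) ≤ ∏ i, (M * (x i : ℝ) ^ (-(1 / 2 + τ))) := by
          refine prod_le_prod (fun i _ => mul_nonneg (norm_nonneg _) (HH_nonneg _)) fun i _ => ?_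
          rw [hγn]
          exact hβ _ (mem_Ioc.2 (hx1 x hx i))
      _ = _ := by
          rw [prod_mul_distrib, prod_const, card_univ, hι]
          congr 1
          push_cast
          rw [Real.finsetProd_rpow]
          intro i _
          positivity
  have hhle : ∀ (x : Fin m ⊕ Fin m → ℕ) (a b : ℤ), ‖∏ i, hh Y a b (x i)‖ ≤ ∏ i, HH (x i) := fun x a b => by
    rw [norm_prod]
    exact prod_le_prod (fun i _ => norm_nonneg _) fun i _ => hh_le Y a b (x i)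
  rw [← sum_filter_add_sum_filter_not _ (fun x => IsSquare (∏ i, x i))]
  have hA : ∑ x ∈ (Fintype.piFinset (fun _ : Fin m ⊕ Fin m => S)).filter (fun x => IsSquare (∏ i, x i)),
      (∏ i, ‖γ i (x i)‖) * ‖∑ a ∈ bxA X, ∑ b ∈ bxB X, ∏ i, hh Y a b (x i)‖ ≤
      9 * M ^ (2 * m) * C0 * (X ^ (5 / 6 : ℝ) * ((Y : ℝ) ^ m) ^ (-(τ / 2))) := by
    have h2 : ∀ x ∈ (Fintype.piFinset (fun _ : Fin m ⊕ Fin m => S)).filter (fun x => IsSquare (∏ i, x i)),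
        (∏ i, ‖γ i (x i)‖) * ‖∑ a ∈ bxA X, ∑ b ∈ bxB X, ∏ i, hh Y a b (x i)‖ ≤
        9 * X ^ (5 / 6 : ℝ) * M ^ (2 * m) * ((∏ i, x i : ℕ) : ℝ) ^ (-(1 / 2 + τ)) := fun x hx => by
      have hx' := (mem_filter.1 hx).1
      have h3 : ‖∑ a ∈ bxA X, ∑ b ∈ bxB X, ∏ i, hh Y a b (x i)‖ ≤ 9 * X ^ (5 / 6 : ℝ) * ∏ i, HH (x i) := by
        calc _ ≤ ∑ a ∈ bxA X, ∑ b ∈ bxB X, ∏ i, HH (x i) := by
              refine (norm_sum_le _ _).trans (sum_le_sum fun a _ => (norm_sum_le _ _).trans (sum_le_sum fun b _ => hhle x a b))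
          _ = (((bxA X) ×ˢ (bxB X)).card : ℝ) * ∏ i, HH (x i) := by
              simp only [sum_const, nsmul_eq_mul, card_product]
              push_cast
              ring
          _ ≤ _ := mul_le_mul_of_nonneg_right (box_card hX) (prod_nonneg fun i _ => HH_nonneg _)
      calc _ ≤ (∏ i, ‖γ i (x i)‖) * (9 * X ^ (5 / 6 : ℝ) * ∏ i, HH (x i)) :=
            mul_le_mul_of_nonneg_left h3 (prod_nonneg fun i _ => norm_nonneg _)
        _ = 9 * X ^ (5 / 6 : ℝ) * ((∏ i, ‖γ i (x i)‖) * ∏ i, HH (x i)) := by ring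
        _ ≤ 9 * X ^ (5 / 6 : ℝ) * (M ^ (2 * m) * ((∏ i, x i : ℕ) : ℝ) ^ (-(1 / 2 + τ))) :=
            mul_le_mul_of_nonneg_left (hprod x hx') (by positivity)
        _ = _ := by ring
    refine (sum_le_sum h2).trans ?_
    rw [← mul_sum]
    calc _ ≤ 9 * X ^ (5 / 6 : ℝ) * M ^ (2 * m) * (C0 * ((Y : ℝ) ^ m) ^ (-(τ / 2))) :=
          mul_le_mul_of_nonneg_left (hsq Y Z hY) (by positivity)
      _ = _ := by ring
  have hB : ∑ x ∈ (Fintype.piFinset (fun _ : Fin m ⊕ Fin m => S)).filter (fun x => ¬ IsSquare (∏ i, x i)),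
      (∏ i, ‖γ i (x i)‖) * ‖∑ a ∈ bxA X, ∑ b ∈ bxB X, ∏ i, hh Y a b (x i)‖ ≤
      6 * M ^ (2 * m) * (X ^ (1 / 2 : ℝ) * (Z : ℝ) ^ (4 * m)) := by
    have h2 : ∀ x ∈ (Fintype.piFinset (fun _ : Fin m ⊕ Fin m => S)).filter (fun x => ¬ IsSquare (∏ i, x i)),
        (∏ i, ‖γ i (x i)‖) * ‖∑ a ∈ bxA X, ∑ b ∈ bxB X, ∏ i, hh Y a b (x i)‖ ≤
        6 * M ^ (2 * m) * X ^ (1 / 2 : ℝ) * (Z : ℝ) ^ (2 * m) := fun x hx => by
      obtain ⟨hx', hns⟩ := mem_filter.1 hx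
      have hxp : ∀ i, 0 < x i := fun i => by have := (hx1 x hx' i).1; omega
      have hP1 : 1 ≤ ∏ i, x i := Nat.one_le_iff_ne_zero.2 (prod_ne_zero_iff.2 fun i _ => (hxp i).ne')
      have hP1' : (1:ℝ) ≤ ((∏ i, x i : ℕ) : ℝ) := by exact_mod_cast hP1
      have hPZ : ((∏ i, x i : ℕ) : ℝ) ≤ (Z:ℝ) ^ (2 * m) := by
        have : ∏ i, x i ≤ Z ^ (2 * m) := by
          calc ∏ i, x i ≤ ∏ _i : Fin m ⊕ Fin m, Z := prod_le_prod' fun i _ => (hx1 x hx' i).2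
            _ = _ := by rw [prod_const, card_univ, hι]
        exact_mod_cast this
      have h3 := prod_avg Y x hxp hns (∏ i, HH (x i)) (hhle x) x0 y0 L K
      rw [← hLA, ← hKB] at h3
      have h4 : ((∏ i, x i : ℕ) : ℝ) ^ (-(1 / 2 + τ)) ≤ 1 := Real.rpow_le_one_of_one_le_of_nonpos hP1' (by linarith)
      have hLK0 : (0:ℝ) ≤ (L:ℝ) + K := by positivity
      calc _ ≤ (∏ i, ‖γ i (x i)‖) * ((∏ i, HH (x i)) * ((∏ i, x i : ℕ) : ℝ) * (L + K)) :=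
            mul_le_mul_of_nonneg_left h3 (prod_nonneg fun i _ => norm_nonneg _)
        _ = ((∏ i, ‖γ i (x i)‖) * ∏ i, HH (x i)) * (((∏ i, x i : ℕ) : ℝ) * (L + K)) := by ring
        _ ≤ (M ^ (2 * m) * 1) * ((Z:ℝ) ^ (2 * m) * (6 * X ^ (1 / 2 : ℝ))) := by
            refine mul_le_mul ((hprod x hx').trans (mul_le_mul_of_nonneg_left h4 (by positivity))) (mul_le_mul hPZ hLK hLK0 (by positivity))
              (by positivity) (by positivity)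
        _ = _ := by ring
    refine (sum_le_sum h2).trans ?_
    rw [sum_const, nsmul_eq_mul]
    have h3 : ((((Fintype.piFinset (fun _ : Fin m ⊕ Fin m => S)).filter (fun x => ¬ IsSquare (∏ i, x i))).card : ℕ) : ℝ) ≤ (Z:ℝ) ^ (2 * m) := by
      have h5 := card_filter_le (Fintype.piFinset (fun _ : Fin m ⊕ Fin m => S)) (fun x => ¬ IsSquare (∏ i, x i))
      rw [Fintype.card_piFinset] at h5
      simp only [prod_const, card_univ, hι] at h5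
      have h6 : S.card ≤ Z := by rw [hS, Nat.card_Ioc]; omega
      exact_mod_cast h5.trans (Nat.pow_le_pow_left h6 _)
    calc _ ≤ (Z:ℝ) ^ (2 * m) * (6 * M ^ (2 * m) * X ^ (1 / 2 : ℝ) * (Z : ℝ) ^ (2 * m)) := mul_le_mul_of_nonneg_right h3 (by positivity)
      _ = _ := by
          have : (Z:ℝ) ^ (4 * m) = (Z:ℝ) ^ (2 * m) * (Z:ℝ) ^ (2 * m) := by rw [← pow_add]; congr 1; ring
          rw [this]
          ring
  have hu : 0 ≤ X ^ (5 / 6 : ℝ) * ((Y : ℝ) ^ m) ^ (-(τ / 2)) := by positivity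
  have hv : 0 ≤ X ^ (1 / 2 : ℝ) * (Z : ℝ) ^ (4 * m) := by positivity
  have hM2 : 0 ≤ M ^ (2 * m) := by positivity
  calc _ ≤ 9 * M ^ (2 * m) * C0 * (X ^ (5 / 6 : ℝ) * ((Y : ℝ) ^ m) ^ (-(τ / 2))) +
        6 * M ^ (2 * m) * (X ^ (1 / 2 : ℝ) * (Z : ℝ) ^ (4 * m)) := add_le_add hA hB
    _ ≤ _ := by
        have h9 : 0 ≤ 9 * M ^ (2 * m) * C0 := by positivity
        nlinarith

end Pool.Agent.KS6_10
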