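import Pool.Agent.KS6_10.OneZ
import Pool.Agent.KS6_10.Mom

/-!
# Large values of the detecting polynomials in the family
-/

set_option autoImplicit false
set_option linter.unusedVariables false

namespace Pool.Agent.KS6_10

open Finset Complex

theorem bet_norm {τ δ : ℝ} (hδ : 0 < δ) (hτ1 : τ ≤ 1 / 2) (k : ℕ) {n : ℕ} (hn : 1 ≤ n) : ‖bet τ δ k n‖ ≤ (n:ℝ) ^ (-(1 + τ)) := by
  have hn1 : (1:ℝ) ≤ n := by exact_mod_cast hn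
  have hn0 : (0:ℝ) < n := by linarith
  have hlog : 0 ≤ Real.log n := Real.log_nonneg hn1
  have hc : 0 ≤ 1 / 2 + δ - τ := by linarith
  have hr1 : (-(1 / 2) : ℂ).re = -(1 / 2 : ℝ) := by norm_num
  have hr2 : ((-(1 + δ : ℝ) : ℂ)).re = -(1 + δ) := by simp
  unfold bet
  rw [norm_mul, norm_mul, Complex.norm_natCast_cpow_of_pos hn, Complex.norm_natCast_cpow_of_pos hn, Complex.norm_real,
    Real.norm_of_nonneg (by positivity), hr1, hr2]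
  have h1 := Real.pow_div_factorial_le_exp ((1 / 2 + δ - τ) * Real.log n) (by positivity) k
  have h2 : Real.exp ((1 / 2 + δ - τ) * Real.log n) = (n:ℝ) ^ (1 / 2 + δ - τ) := by
    rw [Real.rpow_def_of_pos hn0, mul_comm]
  rw [h2] at h1
  calc (n:ℝ) ^ (-(1 / 2 : ℝ)) * (((1 / 2 + δ - τ) * Real.log n) ^ k / k.factorial) * (n:ℝ) ^ (-(1 + δ))
      ≤ (n:ℝ) ^ (-(1 / 2 : ℝ)) * (n:ℝ) ^ (1 / 2 + δ - τ) * (n:ℝ) ^ (-(1 + δ)) := by gcongr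
    _ = _ := by
        rw [← Real.rpow_add hn0, ← Real.rpow_add hn0]
        congr 1; ring

theorem bet_HH {τ δ : ℝ} (hδ : 0 < δ) (hτ : 0 < τ) (hτ1 : τ ≤ 1 / 2) : ∃ M : ℝ, 1 ≤ M ∧ ∀ k n : ℕ, 1 ≤ n →
    ‖bet τ δ k n‖ * HH n ≤ M * (n:ℝ) ^ (-(1 / 2 + τ / 2)) := by
  obtain ⟨C, hC, hd⟩ := tau_le (τ / 6) (by linarith)
  refine ⟨C ^ 3, one_le_pow₀ hC, fun k n hn => ?_⟩
  have hn1 : (1:ℝ) ≤ n := by exact_mod_cast hn
  have hn0 : (0:ℝ) < n := by linarith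
  unfold HH
  calc ‖bet τ δ k n‖ * ((n.divisors.card : ℝ) ^ 3 * Real.sqrt n) ≤ (n:ℝ) ^ (-(1 + τ)) * ((C * (n:ℝ) ^ (τ / 6)) ^ 3 * (n:ℝ) ^ (1 / 2 : ℝ)) := by
        refine mul_le_mul (bet_norm hδ hτ1 k hn) ?_ (by positivity) (by positivity)
        rw [Real.sqrt_eq_rpow]
        exact mul_le_mul_of_nonneg_right (pow_le_pow_left₀ (by positivity) (hd n (by omega)) 3) (by positivity)
    _ = C ^ 3 * ((n:ℝ) ^ (-(1 + τ)) * (n:ℝ) ^ (τ / 6 * 3) * (n:ℝ) ^ (1 / 2 : ℝ)) := by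
        rw [mul_pow, ← Real.rpow_natCast ((n:ℝ) ^ (τ / 6)) 3, ← Real.rpow_mul hn0.le]
        push_cast
        ring
    _ = _ := by
        rw [← Real.rpow_add hn0, ← Real.rpow_add hn0]
        congr 2; ring

theorem norm_npow {n : ℕ} (hn : 1 ≤ n) (t : ℝ) : ‖(n:ℂ) ^ (-(t:ℂ) * I)‖ = 1 := by
  rw [Complex.norm_natCast_cpow_of_pos hn]
  have : (-(t:ℂ) * I).re = 0 := by simp
  rw [this, Real.rpow_zero]

theorem npow_lip {n : ℕ} (hn : 1 ≤ n) (s t : ℝ) : ‖(n:ℂ) ^ (-(s:ℂ) * I) - (n:ℂ) ^ (-(t:ℂ) * I)‖ ≤ |s - t| * n := by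
  have hn1 : (1:ℝ) ≤ n := by exact_mod_cast hn
  have hn0 : (0:ℝ) < n := by linarith
  have hnc : (n:ℂ) ≠ 0 := by exact_mod_cast (by omega : n ≠ 0)
  have hlog : 0 ≤ Real.log n := Real.log_nonneg hn1
  have e : (n:ℂ) ^ (-(s:ℂ) * I) = (n:ℂ) ^ (-(t:ℂ) * I) * cexp (I * ((-(s - t) * Real.log n : ℝ) : ℂ)) := by
    rw [Complex.cpow_def_of_ne_zero hnc, Complex.cpow_def_of_ne_zero hnc, ← Complex.exp_add, ← Complex.natCast_log]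
    congr 1
    push_cast
    ring
  rw [e]
  have e2 : (n:ℂ) ^ (-(t:ℂ) * I) * cexp (I * ((-(s - t) * Real.log n : ℝ) : ℂ)) - (n:ℂ) ^ (-(t:ℂ) * I) =
      (n:ℂ) ^ (-(t:ℂ) * I) * (cexp (I * ((-(s - t) * Real.log n : ℝ) : ℂ)) - 1) := by ring
  rw [e2, norm_mul, norm_npow hn, one_mul]
  refine (Real.norm_exp_I_mul_ofReal_sub_one_le).trans ?_
  rw [Real.norm_eq_abs, abs_mul, abs_neg, abs_of_nonneg hlog]
  refine mul_le_mul_of_nonneg_left ?_ (abs_nonneg _)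
  have := Real.log_le_sub_one_of_pos hn0
  linarith

/-- the detecting polynomial -/
noncomputable def pol (τ δ : ℝ) (k Y Z : ℕ) (t : ℝ) (a b : ℤ) : ℂ :=
  ∑ n ∈ Ioc Y Z, (bet τ δ k n * (n : ℂ) ^ (-(t : ℂ) * I)) * hh Y a b n

theorem pol_lip {τ δ M : ℝ} (hM : 0 ≤ M) (hβ : ∀ k n : ℕ, 1 ≤ n → ‖bet τ δ k n‖ * HH n ≤ M) (k Y Z : ℕ) (s t : ℝ) (a b : ℤ) :
    ‖pol τ δ k Y Z s a b - pol τ δ k Y Z t a b‖ ≤ M * |s - t| * (Z:ℝ) ^ 2 := by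
  unfold pol
  rw [← sum_sub_distrib]
  have key : ∀ n ∈ Ioc Y Z, ‖bet τ δ k n * (n : ℂ) ^ (-(s : ℂ) * I) * hh Y a b n - bet τ δ k n * (n : ℂ) ^ (-(t : ℂ) * I) * hh Y a b n‖ ≤
      M * |s - t| * Z := fun n hn => by
    rw [mem_Ioc] at hn
    have hn1 : 1 ≤ n := by omega
    have e : bet τ δ k n * (n : ℂ) ^ (-(s : ℂ) * I) * hh Y a b n - bet τ δ k n * (n : ℂ) ^ (-(t : ℂ) * I) * hh Y a b n =
      bet τ δ k n * hh Y a b n * ((n : ℂ) ^ (-(s : ℂ) * I) - (n : ℂ) ^ (-(t : ℂ) * I)) := by ring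
    rw [e, norm_mul, norm_mul]
    have h1 : ‖bet τ δ k n‖ * ‖hh Y a b n‖ ≤ M :=
      (mul_le_mul_of_nonneg_left (hh_le Y a b n) (norm_nonneg _)).trans (hβ k n hn1)
    have h2 : |s - t| * (n:ℝ) ≤ |s - t| * Z := mul_le_mul_of_nonneg_left (by exact_mod_cast hn.2) (abs_nonneg _)
    calc ‖bet τ δ k n‖ * ‖hh Y a b n‖ * ‖(n : ℂ) ^ (-(s : ℂ) * I) - (n : ℂ) ^ (-(t : ℂ) * I)‖ ≤ M * (|s - t| * Z) :=
          mul_le_mul h1 ((npow_lip hn1 s t).trans h2) (norm_nonneg _) hM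
      _ = _ := by ring
  refine (norm_sum_le_of_le _ key).trans ?_
  rw [sum_const, Nat.card_Ioc, nsmul_eq_mul]
  have h3 : ((Z - Y : ℕ) : ℝ) ≤ Z := by exact_mod_cast Nat.sub_le Z Y
  have h4 : 0 ≤ M * |s - t| * Z := by positivity
  calc ((Z - Y : ℕ) : ℝ) * (M * |s - t| * Z) ≤ Z * (M * |s - t| * Z) := mul_le_mul_of_nonneg_right h3 h4
    _ = _ := by ring

open Classical in
theorem large_count {τ δ : ℝ} (hδ : 0 < δ) (hτ : 0 < τ) (hτ1 : τ ≤ 1 / 2) (m : ℕ) : ∃ C : ℝ, 0 < C ∧ ∀ (X : ℝ) (Y Z k : ℕ) (t V : ℝ), 1 ≤ X →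
    1 ≤ Y → 0 < V →
    (((bxA X ×ˢ bxB X).filter (fun ab => 1 / V ≤ ‖pol τ δ k Y Z t ab.1 ab.2‖)).card : ℝ) ≤
      V ^ (2 * m) * (C * (X ^ (5 / 6 : ℝ) * ((Y : ℝ) ^ m) ^ (-(τ / 4)) + X ^ (1 / 2 : ℝ) * (Z : ℝ) ^ (4 * m))) := by
  obtain ⟨M, hM, hβ⟩ := bet_HH hδ hτ hτ1
  obtain ⟨C, hC, hmom⟩ := moment m (τ / 2) (by linarith) M (by linarith)
  refine ⟨C, hC, fun X Y Z k t V hX hY hV => ?_⟩
  have h1 := hmom X Y Z (fun n => bet τ δ k n * (n : ℂ) ^ (-(t : ℂ) * I)) hX hY (fun n hn => by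
    rw [mem_Ioc] at hn
    have hn1 : 1 ≤ n := by omega
    rw [norm_mul, norm_npow hn1, mul_one]
    exact hβ k n hn1)
  have e : τ / 2 / 2 = τ / 4 := by ring
  rw [e] at h1
  rw [← sum_product (f := fun ab : ℤ × ℤ => ‖∑ n ∈ Ioc Y Z, (bet τ δ k n * (n : ℂ) ^ (-(t : ℂ) * I)) * hh Y ab.1 ab.2 n‖ ^ (2 * m))] at h1
  set S := (bxA X ×ˢ bxB X).filter (fun ab => 1 / V ≤ ‖pol τ δ k Y Z t ab.1 ab.2‖) with hS
  have h2 : (S.card : ℝ) * (1 / V) ^ (2 * m) ≤ ∑ ab ∈ bxA X ×ˢ bxB X, ‖pol τ δ k Y Z t ab.1 ab.2‖ ^ (2 * m) := by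
    calc (S.card : ℝ) * (1 / V) ^ (2 * m) = ∑ ab ∈ S, (1 / V) ^ (2 * m) := by rw [sum_const, nsmul_eq_mul]
      _ ≤ ∑ ab ∈ S, ‖pol τ δ k Y Z t ab.1 ab.2‖ ^ (2 * m) := sum_le_sum fun ab hab => by
          rw [hS, mem_filter] at hab
          exact pow_le_pow_left₀ (by positivity) hab.2 _
      _ ≤ _ := sum_le_sum_of_subset_of_nonneg (filter_subset _ _) fun ab _ _ => by positivity
  have h3 := h2.trans h1
  have hVp : 0 < V ^ (2 * m) := by positivity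
  have e3 : (1 / V) ^ (2 * m) = (V ^ (2 * m))⁻¹ := by rw [one_div, inv_pow]
  rw [e3, ← div_eq_mul_inv, div_le_iff₀ hVp] at h3
  linarith

end Pool.Agent.KS6_10
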