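import Pool.Agent.KS6_10.One4

/-!
# Counting the exceptional curves
-/

set_option autoImplicit false
set_option linter.unusedVariables false

namespace Pool.Agent.KS6_10

open Finset ArithmeticFunction Filter Topology MeasureTheory
open scoped ArithmeticFunction ENNReal

theorem JX_log (κ : ℝ) (hκ : 0 < κ) {X : ℝ} (hX : 1 ≤ X) : ((JX X : ℝ) + 1) ^ 2 ≤ (1 + 1 / κ) ^ 2 * X ^ κ := by
  have hX0 : 0 < X := by linarith
  have h1 := Real.log_le_log (by positivity) (JX_le hX)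
  rw [Real.log_pow, Real.log_rpow hX0] at h1
  have h2 : Real.log X ≤ X ^ (κ / 2) / (κ / 2) := Real.log_le_rpow_div hX0.le (by positivity)
  have h3 : (1:ℝ) / 2 ≤ Real.log 2 := by have := Real.log_two_gt_d9; linarith
  have h4 : (JX X : ℝ) * (1 / 2) ≤ JX X * Real.log 2 := mul_le_mul_of_nonneg_left h3 (Nat.cast_nonneg _)
  have hXk : 1 ≤ X ^ (κ / 2) := Real.one_le_rpow hX (by positivity)
  have h5 : (JX X : ℝ) + 1 ≤ (1 + 1 / κ) * X ^ (κ / 2) := by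
    have h6 : (JX X : ℝ) ≤ 1 / κ * X ^ (κ / 2) := by
      have h7 : X ^ (κ / 2) / (κ / 2) = 2 * (1 / κ * X ^ (κ / 2)) := by field_simp
      rw [h7] at h2
      linarith
    linarith
  calc ((JX X : ℝ) + 1) ^ 2 ≤ ((1 + 1 / κ) * X ^ (κ / 2)) ^ 2 := pow_le_pow_left₀ (by positivity) h5 2
    _ = _ := by
        rw [mul_pow, ← Real.rpow_natCast (X ^ (κ / 2)) 2, ← Real.rpow_mul hX0.le]
        congr 2
        push_cast
        ring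

open Classical in
/-- **few curves are not good** -/
theorem bad_count (κ : ℝ) (hκ : 0 < κ) (hκ1 : κ ≤ 1 / 4) : ∃ C : ℝ, 0 < C ∧ ∀ X : ℝ, 1 ≤ X →
    (((bxA X ×ˢ bxB X).filter (fun ab => ¬ Good κ X ab.1 ab.2)).card : ℝ) ≤ C * X ^ (5 / 6 - 2 * κ) := by
  obtain ⟨C1, hC1, h1⟩ := bsum κ hκ hκ1
  obtain ⟨C2, hC2, h2⟩ := msum κ hκ
  refine ⟨C1 + C2 * (1 + 1 / κ) ^ 2, by positivity, fun X hX => ?_⟩
  have hX0 : 0 < X := by linarith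
  have hV0 : 0 < X ^ (12 * κ) := Real.rpow_pos_of_pos hX0 _
  set I : ℤ × ℤ → ℝ≥0∞ := fun ab => ∫⁻ u in Set.Ioi (r0 X), ENNReal.ofReal (u ^ (1 / 3 : ℝ)) *
      ‖Bs (sfi (vS ab.1 ab.2)) (rot (ang X κ) * u)‖ₑ with hI
  set S1 := (bxA X ×ˢ bxB X).filter (fun ab => ¬ (I ab ≤ ENNReal.ofReal (X ^ (12 * κ)))) with hS1
  set S2 := (bxA X ×ˢ bxB X).filter (fun ab => ¬ (JM (JX X) ab.1 ab.2 ≤ X ^ (12 * κ))) with hS2
  have hsub : (bxA X ×ˢ bxB X).filter (fun ab => ¬ Good κ X ab.1 ab.2) ⊆ S1 ∪ S2 := by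
    intro ab hab
    rw [mem_filter] at hab
    rw [mem_union, hS1, hS2, mem_filter, mem_filter]
    by_cases h : I ab ≤ ENNReal.ofReal (X ^ (12 * κ))
    · right
      exact ⟨hab.1, fun h' => hab.2 ⟨h, h'⟩⟩
    · left
      exact ⟨hab.1, h⟩
  have hc1 : (S1.card : ℝ) ≤ C1 * X ^ (5 / 6 - 2 * κ) := by
    have e1 : (S1.card : ℝ≥0∞) * ENNReal.ofReal (X ^ (12 * κ)) ≤ ENNReal.ofReal (C1 * X ^ (5 / 6 + 10 * κ)) := by
      calc (S1.card : ℝ≥0∞) * ENNReal.ofReal (X ^ (12 * κ)) = ∑ ab ∈ S1, ENNReal.ofReal (X ^ (12 * κ)) := by rw [sum_const, nsmul_eq_mul]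
        _ ≤ ∑ ab ∈ S1, I ab := sum_le_sum fun ab hab => by
            rw [hS1, mem_filter] at hab
            exact (not_le.1 hab.2).le
        _ ≤ ∑ ab ∈ bxA X ×ˢ bxB X, I ab := sum_le_sum_of_subset (filter_subset _ _)
        _ ≤ _ := h1 X hX
    have e2 : (S1.card : ℝ) * X ^ (12 * κ) ≤ C1 * X ^ (5 / 6 + 10 * κ) := by
      rw [← ENNReal.ofReal_natCast, ← ENNReal.ofReal_mul (by positivity), ENNReal.ofReal_le_ofReal_iff (by positivity)] at e1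
      exact e1
    have e3 : X ^ (5 / 6 + 10 * κ) = X ^ (5 / 6 - 2 * κ) * X ^ (12 * κ) := by
      rw [← Real.rpow_add hX0]; congr 1; ring
    rw [e3, ← mul_assoc] at e2
    exact le_of_mul_le_mul_right e2 hV0
  have hc2 : (S2.card : ℝ) ≤ C2 * (1 + 1 / κ) ^ 2 * X ^ (5 / 6 - 2 * κ) := by
    have e1 : (S2.card : ℝ) * X ^ (12 * κ) ≤ C2 * X ^ (5 / 6 + κ) * (JX X + 1) ^ 2 := by
      calc (S2.card : ℝ) * X ^ (12 * κ) = ∑ ab ∈ S2, X ^ (12 * κ) := by rw [sum_const, nsmul_eq_mul]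
        _ ≤ ∑ ab ∈ S2, JM (JX X) ab.1 ab.2 := sum_le_sum fun ab hab => by
            rw [hS2, mem_filter] at hab
            exact (not_le.1 hab.2).le
        _ ≤ ∑ ab ∈ bxA X ×ˢ bxB X, JM (JX X) ab.1 ab.2 := sum_le_sum_of_subset_of_nonneg (filter_subset _ _) fun ab _ _ => JM_nonneg _ _ _
        _ ≤ _ := h2 X (JX X) hX (JX_sq hX)
    have e2 : C2 * X ^ (5 / 6 + κ) * ((JX X : ℝ) + 1) ^ 2 ≤ (C2 * (1 + 1 / κ) ^ 2 * X ^ (5 / 6 - 2 * κ)) * X ^ (12 * κ) := by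
      calc C2 * X ^ (5 / 6 + κ) * ((JX X : ℝ) + 1) ^ 2 ≤ C2 * X ^ (5 / 6 + κ) * ((1 + 1 / κ) ^ 2 * X ^ κ) :=
            mul_le_mul_of_nonneg_left (JX_log κ hκ hX) (by positivity)
        _ = C2 * (1 + 1 / κ) ^ 2 * (X ^ (5 / 6 + κ) * X ^ κ) := by ring
        _ ≤ C2 * (1 + 1 / κ) ^ 2 * (X ^ (5 / 6 - 2 * κ) * X ^ (12 * κ)) := by
            refine mul_le_mul_of_nonneg_left ?_ (by positivity)
            rw [← Real.rpow_add hX0, ← Real.rpow_add hX0]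
            exact Real.rpow_le_rpow_of_exponent_le hX (by linarith)
        _ = _ := by ring
    exact le_of_mul_le_mul_right (e1.trans e2) hV0
  calc (((bxA X ×ˢ bxB X).filter (fun ab => ¬ Good κ X ab.1 ab.2)).card : ℝ) ≤ ((S1 ∪ S2).card : ℝ) := by exact_mod_cast card_le_card hsub
    _ ≤ (S1.card : ℝ) + S2.card := by exact_mod_cast card_union_le S1 S2
    _ ≤ C1 * X ^ (5 / 6 - 2 * κ) + C2 * (1 + 1 / κ) ^ 2 * X ^ (5 / 6 - 2 * κ) := add_le_add hc1 hc2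
    _ = _ := by ring

/-- the exceptional set -/
def Exc (δ κ X : ℝ) : Set (ℤ × ℤ) :=
  {ab | |(ab.1 : ℝ)| ≤ X ^ (1 / 3 : ℝ) ∧ |(ab.2 : ℝ)| ≤ X ^ (1 / 2 : ℝ) ∧ 4 * ab.1 ^ 3 + 27 * ab.2 ^ 2 ≠ 0 ∧
    ∃ (N : ℕ) (ε : ℝ) (c : ArithmeticFunction ℂ) (G : ℂ → ℂ), CD ab.1 ab.2 N ε c G ∧ ∃ F : ℂ → ℂ, IsLF ab.1 ab.2 F ∧
      ∃ s : ℂ, 4 / 3 + δ ≤ s.re ∧ |s.im| ≤ X ^ κ ∧ ¬ (X ^ (-δ) ≤ ‖F s‖ ∧ ‖F s‖ ≤ X ^ δ)}

theorem mem_box {X : ℝ} (hX : 1 ≤ X) {a b : ℤ} (ha : |(a : ℝ)| ≤ X ^ (1 / 3 : ℝ)) (hb : |(b : ℝ)| ≤ X ^ (1 / 2 : ℝ)) :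
    a ∈ bxA X ∧ b ∈ bxB X := by
  unfold bxA bxB
  rw [mem_Icc, mem_Icc, ← abs_le, ← abs_le]
  have key : ∀ (z : ℤ) (t : ℝ), |(z:ℝ)| ≤ t → |z| ≤ (⌊t⌋₊ : ℤ) := fun z t h => by
    have h1 : (z.natAbs : ℝ) ≤ t := by rw [Nat.cast_natAbs, Int.cast_abs]; exact h
    have h2 : z.natAbs ≤ ⌊t⌋₊ := Nat.le_floor h1
    rw [Int.abs_eq_natAbs]
    exact_mod_cast h2
  exact ⟨key a _ ha, key b _ hb⟩

/-- **almost all curves** -/
theorem main_count (δ : ℝ) (hδ : 0 < δ) : ∃ κ : ℝ, 0 < κ ∧ ∃ C : ℝ, 0 < C ∧ ∀ X : ℝ, 1 ≤ X →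
    (Exc δ κ X).Finite ∧ ((Exc δ κ X).ncard : ℝ) ≤ C * X ^ (5 / 6 - κ) := by
  classical
  set δ' : ℝ := min δ 1 with hδ'
  have hδ0 : 0 < δ' := lt_min hδ one_pos
  have hδ1 : δ' ≤ 1 := min_le_right _ _
  have hδδ : δ' ≤ δ := min_le_left _ _
  set κ : ℝ := δ' / 1000 with hκd
  have hκ : 0 < κ := by positivity
  have hκ1 : κ ≤ 1 / 4 := by rw [hκd]; linarith
  obtain ⟨C, hC, hcount⟩ := bad_count κ hκ hκ1
  obtain ⟨X0, hX0, hone⟩ := one_curve δ' hδ0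
  refine ⟨κ, hκ, C + 9 * X0 ^ κ, by positivity, fun X hX => ?_⟩
  have hXp : 0 < X := by linarith
  have hsub : Exc δ κ X ⊆ ((bxA X ×ˢ bxB X : Finset (ℤ × ℤ)) : Set (ℤ × ℤ)) := fun ab hab => by
    obtain ⟨h1, h2, -⟩ := hab
    have := mem_box hX h1 h2
    exact_mod_cast mem_product.2 this
  have hfin : (Exc δ κ X).Finite := (Finset.finite_toSet _).subset hsub
  refine ⟨hfin, ?_⟩
  rcases le_or_gt X0 X with hge | hlt
  · have hsub2 : Exc δ κ X ⊆ (((bxA X ×ˢ bxB X).filter (fun ab => ¬ Good κ X ab.1 ab.2) : Finset (ℤ × ℤ)) : Set (ℤ × ℤ)) := by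
      intro ab hab
      have hmem := hsub hab
      obtain ⟨h1, h2, h3, N, ε, c, G, hcd, F, hF, s, hs, ht, hbad⟩ := hab
      rw [Finset.mem_coe, mem_filter]
      refine ⟨by exact_mod_cast hmem, fun hg => hbad ?_⟩
      obtain ⟨m1, m2⟩ := mem_box hX h1 h2
      obtain ⟨l1, l2⟩ := hone X ab.1 ab.2 hge m1 m2 h3 hg N ε c G hcd F hF s (by linarith) ht
      exact ⟨(Real.rpow_le_rpow_of_exponent_le hX (by linarith)).trans l1, l2.trans (Real.rpow_le_rpow_of_exponent_le hX hδδ)⟩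
    have h1 := Set.ncard_le_ncard hsub2 (Finset.finite_toSet _)
    rw [Set.ncard_coe_finset] at h1
    calc ((Exc δ κ X).ncard : ℝ) ≤ (((bxA X ×ˢ bxB X).filter (fun ab => ¬ Good κ X ab.1 ab.2)).card : ℝ) := by exact_mod_cast h1
      _ ≤ C * X ^ (5 / 6 - 2 * κ) := hcount X hX
      _ ≤ C * X ^ (5 / 6 - κ) := mul_le_mul_of_nonneg_left (Real.rpow_le_rpow_of_exponent_le hX (by linarith)) hC.le
      _ ≤ _ := by
          refine mul_le_mul_of_nonneg_right ?_ (by positivity)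
          have : 0 ≤ X0 ^ κ := by positivity
          linarith
  · have h1 := Set.ncard_le_ncard hsub (Finset.finite_toSet _)
    rw [Set.ncard_coe_finset] at h1
    have h2 : X ^ κ ≤ X0 ^ κ := Real.rpow_le_rpow hXp.le hlt.le hκ.le
    calc ((Exc δ κ X).ncard : ℝ) ≤ ((bxA X ×ˢ bxB X).card : ℝ) := by exact_mod_cast h1
      _ ≤ 9 * X ^ (5 / 6 : ℝ) := box_card hX
      _ = 9 * (X ^ κ * X ^ (5 / 6 - κ)) := by rw [← Real.rpow_add hXp]; congr 2; ring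
      _ ≤ 9 * (X0 ^ κ * X ^ (5 / 6 - κ)) := by gcongr
      _ = (9 * X0 ^ κ) * X ^ (5 / 6 - κ) := by ring
      _ ≤ _ := mul_le_mul_of_nonneg_right (by linarith) (by positivity)

end Pool.Agent.KS6_10
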