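import Pool.Agent.KS6_10.FinA
import Pool.Agent.KS6_10.Final

/-!
# Counting the curves with an isolated zero off the line
-/

set_option autoImplicit false
set_option linter.unusedVariables false

namespace Pool.Agent.KS6_10

open Finset Complex Metric

/-- the exceptional set -/
def ExcZ (τ δ η κ X : ℝ) : Set (ℤ × ℤ) :=
  {ab | |(ab.1 : ℝ)| ≤ X ^ (1 / 3 : ℝ) ∧ |(ab.2 : ℝ)| ≤ X ^ (1 / 2 : ℝ) ∧ 4 * ab.1 ^ 3 + 27 * ab.2 ^ 2 ≠ 0 ∧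
    ∃ (N : ℕ) (ε : ℝ) (c : ArithmeticFunction ℂ) (G : ℂ → ℂ), CD ab.1 ab.2 N ε c G ∧ ∃ F : ℂ → ℂ, IsLF ab.1 ab.2 F ∧
      ∃ ρ : ℂ, F ρ = 0 ∧ 1 + τ ≤ ρ.re ∧ |ρ.im| ≤ X ^ κ ∧
        (nz F (closedBall (⟨3 / 2, ρ.im⟩ : ℂ) (3 / 2 - ρ.re + δ)) : ℝ) ≤ η * Real.log X}

theorem grid {M : ℝ} (hM : 1 ≤ M) {τ δ : ℝ} (hβ : ∀ k n : ℕ, 1 ≤ n → ‖bet τ δ k n‖ * HH n ≤ M) {K Z D k Y : ℕ} (hK : 1 ≤ K) (hKZ : K ≤ Z)
    (hD : 4 * M * (Z:ℝ) ^ 3 ≤ D) {a b : ℤ} {γ W : ℝ} (hW : |γ| ≤ W)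
    (h : 1 / (2 * (K:ℝ)) ≤ ‖pol τ δ k Y Z γ a b‖) :
    ∃ j ∈ Icc (-((⌊D * W⌋₊ + 1 : ℕ) : ℤ)) ((⌊D * W⌋₊ + 1 : ℕ) : ℤ), 1 / (4 * (K:ℝ)) ≤ ‖pol τ δ k Y Z ((j:ℝ) / D) a b‖ := by
  have hKr : (1:ℝ) ≤ K := by exact_mod_cast hK
  have hZr : (K:ℝ) ≤ Z := by exact_mod_cast hKZ
  have hZ1 : (1:ℝ) ≤ Z := hKr.trans hZr
  have hZ0 : (0:ℝ) < Z := by linarith
  have hD0 : (0:ℝ) < D := lt_of_lt_of_le (by positivity) hD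
  refine ⟨round (γ * D), ?_, ?_⟩
  · rw [mem_Icc, ← abs_le]
    have h1 : |(round (γ * D) : ℝ)| ≤ D * W + 1 := by
      have h2 := abs_sub_round (γ * D)
      have h3 : |γ * D| ≤ D * W := by
        rw [abs_mul, abs_of_pos hD0, mul_comm]
        exact mul_le_mul_of_nonneg_left hW hD0.le
      have h4 : (round (γ * D) : ℝ) = γ * D - (γ * D - round (γ * D)) := by ring
      rw [h4]
      refine (abs_sub _ _).trans ?_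
      linarith
    have h2 : ((round (γ * D)).natAbs : ℝ) ≤ D * W + 1 := by
      rw [Nat.cast_natAbs, Int.cast_abs]
      exact h1
    have h3 : (round (γ * D)).natAbs ≤ ⌊(D:ℝ) * W + 1⌋₊ := Nat.le_floor h2
    have hW0 : 0 ≤ W := (abs_nonneg _).trans hW
    rw [Nat.floor_add_one (by positivity)] at h3
    rw [Int.abs_eq_natAbs]
    exact_mod_cast h3
  · have h1 := pol_lip (by linarith) hβ k Y Z γ ((round (γ * D) : ℝ) / D) a b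
    have h2 : |γ - (round (γ * D) : ℝ) / D| ≤ 1 / (4 * M * (Z:ℝ) ^ 3) := by
      have e : γ - (round (γ * D) : ℝ) / D = (γ * D - round (γ * D)) / D := by field_simp
      rw [e, abs_div, abs_of_pos hD0]
      have h3 := abs_sub_round (γ * D)
      calc |γ * D - round (γ * D)| / D ≤ 1 / D := by
            refine div_le_div_of_nonneg_right (by linarith) hD0.le
        _ ≤ _ := one_div_le_one_div_of_le (by positivity) hD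
    have h3 : M * |γ - (round (γ * D) : ℝ) / D| * (Z:ℝ) ^ 2 ≤ 1 / (4 * (K:ℝ)) := by
      calc M * |γ - (round (γ * D) : ℝ) / D| * (Z:ℝ) ^ 2 ≤ M * (1 / (4 * M * (Z:ℝ) ^ 3)) * (Z:ℝ) ^ 2 := by gcongr
        _ = 1 / (4 * (Z:ℝ)) := by field_simp
        _ ≤ _ := one_div_le_one_div_of_le (by positivity) (by linarith)
    have h4 := norm_sub_norm_le (pol τ δ k Y Z γ a b) (pol τ δ k Y Z ((round (γ * D) : ℝ) / D) a b)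
    have h5 : 1 / (2 * (K:ℝ)) = 1 / (4 * (K:ℝ)) + 1 / (4 * (K:ℝ)) := by field_simp; norm_num
    linarith

open Classical in
theorem union_bound {τ δ : ℝ} (hδ : 0 < δ) (hτ : 0 < τ) (hτ1 : τ ≤ 1 / 2) (m : ℕ) : ∃ C : ℝ, 0 < C ∧ ∃ M : ℝ, 1 ≤ M ∧
    ∀ (X W : ℝ) (Y Z K D : ℕ), 1 ≤ X → 0 ≤ W → 1 ≤ Y → 1 ≤ K → K ≤ Z → 4 * M * (Z:ℝ) ^ 3 ≤ D → ∀ E : Set (ℤ × ℤ),
    (∀ ab ∈ E, ab.1 ∈ bxA X ∧ ab.2 ∈ bxB X ∧ ∃ γ : ℝ, |γ| ≤ W ∧ ∃ k < K, 1 / (2 * (K:ℝ)) ≤ ‖pol τ δ k Y Z γ ab.1 ab.2‖) →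
    (E.ncard : ℝ) ≤ K * (2 * (D * W) + 3) * ((4 * K) ^ (2 * m) *
      (C * (X ^ (5 / 6 : ℝ) * ((Y : ℝ) ^ m) ^ (-(τ / 4)) + X ^ (1 / 2 : ℝ) * (Z : ℝ) ^ (4 * m)))) := by
  obtain ⟨M, hM, hβ⟩ := bet_HH hδ hτ hτ1
  obtain ⟨C, hC, hlc⟩ := large_count hδ hτ hτ1 m
  have hβ' : ∀ k n : ℕ, 1 ≤ n → ‖bet τ δ k n‖ * HH n ≤ M := fun k n hn => by
    refine (hβ k n hn).trans ?_
    have h1 : (n:ℝ) ^ (-(1 / 2 + τ / 2)) ≤ 1 := Real.rpow_le_one_of_one_le_of_nonpos (by exact_mod_cast hn) (by linarith)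
    nlinarith
  refine ⟨C, hC, M, hM, fun X W Y Z K D hX hW0 hY hK hKZ hD E hE => ?_⟩
  set R : ℕ := ⌊D * W⌋₊ + 1 with hR
  set B : ℝ := (4 * K) ^ (2 * m) * (C * (X ^ (5 / 6 : ℝ) * ((Y : ℝ) ^ m) ^ (-(τ / 4)) + X ^ (1 / 2 : ℝ) * (Z : ℝ) ^ (4 * m))) with hB
  have hB0 : 0 ≤ B := by positivity
  have hKr : (1:ℝ) ≤ K := by exact_mod_cast hK
  set T : Finset (ℤ × ℤ) := ((range K) ×ˢ (Icc (-(R:ℤ)) R)).biUnion fun kj =>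
    (bxA X ×ˢ bxB X).filter (fun ab => 1 / (4 * (K:ℝ)) ≤ ‖pol τ δ kj.1 Y Z ((kj.2:ℝ) / D) ab.1 ab.2‖) with hT
  have hsub : E ⊆ (T : Set (ℤ × ℤ)) := fun ab hab => by
    obtain ⟨h1, h2, γ, hγ, k, hk, h3⟩ := hE ab hab
    obtain ⟨j, hj, h4⟩ := grid hM hβ' hK hKZ hD hγ h3
    rw [mem_coe, hT, mem_biUnion]
    refine ⟨(k, j), ?_, ?_⟩
    · rw [mem_product]
      exact ⟨mem_range.2 hk, hj⟩
    · rw [mem_filter, mem_product]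
      exact ⟨⟨h1, h2⟩, h4⟩
  have h1 := Set.ncard_le_ncard hsub (Finset.finite_toSet _)
  rw [Set.ncard_coe_finset] at h1
  have h2 : (T.card : ℝ) ≤ ∑ kj ∈ (range K) ×ˢ (Icc (-(R:ℤ)) R), B := by
    have h3 : (T.card : ℝ) ≤ ∑ kj ∈ (range K) ×ˢ (Icc (-(R:ℤ)) R),
        (((bxA X ×ˢ bxB X).filter (fun ab => 1 / (4 * (K:ℝ)) ≤ ‖pol τ δ kj.1 Y Z ((kj.2:ℝ) / D) ab.1 ab.2‖)).card : ℝ) := by
      rw [← Nat.cast_sum, Nat.cast_le, hT]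
      exact card_biUnion_le
    refine h3.trans (sum_le_sum fun kj _ => ?_)
    exact hlc X Y Z kj.1 _ (4 * K) hX hY (by positivity)
  rw [sum_const, card_product, card_range, Int.card_Icc, nsmul_eq_mul] at h2
  have h3 : (((R:ℤ) + 1 - -(R:ℤ)).toNat : ℝ) ≤ 2 * (D * W) + 3 := by
    have e : ((R:ℤ) + 1 - -(R:ℤ)).toNat = 2 * R + 1 := by omega
    rw [e, hR]
    push_cast
    have := Nat.floor_le (a := D * W) (by positivity)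
    linarith
  calc (E.ncard : ℝ) ≤ (T.card : ℝ) := by exact_mod_cast h1
    _ ≤ ((K * ((R:ℤ) + 1 - -(R:ℤ)).toNat : ℕ) : ℝ) * B := h2
    _ = (K * (((R:ℤ) + 1 - -(R:ℤ)).toNat : ℝ)) * B := by push_cast; ring
    _ ≤ (K * (2 * (D * W) + 3)) * B := by
        refine mul_le_mul_of_nonneg_right (mul_le_mul_of_nonneg_left h3 (by positivity)) hB0

end Pool.Agent.KS6_10
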