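import Pool.Agent.KS6_10.FinB

/-!
# Choice of the parameters
-/

set_option autoImplicit false
set_option linter.unusedVariables false

namespace Pool.Agent.KS6_10

open Finset Complex Metric

theorem KK_pos (δ η X : ℝ) : 1 ≤ KK δ η X := by unfold KK; omega

theorem KK_le_log {δ η X : ℝ} (hδ : 0 < δ) (hη : 0 < η) (hX : 1 ≤ X) : (KK δ η X : ℝ) ≤ 6 * η / δ * Real.log X + 2 := by
  have hlog : 0 ≤ Real.log X := Real.log_nonneg hX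
  have h := Nat.ceil_lt_add_one (a := 6 * η / δ * Real.log X) (by positivity)
  unfold KK
  push_cast
  linarith

theorem KK_le_pow {δ η e : ℝ} (hδ : 0 < δ) (hη : 0 < η) (he : 0 < e) : ∃ c : ℝ, 1 ≤ c ∧ ∀ X : ℝ, 1 ≤ X → (KK δ η X : ℝ) ≤ c * X ^ e := by
  refine ⟨6 * η / δ / e + 2, by have : 0 ≤ 6 * η / δ / e := by positivity
                                linarith, fun X hX => ?_⟩
  have hX0 : 0 < X := by linarith
  have h1 := Real.log_le_rpow_div hX0.le he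
  have h2 : 1 ≤ X ^ e := Real.one_le_rpow hX he.le
  calc (KK δ η X : ℝ) ≤ 6 * η / δ * Real.log X + 2 := KK_le_log hδ hη hX
    _ ≤ 6 * η / δ * (X ^ e / e) + 2 * X ^ e := add_le_add (mul_le_mul_of_nonneg_left h1 (by positivity)) (by linarith)
    _ = _ := by ring

theorem Z_le {δ η X : ℝ} (hδ : 0 < δ) (hη : 0 < η) (hX : 1 ≤ X) (q : ℕ) :
    (((2:ℕ) ^ (q * KK δ η X) : ℕ) : ℝ) ≤ 4 ^ q * X ^ (6 * q * η / δ) := by
  have hX0 : 0 < X := by linarith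
  have hlog : 0 ≤ Real.log X := Real.log_nonneg hX
  push_cast
  have h1 : ((q * KK δ η X : ℕ) : ℝ) ≤ 2 * q + q * (6 * η / δ * Real.log X) := by
    push_cast
    have := mul_le_mul_of_nonneg_left (KK_le_log hδ hη hX) (Nat.cast_nonneg q : (0:ℝ) ≤ q)
    linarith
  calc (2:ℝ) ^ (q * KK δ η X) = (2:ℝ) ^ ((q * KK δ η X : ℕ) : ℝ) := (Real.rpow_natCast _ _).symm
    _ ≤ (2:ℝ) ^ (2 * q + q * (6 * η / δ * Real.log X)) := Real.rpow_le_rpow_of_exponent_le (by norm_num) h1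
    _ = (2:ℝ) ^ (2 * (q:ℝ)) * (2:ℝ) ^ (q * (6 * η / δ * Real.log X)) := Real.rpow_add (by norm_num) _ _
    _ ≤ 4 ^ q * X ^ (6 * q * η / δ) := by
        refine mul_le_mul (le_of_eq ?_) ?_ (by positivity) (by positivity)
        · rw [Real.rpow_mul (by norm_num), Real.rpow_natCast]
          norm_num
        · have h2 : (2:ℝ) ≤ Real.exp 1 := by have := Real.exp_one_gt_d9; linarith
          calc (2:ℝ) ^ (q * (6 * η / δ * Real.log X)) ≤ (Real.exp 1) ^ (q * (6 * η / δ * Real.log X)) :=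
                Real.rpow_le_rpow (by norm_num) h2 (by positivity)
            _ = X ^ (6 * q * η / δ) := by
                rw [Real.exp_one_rpow, Real.rpow_def_of_pos hX0]
                congr 1; ring

theorem Y_ge {η X : ℝ} (hη : 0 < η) (hX : 1 ≤ X) : X ^ η / 2 ≤ (⌊X ^ η⌋₊ : ℝ) := by
  have h1 : 1 ≤ X ^ η := Real.one_le_rpow hX hη.le
  have h2 := Nat.lt_floor_add_one (X ^ η)
  have h3 : (1:ℝ) ≤ (⌊X ^ η⌋₊ : ℝ) := by exact_mod_cast (Nat.one_le_floor_iff _).2 h1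
  linarith

theorem Ym_le {η X θ : ℝ} (hη : 0 < η) (hX : 1 ≤ X) (hθ : 0 < θ) (m : ℕ) :
    ((⌊X ^ η⌋₊ : ℝ) ^ m) ^ (-θ) ≤ ((2:ℝ) ^ m) ^ θ * X ^ (-(η * m * θ)) := by
  have hX0 : 0 < X := by linarith
  have hp : 0 < X ^ η := by positivity
  have h1 : (X ^ η / 2) ^ m ≤ (⌊X ^ η⌋₊ : ℝ) ^ m := pow_le_pow_left₀ (by positivity) (Y_ge hη hX) m
  calc ((⌊X ^ η⌋₊ : ℝ) ^ m) ^ (-θ) ≤ ((X ^ η / 2) ^ m) ^ (-θ) := Real.rpow_le_rpow_of_nonpos (by positivity) h1 (by linarith)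
    _ = _ := by
        rw [div_pow, Real.div_rpow (by positivity) (by positivity), Real.rpow_neg (by positivity : (0:ℝ) ≤ (2:ℝ) ^ m), div_inv_eq_mul,
          ← Real.rpow_natCast (X ^ η) m, ← Real.rpow_mul hX0.le, ← Real.rpow_mul hX0.le, mul_comm]
        congr 2; ring

/-- the final inequality -/
theorem numeric {δ τ : ℝ} (hδ : 0 < δ) (hδ1 : δ ≤ 1) (hτ : 0 < τ) (hτ1 : τ ≤ 1) {q m : ℕ} (hq : 1 ≤ q) (hm : 1 ≤ m)
    (hms : 1 / (16 * (m:ℝ)) ≤ δ * τ / (1152 * q) / 4) (C : ℝ) (hC : 0 < C) (M : ℝ) (hM : 1 ≤ M) :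
    ∃ C' : ℝ, 0 < C' ∧ ∀ X : ℝ, 1 ≤ X → ∀ K Z D Y : ℕ, K = KK δ (δ / (288 * q * m)) X → Z = 2 ^ (q * K) → D = ⌈4 * M⌉₊ * Z ^ 3 →
      Y = ⌊X ^ (δ / (288 * q * m))⌋₊ →
      K * (2 * (D * X ^ (δ * τ / (1152 * q) / 8)) + 3) * ((4 * K) ^ (2 * m) *
      (C * (X ^ (5 / 6 : ℝ) * ((Y : ℝ) ^ m) ^ (-(τ / 4)) + X ^ (1 / 2 : ℝ) * (Z : ℝ) ^ (4 * m)))) ≤ C' * X ^ (5 / 6 - δ * τ / (1152 * q) / 8) := by
  set s0 : ℝ := δ * τ / (1152 * q) with hs0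
  have hqr : (1:ℝ) ≤ q := by exact_mod_cast hq
  have hmr : (1:ℝ) ≤ m := by exact_mod_cast hm
  have hq0 : (0:ℝ) < q := by linarith
  have hm0 : (0:ℝ) < m := by linarith
  have hs0p : 0 < s0 := by positivity
  have hs01 : s0 ≤ 1 / 1152 := by
    rw [hs0, div_le_div_iff₀ (by positivity) (by norm_num)]
    have : δ * τ ≤ 1 * 1 := mul_le_mul hδ1 hτ1 hτ.le (by norm_num)
    nlinarith
  set η : ℝ := δ / (288 * q * m) with hη
  have hη0 : 0 < η := by positivity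
  obtain ⟨c, hc, hKp⟩ := KK_le_pow (δ := δ) (η := η) (e := s0 / (8 * (2 * m + 1))) hδ hη0 (by positivity)
  set D0 : ℝ := (⌈4 * M⌉₊ : ℝ) * (4 ^ q) ^ 3 with hD0
  have hc0 : (0:ℝ) < ⌈4 * M⌉₊ := by
    have := Nat.ceil_pos.2 (show 0 < 4 * M by linarith)
    exact_mod_cast this
  have hc1 : (1:ℝ) ≤ ⌈4 * M⌉₊ := by
    have := Nat.ceil_pos.2 (show 0 < 4 * M by linarith)
    exact_mod_cast this
  have hD0p : 0 < D0 := by positivity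
  have hD01 : 1 ≤ D0 := by
    rw [hD0]
    have : (1:ℝ) ≤ (4 ^ q) ^ 3 := one_le_pow₀ (one_le_pow₀ (by norm_num))
    nlinarith
  refine ⟨(c ^ (2 * m + 1) * 4 ^ (2 * m)) * (5 * D0) * (C * (((2:ℝ) ^ m) ^ (τ / 4) + (4 ^ q) ^ (4 * m))), by positivity, ?_⟩
  intro X hX K Z D Y hK hZ hD hY
  have hX0 : 0 < X := by linarith
  -- bound for K
  have h1 : (K:ℝ) ≤ c * X ^ (s0 / (8 * (2 * m + 1))) := by rw [hK]; exact hKp X hX
  have h1' : (K:ℝ) ^ (2 * m + 1) ≤ c ^ (2 * m + 1) * X ^ (s0 / 8) := by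
    calc (K:ℝ) ^ (2 * m + 1) ≤ (c * X ^ (s0 / (8 * (2 * m + 1)))) ^ (2 * m + 1) := pow_le_pow_left₀ (Nat.cast_nonneg _) h1 _
      _ = _ := by
          rw [mul_pow, ← Real.rpow_natCast (X ^ _) (2 * m + 1), ← Real.rpow_mul hX0.le]
          congr 2
          push_cast
          field_simp
  -- bound for Z
  have h2 : (Z:ℝ) ≤ 4 ^ q * X ^ (1 / (48 * (m:ℝ))) := by
    have h := Z_le hδ hη0 hX q
    rw [← hK, ← hZ] at h
    refine h.trans (le_of_eq ?_)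
    congr 2
    rw [hη]
    field_simp
    norm_num
  have h3 : (D:ℝ) ≤ D0 * X ^ (s0 / 4) := by
    rw [hD]
    push_cast
    calc (⌈4 * M⌉₊ : ℝ) * (Z:ℝ) ^ 3 ≤ (⌈4 * M⌉₊ : ℝ) * (4 ^ q * X ^ (1 / (48 * (m:ℝ)))) ^ 3 :=
          mul_le_mul_of_nonneg_left (pow_le_pow_left₀ (Nat.cast_nonneg _) h2 3) hc0.le
      _ = D0 * X ^ (1 / (16 * (m:ℝ))) := by
          rw [mul_pow, ← Real.rpow_natCast (X ^ _) 3, ← Real.rpow_mul hX0.le, hD0]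
          have e : 1 / (48 * (m:ℝ)) * ((3:ℕ) : ℝ) = 1 / (16 * (m:ℝ)) := by push_cast; field_simp; norm_num
          rw [e]; ring
      _ ≤ _ := mul_le_mul_of_nonneg_left (Real.rpow_le_rpow_of_exponent_le hX hms) hD0p.le
  have h4 : 2 * ((D:ℝ) * X ^ (s0 / 8)) + 3 ≤ 5 * D0 * X ^ (s0 / 4 + s0 / 8) := by
    have e1 : (D:ℝ) * X ^ (s0 / 8) ≤ D0 * X ^ (s0 / 4 + s0 / 8) := by
      rw [Real.rpow_add hX0, ← mul_assoc]
      exact mul_le_mul_of_nonneg_right h3 (by positivity)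
    have e2 : 1 ≤ D0 * X ^ (s0 / 4 + s0 / 8) := one_le_mul_of_one_le_of_one_le hD01 (Real.one_le_rpow hX (by positivity))
    linarith
  -- the moment
  have h5 : X ^ (5 / 6 : ℝ) * ((Y : ℝ) ^ m) ^ (-(τ / 4)) ≤ ((2:ℝ) ^ m) ^ (τ / 4) * X ^ (5 / 6 - s0) := by
    have h := Ym_le (η := η) (θ := τ / 4) hη0 hX (by positivity) m
    rw [← hY] at h
    have e : η * m * (τ / 4) = s0 := by
      rw [hη, hs0]; field_simp; norm_num
    rw [e] at h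
    calc X ^ (5 / 6 : ℝ) * ((Y : ℝ) ^ m) ^ (-(τ / 4)) ≤ X ^ (5 / 6 : ℝ) * (((2:ℝ) ^ m) ^ (τ / 4) * X ^ (-s0)) :=
          mul_le_mul_of_nonneg_left h (by positivity)
      _ = ((2:ℝ) ^ m) ^ (τ / 4) * (X ^ (5 / 6 : ℝ) * X ^ (-s0)) := by ring
      _ = _ := by rw [← Real.rpow_add hX0]; congr 2
  have h6 : X ^ (1 / 2 : ℝ) * (Z : ℝ) ^ (4 * m) ≤ (4 ^ q) ^ (4 * m) * X ^ (5 / 6 - s0) := by
    calc X ^ (1 / 2 : ℝ) * (Z : ℝ) ^ (4 * m) ≤ X ^ (1 / 2 : ℝ) * (4 ^ q * X ^ (1 / (48 * (m:ℝ)))) ^ (4 * m) :=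
          mul_le_mul_of_nonneg_left (pow_le_pow_left₀ (Nat.cast_nonneg _) h2 _) (by positivity)
      _ = (4 ^ q) ^ (4 * m) * (X ^ (1 / 2 : ℝ) * X ^ (1 / 12 : ℝ)) := by
          rw [mul_pow, ← Real.rpow_natCast (X ^ _) (4 * m), ← Real.rpow_mul hX0.le]
          have e : 1 / (48 * (m:ℝ)) * ((4 * m : ℕ) : ℝ) = 1 / 12 := by push_cast; field_simp; norm_num
          rw [e]; ring
      _ ≤ _ := by
          rw [← Real.rpow_add hX0]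
          exact mul_le_mul_of_nonneg_left (Real.rpow_le_rpow_of_exponent_le hX (by linarith)) (by positivity)
  have h7 : C * (X ^ (5 / 6 : ℝ) * ((Y : ℝ) ^ m) ^ (-(τ / 4)) + X ^ (1 / 2 : ℝ) * (Z : ℝ) ^ (4 * m)) ≤
      C * (((2:ℝ) ^ m) ^ (τ / 4) + (4 ^ q) ^ (4 * m)) * X ^ (5 / 6 - s0) := by
    calc C * (X ^ (5 / 6 : ℝ) * ((Y : ℝ) ^ m) ^ (-(τ / 4)) + X ^ (1 / 2 : ℝ) * (Z : ℝ) ^ (4 * m)) ≤
        C * (((2:ℝ) ^ m) ^ (τ / 4) * X ^ (5 / 6 - s0) + (4 ^ q) ^ (4 * m) * X ^ (5 / 6 - s0)) :=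
          mul_le_mul_of_nonneg_left (add_le_add h5 h6) hC.le
      _ = _ := by ring
  calc K * (2 * (D * X ^ (s0 / 8)) + 3) * ((4 * K) ^ (2 * m) *
      (C * (X ^ (5 / 6 : ℝ) * ((Y : ℝ) ^ m) ^ (-(τ / 4)) + X ^ (1 / 2 : ℝ) * (Z : ℝ) ^ (4 * m))))
      = ((K:ℝ) ^ (2 * m + 1) * 4 ^ (2 * m)) * (2 * (D * X ^ (s0 / 8)) + 3) *
        (C * (X ^ (5 / 6 : ℝ) * ((Y : ℝ) ^ m) ^ (-(τ / 4)) + X ^ (1 / 2 : ℝ) * (Z : ℝ) ^ (4 * m))) := by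
        rw [mul_pow, pow_succ]; ring
    _ ≤ ((c ^ (2 * m + 1) * X ^ (s0 / 8)) * 4 ^ (2 * m)) * (5 * D0 * X ^ (s0 / 4 + s0 / 8)) *
        (C * (((2:ℝ) ^ m) ^ (τ / 4) + (4 ^ q) ^ (4 * m)) * X ^ (5 / 6 - s0)) := by
        refine mul_le_mul (mul_le_mul (mul_le_mul_of_nonneg_right h1' (by positivity)) h4 (by positivity) (by positivity)) h7
          (by positivity) (by positivity)
    _ = (c ^ (2 * m + 1) * 4 ^ (2 * m)) * (5 * D0) * (C * (((2:ℝ) ^ m) ^ (τ / 4) + (4 ^ q) ^ (4 * m))) *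
        (X ^ (s0 / 8) * X ^ (s0 / 4 + s0 / 8) * X ^ (5 / 6 - s0)) := by ring
    _ ≤ _ := by
        refine mul_le_mul_of_nonneg_left ?_ (by positivity)
        rw [← Real.rpow_add hX0, ← Real.rpow_add hX0]
        exact Real.rpow_le_rpow_of_exponent_le hX (by linarith)

end Pool.Agent.KS6_10
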