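import Pool.Agent.KS6_10.FinC

/-!
# Almost all curves have no isolated zeros off the line
-/

set_option autoImplicit false
set_option linter.unusedVariables false

namespace Pool.Agent.KS6_10

open Finset Complex Metric

theorem excZ_sub {τ δ η κ X : ℝ} (hX : 1 ≤ X) : ExcZ τ δ η κ X ⊆ ((bxA X ×ˢ bxB X : Finset (ℤ × ℤ)) : Set (ℤ × ℤ)) := fun ab hab => by
  obtain ⟨h1, h2, -⟩ := hab
  have := mem_box hX h1 h2
  exact_mod_cast mem_product.2 this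

theorem count_core {τ δ : ℝ} (hδ : 0 < δ) (hδ1 : δ ≤ 1 / 12) (hτ : 3 * δ ≤ τ) (hτ1 : τ ≤ 1 / 2) : ∃ η : ℝ, 0 < η ∧ ∃ κ : ℝ, 0 < κ ∧ ∃ C : ℝ, 0 < C ∧
    ∀ X : ℝ, 1 ≤ X → (ExcZ τ (4 * δ) η κ X).Finite ∧ ((ExcZ τ (4 * δ) η κ X).ncard : ℝ) ≤ C * X ^ (5 / 6 - κ) := by
  classical
  have hτ0 : 0 < τ := by linarith
  obtain ⟨q, hq1, hone⟩ := one_zero hδ hδ1 hτ hτ1
  have hqr : (1:ℝ) ≤ q := by exact_mod_cast hq1
  set s0 : ℝ := δ * τ / (1152 * q) with hs0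
  have hs0p : 0 < s0 := by positivity
  obtain ⟨m, hm1, hms⟩ : ∃ m : ℕ, 1 ≤ m ∧ 1 / (16 * (m:ℝ)) ≤ s0 / 4 := by
    refine ⟨⌈1 / (4 * s0)⌉₊, Nat.ceil_pos.2 (by positivity), ?_⟩
    have h1 := Nat.le_ceil (1 / (4 * s0))
    have h2 : 0 < (⌈1 / (4 * s0)⌉₊ : ℝ) := lt_of_lt_of_le (by positivity) h1
    rw [div_le_iff₀ (by positivity)] at h1
    rw [div_le_div_iff₀ (by positivity) (by norm_num)]
    linarith
  have hmr : (1:ℝ) ≤ m := by exact_mod_cast hm1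
  set η : ℝ := δ / (288 * q * m) with hη
  have hη0 : 0 < η := by positivity
  obtain ⟨η', hη', X0, hX0, h⟩ := hone η hη0
  obtain ⟨C, hC, M, hM, hub⟩ := union_bound hδ hτ0 hτ1 m
  obtain ⟨C', hC', hnum⟩ := numeric hδ (by linarith) hτ0 (by linarith) hq1 hm1 hms C hC M hM
  set κ : ℝ := s0 / 8 with hκd
  have hκ : 0 < κ := by positivity
  have hκ1 : κ ≤ 1 := by
    have : s0 ≤ 1 := by
      rw [hs0, div_le_one (by positivity)]
      have : δ * τ ≤ 1 * 1 := mul_le_mul (by linarith) (by linarith) hτ0.le (by norm_num)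
      nlinarith
    rw [hκd]; linarith
  refine ⟨η', hη', κ, hκ, C' + 9 * X0 ^ κ, by positivity, fun X hX => ?_⟩
  have hXp : 0 < X := by linarith
  have hsub := excZ_sub (τ := τ) (δ := 4 * δ) (η := η') (κ := κ) hX
  have hfin : (ExcZ τ (4 * δ) η' κ X).Finite := (Finset.finite_toSet _).subset hsub
  refine ⟨hfin, ?_⟩
  rcases le_or_gt X0 X with hge | hlt
  · set K : ℕ := KK δ η X with hK
    set Z : ℕ := 2 ^ (q * K) with hZ
    set Y : ℕ := ⌊X ^ η⌋₊ with hY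
    set D : ℕ := ⌈4 * M⌉₊ * Z ^ 3 with hD
    have hK1 : 1 ≤ K := KK_pos _ _ _
    have hKZ : K ≤ Z := by
      calc K ≤ 2 ^ K := Nat.lt_two_pow_self.le
        _ ≤ 2 ^ (q * K) := Nat.pow_le_pow_right (by norm_num) (Nat.le_mul_of_pos_left _ hq1)
    have hY1 : 1 ≤ Y := (Nat.one_le_floor_iff _).2 (Real.one_le_rpow hX hη0.le)
    have hDle : 4 * M * (Z:ℝ) ^ 3 ≤ D := by
      rw [hD]
      push_cast
      exact mul_le_mul_of_nonneg_right (Nat.le_ceil _) (by positivity)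
    have h1 := hub X (X ^ κ) Y Z K D hX (by positivity) hY1 hK1 hKZ hDle (ExcZ τ (4 * δ) η' κ X) (fun ab hab => by
      obtain ⟨e1, e2, e3, N, ε, c, G, hcd, F, hF, ρ, hρ, hre, him, hnz⟩ := hab
      obtain ⟨m1, m2⟩ := mem_box hX e1 e2
      have him' : |ρ.im| ≤ X := him.trans (by
        calc X ^ κ ≤ X ^ (1:ℝ) := Real.rpow_le_rpow_of_exponent_le hX hκ1
          _ = X := Real.rpow_one X)
      obtain ⟨k, hk, hle⟩ := h X hge ab.1 ab.2 m1 m2 e3 N ε c G hcd F hF ρ hρ hre him' hnz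
      exact ⟨m1, m2, ρ.im, him, k, hk, hle⟩)
    have h2 := hnum X hX K Z D Y hK hZ hD hY
    calc ((ExcZ τ (4 * δ) η' κ X).ncard : ℝ) ≤ _ := h1
      _ ≤ C' * X ^ (5 / 6 - κ) := h2
      _ ≤ _ := by
          refine mul_le_mul_of_nonneg_right ?_ (by positivity)
          have : 0 ≤ X0 ^ κ := by positivity
          linarith
  · have h1 := Set.ncard_le_ncard hsub (Finset.finite_toSet _)
    rw [Set.ncard_coe_finset] at h1
    have h2 : X ^ κ ≤ X0 ^ κ := Real.rpow_le_rpow hXp.le hlt.le hκ.le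
    calc ((ExcZ τ (4 * δ) η' κ X).ncard : ℝ) ≤ ((bxA X ×ˢ bxB X).card : ℝ) := by exact_mod_cast h1
      _ ≤ 9 * X ^ (5 / 6 : ℝ) := box_card hX
      _ = 9 * (X ^ κ * X ^ (5 / 6 - κ)) := by rw [← Real.rpow_add hXp]; congr 2; ring
      _ ≤ 9 * (X0 ^ κ * X ^ (5 / 6 - κ)) := by gcongr
      _ = (9 * X0 ^ κ) * X ^ (5 / 6 - κ) := by ring
      _ ≤ _ := mul_le_mul_of_nonneg_right (by linarith) (by positivity)

/-- **almost all curves have no isolated zeros off the line** -/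
theorem count_z (τ δ : ℝ) (hτ : 0 < τ) (hδ : 0 < δ) : ∃ η : ℝ, 0 < η ∧ ∃ κ : ℝ, 0 < κ ∧ ∃ C : ℝ, 0 < C ∧
    ∀ X : ℝ, 1 ≤ X → (ExcZ τ δ η κ X).Finite ∧ ((ExcZ τ δ η κ X).ncard : ℝ) ≤ C * X ^ (5 / 6 - κ) := by
  set τ' : ℝ := min τ (1 / 2) with hτ'
  have hτ'0 : 0 < τ' := lt_min hτ (by norm_num)
  have hτ'1 : τ' ≤ 1 / 2 := min_le_right _ _
  have hτ'τ : τ' ≤ τ := min_le_left _ _
  set δ' : ℝ := min (δ / 4) (min (1 / 12) (τ' / 3)) with hδ'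
  have hδ'0 : 0 < δ' := lt_min (by linarith) (lt_min (by norm_num) (by linarith))
  have hδ'1 : δ' ≤ δ / 4 := min_le_left _ _
  have hδ'2 : δ' ≤ 1 / 12 := (min_le_right _ _).trans (min_le_left _ _)
  have hδ'3 : δ' ≤ τ' / 3 := (min_le_right _ _).trans (min_le_right _ _)
  obtain ⟨η, hη, κ, hκ, C, hC, h⟩ := count_core hδ'0 hδ'2 (by linarith) hτ'1
  refine ⟨η, hη, κ, hκ, C, hC, fun X hX => ?_⟩
  obtain ⟨h1, h2⟩ := h X hX
  have hsub : ExcZ τ δ η κ X ⊆ ExcZ τ' (4 * δ') η κ X := by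
    rintro ab ⟨e1, e2, e3, N, ε, c, G, hcd, F, hF, ρ, hρ, hre, him, hnz⟩
    refine ⟨e1, e2, e3, N, ε, c, G, hcd, F, hF, ρ, hρ, by linarith, him, ?_⟩
    have hF2 : F 2 ≠ 0 := F_ne hF (by norm_num)
    have h3 := nz_mono hF.1 hF2 (isCompact_closedBall (⟨3 / 2, ρ.im⟩ : ℂ) (3 / 2 - ρ.re + δ)) (isCompact_closedBall _ _)
      (closedBall_subset_closedBall (x := (⟨3 / 2, ρ.im⟩ : ℂ)) (show 3 / 2 - ρ.re + 4 * δ' ≤ 3 / 2 - ρ.re + δ by linarith))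
    have h4 : (nz F (closedBall (⟨3 / 2, ρ.im⟩ : ℂ) (3 / 2 - ρ.re + 4 * δ')) : ℝ) ≤ (nz F (closedBall (⟨3 / 2, ρ.im⟩ : ℂ) (3 / 2 - ρ.re + δ)) : ℝ) := by
      exact_mod_cast h3
    exact h4.trans hnz
  refine ⟨h1.subset hsub, ?_⟩
  have h3 := Set.ncard_le_ncard hsub h1
  exact le_trans (by exact_mod_cast h3) h2

end Pool.Agent.KS6_10
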