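import Pool.Agent.KS6_10.Lap

/-!
# A lower bound for the Gamma function
-/

set_option autoImplicit false

namespace Pool.Agent.KS6_10

open Complex Set

/-- the rotation `w = e^{-iφ}`-type number: `exp (i ψ)` -/
noncomputable def rot (ψ : ℝ) : ℂ := Complex.exp (ψ * I)

theorem rot_norm (ψ : ℝ) : ‖rot ψ‖ = 1 := Complex.norm_exp_ofReal_mul_I ψ

theorem rot_re (ψ : ℝ) : (rot ψ).re = Real.cos ψ := Complex.exp_ofReal_mul_I_re ψ

theorem rot_arg {ψ : ℝ} (h1 : -Real.pi < ψ) (h2 : ψ ≤ Real.pi) : (rot ψ).arg = ψ := by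
  unfold rot
  rw [Complex.exp_mul_I, Complex.arg_cos_add_sin_mul_I ⟨h1, h2⟩]

theorem rot_ne (ψ : ℝ) : rot ψ ≠ 0 := Complex.exp_ne_zero _

/-- `|Γ(σ + i t)| ≤ e Γ(σ) (π (1+|t|) / 2)^σ e^{-π|t|/2}` -/
theorem gamma_upper (a : ℂ) (ha : 0 < a.re) :
    ‖Complex.Gamma a‖ ≤ Real.Gamma a.re * Real.exp 1 * (Real.pi / 2 * (1 + |a.im|)) ^ a.re *
      Real.exp (-(Real.pi / 2 * |a.im|)) := by
  have hpi := Real.pi_pos
  have hpi3 := Real.pi_gt_three
  set T : ℝ := 1 + |a.im| with hT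
  have hT1 : 1 ≤ T := by have := abs_nonneg a.im; linarith
  have hT0 : 0 < T := by linarith
  have hTi : 1 / T ≤ 1 := by rw [div_le_one hT0]; exact hT1
  have hTp : 0 < 1 / T := by positivity
  -- general bound with an angle of the right sign
  have key : ∀ ψ : ℝ, (ψ = Real.pi / 2 - 1 / T ∨ ψ = -(Real.pi / 2 - 1 / T)) → ψ * a.im = (Real.pi / 2 - 1 / T) * |a.im| →
      ‖Complex.Gamma a‖ ≤ Real.Gamma a.re * Real.exp 1 * (Real.pi / 2 * T) ^ a.re *
      Real.exp (-(Real.pi / 2 * |a.im|)) := by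
    intro ψ hψ hψ2
    have hcos : Real.cos ψ = Real.sin (1 / T) := by
      rcases hψ with h | h
      · rw [h, Real.cos_pi_div_two_sub]
      · rw [h, Real.cos_neg, Real.cos_pi_div_two_sub]
    have hsin : 2 / Real.pi * (1 / T) ≤ Real.sin (1 / T) := Real.mul_le_sin hTp.le (by linarith)
    have hz : 0 < (rot ψ).re := by
      rw [rot_re, hcos]
      exact lt_of_lt_of_le (by positivity) hsin
    have harg : (rot ψ).arg = ψ := by
      apply rot_arg
      · rcases hψ with h | h <;> rw [h] <;> linarith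
      · rcases hψ with h | h <;> rw [h] <;> linarith
    have h := gamma_rot a ha (rot ψ) hz
    rw [rot_norm, Real.one_rpow, one_mul, harg, hψ2, rot_re, hcos] at h
    have h3 : (Real.sin (1 / T)) ^ (-a.re) ≤ (Real.pi / 2 * T) ^ a.re := by
      rw [Real.rpow_neg (by rw [← hcos, ← rot_re]; exact hz.le), ← Real.inv_rpow (by rw [← hcos, ← rot_re]; exact hz.le)]
      refine Real.rpow_le_rpow (by rw [inv_nonneg, ← hcos, ← rot_re]; exact hz.le) ?_ ha.le
      have h4 : (Real.sin (1 / T))⁻¹ ≤ (2 / Real.pi * (1 / T))⁻¹ := inv_anti₀ (by positivity) hsin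
      refine h4.trans (le_of_eq ?_)
      field_simp
    have hG : 0 < Real.Gamma a.re := Real.Gamma_pos_of_pos ha
    have h5 : ‖Complex.Gamma a‖ * Real.exp ((Real.pi / 2 - 1 / T) * |a.im|) ≤ Real.Gamma a.re * (Real.pi / 2 * T) ^ a.re :=
      h.trans (mul_le_mul_of_nonneg_left h3 hG.le)
    have h6 : Real.exp (-((Real.pi / 2 - 1 / T) * |a.im|)) ≤ Real.exp 1 * Real.exp (-(Real.pi / 2 * |a.im|)) := by
      rw [← Real.exp_add, Real.exp_le_exp]
      have h7 : 1 / T * |a.im| ≤ 1 := by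
        rw [one_div, inv_mul_le_iff₀ hT0]
        linarith
      linarith
    have h8 : ‖Complex.Gamma a‖ = ‖Complex.Gamma a‖ * Real.exp ((Real.pi / 2 - 1 / T) * |a.im|) *
        Real.exp (-((Real.pi / 2 - 1 / T) * |a.im|)) := by
      rw [mul_assoc, ← Real.exp_add, add_neg_cancel, Real.exp_zero, mul_one]
    rw [h8]
    calc _ ≤ (Real.Gamma a.re * (Real.pi / 2 * T) ^ a.re) * (Real.exp 1 * Real.exp (-(Real.pi / 2 * |a.im|))) :=
          mul_le_mul h5 h6 (Real.exp_pos _).le (by positivity)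
      _ = _ := by ring
  rcases le_total 0 a.im with h0 | h0
  · exact key (Real.pi / 2 - 1 / T) (Or.inl rfl) (by rw [abs_of_nonneg h0])
  · refine key (-(Real.pi / 2 - 1 / T)) (Or.inr rfl) ?_
    rw [abs_of_nonpos h0]
    ring

theorem norm_sin_le (z : ℂ) : ‖Complex.sin z‖ ≤ Real.exp |z.im| := by
  rw [Complex.sin, norm_div, norm_mul, Complex.norm_I, mul_one, Complex.norm_ofNat]
  have h1 : ‖Complex.exp (-z * I)‖ ≤ Real.exp |z.im| := by
    rw [Complex.norm_exp, Real.exp_le_exp]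
    simp
    exact le_abs_self _
  have h2 : ‖Complex.exp (z * I)‖ ≤ Real.exp |z.im| := by
    rw [Complex.norm_exp, Real.exp_le_exp]
    simp
    exact neg_le_abs _
  have h3 := norm_sub_le (Complex.exp (-z * I)) (Complex.exp (z * I))
  linarith

/-- **Lower bound for Gamma in a strip**: `1/|Γ(σ+it)| ≤ C (1+|t|)^c e^{π|t|/2}` for `1 ≤ σ ≤ 3` -/
theorem gamma_lower : ∃ C : ℝ, 0 < C ∧ ∀ s : ℂ, 1 ≤ s.re → s.re ≤ 3 →
    ‖(Complex.Gamma s)⁻¹‖ ≤ C * (1 + |s.im|) ^ (4:ℕ) * Real.exp (Real.pi / 2 * |s.im|) := by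
  have hpi := Real.pi_pos
  have hpi3 := Real.pi_gt_three
  have hpi4 := Real.pi_le_four
  -- compact part
  obtain ⟨C1, hC1⟩ : ∃ C1 : ℝ, ∀ s ∈ (Icc (1:ℝ) 3 ×ℂ Icc (-1:ℝ) 1), ‖(Complex.Gamma s)⁻¹‖ ≤ C1 := by
    have hK : IsCompact (Icc (1:ℝ) 3 ×ℂ Icc (-1:ℝ) 1) := IsCompact.reProdIm isCompact_Icc isCompact_Icc
    have hc : Continuous fun s : ℂ => (Complex.Gamma s)⁻¹ := Complex.differentiable_one_div_Gamma.continuous
    exact hK.exists_bound_of_continuousOn hc.continuousOn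
  -- bound of the real Gamma function on [1,3]
  obtain ⟨C2, hC2⟩ : ∃ C2 : ℝ, ∀ x ∈ Icc (1:ℝ) 3, ‖Real.Gamma x‖ ≤ C2 := by
    refine isCompact_Icc.exists_bound_of_continuousOn ?_
    intro x hx
    refine (Real.differentiableAt_Gamma fun m h => ?_).continuousAt.continuousWithinAt
    have h1 := hx.1
    have : (0:ℝ) ≤ m := Nat.cast_nonneg m
    linarith
  have hC20 : 0 ≤ C2 := (norm_nonneg _).trans (hC2 1 ⟨le_rfl, by norm_num⟩)
  have hC10 : 0 ≤ C1 := (norm_nonneg _).trans (hC1 1 (by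
    rw [mem_reProdIm]; exact ⟨⟨by simp, by norm_num⟩, ⟨by simp, by simp⟩⟩))
  refine ⟨C1 + C2 * Real.exp 1 * 8 + 1, by positivity, fun s h1 h3 => ?_⟩
  have hT : 1 ≤ 1 + |s.im| := by have := abs_nonneg s.im; linarith
  rcases le_or_gt |s.im| 1 with hle | hgt
  · have h := hC1 s (by
      rw [mem_reProdIm]
      exact ⟨⟨h1, h3⟩, abs_le.1 hle⟩)
    have h5 : 1 ≤ (1 + |s.im|) ^ (4:ℕ) := one_le_pow₀ hT
    have h6 : 1 ≤ Real.exp (Real.pi / 2 * |s.im|) := Real.one_le_exp (by positivity)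
    have h7 : 1 ≤ (1 + |s.im|) ^ (4:ℕ) * Real.exp (Real.pi / 2 * |s.im|) := one_le_mul_of_one_le_of_one_le h5 h6
    rw [mul_assoc]
    refine h.trans ?_
    have h8 : C1 ≤ C1 + C2 * Real.exp 1 * 8 + 1 := by
      have : 0 ≤ C2 * Real.exp 1 * 8 := by positivity
      linarith
    calc C1 ≤ C1 + C2 * Real.exp 1 * 8 + 1 := h8
      _ = (C1 + C2 * Real.exp 1 * 8 + 1) * 1 := (mul_one _).symm
      _ ≤ _ := mul_le_mul_of_nonneg_left h7 (by positivity)
  · -- reflection
    have hne : ∀ k : ℕ, (k : ℂ) - s ≠ 0 ∧ 1 ≤ ‖(k : ℂ) - s‖ := fun k => by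
      have h4 : |((k : ℂ) - s).im| ≤ ‖(k : ℂ) - s‖ := Complex.abs_im_le_norm _
      have h5 : |((k : ℂ) - s).im| = |s.im| := by simp
      rw [h5] at h4
      refine ⟨fun h0 => ?_, by linarith⟩
      rw [h0, norm_zero] at h4
      linarith
    have hG4 : Complex.Gamma (4 - s) = (3 - s) * ((2 - s) * ((1 - s) * Complex.Gamma (1 - s))) := by
      have e1 : (4 : ℂ) - s = (3 - s) + 1 := by ring
      have e2 : (3 : ℂ) - s = (2 - s) + 1 := by ring
      have e3 : (2 : ℂ) - s = (1 - s) + 1 := by ring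
      have n3 := (hne 3).1
      have n2 := (hne 2).1
      have n1 := (hne 1).1
      push_cast at n3 n2 n1
      rw [e1, Complex.Gamma_add_one _ n3, e2, Complex.Gamma_add_one _ n2, e3, Complex.Gamma_add_one _ n1]
    have hle4 : ‖Complex.Gamma (1 - s)‖ ≤ ‖Complex.Gamma (4 - s)‖ := by
      rw [hG4, norm_mul, norm_mul, norm_mul]
      have n3 := (hne 3).2
      have n2 := (hne 2).2
      have n1 := (hne 1).2
      push_cast at n3 n2 n1
      have h0 := norm_nonneg (Complex.Gamma (1 - s))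
      calc ‖Complex.Gamma (1 - s)‖ ≤ ‖1 - s‖ * ‖Complex.Gamma (1 - s)‖ := le_mul_of_one_le_left h0 n1
        _ ≤ ‖2 - s‖ * (‖1 - s‖ * ‖Complex.Gamma (1 - s)‖) := le_mul_of_one_le_left (by positivity) n2
        _ ≤ _ := le_mul_of_one_le_left (by positivity) n3
    have hup := gamma_upper (4 - s) (by simp; linarith)
    have hre : (4 - s).re = 4 - s.re := by simp
    have him : |(4 - s).im| = |s.im| := by simp
    rw [hre, him] at hup
    have hC := hC2 (4 - s.re) ⟨by linarith, by linarith⟩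
    have hGpos : 0 < Real.Gamma (4 - s.re) := Real.Gamma_pos_of_pos (by linarith)
    rw [Real.norm_of_nonneg hGpos.le] at hC
    have hpow : (Real.pi / 2 * (1 + |s.im|)) ^ (4 - s.re) ≤ 8 * (1 + |s.im|) ^ (4:ℕ) := by
      have b1 : 1 ≤ 2 * (1 + |s.im|) := by linarith
      calc (Real.pi / 2 * (1 + |s.im|)) ^ (4 - s.re) ≤ (2 * (1 + |s.im|)) ^ (4 - s.re) := by
            refine Real.rpow_le_rpow (by positivity) ?_ (by linarith)
            exact mul_le_mul_of_nonneg_right (by linarith) (by linarith)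
        _ ≤ (2 * (1 + |s.im|)) ^ (3:ℝ) := Real.rpow_le_rpow_of_exponent_le b1 (by linarith)
        _ = 8 * (1 + |s.im|) ^ (3:ℕ) := by
            have : (2 * (1 + |s.im|)) ^ (3:ℝ) = (2 * (1 + |s.im|)) ^ (3:ℕ) := by norm_cast
            rw [this, mul_pow]; norm_num
        _ ≤ 8 * (1 + |s.im|) ^ (4:ℕ) := by
            have := pow_le_pow_right₀ hT (by norm_num : 3 ≤ 4)
            linarith
    have hsin0 : Complex.Gamma s * Complex.Gamma (1 - s) = Real.pi / Complex.sin (Real.pi * s) := Complex.Gamma_mul_Gamma_one_sub s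
    have hsinb : ‖Complex.sin (Real.pi * s)‖ ≤ Real.exp (Real.pi * |s.im|) := by
      refine (norm_sin_le _).trans (le_of_eq ?_)
      congr 1
      simp [abs_mul, abs_of_pos hpi]
    have hG0 : Complex.Gamma s ≠ 0 := Complex.Gamma_ne_zero_of_re_pos (by linarith)
    have hinv : (Complex.Gamma s)⁻¹ = Complex.Gamma (1 - s) * Complex.sin (Real.pi * s) / Real.pi := by
      have hs0 : Complex.sin (Real.pi * s) ≠ 0 := by
        intro h0
        rw [h0, div_zero, mul_eq_zero] at hsin0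
        have h4 : Complex.Gamma (4 - s) ≠ 0 := Complex.Gamma_ne_zero_of_re_pos (by simp; linarith)
        rcases hsin0 with h5 | h5
        · exact hG0 h5
        · rw [hG4, h5] at h4
          simp at h4
      have hpic : (Real.pi : ℂ) ≠ 0 := by exact_mod_cast hpi.ne'
      field_simp
      rw [eq_div_iff hs0] at hsin0
      rw [mul_comm s (Real.pi : ℂ)]
      linear_combination -hsin0
    rw [hinv, norm_div, norm_mul, Complex.norm_real, Real.norm_of_nonneg hpi.le]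
    have hE : Real.exp (-(Real.pi / 2 * |s.im|)) * Real.exp (Real.pi * |s.im|) = Real.exp (Real.pi / 2 * |s.im|) := by
      rw [← Real.exp_add]; congr 1; ring
    have hfin : ‖Complex.Gamma (1 - s)‖ * ‖Complex.sin (Real.pi * s)‖ ≤
        (C2 * Real.exp 1 * 8) * (1 + |s.im|) ^ (4:ℕ) * Real.exp (Real.pi / 2 * |s.im|) := by
      have hb : ‖Complex.Gamma (1 - s)‖ ≤ C2 * Real.exp 1 * (8 * (1 + |s.im|) ^ (4:ℕ)) * Real.exp (-(Real.pi / 2 * |s.im|)) := by
        refine hle4.trans (hup.trans ?_)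
        gcongr
      calc _ ≤ (C2 * Real.exp 1 * (8 * (1 + |s.im|) ^ (4:ℕ)) * Real.exp (-(Real.pi / 2 * |s.im|))) * Real.exp (Real.pi * |s.im|) :=
            mul_le_mul hb hsinb (norm_nonneg _) (by positivity)
        _ = (C2 * Real.exp 1 * 8) * (1 + |s.im|) ^ (4:ℕ) * (Real.exp (-(Real.pi / 2 * |s.im|)) * Real.exp (Real.pi * |s.im|)) := by ring
        _ = _ := by rw [hE]
    have hdiv : ‖Complex.Gamma (1 - s)‖ * ‖Complex.sin (Real.pi * s)‖ / Real.pi ≤ ‖Complex.Gamma (1 - s)‖ * ‖Complex.sin (Real.pi * s)‖ :=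
      div_le_self (by positivity) (by linarith)
    refine hdiv.trans (hfin.trans ?_)
    gcongr
    linarith

end Pool.Agent.KS6_10
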