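import Pool.Agent.KS6_10.One4
import Pool.Agent.KS6_10.Tw

/-!
# Polynomial growth, uniformly in the family
-/

set_option autoImplicit false
set_option linter.unusedVariables false

namespace Pool.Agent.KS6_10

open Finset MeasureTheory
open scoped ENNReal

variable {N : ℕ} {ε : ℝ} {c : ArithmeticFunction ℂ} {G : ℂ → ℂ} {a b : ℤ}

theorem Hek.le_sq (h : Hek N c) (n : ℕ) : ‖c n‖ ≤ (n:ℝ) ^ 2 := by
  have key : ‖c n‖ ≤ (n.divisors.card : ℝ) * n := by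
    induction n using Nat.recOnPosPrimePosCoprime with
    | prime_pow p n hp hn =>
      rw [Nat.divisors_prime_pow hp, card_map, card_range]
      refine (h.norm_le hp n).trans (le_of_eq ?_)
      push_cast
      ring
    | zero => simp
    | one => simp [h.mult.map_one]
    | coprime a b ha hb hab iha ihb =>
      rw [h.mult.map_mul_of_coprime hab, norm_mul, hab.card_divisors_mul]
      push_cast
      calc ‖c a‖ * ‖c b‖ ≤ ((a.divisors.card : ℝ) * a) * ((b.divisors.card : ℝ) * b) :=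
            mul_le_mul iha ihb (norm_nonneg _) (by positivity)
        _ = _ := by ring
  refine key.trans ?_
  have h1 : (n.divisors.card : ℝ) ≤ n := by exact_mod_cast Nat.card_divisors_le_self n
  nlinarith [(Nat.cast_nonneg n : (0:ℝ) ≤ n)]

/-- the constant `∑ n^(-2)` -/
noncomputable def Z2 : ℝ := ∑' n : ℕ, (n:ℝ) ^ (-(2 : ℝ))

theorem Z2_sum : Summable fun n : ℕ => (n:ℝ) ^ (-(2 : ℝ)) := Real.summable_nat_rpow.2 (by norm_num)

theorem Z2_nonneg : 0 ≤ Z2 := tsum_nonneg fun n => by positivity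

theorem G_le (d : RD N ε (fun n => c n) G) (h : Hek N c) {z : ℂ} (hz : 0 < z.re) : ‖G z‖ ≤ Z2 * z.re ^ (-(4:ℝ)) := by
  have h1 := d.sum z hz
  rw [← h1.tsum_eq]
  refine tsum_of_norm_bounded (Z2_sum.hasSum.mul_right (z.re ^ (-(4:ℝ)))) fun n => ?_
  rcases Nat.eq_zero_or_pos n with rfl | hn
  · simp
  have hn0 : (0:ℝ) < n := by exact_mod_cast hn
  rw [norm_mul, norm_term]
  have hy : 0 < 2 * Real.pi * z.re * n := by positivity
  have h2 := Real.pow_div_factorial_le_exp (2 * Real.pi * z.re * n) hy.le 4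
  have h3 : Real.exp (-(2 * Real.pi * z.re) * n) ≤ ((n:ℝ) ^ 4 * z.re ^ 4)⁻¹ := by
    rw [neg_mul, Real.exp_neg]
    refine inv_anti₀ (by positivity) (le_trans ?_ h2)
    have hpi := Real.pi_gt_three
    have h4 : (6:ℝ) ^ 4 ≤ (2 * Real.pi) ^ 4 := pow_le_pow_left₀ (by norm_num) (by linarith) 4
    have e : (2 * Real.pi * z.re * n) ^ 4 = (2 * Real.pi) ^ 4 * ((n:ℝ) ^ 4 * z.re ^ 4) := by ring
    rw [e, le_div_iff₀ (by positivity)]
    have h5 : (Nat.factorial 4 : ℝ) = 24 := by norm_num [Nat.factorial]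
    rw [h5]
    have h6 : 0 ≤ (n:ℝ) ^ 4 * z.re ^ 4 := by positivity
    nlinarith
  calc ‖c n‖ * Real.exp (-(2 * Real.pi * z.re) * n) ≤ (n:ℝ) ^ 2 * ((n:ℝ) ^ 4 * z.re ^ 4)⁻¹ :=
        mul_le_mul (h.le_sq n) h3 (Real.exp_pos _).le (by positivity)
    _ = _ := by
        rw [Real.rpow_neg hn0.le, Real.rpow_neg hz.le]
        have e1 : (n:ℝ) ^ (2:ℝ) = (n:ℝ) ^ 2 := by exact_mod_cast Real.rpow_natCast (n:ℝ) 2
        have e2 : z.re ^ (4:ℝ) = z.re ^ 4 := by exact_mod_cast Real.rpow_natCast z.re 4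
        rw [e1, e2]
        field_simp

theorem F_growth : ∃ K : ℝ, 1 ≤ K ∧ ∀ (X : ℝ) (a b : ℤ) (N : ℕ) (ε : ℝ) (c : ArithmeticFunction ℂ) (G : ℂ → ℂ), 1 ≤ X →
    a ∈ bxA X → b ∈ bxB X → 4 * a ^ 3 + 27 * b ^ 2 ≠ 0 → CD a b N ε c G → ∀ F : ℂ → ℂ, IsLF a b F →
    ∀ s : ℂ, 1 ≤ s.re → s.re ≤ 3 → |s.im| ≤ 2 * X → ‖F s‖ ≤ K * X ^ 11 := by
  obtain ⟨C, hC, hray⟩ := ray_unif
  obtain ⟨T, hT1, hT⟩ := T_bound 2 (1 / 2) (by norm_num)
  have hZ := Z2_nonneg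
  refine ⟨1 + T * (C * 3 ^ 4 * Real.exp 2 * (Z2 * 16 * 1928448 ^ 2)), by
    have : 0 ≤ T * (C * 3 ^ 4 * Real.exp 2 * (Z2 * 16 * 1928448 ^ 2)) := by positivity
    linarith, fun X a b N ε c G hX ha hb hΔ d F hF s hs1 hs3 him => ?_⟩
  have hX0 : 0 < X := by linarith
  obtain ⟨L, hL, hL2⟩ := d.rd.exists_entire
  have hFPL := FPL hΔ d.hek d.pts d.good hF hL hL2
  have hNr : (0:ℝ) < N := by exact_mod_cast d.rd.Npos
  have hN1 : (1:ℝ) ≤ N := by exact_mod_cast d.rd.Npos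
  have hNle := N_le hX ha hb hΔ d.cond
  have hsq : 0 < Real.sqrt N := Real.sqrt_pos.2 hNr
  have hsq1 : 1 ≤ Real.sqrt N := Real.one_le_sqrt.2 hN1
  have hθ0 : 0 < X ^ (-(1:ℝ)) := Real.rpow_pos_of_pos hX0 _
  have hθe : X ^ (-(1:ℝ)) = X⁻¹ := Real.rpow_neg_one X
  have hθ1 : X ^ (-(1:ℝ)) ≤ 1 := Real.rpow_le_one_of_one_le_of_nonpos hX (by norm_num)
  have hre : 1 / (2 * X) ≤ (rot (ang X 1)).re := by
    refine le_trans ?_ (ang_re hX one_pos)
    rw [hθe, ← div_eq_mul_inv, div_div, one_div_le (by positivity) (by positivity), one_div_div]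
    have := Real.pi_lt_four
    rw [div_le_iff₀ (by norm_num)]
    nlinarith
  have hre0 : 0 < (rot (ang X 1)).re := lt_of_lt_of_le (by positivity) hre
  have h := hray N ε _ G d.rd L hL hL2 (X ^ (-(1:ℝ))) hθ0 hθ1 s hs1 hs3
  set r : ℝ := 1 / Real.sqrt N with hr
  have hr0 : 0 < r := by positivity
  -- the integral
  have hint : ∫⁻ v in Set.Ioi r, ENNReal.ofReal (v ^ (s.re - 1)) * ‖G (rot (Real.pi / 2 - X ^ (-(1:ℝ))) * v)‖ₑ ≤
      ENNReal.ofReal (Z2 * 16 * X ^ 4 * N ^ 2) := by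
    have h1 : ∀ v ∈ Set.Ioi r, ENNReal.ofReal (v ^ (s.re - 1)) * ‖G (rot (Real.pi / 2 - X ^ (-(1:ℝ))) * v)‖ₑ ≤
        ENNReal.ofReal (Z2 * 16 * X ^ 4 * r ^ (s.re - 3) * v ^ (-(2:ℝ))) := fun v hv => by
      have hv0 : 0 < v := hr0.trans hv
      rw [← ofReal_norm, ← ENNReal.ofReal_mul (by positivity)]
      refine ENNReal.ofReal_le_ofReal ?_
      have h2 : (rot (Real.pi / 2 - X ^ (-(1:ℝ))) * (v:ℂ)).re = (rot (ang X 1)).re * v := by
        rw [Complex.re_mul_ofReal]; rfl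
      have h3 := G_le d.rd d.hek (z := rot (Real.pi / 2 - X ^ (-(1:ℝ))) * v) (by rw [h2]; positivity)
      rw [h2] at h3
      have h4 : ((rot (ang X 1)).re * v) ^ (-(4:ℝ)) ≤ 16 * X ^ 4 * v ^ (-(4:ℝ)) := by
        rw [Real.mul_rpow hre0.le hv0.le]
        refine mul_le_mul_of_nonneg_right ?_ (by positivity)
        calc ((rot (ang X 1)).re) ^ (-(4:ℝ)) ≤ (1 / (2 * X)) ^ (-(4:ℝ)) := Real.rpow_le_rpow_of_nonpos (by positivity) hre (by norm_num)
          _ = 16 * X ^ 4 := by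
              rw [one_div, Real.inv_rpow (by positivity), Real.rpow_neg (by positivity), inv_inv]
              have e2 : (2 * X) ^ (4:ℝ) = (2 * X) ^ 4 := by exact_mod_cast Real.rpow_natCast (2 * X) 4
              rw [e2]; ring
      have h5 : v ^ (s.re - 1) * v ^ (-(4:ℝ)) ≤ r ^ (s.re - 3) * v ^ (-(2:ℝ)) := by
        have e3 : v ^ (s.re - 1) * v ^ (-(4:ℝ)) = v ^ (s.re - 3) * v ^ (-(2:ℝ)) := by
          rw [← Real.rpow_add hv0, ← Real.rpow_add hv0]; congr 1; ring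
        rw [e3]
        exact mul_le_mul_of_nonneg_right (Real.rpow_le_rpow_of_nonpos hr0 (le_of_lt hv) (by linarith)) (by positivity)
      calc v ^ (s.re - 1) * ‖G (rot (Real.pi / 2 - X ^ (-(1:ℝ))) * v)‖ ≤ v ^ (s.re - 1) * (Z2 * (16 * X ^ 4 * v ^ (-(4:ℝ)))) :=
            mul_le_mul_of_nonneg_left (h3.trans (mul_le_mul_of_nonneg_left h4 hZ)) (by positivity)
        _ = Z2 * 16 * X ^ 4 * (v ^ (s.re - 1) * v ^ (-(4:ℝ))) := by ring
        _ ≤ Z2 * 16 * X ^ 4 * (r ^ (s.re - 3) * v ^ (-(2:ℝ))) := mul_le_mul_of_nonneg_left h5 (by positivity)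
        _ = _ := by ring
    refine (setLIntegral_mono' measurableSet_Ioi h1).trans ?_
    have hi : IntegrableOn (fun v : ℝ => Z2 * 16 * X ^ 4 * r ^ (s.re - 3) * v ^ (-(2:ℝ))) (Set.Ioi r) :=
      (integrableOn_Ioi_rpow_of_lt (by norm_num) hr0).const_mul _
    rw [← ofReal_integral_eq_lintegral_ofReal hi (by
      filter_upwards [ae_restrict_mem measurableSet_Ioi] with v hv
      have hv0 : 0 < v := hr0.trans hv
      positivity)]
    refine ENNReal.ofReal_le_ofReal ?_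
    rw [integral_const_mul, integral_Ioi_rpow_of_lt (by norm_num) hr0]
    have e4 : -r ^ (-(2:ℝ) + 1) / (-(2:ℝ) + 1) = r ^ (-(1:ℝ)) := by norm_num
    rw [e4, mul_assoc, ← Real.rpow_add hr0]
    refine mul_le_mul_of_nonneg_left ?_ (by positivity)
    have e5 : r ^ (s.re - 3 + -(1:ℝ)) = (Real.sqrt N) ^ (4 - s.re) := by
      rw [hr, one_div, Real.inv_rpow hsq.le, ← Real.rpow_neg hsq.le]
      congr 1; ring
    rw [e5]
    calc (Real.sqrt N) ^ (4 - s.re) ≤ (Real.sqrt N) ^ (4:ℝ) := Real.rpow_le_rpow_of_exponent_le hsq1 (by linarith)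
      _ = (N:ℝ) ^ 2 := by
          have e6 : (Real.sqrt N) ^ (4:ℝ) = (Real.sqrt N) ^ 4 := by exact_mod_cast Real.rpow_natCast (Real.sqrt N) 4
          rw [e6]
          calc (Real.sqrt N) ^ 4 = ((Real.sqrt N) ^ 2) ^ 2 := by ring
            _ = _ := by rw [Real.sq_sqrt hNr.le]
  have h2 : ‖L s‖ₑ ≤ ENNReal.ofReal (C * (1 + |s.im|) ^ (4:ℕ) * Real.exp (X ^ (-(1:ℝ)) * |s.im|) * (Z2 * 16 * X ^ 4 * N ^ 2)) := by
    rw [ENNReal.ofReal_mul (p := C * (1 + |s.im|) ^ (4:ℕ) * Real.exp (X ^ (-(1:ℝ)) * |s.im|)) (by positivity)]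
    exact h.trans (mul_le_mul' le_rfl hint)
  rw [← ofReal_norm, ENNReal.ofReal_le_ofReal_iff (by positivity)] at h2
  have h3 : ‖L s‖ ≤ C * 3 ^ 4 * Real.exp 2 * (Z2 * 16 * 1928448 ^ 2) * X ^ 10 := by
    have e1 : (1 + |s.im|) ^ (4:ℕ) ≤ (3 * X) ^ 4 := pow_le_pow_left₀ (by positivity) (by linarith) 4
    have e2 : Real.exp (X ^ (-(1:ℝ)) * |s.im|) ≤ Real.exp 2 := by
      refine Real.exp_le_exp.2 ?_
      rw [hθe]
      calc X⁻¹ * |s.im| ≤ X⁻¹ * (2 * X) := mul_le_mul_of_nonneg_left him (by positivity)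
        _ = 2 := by field_simp
    have e3 : (N:ℝ) ^ 2 ≤ (1928448 * X) ^ 2 := pow_le_pow_left₀ hNr.le hNle 2
    calc ‖L s‖ ≤ C * (1 + |s.im|) ^ (4:ℕ) * Real.exp (X ^ (-(1:ℝ)) * |s.im|) * (Z2 * 16 * X ^ 4 * N ^ 2) := h2
      _ ≤ C * (3 * X) ^ 4 * Real.exp 2 * (Z2 * 16 * X ^ 4 * (1928448 * X) ^ 2) := by
          refine mul_le_mul (mul_le_mul (mul_le_mul_of_nonneg_left e1 (by positivity)) e2 (Real.exp_pos _).le (by positivity))
            (mul_le_mul_of_nonneg_left e3 (by positivity)) (by positivity) (by positivity)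
      _ = _ := by ring
  have h4 := PP_le (s := s) hΔ d.hek hs1
  have h5 := hT X a b hX ha hb hΔ
  have h6 : X ^ (1 / 2 : ℝ) ≤ X := by
    calc X ^ (1 / 2 : ℝ) ≤ X ^ (1:ℝ) := Real.rpow_le_rpow_of_exponent_le hX (by norm_num)
      _ = X := Real.rpow_one X
  rw [hFPL s, norm_mul]
  have hT0 : 0 ≤ T := by linarith
  calc ‖PP N (c) a b s‖ * ‖L s‖ ≤ (T * X) * (C * 3 ^ 4 * Real.exp 2 * (Z2 * 16 * 1928448 ^ 2) * X ^ 10) :=
        mul_le_mul ((h4.trans h5).trans (mul_le_mul_of_nonneg_left h6 hT0)) h3 (norm_nonneg _) (by positivity)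
    _ = T * (C * 3 ^ 4 * Real.exp 2 * (Z2 * 16 * 1928448 ^ 2)) * X ^ 11 := by ring
    _ ≤ _ := mul_le_mul_of_nonneg_right (by linarith) (by positivity)

end Pool.Agent.KS6_10
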