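import Pool.Agent.KS6_10.Mult

/-!
# Hecke recursions
-/

set_option autoImplicit false
set_option linter.unusedVariables false

namespace Pool.Agent.KS6_10

open Finset ArithmeticFunction
open scoped ArithmeticFunction

/-- a sequence with the Hecke recursion, in terms of roots -/
theorem rec_roots {u : ℕ → ℂ} {α β : ℂ} (h0 : u 0 = 1) (h1 : u 1 = α + β)
    (hr : ∀ k, u (k + 2) = (α + β) * u (k + 1) - α * β * u k) (k : ℕ) :
    u k = ∑ i ∈ range (k + 1), α ^ i * β ^ (k - i) := by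
  have key : ∀ k, u (k + 1) = β * u k + α ^ (k + 1) := by
    intro k
    induction k with
    | zero => rw [h0, zero_add, h1]; ring
    | succ k ih =>
      rw [hr k, ih]; ring
  induction k with
  | zero => simp [h0]
  | succ k ih =>
    rw [key k, ih, sum_range_succ (fun i => α ^ i * β ^ (k + 1 - i)) (k + 1), Nat.sub_self, pow_zero, mul_one, mul_sum]
    congr 1
    refine sum_congr rfl fun i hi => ?_
    have hi' : i ≤ k := by have := mem_range.1 hi; omega
    rw [Nat.succ_sub hi', pow_succ]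
    ring

theorem rec_bound {u : ℕ → ℂ} {α β : ℂ} (h0 : u 0 = 1) (h1 : u 1 = α + β)
    (hr : ∀ k, u (k + 2) = (α + β) * u (k + 1) - α * β * u k) {ρ : ℝ} (hα : ‖α‖ ≤ ρ) (hβ : ‖β‖ ≤ ρ) (k : ℕ) :
    ‖u k‖ ≤ ((k:ℝ) + 1) * ρ ^ k := by
  have hρ : 0 ≤ ρ := (norm_nonneg _).trans hα
  rw [rec_roots h0 h1 hr k]
  refine (norm_sum_le _ _).trans ?_
  calc ∑ i ∈ range (k + 1), ‖α ^ i * β ^ (k - i)‖ ≤ ∑ i ∈ range (k + 1), ρ ^ k := by
        refine sum_le_sum fun i hi => ?_
        have hi' : i ≤ k := by have := mem_range.1 hi; omega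
        rw [norm_mul, norm_pow, norm_pow]
        calc ‖α‖ ^ i * ‖β‖ ^ (k - i) ≤ ρ ^ i * ρ ^ (k - i) := by gcongr
          _ = ρ ^ k := by rw [← pow_add, Nat.add_sub_cancel' hi']
    _ = _ := by rw [sum_const, card_range, nsmul_eq_mul]; push_cast; ring

theorem roots_cx {a q : ℝ} (hq : 0 < q) (h : |a| ≤ 2 * Real.sqrt q) :
    ∃ α β : ℂ, ‖α‖ = Real.sqrt q ∧ ‖β‖ = Real.sqrt q ∧ α + β = a ∧ α * β = q := by
  have h1 : a ^ 2 ≤ 4 * q := by
    have h2 : |a| ^ 2 ≤ (2 * Real.sqrt q) ^ 2 := pow_le_pow_left₀ (abs_nonneg _) h 2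
    rw [sq_abs, mul_pow, Real.sq_sqrt hq.le] at h2
    linarith
  set s : ℝ := Real.sqrt (4 * q - a ^ 2) with hs
  have hs2 : s ^ 2 = 4 * q - a ^ 2 := Real.sq_sqrt (by linarith)
  set z : ℂ := ⟨a / 2, s / 2⟩ with hz
  have hns : Complex.normSq z = q := by
    rw [Complex.normSq_apply, hz]
    simp only
    nlinarith
  have hn : ‖z‖ = Real.sqrt q := by
    rw [← hns, Complex.norm_def]
  refine ⟨z, (starRingEnd ℂ) z, hn, by rw [Complex.norm_conj, hn], ?_, ?_⟩
  · rw [Complex.add_conj, hz]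
    simp only
    push_cast
    ring
  · rw [Complex.mul_conj, hns]

/-- roots of `X² - aX + q` when `|a| ≤ q + 1` -/
theorem roots_le {a q : ℝ} (hq : 1 ≤ q) (h : |a| ≤ q + 1) :
    ∃ α β : ℂ, ‖α‖ ≤ q ∧ ‖β‖ ≤ q ∧ α + β = a ∧ α * β = q := by
  rcases le_or_gt |a| (2 * Real.sqrt q) with h1 | h1
  · obtain ⟨α, β, e1, e2, e3, e4⟩ := roots_cx (by linarith) h1
    have : Real.sqrt q ≤ q := by
      rw [Real.sqrt_le_left (by linarith)]
      nlinarith
    exact ⟨α, β, e1.le.trans this, e2.le.trans this, e3, e4⟩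
  · have h4 : 4 * q ≤ a ^ 2 := by
      have h2 : (2 * Real.sqrt q) ^ 2 ≤ |a| ^ 2 := pow_le_pow_left₀ (by positivity) h1.le 2
      rw [sq_abs, mul_pow, Real.sq_sqrt (by linarith)] at h2
      linarith
    set s : ℝ := Real.sqrt (a ^ 2 - 4 * q) with hs
    have hs2 : s ^ 2 = a ^ 2 - 4 * q := Real.sq_sqrt (by linarith)
    have hs0 : 0 ≤ s := Real.sqrt_nonneg _
    have hsq : s ≤ q - 1 := by
      rw [hs, Real.sqrt_le_left (by linarith)]
      have h2 : |a| ^ 2 ≤ (q + 1) ^ 2 := pow_le_pow_left₀ (abs_nonneg _) h 2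
      rw [sq_abs] at h2
      nlinarith
    have ha := abs_le.1 h
    refine ⟨((a + s) / 2 : ℝ), ((a - s) / 2 : ℝ), ?_, ?_, ?_, ?_⟩
    · rw [Complex.norm_real, Real.norm_eq_abs, abs_le]
      constructor <;> linarith
    · rw [Complex.norm_real, Real.norm_eq_abs, abs_le]
      constructor <;> linarith
    · push_cast; ring
    · rw [← Complex.ofReal_mul]
      congr 1
      nlinarith

/-- a real sequence with the Hecke recursion and `u k = O(q^k)` has `|u 1| ≤ q + 1` -/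
theorem rec_small {u : ℕ → ℝ} {q : ℝ} (hq : 1 ≤ q) (h0 : u 0 = 1)
    (hr : ∀ k, u (k + 2) = u 1 * u (k + 1) - q * u k) {B : ℝ} (hB : ∀ k, |u k| ≤ B * q ^ k) : |u 1| ≤ q + 1 := by
  by_contra hcon
  push Not at hcon
  set lam : ℝ := |u 1| - 1 with hl
  have hlq : q < lam := by linarith
  have hl0 : 0 < lam := by linarith
  have key : ∀ k, lam * |u k| ≤ |u (k + 1)| := by
    intro k
    induction k with
    | zero =>
      rw [h0, abs_one, mul_one, zero_add]
      linarith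
    | succ k ih =>
      rw [hr k]
      have h1 : |u 1| * |u (k + 1)| - q * |u k| ≤ |u 1 * u (k + 1) - q * u k| := by
        have := abs_sub_abs_le_abs_sub (u 1 * u (k + 1)) (q * u k)
        rw [abs_mul, abs_mul, abs_of_pos (by linarith : 0 < q)] at this
        exact this
      have h2 : q * |u k| ≤ |u (k + 1)| := by
        refine le_trans ?_ ih
        exact mul_le_mul_of_nonneg_right hlq.le (abs_nonneg _)
      have h3 : lam * |u (k + 1)| = |u 1| * |u (k + 1)| - |u (k + 1)| := by rw [hl]; ring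
      linarith
  have key2 : ∀ k, lam ^ k ≤ |u k| := by
    intro k
    induction k with
    | zero => simp [h0]
    | succ k ih =>
      calc lam ^ (k + 1) = lam * lam ^ k := by ring
        _ ≤ lam * |u k| := mul_le_mul_of_nonneg_left ih hl0.le
        _ ≤ _ := key k
  have h1 : 1 < lam / q := by rw [one_lt_div (by linarith)]; exact hlq
  obtain ⟨k, hk⟩ := pow_unbounded_of_one_lt B h1
  have h2 := (key2 k).trans (hB k)
  rw [div_pow, lt_div_iff₀ (by positivity)] at hk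
  linarith

/-- if `x^k ≤ B q^k` for all `k` then `x ≤ q` -/
theorem pow_small {x q B : ℝ} (hx : 0 ≤ x) (hq : 0 < q) (hB : ∀ k : ℕ, x ^ k ≤ B * q ^ k) : x ≤ q := by
  by_contra hcon
  push Not at hcon
  have h1 : 1 < x / q := by rw [one_lt_div hq]; exact hcon
  obtain ⟨k, hk⟩ := pow_unbounded_of_one_lt B h1
  have h2 := hB k
  rw [div_pow, lt_div_iff₀ (by positivity)] at hk
  linarith

/-- the Hecke relations -/
structure Hek (N : ℕ) (c : ArithmeticFunction ℂ) : Prop where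
  mult : c.IsMultiplicative
  real : ∀ n, (c n).im = 0
  pow : ∀ p j : ℕ, p.Prime → c (p ^ (j + 2)) = c p * c (p ^ (j + 1)) - (if p ∣ N then 0 else (p : ℂ) * c (p ^ j))
  bound : ∃ B : ℝ, ∀ n : ℕ, ‖c n‖ ≤ B * n

variable {N : ℕ} {c : ArithmeticFunction ℂ}

theorem Hek.re_eq (h : Hek N c) (n : ℕ) : c n = ((c n).re : ℂ) := by
  apply Complex.ext
  · simp
  · simp [h.real n]

theorem Hek.roots (h : Hek N c) {p : ℕ} (hp : p.Prime) : ∃ α β : ℂ, ‖α‖ ≤ p ∧ ‖β‖ ≤ p ∧ α + β = c p ∧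
    α * β = (if p ∣ N then 0 else (p:ℂ)) := by
  obtain ⟨B, hB⟩ := h.bound
  have hp1 : (1:ℝ) ≤ p := by exact_mod_cast hp.one_le
  by_cases hN : p ∣ N
  · refine ⟨c p, 0, ?_, by simp, by simp, by simp [hN]⟩
    refine pow_small (B := B) (norm_nonneg _) (by linarith) fun k => ?_
    have : c (p ^ k) = c p ^ k := by
      induction k with
      | zero => simp [h.mult.map_one]
      | succ k ih =>
        rcases k with _ | k
        · simp
        · rw [h.pow p k hp, if_pos hN, sub_zero, ih]; ring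
    rw [← norm_pow, ← this]
    have := hB (p ^ k)
    rwa [Nat.cast_pow] at this
  · rw [if_neg hN]
    have hsm : |(c p).re| ≤ p + 1 := by
      have := rec_small (u := fun k => (c (p ^ k)).re) (q := p) hp1 (by simp [h.mult.map_one]) (fun k => by
        simp only [pow_one]
        rw [h.pow p k hp, if_neg hN, Complex.sub_re, h.re_eq p, Complex.re_ofReal_mul, ← Complex.ofReal_natCast, Complex.re_ofReal_mul]
        simp) (B := B) (fun k => by
          refine (Complex.abs_re_le_norm _).trans ?_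
          have := hB (p ^ k)
          rwa [Nat.cast_pow] at this)
      simpa using this
    obtain ⟨α, β, e1, e2, e3, e4⟩ := roots_le hp1 hsm
    refine ⟨α, β, e1, e2, ?_, ?_⟩
    · rw [e3, ← h.re_eq]
    · rw [e4]; simp

theorem Hek.norm_le (h : Hek N c) {p : ℕ} (hp : p.Prime) (k : ℕ) : ‖c (p ^ k)‖ ≤ ((k:ℝ) + 1) * (p:ℝ) ^ k := by
  obtain ⟨α, β, e1, e2, e3, e4⟩ := h.roots hp
  refine rec_bound (u := fun k => c (p ^ k)) (α := α) (β := β) (by simp [h.mult.map_one]) (by simp [e3]) (fun k => ?_) e1 e2 k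
  rw [h.pow p k hp, e3, e4]
  split_ifs <;> ring

theorem Hek.norm_le' (h : Hek N c) {p : ℕ} (hp : p.Prime) (hN : ¬ p ∣ N) (hc : ‖c p‖ ≤ 2 * Real.sqrt p) (k : ℕ) :
    ‖c (p ^ k)‖ ≤ ((k:ℝ) + 1) * Real.sqrt p ^ k := by
  have hp0 : (0:ℝ) < p := by exact_mod_cast hp.pos
  rw [h.re_eq p, Complex.norm_real, Real.norm_eq_abs] at hc
  obtain ⟨α, β, e1, e2, e3, e4⟩ := roots_cx hp0 hc
  refine rec_bound (u := fun k => c (p ^ k)) (α := α) (β := β) (by simp [h.mult.map_one]) ?_ (fun k => ?_) e1.le e2.le k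
  · simp only [pow_one]
    rw [e3, ← h.re_eq]
  · rw [h.pow p k hp, e3, e4, if_neg hN, ← h.re_eq]
    push_cast
    ring

/-- the local factor -/
theorem Hek.local_sum (h : Hek N c) {p : ℕ} (hp : p.Prime) {x : ℂ} (hx : (p:ℝ) * ‖x‖ < 1) :
    HasSum (fun k : ℕ => c (p ^ k) * x ^ k) (1 - c p * x + (if p ∣ N then 0 else (p:ℂ)) * x ^ 2)⁻¹ := by
  obtain ⟨α, β, e1, e2, e3, e4⟩ := h.roots hp
  have hα : ‖α * x‖ < 1 := by
    rw [norm_mul]
    exact lt_of_le_of_lt (mul_le_mul_of_nonneg_right e1 (norm_nonneg _)) hx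
  have hβ : ‖β * x‖ < 1 := by
    rw [norm_mul]
    exact lt_of_le_of_lt (mul_le_mul_of_nonneg_right e2 (norm_nonneg _)) hx
  have hsα := summable_geometric_of_norm_lt_one hα
  have hsβ := summable_geometric_of_norm_lt_one hβ
  have h1 := hasSum_sum_range_mul_of_summable_norm hsα.norm hsβ.norm
  rw [tsum_geometric_of_norm_lt_one hα, tsum_geometric_of_norm_lt_one hβ] at h1
  have e5 : (1 - α * x)⁻¹ * (1 - β * x)⁻¹ = (1 - c p * x + (if p ∣ N then 0 else (p:ℂ)) * x ^ 2)⁻¹ := by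
    rw [← mul_inv, ← e3, ← e4]
    congr 1
    ring
  rw [e5] at h1
  have h2 : (fun k : ℕ => c (p ^ k) * x ^ k) = fun n => ∑ k ∈ range (n + 1), (α * x) ^ k * (β * x) ^ (n - k) := by
   funext k
   have e6 := rec_roots (u := fun k => c (p ^ k)) (α := α) (β := β) (by simp [h.mult.map_one]) (by simp [e3]) (fun k => by
     rw [h.pow p k hp, e3, e4]
     split_ifs <;> ring) k
   rw [e6, sum_mul]
   refine sum_congr rfl fun i hi => ?_
   have hi' : i ≤ k := by have := mem_range.1 hi; omega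
   rw [mul_pow, mul_pow]
   calc α ^ i * β ^ (k - i) * x ^ k = α ^ i * β ^ (k - i) * (x ^ i * x ^ (k - i)) := by rw [← pow_add, Nat.add_sub_cancel' hi']
     _ = _ := by ring
  rw [h2]
  exact h1

end Pool.Agent.KS6_10
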