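import Pool.Agent.KS6_10.Fam

/-!
# Euler products
-/

set_option autoImplicit false
set_option linter.unusedVariables false

namespace Pool.Agent.KS6_10

open Finset ArithmeticFunction
open scoped ArithmeticFunction ArithmeticFunction.Moebius

/-- `a_p`: `p` minus the number of pairs `(x, y)` modulo `p` with `y² ≡ x³ + a x + b`. -/
noncomputable def apE (a b : ℤ) (p : ℕ) : ℤ :=
  (p : ℤ) - (((Finset.range p ×ˢ Finset.range p).filter
    (fun xy : ℕ × ℕ => (p : ℤ) ∣ (xy.2 : ℤ) ^ 2 - ((xy.1 : ℤ) ^ 3 + a * (xy.1 : ℤ) + b))).card : ℤ)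

theorem card_sq {p : ℕ} (hp : p.Prime) (hp2 : p ≠ 2) (t : ℤ) :
    (((range p).filter (fun y : ℕ => (p:ℤ) ∣ (y:ℤ) ^ 2 - t)).card : ℤ) = 1 + jacobiSym t p := by
  have : Fact p.Prime := ⟨hp⟩
  have h1 := legendreSym.card_sqrts (p := p) hp2 t
  rw [← jacobiSym.legendreSym.to_jacobiSym, add_comm, ← h1]
  rw [card_filter]
  have h2 : ∑ y ∈ range p, (if (p:ℤ) ∣ (y:ℤ) ^ 2 - t then 1 else 0) = ∑ y ∈ range p, (fun z : ZMod p => if z ^ 2 = (t : ZMod p) then 1 else 0) ((y:ℕ) : ZMod p) := by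
    refine sum_congr rfl fun y _ => ?_
    simp only
    have : ((p:ℤ) ∣ (y:ℤ) ^ 2 - t) ↔ ((y:ℕ) : ZMod p) ^ 2 = (t : ZMod p) := by
      rw [← ZMod.intCast_zmod_eq_zero_iff_dvd, Int.cast_sub, sub_eq_zero]
      push_cast
      exact Iff.rfl
    simp only [this]
  rw [h2, sum_range_zmod p (fun z : ZMod p => if z ^ 2 = (t : ZMod p) then 1 else 0), ← card_filter]
  norm_cast
  congr 1
  ext z
  simp

theorem apE_eq {p : ℕ} (hp : p.Prime) (hp2 : p ≠ 2) (a b : ℤ) : apE a b p = -SS p a b := by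
  unfold apE SS
  have h1 : (((Finset.range p ×ˢ Finset.range p).filter
    (fun xy : ℕ × ℕ => (p : ℤ) ∣ (xy.2 : ℤ) ^ 2 - ((xy.1 : ℤ) ^ 3 + a * (xy.1 : ℤ) + b))).card : ℤ) =
    ∑ x ∈ range p, (((range p).filter (fun y : ℕ => (p:ℤ) ∣ (y:ℤ) ^ 2 - ((x : ℤ) ^ 3 + a * (x : ℤ) + b))).card : ℤ) := by
    simp only [card_filter]
    push_cast
    rw [sum_product]
  rw [h1, sum_congr rfl fun x _ => card_sq hp hp2 _, sum_add_distrib]
  simp

open Classical in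
/-- `F` is entire and equals the Euler product over the good primes for `Re s > 3/2` -/
def IsLF (a b : ℤ) (F : ℂ → ℂ) : Prop :=
  Differentiable ℂ F ∧ ∀ s : ℂ, 3 / 2 < s.re →
    HasProd (fun p : ℕ => if p.Prime ∧ Gd a b p then
      (1 - (apE a b p : ℂ) * (p : ℂ) ^ (-s) + (p : ℂ) * (p : ℂ) ^ (-2 * s))⁻¹ else 1) (F s)

theorem cpow_two {p : ℕ} (hp : p ≠ 0) (s : ℂ) : (p : ℂ) ^ (-2 * s) = ((p:ℂ) ^ (-s)) ^ 2 := by
  rw [← Complex.cpow_nat_mul]
  congr 1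
  push_cast
  ring

theorem norm_ppow {p : ℕ} (hp : 0 < p) (s : ℂ) : ‖(p:ℂ) ^ (-s)‖ = (p:ℝ) ^ (-s.re) := by
  rw [Complex.norm_natCast_cpow_of_pos hp, Complex.neg_re]

theorem p_mul_lt {p : ℕ} (hp : 2 ≤ p) {s : ℂ} (hs : 2 < s.re) : (p:ℝ) * ‖(p:ℂ) ^ (-s)‖ ≤ 1 / 2 := by
  have hp2 : (2:ℝ) ≤ p := by exact_mod_cast hp
  have hp0 : (0:ℝ) < p := by linarith
  rw [norm_ppow (by omega)]
  have h1 : (p:ℝ) ^ (-s.re) ≤ (p:ℝ) ^ (-2:ℝ) := Real.rpow_le_rpow_of_exponent_le (by linarith) (by linarith)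
  have h2 : (p:ℝ) ^ (-2:ℝ) = ((p:ℝ) ^ 2)⁻¹ := by
    rw [Real.rpow_neg hp0.le]; norm_cast
  rw [h2] at h1
  calc (p:ℝ) * (p:ℝ) ^ (-s.re) ≤ p * ((p:ℝ) ^ 2)⁻¹ := mul_le_mul_of_nonneg_left h1 hp0.le
    _ = 1 / p := by field_simp
    _ ≤ 1 / 2 := one_div_le_one_div_of_le (by norm_num) hp2

/-- terms of the L-series at prime powers -/
theorem term_pp (f : ArithmeticFunction ℂ) (s : ℂ) {p : ℕ} (hp : p.Prime) (k : ℕ) :
    LSeries.term (fun n => f n) s (p ^ k) = f (p ^ k) * ((p:ℂ) ^ (-s)) ^ k := by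
  rw [LSeries.term_of_ne_zero (pow_ne_zero k hp.ne_zero), div_eq_mul_inv, ← Complex.cpow_neg]
  congr 1
  rw [← Complex.cpow_nat_mul, Nat.cast_pow, ← Complex.natCast_cpow_natCast_mul p k (-s)]

theorem eprod {f : ArithmeticFunction ℂ} (hf : f.IsMultiplicative) {s : ℂ} (hs : LSeriesSummable (fun n => f n) s) {u : ℕ → ℂ}
    (hu : ∀ p : ℕ, p.Prime → HasSum (fun k : ℕ => f (p ^ k) * ((p:ℂ) ^ (-s)) ^ k) (u p)) :
    HasProd (fun p : ℕ => if p.Prime then u p else 1) (LSeries (fun n => f n) s) := by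
  have h1 := EulerProduct.eulerProduct_hasProd (f := LSeries.term (fun n => f n) s)
    (by rw [LSeries.term_of_ne_zero one_ne_zero, hf.map_one]; simp)
    (fun {m n} hmn => by
      rcases eq_or_ne m 0 with hm | hm
      · rw [hm, zero_mul, LSeries.term_zero, zero_mul]
      rcases eq_or_ne n 0 with hn | hn
      · rw [hn, mul_zero, LSeries.term_zero, mul_zero]
      rw [LSeries.term_of_ne_zero hm, LSeries.term_of_ne_zero hn, LSeries.term_of_ne_zero (mul_ne_zero hm hn),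
        hf.map_mul_of_coprime hmn, Nat.cast_mul, Complex.natCast_mul_natCast_cpow]
      rw [div_mul_div_comm])
    hs.norm (LSeries.term_zero _ _)
  have h2 : (fun p : Nat.Primes => ∑' e : ℕ, LSeries.term (fun n => f n) s ((p:ℕ) ^ e)) = (fun p : ℕ => u p) ∘ (↑) := by
    funext p
    show _ = u p
    rw [← (hu p p.2).tsum_eq]
    exact tsum_congr fun k => term_pp f s p.2 k
  rw [h2] at h1
  have h3 := (hasProd_subtype_iff_mulIndicator (s := {p : ℕ | p.Prime})).1 h1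
  have h4 : (fun p : ℕ => if p.Prime then u p else 1) = Set.mulIndicator {p : ℕ | p.Prime} (fun p => u p) := by
    funext p
    rw [Set.mulIndicator_apply]
    rfl
  rw [h4]
  exact h3

theorem lsum_of_le {f : ℕ → ℂ} (hf : ∀ n, ‖f n‖ ≤ n) {s : ℂ} (hs : 2 < s.re) : LSeriesSummable f s := by
  refine LSeriesSummable_of_le_const_mul_rpow (x := 2) hs ⟨1, fun n hn => ?_⟩
  have : ((n:ℝ)) ^ ((2:ℝ) - 1) = n := by norm_num
  rw [this, one_mul]
  exact hf n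

theorem lsum_of_54 {f : ℕ → ℂ} (hf : Summable (fun n : ℕ => ‖f n‖ * (n:ℝ) ^ (-(5 / 4 : ℝ)))) {s : ℂ} (hs : 5 / 4 ≤ s.re) :
    LSeriesSummable f s ∧ ‖LSeries f s‖ ≤ ∑' n : ℕ, ‖f n‖ * (n:ℝ) ^ (-(5 / 4 : ℝ)) := by
  have h1 : ∀ n, ‖LSeries.term f s n‖ ≤ ‖f n‖ * (n:ℝ) ^ (-(5 / 4 : ℝ)) := fun n => by
    rw [LSeries.norm_term_eq]
    split_ifs with h
    · positivity
    · have h0 : (1:ℝ) ≤ n := by exact_mod_cast Nat.pos_of_ne_zero h
      rw [div_eq_mul_inv, ← Real.rpow_neg (by positivity)]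
      exact mul_le_mul_of_nonneg_left (Real.rpow_le_rpow_of_exponent_le h0 (by linarith)) (norm_nonneg _)
  exact ⟨Summable.of_norm_bounded hf h1, tsum_of_norm_bounded hf.hasSum h1⟩

end Pool.Agent.KS6_10
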