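import Pool.Agent.KS6_10.Exp

/-!
# The sums `∑ ((x³ + α x + β) / m)` and their Fourier transform
-/

set_option autoImplicit false

namespace Pool.Agent.KS6_10

open Finset Complex ZMod

/-- the Jacobi symbol as a function on `ℤ/m` -/
def jac (m : ℕ) (x : ZMod m) : ℤ := jacobiSym (x.val : ℤ) m

section
variable {m : ℕ} [NeZero m]

theorem jac_int (a : ℤ) : jac m (a : ZMod m) = jacobiSym a m := by
  unfold jac
  rw [ZMod.val_intCast, ← jacobiSym.mod_left]

theorem jac_mul (x y : ZMod m) : jac m (x * y) = jac m x * jac m y := by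
  obtain ⟨a, rfl⟩ := ZMod.intCast_surjective x
  obtain ⟨b, rfl⟩ := ZMod.intCast_surjective y
  rw [← Int.cast_mul, jac_int, jac_int, jac_int, jacobiSym.mul_left]

theorem jac_one : jac m 1 = 1 := by
  have := jac_int (m := m) 1
  rw [Int.cast_one] at this
  rw [this, jacobiSym.one_left]

theorem jac_unit {x : ZMod m} (hx : IsUnit x) : jac m x * jac m x = 1 := by
  obtain ⟨u, rfl⟩ := hx
  have h1 : jac m (u : ZMod m) * jac m ((u⁻¹ : (ZMod m)ˣ) : ZMod m) = 1 := by
    rw [← jac_mul, Units.mul_inv, jac_one]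
  have h2 : jac m (u : ZMod m) = 1 ∨ jac m (u : ZMod m) = -1 := Int.isUnit_iff.1 (IsUnit.of_mul_eq_one _ h1)
  rcases h2 with h | h <;> rw [h] <;> norm_num

theorem jac_nonunit {x : ZMod m} (hx : ¬ IsUnit x) : jac m x = 0 := by
  unfold jac
  rw [jacobiSym.eq_zero_iff]
  refine ⟨NeZero.ne m, ?_⟩
  intro h
  apply hx
  rw [← ZMod.natCast_zmod_val x, ZMod.isUnit_iff_coprime]
  rw [Int.gcd_natCast_natCast] at h
  exact h

theorem jac_abs (x : ZMod m) : ‖(jac m x : ℂ)‖ ≤ 1 := by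
  by_cases hx : IsUnit x
  · have h1 := jac_unit hx
    have h2 : jac m x = 1 ∨ jac m x = -1 := Int.isUnit_iff.1 (IsUnit.of_mul_eq_one _ h1)
    rcases h2 with h | h <;> rw [h] <;> simp
  · rw [jac_nonunit hx]; simp

/-- the Gauss sum -/
noncomputable def gs (m : ℕ) [NeZero m] (v : ZMod m) : ℂ := ∑ y : ZMod m, (jac m y : ℂ) * ec m (v * y)

theorem gs_unit {v : ZMod m} (hv : IsUnit v) : gs m v = jac m v * gs m 1 := by
  obtain ⟨u, rfl⟩ := hv
  unfold gs
  rw [mul_sum, ← Equiv.sum_comp (Units.mulLeft u⁻¹)]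
  refine sum_congr rfl fun y _ => ?_
  rw [Units.mulLeft_apply, jac_mul, ← mul_assoc (u : ZMod m), Units.mul_inv, one_mul]
  have h1 : jac m (u : ZMod m) * jac m ((u⁻¹ : (ZMod m)ˣ) : ZMod m) = 1 := by
    rw [← jac_mul, Units.mul_inv, jac_one]
  have h2 := jac_unit (m := m) (Units.isUnit u)
  have h3 : jac m ((u⁻¹ : (ZMod m)ˣ) : ZMod m) = jac m (u : ZMod m) := by
    calc jac m ((u⁻¹ : (ZMod m)ˣ) : ZMod m)
        = (jac m (u : ZMod m) * jac m (u : ZMod m)) * jac m ((u⁻¹ : (ZMod m)ˣ) : ZMod m) := by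
          rw [h2, one_mul]
      _ = jac m (u : ZMod m) * (jac m (u : ZMod m) * jac m ((u⁻¹ : (ZMod m)ˣ) : ZMod m)) := by ring
      _ = _ := by rw [h1, mul_one]
  rw [h3]
  push_cast
  ring

/-- the transform vanishes at non-units -/
theorem gs_nonunit (hm : Odd m) (hsq : Squarefree m) {v : ZMod m} (hv : ¬ IsUnit v) : gs m v = 0 := by
  -- a prime dividing `v` and `m`
  have h1 : ¬ Nat.Coprime v.val m := by
    intro h
    apply hv
    rw [← ZMod.natCast_zmod_val v, ZMod.isUnit_iff_coprime]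
    exact h
  obtain ⟨p, hp, hpv, hpm⟩ := Nat.Prime.not_coprime_iff_dvd.1 h1
  obtain ⟨n, hn⟩ := hpm
  have hn0 : n ≠ 0 := by
    rintro rfl
    rw [mul_zero] at hn
    exact NeZero.ne m hn
  have hcop : Nat.Coprime p n := by
    rw [hn] at hsq
    exact Nat.coprime_of_squarefree_mul hsq
  have hp2 : p ≠ 2 := by
    rintro rfl
    rw [hn] at hm
    exact (Nat.not_odd_iff_even.2 (Even.mul_right even_two n)) hm
  have : Fact p.Prime := ⟨hp⟩
  obtain ⟨z, hz⟩ := quadraticChar_exists_neg_one (F := ZMod p) (by rw [ZMod.ringChar_zmod_n]; exact hp2)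
  -- `t = z mod p`, `t = 1 mod n`
  obtain ⟨t, ht1, ht2⟩ := Nat.chineseRemainder hcop z.val 1
  have hjt : jac m ((t : ℤ) : ZMod m) = -1 := by
    rw [jac_int, hn, jacobiSym.mul_right' _ hp.ne_zero hn0]
    have e1 : jacobiSym (t : ℤ) p = -1 := by
      rw [← jacobiSym.legendreSym.to_jacobiSym, legendreSym]
      have : ((t : ℤ) : ZMod p) = z := by
        have h := (ZMod.natCast_eq_natCast_iff _ _ _).2 ht1
        rw [ZMod.natCast_zmod_val] at h
        rw [Int.cast_natCast]; exact h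
      rw [this]; exact hz
    have e2 : jacobiSym (t : ℤ) n = 1 := by
      have : ((t : ℕ) : ℤ) % n = (1 : ℤ) % n := by exact_mod_cast ht2
      rw [jacobiSym.mod_left, this, ← jacobiSym.mod_left, jacobiSym.one_left]
    rw [e1, e2]; norm_num
  have hvt : v * ((t : ℤ) : ZMod m) = v := by
    rw [← ZMod.natCast_zmod_val v]
    have h3' : ∀ w : ℕ, p ∣ w → (w * t) ≡ w [MOD p * n] := by
      intro w hw
      rw [← Nat.modEq_and_modEq_iff_modEq_mul hcop]
      constructor
      · exact ((Nat.modEq_zero_iff_dvd.2 (Dvd.dvd.mul_right hw t))).trans (Nat.modEq_zero_iff_dvd.2 hw).symm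
      · have := Nat.ModEq.mul_left w ht2
        rw [mul_one] at this
        exact this
    have h3 : (v.val * t) ≡ v.val [MOD m] := by
      have := h3' v.val hpv
      rwa [← hn] at this
    have := (ZMod.natCast_eq_natCast_iff _ _ _).2 h3
    push_cast at this
    rw [Int.cast_natCast]
    exact this
  have htu : IsUnit ((t : ℤ) : ZMod m) := by
    by_contra hc
    rw [jac_nonunit hc] at hjt
    norm_num at hjt
  obtain ⟨u, hu⟩ := htu
  have h4 : gs m v = -gs m v := by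
    conv_lhs => unfold gs
    rw [← Equiv.sum_comp (Units.mulLeft u)]
    unfold gs
    rw [← sum_neg_distrib]
    refine sum_congr rfl fun y _ => ?_
    rw [Units.mulLeft_apply, hu, jac_mul, hjt, ← mul_assoc v, hvt]
    push_cast
    ring
  have h5 : (2:ℂ) * gs m v = 0 := by linear_combination h4
  exact (mul_eq_zero.1 h5).resolve_left two_ne_zero

theorem gs_bound (v : ZMod m) (hv : IsUnit v) : ‖gs m v‖ ≤ Real.sqrt m := by
  have h1 : ∀ w : ZMod m, IsUnit w → ‖gs m w‖ = ‖gs m 1‖ := by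
    intro w hw
    rw [gs_unit hw, norm_mul]
    have h := jac_unit hw
    have h2 : jac m w = 1 ∨ jac m w = -1 := Int.isUnit_iff.1 (IsUnit.of_mul_eq_one _ h)
    rcases h2 with h | h <;> rw [h] <;> simp
  rw [h1 v hv]
  -- Parseval
  have h2 := mean_sq m (univ : Finset (ZMod m)) id (fun y => (jac m y : ℂ))
  set U : Finset (ZMod m) := univ.filter IsUnit with hU
  have hU0 : 0 < U.card := card_pos.2 ⟨1, by simp [hU]⟩
  have h3 : (U.card : ℝ) * ‖gs m 1‖ ^ 2 ≤ ∑ u : ZMod m, ‖∑ y : ZMod m, (jac m y : ℂ) * ec m (u * y)‖ ^ 2 := by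
    calc (U.card : ℝ) * ‖gs m 1‖ ^ 2 = ∑ u ∈ U, ‖gs m u‖ ^ 2 := by
          rw [← nsmul_eq_mul, ← sum_const]
          refine sum_congr rfl fun u hu => ?_
          rw [h1 u (mem_filter.1 hu).2]
      _ ≤ ∑ u : ZMod m, ‖gs m u‖ ^ 2 :=
          sum_le_sum_of_subset_of_nonneg (filter_subset _ _) fun _ _ _ => by positivity
      _ = _ := rfl
  have h4 : ∑ i : ZMod m, ∑ j : ZMod m, (if (id i : ZMod m) = id j then ‖(jac m i : ℂ)‖ * ‖(jac m j : ℂ)‖ else 0) ≤ U.card := by
    have e1 : ∀ i : ZMod m, ∑ j : ZMod m, (if (id i : ZMod m) = id j then ‖(jac m i : ℂ)‖ * ‖(jac m j : ℂ)‖ else 0) ≤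
        if IsUnit i then 1 else 0 := by
      intro i
      simp only [id]
      rw [sum_ite_eq]
      simp only [mem_univ, if_true]
      split_ifs with hi
      · have := jac_abs i
        have h0 := norm_nonneg (jac m i : ℂ)
        nlinarith
      · rw [jac_nonunit hi]; simp
    refine (sum_le_sum fun i _ => e1 i).trans ?_
    rw [sum_ite, sum_const_zero, add_zero, sum_const, nsmul_eq_mul, mul_one]
  have h5 : (U.card : ℝ) * ‖gs m 1‖ ^ 2 ≤ m * U.card := by
    refine h3.trans (h2.trans ?_)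
    exact mul_le_mul_of_nonneg_left h4 (Nat.cast_nonneg _)
  have hU0' : (0:ℝ) < U.card := by exact_mod_cast hU0
  have h6 : ‖gs m 1‖ ^ 2 ≤ m := by
    have : (U.card : ℝ) * ‖gs m 1‖ ^ 2 ≤ U.card * m := by rw [mul_comm (U.card : ℝ) (m : ℝ)]; exact h5
    exact le_of_mul_le_mul_left this hU0'
  exact Real.le_sqrt_of_sq_le h6

/-- `∑_x ((x³ + α x + β) / m)` -/
def sz (m : ℕ) [NeZero m] (α β : ZMod m) : ℤ := ∑ x : ZMod m, jac m (x ^ 3 + α * x + β)

/-- the Fourier transform of `sz` -/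
theorem sz_transform (hm : Odd m) (hsq : Squarefree m) (u v : ZMod m) :
    ∑ α : ZMod m, ∑ β : ZMod m, (sz m α β : ℂ) * ec m (u * α + v * β) =
      if IsUnit v then gs m v * (m * ec m (-(u ^ 3 * v⁻¹ ^ 2))) else 0 := by
  have key : ∑ α : ZMod m, ∑ β : ZMod m, (sz m α β : ℂ) * ec m (u * α + v * β) =
      gs m v * ∑ x : ZMod m, ec m (-(v * x ^ 3)) * (if u - v * x = 0 then (m : ℂ) else 0) := by
    have e1 : ∀ α β : ZMod m, (sz m α β : ℂ) * ec m (u * α + v * β) =
        ∑ x : ZMod m, (jac m (x ^ 3 + α * x + β) : ℂ) * ec m (v * (x ^ 3 + α * x + β)) *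
          (ec m (-(v * x ^ 3)) * ec m ((u - v * x) * α)) := by
      intro α β
      unfold sz
      rw [Int.cast_sum, sum_mul]
      refine sum_congr rfl fun x _ => ?_
      have : ec m (u * α + v * β) = ec m (v * (x ^ 3 + α * x + β)) * (ec m (-(v * x ^ 3)) * ec m ((u - v * x) * α)) := by
        rw [← ec_add, ← ec_add]; congr 1; ring
      rw [this]; ring
    rw [sum_congr rfl fun α _ => sum_congr rfl fun β _ => e1 α β]
    have e2 : ∀ α x : ZMod m, ∑ β : ZMod m, (jac m (x ^ 3 + α * x + β) : ℂ) * ec m (v * (x ^ 3 + α * x + β)) *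
          (ec m (-(v * x ^ 3)) * ec m ((u - v * x) * α)) = gs m v * (ec m (-(v * x ^ 3)) * ec m ((u - v * x) * α)) := by
      intro α x
      rw [← sum_mul]
      congr 1
      unfold gs
      exact Equiv.sum_comp (Equiv.addLeft (x ^ 3 + α * x)) (fun y : ZMod m => (jac m y : ℂ) * ec m (v * y))
    rw [sum_congr rfl fun α _ => sum_comm, sum_comm, mul_sum]
    refine sum_congr rfl fun x _ => ?_
    rw [sum_congr rfl fun α _ => e2 α x, ← mul_sum, ← mul_sum, ec_sum]
  rw [key]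
  by_cases hv : IsUnit v
  · rw [if_pos hv]
    congr 1
    obtain ⟨w, rfl⟩ := hv
    have hw : (w : ZMod m)⁻¹ = ((w⁻¹ : (ZMod m)ˣ) : ZMod m) := ZMod.inv_coe_unit w
    have e3 : ∀ x : ZMod m, (u - (w : ZMod m) * x = 0) ↔ ((w⁻¹ : (ZMod m)ˣ) : ZMod m) * u = x := by
      intro x
      rw [sub_eq_zero]
      constructor
      · rintro h; rw [h, ← mul_assoc, Units.inv_mul, one_mul]
      · rintro rfl; rw [← mul_assoc, Units.mul_inv, one_mul]
    rw [sum_eq_single (((w⁻¹ : (ZMod m)ˣ) : ZMod m) * u)]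
    · rw [if_pos ((e3 _).2 rfl), mul_comm]
      congr 2
      rw [hw]
      have : (w : ZMod m) * (((w⁻¹ : (ZMod m)ˣ) : ZMod m) * u) ^ 3 =
          ((w : ZMod m) * ((w⁻¹ : (ZMod m)ˣ) : ZMod m)) * (((w⁻¹ : (ZMod m)ˣ) : ZMod m) ^ 2 * u ^ 3) := by ring
      rw [this, Units.mul_inv]; ring
    · intro x _ hx
      rw [if_neg, mul_zero]
      intro h
      exact hx ((e3 x).1 h).symm
    · intro h; exact absurd (mem_univ _) h
  · rw [if_neg hv, gs_nonunit hm hsq hv, zero_mul]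

end

/-- multiplicativity of `sz` -/
theorem sz_mul (g m : ℕ) [NeZero g] [NeZero m] [NeZero (g * m)] (h : Nat.Coprime g m) (a b : ℤ) :
    sz (g * m) (a : ZMod (g * m)) (b : ZMod (g * m)) = sz g (a : ZMod g) (b : ZMod g) * sz m (a : ZMod m) (b : ZMod m) := by
  have h1 : (sz (g * m) (a : ZMod (g * m)) (b : ZMod (g * m)) : ℂ) =
      (sz g (a : ZMod g) (b : ZMod g) : ℂ) * sz m (a : ZMod m) (b : ZMod m) := by
    unfold sz
    push_cast
    rw [← sum_crt g m h (fun x => (jac g (x ^ 3 + (a : ZMod g) * x + (b : ZMod g)) : ℂ))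
      (fun x => (jac m (x ^ 3 + (a : ZMod m) * x + (b : ZMod m)) : ℂ))]
    refine sum_congr rfl fun x _ => ?_
    obtain ⟨t, rfl⟩ := ZMod.intCast_surjective x
    rw [ZMod.cast_intCast (dvd_mul_right g m), ZMod.cast_intCast (dvd_mul_left m g)]
    have e1 : ((t : ZMod (g * m)) ^ 3 + (a : ZMod (g * m)) * t + b) = ((t ^ 3 + a * t + b : ℤ) : ZMod (g * m)) := by
      push_cast; ring
    have e2 : ((t : ZMod g) ^ 3 + (a : ZMod g) * t + b) = ((t ^ 3 + a * t + b : ℤ) : ZMod g) := by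
      push_cast; ring
    have e3 : ((t : ZMod m) ^ 3 + (a : ZMod m) * t + b) = ((t ^ 3 + a * t + b : ℤ) : ZMod m) := by
      push_cast; ring
    rw [e1, e2, e3, jac_int, jac_int, jac_int, jacobiSym.mul_right' _ (NeZero.ne g) (NeZero.ne m)]
    push_cast
    ring
  exact_mod_cast h1

end Pool.Agent.KS6_10
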