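import Pool.Agent.KS6_10.Main3

/-!
# The large sieve inequality for the family of all elliptic curves
-/

set_option autoImplicit false

namespace Pool.Agent.KS6_10

open Finset

theorem fk_periodic (J Q : ℕ) (hQ : 0 < Q) (a s : ℤ) : fk J Q (a + s * Q) = fk J Q a := by
  unfold fk
  congr 3
  refine sum_congr rfl fun j _ => ?_
  have hQ0 : (Q : ℂ) ≠ 0 := by exact_mod_cast hQ.ne'
  have e : (2 * Real.pi * Complex.I * (((j : ℝ) * ((a + s * Q : ℤ) : ℝ) / (Q : ℝ) : ℝ) : ℂ)) =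
      2 * Real.pi * Complex.I * (((j : ℝ) * ((a : ℤ) : ℝ) / (Q : ℝ) : ℝ) : ℂ) + ((j * s : ℤ) : ℂ) * (2 * Real.pi * Complex.I) := by
    push_cast
    field_simp
  rw [e, Complex.exp_add, Complex.exp_int_mul_two_pi_mul_I, mul_one]

theorem maj1 (J A A0 : ℕ) (hJ : 0 < J) (hA : 0 < A) (hA0 : 8 * A0 ≤ A) (f : ℤ → ℝ) (hf : ∀ a, 0 ≤ f a)
    (hper : ∀ a s : ℤ, f (a + s * (J * A : ℕ)) = f a) :
    ∑ a ∈ Icc (-(A0 : ℤ)) A0, f a ≤ 2 * ∑ a ∈ range (J * A), fk J (J * A) (a : ℤ) * f a := by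
  classical
  set Q := J * A with hQ
  have hQ0 : 0 < Q := by positivity
  have hQA : A ≤ Q := Nat.le_mul_of_pos_left _ hJ
  set h : ℤ → ℝ := fun a => fk J Q a * f a with hh
  have hhper : ∀ a s : ℤ, h (a + s * Q) = h a := by
    intro a s
    rw [hh]
    simp only
    rw [fk_periodic J Q hQ0, hper]
  have hh0 : ∀ a, 0 ≤ h a := fun a => mul_nonneg (fk_nonneg _ _ _) (hf a)
  have h1 : ∀ a ∈ Icc (-(A0 : ℤ)) A0, f a ≤ 2 * h a := by
    intro a ha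
    have h2 : 8 * |a| ≤ A := by
      have := abs_le.2 (mem_Icc.1 ha)
      have : 8 * |a| ≤ 8 * A0 := by omega
      exact this.trans (by exact_mod_cast hA0)
    have h3 := fk_ge hJ hA a h2
    have h4 := hf a
    rw [hh]
    simp only
    nlinarith
  refine (sum_le_sum h1).trans ?_
  rw [← mul_sum]
  refine mul_le_mul_of_nonneg_left ?_ (by norm_num)
  set φ : ℤ → ℕ := fun a => (a % Q).toNat with hφ
  have hφz : ∀ a, ((φ a : ℕ) : ℤ) = a % Q := fun a => Int.toNat_of_nonneg (Int.emod_nonneg _ (by omega))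
  have h2 : ∀ a, h a = h (φ a) := by
    intro a
    rw [hφz]
    have : a % Q = a + (-(a / Q)) * Q := by rw [Int.emod_def]; ring
    rw [this, hhper]
  rw [sum_congr rfl fun a _ => h2 a]
  have hinj : Set.InjOn φ (Icc (-(A0 : ℤ)) A0) := by
    intro a ha b hb hab
    have ha' := mem_Icc.1 (mem_coe.1 ha)
    have hb' := mem_Icc.1 (mem_coe.1 hb)
    have h3 : a % Q = b % Q := by rw [← hφz, ← hφz, hab]
    have h4 : (Q : ℤ) ∣ b - a := Int.ModEq.dvd (n := (Q : ℤ)) h3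
    have h5 : |b - a| < Q := by
      rw [abs_lt]
      constructor <;> omega
    have h6 := Int.eq_zero_of_abs_lt_dvd h4 h5
    omega
  rw [← sum_image (f := fun n : ℕ => h n) hinj]
  refine sum_le_sum_of_subset_of_nonneg ?_ fun _ _ _ => hh0 _
  intro n hn
  obtain ⟨a, _, rfl⟩ := mem_image.1 hn
  rw [mem_range]
  have := Int.emod_lt_of_pos a (by omega : (0 : ℤ) < Q)
  rw [← hφz] at this
  exact_mod_cast this

theorem maj2 (J A B A0 B0 : ℕ) (hJ : 0 < J) (hA : 0 < A) (hB : 0 < B) (hA0 : 8 * A0 ≤ A) (hB0 : 8 * B0 ≤ B) (f : ℤ → ℤ → ℝ)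
    (hf : ∀ a b, 0 ≤ f a b) (hper : ∀ a b s t : ℤ, f (a + s * J) (b + t * J) = f a b) :
    ∑ a ∈ Icc (-(A0 : ℤ)) A0, ∑ b ∈ Icc (-(B0 : ℤ)) B0, f a b ≤ 4 * EE J A B f := by
  have h1 : ∀ a ∈ Icc (-(A0 : ℤ)) A0, ∑ b ∈ Icc (-(B0 : ℤ)) B0, f a b ≤ 2 * ∑ b ∈ range (J * B), fk J (J * B) (b : ℤ) * f a b := by
    intro a _
    refine maj1 J B B0 hJ hB hB0 (f a) (hf a) (fun b s => ?_)
    have := hper a b 0 (s * B)
    rw [zero_mul, add_zero] at this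
    rw [← this]
    congr 1
    push_cast; ring
  refine (sum_le_sum h1).trans ?_
  rw [← mul_sum]
  have h2 := maj1 J A A0 hJ hA hA0 (fun a => ∑ b ∈ range (J * B), fk J (J * B) (b : ℤ) * f a b)
    (fun a => sum_nonneg fun b _ => mul_nonneg (fk_nonneg _ _ _) (hf _ _)) (fun a s => by
      refine sum_congr rfl fun b _ => ?_
      have := hper a b (s * A) 0
      rw [zero_mul, add_zero] at this
      rw [← this]
      congr 2
      push_cast; ring)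
  unfold EE
  have h3 : ∑ a ∈ range (J * A), ∑ b ∈ range (J * B), fk J (J * A) (a : ℤ) * (fk J (J * B) (b : ℤ) * f a b) =
      ∑ a ∈ range (J * A), fk J (J * A) (a : ℤ) * ∑ b ∈ range (J * B), fk J (J * B) (b : ℤ) * f a b :=
    sum_congr rfl fun a _ => (mul_sum _ _ _).symm
  rw [h3]
  linarith

/-- expanding the square -/
theorem EE_expand (J A B : ℕ) (𝒩 : Finset ℕ) (γ : ℕ → ℂ) (hγ : ∀ n ∈ 𝒩, ‖γ n‖ ≤ 1) :
    EE J A B (fun a b => ‖∑ n ∈ 𝒩, γ n * ((SS n a b : ℂ) / (Real.sqrt n : ℂ))‖ ^ 2) ≤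
      ∑ p ∈ 𝒩 ×ˢ 𝒩, |EE J A B (fun a b => (SS p.1 a b : ℝ) * SS p.2 a b)| / (Real.sqrt p.1 * Real.sqrt p.2) := by
  have e1 : ((EE J A B (fun a b => ‖∑ n ∈ 𝒩, γ n * ((SS n a b : ℂ) / (Real.sqrt n : ℂ))‖ ^ 2) : ℝ) : ℂ) =
      ∑ p ∈ 𝒩 ×ˢ 𝒩, γ p.1 * (starRingEnd ℂ) (γ p.2) * (((EE J A B (fun a b => (SS p.1 a b : ℝ) * SS p.2 a b)) / (Real.sqrt p.1 * Real.sqrt p.2) : ℝ) : ℂ) := by
    have e2 : ∀ a b : ℤ, ((‖∑ n ∈ 𝒩, γ n * ((SS n a b : ℂ) / (Real.sqrt n : ℂ))‖ : ℂ)) ^ 2 =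
        ∑ p ∈ 𝒩 ×ˢ 𝒩, γ p.1 * (starRingEnd ℂ) (γ p.2) * (((SS p.1 a b : ℂ) * SS p.2 a b) / ((Real.sqrt p.1 : ℂ) * (Real.sqrt p.2 : ℂ))) := by
      intro a b
      rw [← Complex.mul_conj', map_sum, sum_mul_sum, ← sum_product']
      refine sum_congr rfl fun p _ => ?_
      simp only [map_mul, map_div₀, Complex.conj_ofReal, map_intCast]
      ring
    unfold EE
    push_cast
    rw [sum_congr rfl fun a _ => sum_congr rfl fun b _ => by rw [e2 a b]]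
    have e3 : ∀ a b : ℕ, (fk J (J * A) (a : ℤ) : ℂ) * ((fk J (J * B) (b : ℤ) : ℂ) *
        ∑ p ∈ 𝒩 ×ˢ 𝒩, γ p.1 * (starRingEnd ℂ) (γ p.2) * (((SS p.1 a b : ℂ) * SS p.2 a b) / ((Real.sqrt p.1 : ℂ) * (Real.sqrt p.2 : ℂ)))) =
        ∑ p ∈ 𝒩 ×ˢ 𝒩, γ p.1 * (starRingEnd ℂ) (γ p.2) * (((fk J (J * A) (a : ℤ) : ℂ) * ((fk J (J * B) (b : ℤ) : ℂ) *
          ((SS p.1 a b : ℂ) * SS p.2 a b))) / ((Real.sqrt p.1 : ℂ) * (Real.sqrt p.2 : ℂ))) := by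
      intro a b
      rw [mul_sum, mul_sum]
      refine sum_congr rfl fun p _ => ?_
      ring
    rw [sum_congr rfl fun a _ => by rw [sum_congr rfl fun b _ => e3 a b, sum_comm], sum_comm]
    refine sum_congr rfl fun p _ => ?_
    rw [sum_div, mul_sum]
    refine sum_congr rfl fun a _ => ?_
    rw [sum_div, mul_sum]
  have h0 : 0 ≤ EE J A B (fun a b => ‖∑ n ∈ 𝒩, γ n * ((SS n a b : ℂ) / (Real.sqrt n : ℂ))‖ ^ 2) := by
    unfold EE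
    exact sum_nonneg fun a _ => sum_nonneg fun b _ => mul_nonneg (fk_nonneg _ _ _) (mul_nonneg (fk_nonneg _ _ _) (by positivity))
  have h1 : EE J A B (fun a b => ‖∑ n ∈ 𝒩, γ n * ((SS n a b : ℂ) / (Real.sqrt n : ℂ))‖ ^ 2) =
      ‖((EE J A B (fun a b => ‖∑ n ∈ 𝒩, γ n * ((SS n a b : ℂ) / (Real.sqrt n : ℂ))‖ ^ 2) : ℝ) : ℂ)‖ := by
    rw [Complex.norm_real, Real.norm_eq_abs, abs_of_nonneg h0]
  rw [h1, e1]
  refine (norm_sum_le _ _).trans (sum_le_sum fun p hp => ?_)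
  obtain ⟨hp1, hp2⟩ := mem_product.1 hp
  rw [norm_mul, norm_mul, Complex.norm_real, Real.norm_eq_abs, abs_div, RCLike.norm_conj,
    abs_of_nonneg (by positivity : (0:ℝ) ≤ Real.sqrt p.1 * Real.sqrt p.2)]
  have h2 : ‖γ p.1‖ * ‖γ p.2‖ ≤ 1 := by
    have a1 := hγ _ hp1
    have a2 := hγ _ hp2
    have a3 := norm_nonneg (γ p.1)
    have a4 := norm_nonneg (γ p.2)
    nlinarith
  have h3 : 0 ≤ |EE J A B (fun a b => (SS p.1 a b : ℝ) * SS p.2 a b)| / (Real.sqrt p.1 * Real.sqrt p.2) := by positivity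
  nlinarith

end Pool.Agent.KS6_10
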