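import Pool.Agent.KS6_10.LS

/-!
# The large sieve inequality for the family of all elliptic curves: final form
-/

set_option autoImplicit false

namespace Pool.Agent.KS6_10

open Finset

/-- the family: `|a| ≤ X^(1/3)` -/
noncomputable def bxA (X : ℝ) : Finset ℤ := Icc (-(⌊X ^ (1 / 3 : ℝ)⌋₊ : ℤ)) ⌊X ^ (1 / 3 : ℝ)⌋₊

/-- the family: `|b| ≤ X^(1/2)` -/
noncomputable def bxB (X : ℝ) : Finset ℤ := Icc (-(⌊X ^ (1 / 2 : ℝ)⌋₊ : ℤ)) ⌊X ^ (1 / 2 : ℝ)⌋₊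

theorem log_le_of_rpow {x η : ℝ} (hx : 0 ≤ x) (hη : 0 < η) : Real.log x ≤ x ^ η / η := Real.log_le_rpow_div hx hη

theorem est1 (x n U : ℝ) (hx1 : 1 ≤ x) (hn1 : 1 ≤ n) (hU : 1 ≤ U) (hnx : n ^ 12 ≤ U * x ^ 6) :
    n ^ 3 ≤ U * x ^ 2 ∧ n ^ 8 ≤ U * x ^ 4 := by
  have hUp : U ≤ U ^ 4 := by
    calc U = U ^ 1 := (pow_one U).symm
      _ ≤ U ^ 4 := pow_le_pow_right₀ hU (by norm_num)
  constructor
  · refine le_of_pow_le_pow_left₀ (n := 4) (by norm_num) (by positivity) ?_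
    calc (n ^ 3) ^ 4 = n ^ 12 := by ring
      _ ≤ U * x ^ 6 := hnx
      _ ≤ U ^ 4 * x ^ 8 := mul_le_mul hUp (pow_le_pow_right₀ hx1 (by norm_num)) (by positivity) (by positivity)
      _ = (U * x ^ 2) ^ 4 := by ring
  · refine le_of_pow_le_pow_left₀ (n := 3) (by norm_num) (by positivity) ?_
    calc (n ^ 8) ^ 3 = (n ^ 12) ^ 2 := by ring
      _ ≤ (U * x ^ 6) ^ 2 := pow_le_pow_left₀ (by positivity) hnx 2
      _ = U ^ 2 * x ^ 12 := by ring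
      _ ≤ U ^ 3 * x ^ 12 := mul_le_mul_of_nonneg_right (pow_le_pow_right₀ hU (by norm_num)) (by positivity)
      _ = (U * x ^ 4) ^ 3 := by ring

theorem est2 (x n U N A B G : ℝ) (hx1 : 1 ≤ x) (hn1 : 1 ≤ n) (hU : 1 ≤ U) (hnx : n ^ 12 ≤ U * x ^ 6)
    (n6 : n ^ 6 = N) (Al : 8 * x ^ 2 ≤ A) (Bl : 8 * x ^ 3 ≤ B) (Gl : n ^ 2 ≤ G) (Gu : G ≤ 2 * n ^ 2) :
    N ^ 2 / G ≤ n ^ 10 ∧ N ≤ n ^ 10 ∧ 4 * Real.sqrt G * N ^ 2 / A ≤ U * n ^ 10 ∧ 3 * N ^ 3 / (B * Real.sqrt A) ≤ U * n ^ 10 := by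
  obtain ⟨q1, q2⟩ := est1 x n U hx1 hn1 hU hnx
  have hx0 : 0 < x := by linarith
  have hn0 : 0 < n := by linarith
  have hU0 : 0 < U := by linarith
  have hA : 0 < A := lt_of_lt_of_le (by positivity) Al
  have hB : 0 < B := lt_of_lt_of_le (by positivity) Bl
  have hG : 0 < G := lt_of_lt_of_le (by positivity) Gl
  subst n6
  refine ⟨?_, pow_le_pow_right₀ hn1 (by norm_num), ?_, ?_⟩
  · rw [div_le_iff₀ hG]
    calc (n ^ 6) ^ 2 = n ^ 10 * n ^ 2 := by ring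
      _ ≤ n ^ 10 * G := mul_le_mul_of_nonneg_left Gl (by positivity)
  · have g3 : Real.sqrt G ≤ 3 / 2 * n := by
      rw [Real.sqrt_le_left (by positivity)]
      have : 0 < n ^ 2 := by positivity
      calc G ≤ 2 * n ^ 2 := Gu
        _ ≤ (3 / 2 * n) ^ 2 := by rw [mul_pow]; linarith
    rw [div_le_iff₀ hA]
    calc 4 * Real.sqrt G * (n ^ 6) ^ 2 ≤ 4 * (3 / 2 * n) * (n ^ 6) ^ 2 := by
          refine mul_le_mul_of_nonneg_right (mul_le_mul_of_nonneg_left g3 (by norm_num)) (by positivity)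
      _ = 6 * n ^ 10 * n ^ 3 := by ring
      _ ≤ 6 * n ^ 10 * (U * x ^ 2) := mul_le_mul_of_nonneg_left q1 (by positivity)
      _ = 6 * (U * n ^ 10 * x ^ 2) := by ring
      _ ≤ 8 * (U * n ^ 10 * x ^ 2) := mul_le_mul_of_nonneg_right (by norm_num) (by positivity)
      _ = U * n ^ 10 * (8 * x ^ 2) := by ring
      _ ≤ U * n ^ 10 * A := mul_le_mul_of_nonneg_left Al (by positivity)
  · have h1 : x ≤ Real.sqrt A := by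
      refine Real.le_sqrt_of_sq_le ?_
      have : 0 ≤ x ^ 2 := by positivity
      linarith
    rw [div_le_iff₀ (by positivity)]
    calc 3 * (n ^ 6) ^ 3 = 3 * n ^ 10 * n ^ 8 := by ring
      _ ≤ 3 * n ^ 10 * (U * x ^ 4) := mul_le_mul_of_nonneg_left q2 (by positivity)
      _ = 3 * (U * n ^ 10 * x ^ 4) := by ring
      _ ≤ 8 * (U * n ^ 10 * x ^ 4) := mul_le_mul_of_nonneg_right (by norm_num) (by positivity)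
      _ = U * n ^ 10 * ((8 * x ^ 3) * x) := by ring
      _ ≤ U * n ^ 10 * (B * Real.sqrt A) := by
          refine mul_le_mul_of_nonneg_left ?_ (by positivity)
          exact mul_le_mul Bl h1 hx0.le hB.le

theorem est3 (U A B P Q R S n T L V : ℝ) (hU : 1 ≤ U) (hA : 0 ≤ A) (hB : 0 ≤ B) (hn : 0 ≤ n)
    (hT1 : 1 ≤ T) (hL1 : 1 ≤ L) (hP : P ≤ n ^ 10) (hQ : Q ≤ n ^ 10) (hR : R ≤ U * n ^ 10) (hS : S ≤ U * n ^ 10)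
    (hV : T ^ 5 * L ^ 4 ≤ V) :
    4 * (T ^ 2 * (A * B) * (P + Q) + 228 * T ^ 5 * L ^ 4 * U ^ 2 * (A * B) * (R + S)) ≤ V * (A * B) * n ^ 10 * (1832 * U ^ 3) := by
  have hT0 : 0 < T := by linarith
  have hL0 : 0 < L := by linarith
  have hU0 : 0 < U := by linarith
  have hTL : T ^ 2 ≤ T ^ 5 * L ^ 4 := by
    have h1 : T ^ 2 ≤ T ^ 5 := pow_le_pow_right₀ hT1 (by norm_num)
    have h2 : 1 ≤ L ^ 4 := one_le_pow₀ hL1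
    calc T ^ 2 = T ^ 2 * 1 := by ring
      _ ≤ T ^ 5 * L ^ 4 := mul_le_mul h1 h2 zero_le_one (by positivity)
  have hU3 : 1 ≤ U ^ 3 := one_le_pow₀ hU
  have hn10 : 0 ≤ n ^ 10 := by positivity
  have hAB : 0 ≤ A * B := mul_nonneg hA hB
  have e1 : T ^ 2 * (A * B) * (P + Q) ≤ V * (A * B) * (2 * n ^ 10) := by
    calc T ^ 2 * (A * B) * (P + Q) ≤ T ^ 2 * (A * B) * (2 * n ^ 10) :=
          mul_le_mul_of_nonneg_left (by linarith) (by positivity)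
      _ ≤ V * (A * B) * (2 * n ^ 10) :=
          mul_le_mul_of_nonneg_right (mul_le_mul_of_nonneg_right (hTL.trans hV) hAB) (by positivity)
  have e2 : 228 * T ^ 5 * L ^ 4 * U ^ 2 * (A * B) * (R + S) ≤ V * (A * B) * (456 * U ^ 3 * n ^ 10) := by
    calc 228 * T ^ 5 * L ^ 4 * U ^ 2 * (A * B) * (R + S) ≤ 228 * T ^ 5 * L ^ 4 * U ^ 2 * (A * B) * (2 * (U * n ^ 10)) :=
          mul_le_mul_of_nonneg_left (by linarith) (by positivity)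
      _ = (T ^ 5 * L ^ 4) * ((A * B) * (456 * U ^ 3 * n ^ 10)) := by ring
      _ ≤ V * ((A * B) * (456 * U ^ 3 * n ^ 10)) := mul_le_mul_of_nonneg_right hV (by positivity)
      _ = _ := by ring
  have hV0 : 0 ≤ V := le_trans (by positivity) hV
  calc 4 * (T ^ 2 * (A * B) * (P + Q) + 228 * T ^ 5 * L ^ 4 * U ^ 2 * (A * B) * (R + S))
      ≤ 4 * (V * (A * B) * (2 * n ^ 10) + V * (A * B) * (456 * U ^ 3 * n ^ 10)) := by linarith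
    _ = V * (A * B) * n ^ 10 * (8 + 1824 * U ^ 3) := by ring
    _ ≤ V * (A * B) * n ^ 10 * (1832 * U ^ 3) := mul_le_mul_of_nonneg_left (by linarith) (by positivity)

theorem est4 (X η Cτ : ℝ) (hX : 1 ≤ X) (hη0 : 0 < η) (hCτ : 1 ≤ Cτ) :
    1 ≤ Cτ * (4 * X ^ 4) ^ η ∧ 1 ≤ 1 + Real.log (2 * X ^ 2) ∧
    (Cτ * (4 * X ^ 4) ^ η) ^ 5 * (1 + Real.log (2 * X ^ 2)) ^ 4 ≤
      ((Cτ * 4 ^ η) ^ 5 * (1 + 2 ^ η / η) ^ 4) * X ^ (28 * η) := by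
  have hX0 : 0 < X := by linarith
  have hX4 : 1 ≤ 4 * X ^ 4 := by
    have : 1 ≤ X ^ 4 := one_le_pow₀ hX
    linarith
  have hT1 : 1 ≤ Cτ * (4 * X ^ 4) ^ η := by
    have := Real.one_le_rpow hX4 hη0.le
    nlinarith
  have hL1 : 1 ≤ 1 + Real.log (2 * X ^ 2) := by
    have : 0 ≤ Real.log (2 * X ^ 2) := Real.log_nonneg (by nlinarith)
    linarith
  refine ⟨hT1, hL1, ?_⟩
  have h1 : Cτ * (4 * X ^ 4) ^ η ≤ (Cτ * 4 ^ η) * X ^ (4 * η) := by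
    rw [Real.mul_rpow (by norm_num) (by positivity), ← Real.rpow_natCast X 4, ← Real.rpow_mul hX0.le]
    push_cast
    rw [mul_assoc]
  have h2 : 1 + Real.log (2 * X ^ 2) ≤ (1 + 2 ^ η / η) * X ^ (2 * η) := by
    have h3 := log_le_of_rpow (x := 2 * X ^ 2) (η := η) (by positivity) hη0
    have h3' : (2 * X ^ 2) ^ η = 2 ^ η * X ^ (2 * η) := by
      rw [Real.mul_rpow (by norm_num) (by positivity), ← Real.rpow_natCast X 2, ← Real.rpow_mul hX0.le]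
      push_cast
      rfl
    rw [h3'] at h3
    have h4 : 1 ≤ X ^ (2 * η) := Real.one_le_rpow hX (by positivity)
    have h6 : (1 + 2 ^ η / η) * X ^ (2 * η) = X ^ (2 * η) + 2 ^ η * X ^ (2 * η) / η := by ring
    linarith
  have h7 := pow_le_pow_left₀ (by linarith) h1 5
  have h8 := pow_le_pow_left₀ (by linarith) h2 4
  calc (Cτ * (4 * X ^ 4) ^ η) ^ 5 * (1 + Real.log (2 * X ^ 2)) ^ 4
      ≤ ((Cτ * 4 ^ η) * X ^ (4 * η)) ^ 5 * ((1 + 2 ^ η / η) * X ^ (2 * η)) ^ 4 :=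
        mul_le_mul h7 h8 (by positivity) (by positivity)
    _ = ((Cτ * 4 ^ η) ^ 5 * (1 + 2 ^ η / η) ^ 4) * ((X ^ (4 * η)) ^ 5 * (X ^ (2 * η)) ^ 4) := by ring
    _ = _ := by
        congr 1
        rw [← Real.rpow_natCast, ← Real.rpow_natCast, ← Real.rpow_mul hX0.le, ← Real.rpow_mul hX0.le, ← Real.rpow_add hX0]
        congr 1
        push_cast; ring

/-- the sizes of the parameters -/
theorem est5 (X : ℝ) (hX : 1 ≤ X) :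
    8 * (X ^ (1 / 6 : ℝ)) ^ 2 ≤ ((8 * (⌊X ^ (1 / 3 : ℝ)⌋₊ + 1) : ℕ) : ℝ) ∧
    ((8 * (⌊X ^ (1 / 3 : ℝ)⌋₊ + 1) : ℕ) : ℝ) ≤ 16 * (X ^ (1 / 6 : ℝ)) ^ 2 ∧
    8 * (X ^ (1 / 6 : ℝ)) ^ 3 ≤ ((8 * (⌊X ^ (1 / 2 : ℝ)⌋₊ + 1) : ℕ) : ℝ) ∧
    ((8 * (⌊X ^ (1 / 2 : ℝ)⌋₊ + 1) : ℕ) : ℝ) ≤ 16 * (X ^ (1 / 6 : ℝ)) ^ 3 ∧
    ⌊X ^ (1 / 3 : ℝ)⌋₊ ≤ ⌊X ^ (1 / 2 : ℝ)⌋₊ := by
  have hX0 : 0 ≤ X := by linarith
  have x2 : (X ^ (1 / 6 : ℝ)) ^ 2 = X ^ (1 / 3 : ℝ) := by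
    rw [← Real.rpow_natCast, ← Real.rpow_mul hX0]; norm_num
  have x3 : (X ^ (1 / 6 : ℝ)) ^ 3 = X ^ (1 / 2 : ℝ) := by
    rw [← Real.rpow_natCast, ← Real.rpow_mul hX0]; norm_num
  rw [x2, x3]
  push_cast
  have h1 := (Nat.lt_floor_add_one (X ^ (1 / 3 : ℝ))).le
  have h2 := (Nat.lt_floor_add_one (X ^ (1 / 2 : ℝ))).le
  have h3 := Nat.floor_le (Real.rpow_nonneg hX0 (1 / 3 : ℝ))
  have h4 := Nat.floor_le (Real.rpow_nonneg hX0 (1 / 2 : ℝ))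
  have h5 : 1 ≤ X ^ (1 / 3 : ℝ) := Real.one_le_rpow hX (by norm_num)
  have h6 : 1 ≤ X ^ (1 / 2 : ℝ) := Real.one_le_rpow hX (by norm_num)
  exact ⟨by linarith, by linarith, by linarith, by linarith, Nat.floor_le_floor (Real.rpow_le_rpow_of_exponent_le hX (by norm_num))⟩

theorem large_sieve_aux (J A B A0 B0 N G : ℕ) (𝒩 : Finset ℕ) (γ : ℕ → ℂ) (U T L : ℝ) (hJ : 0 < J) (hA : 0 < A) (hB : 0 < B)
    (hAB : A ≤ B) (hA0 : 8 * A0 ≤ A) (hB0 : 8 * B0 ≤ B)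
    (hJd : ∀ d, 0 < d → d ≤ N ^ 2 → d ∣ J) (hG : 0 < G) (hGN : G ≤ 2 * N ^ 2)
    (h𝒩 : ∀ n ∈ 𝒩, n ≤ N ∧ Odd n ∧ Squarefree n) (hγ : ∀ n ∈ 𝒩, ‖γ n‖ ≤ 1)
    (hU : 1 ≤ U) (hT1 : 1 ≤ T) (hL1 : 1 ≤ L)
    (hT : ∀ d : ℕ, 0 < d → d ≤ 4 * N ^ 4 → (d.divisors.card : ℝ) ≤ T) (hL : 1 + Real.log (2 * N ^ 2) ≤ L)
    (h1 : 4 * (N : ℝ) ^ 2 ≤ U * B ^ 2) (h2 : 16 * Real.pi * N ^ 2 ≤ U * A ^ 3) :
    ∑ a ∈ Icc (-(A0 : ℤ)) A0, ∑ b ∈ Icc (-(B0 : ℤ)) B0, ‖∑ n ∈ 𝒩, γ n * ((SS n a b : ℂ) / (Real.sqrt n : ℂ))‖ ^ 2 ≤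
      4 * (T ^ 2 * (A * B) * (N ^ 2 / G + N) +
      228 * T ^ 5 * L ^ 4 * U ^ 2 * (A * B) * (4 * Real.sqrt G * N ^ 2 / A + 3 * N ^ 3 / (B * Real.sqrt A))) := by
  have hmaj := maj2 J A B A0 B0 hJ hA hB hA0 hB0
    (fun a b => ‖∑ n ∈ 𝒩, γ n * ((SS n a b : ℂ) / (Real.sqrt n : ℂ))‖ ^ 2) (fun a b => by positivity) (fun a b s t => by
      have : ∀ n ∈ 𝒩, SS n (a + s * J) (b + t * J) = SS n a b := by
        intro n hn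
        obtain ⟨h1, h2, h3⟩ := h𝒩 n hn
        exact SS_periodic n J (hJd n h2.pos (h1.trans (Nat.le_self_pow (by norm_num) N))) a b s t
      congr 2
      exact sum_congr rfl fun n hn => by rw [this n hn])
  refine hmaj.trans (mul_le_mul_of_nonneg_left ?_ (by norm_num))
  exact (EE_expand J A B 𝒩 γ hγ).trans
    (all_pairs J A B N G 𝒩 U T L hJ hA hB hAB hJd hG hGN h𝒩 hU hT1 hL1 hT hL h1 h2)

theorem large_sieve (ε : ℝ) (hε : 0 < ε) : ∃ C : ℝ, 1 ≤ C ∧ ∀ (X U : ℝ) (N : ℕ) (𝒩 : Finset ℕ) (γ : ℕ → ℂ), 1 ≤ X → 1 ≤ U →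
    U ≤ X → 1 ≤ N → (N : ℝ) ^ 2 ≤ U * X → (∀ n ∈ 𝒩, n ≤ N ∧ Odd n ∧ Squarefree n) → (∀ n ∈ 𝒩, ‖γ n‖ ≤ 1) →
    ∑ a ∈ bxA X, ∑ b ∈ bxB X, ‖∑ n ∈ 𝒩, γ n * ((SS n a b : ℂ) / (Real.sqrt n : ℂ))‖ ^ 2 ≤
      C * X ^ (5 / 6 + ε) * U ^ 3 * (N : ℝ) ^ (5 / 3 : ℝ) := by
  have hη0 : 0 < ε / 28 := by positivity
  obtain ⟨Cτ, hCτ, hτ⟩ := tau_le (ε / 28) hη0
  set η : ℝ := ε / 28 with hη
  set C1 : ℝ := (Cτ * 4 ^ η) ^ 5 * (1 + 2 ^ η / η) ^ 4 with hC1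
  have hC1' : 1 ≤ C1 := by
    have h1 : 1 ≤ Cτ * 4 ^ η := by
      have : 1 ≤ (4:ℝ) ^ η := Real.one_le_rpow (by norm_num) hη0.le
      nlinarith
    have h2 : 1 ≤ 1 + 2 ^ η / η := by
      have : 0 ≤ (2:ℝ) ^ η / η := by positivity
      linarith
    calc (1:ℝ) = 1 * 1 := by ring
      _ ≤ _ := mul_le_mul (one_le_pow₀ h1) (one_le_pow₀ h2) zero_le_one (by positivity)
  refine ⟨500000 * C1, by linarith, fun X U N 𝒩 γ hX hU hUX hN hNX h𝒩 hγ => ?_⟩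
  have hX0 : 0 < X := by linarith
  have hU0 : 0 < U := by linarith
  have hN0 : (1:ℝ) ≤ N := by exact_mod_cast hN
  obtain ⟨Al, Au, Bl, Bu, hAB⟩ := est5 X hX
  have x6 : (X ^ (1 / 6 : ℝ)) ^ 6 = X := by
    rw [← Real.rpow_natCast, ← Real.rpow_mul hX0.le]; norm_num
  have x5 : (X ^ (1 / 6 : ℝ)) ^ 5 = X ^ (5 / 6 : ℝ) := by
    rw [← Real.rpow_natCast, ← Real.rpow_mul hX0.le]; norm_num
  have n6 : ((N:ℝ) ^ (1 / 6 : ℝ)) ^ 6 = N := by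
    rw [← Real.rpow_natCast, ← Real.rpow_mul (by positivity)]; norm_num
  have n10 : ((N:ℝ) ^ (1 / 6 : ℝ)) ^ 10 = (N : ℝ) ^ (5 / 3 : ℝ) := by
    rw [← Real.rpow_natCast, ← Real.rpow_mul (by positivity)]; norm_num
  have n2 : ((N:ℝ) ^ (1 / 6 : ℝ)) ^ 2 = (N : ℝ) ^ (1 / 3 : ℝ) := by
    rw [← Real.rpow_natCast, ← Real.rpow_mul (by positivity)]; norm_num
  have hx1 : 1 ≤ X ^ (1 / 6 : ℝ) := Real.one_le_rpow hX (by norm_num)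
  have hn1 : 1 ≤ (N:ℝ) ^ (1 / 6 : ℝ) := Real.one_le_rpow hN0 (by norm_num)
  generalize X ^ (1 / 6 : ℝ) = x at Al Au Bl Bu x6 x5 hx1
  generalize (N:ℝ) ^ (1 / 6 : ℝ) = n at n6 n10 n2 hn1
  have hx0 : 0 < x := by linarith
  have hn0 : 0 < n := by linarith
  have hnx : n ^ 12 ≤ U * x ^ 6 := by
    rw [x6]
    calc n ^ 12 = (n ^ 6) ^ 2 := by ring
      _ = (N:ℝ) ^ 2 := by rw [n6]
      _ ≤ U * X := hNX
  have hNX' : (N:ℝ) ≤ X := by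
    refine le_of_pow_le_pow_left₀ (n := 2) (by norm_num) (by positivity) ?_
    calc (N:ℝ) ^ 2 ≤ U * X := hNX
      _ ≤ X * X := mul_le_mul_of_nonneg_right hUX hX0.le
      _ = X ^ 2 := by ring
  obtain ⟨G, Gl, Gu⟩ : ∃ G : ℕ, n ^ 2 ≤ (G:ℝ) ∧ (G:ℝ) ≤ 2 * n ^ 2 := by
    refine ⟨⌈n ^ 2⌉₊, Nat.le_ceil _, ?_⟩
    have h1 := (Nat.ceil_lt_add_one (by positivity : 0 ≤ n ^ 2)).le
    have : 1 ≤ n ^ 2 := one_le_pow₀ hn1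
    linarith
  have hGpos : 0 < G := by
    have : (0:ℝ) < G := lt_of_lt_of_le (by positivity) Gl
    exact_mod_cast this
  have hGN : G ≤ 2 * N ^ 2 := by
    have h1 : n ^ 2 ≤ (N:ℝ) ^ 2 := by
      rw [← n6, ← pow_mul]
      exact pow_le_pow_right₀ hn1 (by norm_num)
    have : (G:ℝ) ≤ ((2 * N ^ 2 : ℕ) : ℝ) := by push_cast; linarith
    exact_mod_cast this
  obtain ⟨J, hJ0, hJd⟩ : ∃ J : ℕ, 0 < J ∧ ∀ d, 0 < d → d ≤ N ^ 2 → d ∣ J :=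
    ⟨(N ^ 2).factorial, Nat.factorial_pos _, fun d hd hd2 => Nat.dvd_factorial hd hd2⟩
  obtain ⟨hT1, hL1, hTL⟩ := est4 X η Cτ hX hη0 hCτ
  have hTT : ∀ d : ℕ, 0 < d → d ≤ 4 * N ^ 4 → (d.divisors.card : ℝ) ≤ Cτ * (4 * X ^ 4) ^ η := by
    intro d hd hd2
    refine (hτ d hd.ne').trans ?_
    refine mul_le_mul_of_nonneg_left ?_ (by linarith)
    refine Real.rpow_le_rpow (Nat.cast_nonneg _) ?_ hη0.le
    have h1 : (d:ℝ) ≤ 4 * (N:ℝ) ^ 4 := by exact_mod_cast hd2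
    have h2 : (N:ℝ) ^ 4 ≤ X ^ 4 := pow_le_pow_left₀ (by positivity) hNX' 4
    linarith
  have hLL : 1 + Real.log (2 * (N:ℝ) ^ 2) ≤ 1 + Real.log (2 * X ^ 2) := by
    have h1 : Real.log (2 * (N:ℝ) ^ 2) ≤ Real.log (2 * X ^ 2) := by
      refine Real.log_le_log (by positivity) ?_
      have : (N:ℝ) ^ 2 ≤ X ^ 2 := pow_le_pow_left₀ (by positivity) hNX' 2
      linarith
    linarith
  have hABn : 8 * (⌊X ^ (1 / 3 : ℝ)⌋₊ + 1) ≤ 8 * (⌊X ^ (1 / 2 : ℝ)⌋₊ + 1) := by omega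
  have hAp : 0 < 8 * (⌊X ^ (1 / 3 : ℝ)⌋₊ + 1) := by omega
  have hBp : 0 < 8 * (⌊X ^ (1 / 2 : ℝ)⌋₊ + 1) := by omega
  have hA8 : 8 * ⌊X ^ (1 / 3 : ℝ)⌋₊ ≤ 8 * (⌊X ^ (1 / 3 : ℝ)⌋₊ + 1) := by omega
  have hB8 : 8 * ⌊X ^ (1 / 2 : ℝ)⌋₊ ≤ 8 * (⌊X ^ (1 / 2 : ℝ)⌋₊ + 1) := by omega
  unfold bxA bxB
  generalize 8 * (⌊X ^ (1 / 3 : ℝ)⌋₊ + 1) = A at *
  generalize 8 * (⌊X ^ (1 / 2 : ℝ)⌋₊ + 1) = B at *
  have hAr : (0:ℝ) < A := by exact_mod_cast hAp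
  have hBr : (0:ℝ) < B := by exact_mod_cast hBp
  have hc1 : 4 * (N : ℝ) ^ 2 ≤ U * B ^ 2 := by
    have h1 : (8 * x ^ 3) ^ 2 ≤ (B:ℝ) ^ 2 := pow_le_pow_left₀ (by positivity) Bl 2
    have h2 : (8 * x ^ 3) ^ 2 = 64 * X := by rw [← x6]; ring
    rw [h2] at h1
    have h3 : U * (64 * X) ≤ U * B ^ 2 := mul_le_mul_of_nonneg_left h1 hU0.le
    have h4 : 0 ≤ U * X := by positivity
    linarith
  have hc2 : 16 * Real.pi * (N:ℝ) ^ 2 ≤ U * A ^ 3 := by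
    have h1 : (8 * x ^ 2) ^ 3 ≤ (A:ℝ) ^ 3 := pow_le_pow_left₀ (by positivity) Al 3
    have h2 : (8 * x ^ 2) ^ 3 = 512 * X := by rw [← x6]; ring
    rw [h2] at h1
    have h3 := Real.pi_lt_four
    have h4 : U * (512 * X) ≤ U * A ^ 3 := mul_le_mul_of_nonneg_left h1 hU0.le
    have h5 : 16 * Real.pi * (N:ℝ) ^ 2 ≤ 64 * (N:ℝ) ^ 2 := mul_le_mul_of_nonneg_right (by linarith) (by positivity)
    have h6 : 0 ≤ U * X := by positivity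
    linarith
  refine (large_sieve_aux J A B _ _ N G 𝒩 γ U _ _ hJ0 hAp hBp hABn hA8 hB8 hJd hGpos hGN h𝒩 hγ hU hT1 hL1 hTT hLL hc1 hc2).trans ?_
  obtain ⟨g1, g2, g4, g5⟩ := est2 x n U N A B G hx1 hn1 hU hnx n6 Al Bl Gl Gu
  have g7 : (Cτ * (4 * X ^ 4) ^ η) ^ 5 * (1 + Real.log (2 * X ^ 2)) ^ 4 ≤ C1 * X ^ ε := by
    refine hTL.trans (le_of_eq ?_)
    rw [hC1, hη]
    congr 2
    ring
  refine (est3 U A B _ _ _ _ n _ _ (C1 * X ^ ε) hU hAr.le hBr.le hn0.le hT1 hL1 g1 g2 g4 g5 g7).trans ?_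
  have g6 : (A:ℝ) * B ≤ 256 * x ^ 5 := by
    calc (A:ℝ) * B ≤ (16 * x ^ 2) * (16 * x ^ 3) := mul_le_mul Au Bu hBr.le (by positivity)
      _ = _ := by ring
  have hXε : 0 ≤ X ^ ε := Real.rpow_nonneg hX0.le _
  calc (C1 * X ^ ε) * (A * B) * n ^ 10 * (1832 * U ^ 3)
      ≤ (C1 * X ^ ε) * (256 * x ^ 5) * n ^ 10 * (1832 * U ^ 3) := by
        refine mul_le_mul_of_nonneg_right (mul_le_mul_of_nonneg_right (mul_le_mul_of_nonneg_left g6 (by positivity)) (by positivity)) (by positivity)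
    _ = 468992 * (C1 * (x ^ 5 * X ^ ε) * U ^ 3 * n ^ 10) := by ring
    _ = 468992 * (C1 * X ^ (5 / 6 + ε) * U ^ 3 * (N : ℝ) ^ (5 / 3 : ℝ)) := by rw [x5, ← Real.rpow_add hX0, n10]
    _ ≤ 500000 * (C1 * X ^ (5 / 6 + ε) * U ^ 3 * (N : ℝ) ^ (5 / 3 : ℝ)) := by
        refine mul_le_mul_of_nonneg_right (by norm_num) (by positivity)
    _ = _ := by ring

end Pool.Agent.KS6_10
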