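import Mathlib

/-!
# The Laplace transform of a complex power at a complex argument
-/

set_option autoImplicit false

namespace Pool.Agent.KS6_10

open Complex Set MeasureTheory Filter Topology

theorem lp_meas (a z : ℂ) :
    Measurable (fun t : ℝ => (t : ℂ) ^ a * Complex.exp (-(z * t))) := by
  have h1 : Measurable (fun t : ℝ => (t : ℂ) ^ a) := Complex.measurable_ofReal.pow_const a
  have h3 : Continuous (fun t : ℝ => Complex.exp (-(z * t))) := by fun_prop
  exact h1.mul h3.measurable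

theorem lp_norm (a z : ℂ) (t : ℝ) (ht : 0 < t) :
    ‖(t : ℂ) ^ a * Complex.exp (-(z * t))‖ = t ^ a.re * Real.exp (-z.re * t ^ (1:ℝ)) := by
  rw [norm_mul, Complex.norm_exp, Complex.norm_cpow_eq_rpow_re_of_pos ht, Real.rpow_one]
  congr 2
  simp

theorem lp_int (a : ℂ) (ha : -1 < a.re) (z : ℂ) (hz : 0 < z.re) :
    IntegrableOn (fun t : ℝ => (t : ℂ) ^ a * Complex.exp (-(z * t))) (Ioi 0) := by
  have h := integrableOn_rpow_mul_exp_neg_mul_rpow (p := 1) (s := a.re) (b := z.re) ha
    (by norm_num) hz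
  refine Integrable.mono' h (lp_meas a z).aestronglyMeasurable ?_
  filter_upwards [ae_restrict_mem measurableSet_Ioi] with t ht
  exact (lp_norm a z t ht).le

theorem lp_deriv (a : ℂ) (ha : -1 < a.re) (z₀ : ℂ) (hz : 0 < z₀.re) :
    DifferentiableAt ℂ (fun z : ℂ => ∫ t in Ioi (0 : ℝ), (t : ℂ) ^ a * Complex.exp (-(z * t)))
      z₀ := by
  have hs : {z : ℂ | z₀.re / 2 < z.re} ∈ 𝓝 z₀ := by
    apply (isOpen_lt continuous_const Complex.continuous_re).mem_nhds
    show z₀.re / 2 < z₀.re
    linarith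
  have key := hasDerivAt_integral_of_dominated_loc_of_deriv_le (μ := volume.restrict (Ioi (0:ℝ)))
    (𝕜 := ℂ) (E := ℂ) (x₀ := z₀)
    (F := fun (z : ℂ) (t : ℝ) => (t : ℂ) ^ a * Complex.exp (-(z * t)))
    (bound := fun t : ℝ => t ^ (a.re + 1) * Real.exp (-(z₀.re/2) * t ^ (1:ℝ))) hs
    (Eventually.of_forall (fun z => (lp_meas a z).aestronglyMeasurable))
    (lp_int a ha z₀ hz)
    (F' := fun (z : ℂ) (t : ℝ) => (t : ℂ) ^ a * (Complex.exp (-(z * t)) * (-(t:ℂ))))
    (by
      have h : Measurable (fun t : ℝ => ((t : ℂ) ^ a * Complex.exp (-(z₀ * t))) * (-(t:ℂ))) :=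
        (lp_meas a z₀).mul (Complex.measurable_ofReal.neg)
      have h2 : (fun t : ℝ => ((t : ℂ) ^ a * Complex.exp (-(z₀ * t))) * (-(t:ℂ))) =
          (fun t : ℝ => (t : ℂ) ^ a * (Complex.exp (-(z₀ * t)) * (-(t:ℂ)))) := by
        funext t
        ring
      rw [h2] at h
      exact h.aestronglyMeasurable)
    (by
      filter_upwards [ae_restrict_mem measurableSet_Ioi] with t ht z hzz
      have ht' : (0:ℝ) < t := ht
      have hzz' : z₀.re / 2 < z.re := hzz
      rw [← mul_assoc, norm_mul, lp_norm a z t ht', norm_neg, Complex.norm_real,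
        Real.norm_of_nonneg ht'.le, Real.rpow_add ht', Real.rpow_one]
      have h1 : Real.exp (-z.re * t) ≤ Real.exp (-(z₀.re/2) * t) := by
        apply Real.exp_le_exp.mpr
        nlinarith
      have h2 : 0 ≤ t ^ a.re := Real.rpow_nonneg ht'.le _
      calc t ^ a.re * Real.exp (-z.re * t) * t = (t ^ a.re * t) * Real.exp (-z.re * t) := by ring
        _ ≤ (t ^ a.re * t) * Real.exp (-(z₀.re/2) * t) := by
          apply mul_le_mul_of_nonneg_left h1
          positivity)
    (integrableOn_rpow_mul_exp_neg_mul_rpow (p := 1) (s := a.re + 1) (b := z₀.re / 2) (by linarith)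
      (by norm_num) (by linarith))
    (by
      refine Eventually.of_forall (fun t z _ => ?_)
      apply HasDerivAt.const_mul
      have h1 : HasDerivAt (fun x : ℂ => -(x * t)) (-(t:ℂ)) z := by
        have h0 := ((hasDerivAt_id z).mul_const (t:ℂ)).neg
        rw [one_mul] at h0
        exact h0
      exact h1.cexp)
  exact key.2.differentiableAt

/-- Laplace transform of a power, complex parameter -/
theorem lap (a : ℂ) (ha : 0 < a.re) (z : ℂ) (hz : 0 < z.re) :
    ∫ t in Ioi (0 : ℝ), (t : ℂ) ^ (a - 1) * Complex.exp (-(z * t)) =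
      Complex.Gamma a * z ^ (-a) := by
  have ha' : -1 < (a - 1).re := by simp [ha]
  have hopen : IsOpen {w : ℂ | 0 < w.re} := isOpen_lt continuous_const Complex.continuous_re
  have hf : AnalyticOnNhd ℂ (fun z : ℂ => ∫ t in Ioi (0 : ℝ), (t : ℂ) ^ (a - 1) *
      Complex.exp (-(z * t))) {w : ℂ | 0 < w.re} := by
    apply DifferentiableOn.analyticOnNhd _ hopen
    intro w hw
    exact (lp_deriv (a - 1) ha' w hw).differentiableWithinAt
  have hg : AnalyticOnNhd ℂ (fun z : ℂ => Complex.Gamma a * z ^ (-a))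
      {w : ℂ | 0 < w.re} := by
    apply DifferentiableOn.analyticOnNhd _ hopen
    intro w hw
    apply DifferentiableAt.differentiableWithinAt
    apply DifferentiableAt.const_mul
    apply DifferentiableAt.cpow_const differentiableAt_id
    left
    exact hw
  have hconv : Convex ℝ {w : ℂ | 0 < w.re} := by
    have := (convex_Ioi (0:ℝ)).is_linear_preimage (f := fun w : ℂ => w.re)
      Complex.reLm.isLinear
    exact this
  have h1 : (1:ℂ) ∈ {w : ℂ | 0 < w.re} := by simp
  -- agreement at positive reals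
  have hreal : ∀ r : ℝ, 0 < r → (∫ t in Ioi (0 : ℝ), (t : ℂ) ^ (a - 1) *
      Complex.exp (-((r:ℂ) * t))) = Complex.Gamma a * (r:ℂ) ^ (-a) := by
    intro r hr
    have h := Complex.integral_cpow_mul_exp_neg_mul_Ioi (a := a) (r := r) ha hr
    rw [h, mul_comm]
    congr 1
    rw [one_div, Complex.cpow_neg, Complex.inv_cpow]
    rw [Complex.arg_ofReal_of_nonneg hr.le]
    exact Real.pi_pos.ne
  have hfreq : ∃ᶠ w in 𝓝[≠] (1:ℂ), (∫ t in Ioi (0 : ℝ), (t : ℂ) ^ (a - 1) *
      Complex.exp (-(w * t))) = Complex.Gamma a * w ^ (-a) := by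
    have htend : Tendsto (fun n : ℕ => (((1 + 1 / ((n:ℝ) + 1) : ℝ)) : ℂ)) atTop (𝓝[≠] (1:ℂ)) := by
      apply tendsto_nhdsWithin_of_tendsto_nhds_of_eventually_within
      · have h := tendsto_one_div_add_atTop_nhds_zero_nat (𝕜 := ℝ)
        have h' : Tendsto (fun n : ℕ => 1 + 1 / ((n:ℝ) + 1)) atTop (𝓝 (1 + 0)) := h.const_add 1
        rw [add_zero] at h'
        have h'' := (Complex.continuous_ofReal.tendsto (1:ℝ)).comp h'
        rw [Complex.ofReal_one] at h''
        exact h''
      · refine Eventually.of_forall (fun n => ?_)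
        rw [mem_compl_iff, mem_singleton_iff]
        intro hcon
        have h1 : (1 + 1 / ((n:ℝ) + 1) : ℝ) = 1 := by exact_mod_cast hcon
        have h2 : (0:ℝ) < 1 / ((n:ℝ) + 1) := by positivity
        linarith
    apply htend.frequently
    refine Frequently.of_forall (fun n => ?_)
    apply hreal
    positivity
  exact AnalyticOnNhd.eqOn_of_preconnected_of_frequently_eq hf hg hconv.isPreconnected h1 hfreq hz

/-- the norm of the kernel -/
theorem norm_cpow_neg_le {z : ℂ} (hz : 0 < z.re) (a : ℂ) :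
    ‖z ^ (-a)‖ = ‖z‖ ^ (-a.re) * Real.exp (z.arg * a.im) := by
  have hz0 : z ≠ 0 := fun h => by rw [h] at hz; simp at hz
  rw [Complex.norm_cpow_of_ne_zero hz0, Complex.neg_re, Complex.neg_im, div_eq_mul_inv, ← Real.exp_neg]
  congr 2
  ring

/-- `|Γ(a)| |z|^{-Re a} e^{arg z Im a} ≤ Γ(Re a) (Re z)^{-Re a}` -/
theorem gamma_rot (a : ℂ) (ha : 0 < a.re) (z : ℂ) (hz : 0 < z.re) :
    ‖Complex.Gamma a‖ * (‖z‖ ^ (-a.re) * Real.exp (z.arg * a.im)) ≤ Real.Gamma a.re * (z.re) ^ (-a.re) := by
  rw [← norm_cpow_neg_le hz, ← norm_mul, ← lap a ha z hz]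
  have h := Real.integral_rpow_mul_exp_neg_mul_Ioi ha hz
  have h2 : (1 / z.re) ^ a.re * Real.Gamma a.re = Real.Gamma a.re * (z.re) ^ (-a.re) := by
    rw [one_div, Real.inv_rpow hz.le, Real.rpow_neg hz.le, mul_comm]
  rw [← h2, ← h]
  refine (norm_integral_le_integral_norm _).trans (le_of_eq ?_)
  refine setIntegral_congr_fun measurableSet_Ioi fun t ht => ?_
  have ht' : (0:ℝ) < t := ht
  rw [lp_norm (a - 1) z t ht', Real.rpow_one, Complex.sub_re, Complex.one_re, neg_mul]

end Pool.Agent.KS6_10
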