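import Pool.Agent.KS6_10.MVKer

/-! The Newtonian potential of a set of finite measure is continuously differentiable, with bounded
derivative. -/

open MeasureTheory Metric Set Filter Topology
open scoped ENNReal

set_option autoImplicit false

namespace Pool.Agent.KS6_10.MV

open Pool.Agent.Y767.PB

/-- the (regularised) potential -/
noncomputable def Q (k : ℕ) (ε : ℝ) (A : Set (E (k + 3))) (x : E (k + 3)) : ℝ :=
  ∫ y in A, Kf k ε (x - y)

/-- the derivative of the (regularised) potential -/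
noncomputable def DQ (k : ℕ) (ε : ℝ) (A : Set (E (k + 3))) (x : E (k + 3)) : E (k + 3) →L[ℝ] ℝ :=
  ∫ y in A, DK k ε (x - y)

lemma lK_lt (k : ℕ) {A : Set (E (k + 3))} (hA : volume A ≠ ⊤) (x : E (k + 3)) :
    ∫⁻ y in A, ENNReal.ofReal (Kf k 0 (x - y)) < ⊤ := by
  refine lt_of_le_of_lt (tail A (f := fun u => ENNReal.ofReal (Kf k 0 u)) 1 1 ?_ x) ?_
  · intro u hu
    rw [← ENNReal.ofReal_one]
    apply ENNReal.ofReal_le_ofReal
    unfold Kf
    apply Real.rpow_le_one_of_one_le_of_nonpos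
    · nlinarith
    · have : (0:ℝ) ≤ ((k + 1 : ℕ) : ℝ) := by positivity
      linarith
  · rw [K_ball k zero_le_one, one_mul]
    exact ENNReal.add_lt_top.2 ⟨ENNReal.mul_lt_top (SS_ne_top k).lt_top ENNReal.ofReal_lt_top,
      hA.lt_top⟩

lemma K_int (k : ℕ) {A : Set (E (k + 3))} (hA : volume A ≠ ⊤) (x : E (k + 3)) :
    Integrable (fun y => Kf k 0 (x - y)) (volume.restrict A) := by
  refine ⟨((Kf_meas k 0).comp (by fun_prop)).aestronglyMeasurable, ?_⟩
  rw [hasFiniteIntegral_iff_norm]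
  refine lt_of_eq_of_lt ?_ (lK_lt k hA x)
  apply lintegral_congr
  intro y
  rw [Real.norm_of_nonneg (Kf_nonneg le_rfl _)]

lemma K_int' (k : ℕ) {ε : ℝ} (hε : 0 < ε) {A : Set (E (k + 3))} (hA : volume A ≠ ⊤)
    (x : E (k + 3)) : Integrable (fun y => Kf k ε (x - y)) (volume.restrict A) := by
  have : IsFiniteMeasure (volume.restrict A) := ⟨by simpa using hA.lt_top⟩
  refine Integrable.of_bound ((Kf_meas k ε).comp (by fun_prop)).aestronglyMeasurable
    (ε ^ (-((k + 1 : ℕ) : ℝ) / 2)) (Eventually.of_forall fun y => ?_)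
  rw [Real.norm_of_nonneg (Kf_nonneg hε.le _)]
  unfold Kf
  apply Real.rpow_le_rpow_of_nonpos hε (by nlinarith [norm_nonneg (x - y)])
  have : (0:ℝ) ≤ ((k + 1 : ℕ) : ℝ) := by positivity
  linarith

lemma N_tail (k : ℕ) (A : Set (E (k + 3))) (x : E (k + 3)) :
    ∫⁻ y in A, ENNReal.ofReal (Jf k 0 (x - y) * ‖x - y‖) ≤ SS k + volume A := by
  refine (tail A (f := fun u => ENNReal.ofReal (Jf k 0 u * ‖u‖)) 1 1 ?_ x).trans ?_
  · intro u hu
    rw [← ENNReal.ofReal_one]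
    apply ENNReal.ofReal_le_ofReal
    rcases Jf_zero_mul u with h | h
    · rw [h]
      exact inv_le_one_of_one_le₀ (one_le_pow₀ hu)
    · subst h
      simp
  · rw [N_ball k zero_le_one, one_mul, ENNReal.ofReal_one, mul_one]

lemma DK_meas (k : ℕ) (ε : ℝ) (x : E (k + 3)) (μ : Measure (E (k + 3))) :
    AEStronglyMeasurable (fun y => DK k ε (x - y)) μ := by
  have h1 : AEStronglyMeasurable (fun y => -((k:ℝ) + 1) * Jf k ε (x - y)) μ :=
    (((Jf_meas k ε).comp (by fun_prop)).const_mul _).aestronglyMeasurable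
  have h2 : AEStronglyMeasurable (fun y : E (k + 3) => innerSL ℝ (x - y)) μ :=
    Continuous.aestronglyMeasurable ((innerSL ℝ).continuous.comp (by fun_prop))
  exact h1.smul h2

lemma DK_int (k : ℕ) {ε : ℝ} (hε : 0 ≤ ε) {A : Set (E (k + 3))} (hA : volume A ≠ ⊤)
    (x : E (k + 3)) : Integrable (fun y => DK k ε (x - y)) (volume.restrict A) := by
  refine ⟨DK_meas k ε x _, ?_⟩
  rw [hasFiniteIntegral_iff_norm]
  have h1 : ∀ y, ENNReal.ofReal ‖DK k ε (x - y)‖ ≤
      ENNReal.ofReal (k + 1) * ENNReal.ofReal (Jf k 0 (x - y) * ‖x - y‖) := by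
    intro y
    rw [← ENNReal.ofReal_mul (by positivity), DK_norm hε]
    exact ENNReal.ofReal_le_ofReal (mul_le_mul_of_nonneg_left (Jf_le hε _) (by positivity))
  refine lt_of_le_of_lt (lintegral_mono h1) ?_
  rw [lintegral_const_mul' _ _ ENNReal.ofReal_ne_top]
  exact ENNReal.mul_lt_top ENNReal.ofReal_lt_top (lt_of_le_of_lt (N_tail k A x)
    (ENNReal.add_lt_top.2 ⟨(SS_ne_top k).lt_top, hA.lt_top⟩))

/-- the derivative of the potential is bounded -/
lemma DQ_bdd (k : ℕ) {A : Set (E (k + 3))} (hA : volume A ≠ ⊤) (x : E (k + 3)) :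
    ‖DQ k 0 A x‖ ≤ (k + 1) * ((SS k).toReal + (volume A).toReal) := by
  unfold DQ
  refine (norm_integral_le_lintegral_norm _).trans ?_
  have h1 : ∀ y, ENNReal.ofReal ‖DK k 0 (x - y)‖ =
      ENNReal.ofReal (k + 1) * ENNReal.ofReal (Jf k 0 (x - y) * ‖x - y‖) := by
    intro y
    rw [← ENNReal.ofReal_mul (by positivity), DK_norm le_rfl]
  simp_rw [h1]
  rw [lintegral_const_mul' _ _ ENNReal.ofReal_ne_top, ENNReal.toReal_mul,
    ENNReal.toReal_ofReal (by positivity), ← ENNReal.toReal_add (SS_ne_top k) hA]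
  apply mul_le_mul_of_nonneg_left _ (by positivity)
  exact ENNReal.toReal_mono (ENNReal.add_ne_top.2 ⟨SS_ne_top k, hA⟩) (N_tail k A x)

lemma Q_hasFDerivAt_reg (k : ℕ) {ε : ℝ} (hε : 0 < ε) {A : Set (E (k + 3))} (hA : volume A ≠ ⊤)
    (x : E (k + 3)) : HasFDerivAt (Q k ε A) (DQ k ε A x) x := by
  have : IsFiniteMeasure (volume.restrict A) := ⟨by simpa using hA.lt_top⟩
  unfold Q DQ
  refine hasFDerivAt_integral_of_dominated_of_fderiv_le (𝕜 := ℝ) (s := univ)
    (F := fun z y => Kf k ε (z - y)) (F' := fun z y => DK k ε (z - y))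
    (bound := fun _ => (k + 1) * ε ^ (-((k + 2 : ℕ) : ℝ) / 2)) univ_mem ?_ (K_int' k hε hA x)
    (DK_meas k ε x _) ?_ (integrable_const _) ?_
  · exact Eventually.of_forall fun z => ((Kf_meas k ε).comp (by fun_prop)).aestronglyMeasurable
  · exact Eventually.of_forall fun y z _ => DK_bound hε _
  · refine Eventually.of_forall fun y z _ => ?_
    have h1 : HasFDerivAt (fun w : E (k + 3) => w - y) (ContinuousLinearMap.id ℝ _) z :=
      (hasFDerivAt_id z).sub_const y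
    have h2 := (Kf_hasFDerivAt k hε (z - y)).comp z h1
    rwa [ContinuousLinearMap.comp_id] at h2

lemma DQ_cont_reg (k : ℕ) {ε : ℝ} (hε : 0 < ε) {A : Set (E (k + 3))} (hA : volume A ≠ ⊤) :
    Continuous (DQ k ε A) := by
  have : IsFiniteMeasure (volume.restrict A) := ⟨by simpa using hA.lt_top⟩
  unfold DQ
  refine continuous_of_dominated (bound := fun _ => (k + 1) * ε ^ (-((k + 2 : ℕ) : ℝ) / 2))
    (fun x => DK_meas k ε x _) (fun x => Eventually.of_forall fun y => DK_bound hε _)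
    (integrable_const _) (Eventually.of_forall fun y => ?_)
  exact (DK_cont k hε).comp (by fun_prop)

/-- the bound of the difference of the kernels away from the origin -/
noncomputable def cc (k : ℕ) (ε δ : ℝ) : ℝ :=
  (δ ^ (k + 2))⁻¹ * (1 - (1 + ε / δ ^ 2) ^ (-((k + 3 : ℕ) : ℝ) / 2))

lemma cc_bound {k : ℕ} {ε δ : ℝ} (hε : 0 ≤ ε) (hδ : 0 < δ) {u : E (k + 3)} (hu : δ ≤ ‖u‖) :
    (Jf k 0 u - Jf k ε u) * ‖u‖ ≤ cc k ε δ := by
  have h0 : 0 < ‖u‖ := hδ.trans_le hu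
  have hne : u ≠ 0 := norm_pos_iff.1 h0
  have h1 : Jf k ε u = Jf k 0 u * (1 + ε / ‖u‖ ^ 2) ^ (-((k + 3 : ℕ) : ℝ) / 2) := by
    unfold Jf
    rw [← Real.mul_rpow (by positivity) (by positivity)]
    congr 1
    field_simp
    ring
  have h2 := (Jf_zero_mul u).resolve_right hne
  have h3 : (Jf k 0 u - Jf k ε u) * ‖u‖ =
      (‖u‖ ^ (k + 2))⁻¹ * (1 - (1 + ε / ‖u‖ ^ 2) ^ (-((k + 3 : ℕ) : ℝ) / 2)) := by
    rw [h1, ← h2]
    ring
  have hp : -((k + 3 : ℕ) : ℝ) / 2 ≤ 0 := by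
    have : (0:ℝ) ≤ ((k + 3 : ℕ) : ℝ) := by positivity
    linarith
  have h4 : (1 + ε / ‖u‖ ^ 2) ^ (-((k + 3 : ℕ) : ℝ) / 2) ≤ 1 := by
    apply Real.rpow_le_one_of_one_le_of_nonpos _ hp
    have : 0 ≤ ε / ‖u‖ ^ 2 := by positivity
    linarith
  have h5 : (1 + ε / δ ^ 2) ^ (-((k + 3 : ℕ) : ℝ) / 2) ≤
      (1 + ε / ‖u‖ ^ 2) ^ (-((k + 3 : ℕ) : ℝ) / 2) := by
    apply Real.rpow_le_rpow_of_nonpos (by positivity) _ hp
    gcongr
  rw [h3, cc]
  apply mul_le_mul
  · gcongr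
  · linarith
  · linarith
  · positivity

lemma cc_nonneg {k : ℕ} {ε δ : ℝ} (hε : 0 ≤ ε) (_hδ : 0 < δ) : 0 ≤ cc k ε δ := by
  unfold cc
  apply mul_nonneg (by positivity)
  have h4 : (1 + ε / δ ^ 2) ^ (-((k + 3 : ℕ) : ℝ) / 2) ≤ 1 := by
    apply Real.rpow_le_one_of_one_le_of_nonpos
    · have : 0 ≤ ε / δ ^ 2 := by positivity
      linarith
    · have : (0:ℝ) ≤ ((k + 3 : ℕ) : ℝ) := by positivity
      linarith
  linarith

lemma cc_tendsto (k : ℕ) {δ : ℝ} (hδ : 0 < δ) : Tendsto (fun ε => cc k ε δ) (𝓝 0) (𝓝 0) := by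
  unfold cc
  have h1 : ContinuousAt (fun ε : ℝ => (δ ^ (k + 2))⁻¹ *
      (1 - (1 + ε / δ ^ 2) ^ (-((k + 3 : ℕ) : ℝ) / 2))) 0 := by
    apply ContinuousAt.mul continuousAt_const
    apply ContinuousAt.sub continuousAt_const
    apply ContinuousAt.rpow_const
    · fun_prop
    · left; simp
  have h2 := h1.tendsto
  simpa using h2

lemma DQ_diff (k : ℕ) {A : Set (E (k + 3))} (hA : volume A ≠ ⊤) {ε δ : ℝ} (hε : 0 ≤ ε)
    (hδ : 0 < δ) (x : E (k + 3)) :
    ‖DQ k 0 A x - DQ k ε A x‖ ≤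
      (k + 1) * ((SS k).toReal * δ + cc k ε δ * (volume A).toReal) := by
  unfold DQ
  rw [← integral_sub (DK_int k le_rfl hA x) (DK_int k hε hA x)]
  refine (norm_integral_le_lintegral_norm _).trans ?_
  have h0 : ∀ u : E (k + 3), ‖DK k 0 u - DK k ε u‖ ≤ (k + 1) * ((Jf k 0 u - Jf k ε u) * ‖u‖) := by
    intro u
    have h1 : DK k 0 u - DK k ε u = (-((k:ℝ) + 1) * (Jf k 0 u - Jf k ε u)) • innerSL ℝ u := by
      unfold DK
      refine ContinuousLinearMap.ext fun v => ?_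
      simp only [FunLike.coe_smul, FunLike.coe_sub, Pi.smul_apply, Pi.sub_apply, smul_eq_mul]
      ring
    rw [h1, norm_smul, innerSL_apply_norm, norm_mul, norm_neg,
      Real.norm_of_nonneg (by positivity : (0:ℝ) ≤ (k:ℝ) + 1), mul_assoc]
    apply mul_le_mul_of_nonneg_left _ (by positivity)
    have h2 := Jf_le hε u
    by_cases h : u = 0
    · subst h; simp
    · have h3 : 0 < ‖u‖ := norm_pos_iff.2 h
      have h4 : Jf k ε u ≤ Jf k 0 u := le_of_mul_le_mul_right h2 h3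
      rw [Real.norm_of_nonneg (by linarith)]
  have h1 : ∀ y, ENNReal.ofReal ‖DK k 0 (x - y) - DK k ε (x - y)‖ ≤
      ENNReal.ofReal (k + 1) *
        ENNReal.ofReal ((Jf k 0 (x - y) - Jf k ε (x - y)) * ‖x - y‖) := by
    intro y
    rw [← ENNReal.ofReal_mul (by positivity)]
    exact ENNReal.ofReal_le_ofReal (h0 _)
  have h2 : ∫⁻ y in A, ENNReal.ofReal ‖DK k 0 (x - y) - DK k ε (x - y)‖ ≤
      ENNReal.ofReal (k + 1) * (SS k * ENNReal.ofReal δ + ENNReal.ofReal (cc k ε δ) * volume A) := by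
    refine (lintegral_mono h1).trans ?_
    rw [lintegral_const_mul' _ _ ENNReal.ofReal_ne_top]
    gcongr
    refine (tail A (f := fun u => ENNReal.ofReal ((Jf k 0 u - Jf k ε u) * ‖u‖)) δ
      (ENNReal.ofReal (cc k ε δ)) (fun u hu => ENNReal.ofReal_le_ofReal (cc_bound hε hδ hu))
      x).trans ?_
    gcongr
    rw [← N_ball k hδ.le]
    apply lintegral_mono
    intro u
    apply ENNReal.ofReal_le_ofReal
    have := mul_nonneg (Jf_nonneg hε u) (norm_nonneg u)
    rw [sub_mul]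
    linarith
  have hne : ENNReal.ofReal ((k:ℝ) + 1) * (SS k * ENNReal.ofReal δ +
      ENNReal.ofReal (cc k ε δ) * volume A) ≠ ⊤ := by
    apply ENNReal.mul_ne_top ENNReal.ofReal_ne_top
    exact ENNReal.add_ne_top.2 ⟨ENNReal.mul_ne_top (SS_ne_top k) ENNReal.ofReal_ne_top,
      ENNReal.mul_ne_top ENNReal.ofReal_ne_top hA⟩
  refine (ENNReal.toReal_mono hne h2).trans ?_
  rw [ENNReal.toReal_mul, ENNReal.toReal_add (ENNReal.mul_ne_top (SS_ne_top k) ENNReal.ofReal_ne_top)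
    (ENNReal.mul_ne_top ENNReal.ofReal_ne_top hA), ENNReal.toReal_mul, ENNReal.toReal_mul,
    ENNReal.toReal_ofReal (by positivity), ENNReal.toReal_ofReal hδ.le,
    ENNReal.toReal_ofReal (cc_nonneg hε hδ)]

lemma DQ_unif (k : ℕ) {A : Set (E (k + 3))} (hA : volume A ≠ ⊤) :
    TendstoUniformly (fun m : ℕ => DQ k (1 / ((m:ℝ) + 1)) A) (DQ k 0 A) atTop := by
  rw [Metric.tendstoUniformly_iff]
  intro η hη
  have hS : 0 < (SS k).toReal := ENNReal.toReal_pos (SS_ne_zero k) (SS_ne_top k)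
  obtain ⟨δ, hδ, hδη⟩ : ∃ δ : ℝ, 0 < δ ∧ (k + 1) * ((SS k).toReal * δ) < η := by
    refine ⟨η / (2 * ((k + 1) * (SS k).toReal)), by positivity, ?_⟩
    have : ((k:ℝ) + 1) * ((SS k).toReal * (η / (2 * ((k + 1) * (SS k).toReal)))) = η / 2 := by
      field_simp
    rw [this]
    linarith
  have h1 : Tendsto (fun m : ℕ => ((k:ℝ) + 1) * ((SS k).toReal * δ +
      cc k (1 / ((m:ℝ) + 1)) δ * (volume A).toReal)) atTop
      (𝓝 (((k:ℝ) + 1) * ((SS k).toReal * δ + 0 * (volume A).toReal))) := by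
    apply Tendsto.const_mul
    apply Tendsto.const_add
    apply Tendsto.mul_const
    exact (cc_tendsto k hδ).comp tendsto_one_div_add_atTop_nhds_zero_nat
  rw [zero_mul, add_zero] at h1
  filter_upwards [h1.eventually (gt_mem_nhds hδη)] with m hm x
  rw [dist_eq_norm]
  exact (DQ_diff k hA (by positivity) hδ x).trans_lt hm

lemma Q_tendsto (k : ℕ) {A : Set (E (k + 3))} (hA : volume A ≠ ⊤) (x : E (k + 3)) :
    Tendsto (fun m : ℕ => Q k (1 / ((m:ℝ) + 1)) A x) atTop (𝓝 (Q k 0 A x)) := by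
  unfold Q
  refine tendsto_integral_of_dominated_convergence (fun y => Kf k 0 (x - y)) ?_ (K_int k hA x) ?_ ?_
  · exact fun m => ((Kf_meas k _).comp (by fun_prop)).aestronglyMeasurable
  · intro m
    have hx : ∀ᵐ y : E (k + 3) ∂(volume.restrict A), y ≠ x := by
      apply ae_restrict_of_ae
      rw [ae_iff]
      simp
    filter_upwards [hx] with y hy
    rw [Real.norm_of_nonneg (Kf_nonneg (by positivity) _)]
    exact Kf_le (by positivity) (sub_ne_zero.2 hy.symm)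
  · have hx : ∀ᵐ y : E (k + 3) ∂(volume.restrict A), y ≠ x := by
      apply ae_restrict_of_ae
      rw [ae_iff]
      simp
    filter_upwards [hx] with y hy
    have h0 : 0 < ‖x - y‖ := norm_pos_iff.2 (sub_ne_zero.2 hy.symm)
    have h1 : ContinuousAt (fun ε : ℝ => Kf k ε (x - y)) 0 := by
      unfold Kf
      apply ContinuousAt.rpow_const (by fun_prop)
      left
      positivity
    exact h1.tendsto.comp tendsto_one_div_add_atTop_nhds_zero_nat

/-- the Newtonian potential of a set of finite measure is differentiable -/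
theorem Q_hasFDerivAt (k : ℕ) {A : Set (E (k + 3))} (hA : volume A ≠ ⊤) (x : E (k + 3)) :
    HasFDerivAt (Q k 0 A) (DQ k 0 A x) x :=
  hasFDerivAt_of_tendstoUniformly (DQ_unif k hA)
    (fun m x => Q_hasFDerivAt_reg k (by positivity) hA x) (fun x => Q_tendsto k hA x) x

theorem DQ_cont (k : ℕ) {A : Set (E (k + 3))} (hA : volume A ≠ ⊤) : Continuous (DQ k 0 A) :=
  (DQ_unif k hA).continuous (Frequently.of_forall fun m => DQ_cont_reg k (by positivity) hA)

theorem Q_cont (k : ℕ) {A : Set (E (k + 3))} (hA : volume A ≠ ⊤) : Continuous (Q k 0 A) :=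
  continuous_iff_continuousAt.2 fun x => (Q_hasFDerivAt k hA x).continuousAt

end Pool.Agent.KS6_10.MV
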