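import Pool.Graph.R_seed8.Y767.PB.Sph

/-! Kernels for the Newtonian potential in dimension `k + 3`: the regularised kernel, its
derivative, bounds for the integrals over sets of finite measure. -/

open MeasureTheory Metric Set Filter Topology
open scoped ENNReal

set_option autoImplicit false

namespace Pool.Agent.KS6_10.MV

open Pool.Agent.Y767.PB

/-- the regularised kernel -/
noncomputable def Kf (k : ℕ) (ε : ℝ) (u : E (k + 3)) : ℝ := (‖u‖ ^ 2 + ε) ^ (-((k + 1 : ℕ) : ℝ) / 2)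

/-- the radial factor of the derivative of the regularised kernel -/
noncomputable def Jf (k : ℕ) (ε : ℝ) (u : E (k + 3)) : ℝ := (‖u‖ ^ 2 + ε) ^ (-((k + 3 : ℕ) : ℝ) / 2)

/-- the derivative of the regularised kernel -/
noncomputable def DK (k : ℕ) (ε : ℝ) (u : E (k + 3)) : E (k + 3) →L[ℝ] ℝ :=
  (-((k:ℝ) + 1) * Jf k ε u) • innerSL ℝ u

lemma Kf_zero {k : ℕ} (u : E (k + 3)) : Kf k 0 u = ‖u‖ ^ (2 - ((k + 3 : ℕ) : ℝ)) := by
  unfold Kf
  rw [add_zero, ← Real.rpow_natCast, ← Real.rpow_mul (norm_nonneg _)]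
  congr 1
  push_cast
  ring

lemma Kf_nonneg {k : ℕ} {ε : ℝ} (hε : 0 ≤ ε) (u : E (k + 3)) : 0 ≤ Kf k ε u :=
  Real.rpow_nonneg (by positivity) _

lemma Jf_nonneg {k : ℕ} {ε : ℝ} (hε : 0 ≤ ε) (u : E (k + 3)) : 0 ≤ Jf k ε u :=
  Real.rpow_nonneg (by positivity) _

lemma Kf_meas (k : ℕ) (ε : ℝ) : Measurable (Kf k ε) := Measurable.pow_const (by fun_prop) _

lemma Jf_meas (k : ℕ) (ε : ℝ) : Measurable (Jf k ε) := Measurable.pow_const (by fun_prop) _

lemma Kf_cont (k : ℕ) {ε : ℝ} (hε : 0 < ε) : Continuous (Kf k ε) := by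
  unfold Kf
  apply Continuous.rpow_const (by fun_prop)
  intro u
  left
  positivity

lemma Jf_cont (k : ℕ) {ε : ℝ} (hε : 0 < ε) : Continuous (Jf k ε) := by
  unfold Jf
  apply Continuous.rpow_const (by fun_prop)
  intro u
  left
  positivity

lemma DK_cont (k : ℕ) {ε : ℝ} (hε : 0 < ε) : Continuous (DK k ε) := by
  unfold DK
  have h1 := Jf_cont k hε
  have h2 : Continuous (fun u : E (k + 3) => innerSL ℝ u) := (innerSL ℝ).continuous
  exact (continuous_const.mul h1).smul h2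

lemma DK_norm {k : ℕ} {ε : ℝ} (hε : 0 ≤ ε) (u : E (k + 3)) :
    ‖DK k ε u‖ = (k + 1) * (Jf k ε u * ‖u‖) := by
  unfold DK
  rw [norm_smul, innerSL_apply_norm, norm_mul, norm_neg, Real.norm_of_nonneg (Jf_nonneg hε u),
    Real.norm_of_nonneg (by positivity)]
  ring

lemma Kf_hasFDerivAt (k : ℕ) {ε : ℝ} (hε : 0 < ε) (u : E (k + 3)) :
    HasFDerivAt (Kf k ε) (DK k ε u) u := by
  have h1 : HasFDerivAt (fun x : E (k + 3) => ‖x‖ ^ 2 + ε) (2 • innerSL ℝ u) u :=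
    (hasStrictFDerivAt_norm_sq u).hasFDerivAt.add_const ε
  have h2 := h1.rpow_const (p := -((k + 1 : ℕ) : ℝ) / 2) (Or.inl (by positivity))
  have h5 : DK k ε u = (-((k + 1 : ℕ) : ℝ) / 2 * (‖u‖ ^ 2 + ε) ^ (-((k + 1 : ℕ) : ℝ) / 2 - 1)) •
      (2 • innerSL ℝ u) := ?_
  · rw [h5]; exact h2
  refine ContinuousLinearMap.ext fun v => ?_
  unfold DK Jf
  rw [two_smul]
  simp only [FunLike.coe_smul, FunLike.coe_add, Pi.smul_apply, Pi.add_apply, smul_eq_mul]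
  have h3 : -((k + 1 : ℕ) : ℝ) / 2 - 1 = -((k + 3 : ℕ) : ℝ) / 2 := by push_cast; ring
  rw [h3]
  push_cast
  ring

lemma Jf_le {k : ℕ} {ε : ℝ} (hε : 0 ≤ ε) (u : E (k + 3)) : Jf k ε u * ‖u‖ ≤ Jf k 0 u * ‖u‖ := by
  by_cases h : u = 0
  · subst h; simp
  · apply mul_le_mul_of_nonneg_right _ (norm_nonneg u)
    unfold Jf
    have : 0 < ‖u‖ := norm_pos_iff.2 h
    apply Real.rpow_le_rpow_of_nonpos (by positivity) (by linarith)
    have : (0:ℝ) ≤ ((k + 3 : ℕ) : ℝ) := by positivity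
    linarith

lemma Kf_le {k : ℕ} {ε : ℝ} (hε : 0 ≤ ε) {u : E (k + 3)} (hu : u ≠ 0) : Kf k ε u ≤ Kf k 0 u := by
  unfold Kf
  have : 0 < ‖u‖ := norm_pos_iff.2 hu
  apply Real.rpow_le_rpow_of_nonpos (by positivity) (by linarith)
  have : (0:ℝ) ≤ ((k + 1 : ℕ) : ℝ) := by positivity
  linarith

lemma Jf_zero_mul {k : ℕ} (u : E (k + 3)) : Jf k 0 u * ‖u‖ = (‖u‖ ^ (k + 2))⁻¹ ∨ u = 0 := by
  by_cases h : u = 0
  · right; exact h
  · left
    have h0 : 0 < ‖u‖ := norm_pos_iff.2 h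
    unfold Jf
    have h1 : (‖u‖ ^ 2 + 0) ^ (-((k + 3 : ℕ) : ℝ) / 2) = (‖u‖ ^ (k + 3))⁻¹ := by
      rw [add_zero, ← Real.rpow_natCast, ← Real.rpow_natCast, ← Real.rpow_mul (norm_nonneg _),
        ← Real.rpow_neg h0.le]
      congr 1
      push_cast
      ring
    rw [h1, pow_succ ‖u‖ (k + 2)]
    field_simp

/-- bound of the derivative of the regularised kernel by a constant -/
lemma DK_bound {k : ℕ} {ε : ℝ} (hε : 0 < ε) (u : E (k + 3)) :
    ‖DK k ε u‖ ≤ (k + 1) * ε ^ (-((k + 2 : ℕ) : ℝ) / 2) := by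
  rw [DK_norm hε.le]
  apply mul_le_mul_of_nonneg_left _ (by positivity)
  have h1 : ‖u‖ ≤ (‖u‖ ^ 2 + ε) ^ ((1:ℝ) / 2) := by
    rw [← Real.sqrt_eq_rpow]
    apply Real.le_sqrt_of_sq_le
    linarith
  calc Jf k ε u * ‖u‖ ≤ Jf k ε u * (‖u‖ ^ 2 + ε) ^ ((1:ℝ) / 2) :=
        mul_le_mul_of_nonneg_left h1 (Jf_nonneg hε.le u)
    _ = (‖u‖ ^ 2 + ε) ^ (-((k + 2 : ℕ) : ℝ) / 2) := by
        unfold Jf
        rw [← Real.rpow_add (by positivity)]
        congr 1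
        push_cast
        ring
    _ ≤ ε ^ (-((k + 2 : ℕ) : ℝ) / 2) := by
        apply Real.rpow_le_rpow_of_nonpos hε (by nlinarith [norm_nonneg u])
        have : (0:ℝ) ≤ ((k + 2 : ℕ) : ℝ) := by positivity
        linarith

/-- splitting of an integral of a kernel over a set of finite measure -/
lemma tail {k : ℕ} (A : Set (E (k + 3))) {f : E (k + 3) → ℝ≥0∞} (δ : ℝ)
    (c : ℝ≥0∞) (hc : ∀ u, δ ≤ ‖u‖ → f u ≤ c) (x : E (k + 3)) :
    ∫⁻ y in A, f (x - y) ≤ (∫⁻ u in ball (0 : E (k + 3)) δ, f u) + c * volume A := by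
  have h1 : ∀ y, f (x - y) ≤ (ball (0 : E (k + 3)) δ).indicator f (x - y) + c := by
    intro y
    by_cases h : x - y ∈ ball (0 : E (k + 3)) δ
    · rw [indicator_of_mem h]
      exact le_self_add
    · rw [indicator_of_notMem h, zero_add]
      apply hc
      rwa [mem_ball_zero_iff, not_lt] at h
  calc ∫⁻ y in A, f (x - y) ≤ ∫⁻ y in A, ((ball (0 : E (k + 3)) δ).indicator f (x - y) + c) :=
        lintegral_mono h1
    _ = (∫⁻ y in A, (ball (0 : E (k + 3)) δ).indicator f (x - y)) + c * volume A := by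
        rw [lintegral_add_right _ measurable_const, setLIntegral_const]
    _ ≤ (∫⁻ y, (ball (0 : E (k + 3)) δ).indicator f (x - y)) + c * volume A := by
        gcongr
        exact Measure.restrict_le_self
    _ = (∫⁻ u in ball (0 : E (k + 3)) δ, f u) + c * volume A := by
        rw [lintegral_sub_left_eq_self, lintegral_indicator measurableSet_ball]

lemma ind_one_int {δ : ℝ} (hδ : 0 ≤ δ) :
    ∫⁻ q in Ioi (0:ℝ), (Iio δ).indicator 1 q = ENNReal.ofReal δ := by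
  have h := ind_int (R := δ) hδ (f := fun _ => (1:ℝ)) continuousOn_const (fun _ _ => zero_le_one)
  simpa using h

/-- the integral of the derivative kernel over a small ball -/
lemma N_ball (k : ℕ) {δ : ℝ} (hδ : 0 ≤ δ) :
    ∫⁻ u in ball (0 : E (k + 3)) δ, ENNReal.ofReal (Jf k 0 u * ‖u‖) = SS k * ENNReal.ofReal δ := by
  rw [ball_ind]
  have hw : Measurable (fun q : ℝ => ENNReal.ofReal ((q ^ 2 + 0) ^ (-((k + 3 : ℕ) : ℝ) / 2) * q) *
      (Iio δ).indicator (1 : ℝ → ℝ≥0∞) q) := by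
    apply Measurable.mul _ (ind_meas δ)
    apply ENNReal.measurable_ofReal.comp
    exact (Measurable.pow_const (by fun_prop) _).mul measurable_id
  have h1 := vol_w k hw
  have h2 : ∀ u : E (k + 3), ENNReal.ofReal (Jf k 0 u * ‖u‖) * (Iio δ).indicator 1 ‖u‖ =
      (fun q : ℝ => ENNReal.ofReal ((q ^ 2 + 0) ^ (-((k + 3 : ℕ) : ℝ) / 2) * q) *
      (Iio δ).indicator (1 : ℝ → ℝ≥0∞) q) ‖u‖ := fun u => rfl
  simp_rw [h2]
  rw [h1]
  congr 1
  rw [← ind_one_int hδ]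
  apply setLIntegral_congr_fun measurableSet_Ioi
  intro q hq
  have hq' : (0:ℝ) < q := hq
  simp only
  rw [← mul_assoc, ← ENNReal.ofReal_mul (by positivity)]
  have h3 : q ^ (k + 2) * ((q ^ 2 + 0) ^ (-((k + 3 : ℕ) : ℝ) / 2) * q) = 1 := by
    have h4 : (q ^ 2 + 0) ^ (-((k + 3 : ℕ) : ℝ) / 2) = (q ^ (k + 3))⁻¹ := by
      rw [add_zero, ← Real.rpow_natCast, ← Real.rpow_natCast, ← Real.rpow_mul hq'.le,
        ← Real.rpow_neg hq'.le]
      congr 1
      push_cast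
      ring
    rw [h4, pow_succ q (k + 2)]
    field_simp
  rw [h3, ENNReal.ofReal_one, one_mul]

lemma K_ball (k : ℕ) {δ : ℝ} (hδ : 0 ≤ δ) :
    ∫⁻ u in ball (0 : E (k + 3)) δ, ENNReal.ofReal (Kf k 0 u) =
      SS k * ENNReal.ofReal (δ ^ 2 / 2) := by
  have h := ball_pot' k (0 : E (k + 3)) hδ
  have h2 : ∀ u : E (k + 3), ENNReal.ofReal (Kf k 0 u) =
      ENNReal.ofReal (‖(0 : E (k + 3)) - u‖ ^ (2 - ((k + 3 : ℕ) : ℝ))) := by
    intro u
    rw [Kf_zero, zero_sub, norm_neg]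
  simp_rw [h2]
  rw [h, norm_zero, PP_in k le_rfl hδ]
  congr 2
  ring

end Pool.Agent.KS6_10.MV
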