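import Pool.Agent.KS6_10.MVRad

/-! The classification of the sets with the mean-value property. -/

open MeasureTheory Metric Set Filter Topology
open scoped ENNReal NNReal

set_option autoImplicit false

namespace Pool.Agent.KS6_10.MV

open Pool.Agent.Y767.PB

/-- the mean of the kernel over the unit sphere -/
noncomputable def MM (k : ℕ) (x : E (k + 3)) : ℝ := (max ‖x‖ 1 ^ (k + 1))⁻¹

lemma MM_rad {k : ℕ} (x y : E (k + 3)) (h : ‖x‖ = ‖y‖) : MM k x = MM k y := by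
  unfold MM; rw [h]

lemma MM_diff {k : ℕ} (x : E (k + 3)) (hx : x ∉ sphere (0 : E (k + 3)) 1) :
    DifferentiableAt ℝ (MM k) x := by
  rw [mem_sphere_zero_iff_norm] at hx
  rcases lt_or_gt_of_ne hx with h | h
  · have h1 : MM k =ᶠ[𝓝 x] fun _ => (1:ℝ) := by
      filter_upwards [(isOpen_lt continuous_norm continuous_const).mem_nhds h] with y hy
      rw [MM, max_eq_right (le_of_lt hy), one_pow, inv_one]
    exact (h1.differentiableAt_iff).2 (differentiableAt_const _)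
  · have h1 : MM k =ᶠ[𝓝 x] fun y => (‖y‖ ^ (k + 1))⁻¹ := by
      filter_upwards [(isOpen_lt continuous_const continuous_norm).mem_nhds h] with y hy
      rw [MM, max_eq_left (le_of_lt hy)]
    have hx0 : x ≠ 0 := by
      intro h0
      rw [h0, norm_zero] at h
      linarith
    refine (h1.differentiableAt_iff).2 ?_
    have h2 : DifferentiableAt ℝ (fun y : E (k + 3) => ‖y‖) x := differentiableAt_id.norm ℝ hx0
    exact (h2.pow (k + 1)).inv (pow_pos (norm_pos_iff.2 hx0) _).ne'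

/-- the classification, in terms of the potential: `K` is a set of almost all points of the
complement at which the identity holds -/
theorem main_class {k : ℕ} {A : Set (E (k + 3))} (hA : volume A ≠ ⊤) (hAm : MeasurableSet A)
    (hpos : volume A ≠ 0) {K : Set (E (k + 3))} (hK : volume (Aᶜ \ K) = 0)
    (hid : ∀ x ∈ K, Q k 0 A x = (volume A).toReal * MM k x) :
    (∃ R : ℝ, 1 ≤ R ∧ A =ᵐ[volume] ball (0 : E (k + 3)) R ∧
      ∀ x ∈ K, ‖x‖ < R → ((k:ℝ) + 1) * ‖x‖ ^ 2 = (k + 3) * R ^ 2 - 2 * R ^ (k + 3)) ∨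
    (∃ r₁ r₂ : ℝ, 0 < r₁ ∧ r₁ < 1 ∧ 1 < r₂ ∧
      ((k:ℝ) + 3) * (r₂ ^ 2 - r₁ ^ 2) = 2 * (r₂ ^ (k + 3) - r₁ ^ (k + 3)) ∧
      A =ᵐ[volume] Ann k r₁ r₂ ∧ ∀ x ∈ K, x ∉ Ann k r₁ r₂) := by
  have hrad := Q_radial hA hAm (F := fun x => (volume A).toReal * MM k x)
    (N := toMeasurable volume (Aᶜ \ K) ∪ sphere 0 1)
    ((measurableSet_toMeasurable _ _).union isClosed_sphere.measurableSet)
    (measure_union_null (by rw [measure_toMeasurable]; exact hK) (Measure.addHaar_sphere _ _ _))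
    (fun x hx => (MM_diff x (fun h => hx (Or.inr h))).const_mul _)
    (fun x y h => by simp only [MM_rad x y h])
    (fun x hxA hxN => hid x (by
      by_contra hxK
      exact hxN (Or.inl (subset_toMeasurable _ _ ⟨hxA, hxK⟩))))
  exact classify hA hAm hpos (Q_Phi hA hrad) hK hid

lemma id_ball {k : ℕ} {A : Set (E (k + 3))} {R : ℝ} (hR : 1 ≤ R)
    (hae : A =ᵐ[volume] ball (0 : E (k + 3)) R) {x : E (k + 3)}
    (hx : ‖x‖ < R → ((k:ℝ) + 1) * ‖x‖ ^ 2 = (k + 3) * R ^ 2 - 2 * R ^ (k + 3)) :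
    Q k 0 A x = (volume A).toReal * MM k x := by
  have hR0 : 0 ≤ R := by linarith
  rw [Q_congr hae, measure_congr hae, Q_ball k hR0, vol_real k hR0, vR, mul_assoc, MM]
  congr 1
  by_cases h : ‖x‖ < R
  · have h1 := hx h
    have h2 : ((k:ℝ) + 3) * R ^ 2 - 2 * R ^ (k + 3) ≤ k + 1 := by
      by_cases h3 : R = 1
      · rw [h3, one_pow, one_pow]; linarith
      · exact (bern hR0 h3).le
    have h3 : ‖x‖ ≤ 1 := by
      by_contra h4
      push Not at h4
      have h5 : (1:ℝ) < ‖x‖ ^ 2 := by nlinarith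
      have h6 : (0:ℝ) < (k:ℝ) + 1 := by positivity
      nlinarith
    rw [PP_in k (norm_nonneg x) h.le, max_eq_right h3, one_pow, inv_one, mul_one]
    field_simp
    linarith
  · push Not at h
    rw [PP_out k hR0 h, max_eq_left (hR.trans h)]
    ring

lemma id_ann {k : ℕ} {A : Set (E (k + 3))} {r₁ r₂ : ℝ} (h0 : 0 < r₁) (h1 : r₁ < 1) (h2 : 1 < r₂)
    (hc : ((k:ℝ) + 3) * (r₂ ^ 2 - r₁ ^ 2) = 2 * (r₂ ^ (k + 3) - r₁ ^ (k + 3)))
    (hae : A =ᵐ[volume] Ann k r₁ r₂) {x : E (k + 3)} (hx : x ∉ Ann k r₁ r₂) :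
    Q k 0 A x = (volume A).toReal * MM k x := by
  have h12 : r₁ ≤ r₂ := by linarith
  have h20 : 0 ≤ r₂ := by linarith
  rw [Q_congr hae, measure_congr hae, Q_Ann k h0.le h12, vol_Ann k h0.le h12, vR, vR, ← mul_sub,
    mul_assoc, MM]
  congr 1
  by_cases h : ‖x‖ ≤ r₁
  · rw [PP_in k (norm_nonneg x) h, PP_in k (norm_nonneg x) (h.trans h12),
      max_eq_right (h.trans h1.le), one_pow, inv_one, mul_one]
    field_simp
    linarith
  · push Not at h
    have h3 : r₂ ≤ ‖x‖ := by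
      by_contra h4
      push Not at h4
      exact hx ⟨h, h4⟩
    rw [PP_out k h0.le h.le, PP_out k h20 h3, max_eq_left (h2.le.trans h3)]
    ring

/-- uniqueness and existence of the outer radius -/
lemma outer (k : ℕ) {r₁ : ℝ} (h0 : 0 < r₁) (h1 : r₁ < 1) : ∃! r₂ : ℝ, 1 < r₂ ∧
    ((k:ℝ) + 3) * (r₂ ^ 2 - r₁ ^ 2) = 2 * (r₂ ^ (k + 3) - r₁ ^ (k + 3)) := by
  set f : ℝ → ℝ := fun r => ((k:ℝ) + 3) * r ^ 2 - 2 * r ^ (k + 3) with hf
  have hfc : Continuous f := by fun_prop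
  have hanti : StrictAntiOn f (Ici 1) := by
    apply strictAntiOn_of_deriv_neg (convex_Ici 1) hfc.continuousOn
    intro r hr
    rw [interior_Ici] at hr
    have hr1 : (1:ℝ) < r := hr
    have h2 : HasDerivAt f (((k:ℝ) + 3) * (2 * r) - 2 * (((k + 3 : ℕ):ℝ) * r ^ (k + 2))) r := by
      have h3 : HasDerivAt f (((k:ℝ) + 3) * (((2:ℕ):ℝ) * r ^ (2 - 1)) -
          2 * (((k + 3 : ℕ):ℝ) * r ^ (k + 3 - 1))) r :=
        ((hasDerivAt_pow 2 r).const_mul ((k:ℝ) + 3)).sub ((hasDerivAt_pow (k + 3) r).const_mul 2)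
      have h4 : k + 3 - 1 = k + 2 := by omega
      rw [h4] at h3
      simpa using h3
    rw [h2.deriv]
    have h4 : r < r ^ (k + 2) := by
      calc r = r ^ 1 := (pow_one r).symm
        _ < r ^ (k + 2) := pow_lt_pow_right₀ hr1 (by omega)
    push_cast
    have h5 : (0:ℝ) < (k:ℝ) + 3 := by positivity
    nlinarith
  have hf1 : f 1 = k + 1 := by simp only [hf]; rw [one_pow, one_pow]; ring
  have hfr : f r₁ < f 1 := by rw [hf1]; exact bern h0.le h1.ne
  have hfr0 : 0 < f r₁ := by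
    have h2 : r₁ ^ (k + 1) ≤ 1 := pow_le_one₀ h0.le h1.le
    have h3 : f r₁ = r₁ ^ 2 * ((k + 3) - 2 * r₁ ^ (k + 1)) := by
      simp only [hf]
      ring
    rw [h3]
    apply mul_pos (by positivity)
    have : (0:ℝ) ≤ k := by positivity
    linarith
  have hfb : f (k + 3) ≤ 0 := by
    have h2 : ((k:ℝ) + 3) ≤ (k + 3) ^ (k + 1) := by
      calc ((k:ℝ) + 3) = (k + 3) ^ 1 := (pow_one _).symm
        _ ≤ (k + 3) ^ (k + 1) := by
          apply pow_le_pow_right₀ _ (by omega)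
          have : (0:ℝ) ≤ k := by positivity
          linarith
    have h3 : f (k + 3) = ((k:ℝ) + 3) ^ 2 * ((k + 3) - 2 * (k + 3) ^ (k + 1)) := by
      simp only [hf]
      ring
    rw [h3]
    apply mul_nonpos_of_nonneg_of_nonpos (by positivity)
    have : (0:ℝ) ≤ k := by positivity
    linarith
  have hk1 : (1:ℝ) ≤ k + 3 := by
    have : (0:ℝ) ≤ k := by positivity
    linarith
  obtain ⟨r₂, hr₂, hfe⟩ := intermediate_value_Icc' hk1 hfc.continuousOn
    (show f r₁ ∈ Icc (f (k + 3)) (f 1) from ⟨hfb.trans hfr0.le, hfr.le⟩)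
  have hr21 : 1 < r₂ := by
    rcases hr₂.1.lt_or_eq with h | h
    · exact h
    · rw [← h] at hfe
      linarith
  refine ⟨r₂, ⟨hr21, ?_⟩, ?_⟩
  · simp only [hf] at hfe
    linarith
  · rintro s ⟨hs1, hs2⟩
    have h5 : f s = f r₂ := by
      rw [hfe]
      simp only [hf]
      linarith
    exact hanti.injOn (show (1:ℝ) ≤ s from hs1.le) (show (1:ℝ) ≤ r₂ from hr21.le) h5

end Pool.Agent.KS6_10.MV
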