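import Pool.Agent.KS6_10.MVRot

/-! A maximum principle and a Liouville type theorem for functions that are submean off the
complement of a set of finite measure. -/

open MeasureTheory Metric Set Filter Topology
open scoped ENNReal

set_option autoImplicit false

namespace Pool.Agent.KS6_10.MV

open Pool.Agent.Y767.PB

/-- maximum principle: a continuous function which is submean where it is positive is not positive -/
theorem maxp {k : ℕ} {f : E (k + 3) → ℝ} (hf : Continuous f) (x₀ : E (k + 3)) {r : ℝ}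
    (h : ∀ x ∈ closedBall x₀ r, 0 < f x → ∃ ρ > 0, ball x ρ ⊆ closedBall x₀ r ∧
      vR k ρ * f x ≤ ∫ z in ball x ρ, f z) : ∀ x ∈ closedBall x₀ r, f x ≤ 0 := by
  intro x₁ hx₁
  by_contra hpos
  push Not at hpos
  obtain ⟨m, hm, hmax⟩ := (isCompact_closedBall x₀ r).exists_isMaxOn ⟨x₁, hx₁⟩ hf.continuousOn
  have hfm : 0 < f m := hpos.trans_le (hmax hx₁)
  have hScomp : IsCompact (closedBall x₀ r ∩ f ⁻¹' {f m}) :=
    (isCompact_closedBall x₀ r).inter_right (isClosed_singleton.preimage hf)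
  obtain ⟨p, hp, hpmax⟩ := hScomp.exists_isMaxOn ⟨m, hm, rfl⟩
    (f := fun z => ‖z - x₀‖) (by fun_prop)
  have hpf : f p = f m := hp.2
  obtain ⟨ρ, hρ, hsub, hint⟩ := h p hp.1 (by rw [hpf]; exact hfm)
  have hle : ∀ z ∈ ball p ρ, f z ≤ f m := fun z hz => hmax (hsub hz)
  have hi : ∫ z in ball p ρ, (f m - f z) ≤ 0 := by
    rw [integral_sub, setIntegral_const, measureReal_def, vol_real k hρ.le, smul_eq_mul]
    · rw [hpf] at hint
      linarith
    · exact int_ball continuous_const p ρ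
    · exact int_ball hf p ρ
  have hz : (fun z => f m - f z) =ᵐ[volume.restrict (ball p ρ)] 0 := by
    have h0 : 0 ≤ᵐ[volume.restrict (ball p ρ)] fun z => f m - f z := by
      filter_upwards [ae_restrict_mem measurableSet_ball] with z hz
      exact sub_nonneg.2 (hle z hz)
    rw [← integral_eq_zero_iff_of_nonneg_ae h0 (int_ball (by fun_prop) p ρ)]
    exact le_antisymm hi (integral_nonneg_of_ae h0)
  have hz2 : EqOn (fun z => f m - f z) (fun _ => (0:ℝ)) (ball p ρ) :=
    Measure.eqOn_open_of_ae_eq hz isOpen_ball (by fun_prop) continuousOn_const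
  -- a direction pointing outwards
  obtain ⟨e, he, hie⟩ : ∃ e : E (k + 3), ‖e‖ = 1 ∧ 0 ≤ (inner ℝ (p - x₀) e : ℝ) := by
    have h1 : ‖(EuclideanSpace.single (0 : Fin (k + 3)) (1:ℝ) : E (k + 3))‖ = 1 := by simp
    rcases le_total 0 (inner ℝ (p - x₀) (EuclideanSpace.single (0 : Fin (k + 3)) (1:ℝ)) : ℝ)
      with h2 | h2
    · exact ⟨_, h1, h2⟩
    · refine ⟨-EuclideanSpace.single (0 : Fin (k + 3)) (1:ℝ), by rw [norm_neg, h1], ?_⟩
      rw [inner_neg_right]
      linarith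
  have hq : p + (ρ / 2) • e ∈ ball p ρ := by
    rw [mem_ball, dist_eq_norm, add_sub_cancel_left, norm_smul, he, Real.norm_of_nonneg (by linarith)]
    linarith
  have hq1 : f (p + (ρ / 2) • e) = f m := by
    have := hz2 hq
    simp only at this
    linarith
  have hq2 := hpmax (show p + (ρ / 2) • e ∈ closedBall x₀ r ∩ f ⁻¹' {f m} from ⟨hsub hq, hq1⟩)
  simp only [mem_ofPred_eq] at hq2
  have hq3 : ‖p + (ρ / 2) • e - x₀‖ ^ 2 ≤ ‖p - x₀‖ ^ 2 := by gcongr
  rw [show p + (ρ / 2) • e - x₀ = (p - x₀) + (ρ / 2) • e by abel, norm_add_sq_real,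
    inner_smul_right, norm_smul, he, Real.norm_of_nonneg (by linarith)] at hq3
  have h5 : 0 ≤ ρ / 2 * inner ℝ (p - x₀) e := by positivity
  have h6 : 0 < (ρ / 2 * 1) ^ 2 := by positivity
  linarith

/-- the constant of the comparison function -/
noncomputable def kap (k : ℕ) : ℝ := ((SS k).toReal * (1 / 2 - 1 / (k + 3)))⁻¹

lemma kap_den (k : ℕ) : 0 < (SS k).toReal * ((1:ℝ) / 2 - 1 / (k + 3)) := by
  have hS : 0 < (SS k).toReal := ENNReal.toReal_pos (SS_ne_zero k) (SS_ne_top k)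
  apply mul_pos hS
  have h2 : (1:ℝ) / (k + 3) < 1 / 2 := by
    apply one_div_lt_one_div_of_lt (by norm_num)
    have : (0:ℝ) ≤ k := by positivity
    linarith
  linarith

lemma kap_pos (k : ℕ) : 0 < kap k := inv_pos.2 (kap_den k)

/-- `v` is submean near its positive points, which have a neighbourhood in `A` -/
def SubM (k : ℕ) (A : Set (E (k + 3))) (v : E (k + 3) → ℝ) : Prop :=
  ∀ x, 0 < v x → ∃ ρ' > 0, volume (ball x ρ' \ A) = 0 ∧
    ∀ ρ, 0 < ρ → ρ < ρ' → vR k ρ * v x ≤ ∫ z in ball x ρ, v z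

lemma Q_nonneg (k : ℕ) (A : Set (E (k + 3))) (x : E (k + 3)) : 0 ≤ Q k 0 A x :=
  integral_nonneg fun _ => Kf_nonneg le_rfl _

/-- local comparison -/
theorem comp {k : ℕ} {A : Set (E (k + 3))} (hA : volume A ≠ ⊤) {v : E (k + 3) → ℝ}
    (hv : Continuous v) (hs : SubM k A v) (x₀ : E (k + 3)) {B : ℝ} (hB : 0 ≤ B)
    (hvB : ∀ z ∈ closedBall x₀ 1, v z ≤ B) :
    v x₀ ≤ B * (kap k * Q k 0 (A ∩ ball x₀ 1) x₀) := by
  have hA' : volume (A ∩ ball x₀ 1) ≠ ⊤ := ne_top_of_le_ne_top hA (measure_mono inter_subset_left)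
  have hQ := Q_cont k hA'
  have hcont : Continuous (fun z => v z - B * (‖z - x₀‖ ^ 2 + kap k * Q k 0 (A ∩ ball x₀ 1) z)) := by
    fun_prop
  have hk := kap_pos k
  have key := maxp hcont x₀ (r := 1) ?_ x₀ (mem_closedBall_self zero_le_one)
  · simp only [sub_self, norm_zero] at key
    have : (0:ℝ) ^ 2 = 0 := by norm_num
    rw [this, zero_add] at key
    linarith
  · intro x hx hfx
    have hQ0 := Q_nonneg k (A ∩ ball x₀ 1) x
    have hb0 : 0 ≤ B * (‖x - x₀‖ ^ 2 + kap k * Q k 0 (A ∩ ball x₀ 1) x) := by positivity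
    have hvx : 0 < v x := by linarith
    have hx1 : ‖x - x₀‖ < 1 := by
      by_contra hcon
      push Not at hcon
      have h1 : 1 ≤ ‖x - x₀‖ ^ 2 + kap k * Q k 0 (A ∩ ball x₀ 1) x := by
        have : 0 ≤ kap k * Q k 0 (A ∩ ball x₀ 1) x := by positivity
        nlinarith
      have h2 : B * 1 ≤ B * (‖x - x₀‖ ^ 2 + kap k * Q k 0 (A ∩ ball x₀ 1) x) :=
        mul_le_mul_of_nonneg_left h1 hB
      have h3 := hvB x hx
      linarith
    obtain ⟨ρ', hρ', hvol, hsm⟩ := hs x hvx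
    set ρ := min (ρ' / 2) (1 - ‖x - x₀‖) with hρdef
    have hρ : 0 < ρ := lt_min (by linarith) (by linarith)
    have hρρ : ρ < ρ' := (min_le_left _ _).trans_lt (by linarith)
    have hsub : ball x ρ ⊆ ball x₀ 1 := by
      apply ball_subset_ball'
      rw [dist_eq_norm]
      have := min_le_right (ρ' / 2) (1 - ‖x - x₀‖)
      linarith
    have hvol' : volume (ball x ρ \ (A ∩ ball x₀ 1)) = 0 := by
      refine measure_mono_null ?_ hvol
      rintro z ⟨hz1, hz2⟩
      exact ⟨ball_subset_ball hρρ.le hz1, fun hz => hz2 ⟨hz, hsub hz1⟩⟩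
    refine ⟨ρ, hρ, hsub.trans ball_subset_closedBall, ?_⟩
    have e1 := lmv k hA' hρ hvol'
    have e2 := quad k x x₀ hρ.le
    have e3 := hsm ρ hρ hρρ
    have e4 : ∫ z in ball x ρ, (v z - B * (‖z - x₀‖ ^ 2 + kap k * Q k 0 (A ∩ ball x₀ 1) z)) =
        (∫ z in ball x ρ, v z) - B * ((∫ z in ball x ρ, ‖z - x₀‖ ^ 2) +
          kap k * ∫ z in ball x ρ, Q k 0 (A ∩ ball x₀ 1) z) := by
      rw [integral_sub, integral_const_mul, integral_add, integral_const_mul]
      · exact int_ball (by fun_prop) x ρ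
      · exact int_ball (by fun_prop) x ρ
      · exact int_ball hv x ρ
      · exact int_ball (by fun_prop) x ρ
    have e5 : kap k * ((SS k).toReal * (1 / 2 - 1 / (k + 3))) = 1 :=
      inv_mul_cancel₀ (kap_den k).ne'
    have e6 : kap k * (vR k ρ * Q k 0 (A ∩ ball x₀ 1) x -
        (SS k).toReal * (1 / 2 - 1 / (k + 3)) * mm k ρ) =
        vR k ρ * (kap k * Q k 0 (A ∩ ball x₀ 1) x) - mm k ρ := by
      linear_combination (-mm k ρ) * e5
    rw [e4, e1, e2, e6]
    nlinarith [e3]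

/-- far away the comparison function is small -/
theorem far (k : ℕ) {A : Set (E (k + 3))} (hA : volume A ≠ ⊤) (hAm : MeasurableSet A) :
    ∃ R₀ : ℝ, 0 ≤ R₀ ∧ ∀ x₀ : E (k + 3), R₀ ≤ ‖x₀‖ → kap k * Q k 0 (A ∩ ball x₀ 1) x₀ ≤ 1 / 2 := by
  have hk := kap_pos k
  have hS : 0 < (SS k).toReal := ENNReal.toReal_pos (SS_ne_zero k) (SS_ne_top k)
  obtain ⟨δ, hδ, hδ2⟩ : ∃ δ : ℝ, 0 < δ ∧ kap k * ((SS k).toReal * (δ ^ 2 / 2)) ≤ 1 / 4 := by
    refine ⟨Real.sqrt (1 / (2 * (kap k * (SS k).toReal))), by positivity, ?_⟩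
    rw [Real.sq_sqrt (by positivity)]
    apply le_of_eq
    field_simp
    norm_num
  have hlim : Tendsto (fun m : ℕ => volume (A \ ball (0 : E (k + 3)) m)) atTop (𝓝 0) := by
    have h1 := tendsto_measure_iInter_atTop (μ := (volume : Measure (E (k + 3))))
      (s := fun m : ℕ => A \ ball (0 : E (k + 3)) m)
      (fun m => (hAm.diff measurableSet_ball).nullMeasurableSet)
      (by
        intro i j hij
        apply sdiff_subset_sdiff_right
        apply ball_subset_ball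
        exact_mod_cast hij)
      ⟨0, ne_top_of_le_ne_top hA (measure_mono sdiff_subset)⟩
    have h2 : (⋂ m : ℕ, A \ ball (0 : E (k + 3)) m) = ∅ := by
      ext z
      simp only [mem_iInter, mem_empty_iff_false, iff_false, not_forall]
      obtain ⟨m, hm⟩ := exists_nat_gt ‖z‖
      exact ⟨m, fun h => h.2 (mem_ball_zero_iff.2 hm)⟩
    rw [h2, measure_empty] at h1
    exact h1
  have hc : (0:ℝ) < (δ ^ (k + 1))⁻¹ := by positivity
  obtain ⟨m, hm⟩ : ∃ m : ℕ, volume (A \ ball (0 : E (k + 3)) m) ≤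
      ENNReal.ofReal (1 / (4 * (kap k * (δ ^ (k + 1))⁻¹))) := by
    have h1 : (0 : ℝ≥0∞) < ENNReal.ofReal (1 / (4 * (kap k * (δ ^ (k + 1))⁻¹))) :=
      ENNReal.ofReal_pos.2 (by positivity)
    obtain ⟨m, hm⟩ := (hlim.eventually (gt_mem_nhds h1)).exists
    exact ⟨m, hm.le⟩
  refine ⟨m + 1, by positivity, fun x₀ hx₀ => ?_⟩
  have hvol : volume (A ∩ ball x₀ 1) ≤ ENNReal.ofReal (1 / (4 * (kap k * (δ ^ (k + 1))⁻¹))) := by
    refine (measure_mono ?_).trans hm
    rintro z ⟨hz1, hz2⟩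
    refine ⟨hz1, fun hz => ?_⟩
    rw [mem_ball, dist_eq_norm] at hz2
    rw [mem_ball_zero_iff] at hz
    have := norm_sub_norm_le x₀ z
    rw [norm_sub_rev] at this
    linarith
  have hle : ∫⁻ y in A ∩ ball x₀ 1, ENNReal.ofReal (Kf k 0 (x₀ - y)) ≤
      SS k * ENNReal.ofReal (δ ^ 2 / 2) + ENNReal.ofReal ((δ ^ (k + 1))⁻¹) *
        ENNReal.ofReal (1 / (4 * (kap k * (δ ^ (k + 1))⁻¹))) := by
    refine (tail (A ∩ ball x₀ 1) (f := fun u => ENNReal.ofReal (Kf k 0 u)) δ
      (ENNReal.ofReal ((δ ^ (k + 1))⁻¹)) ?_ x₀).trans ?_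
    · intro u hu
      apply ENNReal.ofReal_le_ofReal
      have h0 : 0 < ‖u‖ := hδ.trans_le hu
      have h2 : Kf k 0 u = (‖u‖ ^ (k + 1))⁻¹ := by
        rw [Kf_zero, ← Real.rpow_natCast, ← Real.rpow_neg h0.le]
        congr 1
        push_cast
        ring
      rw [h2]
      gcongr
    · rw [K_ball k hδ.le]
      gcongr
  have hQ : Q k 0 (A ∩ ball x₀ 1) x₀ ≤ (SS k).toReal * (δ ^ 2 / 2) + (δ ^ (k + 1))⁻¹ *
      (1 / (4 * (kap k * (δ ^ (k + 1))⁻¹))) := by
    rw [Q_toReal]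
    have hne : SS k * ENNReal.ofReal (δ ^ 2 / 2) ≠ ⊤ :=
      ENNReal.mul_ne_top (SS_ne_top k) ENNReal.ofReal_ne_top
    have hne2 : ENNReal.ofReal ((δ ^ (k + 1))⁻¹) *
        ENNReal.ofReal (1 / (4 * (kap k * (δ ^ (k + 1))⁻¹))) ≠ ⊤ :=
      ENNReal.mul_ne_top ENNReal.ofReal_ne_top ENNReal.ofReal_ne_top
    refine (ENNReal.toReal_mono (ENNReal.add_ne_top.2 ⟨hne, hne2⟩) hle).trans ?_
    rw [ENNReal.toReal_add hne hne2, ENNReal.toReal_mul, ENNReal.toReal_mul,
      ENNReal.toReal_ofReal (by positivity), ENNReal.toReal_ofReal hc.le,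
      ENNReal.toReal_ofReal (by positivity)]
  have h7 : kap k * ((SS k).toReal * (δ ^ 2 / 2) + (δ ^ (k + 1))⁻¹ *
      (1 / (4 * (kap k * (δ ^ (k + 1))⁻¹)))) ≤ 1 / 2 := by
    have h8 : kap k * ((δ ^ (k + 1))⁻¹ * (1 / (4 * (kap k * (δ ^ (k + 1))⁻¹)))) = 1 / 4 := by
      field_simp
    rw [mul_add, h8]
    linarith
  exact (mul_le_mul_of_nonneg_left hQ hk.le).trans h7

/-- Liouville type theorem -/
theorem vanish {k : ℕ} {A : Set (E (k + 3))} (hA : volume A ≠ ⊤) (hAm : MeasurableSet A)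
    {v : E (k + 3) → ℝ} (hv : Continuous v) (hs : SubM k A v)
    {C : ℝ} (hC : 0 ≤ C) (hvC : ∀ x, v x ≤ C * ‖x‖) (x : E (k + 3)) : v x ≤ 0 := by
  obtain ⟨R₀, hR₀, hfar⟩ := far k hA hAm
  have step : ∀ R, R₀ ≤ R → ∀ B, 0 ≤ B → (∀ z ∈ closedBall (0 : E (k + 3)) (R + 1), v z ≤ B) →
      ∀ z ∈ closedBall (0 : E (k + 3)) R, v z ≤ B / 2 := by
    intro R hR B hB hBv z hz
    have hcont : Continuous (fun z => v z - B / 2) := by fun_prop
    have key := maxp hcont 0 (r := R) ?_ z hz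
    · linarith
    · intro x hx hfx
      have hvx : 0 < v x := by linarith
      have hxR : ‖x‖ ≤ R := mem_closedBall_zero_iff.1 hx
      have hxR' : ‖x‖ < R := by
        rcases hxR.lt_or_eq with h | h
        · exact h
        · exfalso
          have h1 := comp hA hv hs x hB (fun z hz => hBv z (by
            rw [mem_closedBall, dist_eq_norm] at hz
            rw [mem_closedBall_zero_iff]
            have := norm_le_norm_add_norm_sub' z x
            linarith))
          have h2 := hfar x (by rw [h]; exact hR)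
          have h3 := mul_le_mul_of_nonneg_left h2 hB
          linarith
      obtain ⟨ρ', hρ', hvol, hsm⟩ := hs x hvx
      set ρ := min (ρ' / 2) (R - ‖x‖) with hρdef
      have hρ : 0 < ρ := lt_min (by linarith) (by linarith)
      have hρρ : ρ < ρ' := (min_le_left _ _).trans_lt (by linarith)
      have hsub : ball x ρ ⊆ closedBall (0 : E (k + 3)) R := by
        apply ball_subset_closedBall.trans
        apply closedBall_subset_closedBall'
        rw [dist_zero_right]
        have := min_le_right (ρ' / 2) (R - ‖x‖)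
        linarith
      refine ⟨ρ, hρ, hsub, ?_⟩
      have e3 := hsm ρ hρ hρρ
      rw [integral_sub, setIntegral_const, measureReal_def, vol_real k hρ.le, smul_eq_mul]
      · nlinarith
      · exact int_ball hv x ρ
      · exact int_ball continuous_const x ρ
  have iter : ∀ m : ℕ, ∀ R, R₀ ≤ R → ∀ z ∈ closedBall (0 : E (k + 3)) R,
      v z ≤ C * (R + m) / 2 ^ m := by
    intro m
    induction m with
    | zero =>
      intro R hR z hz
      rw [mem_closedBall_zero_iff] at hz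
      have := hvC z
      have := mul_le_mul_of_nonneg_left hz hC
      simp
      linarith
    | succ m ih =>
      intro R hR z hz
      have h1 := step R hR (C * (R + 1 + m) / 2 ^ m) (by
        have : 0 ≤ R := hR₀.trans hR
        positivity) (fun z hz => ih (R + 1) (by linarith) z hz) z hz
      refine h1.trans (le_of_eq ?_)
      push_cast
      field_simp
      ring
  have hlim : Tendsto (fun m : ℕ => C * (max R₀ ‖x‖ + m) / 2 ^ m) atTop (𝓝 0) := by
    have h1 : Tendsto (fun m : ℕ => (max R₀ ‖x‖) * ((1:ℝ) / 2) ^ m) atTop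
        (𝓝 ((max R₀ ‖x‖) * 0)) :=
      (tendsto_pow_atTop_nhds_zero_of_lt_one (by norm_num) (by norm_num)).const_mul _
    have h2 : Tendsto (fun m : ℕ => (m:ℝ) * ((1:ℝ) / 2) ^ m) atTop (𝓝 0) :=
      tendsto_self_mul_const_pow_of_lt_one (by norm_num) (by norm_num)
    have h3 := (h1.add h2).const_mul C
    rw [mul_zero, add_zero, mul_zero] at h3
    refine h3.congr fun m => ?_
    rw [one_div, inv_pow]
    field_simp
  exact ge_of_tendsto' hlim fun m => iter m _ (le_max_left _ _) x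
    (mem_closedBall_zero_iff.2 (le_max_right _ _))

end Pool.Agent.KS6_10.MV
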