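import Pool.Agent.KS6_10.MVGrad

/-! Local mean values of potentials and of their angular derivatives. -/

open MeasureTheory Metric Set Filter Topology
open scoped ENNReal

set_option autoImplicit false

namespace Pool.Agent.KS6_10.MV

open Pool.Agent.Y767.PB

/-- the volume of a ball, as a real number -/
noncomputable def vR (k : ℕ) (ρ : ℝ) : ℝ := (SS k).toReal * (ρ ^ (k + 3) / (k + 3))

/-- the second moment of a ball -/
noncomputable def mm (k : ℕ) (ρ : ℝ) : ℝ := ∫ u in ball (0 : E (k + 3)) ρ, ‖u‖ ^ 2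

lemma tr {k : ℕ} (f : E (k + 3) → ℝ) (x : E (k + 3)) (ρ : ℝ) :
    ∫ z in ball x ρ, f z = ∫ u in ball (0 : E (k + 3)) ρ, f (x + u) := by
  rw [← integral_indicator measurableSet_ball, ← integral_indicator measurableSet_ball,
    ← integral_add_left_eq_self _ x]
  congr 1
  ext u
  by_cases h : u ∈ ball (0 : E (k + 3)) ρ
  · rw [indicator_of_mem h, indicator_of_mem]
    simpa using h
  · rw [indicator_of_notMem h, indicator_of_notMem]
    simpa using h

lemma vol_real (k : ℕ) {ρ : ℝ} (hρ : 0 ≤ ρ) (x : E (k + 3)) :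
    (volume (ball x ρ)).toReal = vR k ρ := by
  rw [Measure.addHaar_ball_center, vol_ball' k hρ, ENNReal.toReal_mul,
    ENNReal.toReal_ofReal (by positivity), vR]

lemma vR_pos (k : ℕ) {ρ : ℝ} (hρ : 0 < ρ) : 0 < vR k ρ := by
  have hS : 0 < (SS k).toReal := ENNReal.toReal_pos (SS_ne_zero k) (SS_ne_top k)
  unfold vR
  positivity

lemma int_ball {k : ℕ} {f : E (k + 3) → ℝ} (hf : Continuous f) (x : E (k + 3)) (ρ : ℝ) :
    IntegrableOn f (ball x ρ) volume :=
  (hf.continuousOn.integrableOn_compact (isCompact_closedBall x ρ)).mono_set ball_subset_closedBall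

/-- the potential of a ball, in the form used for Fubini -/
lemma lball (k : ℕ) (x y : E (k + 3)) {ρ : ℝ} (hρ : 0 ≤ ρ) :
    ∫⁻ z in ball x ρ, ENNReal.ofReal (Kf k 0 (z - y)) = SS k * ENNReal.ofReal (PP k ‖x - y‖ ρ) := by
  rw [← ball_pot' k (x - y) hρ, ← lintegral_indicator measurableSet_ball,
    ← lintegral_indicator measurableSet_ball, ← lintegral_sub_left_eq_self _ x]
  congr 1
  ext w
  by_cases h : w ∈ ball (0 : E (k + 3)) ρ
  · rw [indicator_of_mem h, indicator_of_mem, Kf_zero]
    · congr 3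
      abel
    · simpa using h
  · rw [indicator_of_notMem h, indicator_of_notMem]
    simpa using h

lemma Q_toReal (k : ℕ) (A : Set (E (k + 3))) (x : E (k + 3)) :
    Q k 0 A x = (∫⁻ y in A, ENNReal.ofReal (Kf k 0 (x - y))).toReal := by
  unfold Q
  rw [integral_eq_lintegral_of_nonneg_ae]
  · exact Eventually.of_forall fun y => Kf_nonneg le_rfl _
  · exact ((Kf_meas k 0).comp (by fun_prop)).aestronglyMeasurable

lemma PP_nonneg (k : ℕ) {t : ℝ} (ht : 0 ≤ t) {R : ℝ} (hR : 0 ≤ R) : 0 ≤ PP k t R := by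
  unfold PP
  apply intervalIntegral.integral_nonneg hR
  intro q hq
  have : 0 ≤ max t q := le_max_of_le_left ht
  have := hq.1
  positivity

lemma PP_meas (k : ℕ) {R : ℝ} (hR : 0 ≤ R) : Measurable (fun y : E (k + 3) => PP k ‖y‖ R) := by
  have h1 : (fun y : E (k + 3) => PP k ‖y‖ R) = fun y =>
      (ball (0 : E (k + 3)) R).indicator (fun y => ‖y‖ ^ 2 / (k + 3) + (R ^ 2 - ‖y‖ ^ 2) / 2) y +
      ((ball (0 : E (k + 3)) R)ᶜ).indicator
        (fun y => (‖y‖ ^ (k + 1))⁻¹ * (R ^ (k + 3) / (k + 3))) y := by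
    ext y
    by_cases h : y ∈ ball (0 : E (k + 3)) R
    · rw [indicator_of_mem h, indicator_of_notMem (fun h' : y ∈ (ball (0 : E (k + 3)) R)ᶜ => h' h), add_zero,
        PP_in k (norm_nonneg y) (mem_ball_zero_iff.1 h).le]
    · rw [indicator_of_notMem h, indicator_of_mem (show y ∈ (ball (0 : E (k + 3)) R)ᶜ from h),
        zero_add]
      rw [mem_ball_zero_iff, not_lt] at h
      rw [PP_out k hR h]
  rw [h1]
  apply Measurable.add
  · exact Measurable.indicator (by fun_prop) measurableSet_ball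
  · exact Measurable.indicator (by fun_prop) measurableSet_ball.compl

/-- Fubini: the integral of the potential over a ball -/
lemma fub (k : ℕ) {A : Set (E (k + 3))} (hA : volume A ≠ ⊤) (x : E (k + 3)) {ρ : ℝ} (hρ : 0 ≤ ρ) :
    ∫ z in ball x ρ, Q k 0 A z = ∫ y in A, (SS k).toReal * PP k ‖x - y‖ ρ := by
  have hm : Measurable (fun p : E (k + 3) × E (k + 3) => ENNReal.ofReal (Kf k 0 (p.1 - p.2))) :=
    ENNReal.measurable_ofReal.comp ((Kf_meas k 0).comp (by fun_prop))
  simp_rw [Q_toReal]
  rw [integral_toReal]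
  · rw [lintegral_lintegral_swap hm.aemeasurable]
    simp_rw [lball k x _ hρ]
    rw [integral_eq_lintegral_of_nonneg_ae]
    · congr 1
      apply lintegral_congr
      intro y
      rw [ENNReal.ofReal_mul ENNReal.toReal_nonneg, ENNReal.ofReal_toReal (SS_ne_top k)]
    · exact Eventually.of_forall fun y =>
        mul_nonneg ENNReal.toReal_nonneg (PP_nonneg k (norm_nonneg _) hρ)
    · apply Measurable.aestronglyMeasurable
      exact ((PP_meas k hρ).comp (by fun_prop : Measurable fun y => x - y)).const_mul _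
  · exact hm.lintegral_prod_right'.aemeasurable
  · exact Eventually.of_forall fun z => lK_lt k hA z

/-- the local mean value of the potential -/
theorem lmv (k : ℕ) {A : Set (E (k + 3))} (hA : volume A ≠ ⊤) {x : E (k + 3)} {ρ : ℝ} (hρ : 0 < ρ) (hx : volume (ball x ρ \ A) = 0) :
    ∫ z in ball x ρ, Q k 0 A z =
      vR k ρ * Q k 0 A x - (SS k).toReal * (1 / 2 - 1 / (k + 3)) * mm k ρ := by
  set g : E (k + 3) → ℝ := fun y => (SS k).toReal * PP k ‖x - y‖ ρ - vR k ρ * Kf k 0 (x - y) with hg
  have hKi := K_int k hA x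
  have hKb : Integrable (fun y => Kf k 0 (x - y)) (volume.restrict (ball x ρ)) :=
    K_int k measure_ball_lt_top.ne x
  have hout : ∀ y, y ∉ ball x ρ → g y = 0 := by
    intro y hy
    have h1 : ρ ≤ ‖x - y‖ := by
      rw [mem_ball, not_lt, dist_comm, dist_eq_norm] at hy
      exact hy
    have h0 : 0 < ‖x - y‖ := hρ.trans_le h1
    rw [hg]
    simp only
    rw [PP_out k hρ.le h1, Kf_zero, vR]
    have h2 : ‖x - y‖ ^ (2 - ((k + 3 : ℕ) : ℝ)) = (‖x - y‖ ^ (k + 1))⁻¹ := by
      rw [← Real.rpow_natCast, ← Real.rpow_neg h0.le]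
      congr 1
      push_cast
      ring
    rw [h2]
    ring
  have hin : ∀ y ∈ ball x ρ, PP k ‖x - y‖ ρ = (1 / (k + 3) - 1 / 2) * ‖x - y‖ ^ 2 + ρ ^ 2 / 2 := by
    intro y hy
    rw [mem_ball, dist_comm, dist_eq_norm] at hy
    rw [PP_in k (norm_nonneg _) hy.le]
    ring
  have hPb : Integrable (fun y => (SS k).toReal * PP k ‖x - y‖ ρ) (volume.restrict (ball x ρ)) := by
    have h1 : IntegrableOn (fun y => (SS k).toReal * ((1 / (k + 3) - 1 / 2) * ‖x - y‖ ^ 2 +
        ρ ^ 2 / 2)) (ball x ρ) volume := int_ball (by fun_prop) x ρ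
    refine h1.congr_fun (fun y hy => ?_) measurableSet_ball
    simp only
    rw [hin y hy]
  have hgb : Integrable g (volume.restrict (ball x ρ)) := hPb.sub (hKb.const_mul _)
  have hgi : Integrable g (volume.restrict A) := by
    have h1 : Integrable ((ball x ρ).indicator g) volume := (integrable_indicator_iff
      measurableSet_ball).2 hgb
    have h2 : (ball x ρ).indicator g = g := by
      ext y
      by_cases h : y ∈ ball x ρ
      · rw [indicator_of_mem h]
      · rw [indicator_of_notMem h, hout y h]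
    rw [h2] at h1
    exact h1.restrict
  have e1 : ∫ z in ball x ρ, Q k 0 A z = (∫ y in A, g y) + vR k ρ * Q k 0 A x := by
    rw [fub k hA x hρ.le, Q, ← integral_const_mul, ← integral_add hgi (hKi.const_mul _)]
    congr 1
    ext y
    rw [hg]
    ring
  have e2 : ∫ y in A, g y = ∫ y in ball x ρ, g y := by
    have h2 : (ball x ρ).indicator g = g := by
      ext y
      by_cases h : y ∈ ball x ρ
      · rw [indicator_of_mem h]
      · rw [indicator_of_notMem h, hout y h]
    rw [← h2, setIntegral_indicator measurableSet_ball, h2]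
    apply setIntegral_congr_set
    have h3 : (ball x ρ : Set (E (k + 3))) =ᵐ[volume] (A ∩ ball x ρ : Set (E (k + 3))) := by
      rw [inter_comm]
      have h4 : (ball x ρ ∩ A : Set (E (k + 3))) = ball x ρ \ (ball x ρ \ A) := by
        ext y; simp
      rw [h4]
      exact (sdiff_null_ae_eq_self hx).symm
    exact h3.symm
  have e3 : ∫ y in ball x ρ, g y = -((SS k).toReal * (1 / 2 - 1 / (k + 3)) * mm k ρ) := by
    have h1 : ∫ y in ball x ρ, g y = (∫ y in ball x ρ, (SS k).toReal * PP k ‖x - y‖ ρ) -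
        vR k ρ * ∫ y in ball x ρ, Kf k 0 (x - y) := by
      rw [← integral_const_mul, ← integral_sub hPb (hKb.const_mul _)]
    have h2 : ∫ y in ball x ρ, (SS k).toReal * PP k ‖x - y‖ ρ =
        (SS k).toReal * ((1 / (k + 3) - 1 / 2) * mm k ρ + ρ ^ 2 / 2 * vR k ρ) := by
      rw [integral_const_mul]
      congr 1
      rw [setIntegral_congr_fun measurableSet_ball hin, integral_add, integral_const_mul,
        setIntegral_const, measureReal_def, vol_real k hρ.le, smul_eq_mul]
      · rw [tr (fun y => ‖x - y‖ ^ 2) x ρ, mm]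
        simp only [sub_add_cancel_left, norm_neg]
        ring
      · exact int_ball (by fun_prop) x ρ
      · exact int_ball (by fun_prop) x ρ
    have h3 : ∫ y in ball x ρ, Kf k 0 (x - y) = (SS k).toReal * (ρ ^ 2 / 2) := by
      rw [tr (fun y => Kf k 0 (x - y)) x ρ]
      simp only [sub_add_cancel_left]
      have h4 : ∀ u : E (k + 3), Kf k 0 (-u) = Kf k 0 u := by
        intro u
        unfold Kf
        rw [norm_neg]
      simp_rw [h4]
      rw [integral_eq_lintegral_of_nonneg_ae, K_ball k hρ.le, ENNReal.toReal_mul,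
        ENNReal.toReal_ofReal (by positivity)]
      · exact Eventually.of_forall fun y => Kf_nonneg le_rfl _
      · exact (Kf_meas k 0).aestronglyMeasurable
    rw [h1, h2, h3]
    ring
  rw [e1, e2, e3]
  ring

/-- the mean value of the squared distance -/
theorem quad (k : ℕ) (x x₀ : E (k + 3)) {ρ : ℝ} (hρ : 0 ≤ ρ) :
    ∫ z in ball x ρ, ‖z - x₀‖ ^ 2 = vR k ρ * ‖x - x₀‖ ^ 2 + mm k ρ := by
  rw [tr (fun z => ‖z - x₀‖ ^ 2) x ρ]
  have h1 : ∀ u : E (k + 3), ‖x + u - x₀‖ ^ 2 = ‖x - x₀‖ ^ 2 + 2 * inner ℝ (x - x₀) u + ‖u‖ ^ 2 := by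
    intro u
    rw [show x + u - x₀ = (x - x₀) + u by abel, norm_add_sq_real]
  simp_rw [h1]
  have hodd : ∫ u in ball (0 : E (k + 3)) ρ, (inner ℝ (x - x₀) u : ℝ) = 0 := by
    have h2 : ∫ u in ball (0 : E (k + 3)) ρ, (inner ℝ (x - x₀) u : ℝ) =
        ∫ u in ball (0 : E (k + 3)) ρ, (inner ℝ (x - x₀) (-u) : ℝ) := by
      rw [← integral_indicator measurableSet_ball, ← integral_indicator measurableSet_ball,
        ← integral_neg_eq_self]
      congr 1
      ext u
      by_cases h : u ∈ ball (0 : E (k + 3)) ρ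
      · rw [indicator_of_mem h, indicator_of_mem]
        simpa using h
      · rw [indicator_of_notMem h, indicator_of_notMem]
        simpa using h
    simp only [inner_neg_right, integral_neg] at h2
    linarith
  rw [integral_add, integral_add, integral_const_mul, hodd, setIntegral_const, measureReal_def,
    vol_real k hρ, mm]
  · simp
  · exact int_ball (by fun_prop) 0 ρ
  · exact int_ball (by fun_prop) 0 ρ
  · exact int_ball (by fun_prop) 0 ρ
  · exact int_ball (by fun_prop) 0 ρ

end Pool.Agent.KS6_10.MV
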