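import Pool.Agent.KS6_10.MVSph

/-! Classification of the sets with a radial potential that has the prescribed values on the
complement. -/

open MeasureTheory Metric Set Filter Topology
open scoped ENNReal NNReal

set_option autoImplicit false

namespace Pool.Agent.KS6_10.MV

open Pool.Agent.Y767.PB

/-- the annulus -/
def Ann (k : ℕ) (r₁ r₂ : ℝ) : Set (E (k + 3)) := {x | r₁ < ‖x‖ ∧ ‖x‖ < r₂}

lemma Ann_open (k : ℕ) (r₁ r₂ : ℝ) : IsOpen (Ann k r₁ r₂) :=
  (isOpen_lt continuous_const continuous_norm).inter (isOpen_lt continuous_norm continuous_const)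

lemma Ann_meas (k : ℕ) (r₁ r₂ : ℝ) : MeasurableSet (Ann k r₁ r₂) := (Ann_open k r₁ r₂).measurableSet

lemma Q_congr {k : ℕ} {A B : Set (E (k + 3))} (h : A =ᵐ[volume] B) (x : E (k + 3)) :
    Q k 0 A x = Q k 0 B x := setIntegral_congr_set h

lemma Q_ball (k : ℕ) {R : ℝ} (hR : 0 ≤ R) (x : E (k + 3)) :
    Q k 0 (ball 0 R) x = (SS k).toReal * PP k ‖x‖ R := by
  rw [← ball_pot k x hR]
  unfold Q
  simp_rw [Kf_zero]

lemma Ann_ae (k : ℕ) (r₁ r₂ : ℝ) :
    Ann k r₁ r₂ =ᵐ[volume] (ball (0 : E (k + 3)) r₂ \ ball (0 : E (k + 3)) r₁ : Set (E (k + 3))) := by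
  have h1 : Ann k r₁ r₂ = (ball (0 : E (k + 3)) r₂ \ ball (0 : E (k + 3)) r₁) \
      sphere (0 : E (k + 3)) r₁ := by
    ext x
    simp only [Ann, mem_ofPred_eq]
    constructor
    · rintro ⟨h1, h2⟩
      refine ⟨⟨mem_ball_zero_iff.2 h2, fun h => ?_⟩, fun h => ?_⟩
      · rw [mem_ball_zero_iff] at h; linarith
      · rw [mem_sphere_zero_iff_norm] at h; linarith
    · rintro ⟨⟨h1, h2⟩, h3⟩
      rw [mem_ball_zero_iff] at h1 h2
      rw [mem_sphere_zero_iff_norm] at h3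
      push Not at h2
      exact ⟨lt_of_le_of_ne h2 (Ne.symm h3), h1⟩
  rw [h1]
  exact sdiff_null_ae_eq_self (Measure.addHaar_sphere _ _ _)

lemma Q_Ann (k : ℕ) {r₁ r₂ : ℝ} (h0 : 0 ≤ r₁) (h : r₁ ≤ r₂) (x : E (k + 3)) :
    Q k 0 (Ann k r₁ r₂) x = (SS k).toReal * (PP k ‖x‖ r₂ - PP k ‖x‖ r₁) := by
  rw [Q_congr (Ann_ae k r₁ r₂), mul_sub, ← Q_ball k h0, ← Q_ball k (h0.trans h)]
  exact setIntegral_sdiff measurableSet_ball (K_int k measure_ball_lt_top.ne x) (ball_subset_ball h)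

lemma vol_Ann (k : ℕ) {r₁ r₂ : ℝ} (h0 : 0 ≤ r₁) (h : r₁ ≤ r₂) :
    (volume (Ann k r₁ r₂)).toReal = vR k r₂ - vR k r₁ := by
  rw [measure_congr (Ann_ae k r₁ r₂), measure_sdiff (ball_subset_ball h)
    measurableSet_ball.nullMeasurableSet measure_ball_lt_top.ne,
    ENNReal.toReal_sub_of_le (measure_mono (ball_subset_ball h)) measure_ball_lt_top.ne,
    vol_real k h0, vol_real k (h0.trans h)]

lemma Phi_int {k : ℕ} {A : Set (E (k + 3))} (hA : volume A ≠ ⊤) {r : ℝ} (hr : 0 ≤ r) :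
    Integrable (fun y => (max ‖y‖ r ^ (k + 1))⁻¹) (volume.restrict A) := by
  rcases hr.eq_or_lt with h0 | h0
  · subst h0
    refine (K_int k hA 0).congr ?_
    have hy : ∀ᵐ y : E (k + 3) ∂(volume.restrict A), y ≠ 0 := by
      apply ae_restrict_of_ae
      rw [ae_iff]
      simp
    filter_upwards [hy] with y hy
    have h1 : 0 < ‖y‖ := norm_pos_iff.2 hy
    rw [zero_sub, Kf_zero, norm_neg, max_eq_left h1.le, ← Real.rpow_natCast,
      ← Real.rpow_neg h1.le]
    congr 1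
    push_cast
    ring
  · have : IsFiniteMeasure (volume.restrict A) := ⟨by simpa using hA.lt_top⟩
    refine Integrable.of_bound (Measurable.aestronglyMeasurable (by fun_prop)) ((r ^ (k + 1))⁻¹)
      (Eventually.of_forall fun y => ?_)
    have h1 : 0 < max ‖y‖ r := lt_max_of_lt_right h0
    rw [Real.norm_of_nonneg (by positivity)]
    gcongr
    exact le_max_right _ _

lemma out_null {k : ℕ} {A : Set (E (k + 3))} (hA : volume A ≠ ⊤) (hAm : MeasurableSet A) {r : ℝ}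
    (hr : 0 < r) (h : Phi k A r = (volume A).toReal * (r ^ (k + 1))⁻¹) :
    volume (A \ closedBall 0 r) = 0 := by
  have : IsFiniteMeasure (volume.restrict A) := ⟨by simpa using hA.lt_top⟩
  have h0 : ∀ y : E (k + 3), 0 ≤ (r ^ (k + 1))⁻¹ - (max ‖y‖ r ^ (k + 1))⁻¹ := by
    intro y
    rw [sub_nonneg]
    gcongr
    exact le_max_right _ _
  have hi : Integrable (fun y : E (k + 3) => (r ^ (k + 1))⁻¹ - (max ‖y‖ r ^ (k + 1))⁻¹)
      (volume.restrict A) := (integrable_const _).sub (Phi_int hA hr.le)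
  have h1 : ∫ y in A, ((r ^ (k + 1))⁻¹ - (max ‖y‖ r ^ (k + 1))⁻¹) = 0 := by
    rw [integral_sub (integrable_const _) (Phi_int hA hr.le), setIntegral_const, smul_eq_mul,
      measureReal_def]
    unfold Phi at h
    rw [h, sub_self]
  have h2 := (integral_eq_zero_iff_of_nonneg_ae (Eventually.of_forall h0) hi).1 h1
  have h3 := (ae_restrict_iff' hAm).1 h2
  rw [ae_iff] at h3
  refine measure_mono_null ?_ h3
  rintro y ⟨hy1, hy2⟩
  simp only [mem_ofPred_eq, Classical.not_imp]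
  refine ⟨hy1, ne_of_gt ?_⟩
  rw [mem_closedBall_zero_iff, not_le] at hy2
  simp only [Pi.zero_apply]
  rw [max_eq_left hy2.le, sub_pos]
  gcongr

lemma in_null {k : ℕ} {A : Set (E (k + 3))} (hA : volume A ≠ ⊤) (hAm : MeasurableSet A) {r r' : ℝ}
    (hr : 0 ≤ r) (hrr : r < r') (h : Phi k A r = Phi k A r') : volume (A ∩ ball 0 r') = 0 := by
  have hr' : 0 < r' := hr.trans_lt hrr
  have hne : ∀ᵐ y : E (k + 3), y ≠ 0 := by
    rw [ae_iff]
    simp
  have h0 : ∀ᵐ y : E (k + 3) ∂(volume.restrict A),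
      0 ≤ (max ‖y‖ r ^ (k + 1))⁻¹ - (max ‖y‖ r' ^ (k + 1))⁻¹ := by
    filter_upwards [ae_restrict_of_ae hne] with y hy
    have h1 : 0 < ‖y‖ := norm_pos_iff.2 hy
    have h2 : 0 < max ‖y‖ r := lt_max_of_lt_left h1
    rw [sub_nonneg]
    gcongr
  have hi : Integrable (fun y : E (k + 3) => (max ‖y‖ r ^ (k + 1))⁻¹ - (max ‖y‖ r' ^ (k + 1))⁻¹)
      (volume.restrict A) := (Phi_int hA hr).sub (Phi_int hA hr'.le)
  have h1 : ∫ y in A, ((max ‖y‖ r ^ (k + 1))⁻¹ - (max ‖y‖ r' ^ (k + 1))⁻¹) = 0 := by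
    rw [integral_sub (Phi_int hA hr) (Phi_int hA hr'.le)]
    unfold Phi at h
    rw [h, sub_self]
  have h2 := (integral_eq_zero_iff_of_nonneg_ae h0 hi).1 h1
  have h3 := (ae_restrict_iff' hAm).1 h2
  have h4 := h3.and hne
  rw [ae_iff] at h4
  refine measure_mono_null ?_ (measure_union_null h4 (measure_singleton (0 : E (k + 3))))
  rintro y ⟨hy1, hy2⟩
  by_cases hy0 : y = 0
  · right; exact hy0
  left
  simp only [mem_ofPred_eq]
  rintro ⟨h5, -⟩
  have h6 := h5 hy1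
  simp only [Pi.zero_apply] at h6
  rw [mem_ball_zero_iff] at hy2
  have h7 : 0 < ‖y‖ := norm_pos_iff.2 hy0
  have h8 : 0 < max ‖y‖ r := lt_max_of_lt_left h7
  rw [max_eq_right hy2.le, sub_eq_zero] at h6
  have h9 : (r' ^ (k + 1))⁻¹ < (max ‖y‖ r ^ (k + 1))⁻¹ := by
    have h10 : max ‖y‖ r < r' := max_lt hy2 hrr
    gcongr
  exact absurd h6 (ne_of_gt h9)

/-- the strict Bernoulli inequality used to compare the radii -/
lemma bern {k : ℕ} {r : ℝ} (h0 : 0 ≤ r) (h1 : r ≠ 1) :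
    ((k:ℝ) + 3) * r ^ 2 - 2 * r ^ (k + 3) < k + 1 := by
  have hne : r ^ 2 - 1 ≠ 0 := by
    intro h
    have h2 : (r - 1) * (r + 1) = 0 := by linear_combination h
    rcases mul_eq_zero.1 h2 with h3 | h3
    · exact h1 (by linarith)
    · linarith
  have hb := one_add_mul_self_lt_rpow_one_add (s := r ^ 2 - 1) (by nlinarith) hne
    (p := ((k:ℝ) + 3) / 2) (by
      have : (0:ℝ) ≤ k := by positivity
      linarith)
  have h4 : (1 + (r ^ 2 - 1)) ^ (((k:ℝ) + 3) / 2) = r ^ (k + 3) := by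
    rw [show 1 + (r ^ 2 - 1) = r ^ 2 by ring, ← Real.rpow_natCast r 2,
      ← Real.rpow_mul h0, ← Real.rpow_natCast r (k + 3)]
    congr 1
    push_cast
    ring
  rw [h4] at hb
  linarith

/-- the classification -/
theorem classify {k : ℕ} {A : Set (E (k + 3))} (hA : volume A ≠ ⊤) (hAm : MeasurableSet A)
    (hpos : volume A ≠ 0) (hQP : ∀ x, Q k 0 A x = Phi k A ‖x‖) {K : Set (E (k + 3))}
    (hK : volume (Aᶜ \ K) = 0)
    (hid : ∀ x ∈ K, Q k 0 A x = (volume A).toReal * (max ‖x‖ 1 ^ (k + 1))⁻¹) :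
    (∃ R : ℝ, 1 ≤ R ∧ A =ᵐ[volume] ball (0 : E (k + 3)) R ∧
      ∀ x ∈ K, ‖x‖ < R → ((k:ℝ) + 1) * ‖x‖ ^ 2 = (k + 3) * R ^ 2 - 2 * R ^ (k + 3)) ∨
    (∃ r₁ r₂ : ℝ, 0 < r₁ ∧ r₁ < 1 ∧ 1 < r₂ ∧
      ((k:ℝ) + 3) * (r₂ ^ 2 - r₁ ^ 2) = 2 * (r₂ ^ (k + 3) - r₁ ^ (k + 3)) ∧
      A =ᵐ[volume] Ann k r₁ r₂ ∧ ∀ x ∈ K, x ∉ Ann k r₁ r₂) := by
  have hS : 0 < (SS k).toReal := ENNReal.toReal_pos (SS_ne_zero k) (SS_ne_top k)
  have hV : 0 < (volume A).toReal := ENNReal.toReal_pos hpos hA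
  -- the two consequences of the identity
  have hout : ∀ x ∈ K, 1 ≤ ‖x‖ → volume (A \ closedBall 0 ‖x‖) = 0 := by
    intro x hx h1
    apply out_null hA hAm (by linarith)
    rw [← hQP, hid x hx, max_eq_left h1]
  have hin : ∀ x ∈ K, ∀ x' ∈ K, ‖x‖ < ‖x'‖ → ‖x'‖ ≤ 1 → volume (A ∩ ball 0 ‖x'‖) = 0 := by
    intro x hx x' hx' h1 h2
    apply in_null hA hAm (norm_nonneg x) h1
    rw [← hQP, ← hQP, hid x hx, hid x' hx', max_eq_right h2, max_eq_right (h1.le.trans h2)]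
  -- the outer radius
  have hne : ∃ x ∈ K, 1 ≤ ‖x‖ := by
    by_contra hcon
    push Not at hcon
    have h1 : (univ : Set (E (k + 3))) ⊆ A ∪ (Aᶜ \ K) ∪ ball 0 1 := by
      intro x _
      by_cases hxA : x ∈ A
      · left; left; exact hxA
      · by_cases hxK : x ∈ K
        · right; exact mem_ball_zero_iff.2 (hcon x hxK)
        · left; right; exact ⟨hxA, hxK⟩
    have h2 : volume (univ : Set (E (k + 3))) < ⊤ := by
      refine (measure_mono h1).trans_lt ?_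
      refine (measure_union_le _ _).trans_lt (ENNReal.add_lt_top.2 ⟨?_, measure_ball_lt_top⟩)
      refine (measure_union_le _ _).trans_lt (ENNReal.add_lt_top.2 ⟨hA.lt_top, ?_⟩)
      rw [hK]
      exact ENNReal.zero_lt_top
    exact h2.ne (measure_univ_of_isAddLeftInvariant _)
  set S₂ : Set ℝ := {t | ∃ x ∈ K, 1 ≤ ‖x‖ ∧ ‖x‖ = t} with hS₂
  have hS₂ne : S₂.Nonempty := by
    obtain ⟨x, hx, h1⟩ := hne
    exact ⟨‖x‖, x, hx, h1, rfl⟩
  have hS₂lb : ∀ t ∈ S₂, 1 ≤ t := by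
    rintro t ⟨x, _, h1, rfl⟩
    exact h1
  have hS₂bdd : BddBelow S₂ := ⟨1, hS₂lb⟩
  set R := sInf S₂ with hR
  have hR1 : 1 ≤ R := le_csInf hS₂ne hS₂lb
  have hRle : ∀ x ∈ K, 1 ≤ ‖x‖ → R ≤ ‖x‖ := fun x hx h1 => csInf_le hS₂bdd ⟨x, hx, h1, rfl⟩
  have hRout : volume (A \ closedBall 0 R) = 0 := by
    have h1 : A \ closedBall 0 R ⊆ ⋃ m : ℕ, A \ closedBall 0 (R + 1 / ((m:ℝ) + 1)) := by
      rintro y ⟨hy1, hy2⟩
      rw [mem_closedBall_zero_iff, not_le] at hy2
      obtain ⟨m, hm⟩ := exists_nat_one_div_lt (sub_pos.2 hy2)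
      refine mem_iUnion.2 ⟨m, hy1, fun h => ?_⟩
      rw [mem_closedBall_zero_iff] at h
      linarith
    refine measure_mono_null h1 (measure_iUnion_null fun m => ?_)
    have hm : (0:ℝ) < 1 / ((m:ℝ) + 1) := by positivity
    obtain ⟨t, ⟨x, hx, h2, rfl⟩, h3⟩ := exists_lt_of_csInf_lt hS₂ne
      (show sInf S₂ < R + 1 / ((m:ℝ) + 1) by rw [← hR]; linarith)
    refine measure_mono_null ?_ (hout x hx h2)
    exact sdiff_subset_sdiff_right (closedBall_subset_closedBall h3.le)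
  have hR0 : 0 ≤ R := by linarith
  by_cases hcase : ∀ x ∈ K, ∀ x' ∈ K, ‖x‖ ≤ 1 → ‖x'‖ ≤ 1 → ‖x‖ = ‖x'‖
  · -- the case of a ball
    left
    have hnull : volume (ball 0 R \ A) = 0 := by
      have h1 : ∃ t : ℝ, ∀ x ∈ K, ‖x‖ < R → ‖x‖ = t := by
        by_cases h2 : ∃ x₁ ∈ K, ‖x₁‖ < R
        · obtain ⟨x₁, hx₁, h3⟩ := h2
          refine ⟨‖x₁‖, fun x hx h4 => ?_⟩
          have h5 : ‖x₁‖ ≤ 1 := by
            by_contra h6
            push Not at h6
            have := hRle x₁ hx₁ h6.le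
            linarith
          have h6 : ‖x‖ ≤ 1 := by
            by_contra h7
            push Not at h7
            have := hRle x hx h7.le
            linarith
          exact hcase x hx x₁ hx₁ h6 h5
        · refine ⟨0, fun x hx h4 => absurd ⟨x, hx, h4⟩ h2⟩
      obtain ⟨t, ht⟩ := h1
      refine measure_mono_null ?_ (measure_union_null hK
        (Measure.addHaar_sphere (volume : Measure (E (k + 3))) 0 t))
      rintro x ⟨hx1, hx2⟩
      by_cases hxK : x ∈ K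
      · right
        rw [mem_sphere_zero_iff_norm]
        exact ht x hxK (mem_ball_zero_iff.1 hx1)
      · left; exact ⟨hx2, hxK⟩
    have hae : A =ᵐ[volume] ball (0 : E (k + 3)) R := by
      rw [ae_eq_set]
      refine ⟨?_, hnull⟩
      refine measure_mono_null ?_ (measure_union_null hRout
        (Measure.addHaar_sphere (volume : Measure (E (k + 3))) 0 R))
      rintro x ⟨hx1, hx2⟩
      by_cases h1 : ‖x‖ = R
      · right; exact mem_sphere_zero_iff_norm.2 h1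
      · left
        refine ⟨hx1, fun h2 => hx2 ?_⟩
        rw [mem_closedBall_zero_iff] at h2
        exact mem_ball_zero_iff.2 (lt_of_le_of_ne h2 h1)
    refine ⟨R, hR1, hae, fun x hx hxR => ?_⟩
    have hx1 : ‖x‖ ≤ 1 := by
      by_contra h1
      push Not at h1
      have := hRle x hx h1.le
      linarith
    have h2 := hid x hx
    rw [Q_congr hae, measure_congr hae, Q_ball k hR0, vol_real k hR0, max_eq_right hx1, one_pow,
      inv_one, mul_one, vR, PP_in k (norm_nonneg x) hxR.le] at h2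
    have h3 := mul_left_cancel₀ hS.ne' h2
    field_simp at h3
    linarith
  · -- the case of an annulus
    right
    push Not at hcase
    obtain ⟨x₀, hx₀, x₀', hx₀', h1, h1', hne⟩ := hcase
    obtain ⟨x, hx, x', hx', hx1, hlt⟩ : ∃ x ∈ K, ∃ x' ∈ K, ‖x'‖ ≤ 1 ∧ ‖x‖ < ‖x'‖ := by
      rcases lt_or_gt_of_ne hne with h | h
      · exact ⟨x₀, hx₀, x₀', hx₀', h1', h⟩
      · exact ⟨x₀', hx₀', x₀, hx₀, h1, h⟩
    set S₁ : Set ℝ := {t | ∃ z ∈ K, ‖z‖ ≤ 1 ∧ ‖z‖ = t} with hS₁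
    have hS₁ne : S₁.Nonempty := ⟨‖x'‖, x', hx', hx1, rfl⟩
    have hS₁ub : ∀ t ∈ S₁, t ≤ 1 := by
      rintro t ⟨z, _, h1, rfl⟩
      exact h1
    have hS₁bdd : BddAbove S₁ := ⟨1, hS₁ub⟩
    set r₁ := sSup S₁ with hr₁
    have hr₁1 : r₁ ≤ 1 := csSup_le hS₁ne hS₁ub
    have hler₁ : ∀ z ∈ K, ‖z‖ ≤ 1 → ‖z‖ ≤ r₁ := fun z hz h => le_csSup hS₁bdd ⟨z, hz, h, rfl⟩
    have hxr₁ : ‖x‖ < r₁ := hlt.trans_le (hler₁ x' hx' hx1)
    have hr₁0 : 0 < r₁ := (norm_nonneg x).trans_lt hxr₁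
    have hinn : volume (A ∩ ball 0 r₁) = 0 := by
      have h2 : A ∩ ball 0 r₁ ⊆ ⋃ m : ℕ, A ∩ ball 0 (r₁ - 1 / ((m:ℝ) + 1)) := by
        rintro y ⟨hy1, hy2⟩
        rw [mem_ball_zero_iff] at hy2
        obtain ⟨m, hm⟩ := exists_nat_one_div_lt (sub_pos.2 hy2)
        refine mem_iUnion.2 ⟨m, hy1, ?_⟩
        rw [mem_ball_zero_iff]
        linarith
      refine measure_mono_null h2 (measure_iUnion_null fun m => ?_)
      have hm : (0:ℝ) < 1 / ((m:ℝ) + 1) := by positivity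
      obtain ⟨t, ⟨z, hz, h3, rfl⟩, h4⟩ := exists_lt_of_lt_csSup hS₁ne
        (show max (r₁ - 1 / ((m:ℝ) + 1)) ‖x‖ < sSup S₁ by
          rw [← hr₁]
          exact max_lt (by linarith) hxr₁)
      refine measure_mono_null ?_ (hin x hx z hz ((le_max_right _ _).trans_lt h4) h3)
      exact inter_subset_inter_right _ (ball_subset_ball ((le_max_left _ _).trans h4.le))
    have hKA : ∀ z ∈ K, z ∉ Ann k r₁ R := by
      rintro z hz ⟨h2, h3⟩
      by_cases h4 : ‖z‖ ≤ 1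
      · have := hler₁ z hz h4
        linarith
      · push Not at h4
        have := hRle z hz h4.le
        linarith
    have hae : A =ᵐ[volume] Ann k r₁ R := by
      rw [ae_eq_set]
      constructor
      · refine measure_mono_null ?_ (measure_union_null (measure_union_null hRout hinn)
          (measure_union_null (Measure.addHaar_sphere (volume : Measure (E (k + 3))) 0 R)
            (Measure.addHaar_sphere (volume : Measure (E (k + 3))) 0 r₁)))
        rintro y ⟨hy1, hy2⟩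
        by_cases h2 : ‖y‖ = R
        · right; left; exact mem_sphere_zero_iff_norm.2 h2
        by_cases h3 : ‖y‖ = r₁
        · right; right; exact mem_sphere_zero_iff_norm.2 h3
        left
        by_cases h4 : ‖y‖ < R
        · right
          refine ⟨hy1, mem_ball_zero_iff.2 ?_⟩
          by_contra h5
          push Not at h5
          exact hy2 ⟨lt_of_le_of_ne h5 (Ne.symm h3), h4⟩
        · left
          refine ⟨hy1, fun h5 => h4 ?_⟩
          rw [mem_closedBall_zero_iff] at h5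
          exact lt_of_le_of_ne h5 h2
      · refine measure_mono_null ?_ hK
        rintro y ⟨hy1, hy2⟩
        exact ⟨hy2, fun hyK => hKA y hyK hy1⟩
    have hr₁R : r₁ ≤ R := hr₁1.trans hR1
    have hVe : (volume A).toReal = vR k R - vR k r₁ := by
      rw [measure_congr hae, vol_Ann k hr₁0.le hr₁R]
    have hcond : ((k:ℝ) + 3) * (R ^ 2 - r₁ ^ 2) = 2 * (R ^ (k + 3) - r₁ ^ (k + 3)) := by
      have h2 := hid x hx
      rw [hVe, Q_congr hae, Q_Ann k hr₁0.le hr₁R, max_eq_right (hlt.le.trans hx1), one_pow, inv_one,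
        mul_one, vR, vR, PP_in k (norm_nonneg x) (hxr₁.le.trans hr₁R),
        PP_in k (norm_nonneg x) hxr₁.le, ← mul_sub] at h2
      have h3 := mul_left_cancel₀ hS.ne' h2
      field_simp at h3
      linarith
    have hlt2 : r₁ < R := by
      rcases hr₁R.lt_or_eq with h2 | h2
      · exact h2
      · rw [hVe, h2, sub_self] at hV
        exact absurd hV (lt_irrefl _)
    have hr₁lt : r₁ < 1 := by
      rcases hr₁1.lt_or_eq with h2 | h2
      · exact h2
      · exfalso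
        have h3 := bern (k := k) hR0 (by linarith [hlt2] : R ≠ 1)
        rw [h2] at hcond
        have : (1:ℝ) ^ (k + 3) = 1 := one_pow _
        rw [this] at hcond
        linarith
    have hRlt : 1 < R := by
      rcases hR1.lt_or_eq with h2 | h2
      · exact h2
      · exfalso
        have h3 := bern (k := k) hr₁0.le hr₁lt.ne
        rw [← h2] at hcond
        have : (1:ℝ) ^ (k + 3) = 1 := one_pow _
        rw [this] at hcond
        linarith
    exact ⟨r₁, R, hr₁0, hr₁lt, hRlt, hcond, hae, hKA⟩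

end Pool.Agent.KS6_10.MV
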