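import Pool.Agent.KS6_10.MVMean

/-! Rotations in a plane, the angular derivative of the potential and its local mean values. -/

open MeasureTheory Metric Set Filter Topology
open scoped ENNReal

set_option autoImplicit false

namespace Pool.Agent.KS6_10.MV

open Pool.Agent.Y767.PB

section rot

variable {n : ℕ}

/-- the infinitesimal rotation in the plane of `a`, `b` -/
noncomputable def Ja (a b z : E n) : E n := (inner ℝ a z : ℝ) • b - (inner ℝ b z : ℝ) • a

/-- rotation by the angle `t` in the plane of `a`, `b` -/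
noncomputable def Rt (a b : E n) (t : ℝ) : E n →ₗ[ℝ] E n where
  toFun z := z + ((Real.cos t - 1) * (inner ℝ a z : ℝ) - Real.sin t * (inner ℝ b z : ℝ)) • a +
    ((Real.cos t - 1) * (inner ℝ b z : ℝ) + Real.sin t * (inner ℝ a z : ℝ)) • b
  map_add' x y := by
    simp only [inner_add_right]
    module
  map_smul' c x := by
    simp only [inner_smul_right, RingHom.id_apply]
    module

lemma Rt_apply (a b : E n) (t : ℝ) (z : E n) : Rt a b t z =
    z + ((Real.cos t - 1) * (inner ℝ a z : ℝ) - Real.sin t * (inner ℝ b z : ℝ)) • a +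
    ((Real.cos t - 1) * (inner ℝ b z : ℝ) + Real.sin t * (inner ℝ a z : ℝ)) • b := rfl

variable {a b : E n} (ha : ‖a‖ = 1) (hb : ‖b‖ = 1) (hab : (inner ℝ a b : ℝ) = 0)
include ha hb hab

lemma Rt_norm (t : ℝ) (z : E n) : ‖Rt a b t z‖ = ‖z‖ := by
  have hba : (inner ℝ b a : ℝ) = 0 := by rw [real_inner_comm]; exact hab
  have haa : (inner ℝ a a : ℝ) = 1 := by rw [real_inner_self_eq_norm_sq, ha, one_pow]
  have hbb : (inner ℝ b b : ℝ) = 1 := by rw [real_inner_self_eq_norm_sq, hb, one_pow]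
  have h1 : ‖Rt a b t z‖ ^ 2 = ‖z‖ ^ 2 := by
    rw [Rt_apply, ← real_inner_self_eq_norm_sq, ← real_inner_self_eq_norm_sq]
    simp only [inner_add_left, inner_add_right, inner_smul_left, inner_smul_right, haa, hbb, hab,
      hba, real_inner_comm z a, real_inner_comm z b, RCLike.conj_to_real]
    have hs := Real.sin_sq_add_cos_sq t
    have e : ∀ α β c s N : ℝ, s ^ 2 + c ^ 2 = 1 →
        N + ((c - 1) * α - s * β) * α + ((c - 1) * β + s * α) * β +
        (((c - 1) * α - s * β) * (α + ((c - 1) * α - s * β) * 1 + ((c - 1) * β + s * α) * 0)) +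
        (((c - 1) * β + s * α) * (β + ((c - 1) * α - s * β) * 0 + ((c - 1) * β + s * α) * 1)) = N := by
      intro α β c s N h
      have h2 : s ^ 2 = 1 - c ^ 2 := by linarith
      ring_nf
      rw [h2]
      ring
    have h3 := e (inner ℝ z a) (inner ℝ z b) (Real.cos t) (Real.sin t) (inner ℝ z z) hs
    linarith
  exact (sq_eq_sq₀ (norm_nonneg _) (norm_nonneg _)).1 h1

/-- the rotation as an isometric equivalence -/
noncomputable def Re (t : ℝ) : E n ≃ₗᵢ[ℝ] E n :=
  LinearIsometry.toLinearIsometryEquiv ⟨Rt a b t, Rt_norm ha hb hab t⟩ rfl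

lemma Re_apply (t : ℝ) (z : E n) : Re ha hb hab t z = Rt a b t z := rfl

lemma Rt_deriv (t : ℝ) (z : E n) : HasDerivAt (fun s => Rt a b s z) (Ja a b (Rt a b t z)) t := by
  have hba : (inner ℝ b a : ℝ) = 0 := by rw [real_inner_comm]; exact hab
  have haa : (inner ℝ a a : ℝ) = 1 := by rw [real_inner_self_eq_norm_sq, ha, one_pow]
  have hbb : (inner ℝ b b : ℝ) = 1 := by rw [real_inner_self_eq_norm_sq, hb, one_pow]
  have h1 : HasDerivAt (fun s : ℝ => (Real.cos s - 1) * (inner ℝ a z : ℝ) -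
      Real.sin s * (inner ℝ b z : ℝ)) (-Real.sin t * (inner ℝ a z : ℝ) -
      Real.cos t * (inner ℝ b z : ℝ)) t :=
    (((Real.hasDerivAt_cos t).sub_const 1).mul_const _).sub ((Real.hasDerivAt_sin t).mul_const _)
  have h2 : HasDerivAt (fun s : ℝ => (Real.cos s - 1) * (inner ℝ b z : ℝ) +
      Real.sin s * (inner ℝ a z : ℝ)) (-Real.sin t * (inner ℝ b z : ℝ) +
      Real.cos t * (inner ℝ a z : ℝ)) t :=
    (((Real.hasDerivAt_cos t).sub_const 1).mul_const _).add ((Real.hasDerivAt_sin t).mul_const _)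
  have h3 := ((h1.smul_const a).const_add z).add (h2.smul_const b)
  have h4 : Ja a b (Rt a b t z) = (-Real.sin t * (inner ℝ a z : ℝ) -
      Real.cos t * (inner ℝ b z : ℝ)) • a + (-Real.sin t * (inner ℝ b z : ℝ) +
      Real.cos t * (inner ℝ a z : ℝ)) • b := by
    rw [Ja, Rt_apply]
    simp only [inner_add_right, inner_smul_right, haa, hbb, hab, hba]
    module
  rw [h4]
  exact h3

end rot

lemma Ja_cont {n : ℕ} (a b : E n) : Continuous (Ja a b) := by
  unfold Ja
  fun_prop

lemma Ja_norm {n : ℕ} {a b : E n} (ha : ‖a‖ = 1) (hb : ‖b‖ = 1) (z : E n) :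
    ‖Ja a b z‖ ≤ 2 * ‖z‖ := by
  unfold Ja
  refine (norm_sub_le _ _).trans ?_
  rw [norm_smul, norm_smul, ha, hb, mul_one, mul_one]
  have h1 := norm_inner_le_norm (𝕜 := ℝ) a z
  have h2 := norm_inner_le_norm (𝕜 := ℝ) b z
  rw [ha, one_mul] at h1
  rw [hb, one_mul] at h2
  linarith

/-- the angular derivative of the potential -/
noncomputable def Th (k : ℕ) (A : Set (E (k + 3))) (a b : E (k + 3)) (x : E (k + 3)) : ℝ :=
  DQ k 0 A x (Ja a b x)

lemma Th_cont (k : ℕ) {A : Set (E (k + 3))} (hA : volume A ≠ ⊤) (a b : E (k + 3)) :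
    Continuous (Th k A a b) := (DQ_cont k hA).clm_apply (Ja_cont a b)

lemma Th_bdd (k : ℕ) {A : Set (E (k + 3))} (hA : volume A ≠ ⊤) {a b : E (k + 3)} (ha : ‖a‖ = 1)
    (hb : ‖b‖ = 1) (x : E (k + 3)) :
    |Th k A a b x| ≤ ((k + 1) * ((SS k).toReal + (volume A).toReal)) * (2 * ‖x‖) := by
  rw [← Real.norm_eq_abs, Th]
  refine (ContinuousLinearMap.le_opNorm _ _).trans ?_
  exact mul_le_mul (DQ_bdd k hA x) (Ja_norm ha hb x) (norm_nonneg _) (by positivity)

lemma Q_rot_deriv (k : ℕ) {A : Set (E (k + 3))} (hA : volume A ≠ ⊤) {a b : E (k + 3)}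
    (ha : ‖a‖ = 1) (hb : ‖b‖ = 1) (hab : (inner ℝ a b : ℝ) = 0) (t : ℝ) (z : E (k + 3)) :
    HasDerivAt (fun s => Q k 0 A (Rt a b s z)) (Th k A a b (Rt a b t z)) t := by
  have h := HasFDerivAt.comp_hasDerivAt (l := Q k 0 A) (f := fun s => Rt a b s z)
    (l' := DQ k 0 A (Rt a b t z)) t (Q_hasFDerivAt k hA (Rt a b t z)) (Rt_deriv ha hb hab t z)
  exact h

lemma Rt_zero {n : ℕ} (a b z : E n) : Rt a b 0 z = z := by
  rw [Rt_apply, Real.cos_zero, Real.sin_zero]
  simp

/-- the local mean value property of the angular derivative -/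
theorem lmv_Th (k : ℕ) {A : Set (E (k + 3))} (hA : volume A ≠ ⊤) {a b : E (k + 3)}
    (ha : ‖a‖ = 1) (hb : ‖b‖ = 1) (hab : (inner ℝ a b : ℝ) = 0) {x : E (k + 3)} {ρ ρ' : ℝ}
    (hρ : 0 < ρ) (hρ' : ρ < ρ') (hx : volume (ball x ρ' \ A) = 0) :
    ∫ z in ball x ρ, Th k A a b z = vR k ρ * Th k A a b x := by
  -- derivative of the integral
  have hT := Th_cont k hA a b
  have hQ := Q_cont k hA
  have hRc : ∀ t, Continuous (fun z => Rt a b t z) := fun t =>
    (Re ha hb hab t).continuous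
  have d1 : HasDerivAt (fun t => ∫ z in ball x ρ, Q k 0 A (Rt a b t z))
      (∫ z in ball x ρ, Th k A a b (Rt a b 0 z)) 0 := by
    refine (hasDerivAt_integral_of_dominated_loc_of_deriv_le (𝕜 := ℝ) (s := univ)
      (F := fun t z => Q k 0 A (Rt a b t z)) (F' := fun t z => Th k A a b (Rt a b t z))
      (bound := fun _ => ((k + 1) * ((SS k).toReal + (volume A).toReal)) * (2 * (‖x‖ + ρ)))
      univ_mem ?_ ?_ ?_ ?_ ?_ ?_).2
    · exact Eventually.of_forall fun t => (hQ.comp (hRc t)).aestronglyMeasurable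
    · exact int_ball (hQ.comp (hRc 0)) x ρ
    · exact (hT.comp (hRc 0)).aestronglyMeasurable
    · filter_upwards [ae_restrict_mem measurableSet_ball] with z hz t _
      rw [Real.norm_eq_abs]
      refine (Th_bdd k hA ha hb _).trans ?_
      rw [Rt_norm ha hb hab]
      have h1 : ‖z‖ ≤ ‖x‖ + ρ := by
        rw [mem_ball, dist_eq_norm] at hz
        have := norm_le_norm_add_norm_sub' z x
        linarith
      gcongr
    · have : IsFiniteMeasure (volume.restrict (ball x ρ)) := ⟨by simpa using measure_ball_lt_top⟩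
      exact integrable_const _
    · exact Eventually.of_forall fun z t _ => Q_rot_deriv k hA ha hb hab t z
  simp_rw [Rt_zero] at d1
  -- the explicit value
  have e1 : ∀ᶠ t in 𝓝 (0:ℝ), ∫ z in ball x ρ, Q k 0 A (Rt a b t z) =
      vR k ρ * Q k 0 A (Rt a b t x) - (SS k).toReal * (1 / 2 - 1 / (k + 3)) * mm k ρ := by
    have hc : ContinuousAt (fun t => Rt a b t x) 0 := (Rt_deriv ha hb hab 0 x).continuousAt
    have h0 : Tendsto (fun t => Rt a b t x) (𝓝 0) (𝓝 x) := by
      have := hc.tendsto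
      rwa [Rt_zero] at this
    filter_upwards [h0 (ball_mem_nhds x (sub_pos.2 hρ'))] with t ht
    have h1 : volume (ball (Rt a b t x) ρ \ A) = 0 := by
      refine measure_mono_null (sdiff_subset_sdiff_left ?_) hx
      apply ball_subset_ball'
      rw [mem_preimage, mem_ball] at ht
      linarith
    rw [← lmv k hA hρ h1]
    have h2 := (Re ha hb hab t).measurePreserving.setIntegral_preimage_emb
      (Re ha hb hab t).toHomeomorph.measurableEmbedding (Q k 0 A) (ball (Rt a b t x) ρ)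
    rw [← h2]
    have h3 : (Re ha hb hab t) ⁻¹' (ball (Rt a b t x) ρ) = ball x ρ := by
      ext z
      rw [mem_preimage, mem_ball, mem_ball, ← Re_apply ha hb hab, (Re ha hb hab t).dist_map]
    rw [h3]
    rfl
  have d2 : HasDerivAt (fun t => vR k ρ * Q k 0 A (Rt a b t x) -
      (SS k).toReal * (1 / 2 - 1 / (k + 3)) * mm k ρ) (vR k ρ * Th k A a b (Rt a b 0 x)) 0 :=
    ((Q_rot_deriv k hA ha hb hab 0 x).const_mul _).sub_const _
  rw [Rt_zero] at d2
  exact (d1.congr_of_eventuallyEq (e1.mono fun t ht => ht.symm)).unique d2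

end Pool.Agent.KS6_10.MV
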