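import Pool.Agent.KS6_10.MVSym

/-! The mean value over the unit sphere at the points of the sphere, and the potential of a set
with radial potential. -/

open MeasureTheory Metric Set Filter Topology
open scoped ENNReal NNReal Pointwise

set_option autoImplicit false

namespace Pool.Agent.KS6_10.MV

open Pool.Agent.Y767.PB

lemma sph_point (k : ℕ) (x : sphere (0 : E (k + 3)) 1) :
    (volume : Measure (E (k + 3))).toSphere {x} = 0 := by
  rw [Measure.toSphere_apply' _ (measurableSet_singleton x)]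
  have h1 : (ℝ ∙ (x : E (k + 3))) ≠ ⊤ := by
    intro h
    have h2 := finrank_span_singleton (K := ℝ) (v := (x : E (k + 3))) (by
      intro h0
      have := mem_sphere_zero_iff_norm.1 x.2
      rw [h0, norm_zero] at this
      exact zero_ne_one this)
    rw [h, finrank_top, finrank_euclideanSpace, Fintype.card_fin] at h2
    omega
  have h2 := Measure.addHaar_submodule (volume : Measure (E (k + 3))) (ℝ ∙ (x : E (k + 3))) h1
  have h3 : (Ioo (0:ℝ) 1 • ((fun y : sphere (0 : E (k + 3)) 1 => (y : E (k + 3))) '' {x}) :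
      Set (E (k + 3))) ⊆ (ℝ ∙ (x : E (k + 3)) : Submodule ℝ (E (k + 3))) := by
    rintro _ ⟨c, hc, _, ⟨y, hy, rfl⟩, rfl⟩
    rw [mem_singleton_iff] at hy
    subst hy
    exact Submodule.smul_mem _ _ (Submodule.mem_span_singleton_self _)
  rw [measure_mono_null h3 h2, mul_zero]

/-- the integral of the kernel over the sphere, at the points of the sphere -/
theorem sph_l_one (k : ℕ) (x : E (k + 3)) (hx : ‖x‖ = 1) :
    ∫⁻ ω : sphere (0 : E (k + 3)) 1, ENNReal.ofReal (‖x - ω‖ ^ (2 - ((k + 3 : ℕ) : ℝ)))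
        ∂((volume : Measure (E (k + 3))).toSphere) = SS k := by
  set μ := (volume : Measure (E (k + 3))).toSphere with hμ
  set s : ℕ → ℝ := fun m => 1 - 1 / ((m:ℝ) + 1) with hs
  have hs0 : ∀ m, 0 ≤ s m := by
    intro m
    have : 1 / ((m:ℝ) + 1) ≤ 1 := by
      rw [div_le_one (by positivity)]
      have : (0:ℝ) ≤ m := by positivity
      linarith
    simp only [hs]
    linarith
  have hs1 : ∀ m, s m < 1 := by
    intro m
    have : 0 < 1 / ((m:ℝ) + 1) := by positivity
    simp only [hs]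
    linarith
  have hst : Tendsto s atTop (𝓝 1) := by
    have h1 := (tendsto_one_div_add_atTop_nhds_zero_nat (𝕜 := ℝ)).const_sub 1
    rw [sub_zero] at h1
    exact h1
  set f : ℕ → sphere (0 : E (k + 3)) 1 → ℝ≥0∞ := fun m ω =>
    ENNReal.ofReal (‖s m • x - ω‖ ^ (2 - ((k + 3 : ℕ) : ℝ))) with hf
  have hfm : ∀ m, Measurable (f m) := by
    intro m
    exact ENNReal.measurable_ofReal.comp (Measurable.pow_const (by fun_prop) _)
  have hfi : ∀ m, ∫⁻ ω, f m ω ∂μ = SS k := by
    intro m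
    have hn : ‖s m • x‖ = s m := by rw [norm_smul, hx, mul_one, Real.norm_of_nonneg (hs0 m)]
    have h1 := sph_l k (s m • x) (by rw [hn]; exact (hs1 m).ne)
    rw [hf]
    simp only
    rw [h1, hn, max_eq_right (hs1 m).le, one_pow, inv_one, ENNReal.ofReal_one, mul_one]
  have hexp : 2 - ((k + 3 : ℕ) : ℝ) ≤ 0 := by
    push_cast
    have : (0:ℝ) ≤ k := by positivity
    linarith
  have hae : ∀ᵐ ω : sphere (0 : E (k + 3)) 1 ∂μ, x ≠ (ω : E (k + 3)) := by
    have hpt := sph_point k ⟨x, mem_sphere_zero_iff_norm.2 hx⟩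
    rw [← hμ] at hpt
    rw [ae_iff]
    refine measure_mono_null ?_ hpt
    intro ω hω
    simp only [ne_eq, not_not, mem_ofPred_eq] at hω
    rw [mem_singleton_iff]
    exact Subtype.ext hω.symm
  have hlim : ∀ᵐ ω ∂μ, Tendsto (fun m => f m ω) atTop
      (𝓝 (ENNReal.ofReal (‖x - ω‖ ^ (2 - ((k + 3 : ℕ) : ℝ))))) := by
    filter_upwards [hae] with ω hω
    apply ENNReal.tendsto_ofReal
    have h1 : Tendsto (fun m => ‖s m • x - (ω : E (k + 3))‖) atTop (𝓝 ‖(1:ℝ) • x - ω‖) :=
      ((hst.smul_const x).sub_const _).norm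
    rw [one_smul] at h1
    exact h1.rpow_const (Or.inl (norm_ne_zero_iff.2 (sub_ne_zero.2 hω)))
  have hfin : ∫⁻ ω, ENNReal.ofReal (‖x - ω‖ ^ (2 - ((k + 3 : ℕ) : ℝ))) ∂μ ≤ SS k := by
    calc ∫⁻ ω, ENNReal.ofReal (‖x - ω‖ ^ (2 - ((k + 3 : ℕ) : ℝ))) ∂μ
        = ∫⁻ ω, liminf (fun m => f m ω) atTop ∂μ := by
          apply lintegral_congr_ae
          filter_upwards [hlim] with ω hω
          exact hω.liminf_eq.symm
      _ ≤ liminf (fun m => ∫⁻ ω, f m ω ∂μ) atTop := lintegral_liminf_le hfm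
      _ = SS k := by simp_rw [hfi]; exact liminf_const _
  have hdom := tendsto_lintegral_of_dominated_convergence
    (fun ω : sphere (0 : E (k + 3)) 1 => ENNReal.ofReal ((1 / 2) ^ (2 - ((k + 3 : ℕ) : ℝ))) *
      ENNReal.ofReal (‖x - ω‖ ^ (2 - ((k + 3 : ℕ) : ℝ)))) (μ := μ) hfm (by
        intro m
        filter_upwards [hae] with ω hω
        rw [hf]
        simp only
        rw [← ENNReal.ofReal_mul (by positivity), ← Real.mul_rpow (by norm_num) (norm_nonneg _)]
        apply ENNReal.ofReal_le_ofReal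
        have h0 : 0 < ‖x - (ω : E (k + 3))‖ := norm_pos_iff.2 (sub_ne_zero.2 hω)
        apply Real.rpow_le_rpow_of_nonpos (by positivity) _ hexp
        have h1 : ‖x - (ω : E (k + 3))‖ ≤ ‖x - s m • x‖ + ‖s m • x - ω‖ := norm_sub_le_norm_sub_add_norm_sub _ _ _
        have h2 : ‖x - s m • x‖ = 1 - s m := by
          have h5 : x - s m • x = (1 - s m) • x := by module
          rw [h5, norm_smul, hx, mul_one, Real.norm_of_nonneg (by linarith [hs1 m])]
        have h3 : 1 - s m ≤ ‖s m • x - (ω : E (k + 3))‖ := by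
          have h4 := norm_sub_norm_le (ω : E (k + 3)) (s m • x)
          rw [norm_smul, hx, mul_one, Real.norm_of_nonneg (hs0 m), mem_sphere_zero_iff_norm.1 ω.2,
            norm_sub_rev] at h4
          exact h4
        linarith) (by
        rw [lintegral_const_mul' _ _ ENNReal.ofReal_ne_top]
        exact ENNReal.mul_ne_top ENNReal.ofReal_ne_top (ne_top_of_le_ne_top (SS_ne_top k) hfin))
    hlim
  simp_rw [hfi] at hdom
  exact tendsto_nhds_unique hdom tendsto_const_nhds

/-- the integral of the kernel over the unit sphere -/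
theorem sph_l_all (k : ℕ) (x : E (k + 3)) :
    ∫⁻ ω : sphere (0 : E (k + 3)) 1, ENNReal.ofReal (‖x - ω‖ ^ (2 - ((k + 3 : ℕ) : ℝ)))
        ∂((volume : Measure (E (k + 3))).toSphere) =
      SS k * ENNReal.ofReal ((max ‖x‖ 1 ^ (k + 1))⁻¹) := by
  by_cases hx : ‖x‖ = 1
  · rw [sph_l_one k x hx, hx, max_self, one_pow, inv_one, ENNReal.ofReal_one, mul_one]
  · exact sph_l k x hx

/-- the mean over the unit sphere -/
theorem sph_mean_all (k : ℕ) (x : E (k + 3)) :
    (⨍ y : sphere (0 : E (k + 3)) 1, ‖x - (y : E (k + 3))‖ ^ (2 - ((k + 3 : ℕ):ℝ))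
      ∂((volume : Measure (E (k + 3))).toSphere)) = (max ‖x‖ 1 ^ (k + 1))⁻¹ := by
  have hm : 0 < max ‖x‖ 1 := lt_max_of_lt_right one_pos
  have hS : 0 < (SS k).toReal := ENNReal.toReal_pos (SS_ne_zero k) (SS_ne_top k)
  rw [average_eq, measureReal_def, sph_univ, integral_eq_lintegral_of_nonneg_ae, sph_l_all k x,
    ENNReal.toReal_mul, ENNReal.toReal_ofReal (by positivity), smul_eq_mul]
  · field_simp
  · exact Eventually.of_forall fun y => Real.rpow_nonneg (norm_nonneg _) _
  · apply Measurable.aestronglyMeasurable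
    exact Measurable.pow_const (by fun_prop) _

/-- the integral of the kernel over a centred sphere -/
lemma sph_scaled (k : ℕ) (y : E (k + 3)) {r : ℝ} (hr : 0 < r) :
    ∫⁻ ω : sphere (0 : E (k + 3)) 1, ENNReal.ofReal (Kf k 0 (r • (ω : E (k + 3)) - y))
        ∂((volume : Measure (E (k + 3))).toSphere) =
      SS k * ENNReal.ofReal ((max ‖y‖ r ^ (k + 1))⁻¹) := by
  have h1 : ∀ ω : sphere (0 : E (k + 3)) 1, ENNReal.ofReal (Kf k 0 (r • (ω : E (k + 3)) - y)) =
      ENNReal.ofReal ((r ^ (k + 1))⁻¹) *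
        ENNReal.ofReal (‖r⁻¹ • y - ω‖ ^ (2 - ((k + 3 : ℕ) : ℝ))) := by
    intro ω
    rw [← ENNReal.ofReal_mul (by positivity), Kf_zero]
    congr 1
    have h2 : r • (ω : E (k + 3)) - y = -(r • (r⁻¹ • y - ω)) := by
      rw [smul_sub, smul_smul, mul_inv_cancel₀ hr.ne', one_smul]
      abel
    rw [h2, norm_neg, norm_smul, Real.norm_of_nonneg hr.le,
      Real.mul_rpow hr.le (norm_nonneg _)]
    congr 1
    rw [← Real.rpow_natCast, ← Real.rpow_neg hr.le]
    congr 1
    push_cast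
    ring
  simp_rw [h1]
  rw [lintegral_const_mul' _ _ ENNReal.ofReal_ne_top, sph_l_all, mul_left_comm,
    ← ENNReal.ofReal_mul (by positivity)]
  congr 2
  rw [← mul_inv, ← mul_pow]
  congr 2
  rw [norm_smul, norm_inv, Real.norm_of_nonneg hr.le, mul_max_of_nonneg _ _ hr.le, mul_one,
    mul_inv_cancel_left₀ hr.ne']

/-- the potential of a radial density at distance `r` from the origin -/
noncomputable def Phi (k : ℕ) (A : Set (E (k + 3))) (r : ℝ) : ℝ :=
  ∫ y in A, (max ‖y‖ r ^ (k + 1))⁻¹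

/-- a radial potential is given by the integral of the radial means of the kernel -/
theorem Q_Phi {k : ℕ} {A : Set (E (k + 3))} (hA : volume A ≠ ⊤)
    (hrad : ∀ x y, ‖x‖ = ‖y‖ → Q k 0 A x = Q k 0 A y) (x : E (k + 3)) :
    Q k 0 A x = Phi k A ‖x‖ := by
  rcases (norm_nonneg x).eq_or_lt with h0 | h0
  · have hx : x = 0 := norm_eq_zero.1 h0.symm
    subst hx
    unfold Q Phi
    have hy : ∀ᵐ y : E (k + 3) ∂(volume.restrict A), y ≠ 0 := by
      apply ae_restrict_of_ae
      rw [ae_iff]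
      simp
    apply integral_congr_ae
    filter_upwards [hy] with y hy
    have h1 : 0 < ‖y‖ := norm_pos_iff.2 hy
    rw [zero_sub, Kf_zero, norm_neg, norm_zero, max_eq_left h1.le, ← Real.rpow_natCast,
      ← Real.rpow_neg h1.le]
    congr 1
    push_cast
    ring
  · have hS := SS_ne_top k
    have hm : Measurable (fun p : sphere (0 : E (k + 3)) 1 × E (k + 3) =>
        ENNReal.ofReal (Kf k 0 (‖x‖ • (p.1 : E (k + 3)) - p.2))) :=
      ENNReal.measurable_ofReal.comp ((Kf_meas k 0).comp (by fun_prop))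
    have h1 : ∀ ω : sphere (0 : E (k + 3)) 1,
        ∫⁻ y in A, ENNReal.ofReal (Kf k 0 (‖x‖ • (ω : E (k + 3)) - y)) =
          ENNReal.ofReal (Q k 0 A x) := by
      intro ω
      rw [hrad x (‖x‖ • (ω : E (k + 3))) (by
        rw [norm_smul, norm_norm, mem_sphere_zero_iff_norm.1 ω.2, mul_one]), Q_toReal,
        ENNReal.ofReal_toReal (lK_lt k hA _).ne]
    have h2 : ∫⁻ ω : sphere (0 : E (k + 3)) 1, (∫⁻ y in A,
        ENNReal.ofReal (Kf k 0 (‖x‖ • (ω : E (k + 3)) - y)))
        ∂((volume : Measure (E (k + 3))).toSphere) = SS k * ENNReal.ofReal (Q k 0 A x) := by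
      simp_rw [h1]
      rw [lintegral_const, sph_univ, mul_comm]
    have h3 : ∫⁻ ω : sphere (0 : E (k + 3)) 1, (∫⁻ y in A,
        ENNReal.ofReal (Kf k 0 (‖x‖ • (ω : E (k + 3)) - y)))
        ∂((volume : Measure (E (k + 3))).toSphere) =
        SS k * ∫⁻ y in A, ENNReal.ofReal ((max ‖y‖ ‖x‖ ^ (k + 1))⁻¹) := by
      rw [lintegral_lintegral_swap hm.aemeasurable]
      simp_rw [sph_scaled k _ h0]
      rw [lintegral_const_mul' _ _ hS]
    rw [h2] at h3
    have h4 := (ENNReal.mul_right_inj (SS_ne_zero k) hS).1 h3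
    unfold Phi
    rw [integral_eq_lintegral_of_nonneg_ae, ← h4, ENNReal.toReal_ofReal (Q_nonneg k A x)]
    · exact Eventually.of_forall fun y => by
        have : 0 ≤ max ‖y‖ ‖x‖ := le_max_of_le_left (norm_nonneg _)
        positivity
    · apply Measurable.aestronglyMeasurable
      fun_prop

end Pool.Agent.KS6_10.MV
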