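import Pool.Agent.KS6_10.MVMax

/-! A set of finite measure whose potential is a radial function on its complement has a radial
potential. -/

open MeasureTheory Metric Set Filter Topology
open scoped ENNReal NNReal

set_option autoImplicit false

namespace Pool.Agent.KS6_10.MV

open Pool.Agent.Y767.PB

/-- every two vectors of the same length are related by a rotation in a plane -/
lemma exists_rot {k : ℕ} (x y : E (k + 3)) (h : ‖x‖ = ‖y‖) : ∃ a b : E (k + 3), ‖a‖ = 1 ∧ ‖b‖ = 1 ∧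
    (inner ℝ a b : ℝ) = 0 ∧ ∃ t, Rt a b t x = y := by
  -- the direction of `x`
  obtain ⟨a, ha, hxa⟩ : ∃ a : E (k + 3), ‖a‖ = 1 ∧ x = ‖x‖ • a := by
    by_cases hx : x = 0
    · refine ⟨EuclideanSpace.single (0 : Fin (k + 3)) (1:ℝ), by simp, ?_⟩
      rw [hx]; simp
    · have h0 : 0 < ‖x‖ := norm_pos_iff.2 hx
      refine ⟨‖x‖⁻¹ • x, ?_, ?_⟩
      · rw [norm_smul, norm_inv, norm_norm, inv_mul_cancel₀ h0.ne']
      · rw [smul_smul, mul_inv_cancel₀ h0.ne', one_smul]
  have haa : (inner ℝ a a : ℝ) = 1 := by rw [real_inner_self_eq_norm_sq, ha, one_pow]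
  -- a unit vector orthogonal to `a` with `y` in the span
  obtain ⟨b, hb, hab, d, hd, hy⟩ : ∃ b : E (k + 3), ‖b‖ = 1 ∧ (inner ℝ a b : ℝ) = 0 ∧
      ∃ d : ℝ, 0 ≤ d ∧ y = (inner ℝ a y : ℝ) • a + d • b := by
    by_cases hw : y - (inner ℝ a y : ℝ) • a = 0
    · obtain ⟨b, hb, hb0⟩ : ∃ b ∈ (ℝ ∙ a)ᗮ, b ≠ 0 := by
        apply Submodule.exists_mem_ne_zero_of_ne_bot
        intro hbot
        have h1 := Submodule.finrank_add_finrank_orthogonal (ℝ ∙ a)
        rw [hbot, finrank_bot, finrank_euclideanSpace, Fintype.card_fin] at h1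
        have h2 := finrank_span_singleton (K := ℝ) (v := a) (by
          intro h0; rw [h0, norm_zero] at ha; exact zero_ne_one ha)
        omega
      have hb1 : 0 < ‖b‖ := norm_pos_iff.2 hb0
      refine ⟨‖b‖⁻¹ • b, ?_, ?_, 0, le_rfl, ?_⟩
      · rw [norm_smul, norm_inv, norm_norm, inv_mul_cancel₀ hb1.ne']
      · rw [inner_smul_right, (Submodule.mem_orthogonal_singleton_iff_inner_right).1 hb, mul_zero]
      · rw [zero_smul, add_zero]
        exact sub_eq_zero.1 hw
    · have hw1 : 0 < ‖y - (inner ℝ a y : ℝ) • a‖ := norm_pos_iff.2 hw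
      refine ⟨‖y - (inner ℝ a y : ℝ) • a‖⁻¹ • (y - (inner ℝ a y : ℝ) • a), ?_, ?_,
        ‖y - (inner ℝ a y : ℝ) • a‖, hw1.le, ?_⟩
      · rw [norm_smul, norm_inv, norm_norm, inv_mul_cancel₀ hw1.ne']
      · rw [inner_smul_right, inner_sub_right, inner_smul_right, haa]
        ring
      · rw [smul_smul, mul_inv_cancel₀ hw1.ne', one_smul]
        abel
  refine ⟨a, b, ha, hb, hab, ?_⟩
  have hba : (inner ℝ b a : ℝ) = 0 := by rw [real_inner_comm]; exact hab
  have hbb : (inner ℝ b b : ℝ) = 1 := by rw [real_inner_self_eq_norm_sq, hb, one_pow]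
  set c : ℝ := inner ℝ a y with hc
  have hcd : c ^ 2 + d ^ 2 = ‖x‖ ^ 2 := by
    rw [h, ← real_inner_self_eq_norm_sq, hy]
    simp only [inner_add_left, inner_add_right, inner_smul_left, inner_smul_right, haa, hbb, hab,
      hba, RCLike.conj_to_real]
    ring
  obtain ⟨t, h1, h2⟩ : ∃ t : ℝ, ‖x‖ * Real.cos t = c ∧ ‖x‖ * Real.sin t = d := by
    by_cases hx : ‖x‖ = 0
    · refine ⟨0, ?_, ?_⟩
      · rw [hx] at hcd ⊢
        nlinarith [sq_nonneg c, sq_nonneg d]
      · rw [hx] at hcd ⊢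
        nlinarith [sq_nonneg c, sq_nonneg d]
    · have h0 : 0 < ‖x‖ := lt_of_le_of_ne (norm_nonneg _) (Ne.symm hx)
      have h3 : (c / ‖x‖) ^ 2 + (d / ‖x‖) ^ 2 = 1 := by
        rw [div_pow, div_pow, ← add_div, hcd, div_self (by positivity)]
      refine ⟨Real.arccos (c / ‖x‖), ?_, ?_⟩
      · rw [Real.cos_arccos]
        · field_simp
        · nlinarith [sq_nonneg (d / ‖x‖)]
        · nlinarith [sq_nonneg (d / ‖x‖)]
      · rw [Real.sin_arccos, show 1 - (c / ‖x‖) ^ 2 = (d / ‖x‖) ^ 2 by linarith,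
          Real.sqrt_sq (by positivity)]
        field_simp
  refine ⟨t, ?_⟩
  have hax : (inner ℝ a x : ℝ) = ‖x‖ := by
    conv_lhs => rw [hxa]
    rw [inner_smul_right, haa, mul_one]
  have hbx : (inner ℝ b x : ℝ) = 0 := by
    conv_lhs => rw [hxa]
    rw [inner_smul_right, hba, mul_zero]
  rw [Rt_apply, hax, hbx, hy, ← h1, ← h2]
  conv_lhs => rw [hxa]
  rw [norm_smul, norm_norm, ha, mul_one]
  module

/-- the angular derivative vanishes almost everywhere off `A` -/
lemma Th_ae {k : ℕ} {A : Set (E (k + 3))} (hA : volume A ≠ ⊤) (hAm : MeasurableSet A)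
    {F : E (k + 3) → ℝ} {N : Set (E (k + 3))} (hN : MeasurableSet N) (hN0 : volume N = 0)
    (hF : ∀ x, x ∉ N → DifferentiableAt ℝ F x) (hrad : ∀ x y, ‖x‖ = ‖y‖ → F x = F y)
    (hQ : ∀ x, x ∉ A → x ∉ N → Q k 0 A x = F x) {a b : E (k + 3)}
    (ha : ‖a‖ = 1) (hb : ‖b‖ = 1) (hab : (inner ℝ a b : ℝ) = 0) :
    volume {x | x ∉ A ∧ Th k A a b x ≠ 0} = 0 := by
  set s : Set (E (k + 3)) := Aᶜ \ N with hs
  have hsm : MeasurableSet s := hAm.compl.diff hN
  have h1 : ApproximatesLinearOn (fun x => (Q k 0 A x - F x) • a)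
      (0 : E (k + 3) →L[ℝ] E (k + 3)) s (0 : ℝ≥0) := by
    intro x hx y hy
    have h0 : Q k 0 A x - F x = 0 := sub_eq_zero.2 (hQ x hx.1 hx.2)
    have h0' : Q k 0 A y - F y = 0 := sub_eq_zero.2 (hQ y hy.1 hy.2)
    simp [h0, h0']
  have h2 := h1.norm_fderiv_sub_le (volume : Measure (E (k + 3))) hsm
    (fun x => (DQ k 0 A x - fderiv ℝ F x).smulRight a) (by
      intro x hx
      exact (((Q_hasFDerivAt k hA x).sub (hF x hx.2).hasFDerivAt).smul_const a).hasFDerivWithinAt)
  have h3 : ∀ᵐ x : E (k + 3), x ∈ s → Th k A a b x = 0 := by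
    rw [ae_restrict_iff' hsm] at h2
    filter_upwards [h2] with x hx hxs
    have h4 := hx hxs
    rw [sub_zero] at h4
    have h5 : (DQ k 0 A x - fderiv ℝ F x).smulRight a = 0 := by
      rw [← nnnorm_eq_zero]
      exact le_antisymm h4 (by positivity)
    have h6 : DQ k 0 A x (Ja a b x) = fderiv ℝ F x (Ja a b x) := by
      have h7 : ((DQ k 0 A x - fderiv ℝ F x).smulRight a) (Ja a b x) = 0 := by rw [h5]; rfl
      rw [ContinuousLinearMap.smulRight_apply, smul_eq_zero] at h7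
      have h8 := h7.resolve_right (by
        intro h0; rw [h0, norm_zero] at ha; exact zero_ne_one ha)
      exact sub_eq_zero.1 h8
    have h7 : HasDerivAt (fun t => F (Rt a b t x)) (fderiv ℝ F x (Ja a b x)) 0 := by
      have h8 : HasFDerivAt F (fderiv ℝ F x) (Rt a b 0 x) := by
        rw [Rt_zero]
        exact (hF x hxs.2).hasFDerivAt
      have h9 := Rt_deriv ha hb hab 0 x
      rw [Rt_zero] at h9
      exact HasFDerivAt.comp_hasDerivAt (l := F) (f := fun s => Rt a b s x) 0 h8 h9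
    have h8 : (fun t => F (Rt a b t x)) = fun _ => F x := by
      ext t
      exact hrad _ _ (Rt_norm ha hb hab t x)
    rw [h8] at h7
    rw [Th, h6]
    exact h7.unique (hasDerivAt_const _ _)
  rw [ae_iff] at h3
  refine measure_mono_null ?_ (measure_union_null h3 hN0)
  rintro x ⟨hx1, hx2⟩
  by_cases hxN : x ∈ N
  · right; exact hxN
  · left
    simp only [mem_ofPred_eq, Classical.not_imp]
    exact ⟨⟨hx1, hxN⟩, hx2⟩

/-- A set of finite measure whose Newtonian potential agrees almost everywhere on the complement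
with a radial function (differentiable off a null set) has a radial potential. -/
theorem Q_radial {k : ℕ} {A : Set (E (k + 3))} (hA : volume A ≠ ⊤) (hAm : MeasurableSet A)
    {F : E (k + 3) → ℝ} {N : Set (E (k + 3))} (hN : MeasurableSet N) (hN0 : volume N = 0)
    (hF : ∀ x, x ∉ N → DifferentiableAt ℝ F x) (hrad : ∀ x y, ‖x‖ = ‖y‖ → F x = F y)
    (hQ : ∀ x, x ∉ A → x ∉ N → Q k 0 A x = F x) (x y : E (k + 3)) (hxy : ‖x‖ = ‖y‖) :
    Q k 0 A x = Q k 0 A y := by
  obtain ⟨a, b, ha, hb, hab, t, ht⟩ := exists_rot x y hxy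
  have hae := Th_ae hA hAm hN hN0 hF hrad hQ ha hb hab
  have hT := Th_cont k hA a b
  have hnear : ∀ z, Th k A a b z ≠ 0 → ∃ ρ' > 0, volume (ball z ρ' \ A) = 0 := by
    intro z hz
    have h1 : ∀ᶠ w in 𝓝 z, Th k A a b w ≠ 0 := hT.continuousAt.eventually_ne hz
    obtain ⟨ρ', hρ', hsub⟩ := Metric.eventually_nhds_iff_ball.1 h1
    refine ⟨ρ', hρ', measure_mono_null (t := {x | x ∉ A ∧ Th k A a b x ≠ 0}) ?_ hae⟩
    intro w hw
    exact ⟨hw.2, hsub w hw.1⟩
  have hsub : SubM k A (fun z => |Th k A a b z|) := by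
    intro z hz
    obtain ⟨ρ', hρ', hvol⟩ := hnear z (abs_pos.1 hz)
    refine ⟨ρ', hρ', hvol, fun ρ hρ hρρ => ?_⟩
    have h1 := lmv_Th k hA ha hb hab hρ hρρ hvol
    have h2 : vR k ρ * |Th k A a b z| = |∫ w in ball z ρ, Th k A a b w| := by
      rw [h1, abs_mul, abs_of_pos (vR_pos k hρ)]
    simp only
    rw [h2]
    exact abs_integral_le_integral_abs
  have hzero : ∀ z, Th k A a b z = 0 := by
    intro z
    have h1 := vanish hA hAm hT.abs hsub
      (C := ((k + 1) * ((SS k).toReal + (volume A).toReal)) * 2) (by positivity)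
      (fun x => by
        have := Th_bdd k hA ha hb x
        linarith) z
    exact abs_nonpos_iff.1 h1
  have hconst := is_const_of_deriv_eq_zero (f := fun s => Q k 0 A (Rt a b s x))
    (fun s => (Q_rot_deriv k hA ha hb hab s x).differentiableAt)
    (fun s => by rw [(Q_rot_deriv k hA ha hb hab s x).deriv, hzero]) 0 t
  rw [Rt_zero, ht] at hconst
  exact hconst

end Pool.Agent.KS6_10.MV
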