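import Pool.Agent.KS6_10.Sob
import Pool.Agent.KS6_10.Fejer
import Pool.Agent.KS6_10.Jac

/-!
# The sum over the box for one pair of moduli
-/

set_option autoImplicit false

namespace Pool.Agent.KS6_10

open Finset Complex

/-- two-dimensional finite Poisson summation -/
theorem poisson2 (q P1 P2 J A B : ℕ) [NeZero q] [NeZero P1] [NeZero P2] (hJ : 0 < J) (hA : 0 < A) (hB : 0 < B)
    (hQA : J * A = q * P1) (hQB : J * B = q * P2) (F : ZMod q → ZMod q → ℂ) (H K : ℕ) (hH : q ≤ A * (H + 1)) (hK : q ≤ B * (K + 1)) :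
    ∑ a ∈ range (J * A), ∑ b ∈ range (J * B), (fk J (J * A) (a : ℤ) : ℂ) * ((fk J (J * B) (b : ℤ) : ℂ) * F (a : ZMod q) (b : ZMod q)) =
      ((A : ℂ) * B / q ^ 2) * ∑ κ ∈ Icc (-(K : ℤ)) K, ((max 0 (1 - B * |(κ : ℝ)| / q) : ℝ) : ℂ) *
        ∑ h ∈ Icc (-(H : ℤ)) H, ((max 0 (1 - A * |(h : ℝ)| / q) : ℝ) : ℂ) *
          ∑ α : ZMod q, ∑ β : ZMod q, F α β * ec q ((h : ZMod q) * α + (κ : ZMod q) * β) := by
  have e1 : ∀ a : ℕ, ∑ b ∈ range (J * B), (fk J (J * A) (a : ℤ) : ℂ) * ((fk J (J * B) (b : ℤ) : ℂ) * F (a : ZMod q) (b : ZMod q)) =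
      (fk J (J * A) (a : ℤ) : ℂ) * (((B : ℂ) / q) * ∑ κ ∈ Icc (-(K : ℤ)) K, ((max 0 (1 - B * |(κ : ℝ)| / q) : ℝ) : ℂ) *
        ∑ β : ZMod q, F (a : ZMod q) β * ec q ((κ : ZMod q) * β)) := by
    intro a
    rw [← mul_sum, poisson q P2 J B hJ hB hQB (fun β => F (a : ZMod q) β) K hK]
  rw [sum_congr rfl fun a _ => e1 a]
  rw [poisson q P1 J A hJ hA hQA (fun α => ((B : ℂ) / q) * ∑ κ ∈ Icc (-(K : ℤ)) K, ((max 0 (1 - B * |(κ : ℝ)| / q) : ℝ) : ℂ) *
        ∑ β : ZMod q, F α β * ec q ((κ : ZMod q) * β)) H hH]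
  have e2 : ∀ (h : ℤ) (α : ZMod q), (((B : ℂ) / q) * ∑ κ ∈ Icc (-(K : ℤ)) K, ((max 0 (1 - B * |(κ : ℝ)| / q) : ℝ) : ℂ) *
        ∑ β : ZMod q, F α β * ec q ((κ : ZMod q) * β)) * ec q ((h : ZMod q) * α) =
      ∑ κ ∈ Icc (-(K : ℤ)) K, ((B : ℂ) / q) * (((max 0 (1 - B * |(κ : ℝ)| / q) : ℝ) : ℂ) *
        ∑ β : ZMod q, F α β * ec q ((h : ZMod q) * α + (κ : ZMod q) * β)) := by
    intro h α
    rw [mul_assoc, sum_mul, mul_sum]
    refine sum_congr rfl fun κ _ => ?_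
    rw [mul_assoc, sum_mul]
    congr 2
    refine sum_congr rfl fun β _ => ?_
    rw [mul_assoc, ← ec_add, add_comm]
  rw [sum_congr rfl fun h _ => by rw [sum_congr rfl fun α _ => e2 h α, sum_comm]]
  have hq0 : (q : ℂ) ≠ 0 := by exact_mod_cast NeZero.ne q
  rw [sum_congr rfl fun h _ => mul_sum _ _ _, sum_comm, mul_sum, mul_sum]
  refine sum_congr rfl fun κ _ => ?_
  rw [mul_sum, mul_sum, mul_sum]
  refine sum_congr rfl fun h _ => ?_
  rw [← mul_sum, ← mul_sum]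
  field_simp

/-- raising the modulus of an additive character -/
theorem ec_up (g c m : ℕ) [NeZero g] [NeZero (g * c)] (hm : Nat.Coprime m (g * c)) (x : ℤ) :
    ec g ((x : ZMod g) * (m : ZMod g)⁻¹) = ec (g * c) ((m : ZMod (g * c))⁻¹ * ((c * x : ℤ) : ZMod (g * c))) := by
  set v : ℤ := Nat.gcdA m (g * c) with hv
  set u : ℤ := Nat.gcdB m (g * c) with hu
  have hb : (m : ℤ) * v + ((g * c : ℕ) : ℤ) * u = 1 := by
    have := Nat.gcd_eq_gcd_ab m (g * c)
    rw [hm.gcd_eq_one] at this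
    rw [hu, hv]; push_cast at this ⊢; linarith
  have h3 : (m : ZMod (g * c))⁻¹ = (v : ZMod (g * c)) := by
    have h2 : (m : ZMod (g * c)) * (v : ZMod (g * c)) = 1 := by
      have := congrArg (Int.cast (R := ZMod (g * c))) hb
      rw [Int.cast_add, Int.cast_mul, Int.cast_mul, Int.cast_natCast, Int.cast_natCast, ZMod.natCast_self, zero_mul, add_zero,
        Int.cast_one] at this
      exact this
    exact ZMod.inv_eq_of_mul_eq_one _ _ _ h2
  have h1 : (m : ZMod g)⁻¹ = (v : ZMod g) := by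
    have h2 : (m : ZMod g) * (v : ZMod g) = 1 := by
      have := congrArg (Int.cast (R := ZMod g)) hb
      push_cast at this
      rw [ZMod.natCast_self, zero_mul, zero_mul, add_zero] at this
      exact this
    exact ZMod.inv_eq_of_mul_eq_one _ _ _ h2
  rw [h1, h3]
  have e1 : ((x : ZMod g) * (v : ZMod g)) = ((x * v : ℤ) : ZMod g) := by push_cast; ring
  have e2 : ((v : ZMod (g * c)) * ((c * x : ℤ) : ZMod (g * c))) = ((v * (c * x) : ℤ) : ZMod (g * c)) := by push_cast; ring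
  have hg0 : (g : ℂ) ≠ 0 := by exact_mod_cast NeZero.ne g
  have hc0 : (c : ℂ) ≠ 0 := by
    have : c ≠ 0 := by
      rintro rfl
      exact NeZero.ne (g * 0) (mul_zero g)
    exact_mod_cast this
  rw [e1, e2, ec_int, ec_int]
  congr 1
  push_cast
  field_simp

/-- the norm of `vv`, without instances, restricted to coprime moduli -/
noncomputable def vn (A g : ℕ) (κ α β : ℤ) (H : ℕ) (m : ℕ) : ℝ :=
  if h : g * κ.natAbs ^ 2 ≠ 0 ∧ Nat.Coprime m (g * κ.natAbs ^ 2) then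
    (have : NeZero (g * κ.natAbs ^ 2) := ⟨h.1⟩; ‖vv A g κ α β H m‖) else 0

theorem vn_nonneg (A g : ℕ) (κ α β : ℤ) (H : ℕ) (m : ℕ) : 0 ≤ vn A g κ α β H m := by
  unfold vn
  split_ifs
  · exact norm_nonneg _
  · exact le_rfl

/-- the transform of the product -/
theorem transform (g m : ℕ) [NeZero g] [NeZero m] [NeZero (g * m)] (hgm : Nat.Coprime g m) (hm1 : 1 < m) (hodd : Odd m)
    (hsq : Squarefree m) (h κ : ℤ) [NeZero (g * κ.natAbs ^ 2)] (hcop : Nat.Coprime m (g * κ.natAbs ^ 2)) :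
    ∑ α : ZMod (g * m), ∑ β : ZMod (g * m), (((sz g α.cast β.cast : ℂ)) ^ 2 * (sz m α.cast β.cast : ℂ)) *
      ec (g * m) ((h : ZMod (g * m)) * α + (κ : ZMod (g * m)) * β) =
      gs m ((κ : ZMod m) * (g : ZMod m)⁻¹) * m * ∑ α : ZMod g, ∑ β : ZMod g, ((sz g α β : ℂ)) ^ 2 *
        (ec (g * κ.natAbs ^ 2) ((m : ZMod (g * κ.natAbs ^ 2))⁻¹ * qq (g * κ.natAbs ^ 2) κ α.val β.val h) *
          cexp (-(2 * Real.pi * I * (h ^ 3 : ℤ) / ((g * κ.natAbs ^ 2 : ℕ) * m)))) := by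
  set k := κ.natAbs with hk
  set r := g * k ^ 2 with hr
  have hrm : Nat.Coprime m r := hcop
  have hkm : Nat.Coprime k m := by
    have : Nat.Coprime m (k ^ 2) := Nat.Coprime.coprime_mul_left_right hcop
    exact (Nat.Coprime.coprime_dvd_right (dvd_pow_self k two_ne_zero) this).symm
  have hgmu : IsUnit (g : ZMod m) := (ZMod.isUnit_iff_coprime g m).2 hgm
  have hκu : IsUnit (κ : ZMod m) := by
    rw [ZMod.coe_int_isUnit_iff_isCoprime, Int.isCoprime_iff_gcd_eq_one, Int.gcd_comm]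
    exact hkm
  have hκ2 : (κ : ℤ) ^ 2 = (k : ℤ) ^ 2 := (Int.natAbs_sq κ).symm
  -- Chinese remainder theorem
  have e1 : ∀ α β : ZMod (g * m), (((sz g α.cast β.cast : ℂ)) ^ 2 * (sz m α.cast β.cast : ℂ)) *
      ec (g * m) ((h : ZMod (g * m)) * α + (κ : ZMod (g * m)) * β) =
      ((sz g α.cast β.cast : ℂ) ^ 2 * ec g (((h : ZMod g) * α.cast + (κ : ZMod g) * β.cast) * (m : ZMod g)⁻¹)) *
      ((sz m α.cast β.cast : ℂ) * ec m (((h : ZMod m) * α.cast + (κ : ZMod m) * β.cast) * (g : ZMod m)⁻¹)) := by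
    intro α β
    rw [ec_mul g m hgm]
    have c1 : (((h : ZMod (g * m)) * α + (κ : ZMod (g * m)) * β).cast : ZMod g) = (h : ZMod g) * α.cast + (κ : ZMod g) * β.cast := by
      rw [ZMod.cast_add (dvd_mul_right g m), ZMod.cast_mul (dvd_mul_right g m), ZMod.cast_mul (dvd_mul_right g m),
        ZMod.cast_intCast (dvd_mul_right g m), ZMod.cast_intCast (dvd_mul_right g m)]
    have c2 : (((h : ZMod (g * m)) * α + (κ : ZMod (g * m)) * β).cast : ZMod m) = (h : ZMod m) * α.cast + (κ : ZMod m) * β.cast := by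
      rw [ZMod.cast_add (dvd_mul_left m g), ZMod.cast_mul (dvd_mul_left m g), ZMod.cast_mul (dvd_mul_left m g),
        ZMod.cast_intCast (dvd_mul_left m g), ZMod.cast_intCast (dvd_mul_left m g)]
    rw [c1, c2]
    ring
  rw [sum_congr rfl fun α _ => sum_congr rfl fun β _ => e1 α β]
  have e2 : ∑ α : ZMod (g * m), ∑ β : ZMod (g * m),
      ((sz g α.cast β.cast : ℂ) ^ 2 * ec g (((h : ZMod g) * α.cast + (κ : ZMod g) * β.cast) * (m : ZMod g)⁻¹)) *
      ((sz m α.cast β.cast : ℂ) * ec m (((h : ZMod m) * α.cast + (κ : ZMod m) * β.cast) * (g : ZMod m)⁻¹)) =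
      (∑ α : ZMod g, ∑ β : ZMod g, (sz g α β : ℂ) ^ 2 * ec g (((h : ZMod g) * α + (κ : ZMod g) * β) * (m : ZMod g)⁻¹)) *
      ∑ α : ZMod m, ∑ β : ZMod m, (sz m α β : ℂ) * ec m (((h : ZMod m) * α + (κ : ZMod m) * β) * (g : ZMod m)⁻¹) := by
    rw [← sum_crt g m hgm (fun α => ∑ β : ZMod g, (sz g α β : ℂ) ^ 2 * ec g (((h : ZMod g) * α + (κ : ZMod g) * β) * (m : ZMod g)⁻¹))
      (fun α => ∑ β : ZMod m, (sz m α β : ℂ) * ec m (((h : ZMod m) * α + (κ : ZMod m) * β) * (g : ZMod m)⁻¹))]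
    refine sum_congr rfl fun α _ => ?_
    exact sum_crt g m hgm (fun β => (sz g α.cast β : ℂ) ^ 2 * ec g (((h : ZMod g) * α.cast + (κ : ZMod g) * β) * (m : ZMod g)⁻¹))
      (fun β => (sz m α.cast β : ℂ) * ec m (((h : ZMod m) * α.cast + (κ : ZMod m) * β) * (g : ZMod m)⁻¹))
  rw [e2]
  -- the factor modulo `m`
  have e3 : ∑ α : ZMod m, ∑ β : ZMod m, (sz m α β : ℂ) * ec m (((h : ZMod m) * α + (κ : ZMod m) * β) * (g : ZMod m)⁻¹) =
      gs m ((κ : ZMod m) * (g : ZMod m)⁻¹) * (m * ec m (-(((h ^ 3 : ℤ) : ZMod m) * (r : ZMod m)⁻¹))) := by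
    have h1 := sz_transform hodd hsq ((h : ZMod m) * (g : ZMod m)⁻¹) ((κ : ZMod m) * (g : ZMod m)⁻¹)
    obtain ⟨gu, hgu⟩ := hgmu
    obtain ⟨ku, hku⟩ := hκu
    have hginv : (g : ZMod m)⁻¹ = ((gu⁻¹ : (ZMod m)ˣ) : ZMod m) := by rw [← hgu]; exact ZMod.inv_coe_unit gu
    have hu : IsUnit ((κ : ZMod m) * (g : ZMod m)⁻¹) := by
      rw [hginv, ← hku]; exact (ku * gu⁻¹).isUnit
    rw [if_pos hu] at h1
    have h2 : -((((h : ZMod m) * (g : ZMod m)⁻¹)) ^ 3 * ((κ : ZMod m) * (g : ZMod m)⁻¹)⁻¹ ^ 2) =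
        -(((h ^ 3 : ℤ) : ZMod m) * (r : ZMod m)⁻¹) := by
      have e4 : ((κ : ZMod m) * (g : ZMod m)⁻¹)⁻¹ = ((ku⁻¹ : (ZMod m)ˣ) : ZMod m) * g := by
        rw [hginv, ← hku, ← Units.val_mul, ZMod.inv_coe_unit, mul_inv_rev, inv_inv, Units.val_mul, hgu, mul_comm]
      have e5 : (r : ZMod m)⁻¹ = ((gu⁻¹ : (ZMod m)ˣ) : ZMod m) * ((ku⁻¹ : (ZMod m)ˣ) : ZMod m) ^ 2 := by
        have e6 : (r : ZMod m) = ((gu * ku ^ 2 : (ZMod m)ˣ) : ZMod m) := by
          rw [Units.val_mul, Units.val_pow_eq_pow_val, hgu, hku, hr]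
          push_cast
          congr 1
          have := congrArg (Int.cast (R := ZMod m)) hκ2
          push_cast at this
          exact this.symm
        rw [e6, ZMod.inv_coe_unit, mul_inv, Units.val_mul, ← inv_pow, Units.val_pow_eq_pow_val]
      rw [e4, e5, hginv]
      have e7 : (g : ZMod m) = (gu : ZMod m) := hgu.symm
      rw [e7]
      push_cast
      have e8 : ((gu⁻¹ : (ZMod m)ˣ) : ZMod m) * (gu : ZMod m) = 1 := Units.inv_mul gu
      linear_combination (-(h : ZMod m) ^ 3 * ((gu⁻¹ : (ZMod m)ˣ) : ZMod m) * ((ku⁻¹ : (ZMod m)ˣ) : ZMod m) ^ 2 *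
        (((gu⁻¹ : (ZMod m)ˣ) : ZMod m) * (gu : ZMod m) + 1)) * e8
    rw [h2] at h1
    rw [← h1]
    refine sum_congr rfl fun α _ => sum_congr rfl fun β _ => ?_
    congr 2
    ring
  rw [e3]
  have hrec := reciprocity m r hrm (h ^ 3)
  rw [hrec]
  have e9 : ∀ α β : ZMod g, ec g (((h : ZMod g) * α + (κ : ZMod g) * β) * (m : ZMod g)⁻¹) *
      ec r (((h ^ 3 : ℤ) : ZMod r) * (m : ZMod r)⁻¹) = ec r ((m : ZMod r)⁻¹ * qq r κ α.val β.val h) := by
    intro α β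
    have e10 : ((h : ZMod g) * α + (κ : ZMod g) * β) = ((h * α.val + κ * β.val : ℤ) : ZMod g) := by
      push_cast
      rw [ZMod.natCast_zmod_val, ZMod.natCast_zmod_val]
    rw [e10, ec_up g (k ^ 2) m hcop, ← ec_add]
    congr 1
    unfold qq
    rw [mul_comm _ ((m : ZMod r)⁻¹), ← mul_add, ← Int.cast_add]
    congr 2
    push_cast
    have : (k : ℤ) ^ 2 = κ ^ 2 := hκ2.symm
    rw [this]
    ring
  have e11 : ∀ S c d : ℂ, S * (gs m ((κ : ZMod m) * (g : ZMod m)⁻¹) * (m * (c * d))) =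
      gs m ((κ : ZMod m) * (g : ZMod m)⁻¹) * m * (S * (c * d)) := by intro S c d; ring
  rw [e11, sum_mul]
  congr 1
  refine sum_congr rfl fun α _ => ?_
  rw [sum_mul]
  refine sum_congr rfl fun β _ => ?_
  rw [← e9 α β]
  ring

/-- **the sum over the box for one pair** -/
theorem box_sum (g m J A B H K : ℕ) [NeZero g] [NeZero m] [NeZero (g * m)] (hgm : Nat.Coprime g m) (hm1 : 1 < m) (hodd : Odd m)
    (hsq : Squarefree m) (hJ : 0 < J) (hA : 0 < A) (hB : 0 < B) (hJq : g * m ∣ J) (hH : g * m ≤ A * (H + 1)) (hK : g * m ≤ B * (K + 1)) :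
    ‖∑ a ∈ range (J * A), ∑ b ∈ range (J * B), (fk J (J * A) (a : ℤ) : ℂ) * ((fk J (J * B) (b : ℤ) : ℂ) *
      ((sz g (a : ZMod g) (b : ZMod g) : ℂ) ^ 2 * (sz m (a : ZMod m) (b : ZMod m) : ℂ)))‖ ≤
      ((A : ℝ) * B / (g * m) ^ 2) * (m * Real.sqrt m) * ∑ κ ∈ (Icc (-(K : ℤ)) K).erase 0, ∑ α : ZMod g, ∑ β : ZMod g,
        ((sz g α β : ℝ)) ^ 2 * vn A g κ α.val β.val H m := by
  classical
  obtain ⟨j, hj⟩ := hJq
  have hj0 : 0 < j := Nat.pos_of_ne_zero (by rintro rfl; rw [mul_zero] at hj; omega)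
  have : NeZero (j * A) := ⟨by positivity⟩
  have : NeZero (j * B) := ⟨by positivity⟩
  have h1 := poisson2 (g * m) (j * A) (j * B) J A B hJ hA hB (by rw [hj, mul_assoc]) (by rw [hj, mul_assoc])
    (fun α β => ((sz g α.cast β.cast : ℂ)) ^ 2 * (sz m α.cast β.cast : ℂ)) H K hH hK
  have e0 : ∑ a ∈ range (J * A), ∑ b ∈ range (J * B), (fk J (J * A) (a : ℤ) : ℂ) * ((fk J (J * B) (b : ℤ) : ℂ) *
      ((sz g (a : ZMod g) (b : ZMod g) : ℂ) ^ 2 * (sz m (a : ZMod m) (b : ZMod m) : ℂ))) =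
      ∑ a ∈ range (J * A), ∑ b ∈ range (J * B), (fk J (J * A) (a : ℤ) : ℂ) * ((fk J (J * B) (b : ℤ) : ℂ) *
      (fun α β : ZMod (g * m) => ((sz g α.cast β.cast : ℂ)) ^ 2 * (sz m α.cast β.cast : ℂ)) (a : ZMod (g * m)) (b : ZMod (g * m))) := by
    refine sum_congr rfl fun a _ => sum_congr rfl fun b _ => ?_
    simp only
    rw [ZMod.cast_natCast (dvd_mul_right g m), ZMod.cast_natCast (dvd_mul_right g m), ZMod.cast_natCast (dvd_mul_left m g),
      ZMod.cast_natCast (dvd_mul_left m g)]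
  rw [e0, h1, norm_mul]
  have e1 : ‖((A : ℂ) * B / ((g * m : ℕ) : ℂ) ^ 2)‖ = (A : ℝ) * B / (g * m) ^ 2 := by
    rw [norm_div, norm_mul, norm_pow, Complex.norm_natCast, Complex.norm_natCast, Complex.norm_natCast]
    push_cast; ring
  rw [e1, mul_assoc ((A : ℝ) * B / (g * m) ^ 2)]
  refine mul_le_mul_of_nonneg_left ?_ (by positivity)
  refine (norm_sum_le _ _).trans ?_
  rw [mul_sum]
  -- termwise
  have key : ∀ κ ∈ Icc (-(K : ℤ)) K, ‖((max 0 (1 - B * |(κ : ℝ)| / ((g * m : ℕ) : ℝ)) : ℝ) : ℂ) *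
        ∑ h ∈ Icc (-(H : ℤ)) H, ((max 0 (1 - A * |(h : ℝ)| / ((g * m : ℕ) : ℝ)) : ℝ) : ℂ) *
          ∑ α : ZMod (g * m), ∑ β : ZMod (g * m), (((sz g α.cast β.cast : ℂ)) ^ 2 * (sz m α.cast β.cast : ℂ)) *
            ec (g * m) ((h : ZMod (g * m)) * α + (κ : ZMod (g * m)) * β)‖ ≤
      if κ = 0 then 0 else (m * Real.sqrt m) * ∑ α : ZMod g, ∑ β : ZMod g, ((sz g α β : ℝ)) ^ 2 * vn A g κ α.val β.val H m := by
    intro κ _
    rw [norm_mul]
    have hmax : ‖((max 0 (1 - B * |(κ : ℝ)| / ((g * m : ℕ) : ℝ)) : ℝ) : ℂ)‖ ≤ 1 := by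
      rw [Complex.norm_real, Real.norm_eq_abs, abs_of_nonneg (le_max_left _ _)]
      have : 0 ≤ B * |(κ : ℝ)| / ((g * m : ℕ) : ℝ) := by positivity
      exact max_le zero_le_one (by linarith)
    by_cases hu : IsUnit (κ : ZMod m)
    · -- coprime
      have hκ0 : κ ≠ 0 := by
        rintro rfl
        rw [Int.cast_zero, isUnit_zero_iff] at hu
        have : Fact (1 < m) := ⟨hm1⟩
        exact zero_ne_one hu
      have hkm : Nat.Coprime κ.natAbs m := by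
        rw [ZMod.coe_int_isUnit_iff_isCoprime, Int.isCoprime_iff_gcd_eq_one, Int.gcd_comm] at hu
        exact hu
      have hcop : Nat.Coprime m (g * κ.natAbs ^ 2) := Nat.Coprime.mul_right hgm.symm (Nat.Coprime.pow_right 2 hkm.symm)
      have hr0 : g * κ.natAbs ^ 2 ≠ 0 := by
        have h1 : g ≠ 0 := NeZero.ne g
        have h2 : κ.natAbs ≠ 0 := Int.natAbs_ne_zero.2 hκ0
        positivity
      have : NeZero (g * κ.natAbs ^ 2) := ⟨hr0⟩
      rw [if_neg hκ0]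
      have e2 : ∑ h ∈ Icc (-(H : ℤ)) H, ((max 0 (1 - A * |(h : ℝ)| / ((g * m : ℕ) : ℝ)) : ℝ) : ℂ) *
          ∑ α : ZMod (g * m), ∑ β : ZMod (g * m), (((sz g α.cast β.cast : ℂ)) ^ 2 * (sz m α.cast β.cast : ℂ)) *
            ec (g * m) ((h : ZMod (g * m)) * α + (κ : ZMod (g * m)) * β) =
          gs m ((κ : ZMod m) * (g : ZMod m)⁻¹) * m * ∑ α : ZMod g, ∑ β : ZMod g, ((sz g α β : ℂ)) ^ 2 *
            vv A g κ α.val β.val H m := by
        rw [sum_congr rfl fun h _ => by rw [transform g m hgm hm1 hodd hsq h κ hcop]]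
        have e3 : ∀ h : ℤ, ((max 0 (1 - A * |(h : ℝ)| / ((g * m : ℕ) : ℝ)) : ℝ) : ℂ) * (gs m ((κ : ZMod m) * (g : ZMod m)⁻¹) * m *
            ∑ α : ZMod g, ∑ β : ZMod g, ((sz g α β : ℂ)) ^ 2 *
        (ec (g * κ.natAbs ^ 2) ((m : ZMod (g * κ.natAbs ^ 2))⁻¹ * qq (g * κ.natAbs ^ 2) κ α.val β.val h) *
          cexp (-(2 * Real.pi * I * (h ^ 3 : ℤ) / ((g * κ.natAbs ^ 2 : ℕ) * m))))) =
          gs m ((κ : ZMod m) * (g : ZMod m)⁻¹) * m * ∑ α : ZMod g, ∑ β : ZMod g, ((sz g α β : ℂ)) ^ 2 *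
            (ww A g (g * κ.natAbs ^ 2) h m * ec (g * κ.natAbs ^ 2) ((m : ZMod (g * κ.natAbs ^ 2))⁻¹ * qq (g * κ.natAbs ^ 2) κ α.val β.val h)) := by
          intro h
          rw [mul_left_comm, mul_sum]
          congr 1
          refine sum_congr rfl fun α _ => ?_
          rw [mul_sum]
          refine sum_congr rfl fun β _ => ?_
          unfold ww
          push_cast
          ring
        rw [sum_congr rfl fun h _ => e3 h, ← mul_sum, sum_comm]
        congr 1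
        refine sum_congr rfl fun α _ => ?_
        rw [sum_comm]
        refine sum_congr rfl fun β _ => ?_
        rw [← mul_sum]
        rfl
      rw [e2, norm_mul, norm_mul, Complex.norm_natCast]
      have hgs : ‖gs m ((κ : ZMod m) * (g : ZMod m)⁻¹)‖ ≤ Real.sqrt m := by
        refine gs_bound _ ?_
        have hgu : IsUnit (g : ZMod m) := (ZMod.isUnit_iff_coprime g m).2 hgm
        obtain ⟨gu, hgu⟩ := hgu
        rw [← hgu, ZMod.inv_coe_unit]
        exact hu.mul (gu⁻¹).isUnit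
      have hsum : ‖∑ α : ZMod g, ∑ β : ZMod g, ((sz g α β : ℂ)) ^ 2 * vv A g κ α.val β.val H m‖ ≤
          ∑ α : ZMod g, ∑ β : ZMod g, ((sz g α β : ℝ)) ^ 2 * vn A g κ α.val β.val H m := by
        refine (norm_sum_le _ _).trans (sum_le_sum fun α _ => (norm_sum_le _ _).trans (sum_le_sum fun β _ => ?_))
        rw [norm_mul, norm_pow, Complex.norm_intCast, sq_abs]
        unfold vn
        rw [dif_pos ⟨hr0, hcop⟩]
      have hs0 := norm_nonneg (∑ α : ZMod g, ∑ β : ZMod g, ((sz g α β : ℂ)) ^ 2 * vv A g κ α.val β.val H m)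
      calc _ ≤ 1 * (Real.sqrt m * m * ∑ α : ZMod g, ∑ β : ZMod g, ((sz g α β : ℝ)) ^ 2 * vn A g κ α.val β.val H m) := by
            refine mul_le_mul hmax ?_ (by positivity) zero_le_one
            exact mul_le_mul (mul_le_mul_of_nonneg_right hgs (Nat.cast_nonneg _)) hsum hs0 (by positivity)
        _ = _ := by ring
    · -- not coprime: the transform vanishes
      have e2 : ∀ h : ℤ, ∑ α : ZMod (g * m), ∑ β : ZMod (g * m), (((sz g α.cast β.cast : ℂ)) ^ 2 * (sz m α.cast β.cast : ℂ)) *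
            ec (g * m) ((h : ZMod (g * m)) * α + (κ : ZMod (g * m)) * β) = 0 := by
        intro h
        have e1 : ∀ α β : ZMod (g * m), (((sz g α.cast β.cast : ℂ)) ^ 2 * (sz m α.cast β.cast : ℂ)) *
            ec (g * m) ((h : ZMod (g * m)) * α + (κ : ZMod (g * m)) * β) =
            ((sz g α.cast β.cast : ℂ) ^ 2 * ec g (((h : ZMod g) * α.cast + (κ : ZMod g) * β.cast) * (m : ZMod g)⁻¹)) *
            ((sz m α.cast β.cast : ℂ) * ec m (((h : ZMod m) * α.cast + (κ : ZMod m) * β.cast) * (g : ZMod m)⁻¹)) := by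
          intro α β
          rw [ec_mul g m hgm]
          have c1 : (((h : ZMod (g * m)) * α + (κ : ZMod (g * m)) * β).cast : ZMod g) = (h : ZMod g) * α.cast + (κ : ZMod g) * β.cast := by
            rw [ZMod.cast_add (dvd_mul_right g m), ZMod.cast_mul (dvd_mul_right g m), ZMod.cast_mul (dvd_mul_right g m),
              ZMod.cast_intCast (dvd_mul_right g m), ZMod.cast_intCast (dvd_mul_right g m)]
          have c2 : (((h : ZMod (g * m)) * α + (κ : ZMod (g * m)) * β).cast : ZMod m) = (h : ZMod m) * α.cast + (κ : ZMod m) * β.cast := by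
            rw [ZMod.cast_add (dvd_mul_left m g), ZMod.cast_mul (dvd_mul_left m g), ZMod.cast_mul (dvd_mul_left m g),
              ZMod.cast_intCast (dvd_mul_left m g), ZMod.cast_intCast (dvd_mul_left m g)]
          rw [c1, c2]
          ring
        rw [sum_congr rfl fun α _ => sum_congr rfl fun β _ => e1 α β]
        have e3 : ∑ α : ZMod (g * m), ∑ β : ZMod (g * m),
            ((sz g α.cast β.cast : ℂ) ^ 2 * ec g (((h : ZMod g) * α.cast + (κ : ZMod g) * β.cast) * (m : ZMod g)⁻¹)) *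
            ((sz m α.cast β.cast : ℂ) * ec m (((h : ZMod m) * α.cast + (κ : ZMod m) * β.cast) * (g : ZMod m)⁻¹)) =
            (∑ α : ZMod g, ∑ β : ZMod g, (sz g α β : ℂ) ^ 2 * ec g (((h : ZMod g) * α + (κ : ZMod g) * β) * (m : ZMod g)⁻¹)) *
            ∑ α : ZMod m, ∑ β : ZMod m, (sz m α β : ℂ) * ec m (((h : ZMod m) * α + (κ : ZMod m) * β) * (g : ZMod m)⁻¹) := by
          rw [← sum_crt g m hgm (fun α => ∑ β : ZMod g, (sz g α β : ℂ) ^ 2 * ec g (((h : ZMod g) * α + (κ : ZMod g) * β) * (m : ZMod g)⁻¹))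
            (fun α => ∑ β : ZMod m, (sz m α β : ℂ) * ec m (((h : ZMod m) * α + (κ : ZMod m) * β) * (g : ZMod m)⁻¹))]
          refine sum_congr rfl fun α _ => ?_
          exact sum_crt g m hgm (fun β => (sz g α.cast β : ℂ) ^ 2 * ec g (((h : ZMod g) * α.cast + (κ : ZMod g) * β) * (m : ZMod g)⁻¹))
            (fun β => (sz m α.cast β : ℂ) * ec m (((h : ZMod m) * α.cast + (κ : ZMod m) * β) * (g : ZMod m)⁻¹))
        rw [e3]
        have e4 : ∑ α : ZMod m, ∑ β : ZMod m, (sz m α β : ℂ) * ec m (((h : ZMod m) * α + (κ : ZMod m) * β) * (g : ZMod m)⁻¹) = 0 := by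
          have h1 := sz_transform hodd hsq ((h : ZMod m) * (g : ZMod m)⁻¹) ((κ : ZMod m) * (g : ZMod m)⁻¹)
          have hu' : ¬ IsUnit ((κ : ZMod m) * (g : ZMod m)⁻¹) := fun hc => hu (isUnit_of_mul_isUnit_left hc)
          rw [if_neg hu'] at h1
          rw [← h1]
          refine sum_congr rfl fun α _ => sum_congr rfl fun β _ => ?_
          congr 2
          ring
        rw [e4, mul_zero]
      rw [sum_eq_zero (fun h _ => by rw [e2 h, mul_zero]), norm_zero, mul_zero]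
      split_ifs
      · exact le_rfl
      · refine mul_nonneg (by positivity) (sum_nonneg fun α _ => sum_nonneg fun β _ => mul_nonneg (by positivity) (vn_nonneg _ _ _ _ _ _ _))
  refine (sum_le_sum key).trans (le_of_eq ?_)
  rw [← sum_erase (s := Icc (-(K : ℤ)) K) (a := 0) (f := fun κ => if κ = 0 then (0:ℝ) else (m * Real.sqrt m) *
    ∑ α : ZMod g, ∑ β : ZMod g, ((sz g α β : ℝ)) ^ 2 * vn A g κ α.val β.val H m) (by simp)]
  refine sum_congr rfl fun κ hκ => ?_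
  rw [if_neg (ne_of_mem_erase hκ)]

end Pool.Agent.KS6_10
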