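import Pool.Agent.KS6_10.Main1
import Pool.Agent.KS6_10.Bound

/-!
# The sum over dyadic blocks of moduli
-/

set_option autoImplicit false

namespace Pool.Agent.KS6_10

open Finset

/-- the weighted sum over the box -/
noncomputable def EE (J A B : ℕ) (f : ℤ → ℤ → ℝ) : ℝ :=
  ∑ a ∈ range (J * A), ∑ b ∈ range (J * B), fk J (J * A) (a : ℤ) * (fk J (J * B) (b : ℤ) * f a b)

theorem sum_fk (J A : ℕ) (hJ : 0 < J) (hA : 0 < A) : ∑ a ∈ range (J * A), fk J (J * A) (a : ℤ) = A := by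
  have : NeZero (J * A) := ⟨by positivity⟩
  have h := poisson 1 (J * A) J A hJ hA (one_mul _).symm (fun _ => (1 : ℂ)) 0 (by omega)
  have e : ((∑ a ∈ range (J * A), fk J (J * A) (a : ℤ) : ℝ) : ℂ) = (A : ℂ) := by
    push_cast
    simp only [mul_one] at h
    rw [h]
    simp [Subsingleton.elim ((0 : ZMod 1) * _) 0, ec_zero]
  exact_mod_cast e

theorem EE_le (J A B : ℕ) (hJ : 0 < J) (hA : 0 < A) (hB : 0 < B) (f : ℤ → ℤ → ℝ) (C : ℝ) (hf : ∀ a b, |f a b| ≤ C) :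
    |EE J A B f| ≤ C * (A * B) := by
  unfold EE
  refine (abs_sum_le_sum_abs _ _).trans ?_
  have h1 : ∀ a ∈ range (J * A), |∑ b ∈ range (J * B), fk J (J * A) (a : ℤ) * (fk J (J * B) (b : ℤ) * f a b)| ≤
      fk J (J * A) (a : ℤ) * (B * C) := by
    intro a _
    rw [← mul_sum, abs_mul, abs_of_nonneg (fk_nonneg _ _ _)]
    refine mul_le_mul_of_nonneg_left ?_ (fk_nonneg _ _ _)
    refine (abs_sum_le_sum_abs _ _).trans ?_
    rw [← sum_fk J B hJ hB, sum_mul]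
    refine sum_le_sum fun b _ => ?_
    rw [abs_mul, abs_of_nonneg (fk_nonneg _ _ _)]
    exact mul_le_mul_of_nonneg_left (hf _ _) (fk_nonneg _ _ _)
  refine (sum_le_sum h1).trans (le_of_eq ?_)
  rw [← sum_mul, sum_fk J A hJ hA]
  ring

/-- the sum over the frequencies -/
noncomputable def WW (A g : ℕ) (H K : ℕ) (m : ℕ) : ℝ :=
  ∑ κ ∈ (Icc (-(K : ℤ)) K).erase 0, ∑ α ∈ range g, ∑ β ∈ range g, ((SS g α β : ℝ)) ^ 2 * vn A g κ α β H m

theorem WW_nonneg (A g H K m : ℕ) : 0 ≤ WW A g H K m :=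
  sum_nonneg fun _ _ => sum_nonneg fun _ _ => sum_nonneg fun _ _ => mul_nonneg (by positivity) (vn_nonneg _ _ _ _ _ _ _)

theorem pair_main (g m J A B H K : ℕ) (hg : 0 < g) (hgm : Nat.Coprime g m) (hm1 : 1 < m) (hodd : Odd m)
    (hsq : Squarefree m) (hJ : 0 < J) (hA : 0 < A) (hB : 0 < B) (hJq : g * m ∣ J) (hH : g * m ≤ A * (H + 1)) (hK : g * m ≤ B * (K + 1)) :
    |EE J A B (fun a b => (SS g a b : ℝ) ^ 2 * SS m a b)| ≤
      ((A : ℝ) * B / (g * m) ^ 2) * (m * Real.sqrt m) * WW A g H K m := by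
  have : NeZero g := ⟨hg.ne'⟩
  have : NeZero m := ⟨by omega⟩
  have : NeZero (g * m) := ⟨by positivity⟩
  have h := box_sum g m J A B H K hgm hm1 hodd hsq hJ hA hB hJq hH hK
  have e1 : |EE J A B (fun a b => (SS g a b : ℝ) ^ 2 * SS m a b)| =
      ‖∑ a ∈ range (J * A), ∑ b ∈ range (J * B), (fk J (J * A) (a : ℤ) : ℂ) * ((fk J (J * B) (b : ℤ) : ℂ) *
      ((sz g (a : ZMod g) (b : ZMod g) : ℂ) ^ 2 * (sz m (a : ZMod m) (b : ZMod m) : ℂ)))‖ := by
    rw [← Real.norm_eq_abs, ← Complex.norm_real]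
    congr 1
    unfold EE
    push_cast
    refine sum_congr rfl fun a _ => sum_congr rfl fun b _ => ?_
    rw [SS_eq g, SS_eq m]
    push_cast
    rfl
  rw [e1]
  refine h.trans (le_of_eq ?_)
  congr 1
  unfold WW
  refine sum_congr rfl fun κ _ => ?_
  rw [← sum_range_zmod g (fun α => ∑ β : ZMod g, ((sz g α β : ℝ)) ^ 2 * vn A g κ α.val β.val H m)]
  refine sum_congr rfl fun α hα => ?_
  rw [← sum_range_zmod g (fun β => ((sz g (α : ZMod g) β : ℝ)) ^ 2 * vn A g κ (α : ZMod g).val β.val H m)]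
  refine sum_congr rfl fun β hβ => ?_
  rw [ZMod.val_cast_of_lt (mem_range.1 hα), ZMod.val_cast_of_lt (mem_range.1 hβ), SS_eq]
  push_cast
  rfl

/-- the sum over a dyadic block -/
theorem dyadic_sum (A B g M : ℕ) (U T L : ℝ) (hA : 0 < A) (hB : 0 < B) (hAB : A ≤ B) (hg : 0 < g) (hodd : Odd g) (hsq : Squarefree g)
    (hM : 0 < M) (hU : 1 ≤ U) (hT1 : 1 ≤ T) (hL1 : 1 ≤ L)
    (hT : ∀ d : ℕ, 0 < d → d ≤ (2 * g * M) ^ 2 → (d.divisors.card : ℝ) ≤ T) (hL : 1 + Real.log (2 * g * M) ≤ L)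
    (h1 : 4 * (g : ℝ) ^ 2 * M ≤ U * B ^ 2) (h2 : 16 * Real.pi * g ^ 2 * M ≤ U * A ^ 3) :
    ∑ m ∈ Ico M (2 * M), WW A g (2 * g * M / A) (2 * g * M / B) m ≤
      114 * T ^ 4 * L ^ 2 * U ^ 2 * (M * g ^ 3 * Real.sqrt g) * (4 * g * M / A + 3 * (g * M / B) * Real.sqrt (g * M / A)) := by
  set H := 2 * g * M / A with hHdef
  set K := 2 * g * M / B with hKdef
  have hA0 : (0:ℝ) < A := by exact_mod_cast hA
  have hB0 : (0:ℝ) < B := by exact_mod_cast hB
  have hg0 : (0:ℝ) < g := by exact_mod_cast hg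
  have hM0 : (0:ℝ) < M := by exact_mod_cast hM
  have hHr : (H : ℝ) ≤ 2 * g * M / A := by
    have := @Nat.cast_div_le ℝ _ _ _ (2 * g * M) A
    push_cast at this
    exact this
  have hKr : (K : ℝ) ≤ 2 * g * M / B := by
    have := @Nat.cast_div_le ℝ _ _ _ (2 * g * M) B
    push_cast at this
    exact this
  have hHn : H ≤ 2 * g * M := Nat.div_le_self _ _
  have hKn : K ≤ 2 * g * M := Nat.div_le_self _ _
  -- one frequency
  have hone : ∀ κ ∈ (Icc (-(K : ℤ)) K).erase 0, ∀ α β : ℤ, ∑ m ∈ Ico M (2 * M), vn A g κ α β H m ≤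
      Real.sqrt (40 * U ^ 3 * g) * M * Real.sqrt (rc κ.natAbs H) := by
    intro κ hκ α β
    have hκ0 : κ ≠ 0 := ne_of_mem_erase hκ
    have hκK : κ.natAbs ≤ K := by
      have := mem_Icc.1 (mem_of_mem_erase hκ)
      omega
    have hr0 : g * κ.natAbs ^ 2 ≠ 0 := by
      have h2 : κ.natAbs ≠ 0 := Int.natAbs_ne_zero.2 hκ0
      positivity
    have : NeZero (g * κ.natAbs ^ 2) := ⟨hr0⟩
    have hc1 : (κ.natAbs : ℝ) ^ 2 ≤ U * M := by
      have e1 : (κ.natAbs : ℝ) ≤ 2 * g * M / B := le_trans (by exact_mod_cast hκK) hKr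
      calc (κ.natAbs : ℝ) ^ 2 ≤ (2 * g * M / B) ^ 2 := pow_le_pow_left₀ (Nat.cast_nonneg _) e1 2
        _ = (4 * (g : ℝ) ^ 2 * M) * M / B ^ 2 := by field_simp; ring
        _ ≤ (U * B ^ 2) * M / B ^ 2 := by gcongr
        _ = U * M := by field_simp
    have hd := dyadic A g κ α β H M U hA hg hκ0 hM hU hHr hc1 h2
    have e2 : ∑ m ∈ Ico M (2 * M), vn A g κ α β H m =
        ∑ m ∈ (Ico M (2 * M)).filter (fun m => Nat.Coprime m (g * κ.natAbs ^ 2)), ‖vv A g κ α β H m‖ := by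
      rw [sum_filter]
      refine sum_congr rfl fun m _ => ?_
      unfold vn
      by_cases hc : Nat.Coprime m (g * κ.natAbs ^ 2)
      · rw [dif_pos ⟨hr0, hc⟩, if_pos hc]
      · rw [dif_neg (fun h => hc h.2), if_neg hc]
    rw [e2]
    have e3 := sq_sum_le_card_mul_sum_sq (s := (Ico M (2 * M)).filter (fun m => Nat.Coprime m (g * κ.natAbs ^ 2)))
      (f := fun m => ‖vv A g κ α β H m‖)
    have e4 : ((((Ico M (2 * M)).filter (fun m => Nat.Coprime m (g * κ.natAbs ^ 2))).card : ℕ) : ℝ) ≤ M := by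
      have : ((Ico M (2 * M)).filter (fun m => Nat.Coprime m (g * κ.natAbs ^ 2))).card ≤ M := by
        refine (card_filter_le _ _).trans ?_
        rw [Nat.card_Ico]; omega
      exact_mod_cast this
    have e5 : (∑ m ∈ (Ico M (2 * M)).filter (fun m => Nat.Coprime m (g * κ.natAbs ^ 2)), ‖vv A g κ α β H m‖) ^ 2 ≤
        M * (40 * U ^ 3 * g * M * rc κ.natAbs H) := by
      refine e3.trans ?_
      exact mul_le_mul e4 hd (sum_nonneg fun _ _ => by positivity) hM0.le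
    have e6 : Real.sqrt (40 * U ^ 3 * g) * M * Real.sqrt (rc κ.natAbs H) = Real.sqrt (M * (40 * U ^ 3 * g * M * rc κ.natAbs H)) := by
      rw [← Real.sqrt_sq (show 0 ≤ Real.sqrt (40 * U ^ 3 * g) * M * Real.sqrt (rc κ.natAbs H) by positivity)]
      congr 1
      rw [mul_pow, mul_pow, Real.sq_sqrt (by positivity), Real.sq_sqrt (by positivity)]
      ring
    rw [e6]
    exact Real.le_sqrt_of_sq_le e5
  -- sum over the frequencies
  have hsumκ : ∑ κ ∈ (Icc (-(K : ℤ)) K).erase 0, Real.sqrt (rc κ.natAbs H) ≤ 2 * (9 * T ^ 2 * L ^ 2 * (K + K * Real.sqrt H + H)) := by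
    have e1 : ∑ κ ∈ (Icc (-(K : ℤ)) K).erase 0, Real.sqrt (rc κ.natAbs H) ≤ 2 * ∑ k ∈ Icc 1 K, Real.sqrt (rc k H) := by
      have hsub : (Icc (-(K : ℤ)) K).erase 0 ⊆ (Icc 1 K).image (fun k : ℕ => (k : ℤ)) ∪ (Icc 1 K).image (fun k : ℕ => -(k : ℤ)) := by
        intro κ hκ
        have h3 := ne_of_mem_erase hκ
        have h4 := mem_Icc.1 (mem_of_mem_erase hκ)
        rw [mem_union, mem_image, mem_image]
        rcases lt_or_gt_of_ne h3 with h5 | h5
        · right; exact ⟨κ.natAbs, mem_Icc.2 ⟨by omega, by omega⟩, by omega⟩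
        · left; exact ⟨κ.natAbs, mem_Icc.2 ⟨by omega, by omega⟩, by omega⟩
      refine (sum_le_sum_of_subset_of_nonneg hsub fun _ _ _ => Real.sqrt_nonneg _).trans ?_
      have h3 := sum_union_inter (s₁ := (Icc 1 K).image (fun k : ℕ => (k : ℤ))) (s₂ := (Icc 1 K).image (fun k : ℕ => -(k : ℤ)))
        (f := fun κ : ℤ => Real.sqrt (rc κ.natAbs H))
      have h4 : 0 ≤ ∑ κ ∈ (Icc 1 K).image (fun k : ℕ => (k : ℤ)) ∩ (Icc 1 K).image (fun k : ℕ => -(k : ℤ)), Real.sqrt (rc κ.natAbs H) :=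
        sum_nonneg fun _ _ => Real.sqrt_nonneg _
      rw [sum_image (fun a _ b _ h => by simpa using h), sum_image (fun a _ b _ h => by simpa using h)] at h3
      simp only [Int.natAbs_natCast, Int.natAbs_neg] at h3
      linarith
    refine e1.trans ?_
    refine mul_le_mul_of_nonneg_left ?_ (by norm_num)
    have hgM : (1:ℝ) ≤ 2 * g * M := by
      have : 1 ≤ 2 * g * M := by
        have : 0 < g * M := by positivity
        nlinarith
      exact_mod_cast this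
    have hlog : ∀ n : ℕ, n ≤ 2 * g * M → 1 + Real.log n ≤ L := by
      intro n hn
      rcases Nat.eq_zero_or_pos n with h0 | h0
      · rw [h0]; simp; exact hL1
      · have e3 : Real.log n ≤ Real.log (2 * g * M) := Real.log_le_log (by exact_mod_cast h0) (by exact_mod_cast hn)
        linarith
    refine sum_sqrt_rc K H T L hT1 hL1 (fun d hd hd2 => hT d hd (hd2.trans ?_)) (hlog K hKn) (hlog H hHn)
    exact Nat.pow_le_pow_left (max_le hKn hHn) 2
  -- the squares modulo `g`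
  have hsq2 : ∑ α ∈ range g, ∑ β ∈ range g, ((SS g α β : ℝ)) ^ 2 ≤ T ^ 2 * g ^ 3 := by
    have h3 : ∀ α β : ℤ, ((SS g α β : ℝ)) ^ 2 ≤ T ^ 2 * g := by
      intro α β
      have h4 := SS_le g hodd hsq α β
      have h5 : (g.divisors.card : ℝ) ≤ T := hT g hg (by
        have : g ≤ 2 * g * M := by nlinarith
        nlinarith)
      have h6 : |(SS g α β : ℝ)| ≤ T * Real.sqrt g := h4.trans (mul_le_mul_of_nonneg_right h5 (Real.sqrt_nonneg _))
      calc ((SS g α β : ℝ)) ^ 2 = |(SS g α β : ℝ)| ^ 2 := (sq_abs _).symm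
        _ ≤ (T * Real.sqrt g) ^ 2 := pow_le_pow_left₀ (abs_nonneg _) h6 2
        _ = T ^ 2 * g := by rw [mul_pow, Real.sq_sqrt hg0.le]
    refine (sum_le_sum fun (α : ℕ) _ => sum_le_sum fun (β : ℕ) _ => h3 α β).trans (le_of_eq ?_)
    simp only [sum_const, card_range, nsmul_eq_mul]
    ring
  -- assembling
  have hfin : ∑ m ∈ Ico M (2 * M), WW A g H K m ≤
      (T ^ 2 * g ^ 3) * (Real.sqrt (40 * U ^ 3 * g) * M * (2 * (9 * T ^ 2 * L ^ 2 * (K + K * Real.sqrt H + H)))) := by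
    unfold WW
    rw [sum_comm]
    have e1 : ∀ κ ∈ (Icc (-(K : ℤ)) K).erase 0, ∑ m ∈ Ico M (2 * M), ∑ α ∈ range g, ∑ β ∈ range g, ((SS g α β : ℝ)) ^ 2 * vn A g κ α β H m ≤
        (T ^ 2 * g ^ 3) * (Real.sqrt (40 * U ^ 3 * g) * M * Real.sqrt (rc κ.natAbs H)) := by
      intro κ hκ
      rw [sum_comm]
      have e2 : ∑ α ∈ range g, ∑ m ∈ Ico M (2 * M), ∑ β ∈ range g, ((SS g α β : ℝ)) ^ 2 * vn A g κ α β H m =
          ∑ α ∈ range g, ∑ β ∈ range g, ((SS g α β : ℝ)) ^ 2 * ∑ m ∈ Ico M (2 * M), vn A g κ α β H m := by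
        refine sum_congr rfl fun α _ => ?_
        rw [sum_comm]
        exact sum_congr rfl fun β _ => (mul_sum _ _ _).symm
      rw [e2]
      have e3 : ∑ α ∈ range g, ∑ β ∈ range g, ((SS g α β : ℝ)) ^ 2 * ∑ m ∈ Ico M (2 * M), vn A g κ α β H m ≤
          ∑ α ∈ range g, ∑ β ∈ range g, ((SS g α β : ℝ)) ^ 2 * (Real.sqrt (40 * U ^ 3 * g) * M * Real.sqrt (rc κ.natAbs H)) :=
        sum_le_sum fun α _ => sum_le_sum fun β _ => mul_le_mul_of_nonneg_left (hone κ hκ α β) (by positivity)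
      refine e3.trans ?_
      have e4 : ∑ α ∈ range g, ∑ β ∈ range g, ((SS g α β : ℝ)) ^ 2 * (Real.sqrt (40 * U ^ 3 * g) * M * Real.sqrt (rc κ.natAbs H)) =
          (∑ α ∈ range g, ∑ β ∈ range g, ((SS g α β : ℝ)) ^ 2) * (Real.sqrt (40 * U ^ 3 * g) * M * Real.sqrt (rc κ.natAbs H)) := by
        rw [sum_mul]
        exact sum_congr rfl fun α _ => (sum_mul _ _ _).symm
      rw [e4]
      exact mul_le_mul_of_nonneg_right hsq2 (by positivity)
    refine (sum_le_sum e1).trans ?_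
    rw [← mul_sum, ← mul_sum]
    exact mul_le_mul_of_nonneg_left (mul_le_mul_of_nonneg_left hsumκ (by positivity)) (by positivity)
  refine hfin.trans ?_
  have hs1 : Real.sqrt (40 * U ^ 3 * g) ≤ 19 / 3 * U ^ 2 * Real.sqrt g := by
    rw [Real.sqrt_le_left (by positivity), mul_pow, Real.sq_sqrt hg0.le]
    have : U ^ 3 ≤ U ^ 4 := pow_le_pow_right₀ hU (by norm_num)
    have h5 : 40 * U ^ 3 ≤ (19 / 3 * U ^ 2) ^ 2 := by nlinarith [pow_pos (by linarith : (0:ℝ) < U) 4]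
    exact mul_le_mul_of_nonneg_right h5 hg0.le
  have hs2 : (K : ℝ) + K * Real.sqrt H + H ≤ 4 * g * M / A + 3 * (g * M / B) * Real.sqrt (g * M / A) := by
    have e1 : (K : ℝ) ≤ 2 * g * M / A := hKr.trans (by
      refine div_le_div_of_nonneg_left (by positivity) hA0 (by exact_mod_cast hAB))
    have e2 : Real.sqrt H ≤ Real.sqrt 2 * Real.sqrt (g * M / A) := by
      rw [← Real.sqrt_mul (by norm_num)]
      refine Real.sqrt_le_sqrt (hHr.trans (le_of_eq ?_))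
      ring
    have e3 : (K : ℝ) * Real.sqrt H ≤ (2 * g * M / B) * (Real.sqrt 2 * Real.sqrt (g * M / A)) :=
      mul_le_mul hKr e2 (Real.sqrt_nonneg _) (by positivity)
    have e4 : Real.sqrt 2 ≤ 3 / 2 := by
      rw [Real.sqrt_le_left (by norm_num)]; norm_num
    have e5 : (2 * (g:ℝ) * M / B) * (Real.sqrt 2 * Real.sqrt (g * M / A)) ≤ (2 * g * M / B) * (3 / 2 * Real.sqrt (g * M / A)) := by
      gcongr
    have e6 : (2 * (g:ℝ) * M / B) * (3 / 2 * Real.sqrt (g * M / A)) = 3 * (g * M / B) * Real.sqrt (g * M / A) := by ring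
    have e7 : 4 * (g:ℝ) * M / A = 2 * g * M / A + 2 * g * M / A := by ring
    linarith
  have hs0 : 0 ≤ (K : ℝ) + K * Real.sqrt H + H := by positivity
  calc (T ^ 2 * g ^ 3) * (Real.sqrt (40 * U ^ 3 * g) * M * (2 * (9 * T ^ 2 * L ^ 2 * (K + K * Real.sqrt H + H))))
      ≤ (T ^ 2 * g ^ 3) * ((19 / 3 * U ^ 2 * Real.sqrt g) * M * (2 * (9 * T ^ 2 * L ^ 2 *
          (4 * g * M / A + 3 * (g * M / B) * Real.sqrt (g * M / A))))) := by
        gcongr
    _ = _ := by ring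

end Pool.Agent.KS6_10
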