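import Pool.Agent.KS6_10.Main2

/-!
# The sum over all pairs
-/

set_option autoImplicit false

namespace Pool.Agent.KS6_10

open Finset

/-- the bound for one pair -/
noncomputable def psi (A B g m : ℕ) : ℝ :=
  ((A : ℝ) * B / (g ^ 3 * m)) * WW A g (2 * g * 2 ^ (Nat.log 2 m) / A) (2 * g * 2 ^ (Nat.log 2 m) / B) m

theorem psi_nonneg (A B g m : ℕ) : 0 ≤ psi A B g m := by
  unfold psi
  exact mul_nonneg (by positivity) (WW_nonneg _ _ _ _ _)

theorem pair_bound (J A B N n1 n2 : ℕ) (hJ : 0 < J) (hA : 0 < A) (hB : 0 < B) (hJd : ∀ d, 0 < d → d ≤ N ^ 2 → d ∣ J)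
    (h1 : n1 ≤ N) (h2 : n2 ≤ N) (ho1 : Odd n1) (ho2 : Odd n2) (hs1 : Squarefree n1) (hs2 : Squarefree n2) (hne : n1 ≠ n2) :
    |EE J A B (fun a b => (SS n1 a b : ℝ) * SS n2 a b)| / (Real.sqrt n1 * Real.sqrt n2) ≤
      psi A B (Nat.gcd n1 n2) ((n1 / Nat.gcd n1 n2) * (n2 / Nat.gcd n1 n2)) := by
  have hn1 : 0 < n1 := ho1.pos
  have hn2 : 0 < n2 := ho2.pos
  set g := Nat.gcd n1 n2 with hg
  have hg0 : 0 < g := Nat.gcd_pos_of_pos_left _ hn1
  obtain ⟨x, hx⟩ : g ∣ n1 := Nat.gcd_dvd_left _ _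
  obtain ⟨y, hy⟩ : g ∣ n2 := Nat.gcd_dvd_right _ _
  have ex : n1 / g = x := by rw [hx]; exact Nat.mul_div_cancel_left _ hg0
  have ey : n2 / g = y := by rw [hy]; exact Nat.mul_div_cancel_left _ hg0
  have hxy : Nat.Coprime x y := by
    have := Nat.coprime_div_gcd_div_gcd (m := n1) (n := n2) hg0
    rw [← hg, ex, ey] at this
    exact this
  have hgx : Nat.Coprime g x := by rw [hx] at hs1; exact Nat.coprime_of_squarefree_mul hs1
  have hgy : Nat.Coprime g y := by rw [hy] at hs2; exact Nat.coprime_of_squarefree_mul hs2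
  rw [ex, ey]
  set m := x * y with hm
  have hx0 : 0 < x := Nat.pos_of_ne_zero (by rintro rfl; omega)
  have hy0 : 0 < y := Nat.pos_of_ne_zero (by rintro rfl; omega)
  have hm0 : 0 < m := by positivity
  have hm1 : 1 < m := by
    by_contra hc
    have hm' : x * y = 1 := by omega
    have hx1 := Nat.eq_one_of_mul_eq_one_right hm'
    have hy1 := Nat.eq_one_of_mul_eq_one_left hm'
    apply hne
    rw [hx, hy, hx1, hy1]
  have hgm : Nat.Coprime g m := Nat.Coprime.mul_right hgx hgy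
  have hodd : Odd m := Nat.odd_mul.2 ⟨by rw [hx] at ho1; exact (Nat.odd_mul.1 ho1).2, by rw [hy] at ho2; exact (Nat.odd_mul.1 ho2).2⟩
  have hsq : Squarefree m := (Nat.squarefree_mul hxy).2
    ⟨hs1.squarefree_of_dvd ⟨g, by rw [hx]; ring⟩, hs2.squarefree_of_dvd ⟨g, by rw [hy]; ring⟩⟩
  have hlt : m < 2 * 2 ^ (Nat.log 2 m) := by
    have := Nat.lt_pow_succ_log_self (b := 2) (by norm_num) m
    rw [pow_succ] at this
    omega
  have hHA : g * m ≤ A * (2 * g * 2 ^ (Nat.log 2 m) / A + 1) := by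
    have h3 := Nat.lt_mul_div_succ (2 * g * 2 ^ (Nat.log 2 m)) hA
    have h4 : g * m ≤ 2 * g * 2 ^ (Nat.log 2 m) := by nlinarith
    omega
  have hHB : g * m ≤ B * (2 * g * 2 ^ (Nat.log 2 m) / B + 1) := by
    have h3 := Nat.lt_mul_div_succ (2 * g * 2 ^ (Nat.log 2 m)) hB
    have h4 : g * m ≤ 2 * g * 2 ^ (Nat.log 2 m) := by nlinarith
    omega
  have hdvd : g * m ∣ J := by
    refine hJd _ (by positivity) ?_
    have h3 : g * m ≤ (g * x) * (g * y) := by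
      rw [hm]
      calc g * (x * y) ≤ g * (x * y) * g := Nat.le_mul_of_pos_right _ hg0
        _ = _ := by ring
    rw [← hx, ← hy] at h3
    refine h3.trans ?_
    rw [pow_two]
    exact Nat.mul_le_mul h1 h2
  have hfun : (fun a b : ℤ => (SS n1 a b : ℝ) * SS n2 a b) = fun a b => (SS g a b : ℝ) ^ 2 * SS m a b := by
    funext a b
    rw [hm, SS_mul x y hxy]
    conv_lhs => rw [hx, hy, SS_mul g x hgx, SS_mul g y hgy]
    push_cast
    ring
  rw [hfun]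
  have h3 := pair_main g m J A B (2 * g * 2 ^ (Nat.log 2 m) / A) (2 * g * 2 ^ (Nat.log 2 m) / B) hg0 hgm hm1 hodd hsq hJ hA hB hdvd hHA hHB
  have hg0' : (0:ℝ) < g := by exact_mod_cast hg0
  have hm0' : (0:ℝ) < m := by exact_mod_cast hm0
  have hsqrt : Real.sqrt n1 * Real.sqrt n2 = g * Real.sqrt m := by
    rw [← Real.sqrt_mul (Nat.cast_nonneg _)]
    have : (n1 : ℝ) * n2 = g ^ 2 * m := by
      rw [hm, hx, hy]; push_cast; ring
    rw [this, Real.sqrt_mul (by positivity), Real.sqrt_sq hg0'.le]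
  rw [hsqrt, div_le_iff₀ (by positivity)]
  refine h3.trans (le_of_eq ?_)
  unfold psi
  have hsm : Real.sqrt m ≠ 0 := (Real.sqrt_pos.2 hm0').ne'
  field_simp

theorem pair_trivial (J A B n1 n2 : ℕ) (T : ℝ) (hJ : 0 < J) (hA : 0 < A) (hB : 0 < B) (hT0 : 0 ≤ T)
    (ho1 : Odd n1) (ho2 : Odd n2) (hs1 : Squarefree n1) (hs2 : Squarefree n2)
    (hT1 : (n1.divisors.card : ℝ) ≤ T) (hT2 : (n2.divisors.card : ℝ) ≤ T) :
    |EE J A B (fun a b => (SS n1 a b : ℝ) * SS n2 a b)| / (Real.sqrt n1 * Real.sqrt n2) ≤ T ^ 2 * (A * B) := by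
  have hn1 : (0:ℝ) < n1 := by exact_mod_cast ho1.pos
  have hn2 : (0:ℝ) < n2 := by exact_mod_cast ho2.pos
  rw [div_le_iff₀ (by positivity)]
  refine (EE_le J A B hJ hA hB _ ((T * Real.sqrt n1) * (T * Real.sqrt n2)) (fun a b => ?_)).trans (le_of_eq (by ring))
  rw [abs_mul]
  refine mul_le_mul ((SS_le n1 ho1 hs1 a b).trans ?_) ((SS_le n2 ho2 hs2 a b).trans ?_) (abs_nonneg _) (by positivity)
  · exact mul_le_mul_of_nonneg_right hT1 (Real.sqrt_nonneg _)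
  · exact mul_le_mul_of_nonneg_right hT2 (Real.sqrt_nonneg _)

/-- sums over products -/
theorem sum_products (L : ℕ) (f : ℕ → ℝ) (hf : ∀ m, 0 ≤ f m) (T : ℝ) (hT : ∀ d : ℕ, 0 < d → d ≤ L ^ 2 → (d.divisors.card : ℝ) ≤ T) :
    ∑ p ∈ Icc 1 L ×ˢ Icc 1 L, f (p.1 * p.2) ≤ T * ∑ m ∈ Icc 1 (L ^ 2), f m := by
  classical
  have hmaps : ∀ p ∈ Icc 1 L ×ˢ Icc 1 L, p.1 * p.2 ∈ Icc 1 (L ^ 2) := by
    intro p hp
    obtain ⟨h1, h2⟩ := mem_product.1 hp
    rw [mem_Icc] at h1 h2 ⊢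
    constructor
    · nlinarith
    · nlinarith
  rw [← sum_fiberwise_of_maps_to hmaps, mul_sum]
  refine sum_le_sum fun m hm => ?_
  have hm' := mem_Icc.1 hm
  have e1 : ∀ p ∈ (Icc 1 L ×ˢ Icc 1 L).filter (fun p => p.1 * p.2 = m), f (p.1 * p.2) = f m := by
    intro p hp
    rw [(mem_filter.1 hp).2]
  rw [sum_congr rfl e1, sum_const, nsmul_eq_mul]
  refine mul_le_mul_of_nonneg_right ?_ (hf m)
  refine le_trans ?_ (hT m hm'.1 hm'.2)
  have : ((Icc 1 L ×ˢ Icc 1 L).filter (fun p => p.1 * p.2 = m)).card ≤ m.divisors.card := by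
    refine card_le_card_of_injOn (fun p => p.1) ?_ ?_
    · intro p hp
      obtain ⟨h1, h2⟩ := mem_filter.1 (mem_coe.1 hp)
      exact mem_coe.2 (Nat.mem_divisors.2 ⟨⟨p.2, h2.symm⟩, by omega⟩)
    · intro p hp q hq hpq
      obtain ⟨h1, h2⟩ := mem_filter.1 (mem_coe.1 hp)
      obtain ⟨h3, h4⟩ := mem_filter.1 (mem_coe.1 hq)
      simp only at hpq
      have h5 := (mem_Icc.1 (mem_product.1 h1).1).1
      refine Prod.ext hpq ?_
      rw [← hpq] at h4
      exact Nat.eq_of_mul_eq_mul_left (by omega) (h2.trans h4.symm)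
  exact_mod_cast this

/-- the dyadic decomposition of the sum over `m` -/
theorem sum_psi (A B g N G : ℕ) (U T L : ℝ) (hA : 0 < A) (hB : 0 < B) (hAB : A ≤ B) (hg : 0 < g) (hgG : g ≤ G) (hgN : g ≤ N)
    (hodd : Odd g) (hsq : Squarefree g)
    (hU : 1 ≤ U) (hT1 : 1 ≤ T) (hL1 : 1 ≤ L)
    (hT : ∀ d : ℕ, 0 < d → d ≤ 4 * N ^ 4 → (d.divisors.card : ℝ) ≤ T) (hL : 1 + Real.log (2 * N ^ 2) ≤ L)
    (h1 : 4 * (N : ℝ) ^ 2 ≤ U * B ^ 2) (h2 : 16 * Real.pi * N ^ 2 ≤ U * A ^ 3) :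
    ∑ m ∈ Icc 1 ((N / g) ^ 2), psi A B g m ≤
      228 * T ^ 4 * L ^ 3 * U ^ 2 * (A * B) * (4 * Real.sqrt G * N ^ 2 / A + 3 * N ^ 3 / (B * Real.sqrt A)) * (1 / g) := by
  classical
  have hA0 : (0:ℝ) < A := by exact_mod_cast hA
  have hB0 : (0:ℝ) < B := by exact_mod_cast hB
  have hg0 : (0:ℝ) < g := by exact_mod_cast hg
  have hN : 0 < N := hg.trans_le hgN
  have hN0 : (0:ℝ) < N := by exact_mod_cast hN
  have hNg : 1 ≤ N / g := (Nat.one_le_div_iff hg).2 hgN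
  set Z := (N / g) ^ 2 with hZ
  have hZ0 : 0 < Z := by positivity
  have hZN : g ^ 2 * Z ≤ N ^ 2 := by
    rw [hZ, ← mul_pow]
    exact Nat.pow_le_pow_left (Nat.mul_div_le N g) 2
  -- decomposition
  have hmaps : ∀ m ∈ Icc 1 Z, Nat.log 2 m ∈ range (Nat.log 2 Z + 1) := by
    intro m hm
    rw [mem_range, Nat.lt_succ_iff]
    exact Nat.log_mono_right (mem_Icc.1 hm).2
  rw [← sum_fiberwise_of_maps_to hmaps]
  have hone : ∀ i ∈ range (Nat.log 2 Z + 1), ∑ m ∈ (Icc 1 Z).filter (fun m => Nat.log 2 m = i), psi A B g m ≤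
      114 * T ^ 4 * L ^ 2 * U ^ 2 * (A * B) * (4 * Real.sqrt G * N ^ 2 / A + 3 * N ^ 3 / (B * Real.sqrt A)) * (1 / g) := by
    intro i hi
    set M := 2 ^ i with hM
    have hM0 : 0 < M := by positivity
    have hMZ : M ≤ Z := by
      have h3 : i ≤ Nat.log 2 Z := Nat.lt_succ_iff.1 (mem_range.1 hi)
      exact (Nat.pow_le_pow_right (by norm_num) h3).trans (Nat.pow_log_le_self 2 hZ0.ne')
    have hM0' : (0:ℝ) < M := by exact_mod_cast hM0
    have hgM : g ^ 2 * M ≤ N ^ 2 := (Nat.mul_le_mul_left _ hMZ).trans hZN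
    have hgM' : (g:ℝ) ^ 2 * M ≤ N ^ 2 := by exact_mod_cast hgM
    have hgM2 : g * M ≤ N ^ 2 := by nlinarith
    have hgM2' : (g:ℝ) * M ≤ N ^ 2 / g := by
      rw [le_div_iff₀ hg0]; nlinarith
    have e1 : ∀ m ∈ (Icc 1 Z).filter (fun m => Nat.log 2 m = i), psi A B g m ≤
        ((A : ℝ) * B / (g ^ 3 * M)) * WW A g (2 * g * M / A) (2 * g * M / B) m := by
      intro m hm
      obtain ⟨h3, h4⟩ := mem_filter.1 hm
      have h5 : M ≤ m := by
        rw [hM, ← h4]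
        exact Nat.pow_log_le_self 2 (by have := (mem_Icc.1 h3).1; omega)
      have h5' : (M:ℝ) ≤ m := by exact_mod_cast h5
      unfold psi
      rw [h4]
      refine mul_le_mul_of_nonneg_right ?_ (WW_nonneg _ _ _ _ _)
      gcongr
    have e2 : (Icc 1 Z).filter (fun m => Nat.log 2 m = i) ⊆ Ico M (2 * M) := by
      intro m hm
      obtain ⟨h3, h4⟩ := mem_filter.1 hm
      have h5 : m ≠ 0 := by have := (mem_Icc.1 h3).1; omega
      rw [mem_Ico]
      constructor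
      · rw [hM, ← h4]; exact Nat.pow_log_le_self 2 h5
      · have := Nat.lt_pow_succ_log_self (b := 2) (by norm_num) m
        rw [h4, pow_succ] at this
        omega
    refine (sum_le_sum e1).trans ?_
    rw [← mul_sum]
    have e3 : ∑ m ∈ (Icc 1 Z).filter (fun m => Nat.log 2 m = i), WW A g (2 * g * M / A) (2 * g * M / B) m ≤
        ∑ m ∈ Ico M (2 * M), WW A g (2 * g * M / A) (2 * g * M / B) m :=
      sum_le_sum_of_subset_of_nonneg e2 fun _ _ _ => WW_nonneg _ _ _ _ _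
    have e4 := dyadic_sum A B g M U T L hA hB hAB hg hodd hsq hM0 hU hT1 hL1
      (fun d hd hd2 => hT d hd (hd2.trans (by
        have : 2 * g * M ≤ 2 * N ^ 2 := by nlinarith
        calc (2 * g * M) ^ 2 ≤ (2 * N ^ 2) ^ 2 := Nat.pow_le_pow_left this 2
          _ = 4 * N ^ 4 := by ring)))
      (by
        have h3 : Real.log (2 * g * M) ≤ Real.log (2 * N ^ 2) := by
          refine Real.log_le_log (by positivity) ?_
          have : (g:ℝ) * M ≤ N ^ 2 := by exact_mod_cast hgM2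
          nlinarith
        linarith)
      (by nlinarith) (by
        have := Real.pi_pos
        have h3 : 16 * Real.pi * (g:ℝ) ^ 2 * M = 16 * Real.pi * (g ^ 2 * M) := by ring
        rw [h3]
        refine le_trans ?_ h2
        exact mul_le_mul_of_nonneg_left hgM' (by positivity))
    have hC0 : 0 ≤ 114 * T ^ 4 * L ^ 2 * U ^ 2 := by positivity
    calc ((A : ℝ) * B / (g ^ 3 * M)) * ∑ m ∈ (Icc 1 Z).filter (fun m => Nat.log 2 m = i), WW A g (2 * g * M / A) (2 * g * M / B) m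
        ≤ ((A : ℝ) * B / (g ^ 3 * M)) * (114 * T ^ 4 * L ^ 2 * U ^ 2 * (M * g ^ 3 * Real.sqrt g) *
            (4 * g * M / A + 3 * (g * M / B) * Real.sqrt (g * M / A))) :=
          mul_le_mul_of_nonneg_left (e3.trans e4) (by positivity)
      _ = 114 * T ^ 4 * L ^ 2 * U ^ 2 * (A * B) * (Real.sqrt g * (4 * (g * M) / A + 3 * (g * M / B) * Real.sqrt (g * M / A))) := by
          field_simp
      _ ≤ 114 * T ^ 4 * L ^ 2 * U ^ 2 * (A * B) * ((4 * Real.sqrt G * N ^ 2 / A + 3 * N ^ 3 / (B * Real.sqrt A)) * (1 / g)) := by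
          refine mul_le_mul_of_nonneg_left ?_ (by positivity)
          have hsg : Real.sqrt g ≤ Real.sqrt G := Real.sqrt_le_sqrt (by exact_mod_cast hgG)
          have f1 : Real.sqrt g * (4 * (g * M) / A) ≤ 4 * Real.sqrt G * N ^ 2 / A * (1 / g) := by
            calc Real.sqrt g * (4 * (g * M) / A) ≤ Real.sqrt G * (4 * (N ^ 2 / g) / A) := by gcongr
              _ = _ := by ring
          have f2 : Real.sqrt g * (3 * (g * M / B) * Real.sqrt (g * M / A)) ≤ 3 * N ^ 3 / (B * Real.sqrt A) * (1 / g) := by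
            have f3 : Real.sqrt (g * M / A) ≤ N / (Real.sqrt g * Real.sqrt A) := by
              rw [Real.sqrt_le_left (by positivity), div_pow, mul_pow, Real.sq_sqrt hg0.le, Real.sq_sqrt hA0.le]
              calc (g:ℝ) * M / A ≤ (N ^ 2 / g) / A := by gcongr
                _ = _ := by rw [div_div]
            calc Real.sqrt g * (3 * (g * M / B) * Real.sqrt (g * M / A))
                ≤ Real.sqrt g * (3 * ((N ^ 2 / g) / B) * (N / (Real.sqrt g * Real.sqrt A))) := by gcongr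
              _ = _ := by
                  have : Real.sqrt g ≠ 0 := (Real.sqrt_pos.2 hg0).ne'
                  field_simp
          rw [mul_add, add_mul]
          exact add_le_add f1 f2
      _ = _ := by ring
  refine (sum_le_sum hone).trans ?_
  rw [sum_const, card_range, nsmul_eq_mul]
  have hlog : ((Nat.log 2 Z + 1 : ℕ) : ℝ) ≤ 2 * L := by
    push_cast
    have h3 : (Nat.log 2 Z : ℝ) * Real.log 2 ≤ Real.log (2 * N ^ 2) := by
      rw [← Real.log_pow]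
      refine Real.log_le_log (by positivity) ?_
      have h4 : 2 ^ (Nat.log 2 Z) ≤ Z := Nat.pow_log_le_self 2 hZ0.ne'
      have h5 : Z ≤ N ^ 2 := le_trans (Nat.le_mul_of_pos_left _ (by positivity)) hZN
      have h6 : 2 ^ (Nat.log 2 Z) ≤ 2 * N ^ 2 := by omega
      exact_mod_cast h6
    have h4 : (0.6931 : ℝ) < Real.log 2 := by have := Real.log_two_gt_d9; linarith
    have h5 : (0:ℝ) ≤ Nat.log 2 Z := Nat.cast_nonneg _
    nlinarith
  have hpos : 0 ≤ 114 * T ^ 4 * L ^ 2 * U ^ 2 * (A * B) * (4 * Real.sqrt G * N ^ 2 / A + 3 * N ^ 3 / (B * Real.sqrt A)) * (1 / (g:ℝ)) := by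
    positivity
  refine (mul_le_mul_of_nonneg_right hlog hpos).trans (le_of_eq ?_)
  ring

/-- **the sum over all pairs** -/
theorem all_pairs (J A B N G : ℕ) (𝒩 : Finset ℕ) (U T L : ℝ) (hJ : 0 < J) (hA : 0 < A) (hB : 0 < B) (hAB : A ≤ B)
    (hJd : ∀ d, 0 < d → d ≤ N ^ 2 → d ∣ J) (hG : 0 < G) (hGN : G ≤ 2 * N ^ 2)
    (h𝒩 : ∀ n ∈ 𝒩, n ≤ N ∧ Odd n ∧ Squarefree n)
    (hU : 1 ≤ U) (hT1 : 1 ≤ T) (hL1 : 1 ≤ L)
    (hT : ∀ d : ℕ, 0 < d → d ≤ 4 * N ^ 4 → (d.divisors.card : ℝ) ≤ T) (hL : 1 + Real.log (2 * N ^ 2) ≤ L)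
    (h1 : 4 * (N : ℝ) ^ 2 ≤ U * B ^ 2) (h2 : 16 * Real.pi * N ^ 2 ≤ U * A ^ 3) :
    ∑ p ∈ 𝒩 ×ˢ 𝒩, |EE J A B (fun a b => (SS p.1 a b : ℝ) * SS p.2 a b)| / (Real.sqrt p.1 * Real.sqrt p.2) ≤
      T ^ 2 * (A * B) * (N ^ 2 / G + N) +
      228 * T ^ 5 * L ^ 4 * U ^ 2 * (A * B) * (4 * Real.sqrt G * N ^ 2 / A + 3 * N ^ 3 / (B * Real.sqrt A)) := by
  classical
  have hA0 : (0:ℝ) < A := by exact_mod_cast hA
  have hB0 : (0:ℝ) < B := by exact_mod_cast hB
  have hG0 : (0:ℝ) < G := by exact_mod_cast hG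
  have hterm : ∀ p ∈ 𝒩 ×ˢ 𝒩, |EE J A B (fun a b => (SS p.1 a b : ℝ) * SS p.2 a b)| / (Real.sqrt p.1 * Real.sqrt p.2) ≤
      (if G < Nat.gcd p.1 p.2 ∨ p.1 = p.2 then T ^ 2 * (A * B) else 0) +
      (if Nat.gcd p.1 p.2 ≤ G ∧ p.1 ≠ p.2 then psi A B (Nat.gcd p.1 p.2) ((p.1 / Nat.gcd p.1 p.2) * (p.2 / Nat.gcd p.1 p.2)) else 0) := by
    intro p hp
    obtain ⟨hp1, hp2⟩ := mem_product.1 hp
    obtain ⟨a1, a2, a3⟩ := h𝒩 _ hp1
    obtain ⟨b1, b2, b3⟩ := h𝒩 _ hp2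
    by_cases hc : G < Nat.gcd p.1 p.2 ∨ p.1 = p.2
    · rw [if_pos hc, if_neg (by rintro ⟨h3, h4⟩; rcases hc with h | h; exact absurd h3 (not_le.2 h); exact h4 h), add_zero]
      have hN4 : ∀ n, n ≤ N → n ≤ 4 * N ^ 4 := by
        intro n hn
        rcases Nat.eq_zero_or_pos N with h0 | h0
        · omega
        · have : N ≤ N ^ 4 := Nat.le_self_pow (by norm_num) N
          omega
      exact pair_trivial J A B p.1 p.2 T hJ hA hB (by linarith) a2 b2 a3 b3 (hT _ a2.pos (hN4 _ a1)) (hT _ b2.pos (hN4 _ b1))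
    · push Not at hc
      rw [if_neg (by rintro (h | h); exact absurd hc.1 (not_le.2 h); exact hc.2 h), if_pos hc, zero_add]
      exact pair_bound J A B N p.1 p.2 hJ hA hB hJd a1 b1 a2 b2 a3 b3 hc.2
  refine (sum_le_sum hterm).trans ?_
  rw [sum_add_distrib]
  refine add_le_add ?_ ?_
  · -- the trivial pairs
    rw [← sum_filter, sum_const, nsmul_eq_mul, mul_comm]
    refine mul_le_mul_of_nonneg_left ?_ (by positivity)
    have hsub : (𝒩 ×ˢ 𝒩).filter (fun p => G < Nat.gcd p.1 p.2 ∨ p.1 = p.2) ⊆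
        ((Ioc G N).biUnion fun g => ((Ioc 0 N).filter (fun n => g ∣ n)) ×ˢ ((Ioc 0 N).filter (fun n => g ∣ n))) ∪
          (Icc 1 N).image (fun n => (n, n)) := by
      intro p hp
      obtain ⟨hp0, hp3⟩ := mem_filter.1 hp
      obtain ⟨hp1, hp2⟩ := mem_product.1 hp0
      obtain ⟨a1, a2, a3⟩ := h𝒩 _ hp1
      obtain ⟨b1, b2, b3⟩ := h𝒩 _ hp2
      rw [mem_union, mem_biUnion, mem_image]
      rcases hp3 with h | h
      · left
        refine ⟨Nat.gcd p.1 p.2, mem_Ioc.2 ⟨h, (Nat.le_of_dvd a2.pos (Nat.gcd_dvd_left _ _)).trans a1⟩, ?_⟩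
        rw [mem_product, mem_filter, mem_filter, mem_Ioc, mem_Ioc]
        exact ⟨⟨⟨a2.pos, a1⟩, Nat.gcd_dvd_left _ _⟩, ⟨b2.pos, b1⟩, Nat.gcd_dvd_right _ _⟩
      · right
        exact ⟨p.1, mem_Icc.2 ⟨a2.pos, a1⟩, Prod.ext rfl h⟩
    have hcard : (((𝒩 ×ˢ 𝒩).filter (fun p => G < Nat.gcd p.1 p.2 ∨ p.1 = p.2)).card : ℝ) ≤
        ∑ g ∈ Ioc G N, ((N : ℝ) / g) ^ 2 + N := by
      have h3 := (card_le_card hsub).trans (card_union_le _ _)
      have h4 : ((Icc 1 N).image (fun n => (n, n))).card ≤ N := by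
        refine card_image_le.trans ?_
        rw [Nat.card_Icc, Nat.add_sub_cancel]
      have h5 : ((Ioc G N).biUnion fun g => ((Ioc 0 N).filter (fun n => g ∣ n)) ×ˢ ((Ioc 0 N).filter (fun n => g ∣ n))).card ≤
          ∑ g ∈ Ioc G N, (N / g) ^ 2 := by
        refine card_biUnion_le.trans (sum_le_sum fun g _ => ?_)
        rw [card_product, Nat.Ioc_filter_dvd_card_eq_div, pow_two]
      have h6 : ((((𝒩 ×ˢ 𝒩).filter (fun p => G < Nat.gcd p.1 p.2 ∨ p.1 = p.2)).card : ℕ) : ℝ) ≤ ((∑ g ∈ Ioc G N, (N / g) ^ 2 + N : ℕ) : ℝ) := by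
        exact_mod_cast h3.trans (add_le_add h5 h4)
      refine h6.trans ?_
      push_cast
      refine add_le_add (sum_le_sum fun g _ => ?_) le_rfl
      exact pow_le_pow_left₀ (Nat.cast_nonneg _) Nat.cast_div_le 2
    refine hcard.trans (add_le_add ?_ le_rfl)
    rcases le_or_gt G N with hGN' | hGN'
    · have h3 : ∑ g ∈ Ioc G N, ((N : ℝ) / g) ^ 2 = N ^ 2 * ∑ g ∈ Ioc G N, ((g : ℝ) ^ 2)⁻¹ := by
        rw [mul_sum]
        refine sum_congr rfl fun g _ => ?_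
        rw [div_pow, div_eq_mul_inv]
      rw [h3, div_eq_mul_inv]
      refine mul_le_mul_of_nonneg_left ?_ (by positivity)
      have h4 := sum_Ioc_inv_sq_le_sub (α := ℝ) hG.ne' hGN'
      have h5 : (0:ℝ) ≤ ((N:ℝ))⁻¹ := by positivity
      linarith
    · rw [Ioc_eq_empty (by omega), sum_empty]
      positivity
  · -- the other pairs
    rw [← sum_filter]
    have hmaps : ∀ p ∈ (𝒩 ×ˢ 𝒩).filter (fun p => Nat.gcd p.1 p.2 ≤ G ∧ p.1 ≠ p.2), Nat.gcd p.1 p.2 ∈ Icc 1 G := by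
      intro p hp
      obtain ⟨hp0, hp3⟩ := mem_filter.1 hp
      obtain ⟨hp1, hp2⟩ := mem_product.1 hp0
      exact mem_Icc.2 ⟨Nat.gcd_pos_of_pos_left _ (h𝒩 _ hp1).2.1.pos, hp3.1⟩
    rw [← sum_fiberwise_of_maps_to hmaps]
    have hg : ∀ g ∈ Icc 1 G, ∑ p ∈ ((𝒩 ×ˢ 𝒩).filter (fun p => Nat.gcd p.1 p.2 ≤ G ∧ p.1 ≠ p.2)).filter (fun p => Nat.gcd p.1 p.2 = g),
        psi A B (Nat.gcd p.1 p.2) ((p.1 / Nat.gcd p.1 p.2) * (p.2 / Nat.gcd p.1 p.2)) ≤
        T * (228 * T ^ 4 * L ^ 3 * U ^ 2 * (A * B) * (4 * Real.sqrt G * N ^ 2 / A + 3 * N ^ 3 / (B * Real.sqrt A)) * (1 / g)) := by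
      intro g hg
      obtain ⟨hg1, hg2⟩ := mem_Icc.1 hg
      have hpos : 0 ≤ T * (228 * T ^ 4 * L ^ 3 * U ^ 2 * (A * B) * (4 * Real.sqrt G * N ^ 2 / A + 3 * N ^ 3 / (B * Real.sqrt A)) * (1 / (g:ℝ))) := by
        positivity
      set PP := ((𝒩 ×ˢ 𝒩).filter (fun p => Nat.gcd p.1 p.2 ≤ G ∧ p.1 ≠ p.2)).filter (fun p => Nat.gcd p.1 p.2 = g) with hPP
      rcases PP.eq_empty_or_nonempty with he | hne
      · rw [he, sum_empty]; exact hpos
      obtain ⟨p0, hp0⟩ := hne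
      have hp0' := mem_filter.1 hp0
      have hp0'' := mem_product.1 (mem_filter.1 hp0'.1).1
      obtain ⟨a1, a2, a3⟩ := h𝒩 _ hp0''.1
      have hgd : g ∣ p0.1 := by rw [← hp0'.2]; exact Nat.gcd_dvd_left _ _
      have hgodd : Odd g := Odd.of_dvd_nat a2 hgd
      have hgsq : Squarefree g := a3.squarefree_of_dvd hgd
      have hgN : g ≤ N := (Nat.le_of_dvd a2.pos hgd).trans a1
      have e1 : ∀ p ∈ PP, psi A B (Nat.gcd p.1 p.2) ((p.1 / Nat.gcd p.1 p.2) * (p.2 / Nat.gcd p.1 p.2)) =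
          psi A B g ((p.1 / g) * (p.2 / g)) := by
        intro p hp
        rw [(mem_filter.1 hp).2]
      rw [sum_congr rfl e1]
      have hinj : Set.InjOn (fun p : ℕ × ℕ => (p.1 / g, p.2 / g)) PP := by
        intro p hp q hq hpq
        have hp' := (mem_filter.1 (mem_coe.1 hp)).2
        have hq' := (mem_filter.1 (mem_coe.1 hq)).2
        simp only [Prod.mk.injEq] at hpq
        have d1 : g ∣ p.1 := by rw [← hp']; exact Nat.gcd_dvd_left _ _
        have d2 : g ∣ p.2 := by rw [← hp']; exact Nat.gcd_dvd_right _ _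
        have d3 : g ∣ q.1 := by rw [← hq']; exact Nat.gcd_dvd_left _ _
        have d4 : g ∣ q.2 := by rw [← hq']; exact Nat.gcd_dvd_right _ _
        exact Prod.ext (by rw [← Nat.div_mul_cancel d1, hpq.1, Nat.div_mul_cancel d3])
          (by rw [← Nat.div_mul_cancel d2, hpq.2, Nat.div_mul_cancel d4])
      rw [← sum_image (f := fun q : ℕ × ℕ => psi A B g (q.1 * q.2)) hinj]
      have himg : PP.image (fun p : ℕ × ℕ => (p.1 / g, p.2 / g)) ⊆ Icc 1 (N / g) ×ˢ Icc 1 (N / g) := by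
        intro q hq
        obtain ⟨p, hp, rfl⟩ := mem_image.1 hq
        have hp' := (mem_filter.1 hp).2
        have hp'' := mem_product.1 (mem_filter.1 (mem_filter.1 hp).1).1
        have d1 : g ∣ p.1 := by rw [← hp']; exact Nat.gcd_dvd_left _ _
        have d2 : g ∣ p.2 := by rw [← hp']; exact Nat.gcd_dvd_right _ _
        rw [mem_product, mem_Icc, mem_Icc]
        exact ⟨⟨Nat.div_pos (Nat.le_of_dvd (h𝒩 _ hp''.1).2.1.pos d1) hg1, Nat.div_le_div_right (h𝒩 _ hp''.1).1⟩,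
          ⟨Nat.div_pos (Nat.le_of_dvd (h𝒩 _ hp''.2).2.1.pos d2) hg1, Nat.div_le_div_right (h𝒩 _ hp''.2).1⟩⟩
      refine (sum_le_sum_of_subset_of_nonneg himg fun _ _ _ => psi_nonneg _ _ _ _).trans ?_
      refine (sum_products (N / g) (fun m => psi A B g m) (fun m => psi_nonneg _ _ _ _) T (fun d hd hd2 => hT d hd (hd2.trans ?_))).trans ?_
      · have h3 : N / g ≤ N := Nat.div_le_self _ _
        have h4 : (N / g) ^ 2 ≤ N ^ 2 := Nat.pow_le_pow_left h3 2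
        rcases Nat.eq_zero_or_pos N with h0 | h0
        · rw [h0] at h4 ⊢; simpa using h4
        · have : N ^ 2 ≤ N ^ 4 := Nat.pow_le_pow_right h0 (by norm_num)
          omega
      · exact mul_le_mul_of_nonneg_left (sum_psi A B g N G U T L hA hB hAB hg1 hg2 hgN hgodd hgsq hU hT1 hL1 hT hL h1 h2) (by linarith)
    refine (sum_le_sum hg).trans ?_
    rw [← mul_sum, ← mul_sum]
    rcases Nat.eq_zero_or_pos N with h0 | h0
    · exfalso
      rw [h0] at hGN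
      omega
    have hGl : ∑ g ∈ Icc 1 G, (1 : ℝ) / g ≤ L := by
      refine (sum_inv_le G).trans ?_
      have h3 : Real.log G ≤ Real.log (2 * N ^ 2) := Real.log_le_log hG0 (by exact_mod_cast hGN)
      linarith
    have hpos : 0 ≤ 228 * T ^ 4 * L ^ 3 * U ^ 2 * (A * B) * (4 * Real.sqrt G * N ^ 2 / A + 3 * N ^ 3 / (B * Real.sqrt A)) := by positivity
    calc T * (228 * T ^ 4 * L ^ 3 * U ^ 2 * (A * B) * (4 * Real.sqrt G * N ^ 2 / A + 3 * N ^ 3 / (B * Real.sqrt A)) * ∑ g ∈ Icc 1 G, (1 : ℝ) / g)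
        ≤ T * (228 * T ^ 4 * L ^ 3 * U ^ 2 * (A * B) * (4 * Real.sqrt G * N ^ 2 / A + 3 * N ^ 3 / (B * Real.sqrt A)) * L) := by
          refine mul_le_mul_of_nonneg_left (mul_le_mul_of_nonneg_left hGl hpos) (by linarith)
      _ = _ := by ring

end Pool.Agent.KS6_10
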