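import Mathlib

/-!
# Many minimal equations
-/

set_option autoImplicit false
set_option linter.unusedVariables false

namespace Pool.Agent.KS6_10

open Finset

theorem tele (B : ℕ) : ∑ d ∈ Icc 2 B, 1 / ((d:ℝ) * (d - 1)) ≤ 1 := by
  have key : ∀ B : ℕ, 1 ≤ B → ∑ d ∈ Icc 2 B, 1 / ((d:ℝ) * (d - 1)) = 1 - 1 / B := by
    intro B hB
    induction B, hB using Nat.le_induction with
    | base => simp
    | succ n hn ih =>
      rw [sum_Icc_succ_top (by omega), ih]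
      have h0 : (0:ℝ) < n := by exact_mod_cast hn
      push_cast
      rw [show (n:ℝ) + 1 - 1 = n by ring]
      field_simp
      ring
  rcases Nat.eq_zero_or_pos B with h | h
  · subst h; simp
  · rw [key B h]
    have : (0:ℝ) ≤ 1 / B := by positivity
    linarith

open Classical in
/-- pairs `(a, b)` of positive integers divisible by `p^4`, `p^6` for a prime `p` are few -/
theorem nonmin (A B : ℕ) :
    ((((Ioc 0 A) ×ˢ (Ioc 0 B)).filter (fun ab : ℕ × ℕ => ∃ p : ℕ, p.Prime ∧ p ^ 4 ∣ ab.1 ∧ p ^ 6 ∣ ab.2)).card : ℝ) ≤ (A * B : ℝ) / 2 := by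
  have hsub : ((Ioc 0 A) ×ˢ (Ioc 0 B)).filter (fun ab : ℕ × ℕ => ∃ p : ℕ, p.Prime ∧ p ^ 4 ∣ ab.1 ∧ p ^ 6 ∣ ab.2) ⊆
      (Icc 2 B).biUnion fun d => ((Ioc 0 A).filter (d ^ 4 ∣ ·)) ×ˢ ((Ioc 0 B).filter (d ^ 6 ∣ ·)) := by
    intro ab hab
    rw [mem_filter, mem_product, mem_Ioc, mem_Ioc] at hab
    obtain ⟨⟨⟨h1, h2⟩, h3, h4⟩, p, hp, h5, h6⟩ := hab
    rw [mem_biUnion]
    refine ⟨p, ?_, ?_⟩
    · rw [mem_Icc]
      refine ⟨hp.two_le, ?_⟩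
      have h7 := Nat.le_of_dvd h3 h6
      have h8 : p ≤ p ^ 6 := Nat.le_self_pow (by norm_num) p
      omega
    · rw [mem_product, mem_filter, mem_filter, mem_Ioc, mem_Ioc]
      exact ⟨⟨⟨h1, h2⟩, h5⟩, ⟨h3, h4⟩, h6⟩
  have h1 := (card_le_card hsub).trans card_biUnion_le
  have h2 : ((∑ d ∈ Icc 2 B, (((Ioc 0 A).filter (d ^ 4 ∣ ·)) ×ˢ ((Ioc 0 B).filter (d ^ 6 ∣ ·))).card : ℕ) : ℝ) ≤ (A * B : ℝ) / 2 := by
    push_cast
    calc ∑ d ∈ Icc 2 B, ((((Ioc 0 A).filter (d ^ 4 ∣ ·)) ×ˢ ((Ioc 0 B).filter (d ^ 6 ∣ ·))).card : ℝ)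
        ≤ ∑ d ∈ Icc 2 B, (A * B : ℝ) / 2 * (1 / ((d:ℝ) * (d - 1))) := by
          refine sum_le_sum fun d hd => ?_
          rw [mem_Icc] at hd
          have hd2 : (2:ℝ) ≤ d := by exact_mod_cast hd.1
          have hd0 : (0:ℝ) < d := by linarith
          rw [card_product, Nat.Ioc_filter_dvd_card_eq_div, Nat.Ioc_filter_dvd_card_eq_div]
          push_cast
          have e1 : ((A / d ^ 4 : ℕ) : ℝ) ≤ (A:ℝ) / (d:ℝ) ^ 4 := by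
            have := @Nat.cast_div_le ℝ _ _ _ A (d ^ 4)
            push_cast at this
            exact this
          have e2 : ((B / d ^ 6 : ℕ) : ℝ) ≤ (B:ℝ) / (d:ℝ) ^ 6 := by
            have := @Nat.cast_div_le ℝ _ _ _ B (d ^ 6)
            push_cast at this
            exact this
          calc ((A / d ^ 4 : ℕ) : ℝ) * ((B / d ^ 6 : ℕ) : ℝ) ≤ ((A:ℝ) / (d:ℝ) ^ 4) * ((B:ℝ) / (d:ℝ) ^ 6) :=
                mul_le_mul e1 e2 (Nat.cast_nonneg _) (by positivity)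
            _ = (A * B : ℝ) * (1 / (d:ℝ) ^ 10) := by field_simp
            _ ≤ (A * B : ℝ) * (1 / 2 * (1 / ((d:ℝ) * (d - 1)))) := by
                refine mul_le_mul_of_nonneg_left ?_ (by positivity)
                have hd1 : 0 < (d:ℝ) - 1 := by linarith
                have e3 : 2 * ((d:ℝ) * (d - 1)) ≤ (d:ℝ) ^ 10 := by
                  have e4 : (2:ℝ) ^ 8 ≤ (d:ℝ) ^ 8 := pow_le_pow_left₀ (by norm_num) hd2 8
                  have e5 : (d:ℝ) ^ 10 = (d:ℝ) ^ 8 * (d:ℝ) ^ 2 := by ring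
                  have e6 : (d:ℝ) * (d - 1) ≤ (d:ℝ) ^ 2 := by nlinarith
                  rw [e5]
                  nlinarith [sq_nonneg (d:ℝ)]
                have e7 : 1 / 2 * (1 / ((d:ℝ) * (d - 1))) = 1 / (2 * ((d:ℝ) * (d - 1))) := by field_simp
                calc 1 / (d:ℝ) ^ 10 ≤ 1 / (2 * ((d:ℝ) * (d - 1))) := one_div_le_one_div_of_le (by positivity) e3
                  _ = _ := e7.symm
            _ = _ := by ring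
      _ = (A * B : ℝ) / 2 * ∑ d ∈ Icc 2 B, (1 / ((d:ℝ) * (d - 1))) := by rw [mul_sum]
      _ ≤ (A * B : ℝ) / 2 * 1 := mul_le_mul_of_nonneg_left (tele B) (by positivity)
      _ = _ := mul_one _
  refine le_trans ?_ h2
  exact_mod_cast h1

/-- the minimal equations in the box -/
def Crv (X : ℝ) : Set (ℤ × ℤ) :=
  {ab | |(ab.1 : ℝ)| ≤ X ^ (1 / 3 : ℝ) ∧ |(ab.2 : ℝ)| ≤ X ^ (1 / 2 : ℝ) ∧ 4 * ab.1 ^ 3 + 27 * ab.2 ^ 2 ≠ 0 ∧
    ∀ p : ℕ, p.Prime → ¬ ((p:ℤ) ^ 4 ∣ ab.1 ∧ (p:ℤ) ^ 6 ∣ ab.2)}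

theorem min_count (X : ℝ) (hX : 1 ≤ X) (hfin : (Crv X).Finite) : X ^ (5 / 6 : ℝ) / 8 ≤ ((Crv X).ncard : ℝ) := by
  classical
  have hX0 : 0 < X := by linarith
  set A : ℕ := ⌊X ^ (1 / 3 : ℝ)⌋₊ with hA
  set B : ℕ := ⌊X ^ (1 / 2 : ℝ)⌋₊ with hB
  have hhalf : ∀ t : ℝ, 1 ≤ t → t / 2 ≤ (⌊t⌋₊ : ℝ) := fun t ht => by
    have h1 := Nat.lt_floor_add_one t
    have h2 : (1:ℝ) ≤ (⌊t⌋₊ : ℝ) := by exact_mod_cast (Nat.one_le_floor_iff t).2 ht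
    linarith
  have hA1 : X ^ (1 / 3 : ℝ) / 2 ≤ (A:ℝ) := hhalf _ (Real.one_le_rpow hX (by norm_num))
  have hB1 : X ^ (1 / 2 : ℝ) / 2 ≤ (B:ℝ) := hhalf _ (Real.one_le_rpow hX (by norm_num))
  set S := ((Ioc 0 A) ×ˢ (Ioc 0 B)).filter (fun ab : ℕ × ℕ => ¬ ∃ p : ℕ, p.Prime ∧ p ^ 4 ∣ ab.1 ∧ p ^ 6 ∣ ab.2) with hS
  have hcard : (A * B : ℝ) / 2 ≤ (S.card : ℝ) := by
    have h1 := card_filter_add_card_filter_not (s := (Ioc 0 A) ×ˢ (Ioc 0 B)) (fun ab : ℕ × ℕ => ∃ p : ℕ, p.Prime ∧ p ^ 4 ∣ ab.1 ∧ p ^ 6 ∣ ab.2)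
    rw [card_product, Nat.card_Ioc, Nat.card_Ioc, Nat.sub_zero, Nat.sub_zero] at h1
    have h2 := nonmin A B
    have h3 : (((((Ioc 0 A) ×ˢ (Ioc 0 B)).filter (fun ab : ℕ × ℕ => ∃ p : ℕ, p.Prime ∧ p ^ 4 ∣ ab.1 ∧ p ^ 6 ∣ ab.2)).card : ℕ) : ℝ) + (S.card : ℝ) = A * B := by
      exact_mod_cast h1
    linarith
  have hinj : Function.Injective (fun ab : ℕ × ℕ => ((ab.1 : ℤ), (ab.2 : ℤ))) := by
    intro x y h
    simp only [Prod.mk.injEq, Nat.cast_inj] at h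
    exact Prod.ext h.1 h.2
  have hsub : ((S.image (fun ab : ℕ × ℕ => ((ab.1 : ℤ), (ab.2 : ℤ))) : Finset (ℤ × ℤ)) : Set (ℤ × ℤ)) ⊆ Crv X := by
    intro z hz
    rw [Finset.mem_coe, mem_image] at hz
    obtain ⟨ab, hab, rfl⟩ := hz
    rw [hS, mem_filter, mem_product, mem_Ioc, mem_Ioc] at hab
    obtain ⟨⟨⟨h1, h2⟩, h3, h4⟩, h5⟩ := hab
    have e1 : ((ab.1 : ℕ) : ℝ) ≤ X ^ (1 / 3 : ℝ) := (Nat.cast_le.2 h2).trans (Nat.floor_le (by positivity))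
    have e2 : ((ab.2 : ℕ) : ℝ) ≤ X ^ (1 / 2 : ℝ) := (Nat.cast_le.2 h4).trans (Nat.floor_le (by positivity))
    refine ⟨?_, ?_, ?_, fun p hp hd => h5 ⟨p, hp, ?_, ?_⟩⟩
    · simp only [Int.cast_natCast]
      rw [abs_of_nonneg (Nat.cast_nonneg _)]; exact e1
    · simp only [Int.cast_natCast]
      rw [abs_of_nonneg (Nat.cast_nonneg _)]; exact e2
    · simp only
      have : (0:ℤ) < ab.1 := by exact_mod_cast h1
      positivity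
    · have h6 : ((p:ℤ)) ^ 4 ∣ (ab.1 : ℤ) := hd.1
      exact_mod_cast h6
    · have h6 : ((p:ℤ)) ^ 6 ∣ (ab.2 : ℤ) := hd.2
      exact_mod_cast h6
  have h6 := Set.ncard_le_ncard hsub hfin
  rw [Set.ncard_coe_finset, card_image_of_injective _ hinj] at h6
  have h7 : X ^ (5 / 6 : ℝ) = X ^ (1 / 3 : ℝ) * X ^ (1 / 2 : ℝ) := by
    rw [← Real.rpow_add hX0]; norm_num
  have h8 : X ^ (5 / 6 : ℝ) / 4 ≤ A * B := by
    calc X ^ (5 / 6 : ℝ) / 4 = (X ^ (1 / 3 : ℝ) / 2) * (X ^ (1 / 2 : ℝ) / 2) := by rw [h7]; ring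
      _ ≤ A * B := mul_le_mul hA1 hB1 (by positivity) (Nat.cast_nonneg _)
  calc X ^ (5 / 6 : ℝ) / 8 ≤ (A * B : ℝ) / 2 := by linarith
    _ ≤ (S.card : ℝ) := hcard
    _ ≤ _ := by exact_mod_cast h6

end Pool.Agent.KS6_10
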