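import Pool.Agent.KS6_10.BSum3

/-!
# The mollifier on average over the box
-/

set_option autoImplicit false
set_option linter.unusedVariables false

namespace Pool.Agent.KS6_10

open Finset ArithmeticFunction MeasureTheory Filter Topology
open scoped ArithmeticFunction ArithmeticFunction.Moebius

/-- weighted sums over `n < 2^J` -/
theorem mo_gen (κ : ℝ) (hκ : 0 < κ) : ∃ C : ℝ, 1 ≤ C ∧ ∀ (X W : ℝ) (J : ℕ) (η : ℕ → ℂ), 1 ≤ X →
    ((2:ℝ) ^ J) ^ 2 ≤ X → 0 ≤ W → (∀ n, 1 ≤ n → n < 2 ^ J → ‖η n‖ ≤ W * (n:ℝ) ^ (-(4 / 3 : ℝ))) →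
    ∑ ab ∈ bxA X ×ˢ bxB X, ‖∑ n ∈ range (2 ^ J), sfi (vA ab.1 ab.2) n * η n‖ ≤ C * X ^ (5 / 6 + κ) * J * W := by
  obtain ⟨C, hC, h⟩ := l1_block κ hκ
  refine ⟨2 * C, by linarith, fun X W J η hX hJX hW hη => ?_⟩
  have hX0 : 0 < X := by linarith
  have hj : ∀ j ∈ range J, ∑ ab ∈ bxA X ×ˢ bxB X, ‖∑ n ∈ dy j, sfi (vA ab.1 ab.2) n * η n‖ ≤ 2 * C * X ^ (5 / 6 + κ) * W := by
    intro j hj
    have hj' : j + 1 ≤ J := mem_range.1 hj
    have hP0 : (0:ℝ) < (2:ℝ) ^ j := by positivity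
    have h1 := h X 1 (2 ^ (j + 1)) (dy j) (fun n => (Real.sqrt n : ℂ) * η n) (W * ((2:ℝ) ^ j) ^ (-(5 / 6 : ℝ))) hX le_rfl hX Nat.one_le_two_pow
      (by
        push_cast
        rw [one_mul]
        refine le_trans ?_ hJX
        exact pow_le_pow_left₀ (by positivity) (pow_le_pow_right₀ (by norm_num) hj') 2)
      (fun n hn => by
        obtain ⟨⟨h2, h3⟩, h4, h5⟩ := mem_dy.1 hn
        exact ⟨h3.le, cop6_odd h5, h4⟩) (by positivity) (fun n hn => by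
        obtain ⟨⟨h2, h3⟩, h4, h5⟩ := mem_dy.1 hn
        have h2' : (2:ℝ) ^ j ≤ n := by exact_mod_cast h2
        have hn0 : (0:ℝ) < n := lt_of_lt_of_le hP0 h2'
        have hn1 : 1 ≤ n := by exact_mod_cast hn0
        have hnJ : n < 2 ^ J := lt_of_lt_of_le h3 (Nat.pow_le_pow_right (by norm_num) hj')
        rw [norm_mul, Complex.norm_real, Real.norm_of_nonneg (Real.sqrt_nonneg _)]
        calc Real.sqrt n * ‖η n‖ ≤ Real.sqrt n * (W * (n:ℝ) ^ (-(4 / 3 : ℝ))) := mul_le_mul_of_nonneg_left (hη n hn1 hnJ) (Real.sqrt_nonneg _)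
          _ = W * (n:ℝ) ^ (-(5 / 6 : ℝ)) := by
              rw [Real.sqrt_eq_rpow, mul_left_comm, ← Real.rpow_add hn0]
              norm_num
          _ ≤ W * ((2:ℝ) ^ j) ^ (-(5 / 6 : ℝ)) := mul_le_mul_of_nonneg_left (Real.rpow_le_rpow_of_nonpos hP0 h2' (by norm_num)) hW)
    have h2 : ∀ ab : ℤ × ℤ, ∑ n ∈ dy j, sfi (vA ab.1 ab.2) n * η n =
        ∑ n ∈ dy j, (Real.sqrt n : ℂ) * η n * ((SS n ab.1 ab.2 : ℂ) / (Real.sqrt n : ℂ)) := fun ab => by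
      refine sum_congr rfl fun n hn => ?_
      obtain ⟨⟨h2, h3⟩, h4, h5⟩ := mem_dy.1 hn
      have hn0 : 0 < n := lt_of_lt_of_le (by positivity) h2
      have hs : (Real.sqrt n : ℂ) ≠ 0 := by
        have : 0 < Real.sqrt n := Real.sqrt_pos.2 (by exact_mod_cast hn0)
        exact_mod_cast this.ne'
      rw [sfi_vA_val ⟨h4, h5⟩]
      field_simp
    simp only [h2]
    refine h1.trans ?_
    rw [Real.one_rpow, mul_one]
    push_cast
    have e1 : ((2:ℝ) ^ (j + 1)) ^ (5 / 6 : ℝ) * ((2:ℝ) ^ j) ^ (-(5 / 6 : ℝ)) ≤ 2 := by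
      rw [pow_succ, Real.mul_rpow (by positivity) (by norm_num), mul_assoc, mul_comm ((2:ℝ) ^ (5 / 6 : ℝ)), ← mul_assoc, ← Real.rpow_add hP0, add_neg_cancel,
        Real.rpow_zero, one_mul]
      calc (2:ℝ) ^ (5 / 6 : ℝ) ≤ (2:ℝ) ^ (1:ℝ) := Real.rpow_le_rpow_of_exponent_le (by norm_num) (by norm_num)
        _ = 2 := Real.rpow_one 2
    calc C * X ^ (5 / 6 + κ) * ((2:ℝ) ^ (j + 1)) ^ (5 / 6 : ℝ) * (W * ((2:ℝ) ^ j) ^ (-(5 / 6 : ℝ)))
        = C * X ^ (5 / 6 + κ) * W * (((2:ℝ) ^ (j + 1)) ^ (5 / 6 : ℝ) * ((2:ℝ) ^ j) ^ (-(5 / 6 : ℝ))) := by ring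
      _ ≤ C * X ^ (5 / 6 + κ) * W * 2 := mul_le_mul_of_nonneg_left e1 (by positivity)
      _ = _ := by ring
  calc ∑ ab ∈ bxA X ×ˢ bxB X, ‖∑ n ∈ range (2 ^ J), sfi (vA ab.1 ab.2) n * η n‖
      = ∑ ab ∈ bxA X ×ˢ bxB X, ‖∑ j ∈ range J, ∑ n ∈ dy j, sfi (vA ab.1 ab.2) n * η n‖ := by
        refine sum_congr rfl fun ab _ => ?_
        rw [sum_dyadic _ (fun n hn => by rw [(sfi_zero hn).2, zero_mul]) J]
    _ ≤ ∑ ab ∈ bxA X ×ˢ bxB X, ∑ j ∈ range J, ‖∑ n ∈ dy j, sfi (vA ab.1 ab.2) n * η n‖ := sum_le_sum fun ab _ => norm_sum_le _ _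
    _ = ∑ j ∈ range J, ∑ ab ∈ bxA X ×ˢ bxB X, ‖∑ n ∈ dy j, sfi (vA ab.1 ab.2) n * η n‖ := sum_comm
    _ ≤ ∑ j ∈ range J, 2 * C * X ^ (5 / 6 + κ) * W := sum_le_sum hj
    _ = _ := by rw [sum_const, card_range, nsmul_eq_mul]; ring

/-- the mollifier -/
noncomputable def Mo (J : ℕ) (a b : ℤ) (s : ℂ) : ℂ := ∑ n ∈ range (2 ^ J), sfi (vA a b) n * (n:ℂ) ^ (-s)

/-- the mollifier on the line `Re s = 4/3` -/
noncomputable def mo (J : ℕ) (a b : ℤ) (y : ℝ) : ℂ := Mo J a b (4 / 3 + y * Complex.I)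

/-- its derivative -/
noncomputable def mo' (J : ℕ) (a b : ℤ) (y : ℝ) : ℂ :=
  ∑ n ∈ range (2 ^ J), sfi (vA a b) n * ((n:ℂ) ^ (-(4 / 3 + y * Complex.I)) * (Complex.log n * (-Complex.I)))

theorem mo_deriv (J : ℕ) (a b : ℤ) (y : ℝ) : HasDerivAt (mo J a b) (mo' J a b y) y := by
  unfold mo Mo mo'
  refine HasDerivAt.fun_sum fun n hn => ?_
  rcases Nat.eq_zero_or_pos n with h0 | h0
  · subst h0
    simp only [ArithmeticFunction.map_zero, zero_mul]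
    exact hasDerivAt_const _ _
  refine HasDerivAt.const_mul _ ?_
  have hn0 : (n:ℂ) ≠ 0 := by exact_mod_cast h0.ne'
  have h1 : HasDerivAt (fun z : ℂ => -(4 / 3 + z * Complex.I)) (-Complex.I) (y : ℂ) := by
    have h3 := (((hasDerivAt_id (y:ℂ)).mul_const Complex.I).const_add (4 / 3 : ℂ)).neg
    rwa [one_mul] at h3
  have h4 := (h1.const_cpow (c := (n:ℂ)) (Or.inl hn0)).comp_ofReal
  rw [mul_assoc] at h4
  exact h4

theorem mo'_cont (J : ℕ) (a b : ℤ) : Continuous (mo' J a b) := by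
  unfold mo'
  refine continuous_finsetSum _ fun n hn => ?_
  rcases Nat.eq_zero_or_pos n with h0 | h0
  · subst h0
    simp only [ArithmeticFunction.map_zero, zero_mul]
    exact continuous_const
  have hn0 : (n:ℂ) ≠ 0 := by exact_mod_cast h0.ne'
  refine continuous_const.mul (Continuous.mul ?_ continuous_const)
  refine Continuous.const_cpow (by fun_prop) (Or.inl hn0)

theorem mo_cont (J : ℕ) (a b : ℤ) : Continuous (mo J a b) :=
  continuous_iff_continuousAt.2 fun y => (mo_deriv J a b y).continuousAt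

theorem norm_cpow43 {n : ℕ} (hn : 0 < n) (y : ℝ) : ‖(n:ℂ) ^ (-(4 / 3 + (y:ℂ) * Complex.I))‖ = (n:ℝ) ^ (-(4 / 3 : ℝ)) := by
  rw [Complex.norm_natCast_cpow_of_pos hn]
  congr 1
  simp

/-- the weight -/
noncomputable def JM (J : ℕ) (a b : ℤ) : ℝ := ∫ y : ℝ, (‖mo J a b y‖ + ‖mo' J a b y‖) * (1 + y ^ 2)⁻¹

theorem mo_bdd (J : ℕ) (a b : ℤ) : ∃ B : ℝ, ∀ y : ℝ, ‖mo J a b y‖ + ‖mo' J a b y‖ ≤ B := by
  refine ⟨∑ n ∈ range (2 ^ J), ‖sfi (vA a b) n‖ * (n:ℝ) ^ (-(4 / 3 : ℝ)) +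
    ∑ n ∈ range (2 ^ J), ‖sfi (vA a b) n‖ * ((n:ℝ) ^ (-(4 / 3 : ℝ)) * ‖Complex.log n‖), fun y => ?_⟩
  have h1 : ‖mo J a b y‖ ≤ ∑ n ∈ range (2 ^ J), ‖sfi (vA a b) n‖ * (n:ℝ) ^ (-(4 / 3 : ℝ)) := by
    unfold mo Mo
    refine (norm_sum_le _ _).trans (sum_le_sum fun n hn => ?_)
    rcases Nat.eq_zero_or_pos n with h0 | h0
    · subst h0; simp
    rw [norm_mul, norm_cpow43 h0]
  have h2 : ‖mo' J a b y‖ ≤ ∑ n ∈ range (2 ^ J), ‖sfi (vA a b) n‖ * ((n:ℝ) ^ (-(4 / 3 : ℝ)) * ‖Complex.log n‖) := by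
    unfold mo'
    refine (norm_sum_le _ _).trans (sum_le_sum fun n hn => ?_)
    rcases Nat.eq_zero_or_pos n with h0 | h0
    · subst h0; simp
    rw [norm_mul, norm_mul, norm_cpow43 h0, norm_mul, norm_neg, Complex.norm_I, mul_one]
  linarith

theorem mo_intg (J : ℕ) (a b : ℤ) : Integrable (fun y : ℝ => (‖mo J a b y‖ + ‖mo' J a b y‖) * (1 + y ^ 2)⁻¹) := by
  obtain ⟨B, hB⟩ := mo_bdd J a b
  refine Integrable.bdd_mul (c := B) integrable_inv_one_add_sq ?_ (ae_of_all _ fun y => ?_)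
  · exact ((mo_cont J a b).norm.add (mo'_cont J a b).norm).aestronglyMeasurable
  · rw [Real.norm_of_nonneg (by positivity)]
    exact hB y

/-- pointwise bound from the integral -/
theorem mo_le (J : ℕ) (a b : ℤ) (y : ℝ) : ‖mo J a b y‖ ≤ 3 * (1 + y ^ 2) * JM J a b := by
  have hcm := (mo_cont J a b).norm
  have hcm' := (mo'_cont J a b).norm
  have hint : ∀ p q : ℝ, IntervalIntegrable (fun v => ‖mo J a b v‖) volume p q := fun p q => hcm.intervalIntegrable p q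
  have hint' : ∀ p q : ℝ, IntervalIntegrable (fun v => ‖mo' J a b v‖) volume p q := fun p q => hcm'.intervalIntegrable p q
  have h1 : ∀ v ∈ Set.Icc y (y + 1), ‖mo J a b y‖ ≤ ‖mo J a b v‖ + ∫ t in y..(y + 1), ‖mo' J a b t‖ := by
    intro v hv
    have h2 : ∫ t in y..v, mo' J a b t = mo J a b v - mo J a b y :=
      intervalIntegral.integral_eq_sub_of_hasDerivAt (fun t _ => mo_deriv J a b t) ((mo'_cont J a b).intervalIntegrable _ _)
    have h3 : ‖∫ t in y..v, mo' J a b t‖ ≤ ∫ t in y..v, ‖mo' J a b t‖ := intervalIntegral.norm_integral_le_integral_norm hv.1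
    have h4 : ∫ t in y..v, ‖mo' J a b t‖ ≤ ∫ t in y..(y + 1), ‖mo' J a b t‖ := by
      rw [← intervalIntegral.integral_add_adjacent_intervals (hint' y v) (hint' v (y + 1))]
      have : 0 ≤ ∫ t in v..(y + 1), ‖mo' J a b t‖ := intervalIntegral.integral_nonneg hv.2 fun t _ => norm_nonneg _
      linarith
    rw [h2] at h3
    have h5 : ‖mo J a b y‖ ≤ ‖mo J a b v‖ + ‖mo J a b v - mo J a b y‖ := by
      have := norm_sub_le (mo J a b v) (mo J a b v - mo J a b y)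
      rwa [sub_sub_cancel] at this
    linarith
  have h2 : ‖mo J a b y‖ ≤ ∫ t in y..(y + 1), (‖mo J a b t‖ + ‖mo' J a b t‖) := by
    have h3 : ∫ t in y..(y + 1), ‖mo J a b y‖ ≤ ∫ v in y..(y + 1), (‖mo J a b v‖ + ∫ t in y..(y + 1), ‖mo' J a b t‖) := by
      refine intervalIntegral.integral_mono_on (by linarith) (by simp) ((hint y (y + 1)).add (by simp)) fun v hv => h1 v hv
    rw [intervalIntegral.integral_const, intervalIntegral.integral_add (hint _ _) (by simp), intervalIntegral.integral_const] at h3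
    rw [intervalIntegral.integral_add (hint _ _) (hint' _ _)]
    simp only [add_sub_cancel_left, one_smul] at h3
    exact h3
  refine h2.trans ?_
  rw [intervalIntegral.integral_of_le (by linarith)]
  have hw : ∀ t ∈ Set.Ioc y (y + 1), (‖mo J a b t‖ + ‖mo' J a b t‖) ≤ 3 * (1 + y ^ 2) * ((‖mo J a b t‖ + ‖mo' J a b t‖) * (1 + t ^ 2)⁻¹) := by
    intro t ht
    have h3 : 1 + t ^ 2 ≤ 3 * (1 + y ^ 2) := by
      have h4 : t ^ 2 ≤ (|y| + 1) ^ 2 := by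
        rw [sq_le_sq, abs_of_nonneg (by positivity : 0 ≤ |y| + 1), abs_le]
        have h5 := neg_abs_le y
        have h6 := le_abs_self y
        have h7 := ht.1
        have h8 := ht.2
        constructor <;> linarith
      have h5 : |y| ^ 2 = y ^ 2 := sq_abs y
      nlinarith [sq_nonneg (|y| - 1)]
    have h4 : 0 ≤ ‖mo J a b t‖ + ‖mo' J a b t‖ := by positivity
    have h5 : 1 ≤ 3 * (1 + y ^ 2) * (1 + t ^ 2)⁻¹ := by
      rw [← div_eq_mul_inv, one_le_div (by positivity)]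
      exact h3
    calc _ = (‖mo J a b t‖ + ‖mo' J a b t‖) * 1 := (mul_one _).symm
      _ ≤ (‖mo J a b t‖ + ‖mo' J a b t‖) * (3 * (1 + y ^ 2) * (1 + t ^ 2)⁻¹) := mul_le_mul_of_nonneg_left h5 h4
      _ = _ := by ring
  calc ∫ t in Set.Ioc y (y + 1), (‖mo J a b t‖ + ‖mo' J a b t‖) ≤
      ∫ t in Set.Ioc y (y + 1), 3 * (1 + y ^ 2) * ((‖mo J a b t‖ + ‖mo' J a b t‖) * (1 + t ^ 2)⁻¹) := by
        refine setIntegral_mono_on ?_ ((mo_intg J a b).const_mul _).integrableOn measurableSet_Ioc hw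
        exact ((hint y (y+1)).add (hint' y (y+1))).1
    _ = 3 * (1 + y ^ 2) * ∫ t in Set.Ioc y (y + 1), (‖mo J a b t‖ + ‖mo' J a b t‖) * (1 + t ^ 2)⁻¹ := integral_const_mul _ _
    _ ≤ 3 * (1 + y ^ 2) * JM J a b := by
        refine mul_le_mul_of_nonneg_left ?_ (by positivity)
        exact setIntegral_le_integral (mo_intg J a b) (ae_of_all _ fun t => by positivity)

theorem JM_nonneg (J : ℕ) (a b : ℤ) : 0 ≤ JM J a b := integral_nonneg fun y => by positivity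

/-- **first moment of the mollifier** -/
theorem msum (κ : ℝ) (hκ : 0 < κ) : ∃ C : ℝ, 0 < C ∧ ∀ (X : ℝ) (J : ℕ), 1 ≤ X → ((2:ℝ) ^ J) ^ 2 ≤ X →
    ∑ ab ∈ bxA X ×ˢ bxB X, JM J ab.1 ab.2 ≤ C * X ^ (5 / 6 + κ) * (J + 1) ^ 2 := by
  obtain ⟨C, hC, h⟩ := mo_gen κ hκ
  refine ⟨2 * C * Real.pi, by have := Real.pi_pos; positivity, fun X J hX hJ => ?_⟩
  have hX0 : 0 < X := by linarith
  unfold JM
  rw [← integral_finsetSum _ fun ab _ => mo_intg J ab.1 ab.2]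
  have h1 : ∀ y : ℝ, ∑ ab ∈ bxA X ×ˢ bxB X, (‖mo J ab.1 ab.2 y‖ + ‖mo' J ab.1 ab.2 y‖) * (1 + y ^ 2)⁻¹ ≤
      (2 * C * X ^ (5 / 6 + κ) * (J + 1) ^ 2) * (1 + y ^ 2)⁻¹ := by
    intro y
    rw [← sum_mul, sum_add_distrib]
    refine mul_le_mul_of_nonneg_right ?_ (by positivity)
    have e1 := h X 1 J (fun n => (n:ℂ) ^ (-(4 / 3 + (y:ℂ) * Complex.I))) hX hJ zero_le_one (fun n hn _ => by
      rw [norm_cpow43 hn, one_mul])
    have e2 := h X J J (fun n => (n:ℂ) ^ (-(4 / 3 + (y:ℂ) * Complex.I)) * (Complex.log n * (-Complex.I))) hX hJ (Nat.cast_nonneg J) (fun n hn hnJ => by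
      have hn1 : (1:ℝ) ≤ n := by exact_mod_cast hn
      rw [norm_mul, norm_cpow43 hn, norm_mul, norm_neg, Complex.norm_I, mul_one, mul_comm]
      refine mul_le_mul_of_nonneg_right ?_ (by positivity)
      have e3 : Complex.log (n:ℂ) = ((Real.log n : ℝ) : ℂ) := by
        rw [Complex.ofReal_log (by linarith), Complex.ofReal_natCast]
      rw [e3, Complex.norm_real, Real.norm_of_nonneg (Real.log_nonneg hn1)]
      have e4 : Real.log n ≤ Real.log ((2:ℝ) ^ J) := Real.log_le_log (by linarith) (by exact_mod_cast hnJ.le)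
      rw [Real.log_pow] at e4
      have e5 : Real.log 2 ≤ 1 := by have := Real.log_two_lt_d9; linarith
      calc Real.log n ≤ J * Real.log 2 := e4
        _ ≤ J * 1 := mul_le_mul_of_nonneg_left e5 (Nat.cast_nonneg J)
        _ = J := mul_one _)
    have e3 : ∑ ab ∈ bxA X ×ˢ bxB X, ‖mo J ab.1 ab.2 y‖ ≤ C * X ^ (5 / 6 + κ) * J * 1 := e1
    have e4 : ∑ ab ∈ bxA X ×ˢ bxB X, ‖mo' J ab.1 ab.2 y‖ ≤ C * X ^ (5 / 6 + κ) * J * J := e2
    have e5 : (0:ℝ) ≤ J := Nat.cast_nonneg J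
    have e6 : 0 ≤ C * X ^ (5 / 6 + κ) := by positivity
    calc _ ≤ C * X ^ (5 / 6 + κ) * J * 1 + C * X ^ (5 / 6 + κ) * J * J := add_le_add e3 e4
      _ = C * X ^ (5 / 6 + κ) * (J + J ^ 2) := by ring
      _ ≤ C * X ^ (5 / 6 + κ) * (2 * (J + 1) ^ 2) := mul_le_mul_of_nonneg_left (by nlinarith) e6
      _ = _ := by ring
  refine (integral_mono (integrable_finsetSum _ fun ab _ => mo_intg J ab.1 ab.2) (integrable_inv_one_add_sq.const_mul _) h1).trans (le_of_eq ?_)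
  rw [integral_const_mul, integral_univ_inv_one_add_sq]
  ring

end Pool.Agent.KS6_10
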