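import Pool.Agent.KS6_10.Arith

/-!
# Sums of multiplicative functions supported on almost squarefull numbers
-/

set_option autoImplicit false
set_option linter.unusedVariables false

namespace Pool.Agent.KS6_10

open Finset ArithmeticFunction
open scoped ArithmeticFunction

theorem sum_geo2 : Summable (fun k : ℕ => ((k:ℝ) + 1) * (3 / 5 : ℝ) ^ k) ∧ ∑' k : ℕ, ((k:ℝ) + 1) * (3 / 5 : ℝ) ^ k = 25 / 4 := by
  have h1 := hasSum_coe_mul_geometric_of_norm_lt_one (𝕜 := ℝ) (r := 3 / 5) (by rw [Real.norm_eq_abs, abs_of_pos (by norm_num)]; norm_num)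
  have h2 := hasSum_geometric_of_lt_one (r := (3 / 5 : ℝ)) (by norm_num) (by norm_num)
  have h3 := h1.add h2
  have e : (fun k : ℕ => (k:ℝ) * (3 / 5 : ℝ) ^ k + (3 / 5 : ℝ) ^ k) = fun k : ℕ => ((k:ℝ) + 1) * (3 / 5 : ℝ) ^ k := by
    funext k; ring
  rw [e] at h3
  refine ⟨h3.summable, ?_⟩
  rw [h3.tsum_eq]
  norm_num

theorem sum_geo3 : Summable (fun k : ℕ => ((k + 2).choose 2 : ℝ) * (17 / 20 : ℝ) ^ k) ∧
    ∑' k : ℕ, ((k + 2).choose 2 : ℝ) * (17 / 20 : ℝ) ^ k ≤ 512 := by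
  have h1 := hasSum_choose_mul_geometric_of_norm_lt_one (𝕜 := ℝ) 2 (r := 17 / 20) (by rw [Real.norm_eq_abs, abs_of_pos (by norm_num)]; norm_num)
  refine ⟨h1.summable, ?_⟩
  rw [h1.tsum_eq]
  norm_num

/-- `y_p` -/
noncomputable def yy (p : ℕ) : ℝ := (2 * Real.sqrt p) * (p : ℝ) ^ (-(5 / 4 : ℝ))

theorem yy_nonneg (p : ℕ) : 0 ≤ yy p := by unfold yy; positivity

theorem rpow34_le {p : ℕ} {q : ℝ} (hq : 0 < q) (h : q ^ 4 * (p:ℝ) ^ 3 ≥ 1) (hp : 0 < p) : (p:ℝ) ^ (-(3 / 4 : ℝ)) ≤ q := by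
  have hp0 : (0:ℝ) < p := by exact_mod_cast hp
  have h1 : ((p:ℝ) ^ (-(3 / 4 : ℝ))) ^ (4:ℕ) = ((p:ℝ) ^ 3)⁻¹ := by
    rw [← Real.rpow_natCast, ← Real.rpow_mul hp0.le]
    have : (-(3 / 4 : ℝ)) * ((4:ℕ) : ℝ) = -((3:ℕ) : ℝ) := by push_cast; ring
    rw [this, Real.rpow_neg hp0.le, Real.rpow_natCast]
  refine le_of_pow_le_pow_left₀ (n := 4) (by norm_num) hq.le ?_
  rw [h1, inv_le_iff_one_le_mul₀ (by positivity)]
  exact h

theorem sqrt_mul_rpow {p : ℕ} (hp : 0 < p) : Real.sqrt p * (p : ℝ) ^ (-(5 / 4 : ℝ)) = (p:ℝ) ^ (-(3 / 4 : ℝ)) := by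
  have hp0 : (0:ℝ) < p := by exact_mod_cast hp
  rw [Real.sqrt_eq_rpow, ← Real.rpow_add hp0]
  norm_num

theorem yy_le {p : ℕ} (h5 : 5 ≤ p) : yy p ≤ 3 / 5 := by
  unfold yy
  rw [mul_assoc, sqrt_mul_rpow (by omega)]
  have h1 : (p:ℝ) ^ (-(3 / 4 : ℝ)) ≤ 3 / 10 := by
    refine rpow34_le (by norm_num) ?_ (by omega)
    have : (5:ℝ) ≤ p := by exact_mod_cast h5
    have h3 : (5:ℝ) ^ 3 ≤ (p:ℝ) ^ 3 := pow_le_pow_left₀ (by norm_num) this 3
    nlinarith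
  linarith

theorem rpow14_le {p : ℕ} (hp : 2 ≤ p) : (p:ℝ) * (p:ℝ) ^ (-(5 / 4 : ℝ)) ≤ 17 / 20 := by
  have hp2 : (2:ℝ) ≤ p := by exact_mod_cast hp
  have hp0 : (0:ℝ) < p := by linarith
  have e : (p:ℝ) * (p:ℝ) ^ (-(5 / 4 : ℝ)) = (p:ℝ) ^ (-(1 / 4 : ℝ)) := by
    nth_rewrite 1 [← Real.rpow_one (p:ℝ)]
    rw [← Real.rpow_add hp0]
    norm_num
  rw [e]
  have h1 : ((p:ℝ) ^ (-(1 / 4 : ℝ))) ^ (4:ℕ) = (p:ℝ)⁻¹ := by
    rw [← Real.rpow_natCast, ← Real.rpow_mul hp0.le]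
    have : (-(1 / 4 : ℝ)) * ((4:ℕ) : ℝ) = -1 := by push_cast; ring
    rw [this, Real.rpow_neg_one]
  refine le_of_pow_le_pow_left₀ (n := 4) (by norm_num) (by norm_num) ?_
  rw [h1, inv_le_iff_one_le_mul₀ (by positivity)]
  nlinarith

theorem yy_sq {p : ℕ} (h5 : 5 ≤ p) : yy p ^ 2 = 4 * (p:ℝ) ^ (-(3 / 2 : ℝ)) := by
  unfold yy
  have hp0 : (0:ℝ) < p := by exact_mod_cast (by omega : 0 < p)
  rw [mul_assoc, sqrt_mul_rpow (by omega), mul_pow, ← Real.rpow_natCast ((p:ℝ) ^ (-(3 / 4 : ℝ))), ← Real.rpow_mul hp0.le]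
  norm_num

theorem two_pow_le_card (n : ℕ) (hn : n ≠ 0) : 2 ^ n.primeFactors.card ≤ n.divisors.card := by
  rw [Nat.card_divisors hn, ← Finset.prod_const]
  refine Finset.prod_le_prod' fun p hp => ?_
  have : 0 < n.factorization p := by
    have h1 := Nat.mem_primeFactors.1 hp
    exact h1.1.factorization_pos_of_dvd hn h1.2.1
  omega

theorem mult_sum : ∃ K : ℝ, 0 < K ∧ ∀ (h : ArithmeticFunction ℂ) (D : ℕ), D ≠ 0 → h.IsMultiplicative →
    (∀ p : ℕ, p.Prime → p ∣ D → ∀ k : ℕ, ‖h (p ^ k)‖ ≤ ((k + 2).choose 2 : ℝ) * (p:ℝ) ^ k) →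
    (∀ p : ℕ, p.Prime → ¬ p ∣ D → 5 ≤ p ∧ h p = 0 ∧ ∀ k : ℕ, ‖h (p ^ k)‖ ≤ ((k:ℝ) + 1) * (2 * Real.sqrt p) ^ k) →
    Summable (fun n : ℕ => ‖h n‖ * (n:ℝ) ^ (-(5 / 4 : ℝ))) ∧
      ∑' n : ℕ, ‖h n‖ * (n:ℝ) ^ (-(5 / 4 : ℝ)) ≤ K * (D.divisors.card : ℝ) ^ 9 := by
  have hz : Summable fun n : ℕ => (n:ℝ) ^ (-(3 / 2 : ℝ)) := Real.summable_nat_rpow.2 (by norm_num)
  set Z : ℝ := ∑' n : ℕ, (n:ℝ) ^ (-(3 / 2 : ℝ)) with hZ
  refine ⟨Real.exp (70 * Z), Real.exp_pos _, fun h D hD hm hb h0 => ?_⟩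
  set f : ℕ → ℝ := fun n => ‖h n‖ * (n:ℝ) ^ (-(5 / 4 : ℝ)) with hf
  have f0 : f 0 = 0 := by simp [hf]
  have f1 : f 1 = 1 := by simp [hf, hm.map_one]
  have fmul : ∀ {m n : ℕ}, m.Coprime n → f (m * n) = f m * f n := fun {m n} hmn => by
    simp only [hf]
    rw [hm.map_mul_of_coprime hmn, norm_mul, Nat.cast_mul, Real.mul_rpow (Nat.cast_nonneg m) (Nat.cast_nonneg n)]
    ring
  have fnn : ∀ n, 0 ≤ f n := fun n => by simp only [hf]; positivity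
  have epow : ∀ {p : ℕ}, p.Prime → ∀ k : ℕ, (((p ^ k : ℕ) : ℝ)) ^ (-(5 / 4 : ℝ)) = ((p:ℝ) ^ (-(5 / 4 : ℝ))) ^ k := fun {p} hp k => by
    have hp0 : (0:ℝ) < p := by exact_mod_cast hp.pos
    rw [Nat.cast_pow, ← Real.rpow_natCast, ← Real.rpow_natCast ((p:ℝ) ^ (-(5 / 4 : ℝ))), ← Real.rpow_mul hp0.le, ← Real.rpow_mul hp0.le, mul_comm]
  have fbad : ∀ {p : ℕ}, p.Prime → p ∣ D → ∀ k : ℕ, f (p ^ k) ≤ ((k + 2).choose 2 : ℝ) * (17 / 20 : ℝ) ^ k := fun {p} hp hd k => by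
    have hp0 : (0:ℝ) < p := by exact_mod_cast hp.pos
    simp only [hf]
    rw [epow hp]
    calc ‖h (p ^ k)‖ * ((p:ℝ) ^ (-(5 / 4 : ℝ))) ^ k ≤ (((k + 2).choose 2 : ℝ) * (p:ℝ) ^ k) * ((p:ℝ) ^ (-(5 / 4 : ℝ))) ^ k :=
          mul_le_mul_of_nonneg_right (hb p hp hd k) (by positivity)
      _ = ((k + 2).choose 2 : ℝ) * ((p:ℝ) * (p:ℝ) ^ (-(5 / 4 : ℝ))) ^ k := by rw [mul_pow]; ring
      _ ≤ _ := mul_le_mul_of_nonneg_left (pow_le_pow_left₀ (by positivity) (rpow14_le hp.two_le) k) (by positivity)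
  have fgood : ∀ {p : ℕ}, p.Prime → ¬ p ∣ D → ∀ k : ℕ, f (p ^ k) ≤ ((k:ℝ) + 1) * yy p ^ k := fun {p} hp hd k => by
    have hp0 : (0:ℝ) < p := by exact_mod_cast hp.pos
    simp only [hf]
    unfold yy
    rw [mul_pow, ← mul_assoc, epow hp]
    exact mul_le_mul_of_nonneg_right ((h0 p hp hd).2.2 k) (by positivity)
  have fgood' : ∀ {p : ℕ}, p.Prime → ¬ p ∣ D → ∀ k : ℕ, f (p ^ k) ≤ ((k:ℝ) + 1) * (3 / 5 : ℝ) ^ k := fun {p} hp hd k =>
    (fgood hp hd k).trans (mul_le_mul_of_nonneg_left (pow_le_pow_left₀ (yy_nonneg p) (yy_le (h0 p hp hd).1) k) (by positivity))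
  have fsum : ∀ {p : ℕ}, p.Prime → Summable fun k : ℕ => f (p ^ k) := fun {p} hp => by
    by_cases hd : p ∣ D
    · exact Summable.of_nonneg_of_le (fun k => fnn _) (fbad hp hd) sum_geo3.1
    · exact Summable.of_nonneg_of_le (fun k => fnn _) (fgood' hp hd) sum_geo2.1
  have fsumn : ∀ {p : ℕ}, p.Prime → Summable fun k : ℕ => ‖f (p ^ k)‖ := fun {p} hp => (fsum hp).norm
  -- local sums
  have loc : ∀ p : ℕ, p.Prime → ∑' k : ℕ, f (p ^ k) ≤ (if p ∣ D then 512 else 1) * Real.exp (70 * (p:ℝ) ^ (-(3 / 2 : ℝ))) := by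
    intro p hp
    have hex : 1 ≤ Real.exp (70 * (p:ℝ) ^ (-(3 / 2 : ℝ))) := Real.one_le_exp (by positivity)
    split_ifs with hd
    · calc ∑' k : ℕ, f (p ^ k) ≤ ∑' k : ℕ, ((k + 2).choose 2 : ℝ) * (17 / 20 : ℝ) ^ k := (fsum hp).tsum_le_tsum (fbad hp hd) sum_geo3.1
        _ ≤ 512 := sum_geo3.2
        _ ≤ 512 * 1 := by norm_num
        _ ≤ _ := by gcongr
    · obtain ⟨h5, hp0, -⟩ := h0 p hp hd
      have hy := yy_sq h5
      have hyl := yy_le h5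
      have hy0 := yy_nonneg p
      have hu : ∀ k : ℕ, f (p ^ k) ≤ (if k = 0 then 1 else 0) + 25 / 9 * yy p ^ 2 * (((k:ℝ) + 1) * (3 / 5 : ℝ) ^ k) := by
        intro k
        rcases k with _ | k
        · rw [pow_zero, f1, if_pos rfl]
          have : 0 ≤ 25 / 9 * yy p ^ 2 * ((((0:ℕ):ℝ) + 1) * (3 / 5 : ℝ) ^ 0) := by positivity
          linarith
        rcases k with _ | k
        · have : f (p ^ (0 + 1)) = 0 := by
            simp only [hf]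
            rw [zero_add, pow_one, hp0, norm_zero, zero_mul]
          rw [this]
          have : 0 ≤ 25 / 9 * yy p ^ 2 * ((((0 + 1 : ℕ):ℝ) + 1) * (3 / 5 : ℝ) ^ (0 + 1)) := by positivity
          simp only [zero_add]
          positivity
        · rw [if_neg (by omega), zero_add]
          refine (fgood hp hd _).trans ?_
          have e1 : yy p ^ (k + 1 + 1) = yy p ^ 2 * yy p ^ k := by ring
          have e2 : (3 / 5 : ℝ) ^ (k + 1 + 1) = 9 / 25 * (3 / 5 : ℝ) ^ k := by ring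
          rw [e1, e2]
          have e3 : yy p ^ k ≤ (3 / 5 : ℝ) ^ k := pow_le_pow_left₀ hy0 hyl k
          calc (((k + 1 + 1 : ℕ) : ℝ) + 1) * (yy p ^ 2 * yy p ^ k) ≤ (((k + 1 + 1 : ℕ) : ℝ) + 1) * (yy p ^ 2 * (3 / 5 : ℝ) ^ k) := by gcongr
            _ = _ := by ring
      have hs1 : Summable fun k : ℕ => (if k = 0 then (1:ℝ) else 0) := summable_of_ne_finset_zero (s := {0}) fun k hk => by
        rw [if_neg (by simpa using hk)]
      have hs2 : Summable fun k : ℕ => 25 / 9 * yy p ^ 2 * (((k:ℝ) + 1) * (3 / 5 : ℝ) ^ k) := sum_geo2.1.mul_left _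
      calc ∑' k : ℕ, f (p ^ k) ≤ ∑' k : ℕ, ((if k = 0 then (1:ℝ) else 0) + 25 / 9 * yy p ^ 2 * (((k:ℝ) + 1) * (3 / 5 : ℝ) ^ k)) :=
            (fsum hp).tsum_le_tsum hu (hs1.add hs2)
        _ = 1 + 25 / 9 * yy p ^ 2 * (25 / 4) := by
            rw [hs1.tsum_add hs2, tsum_ite_eq, tsum_mul_left, sum_geo2.2]
        _ ≤ 70 * (p:ℝ) ^ (-(3 / 2 : ℝ)) + 1 := by
            rw [hy]
            have : 0 ≤ (p:ℝ) ^ (-(3 / 2 : ℝ)) := by positivity
            linarith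
        _ ≤ Real.exp (70 * (p:ℝ) ^ (-(3 / 2 : ℝ))) := Real.add_one_le_exp _
        _ = _ := (one_mul _).symm
  have part : ∀ M : ℕ, ∑ n ∈ range M, f n ≤ Real.exp (70 * Z) * (D.divisors.card : ℝ) ^ 9 := by
    intro M
    obtain ⟨-, hS⟩ := EulerProduct.summable_and_hasSum_smoothNumbers_prod_primesBelow_tsum f1 (fun {m n} => fmul) (fun {p} => fsumn) M
    rw [show (fun m : M.smoothNumbers => f m) = f ∘ (↑) from rfl, hasSum_subtype_iff_indicator] at hS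
    have h1 : ∑ n ∈ range M, f n = ∑ n ∈ range M, Set.indicator (M.smoothNumbers) f n := by
      refine sum_congr rfl fun n hn => ?_
      rcases Nat.eq_zero_or_pos n with h2 | h2
      · rw [h2, f0]
        by_cases h3 : 0 ∈ M.smoothNumbers
        · rw [Set.indicator_of_mem h3, f0]
        · rw [Set.indicator_of_notMem h3]
      · rw [Set.indicator_of_mem (Nat.mem_smoothNumbers_of_lt h2 (mem_range.1 hn))]
    rw [h1]
    refine (sum_le_hasSum _ (fun n _ => Set.indicator_nonneg (fun m _ => fnn m) n) hS).trans ?_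
    calc ∏ p ∈ M.primesBelow, ∑' k : ℕ, f (p ^ k)
        ≤ ∏ p ∈ M.primesBelow, ((if p ∣ D then (512:ℝ) else 1) * Real.exp (70 * (p:ℝ) ^ (-(3 / 2 : ℝ)))) :=
          prod_le_prod (fun p hp => tsum_nonneg fun k => fnn _) fun p hp => loc p (Nat.prime_of_mem_primesBelow hp)
      _ = (∏ p ∈ M.primesBelow, (if p ∣ D then (512:ℝ) else 1)) * ∏ p ∈ M.primesBelow, Real.exp (70 * (p:ℝ) ^ (-(3 / 2 : ℝ))) := prod_mul_distrib
      _ ≤ (D.divisors.card : ℝ) ^ 9 * Real.exp (70 * Z) := by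
          refine mul_le_mul ?_ ?_ (prod_nonneg fun p _ => (Real.exp_pos _).le) (by positivity)
          · rw [← prod_filter, prod_const]
            have h2 : (M.primesBelow.filter (· ∣ D)).card ≤ D.primeFactors.card := by
              refine card_le_card fun p hp => ?_
              rw [mem_filter] at hp
              exact Nat.mem_primeFactors.2 ⟨Nat.prime_of_mem_primesBelow hp.1, hp.2, hD⟩
            calc (512:ℝ) ^ (M.primesBelow.filter (· ∣ D)).card ≤ (512:ℝ) ^ D.primeFactors.card := pow_le_pow_right₀ (by norm_num) h2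
              _ = ((2 ^ D.primeFactors.card : ℕ) : ℝ) ^ 9 := by
                  push_cast
                  rw [← pow_mul, mul_comm, pow_mul]; norm_num
              _ ≤ _ := pow_le_pow_left₀ (Nat.cast_nonneg _) (by exact_mod_cast two_pow_le_card D hD) 9
          · rw [← Real.exp_sum, Real.exp_le_exp, ← mul_sum]
            refine mul_le_mul_of_nonneg_left ?_ (by norm_num)
            exact hz.sum_le_tsum _ fun n _ => by positivity
      _ = _ := mul_comm _ _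
  exact ⟨summable_of_sum_range_le fnn part, Real.tsum_le_of_sum_range_le fnn part⟩

end Pool.Agent.KS6_10
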