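import Pool.Agent.KS6_10.EllD

/-!
# Counting zeros in discs
-/

set_option autoImplicit false
set_option linter.unusedVariables false

namespace Pool.Agent.KS6_10

open Set Metric Topology Filter

/-- the number of zeros in `D`, with multiplicity -/
noncomputable def nz (F : ℂ → ℂ) (D : Set ℂ) : ℕ := ∑ᶠ z ∈ {z : ℂ | z ∈ D ∧ F z = 0}, analyticOrderNatAt F z

theorem zeros_finite {F : ℂ → ℂ} (hF : Differentiable ℂ F) {w : ℂ} (hw : F w ≠ 0) {D : Set ℂ} (hD : IsCompact D) :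
    {z : ℂ | z ∈ D ∧ F z = 0}.Finite := by
  by_contra hinf
  have hinf : {z : ℂ | z ∈ D ∧ F z = 0}.Infinite := hinf
  obtain ⟨x, hx, hacc⟩ := hinf.exists_accPt_of_subset_isCompact hD (fun z hz => hz.1)
  have hfreq : ∃ᶠ z in 𝓝[≠] x, F z = 0 := by
    rw [accPt_iff_frequently_nhdsNE] at hacc
    exact hacc.mono fun z hz => hz.2
  have hz := AnalyticOnNhd.eqOn_zero_of_preconnected_of_frequently_eq_zero
    (f := F) (U := Set.univ) (fun s hs => hF.analyticAt s) isPreconnected_univ (Set.mem_univ x) hfreq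
  exact hw (hz (Set.mem_univ w))

theorem sum_le_nz {F : ℂ → ℂ} (hF : Differentiable ℂ F) {w : ℂ} (hw : F w ≠ 0) {D : Set ℂ} (hD : IsCompact D) {S : Finset ℂ}
    (hS : ∀ z ∈ S, z ∈ D ∧ F z = 0) : ∑ z ∈ S, analyticOrderNatAt F z ≤ nz F D := by
  unfold nz
  rw [finsum_mem_eq_finite_toFinset_sum _ (zeros_finite hF hw hD)]
  refine Finset.sum_le_sum_of_subset fun z hz => ?_
  rw [Set.Finite.mem_toFinset]
  exact hS z hz

theorem nz_mono {F : ℂ → ℂ} (hF : Differentiable ℂ F) {w : ℂ} (hw : F w ≠ 0) {D E : Set ℂ} (hE : IsCompact E) (hD : IsCompact D) (h : D ⊆ E) :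
    nz F D ≤ nz F E := by
  conv_lhs => unfold nz
  rw [finsum_mem_eq_finite_toFinset_sum _ (zeros_finite hF hw hD)]
  refine sum_le_nz hF hw hE fun z hz => ?_
  rw [Set.Finite.mem_toFinset] at hz
  exact ⟨h hz.1, hz.2⟩

theorem order_shift (F : ℂ → ℂ) (c z : ℂ) : analyticOrderNatAt (fun s => F (s + c)) z = analyticOrderNatAt F (z + c) := by
  have hg : AnalyticAt ℂ (fun s : ℂ => s + c) z := (differentiable_id.add_const c).analyticAt z
  have h := analyticOrderAt_comp_of_deriv_ne_zero (f := F) (g := fun s : ℂ => s + c) hg (by simp)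
  unfold analyticOrderNatAt
  rw [← h]
  rfl

theorem sum_shift {F : ℂ → ℂ} (hF : Differentiable ℂ F) {w : ℂ} (hw : F w ≠ 0) (c : ℂ) {D : Set ℂ} (hD : IsCompact D) {S : Finset ℂ}
    (hS : ∀ z ∈ S, z + c ∈ D ∧ F (z + c) = 0) : ∑ z ∈ S, analyticOrderNatAt (fun s => F (s + c)) z ≤ nz F D := by
  classical
  have h1 : ∑ z ∈ S, analyticOrderNatAt (fun s => F (s + c)) z = ∑ z ∈ S.image (fun z => z + c), analyticOrderNatAt F z := by
    rw [Finset.sum_image (fun x _ y _ hxy => add_right_cancel hxy)]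
    exact Finset.sum_congr rfl fun z _ => order_shift F c z
  rw [h1]
  refine sum_le_nz hF hw hD fun z hz => ?_
  obtain ⟨y, hy, rfl⟩ := Finset.mem_image.1 hz
  exact hS y hy

end Pool.Agent.KS6_10
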