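import Mathlib

/-!
# Three lines with a Gaussian weight
-/

set_option autoImplicit false
set_option linter.unusedVariables false

namespace Pool.Agent.KS6_10

open Complex Set

theorem gauss_norm (z s : ℂ) : ‖Complex.exp ((z - s) ^ 2)‖ = Real.exp ((z.re - s.re) ^ 2 - (z.im - s.im) ^ 2) := by
  rw [Complex.norm_exp]
  congr 1
  rw [sq, Complex.mul_re]
  simp
  ring

theorem quad_le (A u : ℝ) : A * |u| - u ^ 2 ≤ A ^ 2 / 4 := by
  have : u ^ 2 = |u| ^ 2 := (sq_abs u).symm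
  rw [this]
  nlinarith [sq_nonneg (|u| - A / 2)]

theorem three {f : ℂ → ℂ} (hf : ∀ z : ℂ, 5 / 4 < z.re → DifferentiableAt ℂ f z)
    (hg : ∃ B A : ℝ, 0 ≤ A ∧ ∀ z : ℂ, 4 / 3 ≤ z.re → z.re ≤ 3 → ‖f z‖ ≤ B * Real.exp (A * |z.im|))
    {K1 K2 θ : ℝ} (hK1 : 0 ≤ K1) (hK2 : 0 ≤ K2) (hθ0 : 0 ≤ θ) (hθ1 : θ ≤ 1)
    (h1 : ∀ z : ℂ, z.re = 4 / 3 → ‖f z‖ ≤ K1 * (1 + |z.im|) ^ 6 * Real.exp (θ * |z.im|))
    (h2 : ∀ z : ℂ, z.re = 3 → ‖f z‖ ≤ K2) {s : ℂ} (hs1 : 4 / 3 ≤ s.re) (hs2 : s.re ≤ 3) :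
    ‖f s‖ ≤ Real.exp 16 * ((K1 * (1 + |s.im|) ^ 6 * Real.exp (θ * |s.im|)) ^ (1 - (s.re - 4 / 3) / (5 / 3)) *
      K2 ^ ((s.re - 4 / 3) / (5 / 3))) := by
  obtain ⟨B, A, hA, hB⟩ := hg
  set lam : ℝ := (s.re - 4 / 3) / (5 / 3) with hlam
  have hl0 : 0 ≤ lam := by rw [hlam]; apply div_nonneg <;> linarith
  have hl1 : lam ≤ 1 := by rw [hlam, div_le_one (by norm_num)]; linarith
  set P : ℝ := K1 * (1 + |s.im|) ^ 6 * Real.exp (θ * |s.im|) with hP
  have hP0 : 0 ≤ P := by positivity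
  have him : ∀ z : ℂ, |z.im| ≤ |s.im| + |z.im - s.im| := fun z => by
    have := abs_add_le s.im (z.im - s.im)
    rwa [add_sub_cancel] at this
  -- real parts
  have hre : ∀ z : ℂ, 4 / 3 ≤ z.re → z.re ≤ 3 → (z.re - s.re) ^ 2 ≤ 25 / 9 := fun z hz1 hz2 => by
    have : |z.re - s.re| ≤ 5 / 3 := by rw [abs_le]; constructor <;> linarith
    have h := pow_le_pow_left₀ (abs_nonneg _) this 2
    rw [sq_abs] at h
    norm_num at h ⊢
    exact h
  have key := Complex.HadamardThreeLines.norm_le_interp_of_mem_verticalClosedStrip' (f := fun z => f z * Complex.exp ((z - s) ^ 2))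
    (z := s) (a := Real.exp 16 * P) (b := Real.exp 16 * K2) (l := 4 / 3) (u := 3) (by norm_num) ⟨hs1, hs2⟩ ?_ ?_ ?_ ?_
  · have e1 : (3:ℝ) - 4 / 3 = 5 / 3 := by norm_num
    rw [e1] at key
    simp only [sub_self, ne_eq, OfNat.ofNat_ne_zero, not_false_eq_true, zero_pow, Complex.exp_zero, mul_one] at key
    rw [← hlam] at key
    refine key.trans (le_of_eq ?_)
    rw [Real.mul_rpow (Real.exp_pos _).le hP0, Real.mul_rpow (Real.exp_pos _).le hK2]
    have e2 : Real.exp 16 ^ (1 - lam) * Real.exp 16 ^ lam = Real.exp 16 := by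
      rw [← Real.rpow_add (Real.exp_pos _)]
      simp
    calc Real.exp 16 ^ (1 - lam) * P ^ (1 - lam) * (Real.exp 16 ^ lam * K2 ^ lam)
        = (Real.exp 16 ^ (1 - lam) * Real.exp 16 ^ lam) * (P ^ (1 - lam) * K2 ^ lam) := by ring
      _ = _ := by rw [e2]
  · -- DiffContOnCl
    have hd : ∀ z : ℂ, 5 / 4 < z.re → DifferentiableAt ℂ (fun z => f z * Complex.exp ((z - s) ^ 2)) z := fun z hz =>
      (hf z hz).mul (by fun_prop)
    refine DifferentiableOn.diffContOnCl fun z hz => ?_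
    have hcl : closure (HadamardThreeLines.verticalStrip (4 / 3) 3) ⊆ HadamardThreeLines.verticalClosedStrip (4 / 3) 3 := by
      refine closure_minimal ?_ (isClosed_Icc.preimage Complex.continuous_re)
      intro z hz
      exact ⟨hz.1.le, hz.2.le⟩
    have hz' := hcl hz
    exact (hd z (lt_of_lt_of_le (by norm_num) hz'.1)).differentiableWithinAt
  · -- bounded
    refine ⟨|B| * Real.exp (A * |s.im| + A ^ 2 / 4 + 25 / 9), ?_⟩
    rintro _ ⟨z, hz, rfl⟩
    simp only [Function.comp_apply]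
    rw [norm_mul, gauss_norm]
    have h3 := hB z hz.1 hz.2
    have h4 := hre z hz.1 hz.2
    calc ‖f z‖ * Real.exp ((z.re - s.re) ^ 2 - (z.im - s.im) ^ 2)
        ≤ (|B| * Real.exp (A * |z.im|)) * Real.exp (25 / 9 - (z.im - s.im) ^ 2) := by
          refine mul_le_mul (h3.trans (mul_le_mul_of_nonneg_right (le_abs_self B) (Real.exp_pos _).le)) (Real.exp_le_exp.2 (by linarith))
            (Real.exp_pos _).le (by positivity)
      _ = |B| * Real.exp (A * |z.im| + (25 / 9 - (z.im - s.im) ^ 2)) := by rw [mul_assoc, ← Real.exp_add]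
      _ ≤ _ := by
          refine mul_le_mul_of_nonneg_left (Real.exp_le_exp.2 ?_) (abs_nonneg _)
          have h5 := quad_le A (z.im - s.im)
          have h6 := mul_le_mul_of_nonneg_left (him z) hA
          linarith
  · -- left line
    intro z hz
    have hz' : z.re = 4 / 3 := hz
    rw [norm_mul, gauss_norm]
    have h3 := h1 z hz'
    have h4 := hre z (by rw [hz']) (by rw [hz']; norm_num)
    set v : ℝ := |z.im - s.im| with hv
    have hv0 : 0 ≤ v := abs_nonneg _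
    have h5 : (1 + |z.im|) ^ 6 ≤ (1 + |s.im|) ^ 6 * Real.exp (6 * v) := by
      have e1 : 1 + |z.im| ≤ (1 + |s.im|) * Real.exp v := by
        have e2 : 1 + v ≤ Real.exp v := by have := Real.add_one_le_exp v; linarith
        calc 1 + |z.im| ≤ (1 + |s.im|) * (1 + v) := by
              have := him z
              have h7 : 0 ≤ |s.im| * v := by positivity
              nlinarith
          _ ≤ _ := mul_le_mul_of_nonneg_left e2 (by positivity)
      calc (1 + |z.im|) ^ 6 ≤ ((1 + |s.im|) * Real.exp v) ^ 6 := pow_le_pow_left₀ (by positivity) e1 6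
        _ = _ := by rw [mul_pow, ← Real.exp_nat_mul]; norm_num
    have h6 : Real.exp (θ * |z.im|) ≤ Real.exp (θ * |s.im|) * Real.exp v := by
      rw [← Real.exp_add, Real.exp_le_exp]
      have e1 := mul_le_mul_of_nonneg_left (him z) hθ0
      have e2 : θ * v ≤ 1 * v := mul_le_mul_of_nonneg_right hθ1 hv0
      linarith
    have h7 : (z.im - s.im) ^ 2 = v ^ 2 := (sq_abs _).symm
    have h8 : Real.exp (6 * v) * Real.exp v * Real.exp (25 / 9 - v ^ 2) ≤ Real.exp 16 := by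
      rw [← Real.exp_add, ← Real.exp_add, Real.exp_le_exp]
      nlinarith [sq_nonneg (v - 7 / 2)]
    calc ‖f z‖ * Real.exp ((z.re - s.re) ^ 2 - (z.im - s.im) ^ 2)
        ≤ (K1 * ((1 + |s.im|) ^ 6 * Real.exp (6 * v)) * (Real.exp (θ * |s.im|) * Real.exp v)) * Real.exp (25 / 9 - v ^ 2) := by
          refine mul_le_mul (h3.trans ?_) (Real.exp_le_exp.2 (by rw [h7]; linarith)) (Real.exp_pos _).le (by positivity)
          gcongr
      _ = P * (Real.exp (6 * v) * Real.exp v * Real.exp (25 / 9 - v ^ 2)) := by rw [hP]; ring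
      _ ≤ P * Real.exp 16 := mul_le_mul_of_nonneg_left h8 hP0
      _ = _ := mul_comm _ _
  · intro z hz
    have hz' : z.re = 3 := hz
    rw [norm_mul, gauss_norm]
    have h3 := h2 z hz'
    have h4 := hre z (by rw [hz']; norm_num) (by rw [hz'])
    calc ‖f z‖ * Real.exp ((z.re - s.re) ^ 2 - (z.im - s.im) ^ 2) ≤ K2 * Real.exp 16 := by
          refine mul_le_mul h3 (Real.exp_le_exp.2 ?_) (Real.exp_pos _).le hK2
          have := sq_nonneg (z.im - s.im)
          linarith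
      _ = _ := mul_comm _ _

end Pool.Agent.KS6_10
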