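import Pool.Agent.KS6_10.Moll
import Pool.Agent.KS6_10.Three

/-!
# One curve: elementary bounds
-/

set_option autoImplicit false
set_option linter.unusedVariables false

namespace Pool.Agent.KS6_10

open Finset ArithmeticFunction MeasureTheory Filter Topology
open scoped ArithmeticFunction ArithmeticFunction.Moebius ENNReal

/-- all data of a curve -/
structure CD (a b : ℤ) (N : ℕ) (ε : ℝ) (c : ArithmeticFunction ℂ) (G : ℂ → ℂ) : Prop where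
  rd : RD N ε c G
  hek : Hek N c
  pts : ∀ p : ℕ, p.Prime → Gd a b p → c p = (apE a b p : ℂ)
  good : ∀ p : ℕ, p.Prime → Gd a b p → ¬ p ∣ N
  cond : (N : ℤ) ∣ 62208 * (4 * a ^ 3 + 27 * b ^ 2)

theorem mem_bxA {X : ℝ} (hX : 1 ≤ X) {a : ℤ} (ha : a ∈ bxA X) : |(a:ℝ)| ≤ X ^ (1 / 3 : ℝ) := by
  unfold bxA at ha
  rw [mem_Icc] at ha
  have h2 : (⌊X ^ (1 / 3 : ℝ)⌋₊ : ℝ) ≤ X ^ (1 / 3 : ℝ) := Nat.floor_le (by positivity)
  have h3 : |a| ≤ (⌊X ^ (1 / 3 : ℝ)⌋₊ : ℤ) := abs_le.2 ha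
  have h4 : |(a:ℝ)| ≤ (⌊X ^ (1 / 3 : ℝ)⌋₊ : ℝ) := by exact_mod_cast h3
  linarith

theorem mem_bxB {X : ℝ} (hX : 1 ≤ X) {b : ℤ} (hb : b ∈ bxB X) : |(b:ℝ)| ≤ X ^ (1 / 2 : ℝ) := by
  unfold bxB at hb
  rw [mem_Icc] at hb
  have h2 : (⌊X ^ (1 / 2 : ℝ)⌋₊ : ℝ) ≤ X ^ (1 / 2 : ℝ) := Nat.floor_le (by positivity)
  have h3 : |b| ≤ (⌊X ^ (1 / 2 : ℝ)⌋₊ : ℤ) := abs_le.2 hb
  have h4 : |(b:ℝ)| ≤ (⌊X ^ (1 / 2 : ℝ)⌋₊ : ℝ) := by exact_mod_cast h3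
  linarith

theorem disc_le {X : ℝ} (hX : 1 ≤ X) {a b : ℤ} (ha : a ∈ bxA X) (hb : b ∈ bxB X) :
    |((4 * a ^ 3 + 27 * b ^ 2 : ℤ) : ℝ)| ≤ 31 * X := by
  have h1 := mem_bxA hX ha
  have h2 := mem_bxB hX hb
  have h3 : |(a:ℝ)| ^ 3 ≤ X := by
    calc |(a:ℝ)| ^ 3 ≤ (X ^ (1 / 3 : ℝ)) ^ 3 := pow_le_pow_left₀ (abs_nonneg _) h1 3
      _ = X := by
          rw [← Real.rpow_natCast, ← Real.rpow_mul (by linarith)]; norm_num
  have h4 : |(b:ℝ)| ^ 2 ≤ X := by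
    calc |(b:ℝ)| ^ 2 ≤ (X ^ (1 / 2 : ℝ)) ^ 2 := pow_le_pow_left₀ (abs_nonneg _) h2 2
      _ = X := by
          rw [← Real.rpow_natCast, ← Real.rpow_mul (by linarith)]; norm_num
  push_cast
  calc |4 * (a:ℝ) ^ 3 + 27 * (b:ℝ) ^ 2| ≤ |4 * (a:ℝ) ^ 3| + |27 * (b:ℝ) ^ 2| := abs_add_le _ _
    _ = 4 * |(a:ℝ)| ^ 3 + 27 * |(b:ℝ)| ^ 2 := by
        rw [abs_mul, abs_mul, abs_pow, abs_pow, abs_of_pos (by norm_num : (0:ℝ) < 4), abs_of_pos (by norm_num : (0:ℝ) < 27)]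
    _ ≤ _ := by linarith

theorem N_le {X : ℝ} (hX : 1 ≤ X) {a b : ℤ} (ha : a ∈ bxA X) (hb : b ∈ bxB X) (hΔ : 4 * a ^ 3 + 27 * b ^ 2 ≠ 0) {N : ℕ}
    (hN : (N : ℤ) ∣ 62208 * (4 * a ^ 3 + 27 * b ^ 2)) : (N:ℝ) ≤ 1928448 * X := by
  have h1 := disc_le hX ha hb
  have h2 : (N:ℤ) ≤ |62208 * (4 * a ^ 3 + 27 * b ^ 2)| := by
    have := Int.le_of_dvd (abs_pos.2 (mul_ne_zero (by norm_num) hΔ)) ((dvd_abs _ _).2 hN)
    exact this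
  have h3 : (N:ℝ) ≤ 62208 * |((4 * a ^ 3 + 27 * b ^ 2 : ℤ) : ℝ)| := by
    have h4 : ((N:ℤ) : ℝ) ≤ ((|62208 * (4 * a ^ 3 + 27 * b ^ 2)| : ℤ) : ℝ) := by exact_mod_cast h2
    rw [Int.cast_abs, Int.cast_mul, abs_mul] at h4
    norm_num at h4 ⊢
    exact h4
  linarith

theorem DD_le {X : ℝ} (hX : 1 ≤ X) {a b : ℤ} (ha : a ∈ bxA X) (hb : b ∈ bxB X) : ((DD a b : ℕ) : ℝ) ≤ 186 * X := by
  have h1 := disc_le hX ha hb
  unfold DD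
  have h2 : (((6 * (4 * a ^ 3 + 27 * b ^ 2)).natAbs : ℕ) : ℝ) = 6 * |((4 * a ^ 3 + 27 * b ^ 2 : ℤ) : ℝ)| := by
    rw [Nat.cast_natAbs, Int.cast_abs, Int.cast_mul, abs_mul]
    norm_num
  rw [h2]
  linarith

/-- the divisor bound in the family -/
theorem T_bound (k : ℕ) (η : ℝ) (hη : 0 < η) : ∃ C : ℝ, 1 ≤ C ∧ ∀ (X : ℝ) (a b : ℤ), 1 ≤ X → a ∈ bxA X → b ∈ bxB X →
    4 * a ^ 3 + 27 * b ^ 2 ≠ 0 → ((DD a b).divisors.card : ℝ) ^ k ≤ C * X ^ η := by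
  obtain ⟨C, hC, h⟩ := tau_le (η / (k + 1)) (by positivity)
  refine ⟨C ^ k * 186 ^ (η / (k + 1) * k), ?_, fun X a b hX ha hb hΔ => ?_⟩
  · exact one_le_mul_of_one_le_of_one_le (one_le_pow₀ hC) (Real.one_le_rpow (by norm_num) (by positivity))
  have hX0 : 0 < X := by linarith
  have h1 := h (DD a b) (DD_ne hΔ)
  have h2 := DD_le hX ha hb
  calc ((DD a b).divisors.card : ℝ) ^ k ≤ (C * ((DD a b : ℕ) : ℝ) ^ (η / (k + 1))) ^ k := pow_le_pow_left₀ (Nat.cast_nonneg _) h1 k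
    _ ≤ (C * (186 * X) ^ (η / (k + 1))) ^ k := by gcongr
    _ = C ^ k * 186 ^ (η / (k + 1) * k) * X ^ (η / (k + 1) * k) := by
        rw [mul_pow, ← Real.rpow_natCast _ k, ← Real.rpow_natCast _ k, ← Real.rpow_mul (by positivity), Real.mul_rpow (by norm_num) hX0.le]
        ring
    _ ≤ C ^ k * 186 ^ (η / (k + 1) * k) * X ^ η := by
        refine mul_le_mul_of_nonneg_left (Real.rpow_le_rpow_of_exponent_le hX ?_) (by positivity)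
        rw [div_mul_eq_mul_div, div_le_iff₀ (by positivity)]
        nlinarith

/-! ### Dirichlet series for `Re s ≥ 3` -/

/-- the constant `∑ n^{-3/2}` -/
noncomputable def Z32 : ℝ := ∑' n : ℕ, (n:ℝ) ^ (-(3 / 2 : ℝ))

theorem Z32_sum : Summable fun n : ℕ => (n:ℝ) ^ (-(3 / 2 : ℝ)) := Real.summable_nat_rpow.2 (by norm_num)

theorem Z32_ge : 1 ≤ Z32 := by
  have h := Z32_sum.le_tsum 1 (fun n _ => by positivity)
  have e : ((1:ℕ):ℝ) ^ (-(3 / 2 : ℝ)) = 1 := by simp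
  rw [e] at h
  exact h

theorem term3 {f : ℕ → ℂ} (hf : ∀ n, ‖f n‖ ≤ n) {s : ℂ} (hs : 3 ≤ s.re) (n : ℕ) :
    ‖LSeries.term f s n‖ ≤ (n:ℝ) ^ (-2:ℝ) := by
  rw [LSeries.norm_term_eq]
  split_ifs with h
  · positivity
  · have h0 : (1:ℝ) ≤ n := by exact_mod_cast Nat.pos_of_ne_zero h
    calc ‖f n‖ / (n:ℝ) ^ s.re ≤ n / (n:ℝ) ^ (3:ℝ) := by
          refine div_le_div₀ (by linarith) (hf n) (by positivity) (Real.rpow_le_rpow_of_exponent_le h0 hs)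
      _ = (n:ℝ) ^ (-2:ℝ) := by
          nth_rewrite 1 [← Real.rpow_one (n:ℝ)]
          rw [← Real.rpow_sub (by linarith)]
          norm_num

theorem rpow2_le (n : ℕ) : (n:ℝ) ^ (-2:ℝ) ≤ (n:ℝ) ^ (-(3 / 2 : ℝ)) := by
  rcases Nat.eq_zero_or_pos n with h | h
  · subst h
    rw [Nat.cast_zero, Real.zero_rpow (by norm_num), Real.zero_rpow (by norm_num)]
  · exact Real.rpow_le_rpow_of_exponent_le (by exact_mod_cast h) (by norm_num)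

theorem ls3 {f : ℕ → ℂ} (hf : ∀ n, ‖f n‖ ≤ n) {s : ℂ} (hs : 3 ≤ s.re) : ‖LSeries f s‖ ≤ Z32 :=
  tsum_of_norm_bounded Z32_sum.hasSum fun n => (term3 hf hs n).trans (rpow2_le n)

theorem ls3_part {f : ℕ → ℂ} (hf : ∀ n, ‖f n‖ ≤ n) {s : ℂ} (hs : 3 ≤ s.re) (S : Finset ℕ) :
    ‖∑ n ∈ S, LSeries.term f s n‖ ≤ Z32 := by
  refine (norm_sum_le _ _).trans ?_
  refine (sum_le_sum fun n _ => (term3 hf hs n).trans (rpow2_le n)).trans ?_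
  exact Z32_sum.sum_le_tsum _ fun n _ => by positivity

theorem ls3_tail {f : ℕ → ℂ} (hf : ∀ n, ‖f n‖ ≤ n) {s : ℂ} (hs : 3 ≤ s.re) {Y : ℕ} (hY : 1 ≤ Y) :
    ‖LSeries f s - ∑ n ∈ range Y, LSeries.term f s n‖ ≤ (Y:ℝ) ^ (-(1 / 2 : ℝ)) * Z32 := by
  have hY0 : (0:ℝ) < Y := by exact_mod_cast hY
  have hsum : Summable (LSeries.term f s) := Summable.of_norm_bounded Z32_sum fun n => (term3 hf hs n).trans (rpow2_le n)
  have h1 := hsum.sum_add_tsum_nat_add Y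
  have h2 : LSeries f s - ∑ n ∈ range Y, LSeries.term f s n = ∑' i : ℕ, LSeries.term f s (i + Y) := by
    have h3 : LSeries f s = ∑' n, LSeries.term f s n := rfl
    rw [h3, ← h1]
    ring
  rw [h2]
  have hinj : Function.Injective fun i : ℕ => i + Y := add_left_injective Y
  have h4 : Summable fun i : ℕ => (((i + Y : ℕ) : ℝ)) ^ (-(3 / 2 : ℝ)) := Z32_sum.comp_injective hinj
  have h5 : ∑' i : ℕ, (((i + Y : ℕ) : ℝ)) ^ (-(3 / 2 : ℝ)) ≤ Z32 :=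
    tsum_comp_le_tsum_of_inj Z32_sum (fun n => by positivity) hinj
  refine (tsum_of_norm_bounded (h4.mul_left ((Y:ℝ) ^ (-(1 / 2 : ℝ)))).hasSum fun i => ?_).trans ?_
  · refine (term3 hf hs (i + Y)).trans ?_
    have h6 : (Y:ℝ) ≤ ((i + Y : ℕ) : ℝ) := by exact_mod_cast Nat.le_add_left Y i
    have h7 : (0:ℝ) < ((i + Y : ℕ) : ℝ) := by linarith
    calc (((i + Y : ℕ) : ℝ)) ^ (-2:ℝ) = (((i + Y : ℕ) : ℝ)) ^ (-(1 / 2 : ℝ)) * (((i + Y : ℕ) : ℝ)) ^ (-(3 / 2 : ℝ)) := by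
          rw [← Real.rpow_add h7]; norm_num
      _ ≤ _ := by
          refine mul_le_mul_of_nonneg_right ?_ (by positivity)
          exact Real.rpow_le_rpow_of_nonpos hY0 h6 (by norm_num)
  · rw [tsum_mul_left]
    exact mul_le_mul_of_nonneg_left h5 (by positivity)

end Pool.Agent.KS6_10
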