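import Pool.Agent.KS6_10.One1

/-!
# One curve: bounds for the L-function on the lines `4/3` and `3`
-/

set_option autoImplicit false
set_option linter.unusedVariables false

namespace Pool.Agent.KS6_10

open Finset ArithmeticFunction MeasureTheory Filter Topology
open scoped ArithmeticFunction ArithmeticFunction.Moebius ENNReal

variable {a b : ℤ} {N : ℕ} {ε : ℝ} {c : ArithmeticFunction ℂ} {G : ℂ → ℂ}

theorem gb_eq (c : ArithmeticFunction ℂ) (v : ℕ → ℂ) : (c * cmul v) * sfi v = c := by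
  rw [mul_assoc, cmul_sfi, mul_one]

theorem CD.pts' (d : CD a b N ε c G) : ∀ p : ℕ, p.Prime → Gd a b p → c p = -(SS p a b : ℂ) := fun p hp hg => by
  have hp2 : p ≠ 2 := by
    rintro rfl
    exact hg (dvd_mul_of_dvd_left (by norm_num) _)
  rw [d.pts p hp hg, apE_eq hp hp2]
  push_cast
  ring

theorem card_DD_ge (hΔ : 4 * a ^ 3 + 27 * b ^ 2 ≠ 0) : (1:ℝ) ≤ ((DD a b).divisors.card : ℝ) := by
  have : 0 < (DD a b).divisors.card := card_pos.2 ⟨1, Nat.one_mem_divisors.2 (DD_ne hΔ)⟩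
  exact_mod_cast this

/-- growth in the strip -/
theorem RD.growth (d : RD N ε (fun n => c n) G) {L : ℂ → ℂ} (hL : Differentiable ℂ L) (hL2 : ∀ s : ℂ, 2 < s.re → L s = LSeries (fun n => c n) s) :
    ∃ B : ℝ, 0 ≤ B ∧ ∀ s : ℂ, 1 ≤ s.re → s.re ≤ 3 → ‖L s‖ ≤ B * Real.exp (5 * |s.im|) := by
  obtain ⟨C, hC, hray⟩ := ray_unif
  have hpi3 := Real.pi_gt_three
  have hNr : (0:ℝ) < N := by exact_mod_cast d.Npos
  have hsq : 0 < Real.sqrt N := Real.sqrt_pos.2 hNr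
  set r : ℝ := 1 / Real.sqrt N with hr
  have hr0 : 0 < r := by positivity
  set w : ℂ := rot (Real.pi / 2 - 1) with hw
  have hwre : 0 < w.re := by
    rw [hw, rot_re, Real.cos_pi_div_two_sub]
    exact Real.sin_pos_of_pos_of_lt_pi one_pos (by linarith)
  obtain ⟨C', hC', hdec⟩ := d.dec (ω := (r:ℂ) * w) (by rw [Complex.re_ofReal_mul]; positivity)
  set δ : ℝ := Real.pi * ((r:ℂ) * w).re / r with hδ
  have hδ0 : 0 < δ := by rw [hδ, Complex.re_ofReal_mul]; positivity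
  have hfin : ∀ t : ℝ, 0 ≤ t → IntegrableOn (fun v : ℝ => C' * (v ^ t * Real.exp (-(δ * v)))) (Set.Ioi 0) := fun t ht => by
    have := integrableOn_rpow_mul_exp_neg_mul_rpow (p := 1) (s := t) (b := δ) (by linarith) (by norm_num) hδ0
    refine (this.congr_fun (fun u _ => ?_) measurableSet_Ioi).const_mul C'
    simp only [Real.rpow_one, neg_mul]
  set I0 : ℝ := ∫ v in Set.Ioi (0:ℝ), (C' * (v ^ (0:ℝ) * Real.exp (-(δ * v))) + C' * (v ^ (2:ℝ) * Real.exp (-(δ * v)))) with hI0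
  have hI00 : 0 ≤ I0 := setIntegral_nonneg measurableSet_Ioi fun v hv => by
    have hv' : (0:ℝ) < v := hv
    positivity
  refine ⟨C * I0, by positivity, fun s h1 h3 => ?_⟩
  have h := hray N ε _ G d L hL hL2 1 one_pos le_rfl s h1 h3
  have hint : ∫⁻ v in Set.Ioi r, ENNReal.ofReal (v ^ (s.re - 1)) * ‖G (w * v)‖ₑ ≤ ENNReal.ofReal I0 := by
    have hfin2 : IntegrableOn (fun v : ℝ => C' * (v ^ (0:ℝ) * Real.exp (-(δ * v))) + C' * (v ^ (2:ℝ) * Real.exp (-(δ * v)))) (Set.Ioi 0) :=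
      (hfin 0 le_rfl).add (hfin 2 (by norm_num))
    rw [hI0, ofReal_integral_eq_lintegral_ofReal hfin2]
    · refine le_trans ?_ (lintegral_mono_set (Set.Ioi_subset_Ioi hr0.le))
      refine setLIntegral_mono' measurableSet_Ioi fun v hv => ?_
      have hv' : r < v := hv
      have hv0 : 0 < v := by linarith
      rw [← ofReal_norm, ← ENNReal.ofReal_mul (by positivity)]
      refine ENNReal.ofReal_le_ofReal ?_
      have h4 := hdec (v / r) (by rw [le_div_iff₀ hr0]; linarith)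
      have e1 : (r:ℂ) * w * ((v / r : ℝ) : ℂ) = w * v := by
        have : (r:ℂ) ≠ 0 := by exact_mod_cast hr0.ne'
        push_cast
        field_simp
      have e2 : -(Real.pi * ((r:ℂ) * w).re) * (v / r) = -(δ * v) := by rw [hδ]; ring
      rw [e1, e2] at h4
      have e3 : v ^ (s.re - 1) ≤ v ^ (0:ℝ) + v ^ (2:ℝ) := by
        have p0 : 0 ≤ v ^ (0:ℝ) := by positivity
        have p2 : 0 ≤ v ^ (2:ℝ) := by positivity
        rcases le_or_gt 1 v with h5 | h5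
        · exact (Real.rpow_le_rpow_of_exponent_le h5 (by linarith : s.re - 1 ≤ (2:ℝ))).trans (le_add_of_nonneg_left p0)
        · exact (Real.rpow_le_rpow_of_exponent_ge hv0 h5.le (by linarith : (0:ℝ) ≤ s.re - 1)).trans (le_add_of_nonneg_right p2)
      calc v ^ (s.re - 1) * ‖G (w * v)‖ ≤ (v ^ (0:ℝ) + v ^ (2:ℝ)) * (C' * Real.exp (-(δ * v))) :=
            mul_le_mul e3 h4 (norm_nonneg _) (by positivity)
        _ = _ := by ring
    · filter_upwards [ae_restrict_mem measurableSet_Ioi] with v hv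
      have hv' : (0:ℝ) < v := hv
      show 0 ≤ C' * (v ^ (0:ℝ) * Real.exp (-(δ * v))) + C' * (v ^ (2:ℝ) * Real.exp (-(δ * v)))
      positivity
  have h5 : ‖L s‖ₑ ≤ ENNReal.ofReal (C * (1 + |s.im|) ^ (4:ℕ) * Real.exp (1 * |s.im|) * I0) := by
    rw [ENNReal.ofReal_mul (by positivity)]
    exact h.trans (mul_le_mul' le_rfl hint)
  rw [← ofReal_norm, ENNReal.ofReal_le_ofReal_iff (by positivity)] at h5
  refine h5.trans ?_
  have h6 : (1 + |s.im|) ^ (4:ℕ) ≤ Real.exp (4 * |s.im|) := by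
    have : 1 + |s.im| ≤ Real.exp |s.im| := by
      have := Real.add_one_le_exp |s.im|
      linarith
    calc (1 + |s.im|) ^ (4:ℕ) ≤ (Real.exp |s.im|) ^ (4:ℕ) := pow_le_pow_left₀ (by positivity) this 4
      _ = _ := by rw [← Real.exp_nat_mul]; norm_num
  calc C * (1 + |s.im|) ^ (4:ℕ) * Real.exp (1 * |s.im|) * I0 ≤ C * Real.exp (4 * |s.im|) * Real.exp (1 * |s.im|) * I0 := by gcongr
    _ = C * I0 * (Real.exp (4 * |s.im|) * Real.exp (1 * |s.im|)) := by ring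
    _ = _ := by rw [← Real.exp_add]; congr 2; ring

/-- **bounds for `F`** -/
theorem F_bounds : ∃ K : ℝ, 1 ≤ K ∧ ∀ (a b : ℤ) (N : ℕ) (ε : ℝ) (c : ArithmeticFunction ℂ) (G : ℂ → ℂ), CD a b N ε c G →
    4 * a ^ 3 + 27 * b ^ 2 ≠ 0 → ∀ F : ℂ → ℂ, IsLF a b F →
    (∀ (X κ V : ℝ), 1 ≤ X → 0 < κ → 0 ≤ V → a ∈ bxA X → b ∈ bxB X →
      ∫⁻ u in Set.Ioi (r0 X), ENNReal.ofReal (u ^ (1 / 3 : ℝ)) * ‖Bs (sfi (vS a b)) (rot (ang X κ) * u)‖ₑ ≤ ENNReal.ofReal V →
      ∀ s : ℂ, s.re = 4 / 3 → ‖F s‖ ≤ K * ((DD a b).divisors.card : ℝ) ^ 11 * V * (1 + |s.im|) ^ 4 * Real.exp (X ^ (-κ) * |s.im|)) ∧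
    (∀ s : ℂ, 3 ≤ s.re → ‖F s‖ ≤ K * ((DD a b).divisors.card : ℝ) ^ 11) ∧
    (∃ B : ℝ, 0 ≤ B ∧ ∀ s : ℂ, 1 ≤ s.re → s.re ≤ 3 → ‖F s‖ ≤ B * Real.exp (5 * |s.im|)) := by
  obtain ⟨C, hC, hray⟩ := ray_unif
  obtain ⟨Kg, hKg, hg⟩ := g_sum
  have hZ := Z32_ge
  refine ⟨1 + C * Kg + Kg * Z32, by
    have : 0 ≤ C * Kg := by positivity
    have : 0 ≤ Kg * Z32 := by positivity
    linarith, fun a b N ε c G d hΔ F hF => ?_⟩
  obtain ⟨L, hL, hL2⟩ := d.rd.exists_entire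
  obtain ⟨hgs, hgb⟩ := hg N c a b hΔ d.hek d.pts' d.cond
  have hFPL := FPL hΔ d.hek d.pts d.good hF hL hL2
  have hτ := card_DD_ge (a := a) (b := b) hΔ
  set τ : ℝ := ((DD a b).divisors.card : ℝ) with hτd
  have hτ11 : τ ^ 2 * τ ^ 9 = τ ^ 11 := by ring
  refine ⟨fun X κ V hX hκ hV ha hb hI s hs => ?_, fun s hs => ?_, ?_⟩
  · have hX0 : 0 < X := by linarith
    have hNr : (0:ℝ) < N := by exact_mod_cast d.rd.Npos
    have hsq : 0 < Real.sqrt N := Real.sqrt_pos.2 hNr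
    have hθ0 : 0 < X ^ (-κ) := Real.rpow_pos_of_pos hX0 _
    have hθ1 : X ^ (-κ) ≤ 1 := Real.rpow_le_one_of_one_le_of_nonpos hX (by linarith)
    have hre0 : 0 < (rot (ang X κ)).re := lt_of_lt_of_le (by have := Real.pi_pos; positivity) (ang_re hX hκ)
    have h := hray N ε _ G d.rd L hL hL2 (X ^ (-κ)) hθ0 hθ1 s (by rw [hs]; norm_num) (by rw [hs]; norm_num)
    have hJ := J_le (g := c * cmul (vS a b)) (b := sfi (vS a b)) (sfi_vS_le a b) hgs (G := G)
      (fun z hz => by rw [gb_eq]; exact d.rd.sum z hz) hre0 (r := 1 / Real.sqrt N) (by positivity) (σ := 4 / 3) (by norm_num)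
    have e13 : (4 / 3 : ℝ) - 1 = 1 / 3 := by norm_num
    rw [e13] at hJ
    rw [hs, e13] at h
    have hr : r0 X ≤ 1 / Real.sqrt N := by
      unfold r0
      refine one_div_le_one_div_of_le hsq (Real.sqrt_le_sqrt (N_le hX ha hb hΔ d.cond))
    have hmono : ∫⁻ v in Set.Ioi (1 / Real.sqrt N), ENNReal.ofReal (v ^ (1 / 3 : ℝ)) * ‖Bs (sfi (vS a b)) (rot (ang X κ) * v)‖ₑ ≤
        ENNReal.ofReal V := (lintegral_mono_set (Set.Ioi_subset_Ioi hr)).trans hI
    have h2 : ‖L s‖ₑ ≤ ENNReal.ofReal (C * (1 + |s.im|) ^ (4:ℕ) * Real.exp (X ^ (-κ) * |s.im|) * (Kg * τ ^ 9 * V)) := by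
      rw [ENNReal.ofReal_mul (p := C * (1 + |s.im|) ^ (4:ℕ) * Real.exp (X ^ (-κ) * |s.im|)) (by positivity),
        ENNReal.ofReal_mul (p := Kg * τ ^ 9) (by positivity)]
      exact h.trans (mul_le_mul' le_rfl (hJ.trans (mul_le_mul' (ENNReal.ofReal_le_ofReal hgb) hmono)))
    rw [← ofReal_norm, ENNReal.ofReal_le_ofReal_iff (by positivity)] at h2
    rw [hFPL s, norm_mul]
    have h3 := PP_le (s := s) hΔ d.hek (by rw [hs]; norm_num)
    calc ‖PP N c a b s‖ * ‖L s‖ ≤ τ ^ 2 * (C * (1 + |s.im|) ^ (4:ℕ) * Real.exp (X ^ (-κ) * |s.im|) * (Kg * τ ^ 9 * V)) :=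
          mul_le_mul h3 h2 (norm_nonneg _) (by positivity)
      _ = (C * Kg) * (τ ^ 2 * τ ^ 9) * V * (1 + |s.im|) ^ 4 * Real.exp (X ^ (-κ) * |s.im|) := by ring
      _ = (C * Kg) * τ ^ 11 * V * (1 + |s.im|) ^ 4 * Real.exp (X ^ (-κ) * |s.im|) := by rw [hτ11]
      _ ≤ _ := by
          gcongr
          have : 0 ≤ Kg * Z32 := by positivity
          linarith
  · rw [hFPL s, norm_mul, hL2 s (by linarith)]
    have h3 := PP_le (s := s) hΔ d.hek (by linarith)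
    have h4 : LSeries (fun n => c n) s = LSeries (fun n => (c * cmul (vS a b)) n) s * LSeries (fun n => sfi (vS a b) n) s := by
      have := ArithmeticFunction.LSeries_mul' (f := c * cmul (vS a b)) (g := sfi (vS a b)) (s := s) (lsum_of_54 hgs (by linarith)).1
        (lsum_of_le (sfi_vS_le a b) (by linarith))
      rw [gb_eq] at this
      exact this
    have h5 := (lsum_of_54 hgs (s := s) (by linarith)).2.trans hgb
    have h6 := ls3 (sfi_vS_le a b) hs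
    rw [h4, norm_mul]
    calc _ ≤ τ ^ 2 * (Kg * τ ^ 9 * Z32) := mul_le_mul h3 (mul_le_mul h5 h6 (norm_nonneg _) (by positivity)) (by positivity) (by positivity)
      _ = (Kg * Z32) * (τ ^ 2 * τ ^ 9) := by ring
      _ = (Kg * Z32) * τ ^ 11 := by rw [hτ11]
      _ ≤ _ := by
          gcongr
          have : 0 ≤ C * Kg := by positivity
          linarith
  · obtain ⟨B, hB, hBs⟩ := d.rd.growth hL hL2
    refine ⟨τ ^ 2 * B, by positivity, fun s h1 h3 => ?_⟩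
    rw [hFPL s, norm_mul, mul_assoc]
    exact mul_le_mul (PP_le hΔ d.hek h1) (hBs s h1 h3) (norm_nonneg _) (by positivity)

/-- bounds for `R` -/
theorem R_bounds : ∃ K : ℝ, 1 ≤ K ∧ ∀ (a b : ℤ), 4 * a ^ 3 + 27 * b ^ 2 ≠ 0 →
    (∀ s : ℂ, 5 / 4 ≤ s.re → ‖LSeries (fun n => rf a b n) s‖ ≤ K * ((DD a b).divisors.card : ℝ) ^ 11) ∧
    (∀ s : ℂ, 5 / 4 < s.re → DifferentiableAt ℂ (LSeries (fun n => rf a b n)) s) ∧
    (∀ F : ℂ → ℂ, IsLF a b F → ∀ s : ℂ, 2 < s.re → F s * (LSeries (fun n => rf a b n) s * LSeries (fun n => sfi (vA a b) n) s) = 1) := by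
  obtain ⟨K, hK, hr⟩ := r_sum
  refine ⟨K + 1, by linarith, fun a b hΔ => ?_⟩
  obtain ⟨hs, hb⟩ := hr a b hΔ
  have hτ := card_DD_ge (a := a) (b := b) hΔ
  refine ⟨fun s h => ?_, fun s h => ?_, fun F hF s h => ?_⟩
  · refine ((lsum_of_54 hs h).2.trans hb).trans ?_
    refine mul_le_mul (by linarith) (pow_le_pow_right₀ hτ (by norm_num)) (by positivity) (by linarith)
  · have h1 : LSeriesSummable (fun n => rf a b n) (5 / 4 : ℂ) := (lsum_of_54 hs (by norm_num)).1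
    have h2 := h1.abscissaOfAbsConv_le
    have h3 : LSeries.abscissaOfAbsConv (fun n => rf a b n) < s.re := by
      refine lt_of_le_of_lt h2 ?_
      have : ((5 / 4 : ℂ)).re = 5 / 4 := by norm_num
      rw [this]
      exact_mod_cast h
    exact (LSeries_hasDerivAt h3).differentiableAt
  · have h1 := Fq (a := a) (b := b) hs hF h
    rw [(q_summ (a := a) (b := b) hs h).2] at h1
    exact h1

end Pool.Agent.KS6_10
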