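import Pool.Agent.KS6_10.One2

/-!
# One curve: the mollified function
-/

set_option autoImplicit false
set_option linter.unusedVariables false

namespace Pool.Agent.KS6_10

open Finset ArithmeticFunction Filter Topology
open scoped ArithmeticFunction ArithmeticFunction.Moebius

theorem Mo_eq (J : ℕ) (a b : ℤ) (s : ℂ) : Mo J a b s = ∑ n ∈ range (2 ^ J), LSeries.term (fun n => sfi (vA a b) n) s n := by
  unfold Mo
  refine sum_congr rfl fun n _ => ?_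
  rcases Nat.eq_zero_or_pos n with h | h
  · subst h; simp
  · rw [LSeries.term_of_ne_zero h.ne', Complex.cpow_neg, div_eq_mul_inv]

theorem Mo_diff (J : ℕ) (a b : ℤ) : Differentiable ℂ (Mo J a b) := by
  unfold Mo
  refine Differentiable.fun_sum fun n hn => ?_
  rcases Nat.eq_zero_or_pos n with h0 | h0
  · subst h0
    simp only [ArithmeticFunction.map_zero, zero_mul]
    exact differentiable_const _
  have hn0 : (n:ℂ) ≠ 0 := by exact_mod_cast h0.ne'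
  have h1 : Differentiable ℂ fun s : ℂ => (n:ℂ) ^ (-s) := fun s =>
    DifferentiableAt.const_cpow differentiableAt_id.neg (Or.inl hn0)
  exact h1.const_mul _

theorem Mo_bdd (J : ℕ) (a b : ℤ) : ∃ B : ℝ, 0 ≤ B ∧ ∀ s : ℂ, 0 ≤ s.re → ‖Mo J a b s‖ ≤ B := by
  refine ⟨∑ n ∈ range (2 ^ J), ‖sfi (vA a b) n‖, sum_nonneg fun _ _ => norm_nonneg _, fun s hs => ?_⟩
  unfold Mo
  refine (norm_sum_le _ _).trans (sum_le_sum fun n hn => ?_)
  rcases Nat.eq_zero_or_pos n with h0 | h0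
  · subst h0; simp
  rw [norm_mul, norm_ppow h0]
  have : (n:ℝ) ^ (-s.re) ≤ 1 := Real.rpow_le_one_of_one_le_of_nonpos (by exact_mod_cast h0) (by linarith)
  exact mul_le_of_le_one_right (norm_nonneg _) this

theorem Mo_43 (J : ℕ) (a b : ℤ) {s : ℂ} (hs : s.re = 4 / 3) : ‖Mo J a b s‖ ≤ 3 * (1 + |s.im|) ^ 2 * JM J a b := by
  have e : s = 4 / 3 + (s.im : ℂ) * Complex.I := by
    apply Complex.ext
    · simp [hs]
    · simp
  have h := mo_le J a b s.im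
  unfold mo at h
  rw [← e] at h
  refine h.trans (mul_le_mul_of_nonneg_right ?_ (JM_nonneg J a b))
  have : s.im ^ 2 = |s.im| ^ 2 := (sq_abs _).symm
  rw [this]
  have := abs_nonneg s.im
  nlinarith

theorem rpow_le_self' {A t : ℝ} (hA : 1 ≤ A) (ht : t ≤ 1) : A ^ t ≤ A := by
  calc A ^ t ≤ A ^ (1:ℝ) := Real.rpow_le_rpow_of_exponent_le hA ht
    _ = A := Real.rpow_one A

/-- simplified three lines bound -/
theorem three' {f : ℂ → ℂ} (hf : ∀ z : ℂ, 5 / 4 < z.re → DifferentiableAt ℂ f z)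
    (hg : ∃ B A : ℝ, 0 ≤ A ∧ ∀ z : ℂ, 4 / 3 ≤ z.re → z.re ≤ 3 → ‖f z‖ ≤ B * Real.exp (A * |z.im|))
    {K1 K2 θ Q : ℝ} (hK1 : 1 ≤ K1) (hK2 : 0 ≤ K2) (hθ0 : 0 ≤ θ) (hθ1 : θ ≤ 1)
    (h1 : ∀ z : ℂ, z.re = 4 / 3 → ‖f z‖ ≤ K1 * (1 + |z.im|) ^ 6 * Real.exp (θ * |z.im|))
    (h2 : ∀ z : ℂ, z.re = 3 → ‖f z‖ ≤ K2) {s : ℂ} (hs1 : 4 / 3 ≤ s.re) (hs2 : s.re ≤ 3) (hQ : 1 + |s.im| ≤ Q) (hθs : θ * |s.im| ≤ 1) :
    ‖f s‖ ≤ Real.exp 17 * (K1 * Q ^ 6) * K2 ^ ((s.re - 4 / 3) / (5 / 3)) := by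
  have h := three hf hg (by linarith) hK2 hθ0 hθ1 h1 h2 hs1 hs2
  refine h.trans ?_
  set lam : ℝ := (s.re - 4 / 3) / (5 / 3) with hlam
  have hl0 : 0 ≤ lam := by rw [hlam]; apply div_nonneg <;> linarith
  have hQ1 : 1 ≤ Q := by have := abs_nonneg s.im; linarith
  have h3 : (K1 * (1 + |s.im|) ^ 6 * Real.exp (θ * |s.im|)) ^ (1 - lam) ≤ Real.exp 1 * (K1 * Q ^ 6) := by
    have h4 : 1 ≤ K1 * (1 + |s.im|) ^ 6 * Real.exp (θ * |s.im|) := by
      refine one_le_mul_of_one_le_of_one_le (one_le_mul_of_one_le_of_one_le hK1 (one_le_pow₀ ?_)) (Real.one_le_exp (by positivity))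
      have := abs_nonneg s.im; linarith
    refine (rpow_le_self' h4 (by linarith)).trans ?_
    have h5 : (1 + |s.im|) ^ 6 ≤ Q ^ 6 := pow_le_pow_left₀ (by positivity) hQ 6
    have h6 : Real.exp (θ * |s.im|) ≤ Real.exp 1 := Real.exp_le_exp.2 hθs
    calc K1 * (1 + |s.im|) ^ 6 * Real.exp (θ * |s.im|) ≤ K1 * Q ^ 6 * Real.exp 1 := by gcongr
      _ = _ := by ring
  calc Real.exp 16 * ((K1 * (1 + |s.im|) ^ 6 * Real.exp (θ * |s.im|)) ^ (1 - lam) * K2 ^ lam)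
      ≤ Real.exp 16 * ((Real.exp 1 * (K1 * Q ^ 6)) * K2 ^ lam) := by gcongr
    _ = (Real.exp 16 * Real.exp 1) * (K1 * Q ^ 6) * K2 ^ lam := by ring
    _ = _ := by rw [← Real.exp_add]; norm_num

/-- **one curve** -/
theorem one_aux {a b : ℤ} {F R : ℂ → ℂ} {T V θ X κ : ℝ} {J : ℕ} (hF : Differentiable ℂ F) (hT : 1 ≤ T) (hV : 1 ≤ V)
    (hθ0 : 0 ≤ θ) (hθ1 : θ ≤ 1)
    (hF1 : ∀ s : ℂ, s.re = 4 / 3 → ‖F s‖ ≤ T * V * (1 + |s.im|) ^ 4 * Real.exp (θ * |s.im|))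
    (hF3 : ∀ s : ℂ, 3 ≤ s.re → ‖F s‖ ≤ T)
    (hFg : ∃ B : ℝ, 0 ≤ B ∧ ∀ s : ℂ, 1 ≤ s.re → s.re ≤ 3 → ‖F s‖ ≤ B * Real.exp (5 * |s.im|))
    (hR : ∀ s : ℂ, 5 / 4 ≤ s.re → ‖R s‖ ≤ T) (hRd : ∀ s : ℂ, 5 / 4 < s.re → DifferentiableAt ℂ R s)
    (hJM : JM J a b ≤ V)
    (hFR : ∀ s : ℂ, 2 < s.re → F s * (R s * LSeries (fun n => sfi (vA a b) n) s) = 1)
    {s : ℂ} {Q : ℝ} (hs1 : 4 / 3 ≤ s.re) (hs2 : s.re ≤ 3) (hQ : 1 + |s.im| ≤ Q) (hθs : θ * |s.im| ≤ 1) :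
    ‖F s‖ ≤ Real.exp 17 * (T * V * Q ^ 6) * T ∧ ‖Mo J a b s‖ ≤ Real.exp 17 * (3 * V * Q ^ 6) * Z32 ∧
    ‖F s * Mo J a b s * R s - 1‖ ≤ Real.exp 17 * (4 * T ^ 2 * V ^ 2 * Q ^ 6) *
      (T ^ 2 * Z32 * ((2:ℝ) ^ J) ^ (-(1 / 2 : ℝ))) ^ ((s.re - 4 / 3) / (5 / 3)) := by
  have hl1 : (s.re - 4 / 3) / (5 / 3) ≤ 1 := by rw [div_le_one (by norm_num)]; linarith
  have hZ := Z32_ge
  obtain ⟨Bf, hBf, hBf'⟩ := hFg
  obtain ⟨Bm, hBm, hBm'⟩ := Mo_bdd J a b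
  have hQ1 : 1 ≤ Q := by have := abs_nonneg s.im; linarith
  refine ⟨?_, ?_, ?_⟩
  · have h := three' (f := F) (fun z _ => hF z) ⟨Bf, 5, by norm_num, fun z hz1 hz2 => hBf' z (by linarith) hz2⟩ (K1 := T * V) (K2 := T) (θ := θ)
      (Q := Q) (one_le_mul_of_one_le_of_one_le hT hV) (by linarith) hθ0 hθ1 (fun z hz => (hF1 z hz).trans (by
        have h5 : (1 + |z.im|) ^ 4 ≤ (1 + |z.im|) ^ 6 := pow_le_pow_right₀ (by have := abs_nonneg z.im; linarith) (by norm_num)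
        gcongr)) (fun z hz => hF3 z (by rw [hz])) hs1 hs2 hQ hθs
    refine h.trans (mul_le_mul_of_nonneg_left (rpow_le_self' hT hl1) (by positivity))
  · have h := three' (f := Mo J a b) (fun z _ => Mo_diff J a b z) ⟨Bm, 0, le_rfl, fun z hz1 hz2 => by
        rw [zero_mul, Real.exp_zero, mul_one]; exact hBm' z (by linarith)⟩ (K1 := 3 * V) (K2 := Z32) (θ := θ)
      (Q := Q) (by linarith) (by linarith) hθ0 hθ1 (fun z hz => (Mo_43 J a b hz).trans (by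
        have h5 : (1 + |z.im|) ^ 2 ≤ (1 + |z.im|) ^ 6 := pow_le_pow_right₀ (by have := abs_nonneg z.im; linarith) (by norm_num)
        have h6 : 1 ≤ Real.exp (θ * |z.im|) := Real.one_le_exp (by positivity)
        have h7 := JM_nonneg J a b
        calc 3 * (1 + |z.im|) ^ 2 * JM J a b ≤ 3 * (1 + |z.im|) ^ 6 * V := by gcongr
          _ = 3 * V * (1 + |z.im|) ^ 6 * 1 := by ring
          _ ≤ _ := by gcongr)) (fun z hz => by
        rw [Mo_eq]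
        exact ls3_part (sfi_vA_le a b) (by rw [hz]) _) hs1 hs2 hQ hθs
    refine h.trans (mul_le_mul_of_nonneg_left (rpow_le_self' hZ hl1) (by positivity))
  · have hT2 : 1 ≤ T ^ 2 := one_le_pow₀ hT
    have hV2 : 1 ≤ V ^ 2 := one_le_pow₀ hV
    refine three' (f := fun z => F z * Mo J a b z * R z - 1) (fun z hz => ((hF z).mul (Mo_diff J a b z)).mul (hRd z hz) |>.sub_const 1)
      ⟨Bf * Bm * T + 1, 5, by norm_num, fun z hz1 hz2 => ?_⟩ (K1 := 4 * T ^ 2 * V ^ 2) (θ := θ)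
      (Q := Q) (by nlinarith) (by positivity) hθ0 hθ1 (fun z hz => ?_) (fun z hz => ?_) hs1 hs2 hQ hθs
    · have e1 := hBf' z (by linarith) hz2
      have e2 := hBm' z (by linarith)
      have e3 := hR z (by linarith)
      have e4 : 1 ≤ Real.exp (5 * |z.im|) := Real.one_le_exp (by positivity)
      calc ‖F z * Mo J a b z * R z - 1‖ ≤ ‖F z * Mo J a b z * R z‖ + ‖(1:ℂ)‖ := norm_sub_le _ _
        _ = ‖F z‖ * ‖Mo J a b z‖ * ‖R z‖ + 1 := by rw [norm_mul, norm_mul, norm_one]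
        _ ≤ (Bf * Real.exp (5 * |z.im|)) * Bm * T + 1 * Real.exp (5 * |z.im|) := by
            gcongr
            linarith
        _ = _ := by ring
    · have e1 := hF1 z hz
      have e2 := Mo_43 J a b hz
      have e3 := hR z (by rw [hz]; norm_num)
      have e4 : 1 ≤ Real.exp (θ * |z.im|) := Real.one_le_exp (by positivity)
      have e5 : 1 ≤ (1 + |z.im|) ^ 6 := one_le_pow₀ (by have := abs_nonneg z.im; linarith)
      have e6 := JM_nonneg J a b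
      calc ‖F z * Mo J a b z * R z - 1‖ ≤ ‖F z * Mo J a b z * R z‖ + ‖(1:ℂ)‖ := norm_sub_le _ _
        _ = ‖F z‖ * ‖Mo J a b z‖ * ‖R z‖ + 1 := by rw [norm_mul, norm_mul, norm_one]
        _ ≤ (T * V * (1 + |z.im|) ^ 4 * Real.exp (θ * |z.im|)) * (3 * (1 + |z.im|) ^ 2 * V) * T +
            (T ^ 2 * V ^ 2) * ((1 + |z.im|) ^ 6 * Real.exp (θ * |z.im|)) := by
            refine add_le_add ?_ ?_
            · refine mul_le_mul (mul_le_mul e1 (e2.trans (mul_le_mul_of_nonneg_left hJM (by positivity))) (norm_nonneg _) (by positivity)) e3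
                (norm_nonneg _) (by positivity)
            · exact one_le_mul_of_one_le_of_one_le (one_le_mul_of_one_le_of_one_le hT2 hV2) (one_le_mul_of_one_le_of_one_le e5 e4)
        _ = _ := by ring
    · have e1 := hF3 z (by rw [hz])
      have e3 := hR z (by rw [hz]; norm_num)
      have e2 := ls3_tail (sfi_vA_le a b) (s := z) (by rw [hz]) (Y := 2 ^ J) Nat.one_le_two_pow
      rw [← Mo_eq] at e2
      have e4 := hFR z (by rw [hz]; norm_num)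
      have e5 : F z * Mo J a b z * R z - 1 = -(F z * R z * (LSeries (fun n => sfi (vA a b) n) z - Mo J a b z)) := by
        rw [← e4]; ring
      rw [e5, norm_neg, norm_mul, norm_mul]
      push_cast at e2
      calc _ ≤ T * T * (((2:ℝ) ^ J) ^ (-(1 / 2 : ℝ)) * Z32) := mul_le_mul (mul_le_mul e1 e3 (norm_nonneg _) (by linarith)) e2 (norm_nonneg _) (by positivity)
        _ = _ := by ring

end Pool.Agent.KS6_10
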