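import Pool.Agent.KS6_10.One3

/-!
# One curve: final form
-/

set_option autoImplicit false
set_option linter.unusedVariables false

namespace Pool.Agent.KS6_10

open Finset ArithmeticFunction Filter Topology MeasureTheory
open scoped ArithmeticFunction ArithmeticFunction.Moebius ENNReal

/-- the length of the mollifier -/
noncomputable def JX (X : ℝ) : ℕ := Nat.log 2 ⌊X ^ (1 / 4 : ℝ)⌋₊

theorem JX_le {X : ℝ} (hX : 1 ≤ X) : (2:ℝ) ^ (JX X) ≤ X ^ (1 / 4 : ℝ) := by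
  have h1 : (1:ℝ) ≤ X ^ (1 / 4 : ℝ) := Real.one_le_rpow hX (by norm_num)
  have h2 : 1 ≤ ⌊X ^ (1 / 4 : ℝ)⌋₊ := Nat.one_le_floor_iff _ |>.2 h1
  have h3 := Nat.pow_log_le_self 2 (by omega : ⌊X ^ (1 / 4 : ℝ)⌋₊ ≠ 0)
  have h4 : ((2 ^ (Nat.log 2 ⌊X ^ (1 / 4 : ℝ)⌋₊) : ℕ) : ℝ) ≤ (⌊X ^ (1 / 4 : ℝ)⌋₊ : ℝ) := by exact_mod_cast h3
  push_cast at h4
  exact h4.trans (Nat.floor_le (by linarith))

theorem JX_ge {X : ℝ} (hX : 1 ≤ X) : X ^ (1 / 4 : ℝ) / 2 ≤ (2:ℝ) ^ (JX X) := by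
  have h3 := Nat.lt_pow_succ_log_self (by norm_num : 1 < 2) ⌊X ^ (1 / 4 : ℝ)⌋₊
  have h4 : (⌊X ^ (1 / 4 : ℝ)⌋₊ : ℝ) + 1 ≤ ((2 ^ (Nat.log 2 ⌊X ^ (1 / 4 : ℝ)⌋₊).succ : ℕ) : ℝ) := by exact_mod_cast h3
  have h5 := Nat.lt_floor_add_one (X ^ (1 / 4 : ℝ))
  rw [pow_succ] at h4
  push_cast at h4
  unfold JX
  linarith

theorem JX_sq {X : ℝ} (hX : 1 ≤ X) : ((2:ℝ) ^ (JX X)) ^ 2 ≤ X := by
  have h := pow_le_pow_left₀ (by positivity) (JX_le hX) 2
  refine h.trans ?_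
  rw [← Real.rpow_natCast, ← Real.rpow_mul (by linarith)]
  calc X ^ (1 / 4 * ((2:ℕ):ℝ)) ≤ X ^ (1:ℝ) := Real.rpow_le_rpow_of_exponent_le hX (by norm_num)
    _ = X := Real.rpow_one X

/-- the two conditions defining the good curves -/
def Good (κ X : ℝ) (a b : ℤ) : Prop :=
  (∫⁻ u in Set.Ioi (r0 X), ENNReal.ofReal (u ^ (1 / 3 : ℝ)) * ‖Bs (sfi (vS a b)) (rot (ang X κ) * u)‖ₑ ≤ ENNReal.ofReal (X ^ (12 * κ))) ∧
    JM (JX X) a b ≤ X ^ (12 * κ)

theorem one_curve (δ : ℝ) (hδ : 0 < δ) : ∃ X0 : ℝ, 1 ≤ X0 ∧ ∀ (X : ℝ) (a b : ℤ), X0 ≤ X → a ∈ bxA X → b ∈ bxB X →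
    4 * a ^ 3 + 27 * b ^ 2 ≠ 0 → Good (δ / 1000) X a b → ∀ (N : ℕ) (ε : ℝ) (c : ArithmeticFunction ℂ) (G : ℂ → ℂ), CD a b N ε c G →
    ∀ F : ℂ → ℂ, IsLF a b F → ∀ s : ℂ, 4 / 3 + δ ≤ s.re → |s.im| ≤ X ^ (δ / 1000) →
    X ^ (-δ) ≤ ‖F s‖ ∧ ‖F s‖ ≤ X ^ δ := by
  obtain ⟨KF, hKF, hF⟩ := F_bounds
  obtain ⟨KR, hKR, hR⟩ := R_bounds
  set κ : ℝ := δ / 1000 with hκd
  have hκ : 0 < κ := by positivity
  obtain ⟨CT, hCT, hT⟩ := T_bound 11 κ hκ
  have hZ := Z32_ge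
  set C1 : ℝ := (KF + KR) * CT with hC1
  have hC11 : 1 ≤ C1 := by
    rw [hC1]
    exact one_le_mul_of_one_le_of_one_le (by linarith) hCT
  set E : ℝ := Real.exp 17 with hE
  have hE1 : 1 ≤ E := Real.one_le_exp (by norm_num)
  set B : ℝ := 1024 * E * C1 ^ 4 * Z32 with hB
  have hB1 : 1 ≤ B := by
    rw [hB]
    refine one_le_mul_of_one_le_of_one_le (one_le_mul_of_one_le_of_one_le ?_ (one_le_pow₀ hC11)) hZ
    linarith
  refine ⟨B ^ (100 / δ), Real.one_le_rpow hB1 (by positivity), fun X a b hX ha hb hΔ hG N ε c G hcd F hFL s hs ht => ?_⟩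
  have hX1 : 1 ≤ X := (Real.one_le_rpow hB1 (by positivity)).trans hX
  have hX0 : 0 < X := by linarith
  have hBX : B ≤ X ^ (δ / 100) := by
    calc B = (B ^ (100 / δ)) ^ (δ / 100) := by
          rw [← Real.rpow_mul (by linarith)]
          have : 100 / δ * (δ / 100) = 1 := by field_simp
          rw [this, Real.rpow_one]
      _ ≤ X ^ (δ / 100) := Real.rpow_le_rpow (by positivity) hX (by positivity)
  obtain ⟨f1, f2, f3⟩ := hF a b N ε c G hcd hΔ F hFL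
  obtain ⟨g1, g2, g3⟩ := hR a b hΔ
  have hτ := card_DD_ge (a := a) (b := b) hΔ
  set τ : ℝ := ((DD a b).divisors.card : ℝ) with hτd
  set T : ℝ := (KF + KR) * τ ^ 11 with hTd
  have hT1 : 1 ≤ T := one_le_mul_of_one_le_of_one_le (by linarith) (one_le_pow₀ hτ)
  have hTle : T ≤ C1 * X ^ κ := by
    have := hT X a b hX1 ha hb hΔ
    calc T ≤ (KF + KR) * (CT * X ^ κ) := mul_le_mul_of_nonneg_left this (by linarith)
      _ = _ := by rw [hC1]; ring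
  have hFT : KF * τ ^ 11 ≤ T := by rw [hTd]; gcongr; linarith
  have hRT : KR * τ ^ 11 ≤ T := by rw [hTd]; gcongr; linarith
  have hXκ : 1 ≤ X ^ κ := Real.one_le_rpow hX1 hκ.le
  have hpow : ∀ p q : ℝ, p ≤ q → X ^ p ≤ X ^ q := fun p q h => Real.rpow_le_rpow_of_exponent_le hX1 h
  have hadd : ∀ p q : ℝ, X ^ p * X ^ q = X ^ (p + q) := fun p q => (Real.rpow_add hX0 p q).symm
  have hF3 : ∀ s : ℂ, 3 ≤ s.re → ‖F s‖ ≤ T := fun s hs => (f2 s hs).trans hFT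
  have hR1 : ∀ s : ℂ, 5 / 4 ≤ s.re → ‖LSeries (fun n => rf a b n) s‖ ≤ T := fun s hs => (g1 s hs).trans hRT
  have hC14 : C1 ≤ C1 ^ 4 := le_self_pow₀ hC11 (by norm_num)
  have hXinv : X ^ (-δ) * X ^ δ = 1 := by rw [hadd, neg_add_cancel, Real.rpow_zero]
  rcases le_or_gt s.re 3 with hs3 | hs3
  · -- inside the strip
    set V : ℝ := X ^ (12 * κ) with hV
    have hV1 : 1 ≤ V := Real.one_le_rpow hX1 (by positivity)
    have hθ0 : 0 < X ^ (-κ) := Real.rpow_pos_of_pos hX0 _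
    have hθ1 : X ^ (-κ) ≤ 1 := Real.rpow_le_one_of_one_le_of_nonpos hX1 (by linarith)
    obtain ⟨r1, r2, r3⟩ := one_aux (F := F) (R := LSeries (fun n => rf a b n)) (T := T) (V := V) (θ := X ^ (-κ)) (X := X) (κ := κ) (J := JX X)
      (a := a) (b := b) hFL.1 hT1 hV1 hθ0.le hθ1
      (fun s hs => (f1 X κ V hX1 hκ (by linarith) ha hb hG.1 s hs).trans (by gcongr)) hF3 f3 hR1 g2 hG.2
      (fun s hs => g3 F hFL s hs) (s := s) (Q := 2 * X ^ κ) (by linarith) hs3 (by linarith)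
      (by
        calc X ^ (-κ) * |s.im| ≤ X ^ (-κ) * X ^ κ := mul_le_mul_of_nonneg_left ht hθ0.le
          _ = 1 := by rw [hadd, neg_add_cancel, Real.rpow_zero])
    have hQ6 : (2 * X ^ κ) ^ 6 = 64 * X ^ (6 * κ) := by
      rw [mul_pow, ← Real.rpow_natCast (X ^ κ) 6, ← Real.rpow_mul hX0.le]
      norm_num
      ring_nf
    have hT2 : T ^ 2 ≤ C1 ^ 2 * X ^ (2 * κ) := by
      calc T ^ 2 ≤ (C1 * X ^ κ) ^ 2 := pow_le_pow_left₀ (by linarith) hTle 2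
        _ = _ := by
            rw [mul_pow, ← Real.rpow_natCast (X ^ κ) 2, ← Real.rpow_mul hX0.le]
            congr 2
            push_cast
            ring
    have hV2 : V ^ 2 = X ^ (24 * κ) := by
      rw [hV, ← Real.rpow_natCast, ← Real.rpow_mul hX0.le]
      congr 1
      push_cast
      ring
    have hlam0 : 3 * δ / 5 ≤ (s.re - 4 / 3) / (5 / 3) := by rw [le_div_iff₀ (by norm_num)]; linarith
    have hlam1 : (s.re - 4 / 3) / (5 / 3) ≤ 1 := by rw [div_le_one (by norm_num)]; linarith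
    set lam : ℝ := (s.re - 4 / 3) / (5 / 3) with hlam
    -- upper bound for F
    have hup : ‖F s‖ ≤ X ^ δ := by
      calc ‖F s‖ ≤ E * (T * V * (2 * X ^ κ) ^ 6) * T := r1
        _ = 64 * E * T ^ 2 * (V * X ^ (6 * κ)) := by rw [hQ6]; ring
        _ ≤ 64 * E * (C1 ^ 2 * X ^ (2 * κ)) * (V * X ^ (6 * κ)) := by gcongr
        _ = 64 * E * C1 ^ 2 * (X ^ (2 * κ) * (X ^ (12 * κ) * X ^ (6 * κ))) := by rw [hV]; ring
        _ = 64 * E * C1 ^ 2 * X ^ (20 * κ) := by rw [hadd, hadd]; congr 2; ring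
        _ ≤ B * X ^ (20 * κ) := by
            refine mul_le_mul_of_nonneg_right ?_ (by positivity)
            rw [hB]
            have : C1 ^ 2 ≤ C1 ^ 4 := pow_le_pow_right₀ hC11 (by norm_num)
            calc 64 * E * C1 ^ 2 ≤ 1024 * E * C1 ^ 4 * 1 := by nlinarith
              _ ≤ _ := by gcongr
        _ ≤ X ^ (δ / 100) * X ^ (20 * κ) := mul_le_mul_of_nonneg_right hBX (by positivity)
        _ = X ^ (δ / 100 + 20 * κ) := hadd _ _
        _ ≤ X ^ δ := hpow _ _ (by rw [hκd]; linarith)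
    -- the mollified function
    have hH : ‖F s * Mo (JX X) a b s * LSeries (fun n => rf a b n) s - 1‖ ≤ 1 / 2 := by
      have h2J : (1:ℝ) ≤ (2:ℝ) ^ JX X := one_le_pow₀ (by norm_num)
      have e1 : (T ^ 2 * Z32 * ((2:ℝ) ^ JX X) ^ (-(1 / 2 : ℝ))) ^ lam ≤ T ^ 2 * Z32 * (2 * X ^ (-(3 * δ / 40))) := by
        rw [Real.mul_rpow (by positivity) (by positivity)]
        have p1 : (T ^ 2 * Z32) ^ lam ≤ T ^ 2 * Z32 := rpow_le_self' (one_le_mul_of_one_le_of_one_le (one_le_pow₀ hT1) hZ) hlam1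
        have p2 : (((2:ℝ) ^ JX X) ^ (-(1 / 2 : ℝ))) ^ lam ≤ 2 * X ^ (-(3 * δ / 40)) := by
          rw [← Real.rpow_mul (by positivity)]
          calc ((2:ℝ) ^ JX X) ^ (-(1 / 2 : ℝ) * lam) ≤ ((2:ℝ) ^ JX X) ^ (-(3 * δ / 10)) :=
                Real.rpow_le_rpow_of_exponent_le h2J (by linarith)
            _ ≤ (X ^ (1 / 4 : ℝ) / 2) ^ (-(3 * δ / 10)) :=
                Real.rpow_le_rpow_of_nonpos (by positivity) (JX_ge hX1) (by linarith)
            _ = X ^ (-(3 * δ / 40)) * 2 ^ (3 * δ / 10) := by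
                rw [Real.div_rpow (by positivity) (by norm_num), ← Real.rpow_mul hX0.le, Real.rpow_neg (by norm_num : (0:ℝ) ≤ 2), div_inv_eq_mul]
                congr 2
                ring
            _ ≤ X ^ (-(3 * δ / 40)) * 2 := by
                refine mul_le_mul_of_nonneg_left ?_ (by positivity)
                refine rpow_le_self' (by norm_num) ?_
                linarith
            _ = _ := mul_comm _ _
        exact mul_le_mul p1 p2 (by positivity) (by positivity)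
      calc _ ≤ E * (4 * T ^ 2 * V ^ 2 * (2 * X ^ κ) ^ 6) * (T ^ 2 * Z32 * ((2:ℝ) ^ JX X) ^ (-(1 / 2 : ℝ))) ^ lam := r3
        _ ≤ E * (4 * T ^ 2 * V ^ 2 * (2 * X ^ κ) ^ 6) * (T ^ 2 * Z32 * (2 * X ^ (-(3 * δ / 40)))) := by gcongr
        _ = 512 * E * Z32 * (T ^ 2 * T ^ 2) * (X ^ (24 * κ) * X ^ (6 * κ) * X ^ (-(3 * δ / 40))) := by rw [hQ6, hV2]; ring
        _ ≤ 512 * E * Z32 * ((C1 ^ 2 * X ^ (2 * κ)) * (C1 ^ 2 * X ^ (2 * κ))) * (X ^ (24 * κ) * X ^ (6 * κ) * X ^ (-(3 * δ / 40))) := by gcongr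
        _ = (512 * E * C1 ^ 4 * Z32) * (X ^ (2 * κ) * X ^ (2 * κ) * (X ^ (24 * κ) * X ^ (6 * κ) * X ^ (-(3 * δ / 40)))) := by ring
        _ = (1 / 2) * (B * X ^ (34 * κ - 3 * δ / 40)) := by
            rw [hadd, hadd, hadd, hadd, hB]
            have : 2 * κ + 2 * κ + (24 * κ + 6 * κ + -(3 * δ / 40)) = 34 * κ - 3 * δ / 40 := by ring
            rw [this]
            ring
        _ ≤ (1 / 2) * (X ^ (δ / 100) * X ^ (34 * κ - 3 * δ / 40)) := by gcongr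
        _ = (1 / 2) * X ^ (δ / 100 + (34 * κ - 3 * δ / 40)) := by rw [hadd]
        _ ≤ (1 / 2) * X ^ (0:ℝ) := mul_le_mul_of_nonneg_left (hpow _ _ (by rw [hκd]; linarith)) (by norm_num)
        _ = 1 / 2 := by rw [Real.rpow_zero, mul_one]
    refine ⟨?_, hup⟩
    have e1 : 1 / 2 ≤ ‖F s * Mo (JX X) a b s * LSeries (fun n => rf a b n) s‖ := by
      have := norm_sub_norm_le (1:ℂ) (1 - F s * Mo (JX X) a b s * LSeries (fun n => rf a b n) s)
      rw [norm_one, norm_sub_rev, sub_sub_cancel] at this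
      linarith
    rw [norm_mul, norm_mul] at e1
    have e2 : ‖Mo (JX X) a b s‖ * ‖LSeries (fun n => rf a b n) s‖ ≤ 1 / 2 * X ^ δ := by
      calc ‖Mo (JX X) a b s‖ * ‖LSeries (fun n => rf a b n) s‖ ≤ (E * (3 * V * (2 * X ^ κ) ^ 6) * Z32) * T :=
            mul_le_mul r2 (hR1 s (by linarith)) (norm_nonneg _) (by positivity)
        _ ≤ (E * (3 * V * (2 * X ^ κ) ^ 6) * Z32) * (C1 * X ^ κ) := by gcongr
        _ = 192 * E * C1 * Z32 * (X ^ (12 * κ) * X ^ (6 * κ) * X ^ κ) := by rw [hQ6, hV]; ring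
        _ = 192 * E * C1 * Z32 * X ^ (19 * κ) := by rw [hadd, hadd]; congr 2; ring
        _ ≤ (1 / 2 * B) * X ^ (19 * κ) := by
            refine mul_le_mul_of_nonneg_right ?_ (by positivity)
            rw [hB]
            calc 192 * E * C1 * Z32 ≤ 512 * E * C1 ^ 4 * Z32 := by gcongr; norm_num
              _ = _ := by ring
        _ ≤ (1 / 2 * X ^ (δ / 100)) * X ^ (19 * κ) := by gcongr
        _ = 1 / 2 * X ^ (δ / 100 + 19 * κ) := by rw [mul_assoc, hadd]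
        _ ≤ 1 / 2 * X ^ δ := mul_le_mul_of_nonneg_left (hpow _ _ (by rw [hκd]; linarith)) (by norm_num)
    have e3 : 1 / 2 ≤ ‖F s‖ * (1 / 2 * X ^ δ) := by
      calc 1 / 2 ≤ ‖F s‖ * ‖Mo (JX X) a b s‖ * ‖LSeries (fun n => rf a b n) s‖ := e1
        _ = ‖F s‖ * (‖Mo (JX X) a b s‖ * ‖LSeries (fun n => rf a b n) s‖) := by ring
        _ ≤ _ := mul_le_mul_of_nonneg_left e2 (norm_nonneg _)
    have e4 : 0 < X ^ (-δ) := Real.rpow_pos_of_pos hX0 _
    have e5 : X ^ (-δ) * (1 / 2) ≤ X ^ (-δ) * (‖F s‖ * (1 / 2 * X ^ δ)) := mul_le_mul_of_nonneg_left e3 e4.le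
    have e6 : X ^ (-δ) * (‖F s‖ * (1 / 2 * X ^ δ)) = 1 / 2 * ‖F s‖ := by
      calc _ = (X ^ (-δ) * X ^ δ) * (1 / 2 * ‖F s‖) := by ring
        _ = _ := by rw [hXinv, one_mul]
    linarith
  · -- Re s ≥ 3
    have hs3' : 3 ≤ s.re := hs3.le
    have hTX : T * Z32 ≤ X ^ δ := by
      calc T * Z32 ≤ (C1 * X ^ κ) * Z32 := by gcongr
        _ = (C1 * Z32) * X ^ κ := by ring
        _ ≤ B * X ^ κ := by
            refine mul_le_mul_of_nonneg_right ?_ (by positivity)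
            rw [hB]
            calc C1 * Z32 ≤ C1 ^ 4 * Z32 := by gcongr
              _ = 1 * (C1 ^ 4 * Z32) := (one_mul _).symm
              _ ≤ (1024 * E) * (C1 ^ 4 * Z32) := by gcongr; linarith
              _ = _ := by ring
        _ ≤ X ^ (δ / 100) * X ^ κ := mul_le_mul_of_nonneg_right hBX (by positivity)
        _ = X ^ (δ / 100 + κ) := hadd _ _
        _ ≤ X ^ δ := hpow _ _ (by rw [hκd]; linarith)
    refine ⟨?_, ?_⟩
    · have e1 := g3 F hFL s (by linarith)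
      have e2 := hR1 s (by linarith)
      have e3 := ls3 (sfi_vA_le a b) hs3'
      have e4 : ‖F s‖ * (‖LSeries (fun n => rf a b n) s‖ * ‖LSeries (fun n => sfi (vA a b) n) s‖) = 1 := by
        rw [← norm_mul, ← norm_mul, e1, norm_one]
      have e5 : ‖LSeries (fun n => rf a b n) s‖ * ‖LSeries (fun n => sfi (vA a b) n) s‖ ≤ X ^ δ :=
        (mul_le_mul e2 e3 (norm_nonneg _) (by linarith)).trans hTX
      have e6 : 1 ≤ ‖F s‖ * X ^ δ := by
        rw [← e4]; exact mul_le_mul_of_nonneg_left e5 (norm_nonneg _)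
      have e7 : 0 < X ^ (-δ) := Real.rpow_pos_of_pos hX0 _
      have e8 := mul_le_mul_of_nonneg_left e6 e7.le
      have e9 : X ^ (-δ) * (‖F s‖ * X ^ δ) = ‖F s‖ := by
        calc _ = (X ^ (-δ) * X ^ δ) * ‖F s‖ := by ring
          _ = _ := by rw [hXinv, one_mul]
      linarith
    · refine (hF3 s hs3').trans (le_trans ?_ hTX)
      exact le_mul_of_one_le_right (by linarith) hZ

end Pool.Agent.KS6_10
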