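import Pool.Agent.KS6_10.Nz
import Pool.Agent.KS6_10.Grow

/-!
# A zero off the line with few zeros around it is detected by a short polynomial
-/

set_option autoImplicit false
set_option linter.unusedVariables false

namespace Pool.Agent.KS6_10

open Set Metric Topology Filter Complex H370

/-- the coefficients of the detecting polynomials -/
noncomputable def bet (τ δ : ℝ) (k n : ℕ) : ℂ :=
  (n:ℂ) ^ (-(1 / 2) : ℂ) * ((((1 / 2 + δ - τ) * Real.log n) ^ k / k.factorial : ℝ) : ℂ) * (n : ℂ) ^ (-(1 + δ : ℝ) : ℂ)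

theorem one_zero {τ δ : ℝ} (hδ : 0 < δ) (hδ1 : δ ≤ 1 / 12) (hτ : 3 * δ ≤ τ) (hτ1 : τ ≤ 1 / 2) :
    ∃ q : ℕ, 1 ≤ q ∧ ∀ η : ℝ, 0 < η → ∃ η' : ℝ, 0 < η' ∧ ∃ X0 : ℝ, 1 ≤ X0 ∧ ∀ X : ℝ, X0 ≤ X → ∀ a b : ℤ, a ∈ bxA X → b ∈ bxB X →
      4 * a ^ 3 + 27 * b ^ 2 ≠ 0 → ∀ (N : ℕ) (ε : ℝ) (c : ArithmeticFunction ℂ) (G : ℂ → ℂ), CD a b N ε c G →
      ∀ F : ℂ → ℂ, IsLF a b F → ∀ ρ : ℂ, F ρ = 0 → 1 + τ ≤ ρ.re → |ρ.im| ≤ X →
      (nz F (closedBall (⟨3 / 2, ρ.im⟩ : ℂ) (3 / 2 - ρ.re + 4 * δ)) : ℝ) ≤ η' * Real.log X →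
      ∃ k < KK δ η X, 1 / (2 * (KK δ η X : ℝ)) ≤ ‖∑ n ∈ Finset.Ioc ⌊X ^ η⌋₊ (2 ^ (q * KK δ η X)),
        (bet τ δ k n * (n : ℂ) ^ (-(ρ.im : ℂ) * I)) * hh ⌊X ^ η⌋₊ a b n‖ := by
  obtain ⟨A, hA1, hA⟩ := F_bounds_edge (σ := 3 / 2 + δ / 2) (by linarith)
  obtain ⟨C, hC1, hC⟩ := hN_bound (ε := δ / 4) (by linarith)
  obtain ⟨K, hK1, hK⟩ := F_growth
  obtain ⟨q, hq1, hq⟩ := detect' hδ hδ1 hC1
  refine ⟨q, hq1, fun η hη => ?_⟩
  obtain ⟨T1, hT1, hdet⟩ := hq η hη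
  obtain ⟨η', hη', T2, hT2, hback⟩ := backlund' hδ hδ1 hη hA1
  refine ⟨η', hη', max K (max T1 T2), hK1.trans (le_max_left _ _), ?_⟩
  intro X hX a b ha hb hΔ N ε c G hcd F hF ρ hρ hre him hnz
  have hXK : K ≤ X := (le_max_left _ _).trans hX
  have hXT1 : T1 ≤ X := (le_max_left _ _).trans ((le_max_right _ _).trans hX)
  have hXT2 : T2 ≤ X := (le_max_right _ _).trans ((le_max_right _ _).trans hX)
  have hX1 : 1 ≤ X := hT1.trans hXT1
  have hX0 : 0 < X := by linarith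
  have hF2 : F 2 ≠ 0 := F_ne hF (by norm_num)
  have hre1 : ρ.re ≤ 3 / 2 := by
    by_contra hcon
    push Not at hcon
    exact F_ne hF hcon hρ
  have hh2 : ((1:ℂ) / 2).re = 1 / 2 := by norm_num
  have hi2 : ((1:ℂ) / 2).im = 0 := by norm_num
  set f : ℂ → ℂ := fun s => F (s + 1 / 2) with hf
  have hfd : Differentiable ℂ f := hF.1.comp (differentiable_id.add_const _)
  have hρ' : f (ρ - 1 / 2) = 0 := by simp only [hf]; rw [sub_add_cancel]; exact hρ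
  have hr1 : (ρ - 1 / 2).re = ρ.re - 1 / 2 := by rw [Complex.sub_re, hh2]
  have hr2 : (ρ - 1 / 2).im = ρ.im := by rw [Complex.sub_im, hi2, sub_zero]
  -- the bound from few zeros
  have hb1 : ∀ z ∈ closedBall (⟨1 + δ, ρ.im⟩ : ℂ) (1 + δ - (ρ.re - 1 / 2) + δ), ‖f z‖ ≤ X ^ η := by
    refine hback X hXT2 f hfd ρ.im (ρ.re - 1 / 2) (by linarith) (by linarith) ?_ ?_ ?_ ?_
    · intro z hz
      obtain ⟨h1, h2, h3⟩ := ball_re_im hz
      have h4 : |z.im| ≤ 2 * X := by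
        have h5 := abs_sub_abs_le_abs_sub z.im ρ.im
        have h6 : 1 + δ - (ρ.re - 1 / 2) + 3 * δ ≤ 1 := by linarith
        linarith
      have h5 := hK X a b N ε c G hX1 ha hb hΔ hcd F hF (z + 1 / 2) (by rw [re_half]; linarith) (by rw [re_half]; linarith)
        (by rw [Complex.add_im, hi2, add_zero]; exact h4)
      calc ‖f z‖ ≤ K * X ^ 11 := h5
        _ ≤ X * X ^ 11 := mul_le_mul_of_nonneg_right hXK (by positivity)
        _ = X ^ 12 := by ring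
    · intro z hz
      exact hA a b F hF (z + 1 / 2) (by rw [re_half]; linarith)
    · intro z hz
      exact F_ne hF (by rw [re_half]; linarith)
    · intro S hS
      have h1 : ∑ z ∈ S, analyticOrderNatAt f z ≤ nz F (closedBall (⟨3 / 2, ρ.im⟩ : ℂ) (3 / 2 - ρ.re + 4 * δ)) := by
        refine sum_shift hF.1 hF2 (1 / 2) (isCompact_closedBall _ _) fun z hz => ?_
        obtain ⟨h2, h3⟩ := hS z hz
        refine ⟨?_, h3⟩
        rw [mem_closedBall, dist_eq_norm] at h2 ⊢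
        have e : z + 1 / 2 - (⟨3 / 2, ρ.im⟩ : ℂ) = (z - ⟨1 + δ, ρ.im⟩) + (δ : ℂ) := by
          apply Complex.ext
          · simp; ring
          · simp
        rw [e]
        refine (norm_add_le _ _).trans ?_
        rw [Complex.norm_real, Real.norm_of_nonneg hδ.le]
        linarith
      have h2 : ∑ z ∈ S, (mult f z : ℝ) ≤ (nz F (closedBall (⟨3 / 2, ρ.im⟩ : ℂ) (3 / 2 - ρ.re + 4 * δ)) : ℝ) := by
        exact_mod_cast h1
      exact h2.trans hnz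
  have hY1 : 1 ≤ ⌊X ^ η⌋₊ := (Nat.one_le_floor_iff _).2 (Real.one_le_rpow hX1 hη.le)
  obtain ⟨k, hk, hle⟩ := hdet X hXT1 f (gM ⌊X ^ η⌋₊ a b) (hN ⌊X ^ η⌋₊ a b) (mdOf hY1 hF) (fun n hn => hC _ a b n hn) (ρ - 1 / 2) hρ'
    (1 / 2 + τ) (by linarith) (by rw [hr1]; linarith) (by rw [hr1]; linarith) (fun z hz => by
      rw [hr1, hr2] at hz
      refine ⟨hb1 z hz, ?_⟩
      obtain ⟨h1, h2, h3⟩ := ball_re_im hz
      refine (gM_le _ a b (by linarith)).trans ?_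
      have := Nat.floor_le (a := X ^ η) (by positivity)
      linarith)
  refine ⟨k, hk, hle.trans (le_of_eq ?_)⟩
  congr 1
  refine Finset.sum_congr rfl fun n hn => ?_
  rw [hr2]
  unfold hN bet
  have e : (1 + δ - (1 / 2 + τ)) = 1 / 2 + δ - τ := by ring
  rw [e]
  ring

end Pool.Agent.KS6_10
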