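import Pool.Agent.KS6_10.Tw
import Pool.Agent.KS6_10.Final

/-!
# Sums of periodic functions over boxes
-/

set_option autoImplicit false
set_option linter.unusedVariables false

namespace Pool.Agent.KS6_10

open Finset

theorem ico_split (f : ℤ → ℂ) {x y z : ℤ} (h1 : x ≤ y) (h2 : y ≤ z) :
    ∑ a ∈ Ico x y, f a + ∑ a ∈ Ico y z, f a = ∑ a ∈ Ico x z, f a := by
  rw [← Finset.sum_union (Finset.Ico_disjoint_Ico_consecutive x y z), Finset.Ico_union_Ico_eq_Ico h1 h2]

/-- an interval of integers consists of complete residue systems and at most `P` further integers -/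
theorem per_one {P : ℕ} (hP : 0 < P) (f : ℤ → ℂ) (hf : ∀ a, f (a + P) = f a) (C : ℝ) (hC : ∀ a, ‖f a‖ ≤ C)
    (x : ℤ) (L : ℕ) : ‖∑ a ∈ Ico x (x + L), f a - (L / P : ℕ) * ∑ a ∈ range P, f a‖ ≤ P * C := by
  have hC0 : 0 ≤ C := (norm_nonneg _).trans (hC 0)
  -- sums over a complete period
  have hper : ∀ (k : ℕ) (a : ℤ), f (a + k * P) = f a := by
    intro k a
    induction k with
    | zero => simp
    | succ k ih =>
      have : a + ((k + 1 : ℕ) : ℤ) * P = (a + k * P) + P := by push_cast; ring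
      rw [this, hf, ih]
  have hshift : ∀ x : ℤ, ∑ a ∈ Ico x (x + P), f a = ∑ a ∈ range P, f a := by
    have h1 : ∀ x : ℤ, ∑ a ∈ Ico (x + 1) (x + 1 + P), f a = ∑ a ∈ Ico x (x + P), f a := fun x => by
      have e1 : ∑ a ∈ Ico x (x + 1 + P), f a = f x + ∑ a ∈ Ico (x + 1) (x + 1 + P), f a := by
        rw [← ico_split f (y := x + 1) (by omega) (by omega)]
        congr 1
        have : Ico x (x + 1) = {x} := by
          ext a
          simp only [mem_Ico, mem_singleton]
          omega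
        rw [this, sum_singleton]
      have e2 : ∑ a ∈ Ico x (x + 1 + P), f a = ∑ a ∈ Ico x (x + P), f a + f (x + P) := by
        have : Ico x (x + 1 + P) = insert (x + P) (Ico x (x + P)) := by
          ext a
          simp only [mem_Ico, mem_insert]
          omega
        rw [this, sum_insert (by simp), add_comm]
      rw [hf] at e2
      have := e1.symm.trans e2
      linear_combination this
    have h2 : ∀ n : ℕ, ∑ a ∈ Ico (n:ℤ) (n + P), f a = ∑ a ∈ Ico (0:ℤ) (0 + P), f a := fun n => by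
      induction n with
      | zero => simp
      | succ n ih => push_cast; rw [h1, ih]
    have h3 : ∀ n : ℕ, ∑ a ∈ Ico (-(n:ℤ)) (-(n:ℤ) + P), f a = ∑ a ∈ Ico (0:ℤ) (0 + P), f a := fun n => by
      induction n with
      | zero => simp
      | succ n ih =>
        rw [← ih, ← h1 (-((n + 1 : ℕ) : ℤ))]
        push_cast
        congr 2 <;> ring
    have h4 : ∑ a ∈ Ico (0:ℤ) (0 + P), f a = ∑ a ∈ range P, f a := by
      rw [zero_add]
      have : Ico (0:ℤ) P = (range P).map Nat.castEmbedding := by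
        ext a
        simp only [mem_Ico, mem_map, mem_range, Nat.castEmbedding_apply]
        constructor
        · intro h
          exact ⟨a.toNat, by omega, by omega⟩
        · rintro ⟨m, hm, rfl⟩
          omega
      rw [this, sum_map]
      rfl
    intro x
    rcases le_total 0 x with h | h
    · obtain ⟨n, rfl⟩ := Int.eq_ofNat_of_zero_le h
      exact (h2 n).trans h4
    · obtain ⟨n, hn⟩ := Int.eq_ofNat_of_zero_le (by omega : 0 ≤ -x)
      have : x = -(n:ℤ) := by omega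
      rw [this]
      exact (h3 n).trans h4
  -- whole blocks
  have hblock : ∀ k : ℕ, ∑ a ∈ Ico x (x + (k * P : ℕ)), f a = k * ∑ a ∈ range P, f a := by
    intro k
    induction k with
    | zero => simp
    | succ k ih =>
      rw [← ico_split f (y := x + (k * P : ℕ)) (by omega) (by push_cast; nlinarith)]
      rw [ih]
      have := hshift (x + (k * P : ℕ))
      have e : x + ((k + 1) * P : ℕ) = x + (k * P : ℕ) + P := by push_cast; ring
      rw [e, this]
      push_cast
      ring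
  have hle : (L / P) * P ≤ L := Nat.div_mul_le_self L P
  have hsplit := ico_split f (x := x) (y := x + ((L / P) * P : ℕ)) (z := x + L) (by omega)
    (by have : (((L / P) * P : ℕ) : ℤ) ≤ L := by exact_mod_cast hle
        omega)
  rw [← hsplit, hblock, add_sub_cancel_left]
  refine (norm_sum_le _ _).trans ?_
  refine (sum_le_sum fun a _ => hC a).trans ?_
  rw [sum_const, nsmul_eq_mul]
  refine mul_le_mul_of_nonneg_right ?_ hC0
  rw [Int.card_Ico]
  have h5 : L - (L / P) * P < P := by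
    have := Nat.div_add_mod L P
    have h6 := Nat.mod_lt L hP
    have h7 : P * (L / P) = (L / P) * P := mul_comm _ _
    omega
  have h6 : (x + (L:ℤ) - (x + (((L / P) * P : ℕ) : ℤ))).toNat ≤ P := by omega
  exact_mod_cast h6

/-- a periodic function of two variables with mean value zero -/
theorem per_two {P : ℕ} (hP : 0 < P) (f : ℤ → ℤ → ℂ) (hf1 : ∀ a b, f (a + P) b = f a b) (hf2 : ∀ a b, f a (b + P) = f a b)
    (h0 : ∑ a ∈ range P, ∑ b ∈ range P, f a b = 0) (C : ℝ) (hC : ∀ a b, ‖f a b‖ ≤ C) (x y : ℤ) (L M : ℕ) :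
    ‖∑ a ∈ Ico x (x + L), ∑ b ∈ Ico y (y + M), f a b‖ ≤ C * P * (L + M) := by
  have hC0 : 0 ≤ C := (norm_nonneg _).trans (hC 0 0)
  have h1 : ∀ a, ‖∑ b ∈ Ico y (y + M), f a b - (M / P : ℕ) * ∑ b ∈ range P, f a b‖ ≤ P * C := fun a =>
    per_one hP (f a) (hf2 a) C (hC a) y M
  have h2 := per_one hP (fun a => ∑ b ∈ range P, f a b) (fun a => sum_congr rfl fun b _ => hf1 a b) (P * C) (fun a => by
    have h7 : ∑ b ∈ range P, ‖f a b‖ ≤ ∑ b ∈ range P, C := sum_le_sum fun b _ => hC a b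
    rw [sum_const, card_range, nsmul_eq_mul] at h7
    exact (norm_sum_le _ _).trans h7) x L
  rw [h0, mul_zero, sub_zero] at h2
  have e : ∑ a ∈ Ico x (x + L), ∑ b ∈ Ico y (y + M), f a b =
      ∑ a ∈ Ico x (x + L), (∑ b ∈ Ico y (y + M), f a b - (M / P : ℕ) * ∑ b ∈ range P, f a b) +
      (M / P : ℕ) * ∑ a ∈ Ico x (x + L), ∑ b ∈ range P, f a b := by
    rw [mul_sum, ← sum_add_distrib]
    exact sum_congr rfl fun a _ => by ring
  rw [e]
  refine (norm_add_le _ _).trans ?_
  have h3 : ‖∑ a ∈ Ico x (x + L), (∑ b ∈ Ico y (y + M), f a b - (M / P : ℕ) * ∑ b ∈ range P, f a b)‖ ≤ L * (P * C) := by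
    refine (norm_sum_le _ _).trans ((sum_le_sum fun a _ => h1 a).trans ?_)
    rw [sum_const, nsmul_eq_mul, Int.card_Ico]
    refine mul_le_mul_of_nonneg_right ?_ (by positivity)
    have : (x + (L:ℤ) - x).toNat = L := by omega
    rw [this]
  have h4 : ‖(M / P : ℕ) * ∑ a ∈ Ico x (x + L), ∑ b ∈ range P, f a b‖ ≤ M * (P * C) := by
    rw [norm_mul, Complex.norm_natCast]
    have h5 : ((M / P : ℕ) : ℝ) * P ≤ M := by exact_mod_cast Nat.div_mul_le_self M P
    calc ((M / P : ℕ) : ℝ) * ‖∑ a ∈ Ico x (x + L), ∑ b ∈ range P, f a b‖ ≤ ((M / P : ℕ) : ℝ) * (P * (P * C)) := by gcongr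
      _ = (((M / P : ℕ) : ℝ) * P) * (P * C) := by ring
      _ ≤ _ := by gcongr
  calc _ ≤ L * (P * C) + M * (P * C) := add_le_add h3 h4
    _ = _ := by ring

/-- there is `g` prime to `P` with symbol `-1` -/
theorem ex_neg {P : ℕ} (hodd : Odd P) (hsq : ¬ IsSquare P) : ∃ g : ℤ, Int.gcd g P = 1 ∧ jacobiSym g P = -1 := by
  have hP : P ≠ 0 := hodd.pos.ne'
  obtain ⟨p, hp, hpo⟩ : ∃ p : ℕ, p.Prime ∧ Odd (P.factorization p) := by
    by_contra hcon
    push Not at hcon
    apply hsq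
    refine ⟨∏ p ∈ P.primeFactors, p ^ (P.factorization p / 2), ?_⟩
    rw [← prod_mul_distrib]
    conv_lhs => rw [← Nat.prod_factorization_pow_eq_self hP]
    unfold Finsupp.prod
    rw [Nat.support_factorization]
    refine prod_congr rfl fun p hp => ?_
    have h1 := hcon p (Nat.prime_of_mem_primeFactors hp)
    rw [Nat.not_odd_iff_even] at h1
    obtain ⟨k, hk⟩ := h1
    rw [hk, ← pow_add]
    congr 1
    omega
  have hp2 : p ≠ 2 := by
    rintro rfl
    have h1 : ¬ 2 ∣ P := by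
      intro h
      exact (Nat.not_even_iff_odd.2 hodd) (even_iff_two_dvd.2 h)
    rw [Nat.factorization_eq_zero_of_not_dvd h1] at hpo
    exact absurd hpo (by decide)
  have : Fact p.Prime := ⟨hp⟩
  set k := P.factorization p with hk
  set R := P / p ^ k with hR
  have hPR : p ^ k * R = P := Nat.ordProj_mul_ordCompl_eq_self P p
  have hcop : Nat.Coprime p R := Nat.coprime_ordCompl hp hP
  have hR0 : R ≠ 0 := by
    intro h
    rw [h, mul_zero] at hPR
    exact hP hPR.symm
  obtain ⟨u, hu⟩ : ∃ u : ℤ, legendreSym p u = -1 := by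
    obtain ⟨z, hz⟩ := FiniteField.exists_nonsquare (F := ZMod p) (by rw [ZMod.ringChar_zmod_n]; exact hp2)
    refine ⟨z.val, ?_⟩
    rw [legendreSym.eq_neg_one_iff]
    intro h
    apply hz
    simpa using h
  obtain ⟨g, hg1, hg2⟩ := Nat.chineseRemainder hcop (u.emod p).toNat 1
  have hup : ((u.emod p).toNat : ℤ) = u.emod p := Int.toNat_of_nonneg (Int.emod_nonneg _ (by exact_mod_cast hp.ne_zero))
  have hgu : (g : ℤ) ≡ u [ZMOD p] := by
    have h1 : (g : ℤ) ≡ ((u.emod p).toNat : ℤ) [ZMOD p] := (Int.natCast_modEq_iff).2 hg1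
    rw [hup] at h1
    exact h1.trans (Int.mod_modEq u p)
  have hgR : (g : ℤ) ≡ 1 [ZMOD R] := by
    have := (Int.natCast_modEq_iff).2 hg2
    exact_mod_cast this
  have hJp : jacobiSym g p = -1 := by
    rw [← jacobiSym.legendreSym.to_jacobiSym, ← hu]
    unfold legendreSym
    congr 1
    exact (ZMod.intCast_eq_intCast_iff _ _ _).2 hgu
  have hJR : jacobiSym g R = 1 := by
    have : NeZero R := ⟨hR0⟩
    rw [jacobiSym.mod_left, hgR, ← jacobiSym.mod_left, jacobiSym.one_left]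
  have hJ : jacobiSym g P = -1 := by
    have : NeZero R := ⟨hR0⟩
    have : NeZero (p ^ k) := ⟨pow_ne_zero k hp.ne_zero⟩
    rw [← hPR, jacobiSym.mul_right, jacobiSym.pow_right, hJp, hJR, hpo.neg_one_pow, mul_one]
  refine ⟨g, ?_, hJ⟩
  have : NeZero P := ⟨hP⟩
  by_contra hne
  have := jacobiSym.eq_zero_iff_not_coprime.2 hne
  rw [hJ] at this
  norm_num at this

theorem full_zero {P : ℕ} (hP : 0 < P) (f : ℤ → ℤ → ℂ)
    (hc : ∀ a b a' b' : ℤ, (P:ℤ) ∣ a' - a → (P:ℤ) ∣ b' - b → f a' b' = f a b) {g : ℤ} (hg : Int.gcd g P = 1)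
    (ht : ∀ a b, f (a * g ^ 2) (b * g ^ 3) = -f a b) : ∑ a ∈ range P, ∑ b ∈ range P, f a b = 0 := by
  have : NeZero P := ⟨hP.ne'⟩
  set F : ZMod P → ZMod P → ℂ := fun α β => f α.val β.val with hF
  have hFf : ∀ (a b : ℤ), F a b = f a b := fun a b => by
    rw [hF]
    refine hc a b _ _ ?_ ?_
    · rw [ZMod.val_intCast]
      have := Int.mod_modEq a P
      exact (Int.modEq_iff_dvd.1 this.symm)
    · rw [ZMod.val_intCast]
      have := Int.mod_modEq b P
      exact (Int.modEq_iff_dvd.1 this.symm)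
  have hu : IsUnit ((g : ℤ) : ZMod P) := by
    rw [ZMod.coe_int_isUnit_iff_isCoprime]
    rw [Int.isCoprime_iff_gcd_eq_one, Int.gcd_comm]
    exact hg
  obtain ⟨u, hu⟩ := hu
  have hFt : ∀ α β : ZMod P, F (α * (u:ZMod P) ^ 2) (β * (u:ZMod P) ^ 3) = -F α β := fun α β => by
    obtain ⟨a, rfl⟩ := ZMod.intCast_surjective α
    obtain ⟨b, rfl⟩ := ZMod.intCast_surjective β
    rw [hu, hFf, ← ht, ← hFf]
    push_cast
    rfl
  have h1 : ∑ a ∈ range P, ∑ b ∈ range P, f a b = ∑ α : ZMod P, ∑ β : ZMod P, F α β := by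
    rw [← sum_range_zmod P (fun α => ∑ β : ZMod P, F α β)]
    refine sum_congr rfl fun a _ => ?_
    rw [← sum_range_zmod P (fun β => F a β)]
    refine sum_congr rfl fun b _ => ?_
    have := hFf a b
    rw [← this]
    push_cast
    rfl
  have h2 : ∑ α : ZMod P, ∑ β : ZMod P, F α β = -∑ α : ZMod P, ∑ β : ZMod P, F α β := by
    conv_lhs => rw [← Equiv.sum_comp (Units.mulRight (u ^ 2))]
    rw [← sum_neg_distrib]
    refine sum_congr rfl fun α _ => ?_
    rw [← Equiv.sum_comp (Units.mulRight (u ^ 3)), ← sum_neg_distrib]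
    refine sum_congr rfl fun β _ => ?_
    have := hFt α β
    simpa using this
  rw [h1]
  have h3 : (2:ℂ) * ∑ α : ZMod P, ∑ β : ZMod P, F α β = 0 := by linear_combination h2
  exact (mul_eq_zero.1 h3).resolve_left two_ne_zero

/-- values at even integers vanish -/
theorem mulf_even {w : ℕ → ℕ → ℂ} (h : ∀ k, 0 < k → w 2 k = 0) {n : ℕ} (hn : n ≠ 0) (h2 : 2 ∣ n) : mulf w n = 0 := by
  rw [mulf_apply w hn]
  unfold Finsupp.prod
  refine prod_eq_zero (i := 2) ?_ (h _ ?_)
  · rw [Nat.support_factorization, Nat.mem_primeFactors]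
    exact ⟨Nat.prime_two, h2, hn⟩
  · exact Nat.prime_two.factorization_pos_of_dvd hn h2

theorem hh_even {Y n : ℕ} (h2 : 2 ∣ n) (a b : ℤ) : hh Y a b n = 0 := by
  classical
  rcases Nat.eq_zero_or_pos n with rfl | hn
  · simp
  have hG : ¬ Gd a b 2 := fun h => Gd_ne_two h rfl
  rw [hh_apply]
  refine sum_eq_zero fun x hx => ?_
  have hx' := (Nat.mem_divisorsAntidiagonal.1 hx).1
  have hx1 : x.1 ≠ 0 := by rintro h; rw [h, zero_mul] at hx'; omega
  have hx2 : x.2 ≠ 0 := by rintro h; rw [h, mul_zero] at hx'; omega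
  rw [← hx'] at h2
  rcases (Nat.prime_two.dvd_mul).1 h2 with h | h
  · have : qf a b x.1 = 0 := mulf_even (fun k hk => by unfold wq; rw [if_neg hk.ne', if_neg hG]) hx1 h
    rw [tq_apply, this]
    simp
  · have : af a b x.2 = 0 := mulf_even (fun k hk => by unfold wa; rw [if_neg hk.ne', if_neg hG]) hx2 h
    rw [this, mul_zero]

/-- **the average of a product of coefficients vanishes unless the product of the indices is a square** -/
theorem prod_avg {ι : Type*} [Fintype ι] (Y : ℕ) (x : ι → ℕ) (hx : ∀ i, 0 < x i) (hsq : ¬ IsSquare (∏ i, x i)) (C : ℝ)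
    (hC : ∀ a b : ℤ, ‖∏ i, hh Y a b (x i)‖ ≤ C) (x0 y0 : ℤ) (L M : ℕ) :
    ‖∑ a ∈ Ico x0 (x0 + L), ∑ b ∈ Ico y0 (y0 + M), ∏ i, hh Y a b (x i)‖ ≤ C * (∏ i, x i : ℕ) * (L + M) := by
  classical
  set P : ℕ := ∏ i, x i with hPd
  have hP0 : 0 < P := prod_pos fun i _ => hx i
  have hdvd : ∀ i, x i ∣ P := fun i => dvd_prod_of_mem _ (mem_univ i)
  have hC0 : 0 ≤ C := (norm_nonneg _).trans (hC 0 0)
  by_cases h2 : 2 ∣ P
  · obtain ⟨i, -, hi⟩ := (Nat.prime_two.prime.dvd_finsetProd_iff _).1 h2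
    have : ∀ a b : ℤ, ∏ i, hh Y a b (x i) = 0 := fun a b => prod_eq_zero (mem_univ i) (hh_even hi a b)
    simp only [this, sum_const_zero, norm_zero]
    positivity
  · have hodd : Odd P := by rw [← Nat.not_even_iff_odd, even_iff_two_dvd]; exact h2
    obtain ⟨g, hg, hJ⟩ := ex_neg hodd hsq
    have hc : ∀ a b a' b' : ℤ, (P:ℤ) ∣ a' - a → (P:ℤ) ∣ b' - b → ∏ i, hh Y a' b' (x i) = ∏ i, hh Y a b (x i) :=
      fun a b a' b' h1 h2 => prod_congr rfl fun i _ => hh_congr (hdvd i) h1 h2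
    refine per_two hP0 (fun a b => ∏ i, hh Y a b (x i)) (fun a b => hc _ _ _ _ (by simp) (by simp))
      (fun a b => hc _ _ _ _ (by simp) (by simp)) (full_zero hP0 _ hc hg fun a b => ?_) C hC x0 y0 L M
    have h3 : ∀ i, hh Y (a * g ^ 2) (b * g ^ 3) (x i) = (jacobiSym g (x i) : ℂ) * hh Y a b (x i) := fun i => by
      refine hh_twist ?_
      have : Int.gcd g (x i) ∣ Int.gcd g P := Int.gcd_dvd_gcd_of_dvd_right g (by exact_mod_cast hdvd i)
      rw [hg] at this
      exact Nat.dvd_one.1 this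
    have h4 : ∀ S : Finset ι, ∏ i ∈ S, (jacobiSym g (x i) : ℂ) = (jacobiSym g (∏ i ∈ S, x i) : ℂ) := fun S => by
      induction S using Finset.induction_on with
      | empty => simp
      | insert i S hi ih =>
        have : NeZero (x i) := ⟨(hx i).ne'⟩
        have : NeZero (∏ i ∈ S, x i) := ⟨(prod_pos fun i _ => hx i).ne'⟩
        rw [prod_insert hi, prod_insert hi, ih, jacobiSym.mul_right]
        push_cast
        rfl
    simp only [h3]
    rw [prod_mul_distrib, h4, ← hPd, hJ]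
    push_cast
    ring

end Pool.Agent.KS6_10
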