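import Pool.Agent.KS6_10.Gam

/-!
# Rotated rays: the Mellin transform along `y ↦ G(ω y)`
-/

set_option autoImplicit false
set_option linter.unusedVariables false

namespace Pool.Agent.KS6_10

open Complex Set MeasureTheory Filter Topology
open scoped ComplexConjugate ENNReal

/-- `G(z) = ∑ c(n) e^{-2πnz}` and `G(1/(Nz)) = ε N z² G(z)` -/
structure RD (N : ℕ) (ε : ℝ) (c : ℕ → ℂ) (G : ℂ → ℂ) : Prop where
  Npos : 0 < N
  sgn : ε = 1 ∨ ε = -1
  zero : c 0 = 0
  real : ∀ n, conj (c n) = c n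
  bound : ∃ B : ℝ, 0 ≤ B ∧ ∀ n, ‖c n‖ ≤ B * (n:ℝ)
  sum : ∀ z : ℂ, 0 < z.re → HasSum (fun n : ℕ => c n * Complex.exp (-(2 * Real.pi * n * z))) (G z)
  fe : ∀ z : ℂ, 0 < z.re → G (1 / (N * z)) = ε * N * z ^ 2 * G z

variable {N : ℕ} {ε : ℝ} {c : ℕ → ℂ} {G : ℂ → ℂ}

theorem RD.summ (d : RD N ε c G) {δ : ℝ} (hδ : 0 < δ) : Summable fun n : ℕ => ‖c n‖ * Real.exp (-δ * n) := by
  obtain ⟨C, hC, hb⟩ := d.bound
  refine Summable.of_nonneg_of_le (fun n => by positivity) (fun n => ?_)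
    ((Real.summable_pow_mul_exp_neg_nat_mul 1 hδ).mul_left C)
  rw [← mul_assoc, pow_one]
  exact mul_le_mul_of_nonneg_right (hb n) (Real.exp_pos _).le

theorem norm_term (n : ℕ) (z : ℂ) :
    ‖Complex.exp (-(2 * Real.pi * n * z))‖ = Real.exp (-(2 * Real.pi * z.re) * n) := by
  rw [Complex.norm_exp]
  congr 1
  have e : (-(2 * (Real.pi:ℂ) * n * z)) = ((-(2 * Real.pi * n) : ℝ) : ℂ) * z := by push_cast; ring
  rw [e, Complex.re_ofReal_mul]
  ring

theorem RD.conj_eq (d : RD N ε c G) {z : ℂ} (hz : 0 < z.re) : G (conj z) = conj (G z) := by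
  have hz' : 0 < (conj z).re := by simpa using hz
  have h1 := (d.sum z hz).map (starRingEnd ℂ) Complex.continuous_conj
  refine (d.sum _ hz').unique ?_
  convert h1 using 2 with n
  simp only [Function.comp_apply, map_mul, d.real, ← Complex.exp_conj, map_neg, Complex.conj_ofReal, map_natCast,
    map_ofNat]

theorem RD.cont (d : RD N ε c G) {ω : ℂ} (hω : 0 < ω.re) : ContinuousOn (fun y : ℝ => G (ω * y)) (Ioi 0) := by
  intro y0 hy0
  have hy0' : 0 < y0 := hy0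
  have hpi := Real.pi_pos
  have hs : 0 < 2 * Real.pi * ω.re * (y0 / 2) := by positivity
  have h1 : ContinuousOn (fun y : ℝ => ∑' n : ℕ, c n * Complex.exp (-(2 * Real.pi * n * (ω * y)))) (Ioi (y0 / 2)) := by
    refine continuousOn_tsum (fun n => by fun_prop) (d.summ hs) fun n y hy => ?_
    have hy' : y0 / 2 < y := hy
    rw [norm_mul, norm_term, Complex.re_mul_ofReal]
    refine mul_le_mul_of_nonneg_left (Real.exp_le_exp.2 ?_) (norm_nonneg _)
    refine mul_le_mul_of_nonneg_right (neg_le_neg ?_) (Nat.cast_nonneg n)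
    rw [mul_assoc (2 * Real.pi) ω.re (y0/2)]
    refine mul_le_mul_of_nonneg_left (mul_le_mul_of_nonneg_left hy'.le hω.le) (by positivity)
  have h2 : ContinuousOn (fun y : ℝ => G (ω * y)) (Ioi (y0 / 2)) := h1.congr fun y hy => by
    have hy' : y0 / 2 < y := hy
    exact (d.sum _ (by rw [Complex.re_mul_ofReal]; exact mul_pos hω (by linarith))).tsum_eq.symm
  exact (h2.continuousAt (Ioi_mem_nhds (by linarith))).continuousWithinAt

theorem RD.dec (d : RD N ε c G) {ω : ℂ} (hω : 0 < ω.re) :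
    ∃ C : ℝ, 0 ≤ C ∧ ∀ y : ℝ, 1 ≤ y → ‖G (ω * y)‖ ≤ C * Real.exp (-(Real.pi * ω.re) * y) := by
  have hpi := Real.pi_pos
  have hs : 0 < Real.pi * ω.re := by positivity
  have hsum := d.summ hs
  refine ⟨∑' n : ℕ, ‖c n‖ * Real.exp (-(Real.pi * ω.re) * n), tsum_nonneg fun n => by positivity, fun y hy => ?_⟩
  rw [← (d.sum (ω * y) (by rw [Complex.re_mul_ofReal]; exact mul_pos hω (by linarith))).tsum_eq, ← tsum_mul_right]
  refine tsum_of_norm_bounded (g := fun n : ℕ => ‖c n‖ * Real.exp (-(Real.pi * ω.re) * n) * Real.exp (-(Real.pi * ω.re) * y))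
    (hsum.mul_right _).hasSum fun n => ?_
  rw [norm_mul, norm_term, Complex.re_mul_ofReal, mul_assoc ‖c n‖, ← Real.exp_add]
  rcases Nat.eq_zero_or_pos n with hn | hn
  · rw [hn, d.zero, norm_zero, zero_mul, zero_mul]
  have hn1 : (1:ℝ) ≤ n := by exact_mod_cast hn
  refine mul_le_mul_of_nonneg_left (Real.exp_le_exp.2 ?_) (norm_nonneg _)
  have e : -(2 * Real.pi * (ω.re * y)) * (n:ℝ) = -(Real.pi * ω.re) * (2 * n * y) := by ring
  rw [e, ← mul_add, neg_mul, neg_mul, neg_le_neg_iff]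
  refine mul_le_mul_of_nonneg_left ?_ hs.le
  nlinarith [mul_nonneg (sub_nonneg.2 hn1) (sub_nonneg.2 hy)]

theorem RD.top (d : RD N ε c G) {ω : ℂ} (hω : 0 < ω.re) (r : ℝ) :
    (fun y : ℝ => G (ω * y) - 0) =O[atTop] fun y : ℝ => y ^ r := by
  obtain ⟨C, hC, hb⟩ := d.dec hω
  have hs : 0 < Real.pi * ω.re := mul_pos Real.pi_pos hω
  have h1 := (isLittleO_exp_neg_mul_rpow_atTop hs r).isBigO
  refine Asymptotics.IsBigO.trans (Asymptotics.IsBigO.of_bound C ?_) h1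
  filter_upwards [eventually_ge_atTop 1] with y hy
  rw [sub_zero, Real.norm_eq_abs, abs_of_pos (Real.exp_pos _)]
  exact hb y hy

theorem RD.eps (d : RD N ε c G) : (ε : ℂ) ≠ 0 := by
  rcases d.sgn with h | h <;> rw [h] <;> norm_num

theorem RD.feq (d : RD N ε c G) {ω : ℂ} (hω : 0 < ω.re) (hN : (N:ℂ) * (ω * conj ω) = 1) {x : ℝ} (hx : 0 < x) :
    G (conj ω * ((1 / x : ℝ) : ℂ)) = (ε * N * ω ^ 2 * ((x ^ (2:ℝ) : ℝ) : ℂ)) * G (ω * x) := by
  have hxc : (x : ℂ) ≠ 0 := by exact_mod_cast hx.ne'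
  have hω0 : ω ≠ 0 := fun h => by rw [h] at hω; simp at hω
  have hNc : (N : ℂ) ≠ 0 := by exact_mod_cast d.Npos.ne'
  have h := d.fe (ω * x) (by rw [Complex.re_mul_ofReal]; exact mul_pos hω hx)
  have e1 : conj ω * ((1 / x : ℝ) : ℂ) = 1 / (N * (ω * x)) := by
    push_cast
    rw [eq_div_iff (by positivity)]
    field_simp
    linear_combination hN
  have e2 : ((x ^ (2:ℝ) : ℝ) : ℂ) = (x : ℂ) ^ 2 := by
    have : x ^ (2:ℝ) = x ^ (2:ℕ) := by norm_cast
    rw [this]; push_cast; ring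
  rw [e1, h, e2]
  ring

/-- the FE pair -/
noncomputable def RD.pair (d : RD N ε c G) {ω : ℂ} (hω : 0 < ω.re) (hN : (N:ℂ) * (ω * conj ω) = 1) : WeakFEPair ℂ where
  f := fun y => G (conj ω * y)
  g := fun y => G (ω * y)
  k := 2
  ε := ε * N * ω ^ 2
  f₀ := 0
  g₀ := 0
  hf_int := (d.cont (by simpa using hω)).locallyIntegrableOn measurableSet_Ioi
  hg_int := (d.cont hω).locallyIntegrableOn measurableSet_Ioi
  hk := two_pos
  hε := by
    have hω0 : ω ≠ 0 := fun h => by rw [h] at hω; simp at hω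
    have hNc : (N : ℂ) ≠ 0 := by exact_mod_cast d.Npos.ne'
    exact mul_ne_zero (mul_ne_zero d.eps hNc) (pow_ne_zero 2 hω0)
  h_feq := fun x hx => by
    rw [smul_eq_mul]
    exact d.feq hω hN hx
  hf_top := d.top (by simpa using hω)
  hg_top := d.top hω

theorem conj_hN {ω : ℂ} (hN : (N:ℂ) * (ω * conj ω) = 1) : (N:ℂ) * (conj ω * conj (conj ω)) = 1 := by
  rw [Complex.conj_conj, mul_comm (conj ω)]
  exact hN

theorem RD.entire (d : RD N ε c G) {ω : ℂ} (hω : 0 < ω.re) (hN : (N:ℂ) * (ω * conj ω) = 1) :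
    Differentiable ℂ (mellin fun y : ℝ => G (ω * y)) := by
  have hω' : 0 < (conj ω).re := by simpa using hω
  have hs : IsStrongFEPair (d.pair hω' (conj_hN hN)) := ⟨rfl, rfl⟩
  have h1 := hs.differentiable_Λ
  rw [hs.Λ_eq] at h1
  convert! h1 using 3
  show _ = G (conj (conj ω) * _)
  rw [Complex.conj_conj]

theorem RD.conv (d : RD N ε c G) {ω : ℂ} (hω : 0 < ω.re) (hN : (N:ℂ) * (ω * conj ω) = 1) (s : ℂ) :
    MellinConvergent (fun y : ℝ => G (ω * y)) s := by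
  have hω' : 0 < (conj ω).re := by simpa using hω
  have hs : IsStrongFEPair (d.pair hω' (conj_hN hN)) := ⟨rfl, rfl⟩
  have h1 := (hs.hasMellin s).1
  have e : (d.pair hω' (conj_hN hN)).f = fun y : ℝ => G (ω * y) := by
    funext y
    show G (conj (conj ω) * _) = _
    rw [Complex.conj_conj]
  rw [e] at h1
  exact h1

end Pool.Agent.KS6_10
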