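import Pool.Agent.KS6_10.Ray1

/-!
# Rotated rays: the Dirichlet series
-/

set_option autoImplicit false
set_option linter.unusedVariables false

namespace Pool.Agent.KS6_10

open Complex Set MeasureTheory Filter Topology
open scoped ComplexConjugate ENNReal

variable {N : ℕ} {ε : ℝ} {c : ℕ → ℂ} {G : ℂ → ℂ}

theorem cpow_real_mul {r : ℝ} (hr : 0 < r) {z : ℂ} (hz : z ≠ 0) (s : ℂ) :
    ((r : ℂ) * z) ^ s = (r : ℂ) ^ s * z ^ s := by
  have hrc : (r : ℂ) ≠ 0 := by exact_mod_cast hr.ne'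
  rw [Complex.cpow_def_of_ne_zero (mul_ne_zero hrc hz), Complex.cpow_def_of_ne_zero hrc, Complex.cpow_def_of_ne_zero hz,
    Complex.log_ofReal_mul hr hz, Complex.ofReal_log hr.le, add_mul, Complex.exp_add]

theorem RD.lsummable (d : RD N ε c G) {s : ℂ} (hs : 2 < s.re) : LSeriesSummable c s := by
  obtain ⟨B, hB, hb⟩ := d.bound
  refine LSeriesSummable_of_le_const_mul_rpow (x := 2) hs ⟨B, fun n hn => ?_⟩
  have : ((n:ℝ)) ^ ((2:ℝ) - 1) = n := by norm_num
  rw [this]
  exact hb n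

theorem RD.dir (d : RD N ε c G) {ω : ℂ} (hω : 0 < ω.re) {s : ℂ} (hs : 2 < s.re) :
    mellin (fun y : ℝ => G (ω * y)) s = Complex.Gamma s * ((2 * Real.pi : ℝ) * ω) ^ (-s) * LSeries c s := by
  have hpi := Real.pi_pos
  have hs0 : 0 < s.re := by linarith
  have hω0 : ω ≠ 0 := fun h => by rw [h] at hω; simp at hω
  have hsum := d.lsummable hs
  have ha' : -1 < (s - 1).re := by simp; linarith
  -- the terms
  set F : ℕ → ℝ → ℂ := fun n t => c n * ((t : ℂ) ^ (s - 1) * Complex.exp (-((2 * Real.pi * n * ω) * t))) with hF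
  have hz : ∀ n : ℕ, n ≠ 0 → 0 < (2 * (Real.pi:ℂ) * n * ω).re := fun n hn => by
    have e : (2 * (Real.pi:ℂ) * n * ω) = ((2 * Real.pi * n : ℝ) : ℂ) * ω := by push_cast; ring
    rw [e, Complex.re_ofReal_mul]
    have : (0:ℝ) < n := by exact_mod_cast Nat.pos_of_ne_zero hn
    positivity
  have hint : ∀ n, Integrable (F n) (volume.restrict (Ioi 0)) := fun n => by
    rcases eq_or_ne n 0 with hn | hn
    · have : F n = fun _ => 0 := by
        funext t; simp only [hF]; rw [hn, d.zero, zero_mul]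
      rw [this]; exact integrable_zero _ _ _
    · exact (lp_int (s - 1) ha' _ (hz n hn)).const_mul (c n)
  have hpow : ∀ n : ℕ, n ≠ 0 → (2 * (Real.pi:ℂ) * n * ω) ^ (-s) = ((2 * Real.pi : ℝ) * ω) ^ (-s) * ((n:ℂ) ^ s)⁻¹ := fun n hn => by
    have hn0 : (0:ℝ) < n := by exact_mod_cast Nat.pos_of_ne_zero hn
    have h2 : ((2 * Real.pi : ℝ) : ℂ) * ω ≠ 0 := mul_ne_zero (by exact_mod_cast (by positivity : 2 * Real.pi ≠ 0)) hω0
    have e : (2 * (Real.pi:ℂ) * n * ω) = ((n:ℝ) : ℂ) * (((2 * Real.pi : ℝ) : ℂ) * ω) := by push_cast; ring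
    rw [e, cpow_real_mul hn0 h2, mul_comm, Complex.ofReal_natCast, Complex.cpow_neg (n:ℂ)]
  have hval : ∀ n, ∫ t in Ioi (0:ℝ), F n t = Complex.Gamma s * ((2 * Real.pi : ℝ) * ω) ^ (-s) * LSeries.term c s n := fun n => by
    simp only [hF]
    rw [integral_const_mul]
    rcases eq_or_ne n 0 with hn | hn
    · rw [hn, d.zero, zero_mul, LSeries.term_zero, mul_zero]
    · rw [lap s hs0 _ (hz n hn), LSeries.term_of_ne_zero hn, hpow n hn]
      ring
  have hnorm : ∀ n, ∫ t in Ioi (0:ℝ), ‖F n t‖ = Real.Gamma s.re * (2 * Real.pi * ω.re) ^ (-s.re) * ‖LSeries.term c s n‖ := fun n => by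
    rcases eq_or_ne n 0 with hn | hn
    · simp only [hF]
      rw [hn, d.zero, LSeries.term_zero]
      simp
    · have hn0 : (0:ℝ) < n := by exact_mod_cast Nat.pos_of_ne_zero hn
      have h1 : ∫ t in Ioi (0:ℝ), ‖F n t‖ = ∫ t in Ioi (0:ℝ), ‖c n‖ * (t ^ (s.re - 1) * Real.exp (-((2 * Real.pi * n * ω).re * t))) := by
        refine setIntegral_congr_fun measurableSet_Ioi fun t ht => ?_
        have ht' : (0:ℝ) < t := ht
        simp only [hF]
        rw [norm_mul, lp_norm (s - 1) _ t ht', Real.rpow_one, Complex.sub_re, Complex.one_re, neg_mul]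
      rw [h1, integral_const_mul, Real.integral_rpow_mul_exp_neg_mul_Ioi hs0 (hz n hn), LSeries.norm_term_eq, if_neg hn]
      have e : (2 * (Real.pi:ℂ) * n * ω).re = n * (2 * Real.pi * ω.re) := by
        have e : (2 * (Real.pi:ℂ) * n * ω) = ((2 * Real.pi * n : ℝ) : ℂ) * ω := by push_cast; ring
        rw [e, Complex.re_ofReal_mul]; ring
      rw [e, one_div, Real.inv_rpow (by positivity), Real.mul_rpow hn0.le (by positivity), Real.rpow_neg (by positivity)]
      field_simp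
  have key := hasSum_integral_of_summable_integral_norm hint (by
    simp_rw [hnorm]
    exact hsum.norm.mul_left _)
  simp_rw [hval] at key
  have h2 : mellin (fun y : ℝ => G (ω * y)) s = ∫ t in Ioi (0:ℝ), ∑' n, F n t := by
    unfold mellin
    refine setIntegral_congr_fun measurableSet_Ioi fun t ht => ?_
    have ht' : (0:ℝ) < t := ht
    have h3 := (d.sum (ω * t) (by rw [Complex.re_mul_ofReal]; exact mul_pos hω ht')).mul_left ((t:ℂ) ^ (s - 1))
    simp only [smul_eq_mul]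
    rw [← h3.tsum_eq]
    refine tsum_congr fun n => ?_
    simp only [hF]
    rw [show (2 * (Real.pi:ℂ) * n * (ω * t)) = 2 * Real.pi * n * ω * t by ring]
    ring
  rw [h2, ← key.tsum_eq, tsum_mul_left]
  rfl

/-- the relation for all `s` -/
theorem RD.rel (d : RD N ε c G) {ω : ℂ} (hω : 0 < ω.re) (hN : (N:ℂ) * (ω * conj ω) = 1) {L : ℂ → ℂ}
    (hL : Differentiable ℂ L) (hL2 : ∀ s : ℂ, 2 < s.re → L s = LSeries c s) (s : ℂ) :
    L s = (Complex.Gamma s)⁻¹ * ((2 * Real.pi : ℝ) * ω) ^ s * mellin (fun y : ℝ => G (ω * y)) s := by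
  have hpi := Real.pi_pos
  have hω0 : ω ≠ 0 := fun h => by rw [h] at hω; simp at hω
  have h2 : ((2 * Real.pi : ℝ) : ℂ) * ω ≠ 0 := mul_ne_zero (by exact_mod_cast (by positivity : 2 * Real.pi ≠ 0)) hω0
  have hd : Differentiable ℂ fun s : ℂ => (Complex.Gamma s)⁻¹ * ((2 * Real.pi : ℝ) * ω) ^ s * mellin (fun y : ℝ => G (ω * y)) s := by
    refine (Complex.differentiable_one_div_Gamma.mul ?_).mul (d.entire hω hN)
    intro z
    exact DifferentiableAt.const_cpow differentiableAt_id (Or.inl h2)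
  have h3 : L = fun s : ℂ => (Complex.Gamma s)⁻¹ * ((2 * Real.pi : ℝ) * ω) ^ s * mellin (fun y : ℝ => G (ω * y)) s := by
    refine AnalyticOnNhd.eq_of_eventuallyEq (z₀ := 3) (fun z _ => hL.analyticAt z) (fun z _ => hd.analyticAt z) ?_
    have h4 : {z : ℂ | 2 < z.re} ∈ 𝓝 (3:ℂ) := (isOpen_lt continuous_const Complex.continuous_re).mem_nhds (by simp; norm_num)
    filter_upwards [h4] with z hz
    have hz' : 2 < z.re := hz
    have hG : Complex.Gamma z ≠ 0 := Complex.Gamma_ne_zero_of_re_pos (by linarith)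
    have hp : ((2 * Real.pi : ℝ) * ω) ^ z ≠ 0 := by
      rw [Complex.cpow_def_of_ne_zero h2]; exact Complex.exp_ne_zero _
    rw [d.dir hω hz', hL2 z hz', Complex.cpow_neg]
    field_simp
  exact congrFun h3 s

theorem RD.exists_entire (d : RD N ε c G) : ∃ L : ℂ → ℂ, Differentiable ℂ L ∧ ∀ s : ℂ, 2 < s.re → L s = LSeries c s := by
  have hpi := Real.pi_pos
  have hNr : (0:ℝ) < N := by exact_mod_cast d.Npos
  set ω : ℂ := ((1 / Real.sqrt N : ℝ) : ℂ) with hωd
  have hsq : 0 < Real.sqrt N := Real.sqrt_pos.2 hNr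
  have hω : 0 < ω.re := by rw [hωd, Complex.ofReal_re]; positivity
  have hN : (N:ℂ) * (ω * conj ω) = 1 := by
    rw [hωd, Complex.conj_ofReal, ← Complex.ofReal_mul, ← Complex.ofReal_natCast, ← Complex.ofReal_mul]
    have h1 := Real.mul_self_sqrt hNr.le
    have : (N:ℝ) * (1 / Real.sqrt N * (1 / Real.sqrt N)) = 1 := by
      field_simp
      rw [sq]; exact h1.symm
    rw [this, Complex.ofReal_one]
  have hω0 : ω ≠ 0 := fun h => by rw [h] at hω; simp at hω
  have h2 : ((2 * Real.pi : ℝ) : ℂ) * ω ≠ 0 := mul_ne_zero (by exact_mod_cast (by positivity : 2 * Real.pi ≠ 0)) hω0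
  refine ⟨fun s : ℂ => (Complex.Gamma s)⁻¹ * ((2 * Real.pi : ℝ) * ω) ^ s * mellin (fun y : ℝ => G (ω * y)) s, ?_, fun s hs => ?_⟩
  · refine (Complex.differentiable_one_div_Gamma.mul ?_).mul (d.entire hω hN)
    intro z
    exact DifferentiableAt.const_cpow differentiableAt_id (Or.inl h2)
  · have hG : Complex.Gamma s ≠ 0 := Complex.Gamma_ne_zero_of_re_pos (by linarith)
    have hp : ((2 * Real.pi : ℝ) * ω) ^ s ≠ 0 := by
      rw [Complex.cpow_def_of_ne_zero h2]; exact Complex.exp_ne_zero _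
    simp only
    rw [d.dir hω hs, Complex.cpow_neg]
    field_simp

end Pool.Agent.KS6_10
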