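import Pool.Agent.KS6_10.Ray2

/-!
# Rotated rays: the bound for the L-function
-/

set_option autoImplicit false
set_option linter.unusedVariables false

namespace Pool.Agent.KS6_10

open Complex Set MeasureTheory Filter Topology
open scoped ComplexConjugate ENNReal

variable {N : ℕ} {ε : ℝ} {c : ℕ → ℂ} {G : ℂ → ℂ}

theorem image_inv_Ioi1 : (fun x : ℝ => x⁻¹) '' Ioi 1 = Ioo 0 1 := by
  ext y
  constructor
  · rintro ⟨x, hx, rfl⟩
    have hx' : (1:ℝ) < x := hx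
    exact ⟨by positivity, inv_lt_one_of_one_lt₀ hx'⟩
  · rintro ⟨h0, h1⟩
    exact ⟨y⁻¹, (one_lt_inv₀ h0).2 h1, inv_inv y⟩

theorem lint_inv (g : ℝ → ℝ≥0∞) : ∫⁻ y in Ioo (0:ℝ) 1, g y = ∫⁻ x in Ioi (1:ℝ), ENNReal.ofReal ((x ^ 2)⁻¹) * g x⁻¹ := by
  rw [← image_inv_Ioi1, lintegral_image_eq_lintegral_abs_deriv_mul (f' := fun x => -(x ^ 2)⁻¹) measurableSet_Ioi]
  · refine setLIntegral_congr_fun measurableSet_Ioi fun x hx => ?_
    rw [abs_neg, abs_of_nonneg (by positivity)]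
  · intro x hx
    have hx' : (1:ℝ) < x := hx
    exact (hasDerivAt_inv (by linarith : x ≠ 0)).hasDerivWithinAt
  · intro x _ y _ h
    exact inv_injective h

theorem image_div_Ioi {r : ℝ} (hr : 0 < r) : (fun x : ℝ => r⁻¹ * x) '' Ioi r = Ioi 1 := by
  ext y
  constructor
  · rintro ⟨x, hx, rfl⟩
    have hx' : r < x := hx
    show 1 < r⁻¹ * x
    rw [inv_mul_eq_div, one_lt_div hr]
    exact hx'
  · intro hy
    have hy' : 1 < y := hy
    refine ⟨r * y, ?_, ?_⟩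
    · show r < r * y
      exact lt_mul_of_one_lt_right hr hy'
    · simp only
      rw [inv_mul_cancel_left₀ hr.ne']

theorem lint_scale {r : ℝ} (hr : 0 < r) (g : ℝ → ℝ≥0∞) :
    ∫⁻ y in Ioi (1:ℝ), g y = ∫⁻ x in Ioi r, ENNReal.ofReal r⁻¹ * g (r⁻¹ * x) := by
  rw [← image_div_Ioi hr, lintegral_image_eq_lintegral_abs_deriv_mul (f' := fun x => r⁻¹) measurableSet_Ioi]
  · refine setLIntegral_congr_fun measurableSet_Ioi fun x hx => ?_
    rw [abs_of_pos (by positivity)]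
  · intro x hx
    have := (hasDerivAt_id x).const_mul r⁻¹
    rw [mul_one] at this
    exact this.hasDerivWithinAt
  · intro x _ y _ h
    exact mul_left_cancel₀ (inv_ne_zero hr.ne') h

theorem RD.enorm_inv (d : RD N ε c G) {ω : ℂ} (hω : 0 < ω.re) (hN : (N:ℂ) * (ω * conj ω) = 1) {x : ℝ} (hx : 0 < x) :
    ‖G (ω * ((x⁻¹ : ℝ) : ℂ))‖ = x ^ 2 * ‖G (ω * x)‖ := by
  have hω' : 0 < (conj ω).re := by simpa using hω
  have h := d.feq hω' (conj_hN hN) hx
  rw [Complex.conj_conj] at h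
  rw [← one_div, h]
  have h1 : G (conj ω * x) = conj (G (ω * x)) := by
    rw [← d.conj_eq (by rw [Complex.re_mul_ofReal]; exact mul_pos hω hx), map_mul, Complex.conj_ofReal]
  rw [h1, norm_mul, Complex.norm_conj]
  congr 1
  rw [norm_mul, norm_mul, norm_mul, norm_pow, Complex.norm_conj]
  have h2 : (N:ℝ) * ‖ω‖ ^ 2 = 1 := by
    have h3 := congrArg norm hN
    rw [norm_mul, norm_mul, Complex.norm_conj, norm_one, Complex.norm_natCast] at h3
    rw [sq]; exact h3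
  have h4 : ‖(ε:ℂ)‖ = 1 := by
    rcases d.sgn with h | h <;> rw [h] <;> simp
  have h5 : x ^ (2:ℝ) = x ^ (2:ℕ) := by norm_cast
  rw [h4, one_mul, Complex.norm_natCast, h2, one_mul, Complex.norm_real, h5, Real.norm_of_nonneg (by positivity)]

theorem RD.mellin_le (d : RD N ε c G) {ω : ℂ} (hω : 0 < ω.re) (hN : (N:ℂ) * (ω * conj ω) = 1) {s : ℂ} (hs : 1 ≤ s.re) :
    ‖mellin (fun y : ℝ => G (ω * y)) s‖ₑ ≤ 2 * ∫⁻ y in Ioi (1:ℝ), ENNReal.ofReal (y ^ (s.re - 1)) * ‖G (ω * y)‖ₑ := by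
  have h1 : ‖mellin (fun y : ℝ => G (ω * y)) s‖ₑ ≤ ∫⁻ y in Ioi (0:ℝ), ENNReal.ofReal (y ^ (s.re - 1)) * ‖G (ω * y)‖ₑ := by
    unfold mellin
    refine (enorm_integral_le_lintegral_enorm _).trans (le_of_eq ?_)
    refine setLIntegral_congr_fun measurableSet_Ioi fun y hy => ?_
    have hy' : (0:ℝ) < y := hy
    simp only [smul_eq_mul]
    rw [enorm_mul]
    congr 1
    rw [← ofReal_norm, Complex.norm_cpow_eq_rpow_re_of_pos hy', Complex.sub_re, Complex.one_re]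
  have h2 : Ioi (0:ℝ) = Ioo 0 1 ∪ Ici 1 := by
    ext y
    simp only [mem_Ioi, mem_union, mem_Ioo, mem_Ici]
    constructor
    · intro h
      rcases lt_or_ge y 1 with h3 | h3
      · exact Or.inl ⟨h, h3⟩
      · exact Or.inr h3
    · rintro (h | h)
      · exact h.1
      · linarith
  have h3 : ∫⁻ y in Ioo (0:ℝ) 1, ENNReal.ofReal (y ^ (s.re - 1)) * ‖G (ω * y)‖ₑ ≤
      ∫⁻ y in Ioi (1:ℝ), ENNReal.ofReal (y ^ (s.re - 1)) * ‖G (ω * y)‖ₑ := by
    rw [lint_inv]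
    refine setLIntegral_mono' measurableSet_Ioi fun x hx => ?_
    have hx' : (1:ℝ) < x := hx
    have hx0 : (0:ℝ) < x := by linarith
    have h4 := d.enorm_inv hω hN hx0
    rw [← ofReal_norm, ← ofReal_norm, h4, ← ENNReal.ofReal_mul (by positivity), ← ENNReal.ofReal_mul (by positivity),
      ← ENNReal.ofReal_mul (by positivity)]
    refine ENNReal.ofReal_le_ofReal ?_
    have h5 : (x ^ 2)⁻¹ * (x⁻¹ ^ (s.re - 1) * (x ^ 2 * ‖G (ω * x)‖)) = x⁻¹ ^ (s.re - 1) * ‖G (ω * x)‖ := by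
      field_simp
    rw [h5]
    refine mul_le_mul_of_nonneg_right ?_ (norm_nonneg _)
    have h6 : x⁻¹ ^ (s.re - 1) ≤ 1 := Real.rpow_le_one (by positivity) (inv_le_one_of_one_le₀ hx'.le) (by linarith)
    exact h6.trans (Real.one_le_rpow hx'.le (by linarith))
  refine h1.trans ?_
  rw [h2]
  refine (lintegral_union_le _ _ _).trans ?_
  rw [setLIntegral_congr (Ioi_ae_eq_Ici (a := (1:ℝ)) (μ := volume)).symm, two_mul]
  exact add_le_add h3 le_rfl

/-- **the bound along the rotated ray** -/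
theorem RD.ray (d : RD N ε c G) {L : ℂ → ℂ} (hL : Differentiable ℂ L) (hL2 : ∀ s : ℂ, 2 < s.re → L s = LSeries c s)
    {ψ : ℝ} (h1 : -(Real.pi / 2) < ψ) (h2 : ψ < Real.pi / 2) {s : ℂ} (hs : 1 ≤ s.re) :
    ‖L s‖ₑ ≤ ENNReal.ofReal (2 * (2 * Real.pi) ^ s.re * ‖(Complex.Gamma s)⁻¹‖ * Real.exp (-(ψ * s.im))) *
      ∫⁻ v in Ioi (1 / Real.sqrt N), ENNReal.ofReal (v ^ (s.re - 1)) * ‖G (rot ψ * v)‖ₑ := by
  have hpi := Real.pi_pos
  have hNr : (0:ℝ) < N := by exact_mod_cast d.Npos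
  have hsq : 0 < Real.sqrt N := Real.sqrt_pos.2 hNr
  set r : ℝ := 1 / Real.sqrt N with hr
  have hr0 : 0 < r := by positivity
  set ω : ℂ := (r : ℂ) * rot ψ with hωd
  have hcos : 0 < (rot ψ).re := by rw [rot_re]; exact Real.cos_pos_of_mem_Ioo ⟨by linarith, h2⟩
  have hω : 0 < ω.re := by rw [hωd, Complex.re_ofReal_mul]; positivity
  have hN : (N:ℂ) * (ω * conj ω) = 1 := by
    rw [Complex.mul_conj, Complex.normSq_eq_norm_sq, hωd, norm_mul, rot_norm, mul_one, Complex.norm_real,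
      Real.norm_of_nonneg hr0.le, ← Complex.ofReal_natCast, ← Complex.ofReal_mul]
    have h3 := Real.sq_sqrt hNr.le
    have : (N:ℝ) * r ^ 2 = 1 := by
      rw [hr, div_pow, h3]; field_simp
    rw [this, Complex.ofReal_one]
  have hrel := d.rel hω hN hL hL2 s
  have hm := d.mellin_le hω hN hs
  have hsc : ∫⁻ y in Ioi (1:ℝ), ENNReal.ofReal (y ^ (s.re - 1)) * ‖G (ω * y)‖ₑ =
      ENNReal.ofReal (r ^ (-s.re)) * ∫⁻ v in Ioi r, ENNReal.ofReal (v ^ (s.re - 1)) * ‖G (rot ψ * v)‖ₑ := by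
    rw [lint_scale hr0, ← lintegral_const_mul' _ _ ENNReal.ofReal_ne_top]
    refine setLIntegral_congr_fun measurableSet_Ioi fun v hv => ?_
    have hv' : r < v := hv
    have hv0 : 0 < v := by linarith
    have e1 : ω * ((r⁻¹ * v : ℝ) : ℂ) = rot ψ * v := by
      rw [hωd]
      push_cast
      have : (r:ℂ) ≠ 0 := by exact_mod_cast hr0.ne'
      field_simp
    rw [e1, ← mul_assoc, ← mul_assoc]
    congr 1
    rw [← ENNReal.ofReal_mul (by positivity), ← ENNReal.ofReal_mul (by positivity)]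
    congr 1
    rw [Real.mul_rpow (by positivity) hv0.le, Real.inv_rpow hr0.le, ← mul_assoc]
    congr 1
    rw [← Real.rpow_neg hr0.le, ← Real.rpow_neg_one, ← Real.rpow_add hr0]
    congr 1
    ring
  have hnorm : ‖((2 * Real.pi : ℝ) * ω) ^ s‖ = (2 * Real.pi) ^ s.re * r ^ s.re * Real.exp (-(ψ * s.im)) := by
    have e : ((2 * Real.pi : ℝ) : ℂ) * ω = ((2 * Real.pi * r : ℝ) : ℂ) * rot ψ := by
      rw [hωd]; push_cast; ring
    rw [e, cpow_real_mul (by positivity) (rot_ne ψ), norm_mul, Complex.norm_cpow_eq_rpow_re_of_pos (by positivity),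
      Real.mul_rpow (by positivity) hr0.le]
    congr 1
    rw [Complex.norm_cpow_of_ne_zero (rot_ne ψ), rot_norm, Real.one_rpow, rot_arg (by linarith) (by linarith), one_div, ← Real.exp_neg]
  rw [hrel, enorm_mul, enorm_mul]
  have hrr : r ^ s.re * r ^ (-s.re) = 1 := by rw [← Real.rpow_add hr0, add_neg_cancel, Real.rpow_zero]
  calc ‖(Complex.Gamma s)⁻¹‖ₑ * ‖((2 * Real.pi : ℝ) * ω) ^ s‖ₑ * ‖mellin (fun y : ℝ => G (ω * y)) s‖ₑ
      ≤ ‖(Complex.Gamma s)⁻¹‖ₑ * ‖((2 * Real.pi : ℝ) * ω) ^ s‖ₑ * (2 * (ENNReal.ofReal (r ^ (-s.re)) *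
        ∫⁻ v in Ioi r, ENNReal.ofReal (v ^ (s.re - 1)) * ‖G (rot ψ * v)‖ₑ)) := by
        rw [← hsc]; gcongr
    _ = _ := by
        rw [← ofReal_norm, ← ofReal_norm (((2 * Real.pi : ℝ) * ω) ^ s), hnorm]
        have h22 : (2 : ℝ≥0∞) = ENNReal.ofReal 2 := by simp
        rw [h22, ← mul_assoc, ← mul_assoc, ← ENNReal.ofReal_mul (by positivity), ← ENNReal.ofReal_mul (by positivity),
          ← ENNReal.ofReal_mul (by positivity)]
        congr 2
        calc _ = 2 * (2 * Real.pi) ^ s.re * ‖(Complex.Gamma s)⁻¹‖ * Real.exp (-(ψ * s.im)) * (r ^ s.re * r ^ (-s.re)) := by ring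
          _ = _ := by rw [hrr, mul_one]

end Pool.Agent.KS6_10
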