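import Pool.Agent.KS6_10.Ray3

/-!
# Rotated rays: uniform bound in the strip `1 ≤ Re s ≤ 3`
-/

set_option autoImplicit false
set_option linter.unusedVariables false

namespace Pool.Agent.KS6_10

open Complex Set MeasureTheory Filter Topology
open scoped ComplexConjugate ENNReal

variable {N : ℕ} {ε : ℝ} {c : ℕ → ℂ} {G : ℂ → ℂ}

theorem conj_rot (ψ : ℝ) : conj (rot ψ) = rot (-ψ) := by
  unfold rot
  rw [← Complex.exp_conj, map_mul, Complex.conj_ofReal, Complex.conj_I]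
  push_cast
  ring_nf

theorem RD.norm_rot_neg (d : RD N ε c G) {ψ : ℝ} (h : 0 < Real.cos ψ) {v : ℝ} (hv : 0 < v) :
    ‖G (rot (-ψ) * v)‖ₑ = ‖G (rot ψ * v)‖ₑ := by
  have h1 : G (rot (-ψ) * v) = conj (G (rot ψ * v)) := by
    rw [← d.conj_eq (by rw [Complex.re_mul_ofReal, rot_re]; exact mul_pos h hv), map_mul, Complex.conj_ofReal, conj_rot]
  rw [h1, ← ofReal_norm, Complex.norm_conj, ofReal_norm]

/-- **uniform ray bound** -/
theorem ray_unif : ∃ C : ℝ, 0 < C ∧ ∀ (N : ℕ) (ε : ℝ) (c : ℕ → ℂ) (G : ℂ → ℂ), RD N ε c G → ∀ L : ℂ → ℂ, Differentiable ℂ L →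
    (∀ s : ℂ, 2 < s.re → L s = LSeries c s) → ∀ θ : ℝ, 0 < θ → θ ≤ 1 → ∀ s : ℂ, 1 ≤ s.re → s.re ≤ 3 →
    ‖L s‖ₑ ≤ ENNReal.ofReal (C * (1 + |s.im|) ^ (4:ℕ) * Real.exp (θ * |s.im|)) *
      ∫⁻ v in Ioi (1 / Real.sqrt N), ENNReal.ofReal (v ^ (s.re - 1)) * ‖G (rot (Real.pi / 2 - θ) * v)‖ₑ := by
  obtain ⟨C, hC, hG⟩ := gamma_lower
  have hpi := Real.pi_pos
  have hpi3 := Real.pi_gt_three
  refine ⟨2 * (2 * Real.pi) ^ (3:ℝ) * C, by positivity, fun N ε c G d L hL hL2 θ hθ hθ1 s h1 h3 => ?_⟩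
  have hNr : (0:ℝ) < N := by exact_mod_cast d.Npos
  have hsq : 0 < Real.sqrt N := Real.sqrt_pos.2 hNr
  have hr0 : 0 < 1 / Real.sqrt N := by positivity
  -- the scalar factor
  have key : ∀ ψ : ℝ, ψ * s.im = (Real.pi / 2 - θ) * |s.im| →
      2 * (2 * Real.pi) ^ s.re * ‖(Complex.Gamma s)⁻¹‖ * Real.exp (-(ψ * s.im)) ≤
      2 * (2 * Real.pi) ^ (3:ℝ) * C * (1 + |s.im|) ^ (4:ℕ) * Real.exp (θ * |s.im|) := by
    intro ψ hψ
    have e1 : (2 * Real.pi) ^ s.re ≤ (2 * Real.pi) ^ (3:ℝ) := Real.rpow_le_rpow_of_exponent_le (by linarith) h3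
    have e2 := hG s h1 h3
    rw [hψ]
    calc 2 * (2 * Real.pi) ^ s.re * ‖(Complex.Gamma s)⁻¹‖ * Real.exp (-((Real.pi / 2 - θ) * |s.im|))
        ≤ 2 * (2 * Real.pi) ^ (3:ℝ) * (C * (1 + |s.im|) ^ (4:ℕ) * Real.exp (Real.pi / 2 * |s.im|)) *
          Real.exp (-((Real.pi / 2 - θ) * |s.im|)) := by gcongr
      _ = 2 * (2 * Real.pi) ^ (3:ℝ) * C * (1 + |s.im|) ^ (4:ℕ) * (Real.exp (Real.pi / 2 * |s.im|) *
          Real.exp (-((Real.pi / 2 - θ) * |s.im|))) := by ring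
      _ = _ := by
          rw [← Real.exp_add]
          congr 2
          ring
  have hcos : 0 < Real.cos (Real.pi / 2 - θ) := by
    rw [Real.cos_pi_div_two_sub]
    exact Real.sin_pos_of_pos_of_lt_pi hθ (by linarith)
  rcases le_total 0 s.im with h0 | h0
  · refine (d.ray hL hL2 (ψ := Real.pi / 2 - θ) (by linarith) (by linarith) h1).trans ?_
    exact mul_le_mul' (ENNReal.ofReal_le_ofReal (key _ (by rw [abs_of_nonneg h0]))) le_rfl
  · refine (d.ray hL hL2 (ψ := -(Real.pi / 2 - θ)) (by linarith) (by linarith) h1).trans ?_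
    have hint : ∫⁻ v in Ioi (1 / Real.sqrt N), ENNReal.ofReal (v ^ (s.re - 1)) * ‖G (rot (-(Real.pi / 2 - θ)) * v)‖ₑ =
        ∫⁻ v in Ioi (1 / Real.sqrt N), ENNReal.ofReal (v ^ (s.re - 1)) * ‖G (rot (Real.pi / 2 - θ) * v)‖ₑ := by
      refine setLIntegral_congr_fun measurableSet_Ioi fun v hv => ?_
      have hv' : 1 / Real.sqrt N < v := hv
      rw [d.norm_rot_neg hcos (by linarith)]
    rw [hint]
    exact mul_le_mul' (ENNReal.ofReal_le_ofReal (key _ (by rw [abs_of_nonpos h0]; ring))) le_rfl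

end Pool.Agent.KS6_10
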