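import Pool.Agent.KS6_10.CountSum

/-!
# The mean square over the moduli
-/

set_option autoImplicit false

namespace Pool.Agent.KS6_10

open Finset Complex

/-- a discrete Sobolev inequality -/
theorem sobolev (φ : ℕ → ℂ) (x0 ℓ : ℕ) (hℓ : 0 < ℓ) (x : ℕ) (hx : x ∈ Ico x0 (x0 + ℓ)) :
    ‖φ x‖ ^ 2 ≤ 2 / ℓ * ∑ y ∈ Ico x0 (x0 + ℓ), ‖φ y‖ ^ 2 + 2 * ℓ * ∑ y ∈ Ico x0 (x0 + ℓ), ‖φ (y + 1) - φ y‖ ^ 2 := by
  have hℓ0 : (0:ℝ) < ℓ := by exact_mod_cast hℓ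
  set E : ℝ := ∑ y ∈ Ico x0 (x0 + ℓ), ‖φ (y + 1) - φ y‖ with hE
  have hstep : ∀ a b : ℕ, x0 ≤ a → a ≤ b → b ≤ x0 + ℓ → ‖φ b - φ a‖ ≤ E := by
    intro a b ha hab hb
    have h1 : φ b - φ a = ∑ y ∈ Ico a b, (φ (y + 1) - φ y) := (sum_Ico_sub φ hab).symm
    rw [h1]
    refine (norm_sum_le _ _).trans ?_
    exact sum_le_sum_of_subset_of_nonneg (Ico_subset_Ico ha hb) fun _ _ _ => norm_nonneg _
  have h2 : ∀ y ∈ Ico x0 (x0 + ℓ), ‖φ x‖ ^ 2 ≤ 2 * ‖φ y‖ ^ 2 + 2 * E ^ 2 := by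
    intro y hy
    obtain ⟨h3, h4⟩ := mem_Ico.1 hx
    obtain ⟨h5, h6⟩ := mem_Ico.1 hy
    have h7 : ‖φ x - φ y‖ ≤ E := by
      rcases le_total x y with h | h
      · rw [norm_sub_rev]; exact hstep x y h3 h h6.le
      · exact hstep y x h5 h h4.le
    have h8 : ‖φ x‖ ≤ ‖φ y‖ + E := by
      have := norm_add_le (φ y) (φ x - φ y)
      rw [add_sub_cancel] at this
      linarith
    have h9 : ‖φ x‖ ^ 2 ≤ (‖φ y‖ + E) ^ 2 := pow_le_pow_left₀ (norm_nonneg _) h8 2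
    nlinarith [sq_nonneg (‖φ y‖ - E)]
  have h3 : (ℓ : ℝ) * ‖φ x‖ ^ 2 ≤ 2 * ∑ y ∈ Ico x0 (x0 + ℓ), ‖φ y‖ ^ 2 + ℓ * (2 * E ^ 2) := by
    have := sum_le_sum h2
    rw [sum_const, Nat.card_Ico, Nat.add_sub_cancel_left, nsmul_eq_mul, sum_add_distrib, sum_const, Nat.card_Ico,
      Nat.add_sub_cancel_left, nsmul_eq_mul, ← mul_sum] at this
    exact this
  have h4 : E ^ 2 ≤ ℓ * ∑ y ∈ Ico x0 (x0 + ℓ), ‖φ (y + 1) - φ y‖ ^ 2 := by
    have := sq_sum_le_card_mul_sum_sq (s := Ico x0 (x0 + ℓ)) (f := fun y => ‖φ (y + 1) - φ y‖)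
    rw [Nat.card_Ico, Nat.add_sub_cancel_left] at this
    exact this
  have h5 : ‖φ x‖ ^ 2 ≤ 2 / ℓ * ∑ y ∈ Ico x0 (x0 + ℓ), ‖φ y‖ ^ 2 + 2 * E ^ 2 := by
    have h6 : (ℓ : ℝ) * ‖φ x‖ ^ 2 ≤ ℓ * (2 / ℓ * ∑ y ∈ Ico x0 (x0 + ℓ), ‖φ y‖ ^ 2 + 2 * E ^ 2) := by
      have e : (ℓ : ℝ) * (2 / ℓ * ∑ y ∈ Ico x0 (x0 + ℓ), ‖φ y‖ ^ 2 + 2 * E ^ 2) =
          2 * ∑ y ∈ Ico x0 (x0 + ℓ), ‖φ y‖ ^ 2 + ℓ * (2 * E ^ 2) := by
        field_simp
      rw [e]; exact h3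
    exact le_of_mul_le_mul_left h6 hℓ0
  linarith

theorem sum_biUnion_le' {ι α : Type*} [DecidableEq ι] [DecidableEq α] (s : Finset ι) (t : ι → Finset α) (f : α → ℝ)
    (hf : ∀ x, 0 ≤ f x) : ∑ x ∈ s.biUnion t, f x ≤ ∑ i ∈ s, ∑ x ∈ t i, f x := by
  induction s using Finset.induction_on with
  | empty => simp
  | insert a s ha ih =>
    rw [biUnion_insert, sum_insert ha]
    have h1 := sum_union_inter (s₁ := t a) (s₂ := s.biUnion t) (f := f)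
    have h2 : 0 ≤ ∑ x ∈ t a ∩ s.biUnion t, f x := sum_nonneg fun x _ => hf x
    linarith

/-- a block of consecutive moduli -/
theorem block (r : ℕ) [NeZero r] (S : Finset ℤ) (Q : ℤ → ZMod r) (w : ℤ → ℕ → ℂ) (D R : ℝ) (x0 ℓ : ℕ) (hℓ : 0 < ℓ)
    (hℓr : ℓ ≤ r) (hD : 0 ≤ D)
    (hw : ∀ h ∈ S, ∀ m ∈ Ico x0 (x0 + ℓ), ‖w h m‖ ≤ 1)
    (hw' : ∀ h ∈ S, ∀ m ∈ Ico x0 (x0 + ℓ), ‖w h (m + 1) - w h m‖ ≤ D)
    (hR : ((((S ×ˢ S).filter (fun x => Q x.1 = Q x.2)).card : ℕ) : ℝ) ≤ R) :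
    ∑ m ∈ (Ico x0 (x0 + ℓ)).filter (fun m => Nat.Coprime m r), ‖∑ h ∈ S, w h m * ec r ((m : ZMod r)⁻¹ * Q h)‖ ^ 2 ≤
      2 * (1 + (ℓ * D) ^ 2) * (r * R) := by
  classical
  have hℓ0 : (0:ℝ) < ℓ := by exact_mod_cast hℓ
  set φ : ZMod r → ℕ → ℂ := fun u x => ∑ h ∈ S, w h x * ec r (u * Q h) with hφ
  have e1 : ∀ y ∈ Ico x0 (x0 + ℓ), ∑ u : ZMod r, ‖φ u y‖ ^ 2 ≤ r * R := by
    intro y hy
    refine (mean_sq r S Q (fun h => w h y)).trans ?_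
    refine mul_le_mul_of_nonneg_left ?_ (Nat.cast_nonneg _)
    refine le_trans ?_ hR
    rw [card_filter, sum_product]
    push_cast
    refine sum_le_sum fun i hi => sum_le_sum fun j hj => ?_
    split_ifs
    · have h1 := hw i hi y hy
      have h2 := hw j hj y hy
      have h3 := norm_nonneg (w i y)
      have h4 := norm_nonneg (w j y)
      nlinarith
    · exact le_rfl
  have e2 : ∀ y ∈ Ico x0 (x0 + ℓ), ∑ u : ZMod r, ‖φ u (y + 1) - φ u y‖ ^ 2 ≤ D ^ 2 * (r * R) := by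
    intro y hy
    have e3 : ∀ u : ZMod r, φ u (y + 1) - φ u y = ∑ h ∈ S, (w h (y + 1) - w h y) * ec r (u * Q h) := by
      intro u
      rw [hφ]
      simp only
      rw [← sum_sub_distrib]
      exact sum_congr rfl fun h _ => by ring
    rw [sum_congr rfl fun u _ => by rw [e3 u]]
    refine (mean_sq r S Q (fun h => w h (y + 1) - w h y)).trans ?_
    have e4 : ∑ i ∈ S, ∑ j ∈ S, (if Q i = Q j then ‖w i (y + 1) - w i y‖ * ‖w j (y + 1) - w j y‖ else 0) ≤ D ^ 2 * R := by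
      refine le_trans ?_ (mul_le_mul_of_nonneg_left hR (by positivity))
      rw [card_filter, sum_product]
      push_cast
      rw [mul_sum]
      refine sum_le_sum fun i hi => ?_
      rw [mul_sum]
      refine sum_le_sum fun j hj => ?_
      split_ifs
      · have h1 := hw' i hi y hy
        have h2 := hw' j hj y hy
        have h3 := norm_nonneg (w i (y + 1) - w i y)
        have h4 := norm_nonneg (w j (y + 1) - w j y)
        nlinarith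
      · simp
    calc (r : ℝ) * ∑ i ∈ S, ∑ j ∈ S, (if Q i = Q j then ‖w i (y + 1) - w i y‖ * ‖w j (y + 1) - w j y‖ else 0)
        ≤ r * (D ^ 2 * R) := mul_le_mul_of_nonneg_left e4 (Nat.cast_nonneg _)
      _ = _ := by ring
  -- injectivity of the inverses
  have hinj : Set.InjOn (fun m : ℕ => (m : ZMod r)⁻¹) ((Ico x0 (x0 + ℓ)).filter (fun m => Nat.Coprime m r)) := by
    intro a ha b hb hab
    have ha' := mem_filter.1 (mem_coe.1 ha)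
    have hb' := mem_filter.1 (mem_coe.1 hb)
    simp only at hab
    have h1 : (a : ZMod r) = b := by
      have ea := ZMod.coe_mul_inv_eq_one a ha'.2
      have eb := ZMod.coe_mul_inv_eq_one b hb'.2
      calc (a : ZMod r) = a * (b * (b : ZMod r)⁻¹) := by rw [eb, mul_one]
        _ = (a * (b : ZMod r)⁻¹) * b := by ring
        _ = (a * (a : ZMod r)⁻¹) * b := by rw [hab]
        _ = b := by rw [ea, one_mul]
    have h2 := (ZMod.natCast_eq_natCast_iff _ _ _).1 h1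
    have h3 := (mem_Ico.1 ha'.1)
    have h4 := (mem_Ico.1 hb'.1)
    rcases le_total a b with hle | hle
    · have := (Nat.modEq_iff_dvd' hle).1 h2
      have h5 : b - a < r := by omega
      have := Nat.eq_zero_of_dvd_of_lt this h5
      omega
    · have := (Nat.modEq_iff_dvd' hle).1 h2.symm
      have h5 : a - b < r := by omega
      have := Nat.eq_zero_of_dvd_of_lt this h5
      omega
  have h1 : ∑ m ∈ (Ico x0 (x0 + ℓ)).filter (fun m => Nat.Coprime m r), ‖∑ h ∈ S, w h m * ec r ((m : ZMod r)⁻¹ * Q h)‖ ^ 2 ≤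
      ∑ m ∈ (Ico x0 (x0 + ℓ)).filter (fun m => Nat.Coprime m r),
        (2 / ℓ * ∑ y ∈ Ico x0 (x0 + ℓ), ‖φ ((m : ZMod r)⁻¹) y‖ ^ 2 +
          2 * ℓ * ∑ y ∈ Ico x0 (x0 + ℓ), ‖φ ((m : ZMod r)⁻¹) (y + 1) - φ ((m : ZMod r)⁻¹) y‖ ^ 2) := by
    refine sum_le_sum fun m hm => ?_
    exact sobolev (φ ((m : ZMod r)⁻¹)) x0 ℓ hℓ m (mem_filter.1 hm).1
  refine h1.trans ?_
  rw [← sum_image (f := fun u => 2 / (ℓ:ℝ) * ∑ y ∈ Ico x0 (x0 + ℓ), ‖φ u y‖ ^ 2 +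
          2 * ℓ * ∑ y ∈ Ico x0 (x0 + ℓ), ‖φ u (y + 1) - φ u y‖ ^ 2) hinj]
  refine (sum_le_sum_of_subset_of_nonneg (subset_univ _) fun _ _ _ => by positivity).trans ?_
  rw [sum_add_distrib, ← mul_sum, ← mul_sum, sum_comm, sum_comm (s := univ)]
  have h2 := sum_le_sum e1
  have h3 := sum_le_sum e2
  rw [sum_const, Nat.card_Ico, Nat.add_sub_cancel_left, nsmul_eq_mul] at h2 h3
  have h4 : 2 / (ℓ:ℝ) * ∑ y ∈ Ico x0 (x0 + ℓ), ∑ u : ZMod r, ‖φ u y‖ ^ 2 ≤ 2 / (ℓ:ℝ) * (ℓ * (r * R)) :=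
    mul_le_mul_of_nonneg_left h2 (by positivity)
  have h5 : 2 * (ℓ:ℝ) * ∑ y ∈ Ico x0 (x0 + ℓ), ∑ u : ZMod r, ‖φ u (y + 1) - φ u y‖ ^ 2 ≤ 2 * ℓ * (ℓ * (D ^ 2 * (r * R))) :=
    mul_le_mul_of_nonneg_left h3 (by positivity)
  have h6 : 2 / (ℓ:ℝ) * (ℓ * (r * R)) = 2 * (r * R) := by field_simp
  rw [h6] at h4
  nlinarith

/-- the polynomial `h³ + α κ² h + β κ³` -/
def qq (r : ℕ) (κ α β h : ℤ) : ZMod r := ((h ^ 3 + α * κ ^ 2 * h + β * κ ^ 3 : ℤ) : ZMod r)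

/-- the weight -/
noncomputable def ww (A g r : ℕ) (h : ℤ) (m : ℕ) : ℂ :=
  ((max 0 (1 - A * |(h : ℝ)| / (g * m)) : ℝ) : ℂ) * cexp (-(2 * Real.pi * I * (h ^ 3 : ℤ) / (r * m)))

theorem norm_phase (x : ℝ) : ‖cexp (-(2 * Real.pi * I * x))‖ = 1 := by
  have : (-(2 * Real.pi * I * x) : ℂ) = ((-(2 * Real.pi * x) : ℝ) : ℂ) * I := by push_cast; ring
  rw [this, Complex.norm_exp_ofReal_mul_I]

theorem ww_eq (A g r : ℕ) (h : ℤ) (m : ℕ) : ww A g r h m =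
    ((max 0 (1 - A * |(h : ℝ)| / (g * m)) : ℝ) : ℂ) * cexp (-(2 * Real.pi * I * (((h : ℝ) ^ 3 / (r * m) : ℝ) : ℂ))) := by
  unfold ww
  congr 2
  push_cast
  ring

theorem ww_le (A g r : ℕ) (h : ℤ) (m : ℕ) : ‖ww A g r h m‖ ≤ 1 := by
  rw [ww_eq, norm_mul, norm_phase, mul_one, Complex.norm_real, Real.norm_eq_abs, abs_of_nonneg (le_max_left _ _)]
  have : 0 ≤ A * |(h : ℝ)| / (g * m) := by positivity
  exact max_le zero_le_one (by linarith)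

theorem phase_lip (x y : ℝ) : ‖cexp (-(2 * Real.pi * I * x)) - cexp (-(2 * Real.pi * I * y))‖ ≤ 2 * Real.pi * |x - y| := by
  have e1 : ∀ z : ℝ, (-(2 * Real.pi * I * z) : ℂ) = ((-(2 * Real.pi * z) : ℝ) : ℂ) * I := by intro z; push_cast; ring
  have e2 : cexp (-(2 * Real.pi * I * x)) - cexp (-(2 * Real.pi * I * y)) =
      cexp (-(2 * Real.pi * I * y)) * (cexp (((-(2 * Real.pi * (x - y)) : ℝ) : ℂ) * I) - 1) := by
    rw [mul_sub, mul_one, ← Complex.exp_add]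
    congr 2
    push_cast; ring
  rw [e2, norm_mul, norm_phase, one_mul]
  have h3 := Real.norm_exp_I_mul_ofReal_sub_one_le (x := -(2 * Real.pi * (x - y)))
  rw [mul_comm] at h3
  refine h3.trans (le_of_eq ?_)
  rw [Real.norm_eq_abs, abs_neg, abs_mul, abs_of_pos (by positivity : (0:ℝ) < 2 * Real.pi)]

theorem ww_lip (A g r : ℕ) (hg : 0 < g) (hr : 0 < r) (h : ℤ) (m M : ℕ) (hM : 0 < M) (hm : M ≤ m) :
    ‖ww A g r h (m + 1) - ww A g r h m‖ ≤ (A * |(h:ℝ)| / g + 2 * Real.pi * |(h:ℝ)| ^ 3 / r) / M ^ 2 := by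
  have hM0 : (0:ℝ) < M := by exact_mod_cast hM
  have hm0 : (0:ℝ) < m := by exact_mod_cast hM.trans_le hm
  have hmM : (M:ℝ) ≤ m := by exact_mod_cast hm
  have hg0 : (0:ℝ) < g := by exact_mod_cast hg
  have hr0 : (0:ℝ) < r := by exact_mod_cast hr
  have hinv : 1 / (m:ℝ) - 1 / ((m:ℝ) + 1) ≤ 1 / M ^ 2 := by
    rw [div_sub_div _ _ hm0.ne' (by positivity), div_le_div_iff₀ (by positivity) (by positivity)]
    nlinarith
  have hinv0 : 0 ≤ 1 / (m:ℝ) - 1 / ((m:ℝ) + 1) := by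
    rw [sub_nonneg]
    exact one_div_le_one_div_of_le hm0 (by linarith)
  rw [ww_eq, ww_eq]
  push_cast
  set a : ℝ := max 0 (1 - A * |(h : ℝ)| / (g * ((m:ℝ) + 1))) with ha
  set b : ℝ := max 0 (1 - A * |(h : ℝ)| / (g * m)) with hb
  set x : ℝ := (h : ℝ) ^ 3 / (r * ((m:ℝ) + 1)) with hx
  set y : ℝ := (h : ℝ) ^ 3 / (r * m) with hy
  have ex : ((h : ℂ) ^ 3 / (r * ((m:ℂ) + 1))) = (x : ℂ) := by rw [hx]; push_cast; ring
  have ey : ((h : ℂ) ^ 3 / (r * m)) = (y : ℂ) := by rw [hy]; push_cast; ring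
  rw [ex, ey]
  have hb1 : |b| ≤ 1 := by
    rw [abs_of_nonneg (le_max_left _ _)]
    have : 0 ≤ A * |(h : ℝ)| / (g * m) := by positivity
    exact max_le zero_le_one (by linarith)
  have e1 : (a : ℂ) * cexp (-(2 * Real.pi * I * x)) - b * cexp (-(2 * Real.pi * I * y)) =
      ((a - b : ℝ) : ℂ) * cexp (-(2 * Real.pi * I * x)) + b * (cexp (-(2 * Real.pi * I * x)) - cexp (-(2 * Real.pi * I * y))) := by
    push_cast; ring
  rw [e1]
  refine (norm_add_le _ _).trans ?_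
  rw [norm_mul, norm_mul, norm_phase, mul_one, Complex.norm_real, Complex.norm_real, Real.norm_eq_abs, Real.norm_eq_abs]
  have h1 : |a - b| ≤ A * |(h:ℝ)| / g * (1 / M ^ 2) := by
    have h2 : |a - b| ≤ |(1 - A * |(h : ℝ)| / (g * ((m:ℝ) + 1))) - (1 - A * |(h : ℝ)| / (g * m))| := by
      rw [ha, hb, max_comm 0, max_comm 0]
      exact abs_max_sub_max_le_abs _ _ _
    refine h2.trans ?_
    have e2 : (1 - A * |(h : ℝ)| / (g * ((m:ℝ) + 1))) - (1 - A * |(h : ℝ)| / (g * m)) =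
        A * |(h:ℝ)| / g * (1 / (m:ℝ) - 1 / ((m:ℝ) + 1)) := by field_simp; ring
    rw [e2, abs_of_nonneg (by positivity)]
    exact mul_le_mul_of_nonneg_left hinv (by positivity)
  have h3 : ‖cexp (-(2 * Real.pi * I * x)) - cexp (-(2 * Real.pi * I * y))‖ ≤ 2 * Real.pi * |(h:ℝ)| ^ 3 / r * (1 / M ^ 2) := by
    refine (phase_lip x y).trans ?_
    have e3 : x - y = -((h:ℝ) ^ 3 / r * (1 / (m:ℝ) - 1 / ((m:ℝ) + 1))) := by
      rw [hx, hy]; field_simp; ring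
    rw [e3, abs_neg, abs_mul, abs_div, abs_pow, abs_of_pos hr0, abs_of_nonneg hinv0]
    calc 2 * Real.pi * (|(h:ℝ)| ^ 3 / r * (1 / (m:ℝ) - 1 / ((m:ℝ) + 1)))
        ≤ 2 * Real.pi * (|(h:ℝ)| ^ 3 / r * (1 / M ^ 2)) := by
          refine mul_le_mul_of_nonneg_left (mul_le_mul_of_nonneg_left hinv (by positivity)) (by positivity)
      _ = _ := by ring
  have h4 : |b| * ‖cexp (-(2 * Real.pi * I * x)) - cexp (-(2 * Real.pi * I * y))‖ ≤ 2 * Real.pi * |(h:ℝ)| ^ 3 / r * (1 / M ^ 2) := by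
    have := norm_nonneg (cexp (-(2 * Real.pi * I * x)) - cexp (-(2 * Real.pi * I * y)))
    nlinarith
  calc |a - b| + |b| * ‖cexp (-(2 * Real.pi * I * x)) - cexp (-(2 * Real.pi * I * y))‖
      ≤ A * |(h:ℝ)| / g * (1 / M ^ 2) + 2 * Real.pi * |(h:ℝ)| ^ 3 / r * (1 / M ^ 2) := add_le_add h1 h4
    _ = _ := by ring

/-- the exponential sum over `h` -/
noncomputable def vv (A g : ℕ) (κ α β : ℤ) [NeZero (g * κ.natAbs ^ 2)] (H : ℕ) (m : ℕ) : ℂ :=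
  ∑ h ∈ Icc (-(H : ℤ)) H, ww A g (g * κ.natAbs ^ 2) h m *
    ec (g * κ.natAbs ^ 2) ((m : ZMod (g * κ.natAbs ^ 2))⁻¹ * qq (g * κ.natAbs ^ 2) κ α β h)

/-- the mean square over a dyadic block of moduli -/
theorem dyadic (A g : ℕ) (κ α β : ℤ) [NeZero (g * κ.natAbs ^ 2)] (H M : ℕ) (U : ℝ) (hA : 0 < A) (hg : 0 < g) (hκ : κ ≠ 0)
    (hM : 0 < M) (hU : 1 ≤ U) (hH : (H : ℝ) ≤ 2 * g * M / A) (h1 : (κ.natAbs : ℝ) ^ 2 ≤ U * M)
    (h2 : 16 * Real.pi * g ^ 2 * M ≤ U * A ^ 3) :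
    ∑ m ∈ (Ico M (2 * M)).filter (fun m => Nat.Coprime m (g * κ.natAbs ^ 2)), ‖vv A g κ α β H m‖ ^ 2 ≤
      40 * U ^ 3 * g * M * rc κ.natAbs H := by
  classical
  set k := κ.natAbs with hk
  have hk0 : 0 < k := Int.natAbs_pos.2 hκ
  set r := g * k ^ 2 with hr
  have hr0 : 0 < r := by positivity
  have hk0' : (0:ℝ) < k := by exact_mod_cast hk0
  have hg0 : (0:ℝ) < g := by exact_mod_cast hg
  have hA0 : (0:ℝ) < A := by exact_mod_cast hA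
  have hM0 : (0:ℝ) < M := by exact_mod_cast hM
  have hU0 : (0:ℝ) < U := by linarith
  have hr0' : (0:ℝ) < r := by exact_mod_cast hr0
  have hrr : (r : ℝ) = g * k ^ 2 := by rw [hr]; push_cast; ring
  set D : ℝ := 3 * U / k ^ 2 with hD
  have hD0 : 0 ≤ D := by positivity
  -- the number of solutions
  have hR : ((((Icc (-(H : ℤ)) H ×ˢ Icc (-(H : ℤ)) H).filter (fun x => qq r κ α β x.1 = qq r κ α β x.2)).card : ℕ) : ℝ) ≤ rc k H := by
    unfold rc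
    refine Nat.cast_le.2 (card_le_card ?_)
    intro x hx
    obtain ⟨hx1, hx2⟩ := mem_filter.1 hx
    refine mem_filter.2 ⟨hx1, ?_⟩
    unfold qq at hx2
    rw [ZMod.intCast_eq_intCast_iff_dvd_sub] at hx2
    have h3 : ((k : ℤ) ^ 2) ∣ (r : ℤ) := by rw [hr]; push_cast; exact dvd_mul_left _ _
    have h4 : κ ^ 2 = (k : ℤ) ^ 2 := by rw [hk]; exact (Int.natAbs_sq κ).symm
    have h5 := h3.trans hx2
    have h6 : x.1 ^ 3 - x.2 ^ 3 = -(x.2 ^ 3 + α * κ ^ 2 * x.2 + β * κ ^ 3 - (x.1 ^ 3 + α * κ ^ 2 * x.1 + β * κ ^ 3)) +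
        (k : ℤ) ^ 2 * (α * (x.2 - x.1)) := by rw [← h4]; ring
    rw [h6]
    exact dvd_add (Dvd.dvd.neg_right h5) (dvd_mul_right _ _)
  -- Lipschitz bound
  have hlip : ∀ h ∈ Icc (-(H : ℤ)) H, ∀ m : ℕ, M ≤ m → ‖ww A g r h (m + 1) - ww A g r h m‖ ≤ D := by
    intro h hh m hm
    refine (ww_lip A g r hg hr0 h m M hM hm).trans ?_
    have hhH : |(h : ℝ)| ≤ H := by
      have := abs_le.2 (mem_Icc.1 hh)
      exact_mod_cast this
    have hh2 : |(h : ℝ)| ≤ 2 * g * M / A := hhH.trans hH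
    have e1 : A * |(h:ℝ)| / g ≤ 2 * M := by
      rw [div_le_iff₀ hg0]
      rw [le_div_iff₀ hA0] at hh2
      linarith
    have e2 : |(h:ℝ)| ^ 3 ≤ (2 * g * M / A) ^ 3 := pow_le_pow_left₀ (abs_nonneg _) hh2 3
    have e3 : 2 * Real.pi * |(h:ℝ)| ^ 3 / r ≤ U * M ^ 2 / k ^ 2 := by
      have hpi := Real.pi_pos
      calc 2 * Real.pi * |(h:ℝ)| ^ 3 / r ≤ 2 * Real.pi * (2 * g * M / A) ^ 3 / r := by gcongr
        _ = (16 * Real.pi * g ^ 2 * M) * M ^ 2 / (A ^ 3 * k ^ 2) := by rw [hrr]; field_simp; ring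
        _ ≤ (U * A ^ 3) * M ^ 2 / (A ^ 3 * k ^ 2) := by gcongr
        _ = U * M ^ 2 / k ^ 2 := by field_simp
    rw [div_le_iff₀ (by positivity), hD]
    have e4 : 3 * U / k ^ 2 * M ^ 2 = U * M ^ 2 / k ^ 2 + 2 * (U * M) * M / k ^ 2 := by ring
    rw [e4]
    have e5 : 2 * (M:ℝ) ≤ 2 * (U * M) * M / k ^ 2 := by
      rw [le_div_iff₀ (by positivity)]
      nlinarith
    linarith
  -- blocks
  set n := M / k ^ 2 + 1 with hn
  have hk2 : 0 < k ^ 2 := by positivity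
  have hcov : (Ico M (2 * M)).filter (fun m => Nat.Coprime m r) ⊆
      (range n).biUnion fun j => (Ico (M + j * k ^ 2) (M + j * k ^ 2 + k ^ 2)).filter (fun m => Nat.Coprime m r) := by
    intro m hm
    obtain ⟨h3, h4⟩ := mem_filter.1 hm
    obtain ⟨h5, h6⟩ := mem_Ico.1 h3
    rw [mem_biUnion]
    refine ⟨(m - M) / k ^ 2, ?_, ?_⟩
    · rw [mem_range, hn, Nat.lt_succ_iff]
      exact Nat.div_le_div_right (by omega)
    · rw [mem_filter, mem_Ico]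
      have h7 := Nat.div_mul_le_self (m - M) (k ^ 2)
      have h8 := Nat.lt_div_mul_add hk2 (a := m - M)
      refine ⟨⟨by omega, by omega⟩, h4⟩
  have hblock : ∀ j ∈ range n, ∑ m ∈ (Ico (M + j * k ^ 2) (M + j * k ^ 2 + k ^ 2)).filter (fun m => Nat.Coprime m r), ‖vv A g κ α β H m‖ ^ 2 ≤
      20 * U ^ 2 * (r * rc k H) := by
    intro j _
    have h3 := block r (Icc (-(H : ℤ)) H) (qq r κ α β) (ww A g r) D (rc k H) (M + j * k ^ 2) (k ^ 2) hk2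
      (by rw [hr]; exact Nat.le_mul_of_pos_left _ hg) hD0 (fun h _ m _ => ww_le A g r h m)
      (fun h hh m hm => hlip h hh m (by have := (mem_Ico.1 hm).1; omega)) hR
    refine h3.trans ?_
    have e5 : ((k ^ 2 : ℕ) : ℝ) * D = 3 * U := by
      rw [hD]; push_cast; field_simp
    rw [e5]
    have hrc : (0:ℝ) ≤ r * rc k H := by positivity
    have : 2 * (1 + (3 * U) ^ 2) ≤ 20 * U ^ 2 := by nlinarith
    exact mul_le_mul_of_nonneg_right this hrc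
  calc ∑ m ∈ (Ico M (2 * M)).filter (fun m => Nat.Coprime m r), ‖vv A g κ α β H m‖ ^ 2
      ≤ ∑ m ∈ (range n).biUnion fun j => (Ico (M + j * k ^ 2) (M + j * k ^ 2 + k ^ 2)).filter (fun m => Nat.Coprime m r),
          ‖vv A g κ α β H m‖ ^ 2 := sum_le_sum_of_subset_of_nonneg hcov fun _ _ _ => by positivity
    _ ≤ ∑ j ∈ range n, ∑ m ∈ (Ico (M + j * k ^ 2) (M + j * k ^ 2 + k ^ 2)).filter (fun m => Nat.Coprime m r),
          ‖vv A g κ α β H m‖ ^ 2 := sum_biUnion_le' _ _ _ fun _ => by positivity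
    _ ≤ ∑ j ∈ range n, 20 * U ^ 2 * (r * rc k H) := sum_le_sum hblock
    _ = n * (20 * U ^ 2 * (r * rc k H)) := by rw [sum_const, card_range, nsmul_eq_mul]
    _ ≤ (2 * U * M / k ^ 2) * (20 * U ^ 2 * (r * rc k H)) := by
        refine mul_le_mul_of_nonneg_right ?_ (by positivity)
        rw [hn]
        push_cast
        have e6 : ((M / k ^ 2 : ℕ) : ℝ) ≤ M / k ^ 2 := by
          have := @Nat.cast_div_le ℝ _ _ _ M (k ^ 2)
          push_cast at this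
          exact this
        have e7 : (1:ℝ) ≤ U * M / k ^ 2 := by rw [le_div_iff₀ (by positivity)]; linarith
        have e8 : (M : ℝ) / k ^ 2 ≤ U * M / k ^ 2 := by
          refine div_le_div_of_nonneg_right ?_ (by positivity)
          nlinarith
        have e9 : 2 * U * M / (k:ℝ) ^ 2 = U * M / k ^ 2 + U * M / k ^ 2 := by ring
        linarith
    _ = 40 * U ^ 3 * g * M * rc k H := by rw [hrr]; field_simp; ring

end Pool.Agent.KS6_10
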