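import Pool.Agent.KS6_10.Blk

/-!
# Values of the coefficients on squarefree integers
-/

set_option autoImplicit false
set_option linter.unusedVariables false

namespace Pool.Agent.KS6_10

open Finset ArithmeticFunction
open scoped ArithmeticFunction ArithmeticFunction.Moebius

theorem cop6_5 {p : ℕ} (hp : p.Prime) (h : Nat.Coprime p 6) : 5 ≤ p := by
  by_contra hcon
  have h2 := hp.two_le
  have h3 : p = 2 ∨ p = 3 ∨ p = 4 := by omega
  rcases h3 with rfl | rfl | rfl
  · exact absurd h (by decide)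
  · exact absurd h (by decide)
  · exact absurd hp (by decide)

theorem cmul_sq (a b : ℤ) (n : ℕ) : Squarefree n → Nat.Coprime n 6 →
    cmul (vS a b) n = (SS n a b : ℂ) ∧ cmul (vA a b) n = (μ n : ℂ) * (SS n a b : ℂ) := by
  induction n using Nat.recOnPosPrimePosCoprime with
  | prime_pow p n hp hn =>
    intro hsq h6
    have hn1 : n = 1 := by
      by_contra hne
      have h2 : 2 ≤ n := by omega
      have h3 : p * p ∣ p ^ n := by rw [← pow_two]; exact pow_dvd_pow p h2
      exact hp.one_lt.ne' (Nat.isUnit_iff.1 (hsq p h3))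
    subst hn1
    rw [pow_one] at h6 ⊢
    have h5 := cop6_5 hp h6
    rw [cmul_prime _ hp, cmul_prime _ hp, moebius_apply_prime hp]
    unfold vA vS
    rw [if_pos h5]
    refine ⟨rfl, ?_⟩
    push_cast
    ring
  | zero => intro h; exact absurd h not_squarefree_zero
  | one =>
    intro _ _
    rw [SS_one, cmul_one, cmul_one]
    simp
  | coprime x y hx hy hxy ihx ihy =>
    intro hsq h6
    have h1 := ihx (hsq.squarefree_of_dvd (dvd_mul_right _ _)) (Nat.Coprime.coprime_mul_right h6)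
    have h2 := ihy (hsq.squarefree_of_dvd (dvd_mul_left _ _)) (Nat.Coprime.coprime_mul_left h6)
    rw [SS_mul x y hxy, cmul_mul, cmul_mul, isMultiplicative_moebius.map_mul_of_coprime hxy, h1.1, h1.2, h2.1, h2.2]
    push_cast
    exact ⟨rfl, by ring⟩

theorem cmul_zero_of {v : ℕ → ℂ} {p n : ℕ} (hp : p.Prime) (hv : v p = 0) (h : p ∣ n) : cmul v n = 0 := by
  obtain ⟨m, rfl⟩ := h
  rw [cmul_mul, cmul_prime v hp, hv, zero_mul]

theorem sfi_zero {a b : ℤ} {n : ℕ} (h : ¬ (Squarefree n ∧ Nat.Coprime n 6)) : sfi (vS a b) n = 0 ∧ sfi (vA a b) n = 0 := by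
  rw [sfi_apply, sfi_apply]
  by_cases hsq : Squarefree n
  · have h6 : ¬ Nat.Coprime n 6 := fun h6 => h ⟨hsq, h6⟩
    have h23 : 2 ∣ n ∨ 3 ∣ n := by
      by_contra hcon
      push Not at hcon
      apply h6
      have e : 6 = 2 * 3 := by norm_num
      rw [e]
      exact Nat.Coprime.mul_right (((Nat.Prime.coprime_iff_not_dvd Nat.prime_two).2 hcon.1).symm)
        (((Nat.Prime.coprime_iff_not_dvd Nat.prime_three).2 hcon.2).symm)
    have hv2 : vS a b 2 = 0 := by unfold vS; rw [if_neg (by norm_num)]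
    have hv3 : vS a b 3 = 0 := by unfold vS; rw [if_neg (by norm_num)]
    rcases h23 with h2 | h3
    · rw [cmul_zero_of Nat.prime_two hv2 h2, cmul_zero_of Nat.prime_two (by unfold vA; rw [hv2, neg_zero]) h2]
      simp
    · rw [cmul_zero_of Nat.prime_three hv3 h3, cmul_zero_of Nat.prime_three (by unfold vA; rw [hv3, neg_zero]) h3]
      simp
  · rw [moebius_eq_zero_of_not_squarefree hsq]
    simp

theorem sfi_vS_val {a b : ℤ} {n : ℕ} (h : Squarefree n ∧ Nat.Coprime n 6) : sfi (vS a b) n = (μ n : ℂ) * (SS n a b : ℂ) := by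
  rw [sfi_apply, (cmul_sq a b n h.1 h.2).1]

theorem sfi_vA_val {a b : ℤ} {n : ℕ} (h : Squarefree n ∧ Nat.Coprime n 6) : sfi (vA a b) n = (SS n a b : ℂ) := by
  rw [sfi_apply, (cmul_sq a b n h.1 h.2).2, ← mul_assoc]
  have : (μ n : ℤ) * μ n = 1 := by
    rcases moebius_sq_eq_one_of_squarefree h.1 with h1
    rw [← sq]; exact h1
  have h2 : ((μ n : ℤ) : ℂ) * ((μ n : ℤ) : ℂ) = 1 := by exact_mod_cast this
  rw [h2, one_mul]

theorem norm_moeb_le (n : ℕ) : ‖((μ n : ℤ) : ℂ)‖ ≤ 1 := by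
  rw [Complex.norm_intCast]
  exact_mod_cast abs_moebius_le_one

/-- sum over `range (2^J)` by dyadic blocks -/
theorem sum_dyadic (f : ℕ → ℂ) (hf : ∀ n, ¬ (Squarefree n ∧ Nat.Coprime n 6) → f n = 0) (J : ℕ) :
    ∑ n ∈ range (2 ^ J), f n = ∑ j ∈ range J, ∑ n ∈ dy j, f n := by
  induction J with
  | zero =>
    have h0 := hf 0 (fun h => not_squarefree_zero h.1)
    simp [h0]
  | succ J ih =>
    rw [sum_range_succ, ← ih, range_eq_Ico, range_eq_Ico, ← sum_Ico_consecutive f (Nat.zero_le (2 ^ J)) (Nat.pow_le_pow_right (by norm_num) (Nat.le_succ J))]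
    congr 1
    unfold dy
    rw [sum_filter_of_ne]
    intro n _ hn
    by_contra h
    exact hn (hf n h)

end Pool.Agent.KS6_10
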